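import Pool.Agent.X117.Der3

/-!
# Joint moments of all derivatives of Hardy's function: the exact order
-/

namespace Pool.Agent.X117.MS

open Filter Topology MeasureTheory Complex Set Metric
open Pool.Agent.X117.HZ Pool.Agent.X117.DZ Pool.Agent.X117.SZ Pool.Agent.X117.RM Pool.Agent.X117.JF
open Pool.Agent.X117.DS

/-- the sum of the exponents -/
noncomputable def tot (m : ℕ) (b : ℕ → ℝ) : ℝ := ∑ j ∈ Finset.range (m + 1), b j

/-- the exponent -/
noncomputable def mex (m : ℕ) (b : ℕ → ℝ) : ℝ := tot m b ^ 2 / 4 + ∑ j ∈ Finset.range (m + 1), j * b j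

/-- the joint moment over `D ∩ [T, 2 T]` -/
noncomputable def jm (m : ℕ) (b : ℕ → ℝ) (D : Set ℝ) (T : ℝ) : ENNReal :=
  ∫⁻ t in D ∩ Icc T (2 * T), ENNReal.ofReal (∏ j ∈ Finset.range (m + 1), |iteratedDeriv j Z t| ^ b j)

lemma prod_low {m : ℕ} {b : ℕ → ℝ} {c L z : ℝ} (hc : 0 < c) (hL : 0 < L) (hz : 0 < z) {x : ℕ → ℝ}
    (hx : ∀ j, j ≤ m → c * (L ^ j * z) ≤ x j ∧ c * x j ≤ L ^ j * z) :
    (∏ j ∈ Finset.range (m + 1), c ^ |b j|) * L ^ (∑ j ∈ Finset.range (m + 1), j * b j) * z ^ tot m b ≤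
      ∏ j ∈ Finset.range (m + 1), x j ^ b j := by
  rw [tot, Real.rpow_sum_of_pos hL, Real.rpow_sum_of_pos hz, ← Finset.prod_mul_distrib, ← Finset.prod_mul_distrib]
  refine Finset.prod_le_prod (fun j _ => by positivity) fun j hj => ?_
  obtain ⟨h1, h2⟩ := hx j (by rw [Finset.mem_range] at hj; omega)
  have hy : 0 < L ^ j * z := by positivity
  have e1 : L ^ ((j : ℝ) * b j) * z ^ b j = (L ^ j * z) ^ b j := by
    rw [Real.mul_rpow (by positivity) hz.le, ← Real.rpow_natCast L j, ← Real.rpow_mul hL.le]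
  rw [mul_assoc, e1]
  rcases le_or_gt 0 (b j) with h3 | h3
  · rw [abs_of_nonneg h3, ← Real.mul_rpow hc.le hy.le]
    exact Real.rpow_le_rpow (by positivity) h1 h3
  · have hxj : 0 < x j := lt_of_lt_of_le (by positivity) h1
    rw [abs_of_neg h3]
    have h4 : x j ≤ (L ^ j * z) / c := by
      rw [le_div_iff₀ hc]
      linarith
    have h5 := Real.rpow_le_rpow_of_nonpos hxj h4 h3.le
    refine le_trans (le_of_eq ?_) h5
    rw [Real.div_rpow hy.le hc.le, Real.rpow_neg hc.le]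
    ring

theorem joint_low {m : ℕ} {b : ℕ → ℝ} (h0 : 0 < tot m b) (h4 : tot m b ≤ 4) {a η : ℝ} (ha : 0 < a) (hη : 0 < η) :
    ∃ c : ℝ, 0 < c ∧ ∀ᶠ T : ℝ in atTop, ∀ D : Set ℝ, MeasurableSet D → RelDense η (a / Real.log T) T D →
      ENNReal.ofReal (c * (T * Real.log T ^ mex m b)) ≤ jm m b D T := by
  obtain ⟨c, hc, hmass⟩ := deriv_mass (k := tot m b / 2) (by linarith) (by linarith) m ha hη
  set q : ℝ := ∏ j ∈ Finset.range (m + 1), c ^ |b j| with hq
  have hq0 : 0 < q := Finset.prod_pos fun j _ => by positivity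
  refine ⟨q * c, by positivity, ?_⟩
  filter_upwards [hmass, eventually_ge_atTop (1 : ℝ), Real.tendsto_log_atTop.eventually_ge_atTop 1] with T hT hT1 hL1
  intro D hD hDd
  have h1 := hT D hD hDd
  have hL0 : 0 < Real.log T := by linarith
  set L := Real.log T with hL
  set s : ℝ := ∑ j ∈ Finset.range (m + 1), (j : ℝ) * b j with hs
  have h2k : 2 * (tot m b / 2) = tot m b := by ring
  have e1 : ENNReal.ofReal (q * c * (T * L ^ mex m b)) =
      ENNReal.ofReal (q * L ^ s) * ENNReal.ofReal (c * (T * L ^ ((tot m b / 2) ^ 2))) := by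
    rw [← ENNReal.ofReal_mul (by positivity)]
    congr 1
    have e2 : mex m b = s + (tot m b / 2) ^ 2 := by
      rw [mex, hs]
      ring
    rw [e2, Real.rpow_add hL0]
    ring
  rw [e1]
  refine (mul_le_mul' le_rfl h1).trans ?_
  rw [← lintegral_const_mul' _ _ ENNReal.ofReal_ne_top, jm]
  have hsub : comp m c D T ⊆ D ∩ Icc T (2 * T) := fun t ht => ⟨ht.1, ht.2.1, ht.2.2.1⟩
  refine le_trans (setLIntegral_mono' (comp_meas m c hD T) fun t ht => ?_) (lintegral_mono_set hsub)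
  rw [← ENNReal.ofReal_mul (by positivity), h2k]
  refine ENNReal.ofReal_le_ofReal ?_
  rcases (abs_nonneg (Z t)).lt_or_eq with hz | hz
  · exact prod_low hc hL0 hz ht.2.2.2
  · rw [← hz, Real.zero_rpow h0.ne', mul_zero]
    exact Finset.prod_nonneg fun j _ => Real.rpow_nonneg (abs_nonneg _) _

theorem joint_upper {m : ℕ} {b : ℕ → ℝ} (hb : ∀ j, j ≤ m → 0 ≤ b j) (h0 : 0 < tot m b) (h4 : tot m b ≤ 4) :
    ∃ C : ℝ, 0 < C ∧ ∀ᶠ T : ℝ in atTop, jm m b univ T ≤ ENNReal.ofReal (C * (T * Real.log T ^ mex m b)) := by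
  obtain ⟨C2, C3, hC2, hC3, hmaj⟩ := major3 (k := tot m b / 2) (by linarith) (by linarith)
  set q : ℝ := ∏ j ∈ Finset.range (m + 1), (j.factorial : ℝ) ^ b j with hq
  have hq0 : 0 < q := Finset.prod_pos fun j _ => by
    have : (0 : ℝ) < j.factorial := by exact_mod_cast j.factorial_pos
    positivity
  refine ⟨q * (C2 * Real.exp (C3 * 1)), by positivity, ?_⟩
  filter_upwards [hmaj 1 le_rfl, eventually_ge_atTop (1 : ℝ), Real.tendsto_log_atTop.eventually_ge_atTop 8]
    with T q2 hT1 hL8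
  have hL0 : 0 < Real.log T := by linarith
  set L := Real.log T with hL
  obtain ⟨P, hPc, hP0, hPb, hPi⟩ := q2
  set s : ℝ := ∑ j ∈ Finset.range (m + 1), (j : ℝ) * b j with hs
  have h2k : 2 * (tot m b / 2) = tot m b := by ring
  rw [h2k] at hPb
  have h1L : 1 / L < 1 / 4 := by
    rw [div_lt_div_iff₀ hL0 (by norm_num)]
    linarith
  have hpt : ∀ t ∈ univ ∩ Icc T (2 * T), ENNReal.ofReal (∏ j ∈ Finset.range (m + 1), |iteratedDeriv j Z t| ^ b j) ≤
      ENNReal.ofReal (q * L ^ s) * ENNReal.ofReal (P t) := by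
    rintro t ⟨-, ht⟩
    rw [← ENNReal.ofReal_mul (by positivity)]
    refine ENNReal.ofReal_le_ofReal ?_
    set M : ℝ := P t ^ (1 / tot m b) with hM
    have hM0 : 0 ≤ M := Real.rpow_nonneg (hP0 t) _
    have hMk : M ^ tot m b = P t := by
      rw [hM, ← Real.rpow_mul (hP0 t), one_div_mul_cancel h0.ne', Real.rpow_one]
    have hzM : ∀ s : ℂ, ‖s - (1 / 2 + I * t)‖ ≤ 1 / L → ‖riemannZeta s‖ ≤ M := by
      intro s hs
      have h8 := Real.rpow_le_rpow (Real.rpow_nonneg (norm_nonneg _) _) (hPb t ht s hs)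
        (show 0 ≤ 1 / tot m b by positivity)
      rwa [← Real.rpow_mul (norm_nonneg _), mul_one_div_cancel h0.ne', Real.rpow_one] at h8
    have hx : ∀ j, |iteratedDeriv j Z t| ≤ j.factorial * (L ^ j * M) := by
      intro j
      have h1 := cauchy (t0 := t) (by linarith [ht.1]) (show 0 < 1 / L by positivity) h1L hzM j
      refine h1.trans (le_of_eq ?_)
      rw [one_div, inv_pow]
      field_simp
    have e3 : q * L ^ s * P t = ∏ j ∈ Finset.range (m + 1), ((j.factorial : ℝ) * (L ^ j * M)) ^ b j := by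
      rw [← hMk, tot, Real.rpow_sum_of_nonneg hM0 (fun j hj => hb j (by rw [Finset.mem_range] at hj; omega)), hq, hs,
        Real.rpow_sum_of_pos hL0, ← Finset.prod_mul_distrib, ← Finset.prod_mul_distrib]
      refine Finset.prod_congr rfl fun j _ => ?_
      rw [Real.mul_rpow (by positivity) (by positivity), Real.mul_rpow (by positivity) hM0, ← Real.rpow_natCast L j,
        ← Real.rpow_mul hL0.le]
      ring
    rw [e3]
    refine Finset.prod_le_prod (fun j _ => Real.rpow_nonneg (abs_nonneg _) _) fun j hj => ?_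
    exact Real.rpow_le_rpow (abs_nonneg _) (hx j) (hb j (by rw [Finset.mem_range] at hj; omega))
  rw [jm]
  refine (setLIntegral_mono' (MeasurableSet.univ.inter measurableSet_Icc) hpt).trans ?_
  rw [univ_inter, lintegral_const_mul' _ _ ENNReal.ofReal_ne_top]
  refine (mul_le_mul' le_rfl hPi).trans (le_of_eq ?_)
  rw [← ENNReal.ofReal_mul (by positivity)]
  congr 1
  have e2 : mex m b = s + (tot m b / 2) ^ 2 := by
    rw [mex, hs]
    ring
  rw [e2, Real.rpow_add hL0]
  ring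

end Pool.Agent.X117.MS
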