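import Pool.Agent.X117.Sup2
import Pool.Agent.H370R2.Local

/-!
# The sums over all zeros near the line with ordinate in `(0, T]`
-/

namespace Pool.Agent.X117.SZ

open Filter Topology MeasureTheory Complex H370 Set Metric
open Pool.Agent.Y745.UP Pool.Agent.Y419.UP Pool.Agent.X117.DZ

/-- the discrete moments of the derivatives over the zeros near the line -/
theorem near_sum {k A : ℝ} (hk : 0 < k) (hk2 : k ≤ 2) (hA : 1 ≤ A) (j : ℕ) : ∃ C : ℝ, 1 ≤ C ∧ ∃ T₀ : ℝ, 3 ≤ T₀ ∧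
    4 * A ≤ Real.log T₀ ∧ ∀ T : ℝ, T₀ ≤ T → ∀ Z : Finset ℂ, (∀ z ∈ Z, riemannZeta z = 0 ∧
      |z.re - 1 / 2| ≤ A / Real.log T ∧ 0 < z.im ∧ z.im ≤ T) →
    ∑ z ∈ Z, (analyticOrderNatAt riemannZeta z : ℝ) * ‖iteratedDeriv j riemannZeta z‖ ^ (2 * k) ≤
      C * (T * Real.log T ^ (k ^ 2 + 2 * k * j + 1)) := by
  classical
  obtain ⟨C₁, hC₁, h⟩ := crowd_deriv hk hk2 hA j
  obtain ⟨T₁, hT₁⟩ := Filter.eventually_atTop.mp h
  set T₀ : ℝ := max (max T₁ 3) (Real.exp (4 * A)) with hT₀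
  have h3 : 3 ≤ T₀ := (le_max_right _ _).trans (le_max_left _ _)
  have hT₁₀ : T₁ ≤ T₀ := (le_max_left _ _).trans (le_max_left _ _)
  have h4A : 4 * A ≤ Real.log T₀ := by
    rw [Real.le_log_iff_exp_le (by linarith)]
    exact le_max_right _ _
  set q : ℝ := k ^ 2 + 2 * k * j + 1 with hq
  have hq0 : 0 ≤ q := by positivity
  set w : ℂ → ℝ := fun z => (analyticOrderNatAt riemannZeta z : ℝ) * ‖iteratedDeriv j riemannZeta z‖ ^ (2 * k)
    with hw
  have hw0 : ∀ z, 0 ≤ w z := fun z => mul_nonneg (Nat.cast_nonneg _) (Real.rpow_nonneg (norm_nonneg _) _)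
  have hlog : ∀ T : ℝ, T₀ ≤ T → 4 ≤ Real.log T := by
    intro T hT
    have := Real.log_le_log (show 0 < T₀ by linarith) hT
    linarith
  set G : ℝ → ℝ := fun T => T * Real.log T ^ q with hG
  have hG0 : ∀ T : ℝ, T₀ ≤ T → 0 ≤ G T := by
    intro T hT
    have := hlog T hT
    have h6 : 0 ≤ T := by linarith
    rw [hG]
    positivity
  have hGm : ∀ T U : ℝ, T₀ ≤ T → T ≤ U → G T ≤ G U := by
    intro T U hT hU
    have h4 := hlog T hT
    have h5 : Real.log T ≤ Real.log U := Real.log_le_log (by linarith) hU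
    rw [hG]
    simp only
    have h6 : 0 ≤ T := by linarith
    have h7 : 0 ≤ U := by linarith
    gcongr
  -- one dyadic piece
  have hpiece : ∀ T : ℝ, T₀ ≤ T → ∀ X : ℝ, T ≤ X → ∀ Z : Finset ℂ, (∀ z ∈ Z, riemannZeta z = 0 ∧
      |z.re - 1 / 2| ≤ A / Real.log X ∧ T ≤ z.im ∧ z.im ≤ 2 * T) → ∑ z ∈ Z, w z ≤ C₁ * G T := by
    intro T hT X hX Z hZ
    have h5 := hlog T hT
    have h6 := hT₁ T (hT₁₀.trans hT) 0 1 one_pos le_rfl Z fun z hz => by
      obtain ⟨a1, a2, a3, a4⟩ := hZ z hz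
      refine ⟨a1, a2.trans ?_, a3, a4, ∅, by simp, Nat.zero_le _⟩
      exact div_le_div_of_nonneg_left (by linarith) (by linarith) (Real.log_le_log (by linarith) hX)
    refine h6.trans (le_of_eq ?_)
    rw [Real.one_rpow, mul_one]
  -- the zeros up to `T₀`
  set F₀ := (H370.zeta_zeros_finite T₀).toFinset with hF₀
  set K : ℝ := ∑ z ∈ F₀, w z with hK
  have hK0 : 0 ≤ K := Finset.sum_nonneg fun z _ => hw0 z
  have hbase : ∀ X : ℝ, T₀ ≤ X → ∀ Z : Finset ℂ, (∀ z ∈ Z, riemannZeta z = 0 ∧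
      |z.re - 1 / 2| ≤ A / Real.log X ∧ 0 < z.im ∧ z.im ≤ T₀) → ∑ z ∈ Z, w z ≤ K := by
    intro X hX Z hZ
    refine Finset.sum_le_sum_of_subset_of_nonneg (fun z hz => ?_) fun z _ _ => hw0 z
    obtain ⟨a1, a2, a3, a4⟩ := hZ z hz
    have h5 : A / Real.log X ≤ 1 / 4 := by
      have h6 := Real.log_le_log (show 0 < T₀ by linarith) hX
      rw [div_le_div_iff₀ (by linarith) (by norm_num)]
      linarith
    have h6 := a2.trans h5
    rw [abs_le] at h6
    rw [hF₀, Set.Finite.mem_toFinset]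
    refine ⟨?_, ?_, a3, a4, a1⟩
    · linarith [h6.1]
    · linarith [h6.2]
  have hsplit : ∀ (Z : Finset ℂ) (U : ℝ), ∑ z ∈ Z, w z =
      ∑ z ∈ Z.filter (fun z => z.im ≤ U), w z + ∑ z ∈ Z.filter (fun z => ¬ z.im ≤ U), w z :=
    fun Z U => (Finset.sum_filter_add_sum_filter_not _ _ _).symm
  have key : ∀ n : ℕ, ∀ T : ℝ, T₀ ≤ T → T ≤ 2 ^ n * T₀ → ∀ X : ℝ, T ≤ X → ∀ Z : Finset ℂ,
      (∀ z ∈ Z, riemannZeta z = 0 ∧ |z.re - 1 / 2| ≤ A / Real.log X ∧ 0 < z.im ∧ z.im ≤ T) →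
      ∑ z ∈ Z, w z ≤ K + 2 * C₁ * G T := by
    intro n
    induction n with
    | zero =>
      intro T hT hT2 X hX Z hZ
      have e : T = T₀ := by linarith
      have h5 := hbase X (by linarith) Z fun z hz => by
        obtain ⟨a1, a2, a3, a4⟩ := hZ z hz
        exact ⟨a1, a2, a3, by linarith⟩
      have h6 := hG0 T hT
      nlinarith
    | succ n ih =>
      intro T hT hT2 X hX Z hZ
      rcases le_total T (2 * T₀) with h5 | h5
      · rw [hsplit Z T₀]
        have h6 := hbase X (by linarith) (Z.filter (fun z => z.im ≤ T₀)) fun z hz => by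
          obtain ⟨hz1, hz2⟩ := Finset.mem_filter.mp hz
          obtain ⟨a1, a2, a3, a4⟩ := hZ z hz1
          exact ⟨a1, a2, a3, hz2⟩
        have h7 := hpiece T₀ le_rfl X (by linarith) (Z.filter (fun z => ¬ z.im ≤ T₀)) fun z hz => by
          obtain ⟨hz1, hz2⟩ := Finset.mem_filter.mp hz
          obtain ⟨a1, a2, a3, a4⟩ := hZ z hz1
          exact ⟨a1, a2, (not_le.mp hz2).le, by linarith⟩
        have h8 := hGm T₀ T le_rfl hT
        have h9 := hG0 T hT
        nlinarith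
      · rw [hsplit Z (T / 2)]
        have h7 : T₀ ≤ T / 2 := by linarith
        have h6 := ih (T / 2) h7 (by
          rw [pow_succ] at hT2
          linarith) X (by linarith) (Z.filter (fun z => z.im ≤ T / 2)) fun z hz => by
            obtain ⟨hz1, hz2⟩ := Finset.mem_filter.mp hz
            obtain ⟨a1, a2, a3, a4⟩ := hZ z hz1
            exact ⟨a1, a2, a3, hz2⟩
        have h8 := hpiece (T / 2) h7 X (by linarith) (Z.filter (fun z => ¬ z.im ≤ T / 2)) fun z hz => by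
          obtain ⟨hz1, hz2⟩ := Finset.mem_filter.mp hz
          obtain ⟨a1, a2, a3, a4⟩ := hZ z hz1
          exact ⟨a1, a2, (not_le.mp hz2).le, by linarith⟩
        have h9 : G (T / 2) ≤ G T / 2 := by
          have h10 := hlog (T / 2) h7
          have h11 : Real.log (T / 2) ≤ Real.log T := Real.log_le_log (by linarith) (by linarith)
          rw [hG]
          simp only
          have h12 : Real.log (T / 2) ^ q ≤ Real.log T ^ q := by gcongr
          have h13 : T / 2 * Real.log (T / 2) ^ q ≤ T / 2 * Real.log T ^ q :=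
            mul_le_mul_of_nonneg_left h12 (by linarith)
          linarith
        have h10 := hG0 T hT
        have h11 : C₁ * G (T / 2) ≤ C₁ * (G T / 2) := mul_le_mul_of_nonneg_left h9 (by linarith)
        have h12 : 0 ≤ C₁ * G T := by positivity
        linarith
  refine ⟨K + 2 * C₁, by linarith, T₀, h3, h4A, fun T hT Z hZ => ?_⟩
  obtain ⟨n, hn⟩ := pow_unbounded_of_one_lt (T / T₀) (show (1 : ℝ) < 2 by norm_num)
  have hn2 : T ≤ 2 ^ n * T₀ := by
    rw [div_lt_iff₀ (by linarith)] at hn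
    exact hn.le
  refine (key n T hT hn2 T le_rfl Z hZ).trans ?_
  have h4 := hlog T hT
  have h5 : 1 ≤ G T := by
    rw [hG]
    simp only
    have h6 : 1 ≤ Real.log T ^ q := Real.one_le_rpow (by linarith) hq0
    nlinarith
  show K + 2 * C₁ * G T ≤ (K + 2 * C₁) * G T
  nlinarith

/-- zeros have positive multiplicity -/
lemma one_le_ord {s : ℂ} (hs : 0 < s.im) (h0 : riemannZeta s = 0) : 1 ≤ analyticOrderNatAt riemannZeta s := by
  have hne : s ≠ 1 := by
    rintro rfl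
    simp at hs
  have hpre : IsPreconnected ({1}ᶜ : Set ℂ) :=
    (isConnected_compl_singleton_of_one_lt_rank (by simp) (1 : ℂ)).isPreconnected
  have han : ∀ z ∈ ({1}ᶜ : Set ℂ), AnalyticAt ℂ riemannZeta z := by
    intro z hz
    have : DifferentiableOn ℂ riemannZeta ({1}ᶜ : Set ℂ) := fun z hz =>
      (differentiableAt_riemannZeta hz).differentiableWithinAt
    exact this.analyticAt (isOpen_compl_singleton.mem_nhds hz)
  exact (H370.Loc.mult_pos (f := riemannZeta) (K := {1}ᶜ) hpre han (c := 2)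
    (by simp) (riemannZeta_ne_zero_of_one_le_re (by norm_num)) hne).2 h0

end Pool.Agent.X117.SZ
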