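import Pool.Agent.X117.Dens1
import Pool.Agent.H401R2.Chi

/-!
# Double sectors are relatively dense
-/

namespace Pool.Agent.X117.DS

open Filter Topology MeasureTheory Complex
open Pool.Agent.Y745.LD Pool.Agent.X117.HZ

/-- the phase without its error term -/
noncomputable def th (t : ℝ) : ℝ := t / 2 * (Real.log (t / (2 * Real.pi)) - 1) - Real.pi / 8

lemma th_deriv {t : ℝ} (ht : 0 < t) : HasDerivAt th (Real.log (t / (2 * Real.pi)) / 2) t := by
  have hp := Real.pi_pos
  have h1 : HasDerivAt (fun t : ℝ => t / (2 * Real.pi)) (1 / (2 * Real.pi)) t := (hasDerivAt_id t).div_const _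
  have h2 : HasDerivAt (fun t : ℝ => Real.log (t / (2 * Real.pi))) (1 / (2 * Real.pi) / (t / (2 * Real.pi))) t :=
    h1.log (by positivity)
  have h3 : HasDerivAt (fun t : ℝ => t / 2) (1 / 2) t := (hasDerivAt_id t).div_const _
  have h4 := (h3.mul (h2.sub_const 1)).sub_const (Real.pi / 8)
  refine h4.congr_deriv ?_
  field_simp
  ring

/-- the phase is close to `exp (i th t)` -/
lemma phase_near {t : ℝ} (ht : 100 ≤ t) : ∃ w : ℂ, ‖w - 1‖ ≤ 9 / t ∧ phase t = cexp (th t * I) * w := by
  obtain ⟨e, he, hc⟩ := Pool.Agent.H401R2.chi_asymp (σ := 1 / 2) (t := t) (by norm_num) (by norm_num) ht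
  have ht0 : 0 < t := by linarith
  set u : ℂ := 1 + e with hu
  have h4 : 4 / t ≤ 1 / 25 := by
    rw [div_le_div_iff₀ ht0 (by norm_num)]
    linarith
  have he1 : ‖e‖ ≤ 1 / 25 := he.trans h4
  have hun : 24 / 25 ≤ ‖u‖ := by
    have h := norm_sub_norm_le (1 : ℂ) (-e)
    rw [norm_one, norm_neg, sub_neg_eq_add, ← hu] at h
    linarith
  have hu0 : (‖u‖ : ℂ) ≠ 0 := by
    rw [Complex.ofReal_ne_zero]; linarith
  refine ⟨u / ‖u‖, ?_, ?_⟩
  · have h1 : u / (‖u‖ : ℂ) - 1 = (u - ‖u‖) / ‖u‖ := by field_simp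
    have h2 : ‖u - (‖u‖ : ℂ)‖ ≤ 2 * ‖e‖ := by
      have h3 : u - (‖u‖ : ℂ) = e + ((1 - ‖u‖ : ℝ) : ℂ) := by
        rw [hu]; push_cast; ring
      rw [h3]
      refine (norm_add_le _ _).trans ?_
      rw [Complex.norm_real, Real.norm_eq_abs]
      have h5 : |1 - ‖u‖| ≤ ‖e‖ := by
        have h := abs_norm_sub_norm_le (1 : ℂ) u
        rw [norm_one] at h
        refine h.trans (le_of_eq ?_)
        rw [hu, show (1 : ℂ) - (1 + e) = -e by ring, norm_neg]
      linarith
    rw [h1, norm_div, Complex.norm_real, norm_norm, div_le_div_iff₀ (by linarith) ht0]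
    have h6 : ‖e‖ * t ≤ 4 := by rwa [le_div_iff₀ ht0] at he
    nlinarith [norm_nonneg e]
  · -- the completed gamma factor
    set s : ℂ := 1 / 2 + I * t with hs
    have hs' : (((1 / 2 : ℝ) : ℂ) + (t : ℂ) * I) = s := by rw [hs]; push_cast; ring
    have hchi : Pool.Agent.H401R2.chi s = ((-((1 / 4 + t ^ 2) / 2) : ℝ) : ℂ) * Gammaℝ s := by
      rw [Pool.Agent.H401R2.chi, Gammaℝ_def]
      have h1 : s * (s - 1) / 2 = ((-((1 / 4 + t ^ 2) / 2) : ℝ) : ℂ) := by
        rw [hs]
        push_cast
        have hI := Complex.I_sq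
        linear_combination (t : ℂ) ^ 2 / 2 * hI
      rw [h1]
      ring
    rw [hs'] at hc
    rw [hchi] at hc
    set Λ : ℂ := Pool.Agent.H401R2.Lam (1 / 2) t with hΛ
    have hΛ2 : Λ = ((Λ.re : ℝ) : ℂ) + ((th t : ℝ) : ℂ) * I := by
      rw [hΛ, Pool.Agent.H401R2.Lam, th]
      simp only [Complex.add_re, Complex.ofReal_re, Complex.mul_re, Complex.I_re, mul_zero, Complex.ofReal_im,
        Complex.I_im, mul_one, sub_self, add_zero]
      push_cast
      ring
    set b : ℝ := t ^ 2 / √2 * Real.exp Λ.re / ((1 / 4 + t ^ 2) / 2) with hb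
    have hb0 : 0 < b := by positivity
    have hG : Gammaℝ s = (b : ℂ) * (cexp (th t * I) * u) := by
      have h1 : cexp Λ = ((Real.exp Λ.re : ℝ) : ℂ) * cexp (th t * I) := by
        conv_lhs => rw [hΛ2]
        rw [Complex.exp_add, Complex.ofReal_exp]
      rw [h1] at hc
      have h2 : (((1 / 4 + t ^ 2) / 2 : ℝ) : ℂ) ≠ 0 := by
        rw [Complex.ofReal_ne_zero]; positivity
      have h3 : (((1 / 4 + t ^ 2) / 2 : ℝ) : ℂ) * Gammaℝ s =
          (((1 / 4 + t ^ 2) / 2 : ℝ) : ℂ) * ((b : ℂ) * (cexp (th t * I) * u)) := by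
        have h4 : (((1 / 4 + t ^ 2) / 2 : ℝ) : ℂ) * (b : ℂ) = ((t ^ 2 / √2 * Real.exp Λ.re : ℝ) : ℂ) := by
          rw [← Complex.ofReal_mul, hb]
          congr 1
          field_simp
        rw [← mul_assoc, h4]
        have h5 := congrArg Neg.neg hc
        push_cast at h5 ⊢
        linear_combination h5
      exact mul_left_cancel₀ h2 h3
    rw [phase_eq, ← hs, hG, norm_mul, norm_mul, Complex.norm_exp_ofReal_mul_I, one_mul, Complex.norm_real,
      Real.norm_of_nonneg hb0.le]
    have hb1 : (b : ℂ) ≠ 0 := by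
      rw [Complex.ofReal_ne_zero]; exact hb0.ne'
    push_cast
    field_simp

/-- if the phase is close to `-φ` modulo `π` then the value is in the double sector -/
lemma sector_of {t φ δ : ℝ} (ht : 100 ≤ t) (hδ : 18 / t ≤ δ) (h : |Real.sin (th t + φ)| ≤ δ / 2) :
    |(riemannZeta (1 / 2 + t * I) * cexp (-(φ * I))).im| ≤ δ * ‖riemannZeta (1 / 2 + t * I)‖ := by
  obtain ⟨w, hw, hp⟩ := phase_near ht
  have ht0 : 0 < t := by linarith
  have hZ := Z_eq t
  rw [Zc] at hZ
  have hs : (1 / 2 + I * (t : ℂ)) = 1 / 2 + (t : ℂ) * I := by ring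
  rw [hs] at hZ
  set ζ : ℂ := riemannZeta (1 / 2 + (t : ℂ) * I) with hζ
  have hpn := phase_norm t
  have h1 : ζ = (Z t : ℂ) * (starRingEnd ℂ) (phase t) := by
    rw [hZ, mul_comm (phase t) ζ, mul_assoc, Complex.mul_conj, Complex.normSq_eq_norm_sq, hpn]
    simp
  have h2 : ‖ζ‖ = |Z t| := by
    have h := congrArg norm hZ
    rw [norm_mul, hpn, one_mul, Complex.norm_real, Real.norm_eq_abs] at h
    exact h.symm
  have h3 : ζ * cexp (-(φ * I)) = (Z t : ℂ) * (cexp (((-(th t + φ) : ℝ) : ℂ) * I) * (starRingEnd ℂ) w) := by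
    rw [h1, hp, map_mul, ← Complex.exp_conj, map_mul, Complex.conj_ofReal, Complex.conj_I]
    have h4 : cexp (((-(th t + φ) : ℝ) : ℂ) * I) = cexp ((th t : ℂ) * -I) * cexp (-(φ * I)) := by
      rw [← Complex.exp_add]
      congr 1
      push_cast
      ring
    rw [h4]
    ring
  rw [h3, Complex.im_ofReal_mul, abs_mul, h2, mul_comm δ]
  refine mul_le_mul_of_nonneg_left ?_ (abs_nonneg _)
  set v : ℂ := cexp (((-(th t + φ) : ℝ) : ℂ) * I) with hv
  have hvn : ‖v‖ = 1 := by rw [hv, Complex.norm_exp_ofReal_mul_I]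
  have h5 : v * (starRingEnd ℂ) w = v + v * (starRingEnd ℂ) (w - 1) := by
    rw [map_sub, map_one]; ring
  rw [h5, Complex.add_im]
  have h6 : |v.im| ≤ δ / 2 := by
    rw [hv, Complex.exp_ofReal_mul_I_im, Real.sin_neg, abs_neg]
    exact h
  have h7 : |(v * (starRingEnd ℂ) (w - 1)).im| ≤ 9 / t := by
    refine (Complex.abs_im_le_norm _).trans ?_
    rw [norm_mul, hvn, one_mul, Complex.norm_conj]
    exact hw
  have h8 : 9 / t ≤ δ / 2 := by
    have : 18 / t = 2 * (9 / t) := by ring
    linarith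
  refine (abs_add_le _ _).trans ?_
  linarith

lemma th_slope {a b : ℝ} (ha : 0 < a) (hab : a ≤ b) :
    Real.log (a / (2 * Real.pi)) / 2 * (b - a) ≤ th b - th a ∧
      th b - th a ≤ Real.log (b / (2 * Real.pi)) / 2 * (b - a) := by
  have hp := Real.pi_pos
  rcases eq_or_lt_of_le hab with h | h
  · rw [h]; simp
  · have hc : ContinuousOn th (Set.Icc a b) := fun t ht =>
      (th_deriv (ha.trans_le ht.1)).continuousAt.continuousWithinAt
    obtain ⟨c, hc1, hc2⟩ := exists_hasDerivAt_eq_slope th (fun t => Real.log (t / (2 * Real.pi)) / 2) h hc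
      fun t ht => th_deriv (ha.trans ht.1)
    have hba : 0 < b - a := by linarith
    rw [eq_div_iff hba.ne'] at hc2
    rw [← hc2]
    have hc0 : 0 < c := ha.trans hc1.1
    constructor
    · refine mul_le_mul_of_nonneg_right ?_ hba.le
      have h1 : Real.log (a / (2 * Real.pi)) ≤ Real.log (c / (2 * Real.pi)) :=
        Real.log_le_log (by positivity) (by gcongr; exact hc1.1.le)
      linarith
    · refine mul_le_mul_of_nonneg_right ?_ hba.le
      have h1 : Real.log (c / (2 * Real.pi)) ≤ Real.log (b / (2 * Real.pi)) :=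
        Real.log_le_log (by positivity) (by gcongr; exact hc1.2.le)
      linarith

/-- relative density from small cells -/
lemma dense_of_cells {T ℓ m h : ℝ} {D : Set ℝ} (hD : MeasurableSet D) (hℓ : 0 < ℓ) (hm : 0 ≤ m) (hh : ℓ ≤ h)
    (hc : ∀ x, T ≤ x → x + ℓ ≤ 2 * T → m ≤ volume.real (D ∩ Set.Icc x (x + ℓ))) :
    RelDense (m / (2 * ℓ)) h T D := by
  intro a ha1 ha2
  have hfin : ∀ x y : ℝ, volume (D ∩ Set.Icc x y) ≠ ⊤ := fun x y =>
    (measure_lt_top_of_subset Set.inter_subset_right
      (by rw [Real.volume_Icc]; exact ENNReal.ofReal_ne_top)).ne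
  have hind : ∀ N : ℕ, a + N * ℓ ≤ 2 * T → N * m ≤ volume.real (D ∩ Set.Icc a (a + N * ℓ)) := by
    intro N
    induction N with
    | zero => intro _; simp
    | succ N ih =>
      intro h1
      push_cast at h1
      have h2 : a + N * ℓ ≤ 2 * T := by linarith
      have h3 := ih h2
      have h4 := hc (a + N * ℓ) (by
        have : 0 ≤ (N : ℝ) * ℓ := by positivity
        linarith) (by linarith)
      have e1 : a + N * ℓ + ℓ = a + (N + 1) * ℓ := by ring
      rw [e1] at h4
      have h5 : volume.real (D ∩ Set.Icc a (a + N * ℓ)) = volume.real (D ∩ Set.Ico a (a + N * ℓ)) :=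
        measureReal_congr ((ae_eq_refl D).inter Ico_ae_eq_Icc.symm)
      have h6 : volume.real (D ∩ Set.Ico a (a + N * ℓ)) + volume.real (D ∩ Set.Icc (a + N * ℓ) (a + (N + 1) * ℓ)) =
          volume.real ((D ∩ Set.Ico a (a + N * ℓ)) ∪ (D ∩ Set.Icc (a + N * ℓ) (a + (N + 1) * ℓ))) := by
        refine (measureReal_union ?_ (hD.inter measurableSet_Icc) ?_ (hfin _ _)).symm
        · rw [Set.disjoint_left]
          rintro t ⟨-, ht1⟩ ⟨-, ht2⟩
          linarith [ht1.2, ht2.1]
        · exact (measure_lt_top_of_subset (Set.inter_subset_inter_right _ Set.Ico_subset_Icc_self)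
            (hfin _ _)).ne
      have h7 : volume.real ((D ∩ Set.Ico a (a + N * ℓ)) ∪ (D ∩ Set.Icc (a + N * ℓ) (a + (N + 1) * ℓ))) ≤
          volume.real (D ∩ Set.Icc a (a + (N + 1) * ℓ)) := by
        refine measureReal_mono ?_ (hfin _ _)
        have h0 : 0 ≤ (N : ℝ) * ℓ := by positivity
        rintro t (⟨h8, h9⟩ | ⟨h8, h9⟩)
        · exact ⟨h8, h9.1, by linarith [h9.2]⟩
        · exact ⟨h8, by linarith [h9.1], h9.2⟩
      push_cast
      linarith
  set N : ℕ := ⌊h / ℓ⌋₊ with hN
  have hx : 1 ≤ h / ℓ := by rw [le_div_iff₀ hℓ]; linarith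
  have hN1 : (N : ℝ) ≤ h / ℓ := Nat.floor_le (by positivity)
  have hN2 : h / ℓ < N + 1 := Nat.lt_floor_add_one _
  have hN3 : 1 ≤ N := Nat.le_floor (by exact_mod_cast hx)
  have hN4 : (1 : ℝ) ≤ N := by exact_mod_cast hN3
  have hN5 : h / ℓ ≤ 2 * N := by linarith
  have hN6 : N * ℓ ≤ h := by rwa [le_div_iff₀ hℓ] at hN1
  have h1 := hind N (by linarith)
  have h2 : volume.real (D ∩ Set.Icc a (a + N * ℓ)) ≤ volume.real (D ∩ Set.Icc a (a + h)) :=
    measureReal_mono (Set.inter_subset_inter_right _ (Set.Icc_subset_Icc le_rfl (by linarith))) (hfin _ _)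
  calc m / (2 * ℓ) * h = m / 2 * (h / ℓ) := by field_simp
    _ ≤ m / 2 * (2 * N) := mul_le_mul_of_nonneg_left hN5 (by linarith)
    _ = N * m := by ring
    _ ≤ _ := h1.trans h2

/-- the `t` for which `ζ(1/2 + i t)` is in the double sector of half-angle `arcsin δ` about the line of
direction `exp (i φ)` -/
def sector (φ δ : ℝ) : Set ℝ :=
  {t : ℝ | |(riemannZeta (1 / 2 + t * I) * cexp (-(φ * I))).im| ≤ δ * ‖riemannZeta (1 / 2 + t * I)‖}

lemma zeta_line_cont : Continuous fun t : ℝ => riemannZeta (1 / 2 + (t : ℂ) * I) := by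
  rw [continuous_iff_continuousAt]
  intro t
  have h1 : ContinuousAt riemannZeta (1 / 2 + (t : ℂ) * I) := by
    refine (differentiableAt_riemannZeta ?_).continuousAt
    intro h
    have := congrArg Complex.re h
    norm_num at this
  have h2 : Continuous fun t : ℝ => (1 / 2 + (t : ℂ) * I) := by fun_prop
  exact ContinuousAt.comp (f := fun t : ℝ => (1 / 2 + (t : ℂ) * I)) h1 h2.continuousAt

lemma sector_meas (φ δ : ℝ) : MeasurableSet (sector φ δ) := by
  have h := zeta_line_cont
  refine (isClosed_le ?_ ?_).measurableSet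
  · exact (Complex.continuous_im.comp (h.mul continuous_const)).abs
  · exact continuous_const.mul h.norm

/-- the double sectors are relatively dense -/
theorem sector_dense {δ e : ℝ} (hδ : 0 < δ) (hδ1 : δ ≤ 1) (he : 0 < e) :
    ∀ᶠ T : ℝ in atTop, ∀ φ : ℝ, RelDense (δ / 64) (Real.log T ^ (e - 1)) T (sector φ δ) := by
  have hp := Real.pi_pos
  have hp4 := Real.pi_lt_four
  have hLT := Real.tendsto_log_atTop
  have h0 : Tendsto (fun T : ℝ => Real.log T ^ e) atTop atTop := (tendsto_rpow_atTop he).comp hLT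
  filter_upwards [hLT.eventually_ge_atTop (2 * Real.log (2 * Real.pi)), hLT.eventually_ge_atTop 1,
    h0.eventually_ge_atTop (8 * Real.pi), eventually_ge_atTop 100, eventually_ge_atTop (18 / δ)]
    with T h1 hL h2 hT h3 φ
  set L := Real.log T with hLd
  have hL0 : 0 < L := by linarith
  have hT0 : 0 < T := by linarith
  have hℓ : 0 < 8 * Real.pi / L := by positivity
  have hh : 8 * Real.pi / L ≤ L ^ (e - 1) := by
    rw [div_le_iff₀ hL0, Real.rpow_sub_one hL0.ne', div_mul_cancel₀ _ hL0.ne']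
    exact h2
  have hcell : ∀ x, T ≤ x → x + 8 * Real.pi / L ≤ 2 * T →
      δ / L ≤ volume.real (sector φ δ ∩ Set.Icc x (x + 8 * Real.pi / L)) := by
    intro x hx1 hx2
    have hx0 : 0 < x := by linarith
    have hlow : L / 4 ≤ Real.log (x / (2 * Real.pi)) / 2 := by
      rw [Real.log_div hx0.ne' (by positivity)]
      have : L ≤ Real.log x := Real.log_le_log hT0 hx1
      linarith
    have hup : ∀ y, 0 < y → y ≤ 2 * T → Real.log (y / (2 * Real.pi)) / 2 ≤ L / 2 := by
      intro y hy0 hy
      have : Real.log (y / (2 * Real.pi)) ≤ L := by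
        refine Real.log_le_log (by positivity) ?_
        rw [div_le_iff₀ (by positivity)]
        nlinarith [Real.pi_gt_three]
      linarith
    set z : ℝ := x + 4 * Real.pi / L with hz
    have hzx : x ≤ z := by
      have : 0 < 4 * Real.pi / L := by positivity
      linarith
    have h8 : 8 * Real.pi / L = 4 * Real.pi / L + 4 * Real.pi / L := by ring
    have hs1 := (th_slope hx0 hzx).1
    have hs2 : Real.pi ≤ th z - th x := by
      have e1 : z - x = 4 * Real.pi / L := by rw [hz]; ring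
      have e2 : L / 4 * (z - x) = Real.pi := by
        rw [e1]
        field_simp
      have e3 : L / 4 * (z - x) ≤ Real.log (x / (2 * Real.pi)) / 2 * (z - x) :=
        mul_le_mul_of_nonneg_right hlow (by linarith)
      linarith
    set n : ℤ := ⌈(th x + φ) / Real.pi⌉ with hn
    have hn1 : th x + φ ≤ n * Real.pi := by
      have := Int.le_ceil ((th x + φ) / Real.pi)
      rwa [div_le_iff₀ hp] at this
    have hn2 : n * Real.pi ≤ th z + φ := by
      have h4 := Int.ceil_lt_add_one ((th x + φ) / Real.pi)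
      rw [← hn] at h4
      have h5 : (n : ℝ) * Real.pi < ((th x + φ) / Real.pi + 1) * Real.pi := mul_lt_mul_of_pos_right h4 hp
      rw [add_mul, div_mul_cancel₀ _ hp.ne'] at h5
      linarith
    have hc : ContinuousOn (fun t => th t + φ) (Set.Icc x z) := fun t ht =>
      ((th_deriv (hx0.trans_le ht.1)).continuousAt.add continuousAt_const).continuousWithinAt
    obtain ⟨y, hy, hy2⟩ := intermediate_value_Icc hzx hc (show (n : ℝ) * Real.pi ∈ Set.Icc _ _ from ⟨hn1, hn2⟩)
    have hy2 : th y + φ = n * Real.pi := hy2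
    have hdL : δ / L ≤ 4 * Real.pi / L := by
      gcongr
      nlinarith [Real.pi_gt_three]
    have hsub : Set.Icc y (y + δ / L) ⊆ sector φ δ ∩ Set.Icc x (x + 8 * Real.pi / L) := by
      rintro t ⟨ht1, ht2⟩
      have hy0 : 0 < y := lt_of_lt_of_le hx0 hy.1
      have ht0 : 0 < t := by linarith
      have htx : x ≤ t := hy.1.trans ht1
      have htz : t ≤ x + 8 * Real.pi / L := by linarith [hy.2]
      refine ⟨?_, htx, htz⟩
      have ht100 : 100 ≤ t := by linarith
      refine sector_of ht100 ?_ ?_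
      · rw [div_le_iff₀ ht0]
        rw [div_le_iff₀ hδ] at h3
        nlinarith
      · have hsl := th_slope hy0 ht1
        have hl0 : 0 ≤ Real.log (y / (2 * Real.pi)) / 2 * (t - y) := by
          refine mul_nonneg ?_ (by linarith)
          have h9 : Real.log (x / (2 * Real.pi)) ≤ Real.log (y / (2 * Real.pi)) :=
            Real.log_le_log (by positivity) (by gcongr; exact hy.1)
          linarith
        have hu := hup t ht0 (by linarith)
        have hdiff : th t - th y ≤ δ / 2 := by
          calc th t - th y ≤ Real.log (t / (2 * Real.pi)) / 2 * (t - y) := hsl.2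
            _ ≤ L / 2 * (δ / L) := by
              refine mul_le_mul hu (by linarith) (by linarith) (by linarith)
            _ = δ / 2 := by field_simp
        have hsin : Real.sin (th t + φ) = (-1) ^ n * Real.sin (th t - th y) := by
          have e1 : th t + φ = (th t - th y) + n * Real.pi := by linarith
          rw [e1, Real.sin_add_int_mul_pi]
        have hpow : |((-1 : ℝ)) ^ n| = 1 := by
          rw [abs_zpow, abs_neg, abs_one, one_zpow]
        rw [hsin, abs_mul, hpow, one_mul]
        refine (Real.abs_sin_le_abs (x := th t - th y)).trans ?_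
        rw [abs_of_nonneg (by linarith [hsl.1])]
        exact hdiff
    calc δ / L = volume.real (Set.Icc y (y + δ / L)) := by
          rw [Real.volume_real_Icc]
          have : 0 < δ / L := by positivity
          rw [max_eq_left (by linarith)]
          ring
      _ ≤ _ := measureReal_mono hsub (measure_lt_top_of_subset Set.inter_subset_right
            (by rw [Real.volume_Icc]; exact ENNReal.ofReal_ne_top)).ne
  have hd := dense_of_cells (sector_meas φ δ) hℓ (show 0 ≤ δ / L by positivity) hh hcell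
  intro a ha1 ha2
  refine le_trans ?_ (hd a ha1 ha2)
  have hpos : 0 ≤ L ^ (e - 1) := by positivity
  refine mul_le_mul_of_nonneg_right ?_ hpos
  have e1 : δ / L / (2 * (8 * Real.pi / L)) = δ / (16 * Real.pi) := by
    field_simp
    ring
  rw [e1]
  gcongr
  linarith

end Pool.Agent.X117.DS
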