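import Pool.Agent.X117.Rem1
import Pool.Agent.X117.Dens2
import Pool.Agent.TH806.LM.Fin

/-!
# Moments of exact order over sets that fill a part of positive proportion of every interval of length `a / log T`
-/

namespace Pool.Agent.X117.RM

open Filter Topology MeasureTheory Complex Set Metric
open Pool.Agent.X117.DZ Pool.Agent.X117.SZ Pool.Agent.X117.DS

/-- the integrand -/
noncomputable def F (k t : ℝ) : ℝ := ‖riemannZeta (1 / 2 + I * (t : ℂ))‖ ^ (2 * k)

/-- the majorant -/
noncomputable def P (k h t : ℝ) : ℝ := 1 / (Real.pi * (4 * h) ^ 2) * Phi k (3 * (4 * h)) (4 * h) t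

lemma line_cont : Continuous fun t : ℝ => riemannZeta (1 / 2 + I * (t : ℂ)) := by
  have h := Pool.Agent.X117.DS.zeta_line_cont
  refine h.congr fun t => ?_
  rw [mul_comm]

lemma F_cont {k : ℝ} (hk : 0 < k) : Continuous (F k) :=
  line_cont.norm.rpow_const fun _ => Or.inr (by linarith)

lemma F_nonneg (k t : ℝ) : 0 ≤ F k t := Real.rpow_nonneg (norm_nonneg _) _

lemma P_cont {k : ℝ} (hk : 0 < k) (h : ℝ) : Continuous (P k h) := continuous_const.mul (Phi_cont hk _ _)

lemma P_nonneg (k : ℝ) {h : ℝ} (hh : 0 ≤ h) (t : ℝ) : 0 ≤ P k h t :=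
  mul_nonneg (by positivity) (Phi_nonneg (by positivity) (by positivity) t)

lemma ind_int {k : ℝ} (hk : 0 < k) {D : Set ℝ} (hD : MeasurableSet D) (a b : ℝ) :
    IntervalIntegrable (D.indicator (F k)) volume a b := by
  rw [intervalIntegrable_iff]
  exact (((F_cont hk).integrableOn_uIcc).mono_set uIoc_subset_uIcc).indicator hD

/-- one cell -/
theorem cell {k η β : ℝ} (hk : 0 < k) (hη : 0 < η) (hβ : 0 < β) : ∃ c : ℝ, 0 < c ∧ ∀ x h : ℝ, 20 ≤ x →
    0 < h → h ≤ 1 / 8 → ∀ D : Set ℝ, MeasurableSet D → η * h ≤ volume.real (D ∩ Icc x (x + h)) →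
    c * ((∫ t in x..(x + h), F k t) - β * ∫ t in x..(x + h), P k h t) ≤
      ∫ t in x..(x + h), D.indicator (F k) t := by
  obtain ⟨ε, hε, hR⟩ := remez (θ := η / 2) (τ := β ^ (1 / (2 * k))) (by positivity) (by positivity)
  refine ⟨η / 2 * ε ^ (2 * k), by positivity, ?_⟩
  intro x h hx hh hh8 D hD hDx
  have hxh : x ≤ x + h := by linarith
  have hG0 : 0 ≤ ∫ t in x..(x + h), D.indicator (F k) t :=
    intervalIntegral.integral_nonneg hxh fun t _ => indicator_nonneg (fun _ _ => F_nonneg _ _) _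
  set I₁ := ∫ t in x..(x + h), F k t with hI₁
  set I₂ := ∫ t in x..(x + h), P k h t with hI₂
  rcases le_or_gt I₁ (β * I₂) with hcase | hcase
  · refine le_trans ?_ hG0
    exact mul_nonpos_of_nonneg_of_nonpos (by positivity) (by linarith)
  have hI₂0 : 0 ≤ I₂ := intervalIntegral.integral_nonneg hxh fun t _ => P_nonneg k hh.le t
  -- the bound on the disc
  set M : ℝ := (I₂ / h) ^ (1 / (2 * k)) with hM
  have hIh0 : 0 ≤ I₂ / h := by positivity
  have hM0 : 0 ≤ M := Real.rpow_nonneg hIh0 _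
  have hMk : M ^ (2 * k) = I₂ / h := by
    rw [hM, ← Real.rpow_mul hIh0, one_div_mul_cancel (by positivity), Real.rpow_one]
  have hdisc : ∀ u : ℂ, |u.re - 1 / 2| ≤ 4 * h → (∀ t ∈ Icc x (x + h), |u.im - t| ≤ 4 * h) →
      ‖riemannZeta u‖ ≤ M := by
    intro u hu1 hu2
    have h1 : ∀ t ∈ Icc x (x + h), ‖riemannZeta u‖ ^ (2 * k) ≤ P k h t := fun t ht =>
      zeta_le_Phi (ρ := 3 * (4 * h)) hk (by positivity) (by linarith) (by linarith) (by linarith)
        (by linarith [ht.1]) hu1 (by linarith [hu2 t ht])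
    have h2 : ∫ _ in x..(x + h), ‖riemannZeta u‖ ^ (2 * k) ≤ I₂ :=
      intervalIntegral.integral_mono_on hxh (by simp) ((P_cont hk h).intervalIntegrable _ _) h1
    rw [intervalIntegral.integral_const, smul_eq_mul, add_sub_cancel_left] at h2
    have h3 : ‖riemannZeta u‖ ^ (2 * k) ≤ I₂ / h := by
      rw [le_div_iff₀ hh, mul_comm]
      exact h2
    have h4 := Real.rpow_le_rpow (Real.rpow_nonneg (norm_nonneg _) _) h3 (show 0 ≤ 1 / (2 * k) by positivity)
    rwa [← Real.rpow_mul (norm_nonneg _), mul_one_div_cancel (by positivity), Real.rpow_one] at h4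
  have hball : ∀ u : ℂ, ‖u - (1 / 2 + I * ((x + h / 2 : ℝ) : ℂ))‖ ≤ 3 * h → ‖riemannZeta u‖ ≤ M := by
    intro u hu
    have h1 := (Complex.abs_re_le_norm _).trans hu
    have h2 := (Complex.abs_im_le_norm _).trans hu
    have e1 : (u - (1 / 2 + I * ((x + h / 2 : ℝ) : ℂ))).re = u.re - 1 / 2 := by simp
    have e2 : (u - (1 / 2 + I * ((x + h / 2 : ℝ) : ℂ))).im = u.im - (x + h / 2) := by simp
    rw [e1] at h1
    rw [e2, abs_le] at h2
    refine hdisc u (by linarith) fun t ht => ?_
    rw [abs_le]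
    constructor <;> linarith [h2.1, h2.2, ht.1, ht.2]
  have hline : ∀ t ∈ Icc x (x + h), ‖riemannZeta (1 / 2 + I * (t : ℂ))‖ ≤ M := by
    intro t ht
    refine hdisc _ (by simp; positivity) fun s hs => ?_
    have e2 : (1 / 2 + I * (t : ℂ)).im = t := by simp
    rw [e2, abs_le]
    constructor <;> linarith [ht.1, ht.2, hs.1, hs.2]
  -- `zeta` is not small on the whole cell
  have hbig : ∃ t ∈ Icc x (x + h), β ^ (1 / (2 * k)) * M < ‖riemannZeta (1 / 2 + I * (t : ℂ))‖ := by
    by_contra hcon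
    push Not at hcon
    have h1 : ∀ t ∈ Icc x (x + h), F k t ≤ β * (I₂ / h) := by
      intro t ht
      have h2 := Real.rpow_le_rpow (norm_nonneg _) (hcon t ht) (show 0 ≤ 2 * k by linarith)
      rw [Real.mul_rpow (by positivity) hM0, hMk, ← Real.rpow_mul hβ.le, one_div_mul_cancel (by positivity),
        Real.rpow_one] at h2
      exact h2
    have h2 : I₁ ≤ ∫ _ in x..(x + h), β * (I₂ / h) :=
      intervalIntegral.integral_mono_on hxh ((F_cont hk).intervalIntegrable _ _) (by simp) h1
    rw [intervalIntegral.integral_const, smul_eq_mul, add_sub_cancel_left] at h2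
    have h3 : h * (β * (I₂ / h)) = β * I₂ := by field_simp
    linarith
  -- the small values
  set S : Set ℝ := {t | ‖riemannZeta (1 / 2 + I * (t : ℂ))‖ ≤ ε * M} with hS
  have hSm : MeasurableSet S := (isClosed_le line_cont.norm continuous_const).measurableSet
  have hfin : ∀ A : Set ℝ, volume (A ∩ Icc x (x + h)) ≠ ⊤ := fun A =>
    (measure_lt_top_of_subset inter_subset_right (by rw [Real.volume_Icc]; exact ENNReal.ofReal_ne_top)).ne
  have hsmall : volume.real (D ∩ S ∩ Icc x (x + h)) < η / 2 * h := by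
    by_contra hcon
    push Not at hcon
    obtain ⟨t, ht, ht2⟩ := hbig
    have h1 := hR riemannZeta U x h M U_open zeta_U hh (ball_U (by linarith)) hball (D ∩ S ∩ Icc x (x + h))
      inter_subset_right hcon (fun s hs => hs.1.2) t ht
    linarith
  set B : Set ℝ := D ∩ Sᶜ ∩ Icc x (x + h) with hB
  have hBm : MeasurableSet B := (hD.inter hSm.compl).inter measurableSet_Icc
  have hBv : η / 2 * h ≤ volume.real B := by
    have h1 : D ∩ Icc x (x + h) ⊆ (D ∩ S ∩ Icc x (x + h)) ∪ B := by
      rintro t ⟨ht1, ht2⟩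
      by_cases ht3 : t ∈ S
      · exact Or.inl ⟨⟨ht1, ht3⟩, ht2⟩
      · exact Or.inr ⟨⟨ht1, ht3⟩, ht2⟩
    have h2 : volume.real (D ∩ Icc x (x + h)) ≤ volume.real (D ∩ S ∩ Icc x (x + h)) + volume.real B :=
      (measureReal_mono h1 (by
        refine (measure_union_lt_top ?_ ?_).ne
        · exact (hfin _).lt_top
        · exact (hfin _).lt_top)).trans (measureReal_union_le _ _)
    linarith
  have hBF : ∀ t ∈ B, (ε * M) ^ (2 * k) ≤ F k t := by
    intro t ht
    have h1 : ε * M < ‖riemannZeta (1 / 2 + I * (t : ℂ))‖ := not_le.mp ht.1.2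
    exact Real.rpow_le_rpow (by positivity) h1.le (by linarith)
  have h1 : volume.real B * (ε * M) ^ (2 * k) ≤ ∫ t in B, F k t := by
    have h2 : ∫ _ in B, (ε * M) ^ (2 * k) ≤ ∫ t in B, F k t := by
      refine setIntegral_mono_on ?_ ?_ hBm hBF
      · exact integrableOn_const (hfin _)
      · exact (((F_cont hk).integrableOn_Icc (a := x) (b := x + h))).mono_set inter_subset_right
    rwa [setIntegral_const, smul_eq_mul] at h2
  have h2 : ∫ t in B, F k t ≤ ∫ t in x..(x + h), D.indicator (F k) t := by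
    rw [intervalIntegral.integral_of_le hxh, ← integral_Icc_eq_integral_Ioc, ← integral_indicator measurableSet_Icc,
      ← integral_indicator hBm]
    refine integral_mono_of_nonneg (Eventually.of_forall fun t => indicator_nonneg (fun _ _ => F_nonneg _ _) _) ?_
      (Eventually.of_forall fun t => ?_)
    · rw [integrable_indicator_iff measurableSet_Icc]
      exact ((F_cont hk).integrableOn_Icc).indicator hD
    · show B.indicator (F k) t ≤ (Icc x (x + h)).indicator (D.indicator (F k)) t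
      by_cases ht : t ∈ B
      · rw [indicator_of_mem ht, indicator_of_mem ht.2, indicator_of_mem ht.1.1]
      · rw [indicator_of_notMem ht]
        exact indicator_nonneg (fun _ _ => indicator_nonneg (fun _ _ => F_nonneg _ _) _) _
  have h3 : I₁ ≤ I₂ := by
    have h4 : ∀ t ∈ Icc x (x + h), F k t ≤ P k h t := by
      intro t ht
      refine zeta_le_Phi (ρ := 3 * (4 * h)) hk (by positivity) (by linarith) (by linarith) (by linarith)
        (by linarith [ht.1]) (by simp; positivity) ?_
      have e2 : (1 / 2 + I * (t : ℂ)).im = t := by simp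
      rw [e2, sub_self, abs_zero]
      linarith
    exact intervalIntegral.integral_mono_on hxh ((F_cont hk).intervalIntegrable _ _)
      ((P_cont hk h).intervalIntegrable _ _) h4
  calc η / 2 * ε ^ (2 * k) * (I₁ - β * I₂) ≤ η / 2 * ε ^ (2 * k) * I₂ := by
        refine mul_le_mul_of_nonneg_left ?_ (by positivity)
        nlinarith
    _ = η / 2 * h * (ε * M) ^ (2 * k) := by
        rw [Real.mul_rpow hε.le hM0, hMk]
        field_simp
    _ ≤ volume.real B * (ε * M) ^ (2 * k) := mul_le_mul_of_nonneg_right hBv (by positivity)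
    _ ≤ _ := h1.trans h2

/-- the moments from below -/
theorem low {k : ℝ} (hk : 0 < k) : ∃ c : ℝ, 0 < c ∧ ∀ᶠ T : ℝ in atTop,
    c * (T * Real.log T ^ (k ^ 2)) ≤ ∫ t in T..(3 / 2 * T), F k t := by
  obtain ⟨E, c, C, W, δ, mE, hc, -, -, -, -, -, h⟩ := Pool.Agent.TH806.LM.a_FIN k (1 / 2) 1 hk.le (by norm_num) one_pos
  refine ⟨c / 2, by positivity, ?_⟩
  filter_upwards [h (1 / 2) (by norm_num) (by norm_num), eventually_ge_atTop (3 : ℝ),
    Real.tendsto_log_atTop.eventually_ge_atTop 4] with T hT hT3 hL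
  have h1 : T / Real.log T ^ (1 / 2 : ℝ) ≤ T / 2 := by
    refine div_le_div_of_nonneg_left (by linarith) (by norm_num) ?_
    have h2 : (4 : ℝ) ^ (1 / 2 : ℝ) ≤ Real.log T ^ (1 / 2 : ℝ) := Real.rpow_le_rpow (by norm_num) hL (by norm_num)
    have h3 : (4 : ℝ) ^ (1 / 2 : ℝ) = 2 := by
      rw [← Real.sqrt_eq_rpow, show (4 : ℝ) = 2 ^ 2 by norm_num, Real.sqrt_sq (by norm_num)]
    linarith
  obtain ⟨-, -, h3⟩ := hT (T / 2) h1 (by linarith)
  obtain ⟨h4, h5, -⟩ := h3 k (by rw [abs_of_pos hk])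
  have e1 : T + T / 2 = 3 / 2 * T := by ring
  rw [e1] at h4 h5
  have e2 : ∀ t : ℝ, Pool.Agent.TH806.Xz t ^ (2 * k) = F k t := by
    intro t
    unfold F
    rw [mul_comm I]
    rfl
  simp_rw [e2] at h4 h5
  rw [intervalIntegral.integral_of_le (by linarith), ← integral_Icc_eq_integral_Ioc]
  calc c / 2 * (T * Real.log T ^ (k ^ 2)) = c * (T / 2 * Real.log T ^ (k ^ 2)) := by ring
    _ ≤ _ := h5
    _ ≤ _ := setIntegral_mono_set ((F_cont hk).integrableOn_Icc)
      (Eventually.of_forall fun t => F_nonneg k t) (Eventually.of_forall fun t ht => ht.1)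

/-- **exact order** -/
theorem dense_moment {k a η : ℝ} (hk : 0 < k) (hk2 : k ≤ 2) (ha : 0 < a) (hη : 0 < η) :
    ∃ c : ℝ, 0 < c ∧ ∀ᶠ T : ℝ in atTop, ∀ D : Set ℝ, MeasurableSet D → RelDense η (a / Real.log T) T D →
      c * (T * Real.log T ^ (k ^ 2)) ≤ ∫ t in D ∩ Icc T (2 * T), F k t := by
  obtain ⟨c₀, hc₀, hlow⟩ := low hk
  obtain ⟨C, hC, hup⟩ := Phi_int2 hk hk2 (show 0 < 4 * a by positivity)
  set C' : ℝ := C / (Real.pi * (4 * a) ^ 2) with hC'
  have hC'0 : 0 < C' := by positivity
  obtain ⟨c, hc, hcell⟩ := cell (β := c₀ / (2 * C')) hk hη (by positivity)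
  refine ⟨c * (c₀ / 2), by positivity, ?_⟩
  filter_upwards [hlow, hup, eventually_ge_atTop (20 : ℝ), Real.tendsto_log_atTop.eventually_ge_atTop 1,
    Real.tendsto_log_atTop.eventually_ge_atTop (8 * a)] with T h1 h2 hT hL1 hL8
  intro D hD hDd
  have hL0 : 0 < Real.log T := by linarith
  set L := Real.log T with hL
  set h : ℝ := a / L with hh
  have hh0 : 0 < h := by positivity
  have hh8 : h ≤ 1 / 8 := by
    rw [hh, div_le_div_iff₀ hL0 (by norm_num)]
    linarith
  set m : ℕ := ⌊T / h⌋₊ with hm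
  have hm1 : (m : ℝ) * h ≤ T := by
    have := Nat.floor_le (show 0 ≤ T / h by positivity)
    rwa [le_div_iff₀ hh0] at this
  have hm2 : T - h ≤ m * h := by
    have := Nat.lt_floor_add_one (T / h)
    rw [div_lt_iff₀ hh0] at this
    linarith
  set x : ℕ → ℝ := fun i => T + i * h with hx
  have hx0 : x 0 = T := by simp [hx]
  have hxs : ∀ i : ℕ, x (i + 1) = x i + h := by
    intro i
    rw [hx]
    push_cast
    ring
  have hsum : ∀ f : ℝ → ℝ, (∀ a b : ℝ, IntervalIntegrable f volume a b) →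
      ∑ i ∈ Finset.range m, ∫ t in x i..(x i + h), f t = ∫ t in T..(T + m * h), f t := by
    intro f hf
    have := intervalIntegral.sum_integral_adjacent_intervals (a := x) (n := m) (f := f) (μ := volume)
      fun i _ => hf _ _
    rw [hx0] at this
    rw [← this]
    refine Finset.sum_congr rfl fun i _ => ?_
    rw [hxs]
  -- the cells
  have hc1 : ∀ i ∈ Finset.range m, c * ((∫ t in x i..(x i + h), F k t) -
      c₀ / (2 * C') * ∫ t in x i..(x i + h), P k h t) ≤ ∫ t in x i..(x i + h), D.indicator (F k) t := by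
    intro i hi
    have hi1 : ((i + 1 : ℕ) : ℝ) ≤ m := by exact_mod_cast Finset.mem_range.mp hi
    have hi2 : ((i + 1 : ℕ) : ℝ) * h ≤ m * h := mul_le_mul_of_nonneg_right hi1 hh0.le
    push_cast at hi2
    have hxi : T ≤ x i := by
      rw [hx]
      have : 0 ≤ (i : ℝ) * h := by positivity
      linarith
    have hxi2 : x i + h ≤ 2 * T := by
      rw [hx]
      simp only
      linarith
    exact hcell (x i) h (by linarith) hh0 hh8 D hD (hDd (x i) hxi hxi2)
  have hc2 := Finset.sum_le_sum hc1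
  rw [← Finset.mul_sum, Finset.sum_sub_distrib, ← Finset.mul_sum, hsum _ (fun a b => (F_cont hk).intervalIntegrable _ _),
    hsum _ (fun a b => (P_cont hk h).intervalIntegrable _ _), hsum _ (fun a b => ind_int hk hD a b)] at hc2
  -- the total of `F`
  have h3 : c₀ * (T * L ^ (k ^ 2)) ≤ ∫ t in T..(T + m * h), F k t := by
    refine h1.trans ?_
    refine intervalIntegral.integral_mono_interval le_rfl (by linarith) (by linarith)
      (Eventually.of_forall fun t => F_nonneg k t) ((F_cont hk).intervalIntegrable _ _)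
  -- the total of `P`
  have h4 : ∫ t in T..(T + m * h), P k h t ≤ C' * (T * L ^ (k ^ 2)) := by
    have h5 : ∫ t in T..(T + m * h), P k h t ≤ ∫ t in (T - 1)..(2 * T + 1), P k h t :=
      intervalIntegral.integral_mono_interval (by linarith) (by nlinarith) (by linarith)
        (Eventually.of_forall fun t => P_nonneg k hh0.le t) ((P_cont hk h).intervalIntegrable _ _)
    refine h5.trans ?_
    unfold P
    rw [intervalIntegral.integral_const_mul]
    have e1 : 4 * h = 4 * a / L := by rw [hh]; ring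
    rw [e1]
    refine (mul_le_mul_of_nonneg_left h2 (by positivity)).trans (le_of_eq ?_)
    rw [Real.rpow_sub hL0, hC']
    have : L ^ (2 : ℝ) = L ^ 2 := by norm_cast
    rw [this]
    field_simp
  have h5 : ∫ t in T..(T + m * h), D.indicator (F k) t ≤ ∫ t in D ∩ Icc T (2 * T), F k t := by
    have h6 : ∫ t in T..(T + m * h), D.indicator (F k) t ≤ ∫ t in T..(2 * T), D.indicator (F k) t :=
      intervalIntegral.integral_mono_interval le_rfl (by nlinarith) (by linarith)
        (Eventually.of_forall fun t => indicator_nonneg (fun _ _ => F_nonneg _ _) _) (ind_int hk hD _ _)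
    refine h6.trans (le_of_eq ?_)
    rw [intervalIntegral.integral_of_le (by linarith), ← integral_Icc_eq_integral_Ioc, setIntegral_indicator hD,
      inter_comm]
  refine le_trans ?_ (hc2.trans h5)
  rw [mul_assoc]
  refine mul_le_mul_of_nonneg_left ?_ hc.le
  have h6 : c₀ / (2 * C') * ∫ t in T..(T + m * h), P k h t ≤ c₀ / (2 * C') * (C' * (T * L ^ (k ^ 2))) :=
    mul_le_mul_of_nonneg_left h4 (by positivity)
  have e1 : c₀ / (2 * C') * (C' * (T * L ^ (k ^ 2))) = c₀ / 2 * (T * L ^ (k ^ 2)) := by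
    field_simp
  rw [e1] at h6
  linarith

end Pool.Agent.X117.RM
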