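import Pool.Agent.X117.Joint3

/-!
# All derivatives of Hardy's function at once
-/

namespace Pool.Agent.X117.AD

open Filter Topology MeasureTheory Complex H370 Set
open Pool.Agent.X117.HZ Pool.Agent.X117.Peak Pool.Agent.X117.DZ Pool.Agent.X117.JM

/-- a function with large derivative is large on a quarter of the interval -/
lemma quarter {g g' : ℝ → ℝ} {a b s : ℝ} (hab : a < b) (hs : 0 < s)
    (hd : ∀ u ∈ Icc a b, HasDerivAt g (g' u) u) (hc : ContinuousOn g' (Icc a b))
    (h : ∀ u ∈ Icc a b, s ≤ |g' u|) :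
    ∃ c d, a ≤ c ∧ d ≤ b ∧ d - c = (b - a) / 4 ∧ ∀ u ∈ Icc c d, s * ((b - a) / 4) ≤ |g u| := by
  have hcg : ContinuousOn g (Icc a b) := fun u hu => (hd u hu).continuousAt.continuousWithinAt
  -- the sign of the derivative is constant
  have key : ∀ (f f' : ℝ → ℝ), (∀ u ∈ Icc a b, HasDerivAt f (f' u) u) → (∀ u ∈ Icc a b, s ≤ f' u) →
      ∃ c d, a ≤ c ∧ d ≤ b ∧ d - c = (b - a) / 4 ∧ ∀ u ∈ Icc c d, s * ((b - a) / 4) ≤ |f u| := by
    intro f f' hf hf'
    have hcf : ContinuousOn f (Icc a b) := fun u hu => (hf u hu).continuousAt.continuousWithinAt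
    have hmv : ∀ x ∈ Icc a b, ∀ y ∈ Icc a b, x ≤ y → s * (y - x) ≤ f y - f x := by
      intro x hx y hy hxy
      rcases eq_or_lt_of_le hxy with rfl | hlt
      · simp
      · obtain ⟨z, hz, hz2⟩ := exists_hasDerivAt_eq_slope f f' hlt
          (hcf.mono (Icc_subset_Icc hx.1 hy.2)) (fun u hu => hf u ⟨by linarith [hx.1, hu.1], by linarith [hy.2, hu.2]⟩)
        have h1 := hf' z ⟨by linarith [hx.1, hz.1], by linarith [hy.2, hz.2]⟩
        rw [hz2, le_div_iff₀ (by linarith)] at h1
        exact h1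
    set m := (a + b) / 2 with hm
    have hmI : m ∈ Icc a b := ⟨by rw [hm]; linarith, by rw [hm]; linarith⟩
    rcases le_or_gt 0 (f m) with h0 | h0
    · refine ⟨b - (b - a) / 4, b, by linarith, le_rfl, by ring, fun u hu => ?_⟩
      have h1 := hmv m hmI u ⟨by linarith [hu.1], hu.2⟩ (by rw [hm]; linarith [hu.1])
      have h2 : (b - a) / 4 ≤ u - m := by rw [hm]; linarith [hu.1]
      have h3 : s * ((b - a) / 4) ≤ s * (u - m) := mul_le_mul_of_nonneg_left h2 hs.le
      exact (by linarith : s * ((b - a) / 4) ≤ f u).trans (le_abs_self _)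
    · refine ⟨a, a + (b - a) / 4, le_rfl, by linarith, by ring, fun u hu => ?_⟩
      have h1 := hmv u ⟨hu.1, by linarith [hu.2]⟩ m hmI (by rw [hm]; linarith [hu.2])
      have h2 : (b - a) / 4 ≤ m - u := by rw [hm]; linarith [hu.2]
      have h3 : s * ((b - a) / 4) ≤ s * (m - u) := mul_le_mul_of_nonneg_left h2 hs.le
      exact (by linarith : s * ((b - a) / 4) ≤ -f u).trans (neg_le_abs _)
  have hpc : IsPreconnected (Icc a b) := isPreconnected_Icc
  have haI : a ∈ Icc a b := ⟨le_rfl, hab.le⟩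
  rcases lt_or_ge 0 (g' a) with h0 | h0
  · refine key g g' hd fun u hu => ?_
    have hpos : 0 < g' u := by
      by_contra hneg
      obtain ⟨z, hz, hz2⟩ := hpc.intermediate_value hu haI hc
        (show (0 : ℝ) ∈ Icc (g' u) (g' a) from ⟨not_lt.mp hneg, h0.le⟩)
      have := h z hz
      rw [hz2, abs_zero] at this
      linarith
    have := h u hu
    rwa [abs_of_pos hpos] at this
  · have h0' : g' a < 0 := by
      rcases eq_or_lt_of_le h0 with h1 | h1
      · have := h a haI
        rw [h1, abs_zero] at this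
        linarith
      · exact h1
    obtain ⟨c, d, h1, h2, h3, h4⟩ := key (fun u => -g u) (fun u => -g' u) (fun u hu => (hd u hu).neg) fun u hu => by
      have hneg : g' u < 0 := by
        by_contra hpos
        obtain ⟨z, hz, hz2⟩ := hpc.intermediate_value haI hu hc
          (show (0 : ℝ) ∈ Icc (g' a) (g' u) from ⟨h0'.le, not_lt.mp hpos⟩)
        have := h z hz
        rw [hz2, abs_zero] at this
        linarith
      have := h u hu
      rwa [abs_of_neg hneg] at this
    exact ⟨c, d, h1, h2, h3, fun u hu => by simpa using h4 u hu⟩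

/-- from the `M`-th derivative to all lower ones -/
lemma chain {M : ℕ} {a b s : ℝ} (ha : 1 ≤ a) (hab : a < b) (hs : 0 < s)
    (h : ∀ u ∈ Icc a b, s ≤ |iteratedDeriv M Z u|) : ∀ k : ℕ, k ≤ M →
    ∃ c d, a ≤ c ∧ d ≤ b ∧ d - c = (b - a) / 4 ^ k ∧ ∀ j : ℕ, M ≤ j + k → j ≤ M → ∀ u ∈ Icc c d,
      s * ((b - a) / 4 ^ k) ^ (M - j) ≤ |iteratedDeriv j Z u| := by
  intro k
  induction k with
  | zero =>
    intro _
    refine ⟨a, b, le_rfl, le_rfl, by simp, fun j h1 h2 u hu => ?_⟩
    have h3 : j = M := by omega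
    rw [h3]
    simpa using h u hu
  | succ k ih =>
    intro hk
    obtain ⟨c, d, h1, h2, h3, h4⟩ := ih (by omega)
    have hba : 0 < b - a := by linarith
    have hl0 : 0 < (b - a) / 4 ^ k := by positivity
    have hcd : c < d := by linarith
    set j0 : ℕ := M - (k + 1) with hj0
    have hj1 : j0 + 1 = M - k := by omega
    have h5 := h4 (j0 + 1) (by omega) (by omega)
    have e1 : M - (j0 + 1) = k := by omega
    rw [e1] at h5
    have hd : ∀ u ∈ Icc c d, HasDerivAt (iteratedDeriv j0 Z) (iteratedDeriv (j0 + 1) Z u) u := by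
      intro u hu
      rw [iteratedDeriv_succ]
      exact (iter_diff j0 (by linarith [hu.1])).hasDerivAt
    have hcont : ContinuousOn (iteratedDeriv (j0 + 1) Z) (Icc c d) := fun u hu =>
      (iter_diff (j0 + 1) (by linarith [hu.1])).continuousAt.continuousWithinAt
    obtain ⟨c', d', q1, q2, q3, q4⟩ := quarter hcd (by positivity) hd hcont h5
    have e2 : (d - c) / 4 = (b - a) / 4 ^ (k + 1) := by
      rw [h3, pow_succ]
      field_simp
    have hl1 : 0 < (b - a) / 4 ^ (k + 1) := by positivity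
    have hle : (b - a) / 4 ^ (k + 1) ≤ (b - a) / 4 ^ k := by
      rw [← e2, ← h3]
      linarith
    refine ⟨c', d', h1.trans q1, q2.trans h2, by rw [q3, e2], fun j hj hjM u hu => ?_⟩
    rcases Nat.lt_or_ge (j + k) M with hlt | hge
    · have hjj : j = j0 := by omega
      have e3 : M - j = k + 1 := by omega
      have h6 := q4 u hu
      rw [e2] at h6
      rw [hjj] at e3 ⊢
      rw [e3]
      refine le_trans ?_ h6
      rw [pow_succ, ← mul_assoc]
      refine mul_le_mul_of_nonneg_right ?_ hl1.le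
      exact mul_le_mul_of_nonneg_left (pow_le_pow_left₀ hl1.le hle k) hs.le
    · refine le_trans ?_ (h4 j hge hjM u ⟨q1.trans hu.1, hu.2.trans q2⟩)
      exact mul_le_mul_of_nonneg_left (pow_le_pow_left₀ hl1.le hle _) hs.le

end Pool.Agent.X117.AD
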