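import Pool.Agent.X117.All1

/-!
# The measure of the set on which all derivatives have a given size
-/

namespace Pool.Agent.X117.AD

open Filter Topology MeasureTheory Complex H370 Set
open Pool.Agent.X117.HZ Pool.Agent.X117.Peak Pool.Agent.X117.DZ Pool.Agent.X117.JM

/-- an interval on which two derivatives are large -/
lemma sub_piece {n : ℕ} {σ₁ σ₂ r t c d θ s ℓ U₁ U₂ : ℝ} (hr : 0 < r) (ht : 1 ≤ t - r)
    (hσ₂ : σ₂ = 1 ∨ σ₂ = -1) (h1 : t - r ≤ c) (h2 : c ≤ d) (h3 : d ≤ t + r) (hθ : 0 < θ) (hs : 0 < s)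
    (hl : 0 < ℓ) (h4 : ∀ u ∈ Icc c d, θ ≤ σ₁ * iteratedDeriv n Z u)
    (h5 : θ ≤ σ₂ * (iteratedDeriv n Z d - iteratedDeriv n Z c)) (h6 : 4 * r * s ≤ θ)
    (h7 : ℓ * U₁ ≤ θ) (h8 : ℓ * U₂ ≤ s)
    (hU1 : ∀ u ∈ Icc (t - r) (t + r), |iteratedDeriv (n + 1) Z u| ≤ U₁)
    (hU2 : ∀ u ∈ Icc (t - r) (t + r), |iteratedDeriv (n + 2) Z u| ≤ U₂) :
    ∃ c' d', t - r ≤ c' ∧ d' ≤ t + r ∧ d' - c' = ℓ ∧
      ∀ u ∈ Icc c' d', θ ≤ σ₁ * iteratedDeriv n Z u ∧ s ≤ σ₂ * iteratedDeriv (n + 1) Z u := by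
  have hcd : c < d := by
    rcases eq_or_lt_of_le h2 with h | h
    · rw [h, sub_self, mul_zero] at h5
      linarith
    · exact h
  have hder : ∀ (j : ℕ) (u : ℝ), t - r ≤ u → HasDerivAt (iteratedDeriv j Z) (iteratedDeriv (j + 1) Z u) u := by
    intro j u hu
    rw [iteratedDeriv_succ]
    exact (iter_diff j (by linarith)).hasDerivAt
  have hsgn : ∀ x : ℝ, σ₂ * x ≤ |x| := by
    rcases hσ₂ with rfl | rfl
    · intro x
      rw [one_mul]
      exact le_abs_self _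
    · intro x
      rw [neg_one_mul]
      exact neg_le_abs _
  obtain ⟨v, hv, hv2⟩ := exists_hasDerivAt_eq_slope (iteratedDeriv n Z) (iteratedDeriv (n + 1) Z) hcd
    (fun u hu => (hder n u (by linarith [hu.1])).continuousAt.continuousWithinAt)
    (fun u hu => hder n u (by linarith [hu.1]))
  have hslope : σ₂ * (iteratedDeriv n Z d - iteratedDeriv n Z c) = σ₂ * iteratedDeriv (n + 1) Z v * (d - c) := by
    have hne : d - c ≠ 0 := by
      have : 0 < d - c := by linarith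
      exact this.ne'
    rw [hv2, mul_assoc, div_mul_cancel₀ _ hne]
  rw [hslope] at h5
  have hvI : v ∈ Icc (t - r) (t + r) := ⟨by linarith [hv.1], by linarith [hv.2]⟩
  have hdc : 0 < d - c := by linarith
  have h9 : σ₂ * iteratedDeriv (n + 1) Z v ≤ U₁ := (hsgn _).trans (hU1 v hvI)
  have h10 : ℓ ≤ d - c := by
    by_contra hlt
    rw [not_le] at hlt
    have hpos : 0 < σ₂ * iteratedDeriv (n + 1) Z v := by
      by_contra hneg
      have : σ₂ * iteratedDeriv (n + 1) Z v * (d - c) ≤ 0 :=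
        mul_nonpos_of_nonpos_of_nonneg (not_lt.mp hneg) hdc.le
      linarith
    have hU0 : 0 < U₁ := lt_of_lt_of_le hpos h9
    have q1 : σ₂ * iteratedDeriv (n + 1) Z v * (d - c) ≤ U₁ * (d - c) := mul_le_mul_of_nonneg_right h9 hdc.le
    have q2 : U₁ * (d - c) < U₁ * ℓ := mul_lt_mul_of_pos_left hlt hU0
    linarith
  have h11 : 2 * s ≤ σ₂ * iteratedDeriv (n + 1) Z v := by
    by_contra hlt
    rw [not_le] at hlt
    have q1 : σ₂ * iteratedDeriv (n + 1) Z v * (d - c) < 2 * s * (d - c) := mul_lt_mul_of_pos_right hlt hdc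
    have q2 : 2 * s * (d - c) ≤ 2 * s * (2 * r) := mul_le_mul_of_nonneg_left (by linarith) (by linarith)
    linarith
  refine ⟨min v (d - ℓ), min v (d - ℓ) + ℓ, ?_, ?_, by ring, fun u hu => ?_⟩
  · exact le_min hvI.1 (by linarith)
  · have := min_le_right v (d - ℓ)
    linarith
  have hmc : c ≤ min v (d - ℓ) := le_min hv.1.le (by linarith)
  have hmd : min v (d - ℓ) + ℓ ≤ d := by
    have := min_le_right v (d - ℓ)
    linarith
  refine ⟨h4 u ⟨hmc.trans hu.1, hu.2.trans hmd⟩, ?_⟩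
  have hmv : v ≤ min v (d - ℓ) + ℓ := by
    rcases min_cases v (d - ℓ) with ⟨q, -⟩ | ⟨q, -⟩ <;> rw [q]
    · linarith
    · linarith [hv.2]
  have huv : |u - v| ≤ ℓ := by
    rw [abs_le]
    have := min_le_left v (d - ℓ)
    constructor <;> linarith [hu.1, hu.2]
  have hlip : |iteratedDeriv (n + 1) Z u - iteratedDeriv (n + 1) Z v| ≤ U₂ * |u - v| := by
    have := (convex_Icc (t - r) (t + r)).norm_image_sub_le_of_norm_hasDerivWithin_le
      (f := iteratedDeriv (n + 1) Z) (f' := iteratedDeriv (n + 2) Z) (C := U₂)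
      (fun x hx => (hder (n + 1) x hx.1).hasDerivWithinAt) (fun x hx => by simpa using hU2 x hx) hvI
      (y := u) ⟨by linarith [hu.1, hmc], by linarith [hu.2, hmd]⟩
    simpa using this
  have hU20 : 0 ≤ U₂ := (abs_nonneg _).trans (hU2 v hvI)
  have q1 : U₂ * |u - v| ≤ s := (mul_le_mul_of_nonneg_left huv hU20).trans (by linarith)
  have q2 : σ₂ * iteratedDeriv (n + 1) Z v - σ₂ * iteratedDeriv (n + 1) Z u ≤ s := by
    have q3 := hsgn (iteratedDeriv (n + 1) Z v - iteratedDeriv (n + 1) Z u)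
    rw [abs_sub_comm] at q3
    have q4 : σ₂ * (iteratedDeriv (n + 1) Z v - iteratedDeriv (n + 1) Z u) =
      σ₂ * iteratedDeriv (n + 1) Z v - σ₂ * iteratedDeriv (n + 1) Z u := by ring
    linarith
  linarith

/-- all derivatives up to the order `n + 1` have a given size, the last two have given signs -/
def allR (σ₁ σ₂ : ℝ) (n : ℕ) (κ₁ κ₂ T : ℝ) : Set ℝ :=
  {t : ℝ | (0 < σ₁ * iteratedDeriv n Z t ∧ 0 < σ₂ * iteratedDeriv (n + 1) Z t) ∧ ∀ j : ℕ, j ≤ n + 1 →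
    Real.log T ^ (j + κ₁) ≤ |iteratedDeriv j Z t| ∧ |iteratedDeriv j Z t| ≤ Real.log T ^ (j + κ₂)}

lemma allR_meas (σ₁ σ₂ : ℝ) (n : ℕ) (κ₁ κ₂ T : ℝ) : MeasurableSet (allR σ₁ σ₂ n κ₁ κ₂ T) := by
  have e1 : allR σ₁ σ₂ n κ₁ κ₂ T = ({t : ℝ | 0 < σ₁ * iteratedDeriv n Z t} ∩
      {t : ℝ | 0 < σ₂ * iteratedDeriv (n + 1) Z t}) ∩ ⋂ j : ℕ, ⋂ _ : j ≤ n + 1,
        ({t : ℝ | Real.log T ^ (j + κ₁) ≤ |iteratedDeriv j Z t|} ∩
          {t : ℝ | |iteratedDeriv j Z t| ≤ Real.log T ^ (j + κ₂)}) := by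
    ext t
    simp only [allR, mem_ofPred_eq, mem_inter_iff, mem_iInter]
  rw [e1]
  have h1 : ∀ j : ℕ, Measurable fun t => |iteratedDeriv j Z t| := fun j => (iter_meas j).abs
  refine ((measurableSet_lt measurable_const ((iter_meas n).const_mul σ₁)).inter
    (measurableSet_lt measurable_const ((iter_meas (n + 1)).const_mul σ₂))).inter ?_
  exact MeasurableSet.iInter fun j => MeasurableSet.iInter fun _ =>
    (measurableSet_le measurable_const (h1 j)).inter (measurableSet_le (h1 j) measurable_const)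

/-- the set in `[T, 2 T]` -/
def all (σ₁ σ₂ : ℝ) (n : ℕ) (κ₁ κ₂ T : ℝ) : Set ℝ := allR σ₁ σ₂ n κ₁ κ₂ T ∩ Icc T (2 * T)

lemma all_meas (σ₁ σ₂ : ℝ) (n : ℕ) (κ₁ κ₂ T : ℝ) : MeasurableSet (all σ₁ σ₂ n κ₁ κ₂ T) :=
  (allR_meas _ _ _ _ _ _).inter measurableSet_Icc

lemma all_fin (σ₁ σ₂ : ℝ) (n : ℕ) (κ₁ κ₂ T : ℝ) : volume (all σ₁ σ₂ n κ₁ κ₂ T) ≠ ⊤ :=
  (measure_lt_top_of_subset (inter_subset_right : all σ₁ σ₂ n κ₁ κ₂ T ⊆ Icc T (2 * T))
    (by rw [Real.volume_Icc]; exact ENNReal.ofReal_ne_top)).ne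

/-- the sizes of the lower derivatives -/
lemma size_low {L κ ε η : ℝ} {n j : ℕ} (hL : 1 ≤ L) (hε : 0 < ε) (hη : 0 ≤ η) (h4 : (4 : ℝ) ^ (n * n) ≤ L ^ ε)
    (hj : j ≤ n) : L ^ (j + (κ - ((n + 3) * ε + n * ((n + 4) * ε + η)))) ≤
      L ^ (κ + n - (n + 2) * ε) * (L ^ (-1 - (n + 4) * ε - η) / 4 ^ n) ^ (n - j) := by
  have hL0 : 0 < L := by linarith
  have hcast : ((n - j : ℕ) : ℝ) = n - j := by rw [Nat.cast_sub hj]
  have h1 : (4 : ℝ) ^ (n * (n - j)) ≤ 4 ^ (n * n) :=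
    pow_le_pow_right₀ (by norm_num) (Nat.mul_le_mul_left n (Nat.sub_le n j))
  rw [div_pow, ← pow_mul, ← Real.rpow_natCast (L ^ (-1 - (n + 4) * ε - η)), ← Real.rpow_mul hL0.le,
    ← mul_div_assoc, ← Real.rpow_add hL0, le_div_iff₀ (by positivity)]
  have h5 : (4 : ℝ) ^ (n * (n - j)) ≤ L ^ ε := h1.trans h4
  have hjr : (0 : ℝ) ≤ j := Nat.cast_nonneg j
  have hnj : (j : ℝ) ≤ n := by exact_mod_cast hj
  have hD : 0 ≤ (n + 4) * ε + η := by positivity
  calc L ^ (j + (κ - ((n + 3) * ε + n * ((n + 4) * ε + η)))) * 4 ^ (n * (n - j))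
      ≤ L ^ (j + (κ - ((n + 3) * ε + n * ((n + 4) * ε + η)))) * L ^ ε := by gcongr
    _ = L ^ (j + (κ - ((n + 3) * ε + n * ((n + 4) * ε + η))) + ε) := by rw [← Real.rpow_add hL0]
    _ ≤ L ^ (κ + n - (n + 2) * ε + (-1 - (n + 4) * ε - η) * ((n - j : ℕ) : ℝ)) := by
        apply Real.rpow_le_rpow_of_exponent_le hL
        rw [hcast]
        have h6 : (n - j : ℝ) * ((n + 4) * ε + η) ≤ n * ((n + 4) * ε + η) :=
          mul_le_mul_of_nonneg_right (by linarith) hD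
        nlinarith

/-- the measure, before the choice of the parameters -/
lemma all_aux {κ ε η κ' : ℝ} (hκ' : 0 < κ') (hκ'2 : κ' ≤ 2) (hε : 0 < ε) (hε4 : ε ≤ 1 / 4) (hη0 : 0 ≤ η)
    (hη : -κ' ^ 2 - 2 * κ' * (κ + η - κ') + 2 * ε ≤ -κ ^ 2 - 2 * ε) (n : ℕ) {σ₁ σ₂ : ℝ}
    (hσ₁ : σ₁ = 1 ∨ σ₁ = -1) (hσ₂ : σ₂ = 1 ∨ σ₂ = -1) :
    ∀ᶠ T : ℝ in atTop, T * Real.log T ^ (-κ ^ 2 - (n + 8) * ε - η) ≤
      volume.real (all σ₁ σ₂ n (κ - ((n + 3) * ε + n * ((n + 4) * ε + η))) (κ + η + ε) T) := by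
  obtain ⟨C, hC, hB⟩ := large_windows (κ := κ') (η := κ + η - κ') (e := 2 * ε) hκ' hκ'2 (by positivity)
  have hLε : Tendsto (fun T : ℝ => Real.log T ^ ε) atTop atTop :=
    (tendsto_rpow_atTop hε).comp Real.tendsto_log_atTop
  filter_upwards [alt_windows (n + 1) κ hε, hB, hLε.eventually_ge_atTop 8,
    hLε.eventually_ge_atTop (2 * C), hLε.eventually_ge_atTop ((n + 2).factorial : ℝ),
    hLε.eventually_ge_atTop ((4 : ℝ) ^ (n * n)), hLε.eventually_ge_atTop (2 * 4 ^ n),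
    Real.tendsto_log_atTop.eventually_ge_atTop 5, eventually_ge_atTop (10 : ℝ)]
    with T hT hTB hL5 hLC hLf hL4 hL2 hLL hT10
  obtain ⟨r, E, hr0, hr1, hr2, hEm, hEs, hEv, hEx⟩ := hT
  have hT0 : 0 < T := by linarith
  have hL0 : 0 < Real.log T := by linarith
  have hL1 : 1 ≤ Real.log T := by linarith
  set L := Real.log T with hL
  have hLe : L ^ (-1 : ℝ) = 1 / L := by rw [Real.rpow_neg_one, one_div]
  have hρ : r + 3 / L ≤ L ^ (2 * ε - 1) := by
    have h1 : 3 / L = 3 * L ^ (-1 : ℝ) := by rw [hLe]; ring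
    have h2 : L ^ (-1 : ℝ) ≤ L ^ (ε - 1) := Real.rpow_le_rpow_of_exponent_le hL1 (by linarith)
    have h3 : L ^ (2 * ε - 1) = L ^ ε * L ^ (ε - 1) := by
      rw [← Real.rpow_add hL0]
      congr 1
      ring
    have h4 : 0 < L ^ (ε - 1) := Real.rpow_pos_of_pos hL0 _
    rw [h1, h3]
    nlinarith
  have hρ1 : r + 3 / L ≤ 1 := hρ.trans (Real.rpow_le_one_of_one_le_of_nonpos hL1 (by linarith))
  obtain ⟨B, hBm, hBs, hBv, hBz⟩ := hTB (r + 3 / L) (by
    have : 2 / L ≤ 3 / L := div_le_div_of_nonneg_right (by norm_num) hL0.le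
    linarith) hρ hρ1
  -- the remaining windows
  have hBv' : volume.real B ≤ 1 / 2 * (T * L ^ (-κ ^ 2 - ε)) := by
    refine hBv.trans ?_
    have h1 : L ^ (-κ' ^ 2 - 2 * κ' * (κ + η - κ') + 2 * ε) ≤ L ^ (-κ ^ 2 - 2 * ε) :=
      Real.rpow_le_rpow_of_exponent_le hL1 hη
    have h2 : L ^ (-κ ^ 2 - ε) = L ^ (-κ ^ 2 - 2 * ε) * L ^ ε := by
      rw [← Real.rpow_add hL0]
      congr 1
      ring
    have h3 : 0 < L ^ (-κ ^ 2 - 2 * ε) := Real.rpow_pos_of_pos hL0 _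
    rw [h2]
    calc C * (T * L ^ (-κ' ^ 2 - 2 * κ' * (κ + η - κ') + 2 * ε)) ≤ C * (T * L ^ (-κ ^ 2 - 2 * ε)) := by gcongr
      _ = 1 / 2 * (T * (L ^ (-κ ^ 2 - 2 * ε) * (2 * C))) := by ring
      _ ≤ _ := by gcongr
  have hIcc : volume (Icc T (2 * T)) ≠ ⊤ := by rw [Real.volume_Icc]; exact ENNReal.ofReal_ne_top
  have hBfin : volume B ≠ ⊤ := (measure_lt_top_of_subset hBs hIcc).ne
  have hEfin : volume E ≠ ⊤ := (measure_lt_top_of_subset hEs
    (by rw [Real.volume_Icc]; exact ENNReal.ofReal_ne_top)).ne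
  set E' : Set ℝ := E \ B with hE'
  have hE'v : 1 / 2 * (T * L ^ (-κ ^ 2 - ε)) ≤ volume.real E' := by
    have h1 : volume.real E ≤ volume.real E' + volume.real (E ∩ B) := by
      rw [hE', measureReal_sdiff_add_inter hBm hEfin]
    have h2 : volume.real (E ∩ B) ≤ volume.real B := measureReal_mono inter_subset_right hBfin
    linarith
  -- the bounds for the derivatives
  obtain ⟨hsz1, hsz2⟩ := size_aux2 (κ := κ) (n := n) hL1 hL5 hr0 hr2
  set s : ℝ := L ^ (κ + (n + 1) - (n + 3) * ε) with hs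
  have hs0 : 0 < s := Real.rpow_pos_of_pos hL0 _
  have hM : ∀ j : ℕ, j ≤ n + 2 → (j.factorial : ℝ) * L ^ (κ + η) / (1 / L) ^ j ≤ L ^ (j + (κ + η + ε)) := by
    intro j hj
    have e1 : (j.factorial : ℝ) * L ^ (κ + η) / (1 / L) ^ j = j.factorial * (L ^ (κ + η) * L ^ (j : ℝ)) := by
      rw [one_div, inv_pow, div_inv_eq_mul, ← Real.rpow_natCast L j]
      ring
    have e2 : L ^ (j + (κ + η + ε)) = L ^ ε * (L ^ (κ + η) * L ^ (j : ℝ)) := by
      rw [← Real.rpow_add hL0, ← Real.rpow_add hL0]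
      congr 1
      ring
    rw [e1, e2]
    have h1 : (j.factorial : ℝ) ≤ (n + 2).factorial := by exact_mod_cast Nat.factorial_le hj
    have h2 : 0 ≤ L ^ (κ + η) * L ^ (j : ℝ) := by positivity
    exact mul_le_mul_of_nonneg_right (h1.trans hLf) h2
  have hder : ∀ t ∈ E', ∀ j : ℕ, j ≤ n + 2 → ∀ u ∈ Icc (t - r) (t + r),
      |iteratedDeriv j Z u| ≤ L ^ (j + (κ + η + ε)) := by
    intro t ht j hj u hu
    have htI := hEs ht.1
    refine le_trans ?_ (hM j hj)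
    refine cauchy (t0 := u) (R := 1 / L) (M := L ^ (κ + η)) (by linarith [htI.1, hu.1])
      (by positivity) (one_div_lt_one_div_of_lt (by norm_num) (by linarith)) ?_ j
    intro z hz
    have h2 := (Complex.abs_re_le_norm _).trans hz
    have h3 := (Complex.abs_im_le_norm _).trans hz
    have e1 : (z - (1 / 2 + I * (u : ℂ))).re = z.re - 1 / 2 := by simp
    have e2 : (z - (1 / 2 + I * (u : ℂ))).im = z.im - u := by simp
    rw [e1] at h2
    rw [e2] at h3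
    have h4 := hBz t ⟨by linarith [htI.1], by linarith [htI.2]⟩ ht.2 z h2 (by
      have h5 : |z.im - t| ≤ |z.im - u| + |u - t| := by
        have : z.im - t = (z.im - u) + (u - t) := by ring
        rw [this]
        exact abs_add_le _ _
      have h6 : |u - t| ≤ r := abs_le.mpr ⟨by linarith [hu.1], by linarith [hu.2]⟩
      have h7 : r + 3 / L - 2 / L = r + 1 / L := by ring
      rw [h7]
      linarith)
    have e3 : κ' + (κ + η - κ') = κ + η := by ring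
    rwa [e3] at h4
  set ℓ : ℝ := L ^ (-1 - (n + 4) * ε - η) with hℓ
  have hℓ0 : 0 < ℓ := Real.rpow_pos_of_pos hL0 _
  set θ : ℝ := L ^ (κ - ε) * (1 / r) ^ n / 2 with hθ
  have hθ0 : 0 < θ := by positivity
  have hn0 : (0 : ℝ) ≤ n := Nat.cast_nonneg n
  have c7 : ℓ * L ^ (((n + 1 : ℕ) : ℝ) + (κ + η + ε)) ≤ θ := by
    refine le_trans ?_ hsz2
    rw [hℓ, ← Real.rpow_add hL0]
    apply Real.rpow_le_rpow_of_exponent_le hL1
    push_cast
    nlinarith
  have c8 : ℓ * L ^ (((n + 2 : ℕ) : ℝ) + (κ + η + ε)) ≤ s := by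
    rw [hℓ, hs, ← Real.rpow_add hL0]
    apply Real.rpow_le_rpow_of_exponent_le hL1
    push_cast
    nlinarith
  set Q := allR σ₁ σ₂ n (κ - ((n + 3) * ε + n * ((n + 4) * ε + η))) (κ + η + ε) T with hQ
  have hQm : MeasurableSet Q := allR_meas _ _ _ _ _ _
  have hsgn : ∀ σ : ℝ, (σ = 1 ∨ σ = -1) → ∀ x : ℝ, σ * x ≤ |x| := by
    rintro σ (rfl | rfl) x
    · rw [one_mul]
      exact le_abs_self _
    · rw [neg_one_mul]
      exact neg_le_abs _
  have h4n : (0 : ℝ) < 4 ^ n := by positivity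
  have hsp := spread (G := Q.indicator (1 : ℝ → ENNReal))
      (measurable_one.indicator hQm) (hEm.diff hBm) (a := T) (b := 2 * T) (r := r) hr0 (by
      intro t ht
      have := hEs ht.1
      exact ⟨by linarith [this.1], by linarith [this.2]⟩) (c := ENNReal.ofReal (ℓ / 4 ^ n / (2 * r))) (by
    intro t ht
    have htI := hEs ht.1
    obtain ⟨c, d, p1, p2, p3, p4, p5⟩ := piece (m := n) (σ₁ := σ₁) (σ₂ := σ₂) (t := t) hr0
      (by linarith [htI.1]) (by positivity) hσ₁ hσ₂ (hEx t ht.1)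
    obtain ⟨c', d', q1, q2, q3, q4⟩ := sub_piece (n := n) hr0 (by linarith [htI.1]) hσ₂ p1 p2 p3 hθ0 hs0 hℓ0
      p4 p5 hsz1 c7 c8 (hder t ht (n + 1) (by omega)) (hder t ht (n + 2) le_rfl)
    obtain ⟨c'', d'', w1, w2, w3, w4⟩ := chain (M := n) (a := c') (b := d') (s := θ) (by linarith [htI.1])
      (by linarith) hθ0 (fun u hu => ((q4 u hu).1).trans (hsgn σ₁ hσ₁ _)) n le_rfl
    rw [q3] at w3 w4
    have hsub : ∀ u ∈ Icc c'' d'', u ∈ Q := by
      intro u hu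
      have hu' : u ∈ Icc c' d' := ⟨w1.trans hu.1, hu.2.trans w2⟩
      have huI : u ∈ Icc (t - r) (t + r) := ⟨q1.trans hu'.1, hu'.2.trans q2⟩
      obtain ⟨x1, x2⟩ := q4 u hu'
      refine ⟨⟨lt_of_lt_of_le hθ0 x1, lt_of_lt_of_le hs0 x2⟩, fun j hj => ⟨?_, hder t ht j (by omega) u huI⟩⟩
      rcases Nat.lt_or_ge n j with hlt | hge
      · have hjn : j = n + 1 := by omega
        rw [hjn]
        refine le_trans ?_ (x2.trans (hsgn σ₂ hσ₂ _))
        rw [hs, ← hL]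
        apply Real.rpow_le_rpow_of_exponent_le hL1
        push_cast
        have : 0 ≤ (n : ℝ) * ((n + 4) * ε + η) := by positivity
        nlinarith
      · refine le_trans ?_ (w4 j (by omega) hge u hu)
        refine (size_low (κ := κ) (η := η) hL1 hε hη0 hL4 hge).trans ?_
        exact mul_le_mul_of_nonneg_right hsz2 (by positivity)
    rw [shift_window (F := fun u => Q.indicator (1 : ℝ → ENNReal) u), ← ENNReal.ofReal_mul (by positivity)]
    have e1 : 2 * r * (ℓ / 4 ^ n / (2 * r)) = d'' - c'' := by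
      rw [w3]
      field_simp
    rw [e1, ← Real.volume_Icc, ← setLIntegral_one]
    refine le_trans (le_of_eq ?_) (lintegral_mono_set (Icc_subset_Icc (q1.trans w1) (w2.trans q2)))
    refine setLIntegral_congr_fun measurableSet_Icc fun u hu => ?_
    simp only [indicator_of_mem (hsub u hu), Pi.one_apply])
  rw [setLIntegral_indicator hQm] at hsp
  simp only [Pi.one_apply] at hsp
  rw [setLIntegral_one] at hsp
  have h1 : volume.real E' * (ℓ / 4 ^ n / (2 * r)) ≤ volume.real (all σ₁ σ₂ n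
      (κ - ((n + 3) * ε + n * ((n + 4) * ε + η))) (κ + η + ε) T) := by
    have h2 := ENNReal.toReal_mono (all_fin _ _ _ _ _ _) hsp
    rwa [ENNReal.toReal_mul, ENNReal.toReal_ofReal (by positivity)] at h2
  refine le_trans ?_ h1
  have h2 : L ^ (-(n + 6) * ε - η) ≤ ℓ / 4 ^ n / (2 * r) := by
    rw [div_div, le_div_iff₀ (by positivity)]
    have e1 : L ^ (-(n + 6) * ε - η) * (4 ^ n * (2 * r)) = L ^ (-(n + 6) * ε - η) * (2 * 4 ^ n) * r := by ring
    have e2 : ℓ = L ^ (-(n + 6) * ε - η) * L ^ ε * L ^ (ε - 1) := by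
      rw [hℓ, ← Real.rpow_add hL0, ← Real.rpow_add hL0]
      congr 1
      ring
    rw [e1, e2]
    gcongr
  have h3 : L ^ (-κ ^ 2 - (n + 8) * ε - η) ≤ 1 / 2 * L ^ (-κ ^ 2 - ε) * L ^ (-(n + 6) * ε - η) := by
    have e1 : L ^ (-κ ^ 2 - ε) * L ^ (-(n + 6) * ε - η) = L ^ (-κ ^ 2 - (n + 8) * ε - η) * L ^ ε := by
      rw [← Real.rpow_add hL0, ← Real.rpow_add hL0]
      congr 1
      ring
    have p1 : 0 < L ^ (-κ ^ 2 - (n + 8) * ε - η) := Real.rpow_pos_of_pos hL0 _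
    nlinarith
  have p1 : 0 < L ^ (-(n + 6) * ε - η) := Real.rpow_pos_of_pos hL0 _
  calc T * L ^ (-κ ^ 2 - (n + 8) * ε - η) ≤ T * (1 / 2 * L ^ (-κ ^ 2 - ε) * L ^ (-(n + 6) * ε - η)) := by gcongr
    _ = 1 / 2 * (T * L ^ (-κ ^ 2 - ε)) * L ^ (-(n + 6) * ε - η) := by ring
    _ ≤ volume.real E' * L ^ (-(n + 6) * ε - η) := mul_le_mul_of_nonneg_right hE'v p1.le
    _ ≤ _ := mul_le_mul_of_nonneg_left h2 measureReal_nonneg

end Pool.Agent.X117.AD
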