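import Pool.Agent.X117.All2

/-!
# Joint moments of all derivatives of Hardy's function
-/

namespace Pool.Agent.X117.AD

open Filter Topology MeasureTheory Complex H370 Set
open Pool.Agent.X117.HZ Pool.Agent.X117.Peak Pool.Agent.X117.DZ Pool.Agent.X117.JM

lemma all_mono {σ₁ σ₂ : ℝ} {n : ℕ} {a b c d T : ℝ} (hL : 1 ≤ Real.log T) (h1 : c ≤ a) (h2 : b ≤ d) :
    all σ₁ σ₂ n a b T ⊆ all σ₁ σ₂ n c d T := by
  rintro t ⟨⟨q1, q2⟩, q3⟩
  refine ⟨⟨q1, fun j hj => ⟨?_, ?_⟩⟩, q3⟩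
  · exact (Real.rpow_le_rpow_of_exponent_le hL (by linarith)).trans (q2 j hj).1
  · exact (q2 j hj).2.trans (Real.rpow_le_rpow_of_exponent_le hL (by linarith))

/-- all derivatives of a given size -/
theorem all_ge {κ : ℝ} (hκ : 0 < κ) (hκ2 : κ ≤ 2) {ε : ℝ} (hε : 0 < ε) (n : ℕ) {σ₁ σ₂ : ℝ}
    (hσ₁ : σ₁ = 1 ∨ σ₁ = -1) (hσ₂ : σ₂ = 1 ∨ σ₂ = -1) :
    ∀ᶠ T : ℝ in atTop, T * Real.log T ^ (-κ ^ 2 - ε) ≤ volume.real (all σ₁ σ₂ n (κ - ε) (κ + ε) T) := by
  have hn : (0 : ℝ) ≤ n := Nat.cast_nonneg n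
  have hd : 0 < ((n : ℝ) + 4) ^ 2 + 8 + (n + 1) * (2 / κ) := by positivity
  set e : ℝ := min (1 / 4) (ε / (((n : ℝ) + 4) ^ 2 + 8 + (n + 1) * (2 / κ))) with he
  have he0 : 0 < e := lt_min (by norm_num) (by positivity)
  have he4 : e ≤ 1 / 4 := min_le_left _ _
  have he1 : e * (((n : ℝ) + 4) ^ 2 + 8 + (n + 1) * (2 / κ)) ≤ ε := by
    have := min_le_right (1 / 4 : ℝ) (ε / (((n : ℝ) + 4) ^ 2 + 8 + (n + 1) * (2 / κ)))
    rw [← he, le_div_iff₀ hd] at this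
    exact this
  have hη : 2 * κ * (2 * e / κ) = 4 * e := by
    field_simp
    ring
  have hη0 : 0 < 2 * e / κ := by positivity
  have e1 : e * (((n : ℝ) + 4) ^ 2 + 8 + (n + 1) * (2 / κ)) =
      (n ^ 2 + 8 * n + 24) * e + (n + 1) * (2 * e / κ) := by ring
  rw [e1] at he1
  have n1 : 0 ≤ (n : ℝ) * e := by positivity
  have n2 : 0 ≤ (n : ℝ) ^ 2 * e := by positivity
  have n3 : 0 ≤ (n : ℝ) * (2 * e / κ) := by positivity
  have h := all_aux (κ := κ) (ε := e) (η := 2 * e / κ) (κ' := κ) hκ hκ2 he0 he4 hη0.le (by nlinarith) n hσ₁ hσ₂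
  filter_upwards [h, Real.tendsto_log_atTop.eventually_ge_atTop 1, eventually_ge_atTop 0] with T hT hL hT0
  refine le_trans ?_ (hT.trans (measureReal_mono (all_mono hL ?_ ?_) (all_fin _ _ _ _ _ _)))
  · refine mul_le_mul_of_nonneg_left ?_ hT0
    exact Real.rpow_le_rpow_of_exponent_le hL (by nlinarith)
  · nlinarith
  · nlinarith

/-- all derivatives are large -/
def allLarge (σ₁ σ₂ : ℝ) (n : ℕ) (κ T : ℝ) : Set ℝ :=
  {t : ℝ | T ≤ t ∧ t ≤ 2 * T ∧ 0 < σ₁ * iteratedDeriv n Z t ∧ 0 < σ₂ * iteratedDeriv (n + 1) Z t ∧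
    ∀ j : ℕ, j ≤ n + 1 → Real.log T ^ (j + κ) ≤ |iteratedDeriv j Z t|}

lemma allLarge_sub (σ₁ σ₂ : ℝ) (m : ℕ) (κ T : ℝ) : allLarge σ₁ σ₂ m κ T ⊆ Icc T (2 * T) :=
  fun _ h => ⟨h.1, h.2.1⟩

lemma allLarge_fin (σ₁ σ₂ : ℝ) (m : ℕ) (κ T : ℝ) : volume (allLarge σ₁ σ₂ m κ T) ≠ ⊤ :=
  (measure_lt_top_of_subset (allLarge_sub σ₁ σ₂ m κ T)
    (by rw [Real.volume_Icc]; exact ENNReal.ofReal_ne_top)).ne

theorem allLarge_ge {κ : ℝ} (hκ : 0 < κ) (hκ2 : κ ≤ 2) {ε : ℝ} (hε : 0 < ε) (n : ℕ) {σ₁ σ₂ : ℝ}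
    (hσ₁ : σ₁ = 1 ∨ σ₁ = -1) (hσ₂ : σ₂ = 1 ∨ σ₂ = -1) :
    ∀ᶠ T : ℝ in atTop, T * Real.log T ^ (-κ ^ 2 - ε) ≤ volume.real (allLarge σ₁ σ₂ n κ T) := by
  have hn : (0 : ℝ) ≤ n := Nat.cast_nonneg n
  set K : ℝ := (n + 3) + n * (n + 4) + n * (4 / κ) with hK
  have hK0 : 0 < K := by positivity
  have hcont : ContinuousAt (fun e : ℝ => -(κ + K * e) ^ 2 - (n + 8) * e - 4 * e / κ) 0 := by
    refine Continuous.continuousAt ?_
    fun_prop
  have hev : ∀ᶠ e : ℝ in 𝓝[>] 0, -κ ^ 2 - ε < -(κ + K * e) ^ 2 - (n + 8) * e - 4 * e / κ := by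
    refine (hcont.tendsto.mono_left nhdsWithin_le_nhds).eventually (lt_mem_nhds ?_)
    simp only [mul_zero, add_zero, sub_zero, zero_div]
    linarith
  have hev2 : ∀ᶠ e : ℝ in 𝓝[>] 0, e < min (1 / 4) (4 / K ^ 2) :=
    nhdsWithin_le_nhds (gt_mem_nhds (by positivity))
  obtain ⟨e, he1, he2, he3⟩ := (hev.and (hev2.and self_mem_nhdsWithin)).exists
  have he0 : 0 < e := he3
  have he4 : e ≤ 1 / 4 := he2.le.trans (min_le_left _ _)
  have he5 : K ^ 2 * e ≤ 4 := by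
    have := he2.le.trans (min_le_right _ _)
    rwa [le_div_iff₀ (by positivity), mul_comm] at this
  have hη0 : 0 < 4 * e / κ := by positivity
  have e1 : (n + 3) * e + n * ((n + 4) * e + 4 * e / κ) = K * e := by rw [hK]; ring
  have h := all_aux (κ := κ + K * e) (ε := e) (η := 4 * e / κ) (κ' := κ) hκ hκ2 he0 he4 hη0.le (by
      have h1 : 2 * κ * (4 * e / κ) = 8 * e := by
        field_simp
        ring
      have h2 : K ^ 2 * e ^ 2 ≤ 4 * e := by
        have := mul_le_mul_of_nonneg_right he5 he0.le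
        calc K ^ 2 * e ^ 2 = K ^ 2 * e * e := by ring
          _ ≤ _ := this
      have h3 : 2 * κ * (κ + K * e + 4 * e / κ - κ) = 2 * κ * (K * e) + 8 * e := by
        rw [← h1]
        ring
      rw [h3]
      have h4 : (κ + K * e) ^ 2 = κ ^ 2 + 2 * κ * (K * e) + K ^ 2 * e ^ 2 := by ring
      have h5 : -(κ + K * e) ^ 2 = -κ ^ 2 - 2 * κ * (K * e) - K ^ 2 * e ^ 2 := by
        have : -(κ + K * e) ^ 2 = -((κ + K * e) ^ 2) := by ring
        rw [this, h4]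
        ring
      rw [h5]
      linarith) n hσ₁ hσ₂
  rw [e1, add_sub_cancel_right] at h
  filter_upwards [h, Real.tendsto_log_atTop.eventually_ge_atTop 1, eventually_ge_atTop 0] with T hT hL hT0
  refine le_trans ?_ (hT.trans (measureReal_mono ?_ (allLarge_fin _ _ _ _ _)))
  · refine mul_le_mul_of_nonneg_left ?_ hT0
    exact Real.rpow_le_rpow_of_exponent_le hL he1.le
  · rintro t ⟨⟨⟨q1, q2⟩, q3⟩, q4⟩
    exact ⟨q4.1, q4.2, q1, q2, fun j hj => (q3 j hj).1⟩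

theorem allLarge_le {κ : ℝ} (hκ : 0 < κ) (hκ2 : κ ≤ 2) (n : ℕ) (σ₁ : ℝ) {σ₂ : ℝ} (hσ₂ : σ₂ = 1 ∨ σ₂ = -1) :
    ∃ C : ℝ, 1 ≤ C ∧ ∀ᶠ T : ℝ in atTop,
      volume.real (allLarge σ₁ σ₂ n κ T) ≤ C * (T * Real.log T ^ (-κ ^ 2)) := by
  obtain ⟨C, hC, h⟩ := big_le hκ hκ2 n hσ₂
  refine ⟨C, hC, ?_⟩
  filter_upwards [h] with T hT
  refine (measureReal_mono ?_ (big_fin _ _ _ _)).trans hT
  rintro t ⟨q1, q2, q3, q4, q5⟩
  refine ⟨q1, q2, ?_⟩
  have h1 := q5 (n + 1) le_rfl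
  rw [sign_abs hσ₂ q4]
  exact h1

/-- the product of the powers of the derivatives -/
noncomputable def prd (n : ℕ) (a : ℕ → ℝ) (t : ℝ) : ℝ :=
  ∏ j ∈ Finset.range (n + 2), |iteratedDeriv j Z t| ^ a j

lemma prd_nonneg (n : ℕ) (a : ℕ → ℝ) (t : ℝ) : 0 ≤ prd n a t :=
  Finset.prod_nonneg fun _ _ => Real.rpow_nonneg (abs_nonneg _) _

/-- the joint moment of all derivatives -/
noncomputable def multi (σ₁ σ₂ : ℝ) (n : ℕ) (a : ℕ → ℝ) (T : ℝ) : ENNReal :=
  ∫⁻ t in signs σ₁ σ₂ n T, ENNReal.ofReal (prd n a t)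

/-- the sum of the exponents -/
noncomputable def tot (n : ℕ) (a : ℕ → ℝ) : ℝ := ∑ j ∈ Finset.range (n + 2), a j

/-- the exponent of the logarithm -/
noncomputable def mexp (n : ℕ) (a : ℕ → ℝ) : ℝ := tot n a ^ 2 / 4 + ∑ j ∈ Finset.range (n + 2), j * a j

theorem multi_ge {n : ℕ} {a : ℕ → ℝ} (h0 : 0 < tot n a) (h4 : tot n a ≤ 4) {ε : ℝ} (hε : 0 < ε) {σ₁ σ₂ : ℝ}
    (hσ₁ : σ₁ = 1 ∨ σ₁ = -1) (hσ₂ : σ₂ = 1 ∨ σ₂ = -1) :
    ∀ᶠ T : ℝ in atTop, ENNReal.ofReal (T * Real.log T ^ (mexp n a - ε)) ≤ multi σ₁ σ₂ n a T := by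
  set A : ℝ := ∑ j ∈ Finset.range (n + 2), |a j| with hA
  have hA0 : 0 ≤ A := Finset.sum_nonneg fun _ _ => abs_nonneg _
  set e : ℝ := ε / (1 + A) with he
  have he0 : 0 < e := by positivity
  have he1 : e * (1 + A) = ε := by
    rw [he]
    field_simp
  filter_upwards [all_ge (κ := tot n a / 2) (by linarith) (by linarith) he0 n hσ₁ hσ₂,
    Real.tendsto_log_atTop.eventually_ge_atTop 1, eventually_ge_atTop 1] with T hT hL hT1
  have hT0 : 0 < T := by linarith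
  have hL0 : 0 < Real.log T := by linarith
  set κ : ℝ := tot n a / 2 with hκ
  set L := Real.log T with hLd
  set S := all σ₁ σ₂ n (κ - e) (κ + e) T with hS
  set q : ℝ := (∑ j ∈ Finset.range (n + 2), a j * (j + κ)) - A * e with hq
  have hval : ∀ t ∈ S, L ^ q ≤ prd n a t := by
    intro t ht
    have e1 : L ^ q = ∏ j ∈ Finset.range (n + 2), L ^ (a j * (j + κ) - |a j| * e) := by
      rw [← Real.rpow_sum_of_pos hL0]
      congr 1
      rw [hq, hA, Finset.sum_mul, ← Finset.sum_sub_distrib]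
    rw [e1]
    refine Finset.prod_le_prod (fun j _ => by positivity) fun j hj => ?_
    have hj' : j ≤ n + 1 := by
      have := Finset.mem_range.mp hj
      omega
    obtain ⟨q1, q2⟩ := ht.1.2 j hj'
    refine rpow_ge2 (u := j + κ) hL ?_ ?_
    · refine le_trans (le_of_eq ?_) q1
      rw [← hLd]
      congr 1
      ring
    · refine q2.trans (le_of_eq ?_)
      rw [← hLd]
      congr 1
      ring
  have hsub : S ⊆ signs σ₁ σ₂ n T := by
    rintro t ⟨⟨⟨q1, q2⟩, q3⟩, q4⟩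
    exact ⟨q4.1, q4.2, q1, q2⟩
  have h1 : volume S * ENNReal.ofReal (L ^ q) ≤ multi σ₁ σ₂ n a T := by
    unfold multi
    refine le_trans ?_ (lintegral_mono_set hsub)
    rw [mul_comm, ← setLIntegral_const]
    exact setLIntegral_mono' (all_meas _ _ _ _ _ _) fun t ht => ENNReal.ofReal_le_ofReal (hval t ht)
  refine le_trans ?_ h1
  rw [← ENNReal.ofReal_toReal (all_fin σ₁ σ₂ n (κ - e) (κ + e) T), ← hS,
    ← ENNReal.ofReal_mul ENNReal.toReal_nonneg]
  refine ENNReal.ofReal_le_ofReal ?_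
  have e1 : T * L ^ (mexp n a - ε) = T * L ^ (-κ ^ 2 - e) * L ^ q := by
    rw [mul_assoc, ← Real.rpow_add hL0]
    congr 2
    have e2 : (∑ j ∈ Finset.range (n + 2), a j * (j + κ)) =
        (∑ j ∈ Finset.range (n + 2), j * a j) + κ * tot n a := by
      unfold tot
      rw [Finset.mul_sum, ← Finset.sum_add_distrib]
      exact Finset.sum_congr rfl fun j _ => by ring
    rw [hq, e2, ← he1, hκ]
    unfold mexp
    ring
  rw [e1]
  exact mul_le_mul_of_nonneg_right hT (by positivity)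

theorem multi_le {n : ℕ} {a : ℕ → ℝ} (ha : ∀ j, 0 ≤ a j) (h0 : 0 < tot n a) (h4 : tot n a ≤ 4) (σ₁ σ₂ : ℝ) :
    ∃ C : ℝ, 1 ≤ C ∧ ∀ᶠ T : ℝ in atTop,
      multi σ₁ σ₂ n a T ≤ ENNReal.ofReal (C * (T * Real.log T ^ mexp n a)) := by
  have hup : ∀ j : ℕ, ∃ C : ℝ, 1 ≤ C ∧ ∀ᶠ T : ℝ in atTop,
      ∫ t in T..(2 * T), |iteratedDeriv j Z t| ^ (2 * (tot n a / 2)) ≤
        C * (T * Real.log T ^ ((tot n a / 2) ^ 2 + 2 * (tot n a / 2) * j)) := fun j =>
    moment_up (k := tot n a / 2) (by linarith) (by linarith) j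
  choose C hC1 hC using hup
  have hall : ∀ᶠ T : ℝ in atTop, ∀ j ∈ Finset.range (n + 2),
      ∫ t in T..(2 * T), |iteratedDeriv j Z t| ^ (2 * (tot n a / 2)) ≤
        C j * (T * Real.log T ^ ((tot n a / 2) ^ 2 + 2 * (tot n a / 2) * j)) :=
    (Filter.eventually_all_finset _).mpr fun j _ => hC j
  have hCs : 1 ≤ ∑ j ∈ Finset.range (n + 2), C j := by
    have h1 : C 0 ≤ ∑ j ∈ Finset.range (n + 2), C j :=
      Finset.single_le_sum (f := C) (fun j _ => by linarith [hC1 j]) (Finset.mem_range.mpr (by omega))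
    linarith [hC1 0]
  refine ⟨∑ j ∈ Finset.range (n + 2), C j, hCs, ?_⟩
  filter_upwards [hall, eventually_ge_atTop 3, Real.tendsto_log_atTop.eventually_ge_atTop 1]
    with T hT hT3 hL1
  have hL0 : 0 < Real.log T := by linarith
  have hT0 : 0 < T := by linarith
  set L := Real.log T with hL
  set p : ℝ := 2 * (tot n a / 2) with hp
  have hp2 : p = tot n a := by rw [hp]; ring
  have hp0 : 0 < p := by linarith
  set w : ℝ := ∑ j ∈ Finset.range (n + 2), (j : ℝ) * a j with hw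
  -- the pointwise bound
  have hpt : ∀ t, prd n a t ≤ L ^ w * ∑ j ∈ Finset.range (n + 2), L ^ (-(j * p)) * |iteratedDeriv j Z t| ^ p := by
    intro t
    set x : ℕ → ℝ := fun j => |iteratedDeriv j Z t| / L ^ (j : ℝ) with hx
    have hx0 : ∀ j, 0 ≤ x j := fun j => by simp only [hx]; positivity
    have e1 : prd n a t = L ^ w * ∏ j ∈ Finset.range (n + 2), x j ^ a j := by
      unfold prd
      rw [hw, Real.rpow_sum_of_pos hL0, ← Finset.prod_mul_distrib]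
      refine Finset.prod_congr rfl fun j _ => ?_
      simp only [hx]
      rw [Real.div_rpow (abs_nonneg _) (by positivity), ← Real.rpow_mul hL0.le]
      field_simp
    rw [e1]
    refine mul_le_mul_of_nonneg_left ?_ (by positivity)
    obtain ⟨i, hi, hmax⟩ := Finset.exists_max_image (Finset.range (n + 2)) x ⟨0, Finset.mem_range.mpr (by omega)⟩
    have h1 : ∏ j ∈ Finset.range (n + 2), x j ^ a j ≤ ∏ j ∈ Finset.range (n + 2), x i ^ a j :=
      Finset.prod_le_prod (fun j _ => Real.rpow_nonneg (hx0 j) _) fun j hj =>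
        Real.rpow_le_rpow (hx0 j) (hmax j hj) (ha j)
    have h2 : ∏ j ∈ Finset.range (n + 2), x i ^ a j = x i ^ p := by
      rw [← Real.rpow_sum_of_nonneg (hx0 i) fun j _ => ha j, hp2]
      rfl
    have h3 : x i ^ p = L ^ (-(i * p)) * |iteratedDeriv i Z t| ^ p := by
      simp only [hx]
      rw [Real.div_rpow (abs_nonneg _) (by positivity), ← Real.rpow_mul hL0.le, Real.rpow_neg hL0.le]
      ring
    rw [h2, h3] at h1
    refine h1.trans ?_
    exact Finset.single_le_sum (f := fun j : ℕ => L ^ (-(j * p)) * |iteratedDeriv j Z t| ^ p)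
      (fun j _ => by positivity) hi
  have hcd : ∀ j : ℕ, ContinuousOn (fun t => |iteratedDeriv j Z t| ^ p) (Icc T (2 * T)) := by
    intro j t ht
    have := (iter_diff j (t := t) (by linarith [ht.1])).continuousAt
    exact ((continuous_abs.continuousAt.comp this).rpow_const
      (Or.inr (by linarith))).continuousWithinAt
  have hcs : ContinuousOn (fun t => L ^ w * ∑ j ∈ Finset.range (n + 2), L ^ (-(j * p)) * |iteratedDeriv j Z t| ^ p)
      (Icc T (2 * T)) :=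
    continuousOn_const.mul (continuousOn_finsetSum _ fun j _ => continuousOn_const.mul (hcd j))
  have h5 : multi σ₁ σ₂ n a T ≤ ∫⁻ t in Icc T (2 * T), ENNReal.ofReal
      (L ^ w * ∑ j ∈ Finset.range (n + 2), L ^ (-(j * p)) * |iteratedDeriv j Z t| ^ p) := by
    unfold multi
    refine (lintegral_mono_set (show signs σ₁ σ₂ n T ⊆ Icc T (2 * T) from fun t h => ⟨h.1, h.2.1⟩)).trans ?_
    exact lintegral_mono fun t => ENNReal.ofReal_le_ofReal (hpt t)
  refine h5.trans ?_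
  rw [← ofReal_integral_eq_lintegral_ofReal (hcs.integrableOn_compact isCompact_Icc)
    (Filter.Eventually.of_forall fun t => by positivity)]
  refine ENNReal.ofReal_le_ofReal ?_
  rw [integral_Icc_eq_integral_Ioc, ← intervalIntegral.integral_of_le (by linarith),
    intervalIntegral.integral_const_mul, intervalIntegral.integral_finsetSum (fun j _ =>
      ContinuousOn.intervalIntegrable (by rw [uIcc_of_le (by linarith)]; exact continuousOn_const.mul (hcd j)))]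
  have h6 : ∀ j ∈ Finset.range (n + 2), ∫ t in T..(2 * T), L ^ (-(j * p)) * |iteratedDeriv j Z t| ^ p ≤
      C j * (T * L ^ (tot n a ^ 2 / 4)) := by
    intro j hj
    rw [intervalIntegral.integral_const_mul]
    have h7 := mul_le_mul_of_nonneg_left (hT j hj) (show 0 ≤ L ^ (-(j * p)) by positivity)
    refine h7.trans (le_of_eq ?_)
    have e1 : L ^ (-(j * p)) * L ^ ((tot n a / 2) ^ 2 + 2 * (tot n a / 2) * j) = L ^ (tot n a ^ 2 / 4) := by
      rw [← Real.rpow_add hL0]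
      congr 1
      rw [hp]
      ring
    calc L ^ (-(j * p)) * (C j * (T * L ^ ((tot n a / 2) ^ 2 + 2 * (tot n a / 2) * j))) =
        C j * (T * (L ^ (-(j * p)) * L ^ ((tot n a / 2) ^ 2 + 2 * (tot n a / 2) * j))) := by ring
      _ = _ := by rw [e1]
  refine (mul_le_mul_of_nonneg_left (Finset.sum_le_sum h6) (by positivity)).trans (le_of_eq ?_)
  have e2 : L ^ mexp n a = L ^ (tot n a ^ 2 / 4) * L ^ w := by
    rw [← Real.rpow_add hL0]
    rfl
  rw [← Finset.sum_mul, e2]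
  ring

end Pool.Agent.X117.AD
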