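import Pool.Agent.X117.Lev3

/-!
# Sums over points separated by zeros
-/

namespace Pool.Agent.X117.AR

open Filter Topology MeasureTheory Complex H370 Set
open Pool.Agent.X117.HZ Pool.Agent.X117.Peak Pool.Agent.X117.DZ Pool.Agent.X117.JM Pool.Agent.X117.LV

/-- a value of a function with a zero -/
lemma value_le {g g' : ℝ → ℝ} {s a b : ℝ} (hs : 1 < s) (hg : ∀ u ∈ Icc a b, HasDerivAt g (g' u) u)
    (hg' : ContinuousOn g' (Icc a b)) {p z : ℝ} (hp : p ∈ Icc a b) (hz : z ∈ Icc a b) (hz0 : g z = 0) :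
    ENNReal.ofReal (|g p| ^ s) ≤ ENNReal.ofReal s * ∫⁻ u in Ioc a b, ENNReal.ofReal (|g u| ^ (s - 1) * |g' u|) := by
  have hgc : ContinuousOn g (Icc a b) := fun u hu => (hg u hu).continuousAt.continuousWithinAt
  set φ : ℝ → ℝ := fun u => s * (|g u| ^ (s - 1) * |g' u|) with hφ
  have hφc : ContinuousOn φ (Icc a b) := by
    refine continuousOn_const.mul ((hgc.abs.rpow_const fun _ _ => Or.inr (by linarith)).mul hg'.abs)
  have hφ0 : ∀ u, 0 ≤ φ u := fun u => by
    rw [hφ]
    positivity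
  have hG : ∀ u ∈ Icc a b, HasDerivAt (fun u => |g u| ^ s) (s * |g u| ^ (s - 2) * g u * g' u) u := by
    intro u hu
    exact (hasDerivAt_abs_rpow (g u) hs).comp u (hg u hu)
  have hGc : ContinuousOn (fun u => |g u| ^ s) (Icc a b) := fun u hu =>
    (hG u hu).continuousAt.continuousWithinAt
  have hbd : ∀ u, |s * |g u| ^ (s - 2) * g u * g' u| ≤ φ u := by
    intro u
    rw [hφ, abs_mul, abs_mul, abs_mul, abs_of_pos (show 0 < s by linarith),
      abs_of_nonneg (Real.rpow_nonneg (abs_nonneg _) _), mul_assoc s]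
    rcases eq_or_ne (g u) 0 with h | h
    · have h2 := hφ0 u
      rw [hφ] at h2
      have h3 : s * (|g u| ^ (s - 2) * |g u|) * |g' u| = 0 := by
        rw [h, abs_zero]
        ring
      rw [h3]
      exact h2
    · have h1 : |g u| ^ (s - 2) * |g u| = |g u| ^ (s - 1) := by
        have h2 : 0 < |g u| := abs_pos.mpr h
        nth_rewrite 2 [← Real.rpow_one |g u|]
        rw [← Real.rpow_add h2]
        congr 1
        ring
      rw [h1, mul_assoc]
  have hab : a ≤ b := hp.1.trans hp.2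
  have hint : ∀ c d : ℝ, a ≤ c → c ≤ d → d ≤ b → IntegrableOn φ (Icc c d) := fun c d h1 _ h3 =>
    (hφc.mono (Icc_subset_Icc h1 h3)).integrableOn_Icc
  have key : |g p| ^ s ≤ ∫ u in a..b, φ u := by
    have hmono : ∀ c d : ℝ, a ≤ c → c ≤ d → d ≤ b → ∫ u in c..d, φ u ≤ ∫ u in a..b, φ u := by
      intro c d h1 h2 h3
      rw [intervalIntegral.integral_of_le h2, intervalIntegral.integral_of_le hab]
      refine setIntegral_mono_set ?_ (Eventually.of_forall hφ0) (Ioc_subset_Ioc h1 h3).eventuallyLE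
      exact (hint a b le_rfl hab le_rfl).mono_set Ioc_subset_Icc_self
    have hz1 : |g z| ^ s = 0 := by rw [hz0, abs_zero, Real.zero_rpow (by linarith)]
    rcases le_total z p with h | h
    · have h1 := intervalIntegral.sub_le_integral_of_hasDeriv_right_of_le (g := fun u => |g u| ^ s)
        (g' := fun u => s * |g u| ^ (s - 2) * g u * g' u) (φ := φ) h
        (hGc.mono (Icc_subset_Icc hz.1 hp.2))
        (fun u hu => (hG u ⟨by linarith [hu.1, hz.1], by linarith [hu.2, hp.2]⟩).hasDerivWithinAt)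
        (hint z p hz.1 h hp.2) (fun u _ => (le_abs_self _).trans (hbd u))
      have h2 := hmono z p hz.1 h hp.2
      linarith
    · have h1 := intervalIntegral.sub_le_integral_of_hasDeriv_right_of_le (g := fun u => -(|g u| ^ s))
        (g' := fun u => -(s * |g u| ^ (s - 2) * g u * g' u)) (φ := φ) h
        ((hGc.mono (Icc_subset_Icc hp.1 hz.2)).neg)
        (fun u hu => (hG u ⟨by linarith [hu.1, hp.1], by linarith [hu.2, hz.2]⟩).neg.hasDerivWithinAt)
        (hint p z hp.1 h hz.2) (fun u _ => (neg_le_abs _).trans (hbd u))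
      have h2 := hmono p z hp.1 h hz.2
      linarith
  refine (ENNReal.ofReal_le_ofReal key).trans (le_of_eq ?_)
  rw [intervalIntegral.integral_of_le hab, ofReal_integral_eq_lintegral_ofReal
    ((hint a b le_rfl hab le_rfl).mono_set Ioc_subset_Icc_self) (Eventually.of_forall hφ0)]
  rw [← lintegral_const_mul' _ _ ENNReal.ofReal_ne_top]
  refine lintegral_congr fun u => ?_
  rw [hφ, ENNReal.ofReal_mul (by linarith)]

/-- the sum over points with zeros between them -/
lemma sum_le {g g' : ℝ → ℝ} {s a b : ℝ} (hs : 1 < s) (hg : ∀ u ∈ Icc a b, HasDerivAt g (g' u) u)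
    (hg' : ContinuousOn g' (Icc a b)) (hz : ∃ z ∈ Icc a b, g z = 0) {P : Finset ℝ} (hP : ∀ p ∈ P, p ∈ Icc a b)
    (hsep : ∀ p ∈ P, ∀ q ∈ P, p < q → ∃ z, p ≤ z ∧ z ≤ q ∧ g z = 0) :
    ∑ p ∈ P, ENNReal.ofReal (|g p| ^ s) ≤
      2 * (ENNReal.ofReal s * ∫⁻ u in Ioc a b, ENNReal.ofReal (|g u| ^ (s - 1) * |g' u|)) := by
  classical
  set φ : ℝ → ENNReal := fun u => ENNReal.ofReal (|g u| ^ (s - 1) * |g' u|) with hφ
  rcases P.eq_empty_or_nonempty with h0 | h0
  · rw [h0, Finset.sum_empty]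
    exact zero_le
  set M := P.max' h0 with hM
  have hMm : M ∈ P := P.max'_mem h0
  rw [← Finset.add_sum_erase P _ hMm, two_mul]
  obtain ⟨z0, hz0, hz00⟩ := hz
  refine add_le_add (value_le hs hg hg' (hP M hMm) hz0 hz00) ?_
  -- the next point
  have hex : ∀ p : ℝ, ∃ q : ℝ, p ∈ P.erase M → q ∈ P ∧ p < q ∧ ∀ h ∈ P, p < h → q ≤ h := by
    intro p
    by_cases hp : p ∈ P.erase M
    · rw [Finset.mem_erase] at hp
      have hlt : p < M := lt_of_le_of_ne (P.le_max' p hp.2) hp.1
      obtain ⟨q, hq, hmin⟩ := Finset.exists_min_image (P.filter (p < ·)) id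
        ⟨M, Finset.mem_filter.mpr ⟨hMm, hlt⟩⟩
      rw [Finset.mem_filter] at hq
      exact ⟨q, fun _ => ⟨hq.1, hq.2, fun h hh hph => hmin h (Finset.mem_filter.mpr ⟨hh, hph⟩)⟩⟩
    · exact ⟨0, fun h => absurd h hp⟩
  choose q hq using hex
  have hPe : ∀ p ∈ P.erase M, p ∈ P := fun p hp => Finset.mem_of_mem_erase hp
  have h1 : ∀ p ∈ P.erase M, ENNReal.ofReal (|g p| ^ s) ≤ ENNReal.ofReal s * ∫⁻ u in Ioc p (q p), φ u := by
    intro p hp
    obtain ⟨q1, q2, -⟩ := hq p hp
    have hpI := hP p (hPe p hp)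
    have hqI := hP _ q1
    obtain ⟨z, z1, z2, z3⟩ := hsep p (hPe p hp) (q p) q1 q2
    have hsub : Icc p (q p) ⊆ Icc a b := Icc_subset_Icc hpI.1 hqI.2
    exact value_le hs (fun u hu => hg u (hsub hu)) (hg'.mono hsub) ⟨le_rfl, q2.le⟩ ⟨z1, z2⟩ z3
  refine (Finset.sum_le_sum h1).trans ?_
  rw [← Finset.mul_sum]
  refine mul_le_mul_right ?_ _
  rw [← lintegral_biUnion_finset ?_ fun p _ => measurableSet_Ioc]
  · refine lintegral_mono_set ?_
    refine Set.iUnion₂_subset fun p hp => ?_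
    exact Ioc_subset_Ioc (hP p (hPe p hp)).1 (hP _ (hq p hp).1).2
  · have key : ∀ p ∈ P.erase M, ∀ p' ∈ P.erase M, p < p' → Disjoint (Ioc p (q p)) (Ioc p' (q p')) := by
      intro p hp p' hp' hlt
      rw [Set.disjoint_left]
      rintro t ⟨-, t2⟩ ⟨t3, -⟩
      have := (hq p hp).2.2 p' (hPe p' hp') hlt
      linarith
    intro p hp p' hp' hne
    rcases lt_or_gt_of_ne hne with h | h
    · exact key p hp p' hp' h
    · exact (key p' hp' p hp h).symm

/-- many separated points -/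
lemma exists_sep {E : Set ℝ} {a b r : ℝ} (hr : 0 < r) (hE : E ⊆ Icc a b) :
    ∃ Q : Finset ℝ, (∀ t ∈ Q, t ∈ E) ∧ (∀ t ∈ Q, ∀ t' ∈ Q, t ≠ t' → 2 * r < |t - t'|) ∧
      volume.real E ≤ (Q.card : ℝ) * (4 * r) := by
  classical
  let good : Finset ℝ → Prop := fun Q => (∀ t ∈ Q, t ∈ E) ∧ ∀ t ∈ Q, ∀ t' ∈ Q, t ≠ t' → 2 * r < |t - t'|
  set N : Set ℕ := {n | ∃ Q, good Q ∧ Q.card = n} with hN
  have hne : N.Nonempty := ⟨0, ∅, ⟨by simp, by simp⟩, rfl⟩
  have hbdd : BddAbove N := by
    refine ⟨⌈(b - a + 2 * r) / (2 * r)⌉₊, ?_⟩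
    rintro n ⟨Q, ⟨h1, h2⟩, rfl⟩
    rcases Q.eq_empty_or_nonempty with h0 | ⟨t0, ht0⟩
    · rw [h0]; simp
    have hab : a ≤ b := (hE (h1 t0 ht0)).1.trans (hE (h1 t0 ht0)).2
    have h3 := card_le_volume (S := Q) (d := 2 * r) (E := Icc (a - r) (b + r)) (by positivity)
      (by rw [Real.volume_Icc]; exact ENNReal.ofReal_ne_top) (fun g hg g' hg' hne => (h2 g hg g' hg' hne).le)
      (fun g hg => by
        have := hE (h1 g hg)
        intro u hu
        exact ⟨by linarith [hu.1, this.1], by linarith [hu.2, this.2]⟩)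
    rw [Real.volume_real_Icc_of_le (by linarith)] at h3
    have h4 : (Q.card : ℝ) ≤ (b - a + 2 * r) / (2 * r) := by
      rw [le_div_iff₀ (by positivity)]
      linarith
    exact_mod_cast h4.trans (Nat.le_ceil _)
  obtain ⟨Q, ⟨h1, h2⟩, hcard⟩ := Nat.sSup_mem hne hbdd
  refine ⟨Q, h1, h2, ?_⟩
  have hcov : E ⊆ ⋃ q ∈ Q, Icc (q - 2 * r) (q + 2 * r) := by
    intro t ht
    by_contra hcon
    rw [mem_iUnion₂] at hcon
    push Not at hcon
    have h3 : ∀ q ∈ Q, 2 * r < |t - q| := by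
      intro q hq
      by_contra h4
      have h5 := abs_le.mp (not_lt.mp h4)
      exact hcon q hq ⟨by linarith [h5.1], by linarith [h5.2]⟩
    have htQ : t ∉ Q := by
      intro h
      have := h3 t h
      rw [sub_self, abs_zero] at this
      linarith
    have h6 : (Q.card + 1) ∈ N := by
      refine ⟨insert t Q, ⟨?_, ?_⟩, Finset.card_insert_of_notMem htQ⟩
      · intro u hu
        rcases Finset.mem_insert.mp hu with rfl | hu
        · exact ht
        · exact h1 u hu
      · intro u hu v hv hne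
        rcases Finset.mem_insert.mp hu with hu' | hu' <;> rcases Finset.mem_insert.mp hv with hv' | hv'
        · exact absurd (hu'.trans hv'.symm) hne
        · rw [hu']
          exact h3 v hv'
        · rw [hv', abs_sub_comm]
          exact h3 u hu'
        · exact h2 u hu' v hv' hne
    have h7 := le_csSup hbdd h6
    omega
  have h3 : volume E ≤ (Q.card : ENNReal) * ENNReal.ofReal (4 * r) := by
    refine (measure_mono hcov).trans ((measure_biUnion_finset_le _ _).trans (le_of_eq ?_))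
    rw [Finset.sum_congr rfl fun q _ => show volume (Icc (q - 2 * r) (q + 2 * r)) = ENNReal.ofReal (4 * r) by
      rw [Real.volume_Icc]; congr 1; ring]
    rw [Finset.sum_const, nsmul_eq_mul]
  have h4 := ENNReal.toReal_mono (ENNReal.mul_ne_top (ENNReal.natCast_ne_top _) ENNReal.ofReal_ne_top) h3
  rwa [ENNReal.toReal_mul, ENNReal.toReal_natCast, ENNReal.toReal_ofReal (by positivity)] at h4

end Pool.Agent.X117.AR
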