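import Pool.Agent.X117.Arc1

/-!
# Arches of the derivatives of Hardy's function
-/

namespace Pool.Agent.X117.AR

open Filter Topology MeasureTheory Complex H370 Set
open Pool.Agent.X117.HZ Pool.Agent.X117.Peak Pool.Agent.X117.DZ Pool.Agent.X117.JM Pool.Agent.X117.LV

/-- finite sets of points in `[T, 2 T]` with a zero of `Z^(m)` between any two of them -/
def Sep (m : ℕ) (T : ℝ) (P : Finset ℝ) : Prop :=
  (∀ p ∈ P, T ≤ p ∧ p ≤ 2 * T) ∧ ∀ p ∈ P, ∀ q ∈ P, p < q → ∃ z, p ≤ z ∧ z ≤ q ∧ iteratedDeriv m Z z = 0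

/-- the integral of `|Z^(m)| ^ (s - 1) |Z^(m+1)|` -/
theorem int_le (m : ℕ) {s : ℝ} (hs : 1 < s) (hs4 : s ≤ 4) : ∃ C : ℝ, 1 ≤ C ∧ ∀ᶠ T : ℝ in atTop,
    ∫⁻ u in Ioc T (2 * T), ENNReal.ofReal (|iteratedDeriv m Z u| ^ (s - 1) * |iteratedDeriv (m + 1) Z u|) ≤
      ENNReal.ofReal (C * (T * Real.log T ^ (s ^ 2 / 4 + m * s + 1))) := by
  have h := fun σ₁ σ₂ : ℝ => joint_le (a := s - 1) (b := 1) (by linarith) zero_le_one (by linarith)
    (by linarith) m σ₁ σ₂
  obtain ⟨C₁, hC₁, h₁⟩ := h 1 1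
  obtain ⟨C₂, hC₂, h₂⟩ := h 1 (-1)
  obtain ⟨C₃, hC₃, h₃⟩ := h (-1) 1
  obtain ⟨C₄, hC₄, h₄⟩ := h (-1) (-1)
  refine ⟨C₁ + C₂ + C₃ + C₄, by linarith, ?_⟩
  filter_upwards [h₁, h₂, h₃, h₄, eventually_ge_atTop (10 : ℝ), Real.tendsto_log_atTop.eventually_ge_atTop 1]
    with T q₁ q₂ q₃ q₄ hT10 hL1
  have hT0 : 0 < T := by linarith
  have hL0 : 0 < Real.log T := by linarith
  set φ : ℝ → ENNReal := fun u =>
    ENNReal.ofReal (|iteratedDeriv m Z u| ^ (s - 1) * |iteratedDeriv (m + 1) Z u|) with hφ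
  have hj : ∀ σ₁ σ₂ : ℝ, ∫⁻ u in signs σ₁ σ₂ m T, φ u = joint σ₁ σ₂ m (s - 1) 1 T := by
    intro σ₁ σ₂
    unfold joint
    refine lintegral_congr fun u => ?_
    rw [hφ, Real.rpow_one]
  set N : Set ℝ := {u | iteratedDeriv m Z u = 0} ∪ {u | iteratedDeriv (m + 1) Z u = 0} with hN
  have hNm : MeasurableSet N :=
    (measurableSet_eq_fun (iter_meas m) measurable_const).union
      (measurableSet_eq_fun (iter_meas (m + 1)) measurable_const)
  have hN0 : ∫⁻ u in N, φ u = 0 := by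
    refine le_antisymm ?_ zero_le
    refine (setLIntegral_mono' (g := fun _ => 0) hNm fun u hu => ?_).trans (by simp)
    rcases hu with h | h
    · have h' : iteratedDeriv m Z u = 0 := h
      rw [hφ]
      simp only
      rw [h', abs_zero, Real.zero_rpow (by linarith), zero_mul, ENNReal.ofReal_zero]
    · have h' : iteratedDeriv (m + 1) Z u = 0 := h
      rw [hφ]
      simp only
      rw [h', abs_zero, mul_zero, ENNReal.ofReal_zero]
  have hcov : Ioc T (2 * T) ⊆ ((signs 1 1 m T ∪ signs 1 (-1) m T) ∪ (signs (-1) 1 m T ∪ signs (-1) (-1) m T)) ∪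
      N := by
    intro u hu
    rcases lt_trichotomy (iteratedDeriv m Z u) 0 with h1 | h1 | h1
    · rcases lt_trichotomy (iteratedDeriv (m + 1) Z u) 0 with h2 | h2 | h2
      · exact Or.inl (Or.inr (Or.inr ⟨hu.1.le, hu.2, by linarith, by linarith⟩))
      · exact Or.inr (Or.inr h2)
      · exact Or.inl (Or.inr (Or.inl ⟨hu.1.le, hu.2, by linarith, by linarith⟩))
    · exact Or.inr (Or.inl h1)
    · rcases lt_trichotomy (iteratedDeriv (m + 1) Z u) 0 with h2 | h2 | h2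
      · exact Or.inl (Or.inl (Or.inr ⟨hu.1.le, hu.2, by linarith, by linarith⟩))
      · exact Or.inr (Or.inr h2)
      · exact Or.inl (Or.inl (Or.inl ⟨hu.1.le, hu.2, by linarith, by linarith⟩))
  have hX0 : 0 < T * Real.log T ^ ((s - 1 + 1) ^ 2 / 4 + m * (s - 1) + (m + 1) * 1) := by positivity
  calc ∫⁻ u in Ioc T (2 * T), φ u ≤ ((∫⁻ u in signs 1 1 m T, φ u) + ∫⁻ u in signs 1 (-1) m T, φ u) +
        ((∫⁻ u in signs (-1) 1 m T, φ u) + ∫⁻ u in signs (-1) (-1) m T, φ u) + ∫⁻ u in N, φ u := by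
        refine (lintegral_mono_set hcov).trans ((lintegral_union_le _ _ _).trans ?_)
        refine add_le_add ((lintegral_union_le _ _ _).trans ?_) le_rfl
        exact add_le_add (lintegral_union_le _ _ _) (lintegral_union_le _ _ _)
    _ ≤ ENNReal.ofReal ((C₁ + C₂ + C₃ + C₄) *
        (T * Real.log T ^ ((s - 1 + 1) ^ 2 / 4 + m * (s - 1) + (m + 1) * 1))) := by
        rw [hN0, add_zero, hj, hj, hj, hj]
        refine (add_le_add (add_le_add q₁ q₂) (add_le_add q₃ q₄)).trans (le_of_eq ?_)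
        rw [← ENNReal.ofReal_add (by positivity) (by positivity), ← ENNReal.ofReal_add (by positivity) (by positivity),
          ← ENNReal.ofReal_add (by positivity) (by positivity)]
        congr 1
        ring
    _ = _ := by
        congr 4
        ring

/-- the sum over the arches from above -/
theorem arc_le (m : ℕ) {s : ℝ} (hs : 1 < s) (hs4 : s ≤ 4) : ∃ C : ℝ, 1 ≤ C ∧ ∀ᶠ T : ℝ in atTop,
    ∀ P : Finset ℝ, Sep m T P → ∑ p ∈ P, ENNReal.ofReal (|iteratedDeriv m Z p| ^ s) ≤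
      ENNReal.ofReal (C * (T * Real.log T ^ (s ^ 2 / 4 + m * s + 1))) := by
  obtain ⟨C, hC, h⟩ := int_le m hs hs4
  refine ⟨2 * s * C, by nlinarith, ?_⟩
  filter_upwards [h, lev_ge m 0 (show (0 : ℝ) < 1 / 2 by norm_num) (σ := 1) (Or.inl rfl),
    eventually_ge_atTop (10 : ℝ), Real.tendsto_log_atTop.eventually_ge_atTop 1] with T h1 h2 hT10 hL1
  intro P hP
  have hT0 : 0 < T := by linarith
  have hL0 : 0 < Real.log T := by linarith
  obtain ⟨z, hz1, hz2⟩ : (lev 1 m 0 T).Nonempty := by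
    by_contra hcon
    rw [Set.not_nonempty_iff_eq_empty] at hcon
    have h3 := h2 0 (by rw [abs_zero]; positivity)
    rw [hcon, Set.encard_empty] at h3
    have h4 : (0 : ENNReal) < ENNReal.ofReal (T * Real.log T ^ (1 - (0 : ℝ) ^ 2 - 1 / 2)) := by
      rw [ENNReal.ofReal_pos]
      positivity
    have h5 : ((0 : ℕ∞) : ENNReal) = 0 := by simp
    rw [h5] at h3
    exact absurd h3 (not_le.mpr h4)
  rw [one_mul] at hz2
  have hder : ∀ u ∈ Icc T (2 * T), HasDerivAt (iteratedDeriv m Z) (iteratedDeriv (m + 1) Z u) u := by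
    intro u hu
    rw [iteratedDeriv_succ]
    exact (iter_diff m (by linarith [hu.1])).hasDerivAt
  have hcont : ContinuousOn (iteratedDeriv (m + 1) Z) (Icc T (2 * T)) := fun u hu =>
    (iter_diff (m + 1) (by linarith [hu.1])).continuousAt.continuousWithinAt
  refine (sum_le hs hder hcont ⟨z, hz1, hz2⟩ (fun p hp => hP.1 p hp) hP.2).trans ?_
  refine (mul_le_mul_right (mul_le_mul_right h1 _) _).trans (le_of_eq ?_)
  rw [← ENNReal.ofReal_mul (by linarith), show (2 : ENNReal) = ENNReal.ofReal 2 by simp,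
    ← ENNReal.ofReal_mul (by norm_num)]
  congr 1
  ring

/-- many arches with a large peak -/
theorem arc_ge (m : ℕ) (κ : ℝ) {ε : ℝ} (hε : 0 < ε) {σ : ℝ} (hσ : σ = 1 ∨ σ = -1) :
    ∀ᶠ T : ℝ in atTop, ∃ P : Finset ℝ, Sep m T P ∧ T * Real.log T ^ (1 - κ ^ 2 - ε) ≤ (P.card : ℝ) ∧
      ∀ p ∈ P, Real.log T ^ (m + κ) ≤ σ * iteratedDeriv m Z p := by
  classical
  have hcont : ContinuousAt (fun e : ℝ => -(κ + (m + 1) * e) ^ 2 - 3 * e) 0 := by
    refine Continuous.continuousAt ?_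
    fun_prop
  have hev : ∀ᶠ e : ℝ in 𝓝[>] 0, -κ ^ 2 - ε < -(κ + (m + 1) * e) ^ 2 - 3 * e := by
    refine (hcont.tendsto.mono_left nhdsWithin_le_nhds).eventually (lt_mem_nhds ?_)
    simp only [mul_zero, add_zero, sub_zero]
    linarith
  obtain ⟨e, he1, he3⟩ := (hev.and self_mem_nhdsWithin).exists
  have he0 : 0 < e := he3
  have hLe : Tendsto (fun T : ℝ => Real.log T ^ e) atTop atTop :=
    (tendsto_rpow_atTop he0).comp Real.tendsto_log_atTop
  filter_upwards [alt_windows (m + 1) (κ + (m + 1) * e) he0, hLe.eventually_ge_atTop 4,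
    Real.tendsto_log_atTop.eventually_ge_atTop 5, eventually_ge_atTop (10 : ℝ)]
    with T hT hL2 hLL hT10
  obtain ⟨r, E, hr0, hr1, hr2, hEm, hEs, hEv, hEx⟩ := hT
  have hT0 : 0 < T := by linarith
  have hL0 : 0 < Real.log T := by linarith
  have hL1 : 1 ≤ Real.log T := by linarith
  set L := Real.log T with hL
  have hΛ : L ^ (m + κ) ≤ L ^ (κ + (m + 1) * e - e) * (1 / r) ^ m := by
    have h1 : L ^ (1 - e) ≤ 1 / r := by
      rw [le_div_iff₀ hr0]
      calc L ^ (1 - e) * r ≤ L ^ (1 - e) * L ^ (e - 1) := by gcongr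
        _ = 1 := by rw [← Real.rpow_add hL0]; simp
    have h2 : L ^ ((1 - e) * m) ≤ (1 / r) ^ m := by
      rw [Real.rpow_mul hL0.le, Real.rpow_natCast]
      exact pow_le_pow_left₀ (by positivity) h1 m
    calc L ^ (m + κ) = L ^ (κ + (m + 1) * e - e) * L ^ ((1 - e) * m) := by
          rw [← Real.rpow_add hL0]
          congr 1
          ring
      _ ≤ _ := by gcongr
  obtain ⟨Q, hQE, hQs, hQc⟩ := exists_sep hr0 hEs
  have hex : ∀ t : ℝ, ∃ y : ℝ × ℝ, t ∈ Q → t - r ≤ y.1 ∧ y.1 ≤ y.2 ∧ y.2 ≤ t + r ∧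
      σ * iteratedDeriv m Z y.1 ≤ -(L ^ (m + κ)) ∧ L ^ (m + κ) ≤ σ * iteratedDeriv m Z y.2 := by
    intro t
    by_cases ht : t ∈ Q
    · have htI := hEs (hQE t ht)
      obtain ⟨y₀, y₁, q1, q2, q3, q4, q5⟩ := alt_pair (m := m) (σ := σ) (t := t) hr0 (by linarith [htI.1])
        (by positivity) hσ (hEx t (hQE t ht))
      exact ⟨(y₀, y₁), fun _ => ⟨q1, q2, q3, by simp only; linarith, by simp only; linarith⟩⟩
    · exact ⟨0, fun h => absurd h ht⟩
  choose y hy using hex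
  have hY0 : 0 < L ^ (m + κ) := Real.rpow_pos_of_pos hL0 _
  have hinj : Set.InjOn (fun t => (y t).2) (Q : Set ℝ) := by
    intro t ht t' ht' h
    simp only at h
    by_contra hne
    obtain ⟨a1, a2, a3, -⟩ := hy t ht
    obtain ⟨b1, b2, b3, -⟩ := hy t' ht'
    have h1 := hQs t ht t' ht' hne
    have h2 : |t - t'| ≤ 2 * r := by
      rw [abs_le]
      constructor <;> linarith
    linarith
  refine ⟨Q.image fun t => (y t).2, ⟨?_, ?_⟩, ?_, ?_⟩
  · intro p hp
    obtain ⟨t, ht, rfl⟩ := Finset.mem_image.mp hp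
    obtain ⟨a1, a2, a3, -⟩ := hy t ht
    have htI := hEs (hQE t ht)
    exact ⟨by linarith [htI.1], by linarith [htI.2]⟩
  · intro p hp q hq hpq
    obtain ⟨t, ht, rfl⟩ := Finset.mem_image.mp hp
    obtain ⟨t', ht', rfl⟩ := Finset.mem_image.mp hq
    obtain ⟨a1, a2, a3, a4, a5⟩ := hy t ht
    obtain ⟨b1, b2, b3, b4, b5⟩ := hy t' ht'
    have htI := hEs (hQE t ht)
    have hne : t ≠ t' := by
      rintro rfl
      exact lt_irrefl _ hpq
    have h1 := hQs t ht t' ht' hne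
    have hlt : t + 2 * r < t' := by
      rcases lt_or_ge t t' with h | h
      · rw [abs_sub_comm, abs_of_pos (by linarith)] at h1
        linarith
      · rw [abs_of_nonneg (by linarith)] at h1
        linarith
    have hle : (y t).2 ≤ (y t').1 := by linarith
    have hc : ContinuousOn (fun u => σ * iteratedDeriv m Z u) (Icc (y t).2 (y t').1) :=
      continuousOn_const.mul fun u hu =>
        (iter_diff m (by linarith [hu.1, htI.1])).continuousAt.continuousWithinAt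
    obtain ⟨z, hz, hz2⟩ := intermediate_value_Icc' hle hc (show (0 : ℝ) ∈ Icc _ _ from
      ⟨by linarith, by linarith⟩)
    refine ⟨z, hz.1, hz.2.trans b2, ?_⟩
    simp only at hz2
    rcases mul_eq_zero.mp hz2 with h | h
    · rcases hσ with h' | h' <;> rw [h'] at h <;> norm_num at h
    · exact h
  · rw [Finset.card_image_of_injOn hinj]
    have h5 : (Q.card : ℝ) * (4 * r) ≤ (Q.card : ℝ) * (L ^ e * L ^ (e - 1)) := by gcongr
    have h6 := (hEv.trans hQc).trans h5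
    have e1 : T * L ^ (-(κ + (m + 1) * e) ^ 2 - e) =
        T * L ^ (1 - (κ + (m + 1) * e) ^ 2 - 3 * e) * (L ^ e * L ^ (e - 1)) := by
      rw [mul_assoc, ← Real.rpow_add hL0, ← Real.rpow_add hL0]
      congr 2
      ring
    rw [e1] at h6
    have h7 : T * L ^ (1 - (κ + (m + 1) * e) ^ 2 - 3 * e) ≤ (Q.card : ℝ) :=
      le_of_mul_le_mul_right h6 (by positivity)
    refine le_trans ?_ h7
    refine mul_le_mul_of_nonneg_left ?_ hT0.le
    exact Real.rpow_le_rpow_of_exponent_le hL1 (by linarith)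
  · intro p hp
    obtain ⟨t, ht, rfl⟩ := Finset.mem_image.mp hp
    exact (hy t ht).2.2.2.2

end Pool.Agent.X117.AR
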