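import Pool.Agent.X117.HZ5

/-!
# The values of zeta on relatively dense sets
-/

namespace Pool.Agent.X117.DS

open Filter Topology MeasureTheory Complex H370
open Pool.Agent.Y745.SW Pool.Agent.Y745.LD Pool.Agent.Y745.EW Pool.Agent.X117.HZ

/-- the set `D` fills at least the proportion `η` of every interval of length `h` in `[T, 2 T]` -/
def RelDense (η h T : ℝ) (D : Set ℝ) : Prop :=
  ∀ a : ℝ, T ≤ a → a + h ≤ 2 * T → η * h ≤ volume.real (D ∩ Set.Icc a (a + h))

/-- the mass of a relatively dense set, for a weight that is almost constant on short intervals -/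
lemma dense_mass {V : ℝ → ℝ} {K r T η : ℝ} {G D : Set ℝ} (hV : Continuous V) (hV0 : ∀ t, 0 ≤ V t)
    (hK : 0 ≤ K) (hr : 0 < r) (hη : 0 < η)
    (hcmp : ∀ t ∈ G, ∀ u, |u - t| ≤ 2 * r → V t ≤ K * V u) (hG : MeasurableSet G) (hD : MeasurableSet D)
    (hGI : G ⊆ Set.Icc T (2 * T - 2 * r)) (hDd : RelDense η (2 * r) T D) :
    η * ∫ t in G, V t ≤ K * ∫ u in D ∩ Set.Icc T (2 * T), V u := by
  classical
  set N : ℕ := ⌊T / (2 * r)⌋₊ with hN
  -- the centres
  set g : ℕ → ℝ := fun k => T + (2 * k + 1) * r with hg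
  set J : ℕ → Set ℝ := fun k => D ∩ Set.Ico (g k - r) (g k + r) with hJ
  rcases le_or_gt T 0 with hT0 | hT0
  · -- empty case
    have hGe : G = ∅ := by
      rw [Set.eq_empty_iff_forall_notMem]
      intro t ht
      have := hGI ht
      linarith [this.1, this.2]
    rw [hGe, setIntegral_empty, mul_zero]
    exact mul_nonneg hK (integral_nonneg fun t => hV0 t)
  have hin : ∀ k < N, T ≤ g k - r ∧ g k + r ≤ 2 * T := by
    intro k hk
    have h1 : ((k + 1 : ℕ) : ℝ) ≤ N := by exact_mod_cast hk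
    have h2 : (N : ℝ) ≤ T / (2 * r) := Nat.floor_le (by positivity)
    rw [le_div_iff₀ (by positivity)] at h2
    push_cast at h1
    have h3 : (0 : ℝ) ≤ k := Nat.cast_nonneg k
    simp only [hg]
    constructor
    · nlinarith
    · nlinarith
  have hJm : ∀ k, MeasurableSet (J k) := fun k => hD.inter measurableSet_Ico
  have hJA : ∀ k < N, J k ⊆ D ∩ Set.Icc T (2 * T) := by
    intro k hk t ht
    obtain ⟨h1, h2⟩ := hin k hk
    exact ⟨ht.1, by linarith [ht.2.1], by linarith [ht.2.2]⟩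
  have hJd : ∀ k < N, η * (2 * r) ≤ volume.real (J k) := by
    intro k hk
    obtain ⟨h1, h2⟩ := hin k hk
    have h3 := hDd (g k - r) h1 (by linarith)
    refine h3.trans (le_of_eq ?_)
    have e1 : g k - r + 2 * r = g k + r := by ring
    rw [e1]
    refine measureReal_congr ?_
    exact (ae_eq_refl D).inter Ico_ae_eq_Icc.symm
  have hcov : G ⊆ ⋃ k ∈ Finset.range N, (G ∩ Set.Icc (g k - r) (g k + r)) := by
    intro t ht
    obtain ⟨h1, h2⟩ := hGI ht
    set k : ℕ := ⌊(t - T) / (2 * r)⌋₊ with hk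
    have h3 : 0 ≤ (t - T) / (2 * r) := div_nonneg (by linarith) (by positivity)
    have h4 : (k : ℝ) ≤ (t - T) / (2 * r) := Nat.floor_le h3
    have h5 : (t - T) / (2 * r) < k + 1 := Nat.lt_floor_add_one _
    rw [le_div_iff₀ (by positivity)] at h4
    rw [div_lt_iff₀ (by positivity)] at h5
    have h6 : k < N := by
      have h7 : ((k + 1 : ℕ) : ℝ) ≤ T / (2 * r) := by
        rw [le_div_iff₀ (by positivity)]
        push_cast
        linarith
      have := Nat.le_floor h7
      omega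
    rw [Set.mem_iUnion₂]
    refine ⟨k, Finset.mem_range.mpr h6, ht, ?_, ?_⟩
    · simp only [hg]
      linarith
    · simp only [hg]
      linarith
  have hVI : ∀ {A : Set ℝ} {x y : ℝ}, A ⊆ Set.Icc x y → IntegrableOn V A := fun {A x y} h =>
    (hV.continuousOn.integrableOn_compact isCompact_Icc).mono_set h
  have hone : ∀ k ∈ Finset.range N, η * ∫ t in G ∩ Set.Icc (g k - r) (g k + r), V t ≤ K * ∫ u in J k, V u := by
    intro k hk
    rw [Finset.mem_range] at hk
    have h1 := side_mass (V := V) (K := K) (r := r) (g := g k) (G := G) (J := J k) hV hV0 hK hr.le (by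
      rintro t ⟨ht1, ht2⟩ u ⟨hu1, hu2⟩
      refine hcmp t ht1 u ?_
      rw [abs_le]
      constructor <;> linarith [ht2.1, ht2.2, hu2.1, hu2.2]) hG (hJm k) (a := T) (b := 2 * T)
      ((hJA k hk).trans Set.inter_subset_right)
    have h2 : 0 ≤ ∫ t in G ∩ Set.Icc (g k - r) (g k + r), V t := integral_nonneg fun t => hV0 t
    have h3 := mul_le_mul_of_nonneg_right (hJd k hk) h2
    have h4 : 2 * r * (η * ∫ t in G ∩ Set.Icc (g k - r) (g k + r), V t) ≤ 2 * r * (K * ∫ u in J k, V u) := by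
      linarith
    exact le_of_mul_le_mul_left h4 (by positivity)
  have hsum := Finset.sum_le_sum hone
  rw [← Finset.mul_sum, ← Finset.mul_sum] at hsum
  -- the left side
  have hleft : ∫ t in G, V t ≤ ∑ k ∈ Finset.range N, ∫ t in G ∩ Set.Icc (g k - r) (g k + r), V t := by
    have h1 : ∀ M : ℕ, ∫ t in ⋃ k ∈ Finset.range M, (G ∩ Set.Icc (g k - r) (g k + r)), V t ≤
        ∑ k ∈ Finset.range M, ∫ t in G ∩ Set.Icc (g k - r) (g k + r), V t := by
      intro M
      induction M with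
      | zero => simp
      | succ M ih =>
        rw [Finset.sum_range_succ, Finset.range_add_one]
        rw [Finset.set_biUnion_insert, Set.union_comm]
        have h2 : (⋃ k ∈ Finset.range M, (G ∩ Set.Icc (g k - r) (g k + r))) ∪
            (G ∩ Set.Icc (g M - r) (g M + r)) ⊆ Set.Icc T (2 * T - 2 * r) := by
          refine Set.union_subset (Set.iUnion₂_subset fun k _ => ?_) ?_
          · exact Set.inter_subset_left.trans hGI
          · exact Set.inter_subset_left.trans hGI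
        have h3 := int_union_le hV hV0 (A := ⋃ k ∈ Finset.range M, (G ∩ Set.Icc (g k - r) (g k + r)))
          (B := G ∩ Set.Icc (g M - r) (g M + r))
          (Finset.measurableSet_biUnion _ fun k _ => hG.inter measurableSet_Icc)
          (hG.inter measurableSet_Icc) h2
        linarith
    refine le_trans ?_ (h1 N)
    refine setIntegral_mono_set (hVI (x := T) (y := 2 * T - 2 * r) ?_)
      (Filter.Eventually.of_forall fun t => hV0 t) (Filter.Eventually.of_forall hcov)
    exact Set.iUnion₂_subset fun k _ => Set.inter_subset_left.trans hGI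
  -- the right side
  have hright : ∑ k ∈ Finset.range N, ∫ u in J k, V u ≤ ∫ u in D ∩ Set.Icc T (2 * T), V u := by
    rw [← integral_biUnion_finset (Finset.range N) (fun k _ => hJm k) ?_ ?_]
    · refine setIntegral_mono_set (hVI Set.inter_subset_right) (Filter.Eventually.of_forall fun t => hV0 t)
        (Filter.Eventually.of_forall ?_)
      exact Set.iUnion₂_subset fun k hk => hJA k (Finset.mem_range.mp hk)
    · have key : ∀ k k' : ℕ, k < k' → Disjoint (J k) (J k') := by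
        intro k k' hlt
        rw [Set.disjoint_left]
        rintro t ⟨-, -, t2⟩ ⟨-, t3, -⟩
        have h1 : ((k + 1 : ℕ) : ℝ) ≤ k' := by exact_mod_cast hlt
        push_cast at h1
        simp only [hg] at t2 t3
        nlinarith
      intro k _ k' _ hne
      rcases lt_or_gt_of_ne hne with h | h
      · exact key k k' h
      · exact (key k' k h).symm
    · intro k hk
      exact hVI ((hJA k (Finset.mem_range.mp hk)).trans Set.inter_subset_right)
  calc η * ∫ t in G, V t ≤ η * ∑ k ∈ Finset.range N, ∫ t in G ∩ Set.Icc (g k - r) (g k + r), V t :=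
        mul_le_mul_of_nonneg_left hleft hη.le
    _ ≤ K * ∑ k ∈ Finset.range N, ∫ u in J k, V u := hsum
    _ ≤ _ := mul_le_mul_of_nonneg_left hright hK

/-- **the values of zeta on relatively dense sets** -/
theorem dense_values (κ : ℝ) {ε η₀ : ℝ} (hε : 0 < ε) (hη₀ : 0 < η₀) :
    ∃ e : ℝ, 0 < e ∧ e ≤ ε ∧ ∀ᶠ T : ℝ in atTop, ∀ D : Set ℝ, MeasurableSet D →
      RelDense η₀ (Real.log T ^ (e - 1)) T D →
      T * Real.log T ^ (-κ ^ 2 - ε) ≤
      volume.real {t : ℝ | T ≤ t ∧ t ≤ 2 * T ∧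
        |Real.log ‖riemannZeta (1 / 2 + t * I)‖ - κ * LL T| ≤ ε * LL T ∧ t ∈ D} := by
  set K : ℝ := 9 * Real.exp (2 * |κ|) with hK
  have hK0 : 0 < K := by positivity
  set c1 : ℝ := η₀ / (2 * K) with hc1d
  have hc10 : 0 < c1 := by positivity
  set η : ℝ := min (c1 / 12) (1 / 384) with hη
  have hη0 : 0 < η := by positivity
  have hη1 : η ≤ c1 / 12 := min_le_left _ _
  have hη2 : η ≤ 1 / 384 := min_le_right _ _
  set k1 : ℝ := |κ| + 1 with hk1
  have hk0 : 0 < k1 := by positivity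
  set ε' : ℝ := min (ε / 8) (ε / (8 * k1)) with hε'
  have hε'0 : 0 < ε' := by positivity
  have hε'2 : ε' ≤ ε / 8 := min_le_left _ _
  have hε'3 : |κ| * ε' ≤ ε / 8 := by
    have h1 : ε' ≤ ε / (8 * k1) := min_le_right _ _
    calc |κ| * ε' ≤ k1 * (ε / (8 * k1)) := by
          refine mul_le_mul (by rw [hk1]; linarith) h1 hε'0.le hk0.le
      _ = ε / 8 := by field_simp
  set δL : ℝ := min (ε / 8) η with hδL
  have hδL0 : 0 < δL := by positivity
  obtain ⟨c0', hc0', hc01', hLW⟩ := a_LOW κ δL hδL0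
  set m : ℝ := min (1 / 2) (ε / (8 * k1)) with hm
  have hm0 : 0 < m := by positivity
  have hm1 : m ≤ 1 / 2 := min_le_left _ _
  obtain ⟨c, hcc0', hc1, hcpos, hcκ⟩ : ∃ c : ℝ, c0' ≤ c ∧ c < 1 ∧ 0 < c ∧
      |κ| * (1 - c) ≤ ε / 8 := by
    refine ⟨max c0' (1 - m), le_max_left _ _, max_lt hc01' (by linarith),
      lt_of_lt_of_le hc0' (le_max_left _ _), ?_⟩
    have h1 : 1 - max c0' (1 - m) ≤ m := by
      have := le_max_right c0' (1 - m)
      linarith
    have h2 : m ≤ ε / (8 * k1) := min_le_right _ _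
    have h3 : 0 ≤ 1 - max c0' (1 - m) := by
      have := max_lt hc01' (show 1 - m < 1 by linarith)
      linarith
    calc |κ| * (1 - max c0' (1 - m)) ≤ k1 * (ε / (8 * k1)) := by
          refine mul_le_mul (by rw [hk1]; linarith) (h1.trans h2) h3 hk0.le
      _ = ε / 8 := by field_simp
  set e2 : ℝ := (1 - c) / 2 with he2
  have he20 : 0 < e2 := by rw [he2]; linarith
  have he21 : e2 < 1 - c := by rw [he2]; linarith
  set A' : ℝ := 3 * κ ^ 2 + 1 with hA'
  have hA'0 : 0 < A' := by positivity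
  obtain ⟨A2, hA20, hG2⟩ := a_G2M c e2 A' hcpos hc1 he20 he21 hA'0
  have hG2 := hG2 A2 le_rfl
  obtain ⟨D1, hD0, hG1⟩ := t_G1M 1 A' one_pos hA'0
  have hG1 := hG1 D1 le_rfl
  obtain ⟨Al, hLd⟩ := hLW c hcc0' hc1
  obtain ⟨Ap, hAp⟩ := Pool.Agent.Y363.LD.t_PW κ A2 hA20
  obtain ⟨Av, hAv⟩ := a_VM1 κ c hcpos hc1
  obtain ⟨At, hAt⟩ := a_VMT κ c hcpos hc1
  obtain ⟨A, h2, h4, h5, h6⟩ : ∃ A : ℝ, Ap ≤ A ∧ Av ≤ A ∧ At ≤ A ∧ Al ≤ A := by
    refine ⟨max (max Ap Al) (max Av At), ?_, ?_, ?_, ?_⟩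
    · exact (le_max_left Ap Al).trans (le_max_left _ _)
    · exact (le_max_left Av At).trans (le_max_right _ _)
    · exact (le_max_right Av At).trans (le_max_right _ _)
    · exact (le_max_right Ap Al).trans (le_max_left _ _)
  have hLd := hLd A h6
  have hAp := hAp A h2
  obtain ⟨C1, hC1, hAv⟩ := hAv A h4
  obtain ⟨C2, hC2, hAt⟩ := hAt A h5
  have hC10 : 0 < C1 := by linarith
  have hv : ∀ᶠ T : ℝ in atTop, F1 κ c A C1 T := hAv
  have hmass := good_massη (η := η) hη0 hc1 hC1 hC2 hε'0 (le_refl A') hv hAt hG1 hG2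
  have v2 := ev_pow_ge (C1 * (9 / 4 * Real.exp (κ ^ 2 * C1)) / (c1 / 2)) (3 / 4 * ε) (by positivity)
  refine ⟨min e2 (min ε 1), by positivity, (min_le_right _ _).trans (min_le_left _ _), ?_⟩
  set e : ℝ := min e2 (min ε 1) with he
  have he0 : 0 < e := by positivity
  have hee2 : e ≤ e2 := min_le_left _ _
  have he1 : e ≤ 1 := (min_le_right _ _).trans (min_le_right _ _)
  filter_upwards [hmass, hG1, hG2, hLd, hAp, hAv, v2,
    LL_tendsto.eventually_ge_atTop (2 * (1 + |κ| * C1) / ε), Real.tendsto_log_atTop.eventually_ge_atTop 1,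
    eventually_ge_atTop 10]
    with T tm tG1 tG2 tLW tP tV w2 w3 tL tT1
  intro D hDm hDd
  obtain ⟨E0, hE0m, hE0s, hE0v, hE0z⟩ := tLW
  obtain ⟨g1, -⟩ := tG1
  obtain ⟨g2, -⟩ := tG2
  obtain ⟨y1, y2, -, -⟩ := tV
  have hT0' : 0 < T := by linarith
  have hI0 : 0 ≤ IV κ c A T := IV_nonneg κ c A hT0'.le
  have tm := tm E0 hE0m hE0s (hE0v.trans (mul_le_mul_of_nonneg_right (min_le_right _ _) hI0))
  set L := Real.log T with hL
  have hL0 : 0 < L := by linarith
  have hLL0 : 0 ≤ LL T := le_trans (by positivity) w3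
  rw [div_le_iff₀ hε] at w3
  have hV := V_cont κ c A T
  have hV0 := V_nonneg κ c A T
  set r : ℝ := L ^ (e - 1) / 2 with hr
  have hr0 : 0 < r := by positivity
  have h2r : 2 * r = L ^ (e - 1) := by rw [hr]; ring
  have hr1 : 2 * r ≤ 1 := by
    rw [h2r]
    exact Real.rpow_le_one_of_one_le_of_nonpos tL (by linarith)
  have hr2 : 2 * r ≤ L ^ (e2 - 1) := by
    rw [h2r]
    exact Real.rpow_le_rpow_of_exponent_le tL (by linarith)
  set G := (G1 1 D1 T ∩ G2 A2 c e2 T ∩ GT κ c ε' T ∩ Set.Icc (T + 6 * L) (2 * T - 6 * L)) \ E0 with hG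
  have hGm : MeasurableSet G := (((g1.inter g2).inter (GT_meas κ c ε' T)).inter measurableSet_Icc).diff hE0m
  have hGI : G ⊆ Set.Icc (T + 6 * L) (2 * T - 6 * L) := fun t ht => ht.1.2
  have hGI' : G ⊆ Set.Icc T (2 * T) := hGI.trans (Set.Icc_subset_Icc (by linarith) (by linarith))
  have hGI'' : G ⊆ Set.Icc T (2 * T - 2 * r) :=
    hGI.trans (Set.Icc_subset_Icc (by linarith) (by linarith))
  have hdm := dense_mass (V := V κ c A T) (K := K) (r := r) (T := T) (η := η₀) (G := G) (D := D) hV hV0 hK0.le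
    hr0 hη₀ (by
      intro t ht u hu
      exact V_cmp tP hL0 ht.1.1.1.2 (by rw [← hL]; linarith)) hGm hDm hGI'' (by rw [h2r]; exact hDd)
  have hVI : IntegrableOn (V κ c A T) (Set.Icc T (2 * T)) :=
    hV.continuousOn.integrableOn_compact isCompact_Icc
  set As : Set ℝ := D ∩ Set.Icc T (2 * T) with hAs
  have hmA : c1 * IV κ c A T ≤ ∫ t in As, V κ c A T t := by
    have h7 : 1 / 2 * IV κ c A T ≤ ∫ t in G, V κ c A T t := by
      refine le_trans ?_ tm
      refine mul_le_mul_of_nonneg_right ?_ hI0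
      linarith
    have h8 : η₀ * (1 / 2 * IV κ c A T) ≤ K * ∫ t in As, V κ c A T t :=
      (mul_le_mul_of_nonneg_left h7 hη₀.le).trans hdm
    have h9 : η₀ * (1 / 2 * IV κ c A T) = K * (c1 * IV κ c A T) := by
      rw [hc1d]; field_simp
    rw [h9] at h8
    exact le_of_mul_le_mul_left h8 hK0
  have hAsm : MeasurableSet As := hDm.inter measurableSet_Icc
  -- the set
  set E := G ∩ D with hE
  have hEm : MeasurableSet E := hGm.inter hDm
  have hIV : IV κ c A T = ∫ t in Set.Icc T (2 * T), V κ c A T t := by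
    unfold IV
    rw [integral_Icc_eq_integral_Ioc, ← intervalIntegral.integral_of_le (by linarith)]
  have hcomp : ∫ t in Set.Icc T (2 * T) \ G, V κ c A T t ≤ 6 * η * IV κ c A T := by
    have h7 := setIntegral_sdiff hGm hVI hGI'
    rw [h7, ← hIV]
    linarith
  have hmE : c1 / 2 * IV κ c A T ≤ ∫ t in E, V κ c A T t := by
    have h7 : As ⊆ E ∪ (Set.Icc T (2 * T) \ G) := by
      rintro t ⟨ht1, ht2⟩
      by_cases h : t ∈ G
      · exact Or.inl ⟨h, ht1⟩
      · exact Or.inr ⟨ht2, h⟩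
    have h8 : E ∪ (Set.Icc T (2 * T) \ G) ⊆ Set.Icc T (2 * T) :=
      Set.union_subset (Set.inter_subset_left.trans hGI') Set.sdiff_subset
    have h9 : ∫ t in As, V κ c A T t ≤ ∫ t in E ∪ (Set.Icc T (2 * T) \ G), V κ c A T t :=
      setIntegral_mono_set (hVI.mono_set h8) (Filter.Eventually.of_forall fun t => hV0 t)
        (Filter.Eventually.of_forall h7)
    have h10 := int_union_le hV hV0 hEm (measurableSet_Icc.diff hGm) h8
    have h11 : 6 * η * IV κ c A T ≤ c1 / 2 * IV κ c A T :=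
      mul_le_mul_of_nonneg_right (by linarith) hI0
    linarith
  have hEb : E ⊆ Set.Icc T (2 * T) := Set.inter_subset_left.trans hGI'
  have hEt : volume E ≠ ⊤ := (measure_lt_top_of_subset hEb
    (by rw [Real.volume_Icc]; exact ENNReal.ofReal_ne_top)).ne
  have hVE : ∫ t in E, V κ c A T t ≤
      9 / 4 * Real.exp (2 * κ ^ 2 * sc c T + 2 * (|κ| * ε') * LL T) * volume.real E := by
    have h7 : ∫ t in E, V κ c A T t ≤
        ∫ _ in E, 9 / 4 * Real.exp (2 * κ ^ 2 * sc c T + 2 * (|κ| * ε') * LL T) :=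
      setIntegral_mono_on (hVI.mono_set hEb) (integrableOn_const hEt) hEm
        fun t ht => V_size hL0 tP ht.1.1.1.1.2 ht.1.1.1.2
    rw [setIntegral_const, smul_eq_mul] at h7
    linarith
  have hvol := vol_calc (c := c) (A := A) (C1 := C1) (ε' := ε') (q := c1 / 2) (vol := volume.real E) hC10 hc1
    (by positivity) hε hε'3 tL hT0' hLL0 y1 y2 w2 (hmE.trans hVE) measureReal_nonneg
  refine hvol.trans ?_
  refine measureReal_mono ?_ ?_
  · rintro t ⟨ht1, ht2⟩
    have ht3 := hGI' ht1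
    exact ⟨ht3.1, ht3.2, zeta_size hc1 hε hcκ hLL0 y1 hε'2 (min_le_left _ _) w3 ht1.1.1.2
      (hE0z t ht3 ht1.2), ht2⟩
  · have hsub : {t : ℝ | T ≤ t ∧ t ≤ 2 * T ∧ |Real.log ‖riemannZeta (1 / 2 + (t : ℂ) * Complex.I)‖ - κ * LL T| ≤
        ε * LL T ∧ t ∈ D} ⊆ Set.Icc T (2 * T) := by
      rintro t ⟨h1, h2, -⟩
      exact ⟨h1, h2⟩
    exact (measure_lt_top_of_subset hsub
      (by rw [Real.volume_Icc]; exact ENNReal.ofReal_ne_top)).ne

end Pool.Agent.X117.DS
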