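import Pool.Agent.X117.Joi1
import Pool.Agent.X117.Rem2

/-!
# Joint moments with a negative exponent: one cell, and the continuation of Hardy's function
-/

namespace Pool.Agent.X117.JF

open Filter Topology MeasureTheory Complex Set Metric
open Pool.Agent.X117.HZ Pool.Agent.X117.DZ Pool.Agent.X117.SZ

/-- one cell -/
theorem cell_joint {k p : ℝ} (hk : 0 < k) (hp0 : 0 ≤ p) (hp : p < 2 * k + 1) : ∃ C : ℝ, 0 < C ∧
    ∀ (f : ℂ → ℂ) (x h M : ℝ), 0 < h → AnalyticOnNhd ℂ f (closedBall ((x + h / 2 : ℝ) : ℂ) (10 * h)) →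
      (∀ z ∈ closedBall ((x + h / 2 : ℝ) : ℂ) (10 * h), ‖f z‖ ≤ M) →
      ∫⁻ t in Icc x (x + h), ENNReal.ofReal (‖deriv f (t : ℂ)‖ ^ p * ‖f (t : ℂ)‖ ^ (2 * k - p)) ≤
        ENNReal.ofReal (C * h ^ (1 - p) * M ^ (2 * k)) := by
  obtain ⟨K, hK, hKl⟩ : ∃ K : ℝ, 0 < K ∧ (2 * k < p → ∀ (f : ℂ → ℂ) (w : ℂ) (x h M : ℝ), 0 < h →
      AnalyticOnNhd ℂ f (closedBall w (8 * h)) → f w ≠ 0 → (∀ z ∈ closedBall w (8 * h), ‖f z‖ ≤ M) →
      (∀ t ∈ Icc x (x + h), (t : ℂ) ∈ closedBall w (5 / 2 * h)) →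
      ∫⁻ t in Icc x (x + h), ENNReal.ofReal (‖deriv f (t : ℂ) / f (t : ℂ)‖ ^ (p - 2 * k)) ≤
        ENNReal.ofReal (K * (Real.log (M / ‖f w‖) + 1) * h ^ (1 - (p - 2 * k)))) := by
    rcases le_or_gt p (2 * k) with h1 | h1
    · exact ⟨1, one_pos, fun h2 => absurd h2 (not_lt.2 h1)⟩
    · obtain ⟨K, hK, h2⟩ := int_logder (θ := p - 2 * k) (by linarith) (by linarith)
      exact ⟨K, hK, fun _ => h2⟩
  refine ⟨1 + K * (1 + 1 / (2 * k)), by positivity, ?_⟩
  intro f x h M hh hf hb
  set c : ℂ := ((x + h / 2 : ℝ) : ℂ) with hc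
  have hc10 : c ∈ closedBall c (10 * h) := mem_closedBall_self (by positivity)
  have hM0 : 0 ≤ M := (norm_nonneg _).trans (hb c hc10)
  have hsub : closedBall c (2 * h) ⊆ closedBall c (10 * h) := closedBall_subset_closedBall (by linarith)
  have hcont : ContinuousOn (fun z => ‖f z‖) (closedBall c (2 * h)) :=
    (hf.mono hsub).continuousOn.norm
  obtain ⟨w, hw, hmax⟩ := (isCompact_closedBall c (2 * h)).exists_isMaxOn
    ⟨c, mem_closedBall_self (by positivity)⟩ hcont
  set S : ℝ := ‖f w‖ with hS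
  have hS0 : 0 ≤ S := norm_nonneg _
  have hSle : ∀ z ∈ closedBall c (2 * h), ‖f z‖ ≤ S := fun z hz => hmax hz
  have hSM : S ≤ M := hb w (hsub hw)
  have hJ : ∀ t ∈ Icc x (x + h), ‖(t : ℂ) - c‖ ≤ h / 2 := by
    intro t ht
    rw [hc, ← Complex.ofReal_sub, Complex.norm_real, Real.norm_eq_abs, abs_le]
    constructor <;> linarith [ht.1, ht.2]
  have hJ2 : ∀ t ∈ Icc x (x + h), (t : ℂ) ∈ closedBall c (2 * h) := by
    intro t ht
    rw [mem_closedBall, dist_eq_norm]
    linarith [hJ t ht]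
  have hder : ∀ t ∈ Icc x (x + h), ‖deriv f (t : ℂ)‖ ≤ S / h := by
    intro t ht
    have hsub2 : closedBall (t : ℂ) h ⊆ closedBall c (2 * h) := by
      intro z hz
      rw [mem_closedBall, dist_eq_norm] at hz ⊢
      have e : z - c = (z - t) + (t - c) := by ring
      rw [e]
      linarith [norm_add_le (z - (t : ℂ)) ((t : ℂ) - c), hJ t ht]
    refine Complex.norm_deriv_le_of_forall_mem_sphere_norm_le hh ?_ fun z hz => ?_
    · refine DifferentiableOn.diffContOnCl ?_
      rw [closure_ball _ hh.ne']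
      exact fun z hz => (hf z (hsub (hsub2 hz))).differentiableAt.differentiableWithinAt
    · exact hSle z (hsub2 (sphere_subset_closedBall hz))
  have hk2 : 0 < 2 * k := by positivity
  rcases le_or_gt p (2 * k) with hcase | hcase
  · -- nonnegative exponents
    have hpt : ∀ t ∈ Icc x (x + h), ENNReal.ofReal (‖deriv f (t : ℂ)‖ ^ p * ‖f (t : ℂ)‖ ^ (2 * k - p)) ≤
        ENNReal.ofReal (h⁻¹ ^ p * M ^ (2 * k)) := by
      intro t ht
      refine ENNReal.ofReal_le_ofReal ?_
      have h1 := Real.rpow_le_rpow (norm_nonneg _) (hder t ht) hp0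
      have h2 := Real.rpow_le_rpow (norm_nonneg _) (hSle _ (hJ2 t ht)) (show 0 ≤ 2 * k - p by linarith)
      calc ‖deriv f (t : ℂ)‖ ^ p * ‖f (t : ℂ)‖ ^ (2 * k - p) ≤ (S / h) ^ p * S ^ (2 * k - p) :=
            mul_le_mul h1 h2 (Real.rpow_nonneg (norm_nonneg _) _) (by positivity)
        _ = h⁻¹ ^ p * S ^ (2 * k) := by
            rw [div_eq_mul_inv, Real.mul_rpow hS0 (by positivity), mul_comm (S ^ p), mul_assoc,
              ← Real.rpow_add_of_nonneg hS0 hp0 (by linarith)]
            congr 2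
            ring
        _ ≤ _ := by
            refine mul_le_mul_of_nonneg_left ?_ (by positivity)
            exact Real.rpow_le_rpow hS0 hSM hk2.le
    refine (setLIntegral_mono' measurableSet_Icc hpt).trans ?_
    rw [setLIntegral_const, Real.volume_Icc, add_sub_cancel_left, ← ENNReal.ofReal_mul (by positivity)]
    refine ENNReal.ofReal_le_ofReal ?_
    have e1 : h⁻¹ ^ p * M ^ (2 * k) * h = 1 * (h ^ (1 - p) * M ^ (2 * k)) := by
      rw [Real.inv_rpow hh.le, Real.rpow_sub hh, Real.rpow_one]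
      field_simp
    rw [e1, mul_assoc]
    refine mul_le_mul_of_nonneg_right ?_ (by positivity)
    have : 0 ≤ K * (1 + 1 / (2 * k)) := by positivity
    linarith
  · -- a negative exponent
    have hθ0 : 0 < p - 2 * k := by linarith
    rcases hS0.eq_or_lt with hS1 | hS1
    · have hpt : ∀ t ∈ Icc x (x + h), ENNReal.ofReal (‖deriv f (t : ℂ)‖ ^ p * ‖f (t : ℂ)‖ ^ (2 * k - p)) ≤ 0 := by
        intro t ht
        have h1 := hder t ht
        rw [← hS1, zero_div] at h1
        have h2 : ‖deriv f (t : ℂ)‖ = 0 := le_antisymm h1 (norm_nonneg _)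
        rw [h2, Real.zero_rpow (by linarith), zero_mul, ENNReal.ofReal_zero]
      refine (setLIntegral_mono' measurableSet_Icc hpt).trans ?_
      rw [lintegral_zero]
      exact zero_le
    have hfw : f w ≠ 0 := norm_pos_iff.1 hS1
    have hwc : ‖w - c‖ ≤ 2 * h := by rwa [mem_closedBall, dist_eq_norm] at hw
    have hsub3 : closedBall w (8 * h) ⊆ closedBall c (10 * h) := by
      intro z hz
      rw [mem_closedBall, dist_eq_norm] at hz ⊢
      have e : z - c = (z - w) + (w - c) := by ring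
      rw [e]
      linarith [norm_add_le (z - w) (w - c)]
    have h1 := hKl hcase f w x h M hh (hf.mono hsub3) hfw (fun z hz => hb z (hsub3 hz)) (fun t ht => by
      rw [mem_closedBall, dist_eq_norm]
      have e : (t : ℂ) - w = ((t : ℂ) - c) - (w - c) := by ring
      rw [e]
      linarith [norm_sub_le ((t : ℂ) - c) (w - c), hJ t ht])
    have hpt : ∀ t ∈ Icc x (x + h), ENNReal.ofReal (‖deriv f (t : ℂ)‖ ^ p * ‖f (t : ℂ)‖ ^ (2 * k - p)) ≤
        ENNReal.ofReal ((S / h) ^ (2 * k)) * ENNReal.ofReal (‖deriv f (t : ℂ) / f (t : ℂ)‖ ^ (p - 2 * k)) := by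
      intro t ht
      rw [← ENNReal.ofReal_mul (by positivity)]
      refine ENNReal.ofReal_le_ofReal ?_
      rcases eq_or_ne (f (t : ℂ)) 0 with h0 | h0
      · rw [h0, norm_zero, Real.zero_rpow (by linarith), mul_zero]
        positivity
      · have hft : 0 < ‖f (t : ℂ)‖ := norm_pos_iff.2 h0
        have e1 : ‖deriv f (t : ℂ)‖ ^ p = ‖deriv f (t : ℂ)‖ ^ (2 * k) * ‖deriv f (t : ℂ)‖ ^ (p - 2 * k) := by
          rw [← Real.rpow_add_of_nonneg (norm_nonneg _) hk2.le hθ0.le]
          congr 1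
          ring
        have e2 : ‖f (t : ℂ)‖ ^ (2 * k - p) = (‖f (t : ℂ)‖ ^ (p - 2 * k))⁻¹ := by
          rw [← Real.rpow_neg hft.le]
          congr 1
          ring
        rw [e1, e2, norm_div, Real.div_rpow (norm_nonneg _) hft.le, mul_assoc, ← div_eq_mul_inv]
        refine mul_le_mul_of_nonneg_right ?_ (by positivity)
        exact Real.rpow_le_rpow (norm_nonneg _) (hder t ht) hk2.le
    refine (setLIntegral_mono' measurableSet_Icc hpt).trans ?_
    rw [lintegral_const_mul' _ _ ENNReal.ofReal_ne_top]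
    refine (mul_le_mul_right h1 _).trans ?_
    rw [← ENNReal.ofReal_mul (by positivity)]
    refine ENNReal.ofReal_le_ofReal ?_
    set Λ : ℝ := Real.log (M / S) with hΛ
    have hMS : 1 ≤ M / S := by rw [le_div_iff₀ hS1, one_mul]; exact hSM
    have hΛ0 : 0 ≤ Λ := Real.log_nonneg hMS
    have h2 : S ^ (2 * k) * (1 + 2 * k * Λ) ≤ M ^ (2 * k) := by
      have e1 : M = S * (M / S) := by field_simp
      have h3 : 1 + 2 * k * Λ ≤ (M / S) ^ (2 * k) := by
        have h4 := Real.add_one_le_exp (2 * k * Λ)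
        have h5 : Real.exp (2 * k * Λ) = (M / S) ^ (2 * k) := by
          rw [Real.rpow_def_of_pos (by positivity), hΛ, mul_comm]
        linarith
      calc S ^ (2 * k) * (1 + 2 * k * Λ) ≤ S ^ (2 * k) * (M / S) ^ (2 * k) :=
            mul_le_mul_of_nonneg_left h3 (by positivity)
        _ = M ^ (2 * k) := by
            rw [← Real.mul_rpow hS0 (by positivity), ← e1]
    have h3 : S ^ (2 * k) * (Λ + 1) ≤ (1 + 1 / (2 * k)) * M ^ (2 * k) := by
      have h4 : Λ + 1 ≤ (1 + 1 / (2 * k)) * (1 + 2 * k * Λ) := by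
        have e1 : (1 + 1 / (2 * k)) * (1 + 2 * k * Λ) = 1 + Λ + (2 * k * Λ + 1 / (2 * k)) := by
          field_simp
          ring
        rw [e1]
        have : 0 ≤ 2 * k * Λ + 1 / (2 * k) := by positivity
        linarith
      calc S ^ (2 * k) * (Λ + 1) ≤ S ^ (2 * k) * ((1 + 1 / (2 * k)) * (1 + 2 * k * Λ)) :=
            mul_le_mul_of_nonneg_left h4 (by positivity)
        _ = (1 + 1 / (2 * k)) * (S ^ (2 * k) * (1 + 2 * k * Λ)) := by ring
        _ ≤ _ := mul_le_mul_of_nonneg_left h2 (by positivity)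
    have e1 : (S / h) ^ (2 * k) * (K * (Λ + 1) * h ^ (1 - (p - 2 * k))) =
        K * h ^ (1 - p) * (S ^ (2 * k) * (Λ + 1)) := by
      rw [Real.div_rpow hS0 hh.le]
      have e2 : h ^ (1 - (p - 2 * k)) = h ^ (1 - p) * h ^ (2 * k) := by
        rw [← Real.rpow_add hh]
        congr 1
        ring
      rw [e2]
      field_simp
    rw [e1]
    have hh1 : 0 ≤ h ^ (1 - p) := by positivity
    have hM2 : 0 ≤ M ^ (2 * k) := by positivity
    calc K * h ^ (1 - p) * (S ^ (2 * k) * (Λ + 1)) ≤ K * h ^ (1 - p) * ((1 + 1 / (2 * k)) * M ^ (2 * k)) :=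
          mul_le_mul_of_nonneg_left h3 (by positivity)
      _ = K * (1 + 1 / (2 * k)) * h ^ (1 - p) * M ^ (2 * k) := by ring
      _ ≤ _ := by
          refine mul_le_mul_of_nonneg_right (mul_le_mul_of_nonneg_right ?_ hh1) hM2
          linarith

/-- the derivatives of the continuation are real on the real line -/
lemma iter_real {t0 : ℝ} {W : ℂ → ℂ} (hW : DifferentiableOn ℂ W (ball (t0 : ℂ) (1 / 4)))
    (hWZ : ∀ t : ℝ, |t - t0| < 1 / 4 → W t = ((Z t : ℝ) : ℂ)) (j : ℕ) : ∀ t : ℝ, |t - t0| < 1 / 4 →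
      iteratedDeriv j W t = ((iteratedDeriv j Z t : ℝ) : ℂ) := by
  have hmem : ∀ t : ℝ, |t - t0| < 1 / 4 → (t : ℂ) ∈ ball (t0 : ℂ) (1 / 4) := by
    intro t ht
    rwa [mem_ball, dist_eq_norm, ← ofReal_sub, Complex.norm_real, Real.norm_eq_abs]
  have hopen : ∀ t : ℝ, |t - t0| < 1 / 4 → ∀ᶠ u : ℝ in 𝓝 t, |u - t0| < 1 / 4 := by
    intro t ht
    exact (isOpen_lt (continuous_abs.comp (continuous_id.sub continuous_const))
      continuous_const).mem_nhds ht
  have hWa : AnalyticOnNhd ℂ W (ball (t0 : ℂ) (1 / 4)) := hW.analyticOnNhd isOpen_ball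
  have him : ∀ j : ℕ, ∀ t : ℝ, |t - t0| < 1 / 4 → (iteratedDeriv j W t).im = 0 := by
    intro j
    induction j with
    | zero =>
      intro t ht
      rw [iteratedDeriv_zero, hWZ t ht, ofReal_im]
    | succ j ih =>
      intro t ht
      have h1 : DifferentiableAt ℂ (iteratedDeriv j W) (t : ℂ) := by
        have := hWa.iterated_deriv j (t : ℂ) (hmem t ht)
        rw [← iteratedDeriv_eq_iterate] at this
        exact this.differentiableAt
      have h2 := (h1.hasDerivAt.const_mul (-I)).real_of_complex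
      rw [← iteratedDeriv_succ] at h2
      have h3 : HasDerivAt (fun _ : ℝ => (0 : ℝ)) ((-I * iteratedDeriv (j + 1) W t).re) t := by
        refine h2.congr_of_eventuallyEq ?_
        filter_upwards [hopen t ht] with u hu
        have := ih u hu
        simp [this]
      have h4 := h3.unique (hasDerivAt_const t (0 : ℝ))
      simpa using h4
  intro t ht
  apply Complex.ext
  · rw [ofReal_re]
    exact ((iter_eq hW hWZ j t ht).1).symm
  · rw [ofReal_im]
    exact him j t ht

end Pool.Agent.X117.JF
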