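import Pool.Agent.X117.Mas8
import Pool.Agent.X117.Joi2

/-!
# All derivatives of Hardy's function are large together: the local statement
-/

namespace Pool.Agent.X117.MS

open Filter Topology MeasureTheory Complex Set Metric
open Pool.Agent.X117.HZ Pool.Agent.X117.DZ Pool.Agent.X117.SZ Pool.Agent.X117.RM Pool.Agent.X117.JF

/-- a function that is small on a part of positive proportion of a segment is small at a point nearby -/
theorem remez3 {A θ τ : ℝ} (hA : 1 ≤ A) (hθ : 0 < θ) (hτ : 0 < τ) : ∃ ε : ℝ, 0 < ε ∧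
    ∀ (f : ℂ → ℂ) (U : Set ℂ) (x h M : ℝ), IsOpen U → DifferentiableOn ℂ f U → 0 < h →
      closedBall (1 / 2 + I * ((x + h / 2 : ℝ) : ℂ)) ((2 * A + 3) * h) ⊆ U →
      (∀ u, ‖u - (1 / 2 + I * ((x + h / 2 : ℝ) : ℂ))‖ ≤ (2 * A + 3) * h → ‖f u‖ ≤ M) →
      ∀ E : Set ℝ, E ⊆ Icc x (x + h) → θ * h ≤ volume.real E → (∀ t ∈ E, ‖f (1 / 2 + I * (t : ℂ))‖ ≤ ε * M) →
      ∀ u, ‖u - (1 / 2 + I * ((x + h / 2 : ℝ) : ℂ))‖ ≤ A * h → ‖f u‖ ≤ τ * M := by
  set K : ℝ := 2 * A + 3 with hK
  have hK5 : 5 ≤ K := by rw [hK]; linarith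
  obtain ⟨N, hN⟩ := exists_pow_lt_of_lt_one (show (0 : ℝ) < τ / 4 by positivity) (show (1 / 2 : ℝ) < 1 by norm_num)
  set C : ℝ := (N + 1) * (2 * (K + 1) * (N + 1) / θ) ^ N with hC
  have hC0 : 0 < C := by positivity
  refine ⟨min 1 (τ / 4) / C, by positivity, ?_⟩
  intro f U x h M hU hf hh hsub hM E hE hEv hfE v hv
  set ε : ℝ := min 1 (τ / 4) / C with hε
  have hεC : ε * C = min 1 (τ / 4) := by rw [hε]; field_simp
  have hε0 : 0 < ε := by positivity
  set c : ℂ := 1 / 2 + I * ((x + h / 2 : ℝ) : ℂ) with hc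
  have hM0 : 0 ≤ M := (norm_nonneg _).trans (hM c (by rw [sub_self, norm_zero]; positivity))
  set r : ℝ := θ * h / (4 * (N + 1)) with hr
  have hr0 : 0 < r := by positivity
  obtain ⟨Q₀, hQ1, hQ2, hQ3⟩ := Pool.Agent.X117.AR.exists_sep hr0 hE
  have hcard : N + 1 ≤ Q₀.card := by
    have h1 : θ * h ≤ (Q₀.card : ℝ) * (4 * r) := hEv.trans hQ3
    have h2 : θ * h = ((N + 1 : ℕ) : ℝ) * (4 * r) := by
      rw [hr]
      push_cast
      field_simp
    rw [h2] at h1
    exact_mod_cast le_of_mul_le_mul_right h1 (by positivity)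
  obtain ⟨Q₁, hQ₁, hQ₁c⟩ := Finset.exists_subset_card_eq hcard
  set e : ℝ ↪ ℂ := ⟨fun t : ℝ => 1 / 2 + I * (t : ℂ), by
    intro a b hab
    have := congrArg Complex.im hab
    simpa using this⟩ with he
  have hedist : ∀ a b : ℝ, ‖e a - e b‖ = |a - b| := by
    intro a b
    have : e a - e b = I * ((a - b : ℝ) : ℂ) := by
      rw [he]
      simp only [Function.Embedding.coeFn_mk]
      push_cast
      ring
    rw [this, norm_mul, Complex.norm_I, one_mul, Complex.norm_real, Real.norm_eq_abs]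
  set Q : Finset ℂ := Q₁.map e with hQ
  have hQcard : Q.card = N + 1 := by rw [hQ, Finset.card_map, hQ₁c]
  have hmem : ∀ z ∈ Q, ∃ s ∈ E, s ∈ Icc x (x + h) ∧ z = e s ∧ s ∈ Q₁ := by
    intro z hz
    obtain ⟨s, hs, rfl⟩ := Finset.mem_map.1 hz
    exact ⟨s, hQ1 s (hQ₁ hs), hE (hQ1 s (hQ₁ hs)), rfl, hs⟩
  have hcen : ∀ s ∈ Icc x (x + h), ‖e s - c‖ ≤ h / 2 := by
    intro s hs
    have : c = e (x + h / 2) := by rw [hc, he]; rfl
    rw [this, hedist, abs_le]
    constructor <;> linarith [hs.1, hs.2]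
  -- the interpolating function
  set d : ℝ := 2 * r with hd
  have hP : ∀ u, ‖u - c‖ ≤ K * h → ‖lag f Q u‖ ≤ min 1 (τ / 4) * M := by
    intro u hu
    have h1 := lag_bound (f := f) (Q := Q) (u := u) (B := (K + 1) * h) (d := d) (A := ε * M) (by positivity)
      (by positivity) (by
        intro z hz w hw hzw
        obtain ⟨s, -, -, rfl, hs⟩ := hmem z hz
        obtain ⟨s', -, -, rfl, hs'⟩ := hmem w hw
        rw [hedist]
        have hne : s ≠ s' := fun h0 => hzw (by rw [h0])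
        exact (hQ2 s (hQ₁ hs) s' (hQ₁ hs') hne).le) (by
        intro z hz
        obtain ⟨s, hs, -, rfl, -⟩ := hmem z hz
        exact hfE s hs) (by
        intro w hw
        obtain ⟨s, -, hs, rfl, -⟩ := hmem w hw
        have e1 : u - e s = (u - c) - (e s - c) := by ring
        rw [e1]
        have := norm_sub_le (u - c) (e s - c)
        nlinarith [hcen s hs])
    refine h1.trans (le_of_eq ?_)
    rw [hQcard, Nat.add_sub_cancel, ← hεC, hC, hd, hr]
    have e2 : (K + 1) * h / (2 * (θ * h / (4 * (N + 1)))) = 2 * (K + 1) * (N + 1) / θ := by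
      field_simp
      norm_num
    rw [e2]
    push_cast
    ring
  set m : ℝ := min 1 (τ / 4) with hm
  have hm1 : m ≤ 1 := min_le_left _ _
  have hmτ : m ≤ τ / 4 := min_le_right _ _
  have hm0 : 0 < m := by positivity
  set g : ℂ → ℂ := fun u => f u - lag f Q u with hg
  have hgd : DifferentiableOn ℂ g U := hf.sub (lag_diff f Q).differentiableOn
  have hgM : ∀ u, ‖u - c‖ ≤ K * h → ‖g u‖ ≤ 2 * M := by
    intro u hu
    have h1 := norm_sub_le (f u) (lag f Q u)
    have h2 := hM u hu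
    have h3 := hP u hu
    have h4 : m * M ≤ M := by nlinarith
    rw [hg]
    simp only
    linarith
  have hzero : ∀ z ∈ Q, (1 : ℕ∞) ≤ analyticOrderAt g z := by
    intro z hz
    obtain ⟨s, -, hs, rfl, -⟩ := hmem z hz
    have hzU : e s ∈ U := hsub (by
      rw [mem_closedBall, dist_eq_norm]
      nlinarith [hcen s hs])
    have han : AnalyticAt ℂ g (e s) := hgd.analyticAt (hU.mem_nhds hzU)
    have h0 : g (e s) = 0 := by
      rw [hg]
      simp only
      rw [lag_eq hz, sub_self]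
    rw [ENat.one_le_iff_ne_zero]
    intro hcon
    exact (han.analyticOrderAt_eq_zero.1 hcon) h0
  have h5 := schwarz (c := c) (r := h / 2) (R := K * h) (M := 2 * M) hU hgd (by positivity) (by nlinarith) hsub Q
    (fun _ => 1) (fun z hz => by
      obtain ⟨s, -, hs, rfl, -⟩ := hmem z hz
      exact hcen s hs) (fun z hz => by exact_mod_cast hzero z hz) hgM v (by nlinarith)
  have h6 : ∏ z ∈ Q, (‖v - z‖ / (K * h - h / 2)) ^ 1 ≤ (1 / 2 : ℝ) ^ N := by
    calc ∏ z ∈ Q, (‖v - z‖ / (K * h - h / 2)) ^ 1 ≤ ∏ _z ∈ Q, (1 / 2 : ℝ) := by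
          refine Finset.prod_le_prod (fun z _ => by
            rw [pow_one]
            exact div_nonneg (norm_nonneg _) (by nlinarith)) fun z hz => ?_
          obtain ⟨s, -, hs, rfl, -⟩ := hmem z hz
          rw [pow_one, div_le_div_iff₀ (by nlinarith) (by norm_num)]
          have e1 : v - e s = (v - c) - (e s - c) := by ring
          have h12 : ‖v - e s‖ ≤ A * h + h / 2 := by
            rw [e1]
            have := norm_sub_le (v - c) (e s - c)
            linarith [hcen s hs]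
          rw [hK]
          nlinarith
      _ = (1 / 2 : ℝ) ^ (N + 1) := by rw [Finset.prod_const, hQcard]
      _ ≤ (1 / 2 : ℝ) ^ N := pow_le_pow_of_le_one (by norm_num) (by norm_num) (Nat.le_succ N)
  have h7 : ‖g v‖ ≤ 2 * M * (τ / 4) :=
    h5.trans (mul_le_mul_of_nonneg_left (h6.trans hN.le) (by positivity))
  have h8 := hP v (by nlinarith)
  have h9 : f v = g v + lag f Q v := by rw [hg]; simp
  rw [h9]
  refine (norm_add_le _ _).trans ?_
  have h11 : m * M ≤ τ / 4 * M := mul_le_mul_of_nonneg_right hmτ hM0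
  nlinarith

/-- a function whose derivative of some order and whose Taylor coefficients are small is small -/
lemma taylor {c : ℂ} {r : ℝ} (hr : 0 < r) {D B : ℝ} (j : ℕ) : ∀ (f : ℂ → ℂ) (U : Set ℂ), IsOpen U →
    DifferentiableOn ℂ f U → closedBall c r ⊆ U → (∀ i, i < j → ‖iteratedDeriv i f c‖ * r ^ i ≤ D) →
    (∀ z ∈ closedBall c r, ‖iteratedDeriv j f z‖ * r ^ j ≤ B) → ∀ z ∈ closedBall c r, ‖f z‖ ≤ j * D + B := by
  induction j generalizing D B with
  | zero =>
    intro f U _ _ _ _ h2 z hz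
    have := h2 z hz
    simpa using this
  | succ j ih =>
    intro f U hU hf hsub h1 h2 z hz
    have hf' : DifferentiableOn ℂ (deriv f) U := hf.deriv hU
    have h3 := ih (D := D / r) (B := B / r) (deriv f) U hU hf' hsub (by
      intro i hi
      have := h1 (i + 1) (by omega)
      rw [iteratedDeriv_succ', pow_succ] at this
      rw [le_div_iff₀ hr]
      linarith) (by
      intro w hw
      have := h2 w hw
      rw [iteratedDeriv_succ', pow_succ] at this
      rw [le_div_iff₀ hr]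
      linarith)
    have h4 : ‖f z - f c‖ ≤ (j * (D / r) + B / r) * ‖z - c‖ := by
      refine (convex_closedBall c r).norm_image_sub_le_of_norm_deriv_le (f := f) (fun w hw => ?_) h3
        (mem_closedBall_self hr.le) hz
      exact hf.differentiableAt (hU.mem_nhds (hsub hw))
    have h5 : ‖z - c‖ ≤ r := by rwa [mem_closedBall, dist_eq_norm] at hz
    have h6 := h1 0 (by omega)
    rw [iteratedDeriv_zero, pow_zero, mul_one] at h6
    have h7 : 0 ≤ (j * (D / r) + B / r) := (norm_nonneg _).trans (h3 c (mem_closedBall_self hr.le))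
    have h8 : ‖f z - f c‖ ≤ j * D + B := by
      refine h4.trans ((mul_le_mul_of_nonneg_left h5 h7).trans (le_of_eq ?_))
      field_simp
    have h9 : ‖f z‖ ≤ ‖f z - f c‖ + ‖f c‖ := by
      have := norm_add_le (f z - f c) (f c)
      rwa [sub_add_cancel] at this
    push_cast
    linarith

/-- the conditions at a point -/
def Cond (m : ℕ) (A K t h M M₁ V : ℝ) : Prop :=
  1 ≤ t ∧ 0 < h ∧ (2 * A + 4) * h < 1 / 4 ∧
  (∀ s : ℂ, ‖s - (1 / 2 + I * t)‖ ≤ (2 * A + 4) * h → ‖riemannZeta s‖ ≤ M) ∧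
  (∀ s : ℂ, ‖s - (1 / 2 + I * t)‖ ≤ h → ‖riemannZeta s‖ ≤ M₁) ∧ M ≤ K * V ∧
  4 * (m + 1) * m.factorial * A ^ m * M₁ ≤ V ∧ 0 < V ∧
  V ^ 2 ≤ ‖riemannZeta (1 / 2 + I * (t + I * ((A * h : ℝ) : ℂ)))‖ * ‖riemannZeta (1 / 2 - I * (t + I * ((A * h : ℝ) : ℂ)))‖

/-- one derivative -/
theorem one {m j : ℕ} (hj : j ≤ m) {A θ K : ℝ} (hA : 1 ≤ A) (hθ : 0 < θ) (hK : 0 < K) : ∃ lam : ℝ, 0 < lam ∧
    ∀ t h M M₁ V : ℝ, Cond m A K t h M M₁ V → ∀ E : Set ℝ, E ⊆ Icc (t - h / 2) (t + h / 2) →
      (∀ u ∈ E, |iteratedDeriv j Z u| * h ^ j ≤ lam * V) → volume.real E < θ * h := by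
  have hA0 : 0 < A := by linarith
  have hmf : (0 : ℝ) < m.factorial := by exact_mod_cast m.factorial_pos
  set τ : ℝ := 1 / (4 * m.factorial * K * A ^ m) with hτ
  have hτ0 : 0 < τ := by positivity
  obtain ⟨ε, hε, hrem⟩ := remez3 hA hθ hτ0
  refine ⟨ε * (m.factorial * K), by positivity, ?_⟩
  rintro t h M M₁ V ⟨ht, hh, hh4, hM, hM₁, hMK, hMV, hV, hVz⟩ E hE hEs
  by_contra hcon
  have hvol : θ * h ≤ volume.real E := not_lt.1 hcon
  obtain ⟨W, hW1, hW2, hW3⟩ := continuation ht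
  have hWa : AnalyticOnNhd ℂ W (ball (t : ℂ) (1 / 4)) := hW1.analyticOnNhd isOpen_ball
  have hM0 : 0 ≤ M := (norm_nonneg _).trans (hM (1 / 2 + I * t) (by simp; positivity))
  have hM₁0 : 0 ≤ M₁ := (norm_nonneg _).trans (hM₁ (1 / 2 + I * t) (by simp; positivity))
  have hjf : (j.factorial : ℝ) ≤ m.factorial := by exact_mod_cast Nat.factorial_le hj
  -- the bound for the continuation
  have hWM : ∀ z : ℂ, ‖z - t‖ ≤ (2 * A + 4) * h → ‖W z‖ ≤ M := by
    intro z hz
    have hzb : z ∈ ball (t : ℂ) (1 / 4) := by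
      rw [mem_ball, dist_eq_norm]
      linarith
    have h5 : ‖riemannZeta (1 / 2 + I * z)‖ ≤ M := by
      apply hM
      have e1 : (1 / 2 + I * z) - (1 / 2 + I * (t : ℂ)) = I * (z - t) := by ring
      rwa [e1, norm_mul, Complex.norm_I, one_mul]
    have h6 : ‖riemannZeta (1 / 2 - I * z)‖ ≤ M := by
      have e1 : (1 / 2 - I * z) = (starRingEnd ℂ) (1 / 2 + I * (starRingEnd ℂ) z) := by
        rw [map_add, map_mul, Complex.conj_I, Complex.conj_conj, map_div₀, map_one,
          Complex.conj_ofNat]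
        ring
      rw [e1, riemannZeta_conj, Complex.norm_conj]
      apply hM
      have e2 : (1 / 2 + I * (starRingEnd ℂ) z) - (1 / 2 + I * (t : ℂ)) =
          I * (starRingEnd ℂ) (z - t) := by
        rw [map_sub, Complex.conj_ofReal]; ring
      rwa [e2, norm_mul, Complex.norm_I, one_mul, Complex.norm_conj]
    have h7 := hW3 z hzb
    have h8 : ‖W z‖ ^ 2 ≤ M ^ 2 := by
      rw [h7, sq]
      exact mul_le_mul h5 h6 (norm_nonneg _) hM0
    exact (pow_le_pow_iff_left₀ (norm_nonneg _) hM0 two_ne_zero).mp h8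
  -- the derivative
  have hWj : ∀ z : ℂ, ‖z - t‖ ≤ (2 * A + 3) * h → ‖iteratedDeriv j W z‖ * h ^ j ≤ m.factorial * M := by
    intro z hz
    have h1 := Complex.norm_iteratedDeriv_le_of_forall_mem_sphere_norm_le (F := ℂ) (f := W) (c := z) (C := M) j hh (by
      refine DifferentiableOn.diffContOnCl (hW1.mono ?_)
      rw [closure_ball _ hh.ne']
      intro w hw
      rw [mem_closedBall, dist_eq_norm] at hw
      rw [mem_ball, dist_eq_norm]
      have := norm_add_le (w - z) (z - t)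
      rw [sub_add_sub_cancel] at this
      linarith) (by
      intro w hw
      rw [mem_sphere, dist_eq_norm] at hw
      apply hWM
      have := norm_add_le (w - z) (z - t)
      rw [sub_add_sub_cancel] at this
      linarith)
    rw [le_div_iff₀ (by positivity)] at h1
    exact h1.trans (mul_le_mul_of_nonneg_right hjf hM0)
  -- the function in the plane of zeta
  set f : ℂ → ℂ := fun s => (h : ℂ) ^ j * iteratedDeriv j W (-I * (s - 1 / 2)) with hf
  set U : Set ℂ := ball (1 / 2 + I * (t : ℂ)) (1 / 4) with hU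
  have hUW : ∀ s ∈ U, -I * (s - 1 / 2) ∈ ball (t : ℂ) (1 / 4) := by
    intro s hs
    rw [hU, mem_ball, dist_eq_norm] at hs
    rw [mem_ball, dist_eq_norm]
    have e1 : -I * (s - 1 / 2) - t = -I * (s - (1 / 2 + I * t)) := by
      linear_combination (-(t : ℂ)) * Complex.I_mul_I
    rwa [e1, norm_mul, norm_neg, Complex.norm_I, one_mul]
  have hfd : DifferentiableOn ℂ f U := by
    intro s hs
    have h1 : DifferentiableAt ℂ (iteratedDeriv j W) (-I * (s - 1 / 2)) := by
      have := hWa.iterated_deriv j _ (hUW s hs)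
      rw [← iteratedDeriv_eq_iterate] at this
      exact this.differentiableAt
    have h2 : DifferentiableAt ℂ (fun s : ℂ => -I * (s - 1 / 2)) s := by fun_prop
    exact ((h1.comp s h2).const_mul _).differentiableWithinAt
  have ec : (1 / 2 + I * (((t - h / 2) + h / 2 : ℝ) : ℂ)) = 1 / 2 + I * (t : ℂ) := by
    rw [sub_add_cancel]
  have hfn : ∀ s, ‖f s‖ = ‖iteratedDeriv j W (-I * (s - 1 / 2))‖ * h ^ j := by
    intro s
    rw [hf]
    simp only
    rw [norm_mul, norm_pow, Complex.norm_real, Real.norm_eq_abs, abs_of_pos hh, mul_comm]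
  have hdist : ∀ s : ℂ, ‖-I * (s - 1 / 2) - t‖ = ‖s - (1 / 2 + I * t)‖ := by
    intro s
    have e1 : -I * (s - 1 / 2) - t = -I * (s - (1 / 2 + I * t)) := by
      linear_combination (-(t : ℂ)) * Complex.I_mul_I
    rw [e1, norm_mul, norm_neg, Complex.norm_I, one_mul]
  have hreal : ∀ u ∈ E, ‖f (1 / 2 + I * (u : ℂ))‖ ≤ ε * (m.factorial * (K * V)) := by
    intro u hu
    have e1 : -I * ((1 / 2 + I * (u : ℂ)) - 1 / 2) = (u : ℂ) := by
      linear_combination (-(u : ℂ)) * Complex.I_mul_I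
    rw [hfn, e1]
    have hut : |u - t| < 1 / 4 := by
      have := hE hu
      rw [abs_lt]
      constructor <;> nlinarith [this.1, this.2]
    rw [iter_real hW1 hW2 j u hut, Complex.norm_real, Real.norm_eq_abs]
    refine (hEs u hu).trans (le_of_eq ?_)
    ring
  have hfM : ∀ u, ‖u - (1 / 2 + I * (((t - h / 2) + h / 2 : ℝ) : ℂ))‖ ≤ (2 * A + 3) * h →
      ‖f u‖ ≤ m.factorial * (K * V) := by
    intro u hu
    rw [ec] at hu
    rw [hfn]
    have h1 := hWj (-I * (u - 1 / 2)) (by rwa [hdist])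
    exact h1.trans (mul_le_mul_of_nonneg_left hMK hmf.le)
  have hsubU : closedBall (1 / 2 + I * (((t - h / 2) + h / 2 : ℝ) : ℂ)) ((2 * A + 3) * h) ⊆ U := by
    rw [ec]
    exact closedBall_subset_ball (by linarith)
  have hEi : E ⊆ Icc (t - h / 2) (t - h / 2 + h) := by
    have : t - h / 2 + h = t + h / 2 := by ring
    rwa [this]
  have hsmall := hrem f U (t - h / 2) h (m.factorial * (K * V)) isOpen_ball hfd hh hsubU hfM E hEi hvol hreal
  -- back to the plane of `W`
  have hr : 0 < A * h := by positivity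
  have hWb : ∀ z ∈ closedBall (t : ℂ) (A * h), ‖iteratedDeriv j W z‖ * (A * h) ^ j ≤ V / 4 := by
    intro z hz
    rw [mem_closedBall, dist_eq_norm] at hz
    have h1 := hsmall (1 / 2 + I * z) (by
      rw [ec]
      have e1 : (1 / 2 + I * z) - (1 / 2 + I * (t : ℂ)) = I * (z - t) := by ring
      rwa [e1, norm_mul, Complex.norm_I, one_mul])
    have e1 : -I * ((1 / 2 + I * z) - 1 / 2) = z := by
      linear_combination (-z) * Complex.I_mul_I
    rw [hfn, e1] at h1
    have e2 : τ * (m.factorial * (K * V)) = V / (4 * A ^ m) := by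
      rw [hτ]
      field_simp
    rw [e2] at h1
    have h2 : A ^ j ≤ A ^ m := pow_le_pow_right₀ hA hj
    calc ‖iteratedDeriv j W z‖ * (A * h) ^ j = (‖iteratedDeriv j W z‖ * h ^ j) * A ^ j := by
          rw [mul_pow]; ring
      _ ≤ V / (4 * A ^ m) * A ^ m := mul_le_mul h1 h2 (by positivity) (by positivity)
      _ = V / 4 := by field_simp
  have hWi : ∀ i, i < j → ‖iteratedDeriv i W (t : ℂ)‖ * (A * h) ^ i ≤ V / (4 * (m + 1)) := by
    intro i hi
    rw [iter_real hW1 hW2 i t (by simp), Complex.norm_real, Real.norm_eq_abs]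
    have h1 := cauchy ht hh (by nlinarith) hM₁ i
    rw [le_div_iff₀ (by positivity)] at h1
    have h2 : A ^ i ≤ A ^ m := pow_le_pow_right₀ hA (by omega)
    have h3 : (i.factorial : ℝ) ≤ m.factorial := by exact_mod_cast Nat.factorial_le (by omega)
    calc |iteratedDeriv i Z t| * (A * h) ^ i = (|iteratedDeriv i Z t| * h ^ i) * A ^ i := by
          rw [mul_pow]; ring
      _ ≤ (m.factorial * M₁) * A ^ m :=
          mul_le_mul (h1.trans (mul_le_mul_of_nonneg_right h3 hM₁0)) h2 (by positivity) (by positivity)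
      _ ≤ V / (4 * (m + 1)) := by
          rw [le_div_iff₀ (by positivity)]
          linarith
  have hfin := taylor hr j W (ball (t : ℂ) (1 / 4)) isOpen_ball hW1
    (closedBall_subset_ball (by nlinarith)) hWi hWb (t + I * ((A * h : ℝ) : ℂ)) (by
      rw [mem_closedBall, dist_eq_norm, add_sub_cancel_left, norm_mul, Complex.norm_I, one_mul, Complex.norm_real,
        Real.norm_eq_abs, abs_of_pos hr])
  have hz0 : (t : ℂ) + I * ((A * h : ℝ) : ℂ) ∈ ball (t : ℂ) (1 / 4) := by
    rw [mem_ball, dist_eq_norm, add_sub_cancel_left, norm_mul, Complex.norm_I, one_mul, Complex.norm_real,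
      Real.norm_eq_abs, abs_of_pos hr]
    nlinarith
  have h7 := hW3 _ hz0
  rw [← h7] at hVz
  have h8 : V ≤ ‖W (t + I * ((A * h : ℝ) : ℂ))‖ :=
    (pow_le_pow_iff_left₀ hV.le (norm_nonneg _) two_ne_zero).mp hVz
  have h9 : (j : ℝ) * (V / (4 * (m + 1))) ≤ V / 4 := by
    have hjm : (j : ℝ) ≤ m + 1 := by
      have : (j : ℝ) ≤ m := by exact_mod_cast hj
      linarith
    calc (j : ℝ) * (V / (4 * (m + 1))) ≤ (m + 1) * (V / (4 * (m + 1))) :=
          mul_le_mul_of_nonneg_right hjm (by positivity)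
      _ = V / 4 := by field_simp
  linarith

/-- several derivatives -/
theorem many {m : ℕ} {A K : ℝ} (hA : 1 ≤ A) (hK : 0 < K) : ∀ n : ℕ, n ≤ m + 1 → ∀ θ : ℝ, 0 < θ → ∃ lam : ℝ, 0 < lam ∧
    ∀ t h M M₁ V : ℝ, Cond m A K t h M M₁ V → ∀ E : Set ℝ, E ⊆ Icc (t - h / 2) (t + h / 2) →
      (∀ u ∈ E, ∃ j, j < n ∧ |iteratedDeriv j Z u| * h ^ j ≤ lam * V) → volume.real E < θ * h := by
  intro n
  induction n with
  | zero =>
    intro _ θ hθ
    refine ⟨1, one_pos, ?_⟩
    intro t h M M₁ V hc E _ hE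
    have : E = ∅ := by
      rw [Set.eq_empty_iff_forall_notMem]
      intro u hu
      obtain ⟨j, hj, -⟩ := hE u hu
      omega
    rw [this, measureReal_empty]
    exact mul_pos hθ hc.2.1
  | succ n ih =>
    intro hn θ hθ
    obtain ⟨l1, hl1, h1⟩ := ih (by omega) (θ / 2) (by positivity)
    obtain ⟨l2, hl2, h2⟩ := one (m := m) (j := n) (by omega) hA (show 0 < θ / 2 by positivity) hK
    refine ⟨min l1 l2, by positivity, ?_⟩
    intro t h M M₁ V hc E hEi hE
    have hV : 0 < V := hc.2.2.2.2.2.2.2.1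
    set E1 : Set ℝ := {u ∈ E | ∃ j, j < n ∧ |iteratedDeriv j Z u| * h ^ j ≤ l1 * V} with hE1
    set E2 : Set ℝ := {u ∈ E | |iteratedDeriv n Z u| * h ^ n ≤ l2 * V} with hE2
    have hsub : E ⊆ E1 ∪ E2 := by
      intro u hu
      obtain ⟨j, hj, hju⟩ := hE u hu
      rcases Nat.lt_succ_iff_lt_or_eq.1 hj with h3 | h3
      · exact Or.inl ⟨hu, j, h3, hju.trans (mul_le_mul_of_nonneg_right (min_le_left _ _) hV.le)⟩
      · rw [h3] at hju
        exact Or.inr ⟨hu, hju.trans (mul_le_mul_of_nonneg_right (min_le_right _ _) hV.le)⟩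
    have q1 := h1 t h M M₁ V hc E1 (fun u hu => hEi hu.1) fun u hu => hu.2
    have q2 := h2 t h M M₁ V hc E2 (fun u hu => hEi hu.1) fun u hu => hu.2
    have hfin : volume (E1 ∪ E2) ≠ ⊤ := by
      refine ne_top_of_le_ne_top ?_ (measure_mono (t := Icc (t - h / 2) (t + h / 2)) ?_)
      · rw [Real.volume_Icc]
        exact ENNReal.ofReal_ne_top
      · exact union_subset (fun u hu => hEi hu.1) fun u hu => hEi hu.1
    have q3 : volume.real E ≤ volume.real (E1 ∪ E2) := measureReal_mono hsub hfin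
    have q4 := measureReal_union_le (μ := volume) E1 E2
    linarith

/-- the local statement -/
theorem local_all {m : ℕ} {A K δ : ℝ} (hA : 1 ≤ A) (hK : 0 < K) (hδ : 0 < δ) : ∃ lam : ℝ, 0 < lam ∧
    ∀ t h M M₁ V : ℝ, Cond m A K t h M M₁ V → ∀ E : Set ℝ, E ⊆ Icc (t - h / 2) (t + h / 2) →
      δ * h ≤ volume.real E →
      δ / 2 * h ≤ volume.real {u ∈ E | ∀ j, j ≤ m → lam * V ≤ |iteratedDeriv j Z u| * h ^ j} := by
  obtain ⟨lam, hlam, h1⟩ := many (m := m) hA hK (m + 1) le_rfl (δ / 2) (by positivity)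
  refine ⟨lam, hlam, ?_⟩
  intro t h M M₁ V hc E hEi hE
  set S : Set ℝ := {u ∈ E | ∀ j, j ≤ m → lam * V ≤ |iteratedDeriv j Z u| * h ^ j} with hS
  have h2 := h1 t h M M₁ V hc (E \ S) (fun u hu => hEi hu.1) (by
    rintro u ⟨hu, hu2⟩
    by_contra hcon
    push Not at hcon
    exact hu2 ⟨hu, fun j hj => (hcon j (by omega)).le⟩)
  have hfin : volume (S ∪ E \ S) ≠ ⊤ := by
    refine ne_top_of_le_ne_top ?_ (measure_mono (t := Icc (t - h / 2) (t + h / 2)) ?_)
    · rw [Real.volume_Icc]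
      exact ENNReal.ofReal_ne_top
    · exact union_subset (fun u hu => hEi hu.1) fun u hu => hEi hu.1
  have q3 : volume.real E ≤ volume.real (S ∪ E \ S) := measureReal_mono (fun u hu => by
    by_cases h : u ∈ S
    · exact Or.inl h
    · exact Or.inr ⟨hu, h⟩) hfin
  have q4 := measureReal_union_le (μ := volume) S (E \ S)
  linarith

end Pool.Agent.X117.MS
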