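import Pool.Agent.X117.HZ
import Pool.Agent.Y745.EW.Asm
import Pool.Agent.Y745.LD.Final

/-!
# Large and small values of Hardy's function with a given sign

Near an isolated simple zero both signs occur on intervals of length `≍ 1 / log T`; so the mass of the
points with a given sign is a positive proportion of the mass, for the tilted measures.
-/

namespace Pool.Agent.X117.HZ

open Filter Topology MeasureTheory Complex H370
open Pool.Agent.Y745.SW Pool.Agent.Y745.LD Pool.Agent.Y745.EW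

/-- the half interval next to the zero `g` on which `σ Z > 0` -/
def side (σ d g : ℝ) : Set ℝ := {t : ℝ | (0 < σ * deriv Z g ∧ g < t ∧ t < g + d) ∨
  (σ * deriv Z g ≤ 0 ∧ g - d < t ∧ t < g)}

lemma side_eq (σ d g : ℝ) : side σ d g = Set.Ioo g (g + d) ∨ side σ d g = Set.Ioo (g - d) g := by
  by_cases h : 0 < σ * deriv Z g
  · left
    ext t
    constructor
    · rintro (h1 | h1)
      · exact h1.2
      · exact absurd h1.1 (not_le.mpr h)
    · intro h1
      exact Or.inl ⟨h, h1⟩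
  · right
    ext t
    constructor
    · rintro (h1 | h1)
      · exact absurd h1.1 h
      · exact h1.2
    · intro h1
      exact Or.inr ⟨not_lt.mp h, h1⟩

lemma side_meas (σ d g : ℝ) : MeasurableSet (side σ d g) := by
  rcases side_eq σ d g with h | h <;> rw [h] <;> exact measurableSet_Ioo

lemma side_sub {σ d g : ℝ} (hd : 0 < d) : side σ d g ⊆ Set.Ioo (g - d) (g + d) := by
  rcases side_eq σ d g with h | h <;> rw [h]
  · exact Set.Ioo_subset_Ioo (by linarith) le_rfl
  · exact Set.Ioo_subset_Ioo le_rfl (by linarith)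

lemma side_vol {σ d g : ℝ} (hd : 0 < d) : volume.real (side σ d g) = d := by
  rcases side_eq σ d g with h | h <;> rw [h]
  · rw [Real.volume_real_Ioo_of_le (by linarith)]; ring
  · rw [Real.volume_real_Ioo_of_le (by linarith)]; ring

lemma side_sign {σ d g : ℝ} (hσ : σ = 1 ∨ σ = -1) (h0 : Z g = 0) (h1 : deriv Z g ≠ 0)
    (hno : ∀ t, |t - g| < d → Z t = 0 → t = g) : ∀ t ∈ side σ d g, 0 < σ * Z t := by
  have hσ0 : σ ≠ 0 := by rcases hσ with h | h <;> rw [h] <;> norm_num
  have hc : Continuous fun t => σ * Z t := continuous_const.mul Z_cont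
  have hdv : deriv (fun t => σ * Z t) g = σ * deriv Z g := deriv_const_mul_field σ
  have hz : ∀ a b : ℝ, (∀ x ∈ Set.uIcc a b, |x - g| < d ∧ x ≠ g) → 0 < σ * Z a → 0 < σ * Z b := by
    intro a b hab ha
    by_contra hb
    have h2 : (0 : ℝ) ∈ Set.uIcc (σ * Z a) (σ * Z b) := by
      rw [Set.uIcc_of_ge (by linarith [not_lt.mp hb])]
      exact ⟨not_lt.mp hb, ha.le⟩
    have h3 := intermediate_value_uIcc (hc.continuousOn (s := Set.uIcc a b)) h2
    obtain ⟨x, hx, hx0⟩ := h3
    have hx1 : Z x = 0 := by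
      rcases mul_eq_zero.mp hx0 with h | h
      · exact absurd h hσ0
      · exact h
    exact (hab x hx).2 (hno x (hab x hx).1 hx1)
  rintro t (⟨h2, h3, h4⟩ | ⟨h2, h3, h4⟩)
  · have h5 := pos_right (f := fun t => σ * Z t) (u := g) (by simp [h0]) (by rw [hdv]; exact h2)
    obtain ⟨a, ha1, ha2⟩ := (h5.and (Ioo_mem_nhdsGT h3)).exists
    refine hz a t (fun x hx => ?_) ha1
    have h6 : min a t ≤ x := hx.1
    have h7 : x ≤ max a t := hx.2
    rw [min_eq_left ha2.2.le] at h6
    rw [max_eq_right ha2.2.le] at h7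
    refine ⟨?_, ?_⟩
    · rw [abs_lt]; constructor <;> linarith [ha2.1]
    · exact ne_of_gt (lt_of_lt_of_le ha2.1 h6)
  · have h2' : 0 < -σ * deriv Z g := by
      have : σ * deriv Z g ≠ 0 := mul_ne_zero hσ0 h1
      have h8 : σ * deriv Z g < 0 := lt_of_le_of_ne h2 this
      linarith
    have hdv' : deriv (fun t => -σ * Z t) g = -σ * deriv Z g := deriv_const_mul_field (-σ)
    have h5 := neg_left (f := fun t => -σ * Z t) (u := g) (by simp [h0]) (by rw [hdv']; exact h2')
    obtain ⟨a, ha1, ha2⟩ := (h5.and (Ioo_mem_nhdsLT h4)).exists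
    refine hz a t (fun x hx => ?_) (by linarith)
    have h6 : min a t ≤ x := hx.1
    have h7 : x ≤ max a t := hx.2
    rw [min_eq_right ha2.1.le] at h6
    rw [max_eq_left ha2.1.le] at h7
    refine ⟨?_, ?_⟩
    · rw [abs_lt]; constructor <;> linarith [ha2.2]
    · exact ne_of_lt (lt_of_le_of_lt h7 ha2.2)

/-- comparison of the mass of a window and of a small set near it -/
lemma side_mass {V : ℝ → ℝ} {K r g : ℝ} {G J : Set ℝ} (hV : Continuous V) (hV0 : ∀ t, 0 ≤ V t)
    (hK : 0 ≤ K) (hr : 0 ≤ r)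
    (hcmp : ∀ t ∈ G ∩ Set.Icc (g - r) (g + r), ∀ u ∈ J, V t ≤ K * V u) (hG : MeasurableSet G)
    (hJm : MeasurableSet J) {a b : ℝ} (hJb : J ⊆ Set.Icc a b) :
    volume.real J * ∫ t in G ∩ Set.Icc (g - r) (g + r), V t ≤ 2 * r * K * ∫ u in J, V u := by
  set W := G ∩ Set.Icc (g - r) (g + r) with hW
  have hWm : MeasurableSet W := hG.inter measurableSet_Icc
  have hWb : W ⊆ Set.Icc (g - r) (g + r) := Set.inter_subset_right
  have hWt : volume W ≠ ⊤ := (measure_lt_top_of_subset hWb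
    (by rw [Real.volume_Icc]; exact ENNReal.ofReal_ne_top)).ne
  have hJt : volume J ≠ ⊤ := (measure_lt_top_of_subset hJb
    (by rw [Real.volume_Icc]; exact ENNReal.ofReal_ne_top)).ne
  have hWv : volume.real W ≤ 2 * r := by
    have h1 : volume.real W ≤ volume.real (Set.Icc (g - r) (g + r)) :=
      measureReal_mono hWb (by rw [Real.volume_Icc]; exact ENNReal.ofReal_ne_top)
    rw [Real.volume_real_Icc_of_le (by linarith)] at h1
    linarith
  have hVW : IntegrableOn V W := (hV.continuousOn.integrableOn_compact isCompact_Icc).mono_set hWb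
  have hVJ : IntegrableOn V J := (hV.continuousOn.integrableOn_compact isCompact_Icc).mono_set hJb
  have h1 : ∀ u ∈ J, ∫ t in W, V t ≤ 2 * r * K * V u := by
    intro u hu
    have h2 : ∫ t in W, V t ≤ ∫ _ in W, K * V u :=
      setIntegral_mono_on hVW (integrableOn_const hWt) hWm fun t ht => hcmp t ht u hu
    rw [setIntegral_const, smul_eq_mul] at h2
    refine h2.trans ?_
    have h3 : 0 ≤ K * V u := mul_nonneg hK (hV0 u)
    calc volume.real W * (K * V u) ≤ 2 * r * (K * V u) := mul_le_mul_of_nonneg_right hWv h3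
      _ = _ := by ring
  have h2 : ∫ _ in J, (∫ t in W, V t) ≤ ∫ u in J, 2 * r * K * V u :=
    setIntegral_mono_on (integrableOn_const hJt) (hVJ.const_mul _) hJm h1
  rw [setIntegral_const, smul_eq_mul, integral_const_mul] at h2
  exact h2

/-- lower bound for the weight -/
lemma V_ge_exp {κ c A T t A2 : ℝ} (hPW : ∀ z : ℂ, ‖z‖ ≤ A2 * LL T →
    ‖tex (KA A T) ((κ : ℂ) * z) - cexp ((κ : ℂ) * z)‖ ≤ 1 / 2 * Real.exp (κ * z.re))
    (ht : ‖Pc c T t‖ ≤ A2 * LL T) : 1 / 4 * Real.exp (2 * (κ * (Pc c T t).re)) ≤ V κ c A T t := by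
  have h1 := hPW _ ht
  have h2 : 1 / 2 * Real.exp (κ * (Pc c T t).re) ≤ ‖Qk κ c A T t‖ := by
    have h3 : ‖cexp ((κ : ℂ) * Pc c T t)‖ ≤ ‖Qk κ c A T t‖ +
        ‖tex (KA A T) ((κ : ℂ) * Pc c T t) - cexp ((κ : ℂ) * Pc c T t)‖ := by
      unfold Qk
      calc ‖cexp ((κ : ℂ) * Pc c T t)‖ = ‖tex (KA A T) ((κ : ℂ) * Pc c T t) -
          (tex (KA A T) ((κ : ℂ) * Pc c T t) - cexp ((κ : ℂ) * Pc c T t))‖ := by congr 1; ring
        _ ≤ _ := norm_sub_le _ _
    have h4 : ‖cexp ((κ : ℂ) * Pc c T t)‖ = Real.exp (κ * (Pc c T t).re) := by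
      rw [Complex.norm_exp]
      simp
    rw [h4] at h3
    linarith
  unfold V
  have h5 := pow_le_pow_left₀ (by positivity) h2 2
  calc 1 / 4 * Real.exp (2 * (κ * (Pc c T t).re)) = (1 / 2 * Real.exp (κ * (Pc c T t).re)) ^ 2 := by
        rw [mul_pow, ← Real.exp_nat_mul]
        norm_num
    _ ≤ _ := h5

/-- the weight is almost constant on short intervals -/
lemma V_cmp {κ c A T t u A2 e2 : ℝ} (hPW : ∀ z : ℂ, ‖z‖ ≤ A2 * LL T →
    ‖tex (KA A T) ((κ : ℂ) * z) - cexp ((κ : ℂ) * z)‖ ≤ 1 / 2 * Real.exp (κ * z.re))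
    (hL0 : 0 < Real.log T) (ht : t ∈ G2 A2 c e2 T) (hu : |u - t| ≤ Real.log T ^ (e2 - 1)) :
    V κ c A T t ≤ 9 * Real.exp (2 * |κ|) * V κ c A T u := by
  have h1 := (ht 0 (by rw [abs_zero]; exact Real.rpow_nonneg hL0.le _)).1
  rw [add_zero] at h1
  have h2 := ht (u - t) hu
  rw [show t + (u - t) = u by ring] at h2
  have h3 := V_le_exp (κ := κ) (A := A) hPW h1
  have h4 := V_ge_exp (κ := κ) (A := A) hPW h2.1
  have h5 : |(Pc c T u).re - (Pc c T t).re| ≤ 1 := by
    have := Complex.abs_re_le_norm (Pc c T u - Pc c T t)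
    rw [Complex.sub_re] at this
    exact this.trans h2.2
  have h6 : κ * ((Pc c T t).re - (Pc c T u).re) ≤ |κ| := by
    calc κ * ((Pc c T t).re - (Pc c T u).re) ≤ |κ * ((Pc c T t).re - (Pc c T u).re)| := le_abs_self _
      _ = |κ| * |(Pc c T t).re - (Pc c T u).re| := abs_mul _ _
      _ ≤ |κ| * 1 := by
          rw [abs_sub_comm]
          exact mul_le_mul_of_nonneg_left h5 (abs_nonneg _)
      _ = |κ| := mul_one _
  calc V κ c A T t ≤ 9 / 4 * Real.exp (2 * (κ * (Pc c T t).re)) := h3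
    _ ≤ 9 / 4 * (Real.exp (2 * |κ|) * Real.exp (2 * (κ * (Pc c T u).re))) := by
        rw [← Real.exp_add]
        refine mul_le_mul_of_nonneg_left ?_ (by norm_num)
        rw [Real.exp_le_exp]
        linarith
    _ = 9 * Real.exp (2 * |κ|) * (1 / 4 * Real.exp (2 * (κ * (Pc c T u).re))) := by ring
    _ ≤ _ := mul_le_mul_of_nonneg_left h4 (by positivity)

/-- the modulus of `Z` -/
lemma abs_Z (t : ℝ) : |Z t| = ‖riemannZeta (1 / 2 + I * t)‖ := by
  have h1 := congrArg norm (Z_eq t)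
  rw [Complex.norm_real, Real.norm_eq_abs] at h1
  rw [h1]
  unfold Zc
  rw [norm_mul, phase_norm, one_mul]

end Pool.Agent.X117.HZ
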