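import Pool.Agent.X117.Der1
import Pool.Agent.X117.HZ4
import Pool.Agent.X117.Dens1

/-!
# All derivatives of Hardy's function are large together: the global statement
-/

namespace Pool.Agent.X117.MS

open Filter Topology MeasureTheory Complex Set Metric
open Pool.Agent.X117.HZ Pool.Agent.X117.DZ Pool.Agent.X117.SZ Pool.Agent.X117.RM Pool.Agent.X117.JF
open Pool.Agent.X117.DS
open Pool.Agent.W184 (zn zn_nonneg zn_cont)

/-- the `t` in `D` at which the derivatives up to the order `m` are comparable -/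
def comp (m : ℕ) (c : ℝ) (D : Set ℝ) (T : ℝ) : Set ℝ :=
  {t : ℝ | t ∈ D ∧ T ≤ t ∧ t ≤ 2 * T ∧ ∀ j, j ≤ m →
    c * (Real.log T ^ j * |Z t|) ≤ |iteratedDeriv j Z t| ∧ c * |iteratedDeriv j Z t| ≤ Real.log T ^ j * |Z t|}

lemma iter_meas (j : ℕ) : Measurable (iteratedDeriv j Z) := by
  cases j with
  | zero =>
    rw [iteratedDeriv_zero]
    exact Z_cont.measurable
  | succ j =>
    rw [iteratedDeriv_succ]
    exact measurable_deriv _

lemma comp_meas (m : ℕ) (c : ℝ) {D : Set ℝ} (hD : MeasurableSet D) (T : ℝ) : MeasurableSet (comp m c D T) := by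
  have e : comp m c D T = D ∩ Icc T (2 * T) ∩ ⋂ j ∈ Finset.range (m + 1), ({t : ℝ | c * (Real.log T ^ j * |Z t|) ≤
      |iteratedDeriv j Z t|} ∩ {t : ℝ | c * |iteratedDeriv j Z t| ≤ Real.log T ^ j * |Z t|}) := by
    ext t
    simp only [comp, mem_setOf_eq, mem_inter_iff, mem_Icc, mem_iInter, Finset.mem_range]
    constructor
    · rintro ⟨h1, h2, h3, h4⟩
      exact ⟨⟨h1, h2, h3⟩, fun j hj => h4 j (by omega)⟩
    · rintro ⟨⟨h1, h2, h3⟩, h4⟩
      exact ⟨h1, h2, h3, fun j hj => h4 j (by omega)⟩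
  rw [e]
  refine (hD.inter measurableSet_Icc).inter (Finset.measurableSet_biInter _ fun j _ => ?_)
  have h1 : Measurable fun t : ℝ => |iteratedDeriv j Z t| := (iter_meas j).abs
  have h2 : Measurable fun t : ℝ => |Z t| := Z_cont.measurable.abs
  exact (measurableSet_le ((h2.const_mul _).const_mul _) h1).inter (measurableSet_le (h1.const_mul _) (h2.const_mul _))

/-- the inner integral -/
lemma inner_int (g : ℝ → ENNReal) (t h : ℝ) :
    ∫⁻ v in Ioc (-(h / 2)) (h / 2), g (t + v) = ∫⁻ u in Ioc (t - h / 2) (t + h / 2), g u := by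
  rw [← lintegral_indicator measurableSet_Ioc, ← lintegral_indicator measurableSet_Ioc,
    ← lintegral_add_left_eq_self (fun u => (Ioc (t - h / 2) (t + h / 2)).indicator g u) t]
  refine lintegral_congr fun v => ?_
  by_cases hv : v ∈ Ioc (-(h / 2)) (h / 2)
  · rw [indicator_of_mem hv, indicator_of_mem (show t + v ∈ Ioc (t - h / 2) (t + h / 2) from
      ⟨by linarith [hv.1], by linarith [hv.2]⟩)]
  · rw [indicator_of_notMem hv, indicator_of_notMem]
    intro h1
    exact hv ⟨by linarith [h1.1], by linarith [h1.2]⟩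

/-- the inner integral from below -/
lemma inner_low {g : ℝ → ENNReal} {t h w : ℝ} {S : Set ℝ} (hS : S ⊆ Icc (t - h / 2) (t + h / 2))
    (hg : ∀ u ∈ S, ENNReal.ofReal w ≤ g u) {x : ℝ} (hx : x ≤ volume.real S) (hSm : MeasurableSet S) :
    ENNReal.ofReal w * ENNReal.ofReal x ≤ ∫⁻ v in Ioc (-(h / 2)) (h / 2), g (t + v) := by
  rw [inner_int]
  have e : ∫⁻ u in Ioc (t - h / 2) (t + h / 2), g u = ∫⁻ u in Icc (t - h / 2) (t + h / 2), g u :=
    setLIntegral_congr Ioc_ae_eq_Icc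
  rw [e]
  have h1 : ENNReal.ofReal w * ENNReal.ofReal x ≤ ∫⁻ _u in S, ENNReal.ofReal w := by
    rw [setLIntegral_const]
    refine mul_le_mul' le_rfl ?_
    refine (ENNReal.ofReal_le_ofReal hx).trans ?_
    rw [measureReal_def]
    exact ENNReal.ofReal_toReal_le
  exact h1.trans ((setLIntegral_mono' hSm hg).trans (lintegral_mono_set hS))

/-- the comparison of the growth -/
lemma grow : ∃ K0 : ℝ, 0 < K0 ∧ ∀ A L T t y : ℝ, 0 ≤ A → 1 ≤ T → L = Real.log T → 0 < L → y = A / L → y ≤ 1 / 2 → T ≤ t →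
    (Real.exp ((A - K0) / 2) * zn (1 / 2 + y) t) ^ 2 ≤
      ‖riemannZeta (1 / 2 + I * (t + I * ((y : ℝ) : ℂ)))‖ * ‖riemannZeta (1 / 2 - I * (t + I * ((y : ℝ) : ℂ)))‖ := by
  obtain ⟨K, hK, h⟩ := left_low
  refine ⟨K, hK, ?_⟩
  intro A L T t y hA hT hL hL0 hy hy2 hTt
  have hy0 : 0 ≤ y := by rw [hy]; positivity
  have h1 := h y t hy0 hy2 (by linarith)
  have h2 : Real.exp A ≤ t ^ y := by
    have h3 : T ^ y ≤ t ^ y := Real.rpow_le_rpow (by linarith) hTt hy0
    refine le_trans (le_of_eq ?_) h3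
    rw [Real.rpow_def_of_pos (by linarith), ← hL, hy]
    congr 1
    field_simp
  have e1 : (1 / 2 + I * ((t : ℂ) + I * ((y : ℝ) : ℂ))) = (((1 / 2 - y : ℝ) : ℂ) + t * I) := by
    push_cast
    linear_combination (y : ℂ) * Complex.I_mul_I
  have e2 : (1 / 2 - I * ((t : ℂ) + I * ((y : ℝ) : ℂ))) = (starRingEnd ℂ) (((1 / 2 + y : ℝ) : ℂ) + t * I) := by
    rw [map_add, map_mul, Complex.conj_ofReal, Complex.conj_ofReal, Complex.conj_I]
    push_cast
    linear_combination (-(y : ℂ)) * Complex.I_mul_I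
  rw [e1, e2, riemannZeta_conj, Complex.norm_conj]
  have e3 : zn (1 / 2 + y) t = ‖riemannZeta (((1 / 2 + y : ℝ) : ℂ) + t * I)‖ := by
    unfold zn
    rfl
  rw [e3]
  set q := ‖riemannZeta (((1 / 2 + y : ℝ) : ℂ) + t * I)‖ with hq
  have hq0 : 0 ≤ q := norm_nonneg _
  have e4 : (Real.exp ((A - K) / 2) * q) ^ 2 = (Real.exp (-K) * Real.exp A * q) * q := by
    rw [mul_pow, ← Real.exp_nat_mul, ← Real.exp_add]
    have : ((2 : ℕ) : ℝ) * ((A - K) / 2) = -K + A := by push_cast; ring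
    rw [this]
    ring
  rw [e4]
  refine mul_le_mul_of_nonneg_right (le_trans ?_ h1) hq0
  have h5 : 0 < Real.exp (-K) := Real.exp_pos _
  have h6 : Real.exp (-K) * Real.exp A ≤ Real.exp (-K) * t ^ y := mul_le_mul_of_nonneg_left h2 h5.le
  exact mul_le_mul_of_nonneg_right h6 hq0

/-- what the local statement gives at a point -/
lemma at_point {m : ℕ} {A K lam t h M M₁ V u : ℝ} (hlam : 0 < lam) (hA : 1 ≤ A)
    (hc : Cond m A K t h M M₁ V) (hu : u ∈ Icc (t - h / 2) (t + h / 2)) (hu1 : 1 ≤ u)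
    (hl : ∀ j, j ≤ m → lam * V ≤ |iteratedDeriv j Z u| * h ^ j) :
    lam * V ≤ |Z u| ∧ ∀ j, j ≤ m → lam / (m.factorial * K) * |Z u| ≤ |iteratedDeriv j Z u| * h ^ j ∧
      lam / (m.factorial * K) * (|iteratedDeriv j Z u| * h ^ j) ≤ |Z u| := by
  obtain ⟨ht, hh, hh4, hM, -, hMK, -, hV, -⟩ := hc
  have hmf : (1 : ℝ) ≤ m.factorial := by exact_mod_cast m.factorial_pos
  have h0 := hl 0 (Nat.zero_le _)
  rw [iteratedDeriv_zero, pow_zero, mul_one] at h0
  have hMu : ∀ s : ℂ, ‖s - (1 / 2 + I * u)‖ ≤ h → ‖riemannZeta s‖ ≤ M := by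
    intro s hs
    apply hM
    have e1 : s - (1 / 2 + I * (t : ℂ)) = (s - (1 / 2 + I * u)) + I * ((u - t : ℝ) : ℂ) := by
      push_cast
      ring
    have e2 : ‖I * ((u - t : ℝ) : ℂ)‖ ≤ h := by
      rw [norm_mul, Complex.norm_I, one_mul, Complex.norm_real, Real.norm_eq_abs, abs_le]
      constructor <;> linarith [hu.1, hu.2]
    rw [e1]
    refine (norm_add_le _ _).trans ?_
    nlinarith
  have hM0 : 0 ≤ M := (norm_nonneg _).trans (hMu (1 / 2 + I * u) (by simp; exact hh.le))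
  have hK : 0 ≤ K := by
    by_contra hcon
    push Not at hcon
    nlinarith
  have hZM : |Z u| ≤ M := by
    rw [abs_Z]
    exact hMu _ (by simp; exact hh.le)
  have hK0 : 0 < K := by
    rcases hK.lt_or_eq with h1 | h1
    · exact h1
    · exfalso
      rw [← h1, zero_mul] at hMK
      have : 0 < lam * V := by positivity
      linarith
  refine ⟨h0, fun j hj => ⟨?_, ?_⟩⟩
  · refine le_trans ?_ (hl j hj)
    rw [div_mul_eq_mul_div, div_le_iff₀ (by positivity)]
    have h1 : |Z u| ≤ K * V := hZM.trans hMK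
    have h2 : lam * |Z u| ≤ lam * (K * V) := mul_le_mul_of_nonneg_left h1 hlam.le
    have h3 : lam * (K * V) * 1 ≤ lam * (K * V) * m.factorial := mul_le_mul_of_nonneg_left hmf (by positivity)
    calc lam * |Z u| ≤ lam * (K * V) * m.factorial := by linarith
      _ = lam * V * (m.factorial * K) := by ring
  · have h1 := cauchy hu1 hh (by nlinarith) hMu j
    rw [le_div_iff₀ (by positivity)] at h1
    have h2 : (j.factorial : ℝ) ≤ m.factorial := by exact_mod_cast Nat.factorial_le hj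
    have h3 : |iteratedDeriv j Z u| * h ^ j ≤ m.factorial * (K * V) :=
      h1.trans (mul_le_mul h2 hMK hM0 (by positivity))
    rw [div_mul_eq_mul_div, div_le_iff₀ (by positivity)]
    calc lam * (|iteratedDeriv j Z u| * h ^ j) ≤ lam * (m.factorial * (K * V)) :=
          mul_le_mul_of_nonneg_left h3 hlam.le
      _ = (lam * V) * (m.factorial * K) := by ring
      _ ≤ |Z u| * (m.factorial * K) := mul_le_mul_of_nonneg_right h0 (by positivity)

end Pool.Agent.X117.MS
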