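import Pool.Agent.X117.Der2

/-!
# All derivatives of Hardy's function are large together: a positive proportion of the moments
-/

namespace Pool.Agent.X117.MS

open Filter Topology MeasureTheory Complex Set Metric
open Pool.Agent.X117.HZ Pool.Agent.X117.DZ Pool.Agent.X117.SZ Pool.Agent.X117.RM Pool.Agent.X117.JF
open Pool.Agent.X117.DS
open Pool.Agent.W184 (zn zn_nonneg zn_cont)

lemma comp_mono (m : ℕ) {c c' : ℝ} (h : c' ≤ c) (D : Set ℝ) {T : ℝ} (hL : 0 ≤ Real.log T) :
    comp m c D T ⊆ comp m c' D T := by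
  rintro t ⟨h1, h2, h3, h4⟩
  refine ⟨h1, h2, h3, fun j hj => ⟨?_, ?_⟩⟩
  · exact (mul_le_mul_of_nonneg_right h (by positivity)).trans (h4 j hj).1
  · exact (mul_le_mul_of_nonneg_right h (by positivity)).trans (h4 j hj).2

/-- **the derivatives of Hardy's function are comparable on a set that carries a positive proportion of the moment** -/
theorem deriv_mass {k : ℝ} (hk : 0 < k) (hk2 : k ≤ 2) (m : ℕ) {a η : ℝ} (ha : 0 < a) (hη : 0 < η) :
    ∃ c : ℝ, 0 < c ∧ ∀ᶠ T : ℝ in atTop, ∀ D : Set ℝ, MeasurableSet D → RelDense η (a / Real.log T) T D →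
      ENNReal.ofReal (c * (T * Real.log T ^ (k ^ 2))) ≤ ∫⁻ t in comp m c D T, ENNReal.ofReal (|Z t| ^ (2 * k)) := by
  obtain ⟨c, lam, hc, hlam, hlow⟩ := low_shift hk hk2
  obtain ⟨C2, C3, hC2, hC3, hmaj⟩ := major3 hk hk2
  obtain ⟨K0, hK0, hgrow⟩ := grow
  have hmf : (1 : ℝ) ≤ m.factorial := by exact_mod_cast m.factorial_pos
  set b : ℝ := max 1 a with hb
  have hb1 : 1 ≤ b := le_max_left _ _
  have hba : a ≤ b := le_max_right _ _
  set q₀ : ℝ := (4 * (m + 1) * m.factorial) ^ (2 * k) * (a ^ (2 * m * k))⁻¹ * Real.exp (k * K0) *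
    (C2 * Real.exp (C3 * b)) with hq₀
  have hq₀0 : 0 < q₀ := by positivity
  have htend := tendsto_rpow_mul_exp_neg_mul_atTop_nhds_zero (2 * m * k + k ^ 2) k hk
  obtain ⟨A, hA1, hA2, hA3, hA4⟩ := ((htend.eventually (gt_mem_nhds (show 0 < c / 4 / q₀ by positivity))).and
    ((eventually_ge_atTop lam).and ((eventually_ge_atTop 1).and (eventually_ge_atTop a)))).exists
  have hA0 : 0 < A := by linarith
  have hA'1 : 1 ≤ A / a := by rwa [one_le_div ha]
  set W : ℝ := Real.exp (k * (A - K0)) with hW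
  have hW0 : 0 < W := Real.exp_pos _
  set cA : ℝ := c * A ^ (-(k ^ 2)) with hcA
  have hcA0 : 0 < cA := by positivity
  set D1 : ℝ := 4 * (m + 1) * m.factorial * (A / a) ^ m with hD1
  have hD10 : 0 < D1 := by positivity
  have hchoice : D1 ^ (2 * k) * (C2 * Real.exp (C3 * b)) ≤ W * (cA / 4) := by
    have e1 : D1 ^ (2 * k) = (4 * (m + 1) * m.factorial) ^ (2 * k) * (A ^ (2 * m * k) * (a ^ (2 * m * k))⁻¹) := by
      rw [hD1, Real.mul_rpow (by positivity) (by positivity), ← Real.rpow_natCast (A / a) m, ← Real.rpow_mul (by positivity),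
        Real.div_rpow hA0.le ha.le]
      have : (m : ℝ) * (2 * k) = 2 * m * k := by ring
      rw [this, div_eq_mul_inv]
    have e2 : W = Real.exp (k * A) * Real.exp (-(k * K0)) := by
      rw [hW, ← Real.exp_add]
      congr 1
      ring
    have e3 : Real.exp (k * K0) * Real.exp (-(k * K0)) = 1 := by rw [← Real.exp_add, add_neg_cancel, Real.exp_zero]
    have e4 : Real.exp (k * A) * Real.exp (-k * A) = 1 := by
      rw [← Real.exp_add, neg_mul, add_neg_cancel, Real.exp_zero]
    have e5 : A ^ (2 * m * k + k ^ 2) = A ^ (2 * m * k) * A ^ (k ^ 2) := Real.rpow_add hA0 _ _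
    have hAk : 0 < A ^ (k ^ 2) := by positivity
    have e6 : W * (cA / 4) = W * (c / 4) / A ^ (k ^ 2) := by
      rw [hcA, Real.rpow_neg hA0.le]
      field_simp
    rw [e6, le_div_iff₀ hAk]
    rw [lt_div_iff₀ hq₀0, e5] at hA1
    calc D1 ^ (2 * k) * (C2 * Real.exp (C3 * b)) * A ^ (k ^ 2)
        = D1 ^ (2 * k) * (C2 * Real.exp (C3 * b)) * A ^ (k ^ 2) * (Real.exp (k * K0) * Real.exp (-(k * K0))) *
            (Real.exp (k * A) * Real.exp (-k * A)) := by rw [e3, e4, mul_one, mul_one]
      _ = (A ^ (2 * m * k) * A ^ (k ^ 2) * Real.exp (-k * A) * q₀) * W := by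
          rw [e1, hq₀, e2]
          ring
      _ ≤ c / 4 * W := mul_le_mul_of_nonneg_right hA1.le hW0.le
      _ = W * (c / 4) := by ring
  set R : ℝ := 2 * A + 4 * a with hR
  have hR1 : 1 ≤ R := by rw [hR]; linarith
  set B : ℝ := C2 * Real.exp (C3 * R) / (W * (cA / 4)) with hB
  have hB0 : 0 < B := by positivity
  set K : ℝ := B ^ (1 / (2 * k)) with hK
  have hKpos : 0 < K := by positivity
  obtain ⟨lam', hlam', hloc⟩ := local_all (m := m) hA'1 hKpos hη
  set bb : ℝ := max b a⁻¹ with hbb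
  have hbb1 : 1 ≤ bb := hb1.trans (le_max_left _ _)
  have hbb2 : a ≤ bb := hba.trans (le_max_left _ _)
  have hbb3 : a⁻¹ ≤ bb := le_max_right _ _
  have hbb0 : 0 < bb := by linarith
  set c₀ : ℝ := lam' / (m.factorial * K) with hc₀
  have hc₀0 : 0 < c₀ := by positivity
  set c₁ : ℝ := c₀ / bb ^ m with hc₁
  have hc₁0 : 0 < c₁ := by positivity
  set c₂ : ℝ := η / 2 * (lam' ^ (2 * k) * W) * (cA / 2) with hc₂
  have hc₂0 : 0 < c₂ := by positivity
  refine ⟨min c₁ c₂, by positivity, ?_⟩
  filter_upwards [hlow A hA2, hmaj b hb1, hmaj R hR1, eventually_ge_atTop (20 : ℝ),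
    Real.tendsto_log_atTop.eventually_ge_atTop (8 * (R + a))]
    with T q1 q2 q3 hT20 hL8
  intro D hD hDd
  have hL0 : 0 < Real.log T := by linarith
  set L := Real.log T with hL
  have hT0 : 0 < T := by linarith
  set X : ℝ := T * L ^ (k ^ 2) with hX
  have hX0 : 0 < X := by positivity
  obtain ⟨P4, hP4c, hP40, hP4b, hP4i⟩ := q2
  obtain ⟨P3, hP3c, hP30, hP3b, hP3i⟩ := q3
  have hRL : R / L ≤ 1 / 8 := by
    rw [div_le_div_iff₀ hL0 (by norm_num)]
    linarith
  have haL : a / L ≤ 1 / 8 := by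
    rw [div_le_div_iff₀ hL0 (by norm_num)]
    linarith
  have hAL : A / L ≤ 1 / 8 := (div_le_div_of_nonneg_right (by rw [hR]; linarith) hL0.le).trans hRL
  set h : ℝ := a / L with hh
  have hh0 : 0 < h := by positivity
  have hAh : A / a * h = A / L := by rw [hh]; field_simp
  have hRh : (2 * (A / a) + 4) * h = R / L := by rw [hh, hR]; field_simp
  set v : ℝ → ℝ := fun t => zn (1 / 2 + A / L) t ^ (2 * k) with hv
  have hv0 : ∀ t, 0 ≤ v t := fun t => Real.rpow_nonneg (zn_nonneg _ _) _
  have hvc : Continuous v := (zn_cont (by linarith)).rpow_const fun _ => Or.inr (by positivity)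
  set I₀ : Set ℝ := Ioc (5 / 4 * T) (7 / 4 * T) with hI₀
  set G₀ : Set ℝ := {t : ℝ | D1 ^ (2 * k) * P4 t ≤ W * v t ∧ P3 t ≤ B * (W * v t) ∧ 0 < v t} with hG₀
  have hG₀m : MeasurableSet G₀ := by
    refine (measurableSet_le (hP4c.measurable.const_mul _) (hvc.measurable.const_mul _)).inter
      ((measurableSet_le hP3c.measurable ((hvc.measurable.const_mul _).const_mul _)).inter
        (measurableSet_lt measurable_const hvc.measurable))
  set w : ℝ → ENNReal := fun t => ENNReal.ofReal (v t) with hw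
  set J : ENNReal := ∫⁻ t in comp m c₁ D T, ENNReal.ofReal (|Z t| ^ (2 * k)) with hJ
  -- the lower bound
  have s1 : ENNReal.ofReal (cA * X) ≤ ∫⁻ t in I₀, w t := by
    rw [hw, hI₀, ← ofReal_integral_eq_lintegral_ofReal, ← intervalIntegral.integral_of_le (by linarith)]
    · exact ENNReal.ofReal_le_ofReal q1
    · exact hvc.integrableOn_Icc.mono_set Ioc_subset_Icc_self
    · exact Filter.Eventually.of_forall hv0
  -- the bad points
  have s2 : ∫⁻ t in I₀ \ G₀, w t ≤ ENNReal.ofReal (cA * X / 2) := by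
    have h1 : ∫⁻ t in I₀ \ G₀, w t ≤ ∫⁻ t in I₀ \ G₀,
        ENNReal.ofReal (D1 ^ (2 * k) / W * P4 t + 1 / (B * W) * P3 t) := by
      refine setLIntegral_mono' (measurableSet_Ioc.diff hG₀m) fun t ht => ENNReal.ofReal_le_ofReal ?_
      have hp4 := hP40 t
      have hp3 := hP30 t
      have n1 : 0 ≤ D1 ^ (2 * k) / W * P4 t := by positivity
      have n2 : 0 ≤ 1 / (B * W) * P3 t := by positivity
      by_contra hcon
      push Not at hcon
      refine ht.2 ⟨?_, ?_, by linarith⟩
      · have h2 : D1 ^ (2 * k) / W * P4 t ≤ v t := by linarith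
        rw [div_mul_eq_mul_div, div_le_iff₀ hW0] at h2
        linarith
      · have h2 : 1 / (B * W) * P3 t ≤ v t := by linarith
        rw [div_mul_eq_mul_div, div_le_iff₀ (by positivity), one_mul] at h2
        linarith
    have h2 : ∫⁻ t in I₀ \ G₀, ENNReal.ofReal (D1 ^ (2 * k) / W * P4 t + 1 / (B * W) * P3 t) ≤
        ∫⁻ t in Icc T (2 * T), ENNReal.ofReal (D1 ^ (2 * k) / W * P4 t + 1 / (B * W) * P3 t) := by
      refine lintegral_mono_set fun t ht => ?_
      obtain ⟨⟨h2, h3⟩, -⟩ := ht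
      exact ⟨by linarith, by linarith⟩
    refine h1.trans (h2.trans ?_)
    have e1 : ∀ t, ENNReal.ofReal (D1 ^ (2 * k) / W * P4 t + 1 / (B * W) * P3 t) =
        ENNReal.ofReal (D1 ^ (2 * k) / W) * ENNReal.ofReal (P4 t) + ENNReal.ofReal (1 / (B * W)) *
          ENNReal.ofReal (P3 t) := by
      intro t
      have hp4 := hP40 t
      have hp3 := hP30 t
      rw [ENNReal.ofReal_add (by positivity) (by positivity), ENNReal.ofReal_mul (by positivity),
        ENNReal.ofReal_mul (by positivity)]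
    simp_rw [e1]
    rw [lintegral_add_left ((hP4c.measurable.ennreal_ofReal).const_mul _),
      lintegral_const_mul' _ _ ENNReal.ofReal_ne_top, lintegral_const_mul' _ _ ENNReal.ofReal_ne_top]
    refine (add_le_add (mul_le_mul' le_rfl hP4i) (mul_le_mul' le_rfl hP3i)).trans ?_
    rw [← ENNReal.ofReal_mul (by positivity), ← ENNReal.ofReal_mul (by positivity),
      ← ENNReal.ofReal_add (by positivity) (by positivity)]
    refine ENNReal.ofReal_le_ofReal ?_
    have h3 : D1 ^ (2 * k) / W * (C2 * Real.exp (C3 * b) * X) ≤ cA / 4 * X := by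
      have e7 : D1 ^ (2 * k) / W * (C2 * Real.exp (C3 * b) * X) =
          (D1 ^ (2 * k) * (C2 * Real.exp (C3 * b))) / W * X := by ring
      rw [e7]
      refine mul_le_mul_of_nonneg_right ?_ hX0.le
      rw [div_le_iff₀ hW0]
      linarith
    have h4 : 1 / (B * W) * (C2 * Real.exp (C3 * R) * X) = cA / 4 * X := by
      rw [hB]
      field_simp
    linarith
  -- the good points
  set g : ℝ → ENNReal := (comp m c₁ D T).indicator fun t => ENNReal.ofReal (|Z t| ^ (2 * k)) with hg
  have hZm : Measurable fun t : ℝ => ENNReal.ofReal (|Z t| ^ (2 * k)) :=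
    (Z_cont.measurable.abs.pow_const _).ennreal_ofReal
  have hcm : MeasurableSet (comp m c₁ D T) := comp_meas m c₁ hD T
  have hgm : Measurable g := hZm.indicator hcm
  have hgJ : ∫⁻ t, g t = J := by
    rw [hg, lintegral_indicator hcm, hJ]
  set ω : ℝ := η / 2 * h * (lam' ^ (2 * k) * W) with hω
  have hω0 : 0 < ω := by positivity
  have s3 : ∀ t ∈ I₀ ∩ G₀, ENNReal.ofReal ω * w t ≤ ∫⁻ u in Ioc (-(h / 2)) (h / 2), g (t + u) := by
    rintro t ⟨⟨h2, h3⟩, h4, h5, h6⟩
    have hIcc : t ∈ Icc T (2 * T) := ⟨by linarith, by linarith⟩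
    set y : ℝ := zn (1 / 2 + A / L) t with hy
    have hy0 : 0 ≤ y := zn_nonneg _ _
    set V : ℝ := Real.exp ((A - K0) / 2) * y with hV
    have hypos : 0 < y := by
      rcases hy0.lt_or_eq with h7 | h7
      · exact h7
      · exfalso
        have : v t = 0 := by
          rw [hv]
          simp only
          rw [← hy, ← h7, Real.zero_rpow (by positivity)]
        linarith
    have hV0 : 0 < V := by positivity
    have hVk : V ^ (2 * k) = W * v t := by
      rw [hV, Real.mul_rpow (Real.exp_pos _).le hy0, ← Real.exp_mul, hW, hv]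
      congr 2
      ring
    set M : ℝ := P3 t ^ (1 / (2 * k)) with hM
    set M₁ : ℝ := P4 t ^ (1 / (2 * k)) with hM₁
    have hroot : ∀ (P x : ℝ), 0 ≤ x → x ^ (2 * k) ≤ P → x ≤ P ^ (1 / (2 * k)) := by
      intro P x hx h7
      have h8 := Real.rpow_le_rpow (Real.rpow_nonneg hx _) h7 (show 0 ≤ 1 / (2 * k) by positivity)
      rwa [← Real.rpow_mul hx, mul_one_div_cancel (by positivity), Real.rpow_one] at h8
    have hrootinv : ∀ x : ℝ, 0 ≤ x → (x ^ (2 * k)) ^ (1 / (2 * k)) = x := by
      intro x hx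
      rw [← Real.rpow_mul hx, mul_one_div_cancel (by positivity), Real.rpow_one]
    have hcond : Cond m (A / a) K t h M M₁ V := by
      refine ⟨by linarith, hh0, by rw [hRh]; linarith, ?_, ?_, ?_, ?_, hV0, ?_⟩
      · intro s hs
        rw [hRh] at hs
        exact hroot _ _ (norm_nonneg _) (hP3b t hIcc s hs)
      · intro s hs
        refine hroot _ _ (norm_nonneg _) (hP4b t hIcc s (hs.trans ?_))
        exact div_le_div_of_nonneg_right hba hL0.le
      · have h7 := Real.rpow_le_rpow (hP30 t) h5 (show 0 ≤ 1 / (2 * k) by positivity)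
        rw [Real.mul_rpow hB0.le (by positivity), ← hVk, hrootinv V hV0.le] at h7
        exact h7
      · have h7 := Real.rpow_le_rpow (mul_nonneg (by positivity) (hP40 t)) h4 (show 0 ≤ 1 / (2 * k) by positivity)
        rw [Real.mul_rpow (by positivity) (hP40 t), ← hVk, hrootinv V hV0.le, hrootinv D1 hD10.le] at h7
        rw [hD1] at h7
        exact h7
      · rw [hAh, hV, hy]
        exact hgrow A L T t (A / L) hA0.le (by linarith) hL hL0 rfl (by linarith) (by linarith)
    have hE := hloc t h M M₁ V hcond (D ∩ Icc (t - h / 2) (t + h / 2)) inter_subset_right (by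
      have h7 := hDd (t - h / 2) (by linarith) (by linarith)
      have e8 : t - h / 2 + h = t + h / 2 := by ring
      rwa [e8] at h7)
    set S : Set ℝ := {u ∈ D ∩ Icc (t - h / 2) (t + h / 2) | ∀ j, j ≤ m → lam' * V ≤ |iteratedDeriv j Z u| * h ^ j}
      with hS
    have hSm : MeasurableSet S := by
      have e9 : S = (D ∩ Icc (t - h / 2) (t + h / 2)) ∩ ⋂ j ∈ Finset.range (m + 1),
          {u : ℝ | lam' * V ≤ |iteratedDeriv j Z u| * h ^ j} := by
        ext u
        simp only [hS, mem_setOf_eq, mem_inter_iff, mem_iInter, Finset.mem_range]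
        constructor
        · rintro ⟨p1, p2⟩
          exact ⟨p1, fun j hj => p2 j (by omega)⟩
        · rintro ⟨p1, p2⟩
          exact ⟨p1, fun j hj => p2 j (by omega)⟩
      rw [e9]
      refine (hD.inter measurableSet_Icc).inter (Finset.measurableSet_biInter _ fun j _ => ?_)
      exact measurableSet_le measurable_const ((iter_meas j).abs.mul_const _)
    have hSg : ∀ u ∈ S, ENNReal.ofReal ((lam' * V) ^ (2 * k)) ≤ g u := by
      rintro u ⟨⟨p1, p2⟩, p3⟩
      have hu1 : 1 ≤ u := by linarith [p2.1]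
      obtain ⟨r1, r2⟩ := at_point hlam' hA'1 hcond p2 hu1 p3
      have hmem : u ∈ comp m c₁ D T := by
        refine ⟨p1, by linarith [p2.1], by linarith [p2.2], fun j hj => ?_⟩
        obtain ⟨r3, r4⟩ := r2 j hj
        have e10 : |iteratedDeriv j Z u| * h ^ j = |iteratedDeriv j Z u| * a ^ j / L ^ j := by
          rw [hh, div_pow]
          ring
        have hLj : 0 < L ^ j := by positivity
        have haj1 : a ^ j ≤ bb ^ m := (pow_le_pow_left₀ ha.le hbb2 j).trans (pow_le_pow_right₀ hbb1 hj)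
        have haj2 : (a⁻¹) ^ j ≤ bb ^ m := (pow_le_pow_left₀ (by positivity) hbb3 j).trans (pow_le_pow_right₀ hbb1 hj)
        have hbm : 0 < bb ^ m := by positivity
        rw [e10] at r3 r4
        constructor
        · rw [le_div_iff₀ hLj] at r3
          have h8 : c₀ * |Z u| * L ^ j ≤ |iteratedDeriv j Z u| * bb ^ m :=
            r3.trans (mul_le_mul_of_nonneg_left haj1 (abs_nonneg _))
          rw [hc₁, div_mul_eq_mul_div, div_le_iff₀ hbm]
          linarith
        · have h8 : c₀ * (|iteratedDeriv j Z u| * a ^ j) ≤ |Z u| * L ^ j := by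
            rw [← mul_div_assoc, div_le_iff₀ hLj] at r4
            exact r4
          have h9 : |iteratedDeriv j Z u| * 1 ≤ |iteratedDeriv j Z u| * (a ^ j * bb ^ m) := by
            refine mul_le_mul_of_nonneg_left ?_ (abs_nonneg _)
            have h10 : a ^ j * (a⁻¹) ^ j = 1 := by
              rw [← mul_pow, mul_inv_cancel₀ ha.ne', one_pow]
            calc (1 : ℝ) = a ^ j * (a⁻¹) ^ j := h10.symm
              _ ≤ a ^ j * bb ^ m := mul_le_mul_of_nonneg_left haj2 (by positivity)
          rw [hc₁, div_mul_eq_mul_div, div_le_iff₀ hbm]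
          calc c₀ * |iteratedDeriv j Z u| = c₀ * (|iteratedDeriv j Z u| * 1) := by ring
            _ ≤ c₀ * (|iteratedDeriv j Z u| * (a ^ j * bb ^ m)) := mul_le_mul_of_nonneg_left h9 hc₀0.le
            _ = c₀ * (|iteratedDeriv j Z u| * a ^ j) * bb ^ m := by ring
            _ ≤ |Z u| * L ^ j * bb ^ m := mul_le_mul_of_nonneg_right h8 hbm.le
            _ = L ^ j * |Z u| * bb ^ m := by ring
      rw [hg, indicator_of_mem hmem]
      refine ENNReal.ofReal_le_ofReal ?_
      exact Real.rpow_le_rpow (by positivity) r1 (by positivity)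
    have h8 := inner_low (g := g) (t := t) (h := h) (w := (lam' * V) ^ (2 * k)) (S := S)
      (fun u hu => hu.1.2) hSg hE hSm
    refine le_trans (le_of_eq ?_) h8
    rw [hw, ← ENNReal.ofReal_mul hω0.le, ← ENNReal.ofReal_mul (by positivity)]
    congr 1
    rw [Real.mul_rpow hlam'.le hV0.le, hVk, hω]
    ring
  have s4 : ENNReal.ofReal ω * ∫⁻ t in I₀ ∩ G₀, w t ≤ ENNReal.ofReal h * J := by
    rw [← lintegral_const_mul' _ _ ENNReal.ofReal_ne_top, ← hgJ]
    exact (setLIntegral_mono' (measurableSet_Ioc.inter hG₀m) s3).trans (shift_int hgm _)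
  -- conclusion
  have s5 : ENNReal.ofReal (cA * X / 2) ≤ ∫⁻ t in I₀ ∩ G₀, w t := by
    have h1 : ENNReal.ofReal (cA * X) ≤ ENNReal.ofReal (cA * X / 2) + ∫⁻ t in I₀ ∩ G₀, w t := by
      refine s1.trans ?_
      have hsub : I₀ ⊆ (I₀ \ G₀) ∪ (I₀ ∩ G₀) := by
        intro t ht
        by_cases h1 : t ∈ G₀
        · exact Or.inr ⟨ht, h1⟩
        · exact Or.inl ⟨ht, h1⟩
      exact (lintegral_mono_set hsub).trans ((lintegral_union_le _ _ _).trans (add_le_add s2 le_rfl))
    have e6 : ENNReal.ofReal (cA * X) = ENNReal.ofReal (cA * X / 2) + ENNReal.ofReal (cA * X / 2) := by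
      rw [← ENNReal.ofReal_add (by positivity) (by positivity)]
      congr 1
      ring
    rw [e6] at h1
    exact (ENNReal.add_le_add_iff_left ENNReal.ofReal_ne_top).1 h1
  have s6 : ENNReal.ofReal (c₂ * X) ≤ J := by
    have h1 : ENNReal.ofReal ω * ENNReal.ofReal (cA * X / 2) ≤ ENNReal.ofReal h * J :=
      (mul_le_mul' le_rfl s5).trans s4
    have e7 : ENNReal.ofReal ω * ENNReal.ofReal (cA * X / 2) = ENNReal.ofReal h * ENNReal.ofReal (c₂ * X) := by
      rw [← ENNReal.ofReal_mul hω0.le, ← ENNReal.ofReal_mul hh0.le]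
      congr 1
      rw [hω, hc₂]
      ring
    rw [e7] at h1
    have hne : ENNReal.ofReal h ≠ 0 := by
      rw [Ne, ENNReal.ofReal_eq_zero, not_le]
      exact hh0
    exact (ENNReal.mul_le_mul_iff_right hne ENNReal.ofReal_ne_top).1 h1
  have s7 : ENNReal.ofReal (min c₁ c₂ * X) ≤ ENNReal.ofReal (c₂ * X) :=
    ENNReal.ofReal_le_ofReal (mul_le_mul_of_nonneg_right (min_le_right _ _) hX0.le)
  refine s7.trans (s6.trans ?_)
  exact lintegral_mono_set (comp_mono m (min_le_left _ _) D hL0.le)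

end Pool.Agent.X117.MS
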