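import Pool.Agent.X117.Der4

/-!
# Good points
-/

namespace Pool.Agent.X117.MS

open Filter Topology MeasureTheory Complex Set Metric
open Pool.Agent.X117.HZ Pool.Agent.X117.DZ Pool.Agent.X117.SZ Pool.Agent.X117.RM Pool.Agent.X117.JF
open Pool.Agent.X117.DS
open Pool.Agent.W184 (zn zn_nonneg zn_cont)

/-- many points at which zeta is large and the derivatives nearby as well -/
theorem good_set {k : ℝ} (hk : 0 < k) (hk2 : k ≤ 2) (m : ℕ) :
    ∃ lam' c : ℝ, 0 < lam' ∧ 0 < c ∧ ∀ᶠ T : ℝ in atTop, ∃ (G : Set ℝ) (V : ℝ → ℝ), MeasurableSet G ∧ Measurable V ∧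
      G ⊆ Ioc (5 / 4 * T) (7 / 4 * T) ∧ (∀ t ∈ G, 0 < V t) ∧
      ENNReal.ofReal (c * (T * Real.log T ^ (k ^ 2))) ≤ ∫⁻ t in G, ENNReal.ofReal (V t ^ (2 * k)) ∧
      ∀ t ∈ G, 1 / 2 * (1 / Real.log T) ≤ volume.real {u ∈ Icc (t - 1 / Real.log T / 2) (t + 1 / Real.log T / 2) |
        ∀ j, j ≤ m → lam' * V t ≤ |iteratedDeriv j Z u| * (1 / Real.log T) ^ j} := by
  set a : ℝ := 1 with ha1
  have ha : 0 < a := by rw [ha1]; norm_num
  set η : ℝ := 1 with hη1
  have hη : 0 < η := by rw [hη1]; norm_num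
  obtain ⟨c, lam, hc, hlam, hlow⟩ := low_shift hk hk2
  obtain ⟨C2, C3, hC2, hC3, hmaj⟩ := major3 hk hk2
  obtain ⟨K0, hK0, hgrow⟩ := grow
  have hmf : (1 : ℝ) ≤ m.factorial := by exact_mod_cast m.factorial_pos
  set b : ℝ := max 1 a with hb
  have hb1 : 1 ≤ b := le_max_left _ _
  have hba : a ≤ b := le_max_right _ _
  set q₀ : ℝ := (4 * (m + 1) * m.factorial) ^ (2 * k) * (a ^ (2 * m * k))⁻¹ * Real.exp (k * K0) *
    (C2 * Real.exp (C3 * b)) with hq₀
  have hq₀0 : 0 < q₀ := by positivity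
  have htend := tendsto_rpow_mul_exp_neg_mul_atTop_nhds_zero (2 * m * k + k ^ 2) k hk
  obtain ⟨A, hA1, hA2, hA3, hA4⟩ := ((htend.eventually (gt_mem_nhds (show 0 < c / 4 / q₀ by positivity))).and
    ((eventually_ge_atTop lam).and ((eventually_ge_atTop 1).and (eventually_ge_atTop a)))).exists
  have hA0 : 0 < A := by linarith
  have hA'1 : 1 ≤ A / a := by rwa [one_le_div ha]
  set W : ℝ := Real.exp (k * (A - K0)) with hW
  have hW0 : 0 < W := Real.exp_pos _
  set cA : ℝ := c * A ^ (-(k ^ 2)) with hcA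
  have hcA0 : 0 < cA := by positivity
  set D1 : ℝ := 4 * (m + 1) * m.factorial * (A / a) ^ m with hD1
  have hD10 : 0 < D1 := by positivity
  have hchoice : D1 ^ (2 * k) * (C2 * Real.exp (C3 * b)) ≤ W * (cA / 4) := by
    have e1 : D1 ^ (2 * k) = (4 * (m + 1) * m.factorial) ^ (2 * k) * (A ^ (2 * m * k) * (a ^ (2 * m * k))⁻¹) := by
      rw [hD1, Real.mul_rpow (by positivity) (by positivity), ← Real.rpow_natCast (A / a) m, ← Real.rpow_mul (by positivity),
        Real.div_rpow hA0.le ha.le]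
      have : (m : ℝ) * (2 * k) = 2 * m * k := by ring
      rw [this, div_eq_mul_inv]
    have e2 : W = Real.exp (k * A) * Real.exp (-(k * K0)) := by
      rw [hW, ← Real.exp_add]
      congr 1
      ring
    have e3 : Real.exp (k * K0) * Real.exp (-(k * K0)) = 1 := by rw [← Real.exp_add, add_neg_cancel, Real.exp_zero]
    have e4 : Real.exp (k * A) * Real.exp (-k * A) = 1 := by
      rw [← Real.exp_add, neg_mul, add_neg_cancel, Real.exp_zero]
    have e5 : A ^ (2 * m * k + k ^ 2) = A ^ (2 * m * k) * A ^ (k ^ 2) := Real.rpow_add hA0 _ _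
    have hAk : 0 < A ^ (k ^ 2) := by positivity
    have e6 : W * (cA / 4) = W * (c / 4) / A ^ (k ^ 2) := by
      rw [hcA, Real.rpow_neg hA0.le]
      field_simp
    rw [e6, le_div_iff₀ hAk]
    rw [lt_div_iff₀ hq₀0, e5] at hA1
    calc D1 ^ (2 * k) * (C2 * Real.exp (C3 * b)) * A ^ (k ^ 2)
        = D1 ^ (2 * k) * (C2 * Real.exp (C3 * b)) * A ^ (k ^ 2) * (Real.exp (k * K0) * Real.exp (-(k * K0))) *
            (Real.exp (k * A) * Real.exp (-k * A)) := by rw [e3, e4, mul_one, mul_one]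
      _ = (A ^ (2 * m * k) * A ^ (k ^ 2) * Real.exp (-k * A) * q₀) * W := by
          rw [e1, hq₀, e2]
          ring
      _ ≤ c / 4 * W := mul_le_mul_of_nonneg_right hA1.le hW0.le
      _ = W * (c / 4) := by ring
  set R : ℝ := 2 * A + 4 * a with hR
  have hR1 : 1 ≤ R := by rw [hR]; linarith
  set B : ℝ := C2 * Real.exp (C3 * R) / (W * (cA / 4)) with hB
  have hB0 : 0 < B := by positivity
  set K : ℝ := B ^ (1 / (2 * k)) with hK
  have hKpos : 0 < K := by positivity
  obtain ⟨lam', hlam', hloc⟩ := local_all (m := m) hA'1 hKpos hη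
  refine ⟨lam', W * (cA / 2), hlam', by positivity, ?_⟩
  filter_upwards [hlow A hA2, hmaj b hb1, hmaj R hR1, eventually_ge_atTop (20 : ℝ),
    Real.tendsto_log_atTop.eventually_ge_atTop (8 * (R + a))]
    with T q1 q2 q3 hT20 hL8
  have hL0 : 0 < Real.log T := by linarith
  set L := Real.log T with hL
  have hT0 : 0 < T := by linarith
  set X : ℝ := T * L ^ (k ^ 2) with hX
  have hX0 : 0 < X := by positivity
  obtain ⟨P4, hP4c, hP40, hP4b, hP4i⟩ := q2
  obtain ⟨P3, hP3c, hP30, hP3b, hP3i⟩ := q3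
  have hRL : R / L ≤ 1 / 8 := by
    rw [div_le_div_iff₀ hL0 (by norm_num)]
    linarith
  have haL : a / L ≤ 1 / 8 := by
    rw [div_le_div_iff₀ hL0 (by norm_num)]
    linarith
  have hAL : A / L ≤ 1 / 8 := (div_le_div_of_nonneg_right (by rw [hR]; linarith) hL0.le).trans hRL
  set h : ℝ := a / L with hh
  have hh0 : 0 < h := by positivity
  have hAh : A / a * h = A / L := by rw [hh]; field_simp
  have hRh : (2 * (A / a) + 4) * h = R / L := by rw [hh, hR]; field_simp
  set v : ℝ → ℝ := fun t => zn (1 / 2 + A / L) t ^ (2 * k) with hv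
  have hv0 : ∀ t, 0 ≤ v t := fun t => Real.rpow_nonneg (zn_nonneg _ _) _
  have hvc : Continuous v := (zn_cont (by linarith)).rpow_const fun _ => Or.inr (by positivity)
  set I₀ : Set ℝ := Ioc (5 / 4 * T) (7 / 4 * T) with hI₀
  set G₀ : Set ℝ := {t : ℝ | D1 ^ (2 * k) * P4 t ≤ W * v t ∧ P3 t ≤ B * (W * v t) ∧ 0 < v t} with hG₀
  have hG₀m : MeasurableSet G₀ := by
    refine (measurableSet_le (hP4c.measurable.const_mul _) (hvc.measurable.const_mul _)).inter
      ((measurableSet_le hP3c.measurable ((hvc.measurable.const_mul _).const_mul _)).inter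
        (measurableSet_lt measurable_const hvc.measurable))
  set w : ℝ → ENNReal := fun t => ENNReal.ofReal (v t) with hw
  -- the lower bound
  have s1 : ENNReal.ofReal (cA * X) ≤ ∫⁻ t in I₀, w t := by
    rw [hw, hI₀, ← ofReal_integral_eq_lintegral_ofReal, ← intervalIntegral.integral_of_le (by linarith)]
    · exact ENNReal.ofReal_le_ofReal q1
    · exact hvc.integrableOn_Icc.mono_set Ioc_subset_Icc_self
    · exact Filter.Eventually.of_forall hv0
  -- the bad points
  have s2 : ∫⁻ t in I₀ \ G₀, w t ≤ ENNReal.ofReal (cA * X / 2) := by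
    have h1 : ∫⁻ t in I₀ \ G₀, w t ≤ ∫⁻ t in I₀ \ G₀,
        ENNReal.ofReal (D1 ^ (2 * k) / W * P4 t + 1 / (B * W) * P3 t) := by
      refine setLIntegral_mono' (measurableSet_Ioc.diff hG₀m) fun t ht => ENNReal.ofReal_le_ofReal ?_
      have hp4 := hP40 t
      have hp3 := hP30 t
      have n1 : 0 ≤ D1 ^ (2 * k) / W * P4 t := by positivity
      have n2 : 0 ≤ 1 / (B * W) * P3 t := by positivity
      by_contra hcon
      push Not at hcon
      refine ht.2 ⟨?_, ?_, by linarith⟩
      · have h2 : D1 ^ (2 * k) / W * P4 t ≤ v t := by linarith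
        rw [div_mul_eq_mul_div, div_le_iff₀ hW0] at h2
        linarith
      · have h2 : 1 / (B * W) * P3 t ≤ v t := by linarith
        rw [div_mul_eq_mul_div, div_le_iff₀ (by positivity), one_mul] at h2
        linarith
    have h2 : ∫⁻ t in I₀ \ G₀, ENNReal.ofReal (D1 ^ (2 * k) / W * P4 t + 1 / (B * W) * P3 t) ≤
        ∫⁻ t in Icc T (2 * T), ENNReal.ofReal (D1 ^ (2 * k) / W * P4 t + 1 / (B * W) * P3 t) := by
      refine lintegral_mono_set fun t ht => ?_
      obtain ⟨⟨h2, h3⟩, -⟩ := ht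
      exact ⟨by linarith, by linarith⟩
    refine h1.trans (h2.trans ?_)
    have e1 : ∀ t, ENNReal.ofReal (D1 ^ (2 * k) / W * P4 t + 1 / (B * W) * P3 t) =
        ENNReal.ofReal (D1 ^ (2 * k) / W) * ENNReal.ofReal (P4 t) + ENNReal.ofReal (1 / (B * W)) *
          ENNReal.ofReal (P3 t) := by
      intro t
      have hp4 := hP40 t
      have hp3 := hP30 t
      rw [ENNReal.ofReal_add (by positivity) (by positivity), ENNReal.ofReal_mul (by positivity),
        ENNReal.ofReal_mul (by positivity)]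
    simp_rw [e1]
    rw [lintegral_add_left ((hP4c.measurable.ennreal_ofReal).const_mul _),
      lintegral_const_mul' _ _ ENNReal.ofReal_ne_top, lintegral_const_mul' _ _ ENNReal.ofReal_ne_top]
    refine (add_le_add (mul_le_mul' le_rfl hP4i) (mul_le_mul' le_rfl hP3i)).trans ?_
    rw [← ENNReal.ofReal_mul (by positivity), ← ENNReal.ofReal_mul (by positivity),
      ← ENNReal.ofReal_add (by positivity) (by positivity)]
    refine ENNReal.ofReal_le_ofReal ?_
    have h3 : D1 ^ (2 * k) / W * (C2 * Real.exp (C3 * b) * X) ≤ cA / 4 * X := by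
      have e7 : D1 ^ (2 * k) / W * (C2 * Real.exp (C3 * b) * X) =
          (D1 ^ (2 * k) * (C2 * Real.exp (C3 * b))) / W * X := by ring
      rw [e7]
      refine mul_le_mul_of_nonneg_right ?_ hX0.le
      rw [div_le_iff₀ hW0]
      linarith
    have h4 : 1 / (B * W) * (C2 * Real.exp (C3 * R) * X) = cA / 4 * X := by
      rw [hB]
      field_simp
    linarith
  have hIG : I₀ ∩ G₀ ⊆ Icc T (2 * T) := fun t ht => ⟨by linarith [ht.1.1], by linarith [ht.1.2]⟩
  have hgood : ∀ t ∈ I₀ ∩ G₀, 0 < Real.exp ((A - K0) / 2) * zn (1 / 2 + A / L) t ∧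
      (Real.exp ((A - K0) / 2) * zn (1 / 2 + A / L) t) ^ (2 * k) = W * v t ∧
      η / 2 * h ≤ volume.real {u ∈ Icc (t - h / 2) (t + h / 2) | ∀ j, j ≤ m →
        lam' * (Real.exp ((A - K0) / 2) * zn (1 / 2 + A / L) t) ≤ |iteratedDeriv j Z u| * h ^ j} := by
    rintro t ⟨⟨h2, h3⟩, h4, h5, h6⟩
    have hIcc : t ∈ Icc T (2 * T) := ⟨by linarith, by linarith⟩
    set y : ℝ := zn (1 / 2 + A / L) t with hy
    have hy0 : 0 ≤ y := zn_nonneg _ _
    set V : ℝ := Real.exp ((A - K0) / 2) * y with hV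
    have hypos : 0 < y := by
      rcases hy0.lt_or_eq with h7 | h7
      · exact h7
      · exfalso
        have : v t = 0 := by
          rw [hv]
          simp only
          rw [← hy, ← h7, Real.zero_rpow (by positivity)]
        linarith
    have hV0 : 0 < V := by positivity
    have hVk : V ^ (2 * k) = W * v t := by
      rw [hV, Real.mul_rpow (Real.exp_pos _).le hy0, ← Real.exp_mul, hW, hv]
      congr 2
      ring
    set M : ℝ := P3 t ^ (1 / (2 * k)) with hM
    set M₁ : ℝ := P4 t ^ (1 / (2 * k)) with hM₁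
    have hroot : ∀ (P x : ℝ), 0 ≤ x → x ^ (2 * k) ≤ P → x ≤ P ^ (1 / (2 * k)) := by
      intro P x hx h7
      have h8 := Real.rpow_le_rpow (Real.rpow_nonneg hx _) h7 (show 0 ≤ 1 / (2 * k) by positivity)
      rwa [← Real.rpow_mul hx, mul_one_div_cancel (by positivity), Real.rpow_one] at h8
    have hrootinv : ∀ x : ℝ, 0 ≤ x → (x ^ (2 * k)) ^ (1 / (2 * k)) = x := by
      intro x hx
      rw [← Real.rpow_mul hx, mul_one_div_cancel (by positivity), Real.rpow_one]
    have hcond : Cond m (A / a) K t h M M₁ V := by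
      refine ⟨by linarith, hh0, by rw [hRh]; linarith, ?_, ?_, ?_, ?_, hV0, ?_⟩
      · intro s hs
        rw [hRh] at hs
        exact hroot _ _ (norm_nonneg _) (hP3b t hIcc s hs)
      · intro s hs
        refine hroot _ _ (norm_nonneg _) (hP4b t hIcc s (hs.trans ?_))
        exact div_le_div_of_nonneg_right hba hL0.le
      · have h7 := Real.rpow_le_rpow (hP30 t) h5 (show 0 ≤ 1 / (2 * k) by positivity)
        rw [Real.mul_rpow hB0.le (by positivity), ← hVk, hrootinv V hV0.le] at h7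
        exact h7
      · have h7 := Real.rpow_le_rpow (mul_nonneg (by positivity) (hP40 t)) h4 (show 0 ≤ 1 / (2 * k) by positivity)
        rw [Real.mul_rpow (by positivity) (hP40 t), ← hVk, hrootinv V hV0.le, hrootinv D1 hD10.le] at h7
        rw [hD1] at h7
        exact h7
      · rw [hAh, hV, hy]
        exact hgrow A L T t (A / L) hA0.le (by linarith) hL hL0 rfl (by linarith) (by linarith)
    have hE := hloc t h M M₁ V hcond (Icc (t - h / 2) (t + h / 2)) le_rfl (by
      rw [measureReal_def, Real.volume_Icc, ENNReal.toReal_ofReal (by linarith)]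
      have e8 : t + h / 2 - (t - h / 2) = h := by ring
      rw [e8, hη1, one_mul])
    exact ⟨hV0, hVk, hE⟩
  -- conclusion
  have s5 : ENNReal.ofReal (cA * X / 2) ≤ ∫⁻ t in I₀ ∩ G₀, w t := by
    have h1 : ENNReal.ofReal (cA * X) ≤ ENNReal.ofReal (cA * X / 2) + ∫⁻ t in I₀ ∩ G₀, w t := by
      refine s1.trans ?_
      have hsub : I₀ ⊆ (I₀ \ G₀) ∪ (I₀ ∩ G₀) := by
        intro t ht
        by_cases h1 : t ∈ G₀
        · exact Or.inr ⟨ht, h1⟩
        · exact Or.inl ⟨ht, h1⟩
      exact (lintegral_mono_set hsub).trans ((lintegral_union_le _ _ _).trans (add_le_add s2 le_rfl))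
    have e6 : ENNReal.ofReal (cA * X) = ENNReal.ofReal (cA * X / 2) + ENNReal.ofReal (cA * X / 2) := by
      rw [← ENNReal.ofReal_add (by positivity) (by positivity)]
      congr 1
      ring
    rw [e6] at h1
    exact (ENNReal.add_le_add_iff_left ENNReal.ofReal_ne_top).1 h1
  refine ⟨I₀ ∩ G₀, fun t => Real.exp ((A - K0) / 2) * zn (1 / 2 + A / L) t, measurableSet_Ioc.inter hG₀m,
    ((zn_cont (by linarith)).measurable.const_mul _), inter_subset_left, fun t ht => (hgood t ht).1, ?_, ?_⟩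
  · have e9 : ∫⁻ t in I₀ ∩ G₀, ENNReal.ofReal ((Real.exp ((A - K0) / 2) * zn (1 / 2 + A / L) t) ^ (2 * k)) =
        ∫⁻ t in I₀ ∩ G₀, ENNReal.ofReal W * w t := by
      refine setLIntegral_congr_fun (measurableSet_Ioc.inter hG₀m) fun t ht => ?_
      show ENNReal.ofReal ((Real.exp ((A - K0) / 2) * zn (1 / 2 + A / L) t) ^ (2 * k)) = ENNReal.ofReal W * w t
      rw [(hgood t ht).2.1, ENNReal.ofReal_mul hW0.le]
    rw [e9, lintegral_const_mul' _ _ ENNReal.ofReal_ne_top]
    refine le_trans (le_of_eq ?_) (mul_le_mul' le_rfl s5)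
    rw [← ENNReal.ofReal_mul hW0.le]
    congr 1
    ring
  · intro t ht
    exact (hgood t ht).2.2

end Pool.Agent.X117.MS
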