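import Pool.Agent.X117.Der5

/-!
# One-signed moments of the derivatives of Hardy's function: tools
-/

namespace Pool.Agent.X117.MS

open Filter Topology MeasureTheory Complex Set Metric
open Pool.Agent.X117.HZ Pool.Agent.X117.DZ Pool.Agent.X117.SZ Pool.Agent.X117.RM Pool.Agent.X117.JF

/-- superadditivity over the pieces of a window -/
lemma pieces (g : ℝ → ENNReal) {p : ℝ} (hp : 1 ≤ p) {h : ℝ} (hh : 0 < h) (t : ℝ) (N : ℕ) :
    ∑ i ∈ Finset.range N, (∫⁻ u in Ioc (t + i * h) (t + (i + 1) * h), g u) ^ p ≤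
      (∫⁻ u in Ioc t (t + N * h), g u) ^ p := by
  induction N with
  | zero => simp
  | succ N ih =>
    rw [Finset.sum_range_succ]
    have hN : (0 : ℝ) ≤ N := Nat.cast_nonneg N
    have e : Ioc t (t + ((N + 1 : ℕ) : ℝ) * h) = Ioc t (t + N * h) ∪ Ioc (t + N * h) (t + (N + 1) * h) := by
      rw [Ioc_union_Ioc_eq_Ioc (by nlinarith) (by nlinarith)]
      push_cast
      rfl
    rw [e, lintegral_union measurableSet_Ioc (Set.disjoint_left.2 fun x h1 h2 => absurd h1.2 (not_le.2 h2.1))]
    exact (add_le_add ih le_rfl).trans (ENNReal.add_rpow_le_rpow_add _ _ hp)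

/-- the means over windows from below -/
lemma window_low {g : ℝ → ENNReal} (hg : Measurable g) {p : ℝ} (hp : 1 ≤ p) {h : ℝ} (hh : 0 < h) (N : ℕ) (a b : ℝ) :
    (N : ENNReal) * ∫⁻ s in Ioc a b, (∫⁻ u in Ioc (s - h / 2) (s + h / 2), g u) ^ p ≤
      ∫⁻ t in Icc (a - N * h) b, (∫⁻ u in Ioc t (t + N * h), g u) ^ p := by
  set X : ℝ → ENNReal := fun s => ∫⁻ u in Ioc (s - h / 2) (s + h / 2), g u with hX
  have hXm : Measurable X := by
    have e : X = fun s => ∫⁻ v in Ioc (-(h / 2)) (h / 2), g (s + v) := by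
      funext s
      rw [hX, inner_int]
    rw [e]
    exact (hg.comp (measurable_fst.add measurable_snd)).lintegral_prod_right'
  have hXp : Measurable fun s => X s ^ p := hXm.pow_const p
  have h1 : ∀ i ∈ Finset.range N, ∫⁻ s in Ioc a b, X s ^ p ≤
      ∫⁻ t in Icc (a - N * h) b, X (t + (i + 1 / 2) * h) ^ p := by
    intro i hi
    have hiN : (i : ℝ) + 1 ≤ N := by exact_mod_cast Finset.mem_range.1 hi
    have hi0 : (0 : ℝ) ≤ i := Nat.cast_nonneg i
    rw [← lintegral_indicator measurableSet_Ioc, ← lintegral_indicator measurableSet_Icc,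
      ← lintegral_add_right_eq_self (fun s => (Ioc a b).indicator (fun s => X s ^ p) s) (((i : ℝ) + 1 / 2) * h)]
    refine lintegral_mono fun t => ?_
    by_cases ht : t + ((i : ℝ) + 1 / 2) * h ∈ Ioc a b
    · rw [indicator_of_mem ht, indicator_of_mem (show t ∈ Icc (a - N * h) b from ⟨by nlinarith [ht.1], by
        nlinarith [ht.2]⟩)]
    · rw [indicator_of_notMem ht]
      exact bot_le
  calc (N : ENNReal) * ∫⁻ s in Ioc a b, X s ^ p = ∑ _i ∈ Finset.range N, ∫⁻ s in Ioc a b, X s ^ p := by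
        rw [Finset.sum_const, Finset.card_range, nsmul_eq_mul]
    _ ≤ ∑ i ∈ Finset.range N, ∫⁻ t in Icc (a - N * h) b, X (t + (i + 1 / 2) * h) ^ p := Finset.sum_le_sum h1
    _ = ∫⁻ t in Icc (a - N * h) b, ∑ i ∈ Finset.range N, X (t + (i + 1 / 2) * h) ^ p := by
        rw [lintegral_finset_sum]
        intro i _
        exact hXp.comp (measurable_id.add_const _)
    _ ≤ ∫⁻ t in Icc (a - N * h) b, (∫⁻ u in Ioc t (t + N * h), g u) ^ p := by
        refine lintegral_mono fun t => ?_
        refine le_trans (le_of_eq ?_) (pieces g hp hh t N)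
        refine Finset.sum_congr rfl fun i _ => ?_
        rw [hX]
        simp only
        have e1 : t + ((i : ℝ) + 1 / 2) * h - h / 2 = t + i * h := by ring
        have e2 : t + ((i : ℝ) + 1 / 2) * h + h / 2 = t + (i + 1) * h := by ring
        rw [e1, e2]

/-- Hölder's inequality -/
lemma jensen {p : ℝ} (hp : 1 ≤ p) {f : ℝ → ℝ} (hf : Measurable f) (hf0 : ∀ x, 0 ≤ f x) (t : ℝ) {r : ℝ} (hr : 0 < r) :
    (∫⁻ u in Ioc t (t + r), ENNReal.ofReal (f u)) ^ p ≤
      ENNReal.ofReal r ^ (p - 1) * ∫⁻ u in Ioc t (t + r), ENNReal.ofReal (f u ^ p) := by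
  have hp0 : 0 < p := by linarith
  have h1 := eLpNorm'_le_eLpNorm'_mul_rpow_measure_univ (μ := volume.restrict (Ioc t (t + r))) (f := f)
    one_pos hp hf.aestronglyMeasurable
  rw [eLpNorm'_eq_lintegral_enorm, eLpNorm'_eq_lintegral_enorm] at h1
  simp only [ENNReal.rpow_one, div_one, Measure.restrict_apply_univ, Real.volume_Ioc, add_sub_cancel_left] at h1
  have e1 : ∀ u, ‖f u‖ₑ = ENNReal.ofReal (f u) := fun u => Real.enorm_of_nonneg (hf0 u)
  simp_rw [e1] at h1
  have e2 : ∀ u, ENNReal.ofReal (f u) ^ p = ENNReal.ofReal (f u ^ p) := fun u =>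
    ENNReal.ofReal_rpow_of_nonneg (hf0 u) hp0.le
  simp_rw [e2] at h1
  have h2 := ENNReal.rpow_le_rpow h1 hp0.le
  refine h2.trans (le_of_eq ?_)
  rw [ENNReal.mul_rpow_of_nonneg _ _ hp0.le, ← ENNReal.rpow_mul, ← ENNReal.rpow_mul, one_div_mul_cancel hp0.ne',
    ENNReal.rpow_one, mul_comm]
  congr 2
  field_simp

lemma iter_cont (j : ℕ) {a b : ℝ} (ha : 1 ≤ a) : ContinuousOn (iteratedDeriv j Z) (Icc a b) := fun u hu =>
  (iter_diff j (show 1 ≤ u by linarith [hu.1])).continuousAt.continuousWithinAt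

/-- the variation -/
lemma variation (n : ℕ) {σ : ℝ} (hσ : σ = 1 ∨ σ = -1) {t r : ℝ} (ht : 1 ≤ t) (hr : 0 < r) :
    ∫⁻ u in Ioc t (t + r), ENNReal.ofReal |iteratedDeriv (n + 1) Z u| ≤
      2 * (∫⁻ u in Ioc t (t + r), ENNReal.ofReal (max (σ * iteratedDeriv (n + 1) Z u) 0)) +
      (ENNReal.ofReal |iteratedDeriv n Z (t + r)| + ENNReal.ofReal |iteratedDeriv n Z t|) := by
  have hc := iter_cont (n + 1) (a := t) (b := t + r) ht
  have hle : t ≤ t + r := by linarith
  have hi : IntervalIntegrable (iteratedDeriv (n + 1) Z) volume t (t + r) := hc.intervalIntegrable_of_Icc hle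
  have hmc : ContinuousOn (fun u => max (σ * iteratedDeriv (n + 1) Z u) 0) (Icc t (t + r)) :=
    (continuousOn_const.mul hc).sup continuousOn_const
  have him : IntervalIntegrable (fun u => max (σ * iteratedDeriv (n + 1) Z u) 0) volume t (t + r) :=
    hmc.intervalIntegrable_of_Icc hle
  have hia : IntervalIntegrable (fun u => |iteratedDeriv (n + 1) Z u|) volume t (t + r) := hi.abs
  have h1 : ∫ u in t..(t + r), iteratedDeriv (n + 1) Z u = iteratedDeriv n Z (t + r) - iteratedDeriv n Z t := by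
    refine intervalIntegral.integral_eq_sub_of_hasDerivAt (fun x hx => ?_) hi
    rw [uIcc_of_le hle] at hx
    rw [iteratedDeriv_succ]
    exact (iter_diff n (show 1 ≤ x by linarith [hx.1])).hasDerivAt
  have h2 : ∫ u in t..(t + r), |iteratedDeriv (n + 1) Z u| =
      2 * (∫ u in t..(t + r), max (σ * iteratedDeriv (n + 1) Z u) 0) -
        σ * (iteratedDeriv n Z (t + r) - iteratedDeriv n Z t) := by
    rw [← h1, ← intervalIntegral.integral_const_mul, ← intervalIntegral.integral_const_mul,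
      ← intervalIntegral.integral_sub (him.const_mul _) (hi.const_mul _)]
    refine intervalIntegral.integral_congr fun u _ => ?_
    show |iteratedDeriv (n + 1) Z u| = 2 * max (σ * iteratedDeriv (n + 1) Z u) 0 - σ * iteratedDeriv (n + 1) Z u
    rcases hσ with h | h <;> rw [h]
    · rcases le_or_gt 0 (iteratedDeriv (n + 1) Z u) with h3 | h3
      · rw [abs_of_nonneg h3, one_mul, max_eq_left h3]; ring
      · rw [abs_of_neg h3, one_mul, max_eq_right h3.le]; ring
    · rcases le_or_gt 0 (iteratedDeriv (n + 1) Z u) with h3 | h3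
      · rw [abs_of_nonneg h3, max_eq_right (by linarith)]; ring
      · rw [abs_of_neg h3, max_eq_left (by linarith)]; ring
  have h3 : -(σ * (iteratedDeriv n Z (t + r) - iteratedDeriv n Z t)) ≤
      |iteratedDeriv n Z (t + r)| + |iteratedDeriv n Z t| := by
    have h4 := abs_le.1 (le_refl |iteratedDeriv n Z (t + r)|)
    have h5 := abs_le.1 (le_refl |iteratedDeriv n Z t|)
    rcases hσ with h | h <;> rw [h] <;> linarith [h4.1, h4.2, h5.1, h5.2]
  have e1 : ∫⁻ u in Ioc t (t + r), ENNReal.ofReal |iteratedDeriv (n + 1) Z u| =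
      ENNReal.ofReal (∫ u in t..(t + r), |iteratedDeriv (n + 1) Z u|) := by
    rw [intervalIntegral.integral_of_le hle, ofReal_integral_eq_lintegral_ofReal]
    · exact (intervalIntegrable_iff_integrableOn_Ioc_of_le hle).1 hia
    · exact Filter.Eventually.of_forall fun u => abs_nonneg _
  have e2 : ∫⁻ u in Ioc t (t + r), ENNReal.ofReal (max (σ * iteratedDeriv (n + 1) Z u) 0) =
      ENNReal.ofReal (∫ u in t..(t + r), max (σ * iteratedDeriv (n + 1) Z u) 0) := by
    rw [intervalIntegral.integral_of_le hle, ofReal_integral_eq_lintegral_ofReal]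
    · exact (intervalIntegrable_iff_integrableOn_Ioc_of_le hle).1 him
    · exact Filter.Eventually.of_forall fun u => le_max_right _ _
  have h6 : 0 ≤ ∫ u in t..(t + r), max (σ * iteratedDeriv (n + 1) Z u) 0 :=
    intervalIntegral.integral_nonneg hle fun u _ => le_max_right _ _
  rw [e1, e2, ← ENNReal.ofReal_add (abs_nonneg _) (abs_nonneg _),
    show (2 : ENNReal) = ENNReal.ofReal 2 by simp, ← ENNReal.ofReal_mul (by norm_num),
    ← ENNReal.ofReal_add (by positivity) (by positivity)]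
  refine ENNReal.ofReal_le_ofReal ?_
  rw [h2]
  linarith

end Pool.Agent.X117.MS
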