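import Pool.Agent.X117.Der6

/-!
# One-signed moments of the derivatives of Hardy's function: the exact order
-/

namespace Pool.Agent.X117.MS

open Filter Topology MeasureTheory Complex Set Metric
open Pool.Agent.X117.HZ Pool.Agent.X117.DZ Pool.Agent.X117.SZ Pool.Agent.X117.RM Pool.Agent.X117.JF

lemma three {p : ℝ} (hp : 0 ≤ p) (x y z : ENNReal) :
    (2 * x + (y + z)) ^ p ≤ 4 ^ p * (x ^ p + (y ^ p + z ^ p)) := by
  have key : ∀ M : ENNReal, x ≤ M → y ≤ M → z ≤ M → M ^ p ≤ x ^ p + (y ^ p + z ^ p) →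
      (2 * x + (y + z)) ^ p ≤ 4 ^ p * (x ^ p + (y ^ p + z ^ p)) := by
    intro M h1 h2 h3 h4
    have h5 : 2 * x + (y + z) ≤ 4 * M := by
      calc 2 * x + (y + z) ≤ 2 * M + (M + M) := add_le_add (mul_le_mul' le_rfl h1) (add_le_add h2 h3)
        _ = 4 * M := by ring
    refine (ENNReal.rpow_le_rpow h5 hp).trans ?_
    rw [ENNReal.mul_rpow_of_nonneg _ _ hp]
    exact mul_le_mul' le_rfl h4
  rcases le_total x y with h1 | h1
  · rcases le_total y z with h2 | h2
    · exact key z (h1.trans h2) h2 le_rfl (le_add_left (le_add_left le_rfl))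
    · exact key y h1 le_rfl h2 (le_add_left (le_add_right le_rfl))
  · rcases le_total x z with h2 | h2
    · exact key z h2 (h1.trans h2) le_rfl (le_add_left (le_add_left le_rfl))
    · exact key x le_rfl h1 h2 (le_add_right le_rfl)

/-- the means over windows from above -/
lemma window_up {φ : ℝ → ENNReal} (hφ : Measurable φ) {T r a b : ℝ} (ha : T ≤ a) (hb : b + r ≤ 2 * T) :
    ∫⁻ t in Icc a b, ∫⁻ u in Ioc t (t + r), φ u ≤ ENNReal.ofReal r * ∫⁻ u in Icc T (2 * T), φ u := by
  set g : ℝ → ENNReal := (Icc T (2 * T)).indicator φ with hg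
  have hgm : Measurable g := hφ.indicator measurableSet_Icc
  set H : ℝ → ENNReal := fun s => ∫⁻ v in Ioc (-(r / 2)) (r / 2), g (s + v) with hH
  have h1 : ∫⁻ t in Icc a b, ∫⁻ u in Ioc t (t + r), φ u ≤ ∫⁻ t in Icc a b, H (t + r / 2) := by
    refine setLIntegral_mono' measurableSet_Icc fun t ht => ?_
    have e : H (t + r / 2) = ∫⁻ u in Ioc t (t + r), g u := by
      rw [hH]
      simp only
      rw [inner_int]
      have e1 : t + r / 2 - r / 2 = t := by ring
      have e2 : t + r / 2 + r / 2 = t + r := by ring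
      rw [e1, e2]
    rw [e]
    refine setLIntegral_mono' measurableSet_Ioc fun u hu => ?_
    rw [hg, indicator_of_mem (show u ∈ Icc T (2 * T) from ⟨by linarith [hu.1, ht.1], by linarith [hu.2, ht.2]⟩)]
  have h2 : ∫⁻ t in Icc a b, H (t + r / 2) ≤ ∫⁻ t, H t := by
    refine (setLIntegral_le_lintegral _ _).trans (le_of_eq ?_)
    exact lintegral_add_right_eq_self H (r / 2)
  have h3 : ∫⁻ t, H t ≤ ENNReal.ofReal r * ∫⁻ t, g t := by
    have := shift_int hgm (h := r) univ
    rwa [Measure.restrict_univ] at this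
  have h4 : ∫⁻ t, g t = ∫⁻ u in Icc T (2 * T), φ u := by
    rw [hg, lintegral_indicator measurableSet_Icc]
  rw [← h4]
  exact h1.trans (h2.trans h3)

/-- a shifted integral -/
lemma shifted_le (φ : ℝ → ENNReal) {T r a b : ℝ} (ha : T ≤ a + r) (hb : b + r ≤ 2 * T) :
    ∫⁻ t in Icc a b, φ (t + r) ≤ ∫⁻ u in Icc T (2 * T), φ u := by
  rw [← lintegral_indicator measurableSet_Icc, ← lintegral_indicator measurableSet_Icc,
    ← lintegral_add_right_eq_self (fun u => (Icc T (2 * T)).indicator φ u) r]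
  refine lintegral_mono fun t => ?_
  by_cases ht : t ∈ Icc a b
  · rw [indicator_of_mem ht, indicator_of_mem (show t + r ∈ Icc T (2 * T) from ⟨by linarith [ht.1], by
      linarith [ht.2]⟩)]
  · rw [indicator_of_notMem ht]
    exact bot_le

/-- **one-signed moments of the derivatives** -/
theorem one_signed {k : ℝ} (hk : 1 / 2 ≤ k) (hk2 : k ≤ 2) (n : ℕ) {σ : ℝ} (hσ : σ = 1 ∨ σ = -1) :
    ∃ c : ℝ, 0 < c ∧ ∀ᶠ T : ℝ in atTop,
      ENNReal.ofReal (c * (T * Real.log T ^ (k ^ 2 + 2 * k * (n + 1)))) ≤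
        ∫⁻ t in Icc T (2 * T), ENNReal.ofReal (max (σ * iteratedDeriv (n + 1) Z t) 0 ^ (2 * k)) := by
  have hk0 : 0 < k := by linarith
  obtain ⟨lam', c, hlam', hc, hgood⟩ := good_set hk0 hk2 (n + 1)
  set b : ℕ → ℝ := fun j => if j = n then 2 * k else 0 with hb
  have hbn : b n = 2 * k := by simp [hb]
  have hbz : ∀ j ∈ Finset.range n, b j = 0 := by
    intro j hj
    rw [Finset.mem_range] at hj
    simp only [hb]
    rw [if_neg (by omega)]
  have htot : tot n b = 2 * k := by rw [tot, Finset.sum_range_succ, Finset.sum_eq_zero hbz, hbn, zero_add]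
  have hmex : mex n b = k ^ 2 + 2 * k * n := by
    rw [mex, htot, Finset.sum_range_succ, Finset.sum_eq_zero (fun j hj => by rw [hbz j hj, mul_zero]), hbn]
    ring
  obtain ⟨C1, hC1, hup⟩ := joint_upper (m := n) (b := b) (fun j _ => by
    simp only [hb]
    split_ifs <;> linarith) (by rw [htot]; linarith) (by rw [htot]; linarith)
  set p : ℝ := 2 * k with hp
  have hp1 : 1 ≤ p := by linarith
  have hp0 : 0 < p := by linarith
  set q1 : ℝ := (lam' / 2) ^ p * c with hq1
  have hq10 : 0 < q1 := by positivity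
  obtain ⟨N, hN⟩ := exists_nat_ge (4 * ((4 : ℝ) ^ p * C1) / q1 + 1)
  have hpos : 0 < 4 * ((4 : ℝ) ^ p * C1) / q1 := by positivity
  have hN1 : (1 : ℝ) ≤ N := by linarith
  have hN0 : (0 : ℝ) < N := by linarith
  have hNq : 4 * ((4 : ℝ) ^ p * C1) ≤ N * q1 := by
    have : 4 * ((4 : ℝ) ^ p * C1) / q1 ≤ N := by linarith
    rwa [div_le_iff₀ hq10] at this
  refine ⟨N * q1 / 2 / ((4 : ℝ) ^ p * (N : ℝ) ^ p), by positivity, ?_⟩
  filter_upwards [hgood, hup, eventually_ge_atTop (20 : ℝ),
    Real.tendsto_log_atTop.eventually_ge_atTop (8 * (N : ℝ))] with T q2 q3 hT20 hL8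
  obtain ⟨G, V, hGm, hVm, hGI, hV0, hGi, hGloc⟩ := q2
  have hL0 : 0 < Real.log T := by linarith
  set L := Real.log T with hL
  set X : ℝ := T * L ^ (k ^ 2) with hX
  have hX0 : 0 < X := by positivity
  set Y : ℝ := L ^ (p * n) with hY
  have hY0 : 0 < Y := by positivity
  set h : ℝ := 1 / L with hh
  have hh0 : 0 < h := by positivity
  set r : ℝ := N * h with hr
  have hr0 : 0 < r := by positivity
  have hr8 : r ≤ 1 / 8 := by
    rw [hr, hh, mul_one_div, div_le_div_iff₀ hL0 (by norm_num)]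
    linarith
  set g : ℝ → ENNReal := fun u => ENNReal.ofReal |iteratedDeriv (n + 1) Z u| with hg
  have hgm : Measurable g := (iter_meas (n + 1)).abs.ennreal_ofReal
  -- the lower bound
  have s1 : ENNReal.ofReal (q1 * (X * Y)) ≤
      ∫⁻ s in Ioc (5 / 4 * T) (7 / 4 * T), (∫⁻ u in Ioc (s - h / 2) (s + h / 2), g u) ^ p := by
    have h1 : ∀ s ∈ G, ENNReal.ofReal ((lam' / 2) ^ p * Y) * ENNReal.ofReal (V s ^ p) ≤
        (∫⁻ u in Ioc (s - h / 2) (s + h / 2), g u) ^ p := by
      intro s hs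
      have hVs := hV0 s hs
      set S : Set ℝ := {u ∈ Icc (s - h / 2) (s + h / 2) | ∀ j, j ≤ n + 1 → lam' * V s ≤ |iteratedDeriv j Z u| * h ^ j}
        with hS
      have hSm : MeasurableSet S := by
        have e9 : S = (Icc (s - h / 2) (s + h / 2)) ∩ ⋂ j ∈ Finset.range (n + 1 + 1),
            {u : ℝ | lam' * V s ≤ |iteratedDeriv j Z u| * h ^ j} := by
          ext u
          simp only [hS, mem_setOf_eq, mem_inter_iff, mem_iInter, Finset.mem_range]
          constructor
          · rintro ⟨p1, p2⟩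
            exact ⟨p1, fun j hj => p2 j (by omega)⟩
          · rintro ⟨p1, p2⟩
            exact ⟨p1, fun j hj => p2 j (by omega)⟩
        rw [e9]
        refine measurableSet_Icc.inter (Finset.measurableSet_biInter _ fun j _ => ?_)
        exact measurableSet_le measurable_const ((iter_meas j).abs.mul_const _)
      have h2 := inner_low (g := g) (t := s) (h := h) (w := lam' * V s * L ^ (n + 1)) (S := S)
        (fun u hu => hu.1) (fun u hu => ENNReal.ofReal_le_ofReal (by
          have h3 := hu.2 (n + 1) le_rfl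
          have e3 : h ^ (n + 1) = 1 / L ^ (n + 1) := by rw [hh, div_pow, one_pow]
          rw [e3, mul_one_div, le_div_iff₀ (by positivity)] at h3
          exact h3)) (hGloc s hs) hSm
      rw [inner_int] at h2
      have h3 := ENNReal.rpow_le_rpow h2 hp0.le
      refine le_trans (le_of_eq ?_) h3
      rw [← ENNReal.ofReal_mul (by positivity), ← ENNReal.ofReal_mul (by positivity),
        ENNReal.ofReal_rpow_of_nonneg (by positivity) hp0.le]
      congr 1
      have e4 : lam' * V s * L ^ (n + 1) * (1 / 2 * h) = (lam' / 2) * L ^ n * V s := by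
        rw [pow_succ, hh]
        field_simp
      have e5 : (L ^ n) ^ p = Y := by
        rw [hY, ← Real.rpow_natCast L n, ← Real.rpow_mul hL0.le, mul_comm]
      rw [e4, Real.mul_rpow (by positivity) hVs.le, Real.mul_rpow (by positivity) (by positivity), e5]
    have h2 := setLIntegral_mono' (μ := volume) hGm h1
    rw [lintegral_const_mul' _ _ ENNReal.ofReal_ne_top] at h2
    have e6 : ENNReal.ofReal (q1 * (X * Y)) = ENNReal.ofReal ((lam' / 2) ^ p * Y) * ENNReal.ofReal (c * X) := by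
      rw [← ENNReal.ofReal_mul (by positivity), hq1]
      congr 1
      ring
    rw [e6]
    exact (mul_le_mul' le_rfl hGi).trans (h2.trans (lintegral_mono_set hGI))
  have s2 := window_low hgm hp1 hh0 N (5 / 4 * T) (7 / 4 * T)
  rw [← hr] at s2
  -- the upper bound
  set φ : ℝ → ENNReal := fun u => ENNReal.ofReal (max (σ * iteratedDeriv (n + 1) Z u) 0 ^ p) with hφ
  have hfm : Measurable fun u => max (σ * iteratedDeriv (n + 1) Z u) 0 :=
    ((iter_meas (n + 1)).const_mul σ).max measurable_const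
  have hφm : Measurable φ := (hfm.pow_const p).ennreal_ofReal
  set ψ : ℝ → ENNReal := fun u => ENNReal.ofReal |iteratedDeriv n Z u| ^ p with hψ
  have hψm : Measurable ψ := (iter_meas n).abs.ennreal_ofReal.pow_const p
  set J : ENNReal := ∫⁻ t in Icc T (2 * T), φ t with hJ
  have hψi : ∫⁻ t in Icc T (2 * T), ψ t ≤ ENNReal.ofReal (C1 * (X * Y)) := by
    have e7 : jm n b univ T = ∫⁻ t in Icc T (2 * T), ψ t := by
      rw [jm, univ_inter]
      refine setLIntegral_congr_fun measurableSet_Icc fun t _ => ?_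
      rw [hψ]
      show _ = ENNReal.ofReal |iteratedDeriv n Z t| ^ p
      rw [ENNReal.ofReal_rpow_of_nonneg (abs_nonneg _) hp0.le, Finset.prod_range_succ,
        Finset.prod_eq_one (fun j hj => by rw [hbz j hj, Real.rpow_zero]), hbn, one_mul]
    rw [← e7]
    refine q3.trans (le_of_eq ?_)
    congr 1
    rw [hmex, Real.rpow_add hL0, hX, hY, hp]
    ring
  have s3 : ∫⁻ t in Icc (5 / 4 * T - r) (7 / 4 * T), (∫⁻ u in Ioc t (t + r), g u) ^ p ≤
      ENNReal.ofReal ((4 : ℝ) ^ p * r ^ p) * J + ENNReal.ofReal (2 * ((4 : ℝ) ^ p * C1) * (X * Y)) := by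
    have h1 : ∀ t ∈ Icc (5 / 4 * T - r) (7 / 4 * T), (∫⁻ u in Ioc t (t + r), g u) ^ p ≤
        ENNReal.ofReal ((4 : ℝ) ^ p) * (ENNReal.ofReal (r ^ (p - 1)) * (∫⁻ u in Ioc t (t + r), φ u) +
          (ψ (t + r) + ψ t)) := by
      intro t ht
      have ht1 : 1 ≤ t := by linarith [ht.1]
      have h2 := ENNReal.rpow_le_rpow (variation n hσ ht1 hr0) hp0.le
      have h3 := three hp0.le (∫⁻ u in Ioc t (t + r), ENNReal.ofReal (max (σ * iteratedDeriv (n + 1) Z u) 0))
        (ENNReal.ofReal |iteratedDeriv n Z (t + r)|) (ENNReal.ofReal |iteratedDeriv n Z t|)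
      have h4 := jensen hp1 hfm (fun x => le_max_right _ _) t hr0
      have e8 : (4 : ENNReal) ^ p = ENNReal.ofReal ((4 : ℝ) ^ p) := by
        rw [← ENNReal.ofReal_rpow_of_nonneg (by norm_num) hp0.le]
        norm_num
      have e9 : ENNReal.ofReal r ^ (p - 1) = ENNReal.ofReal (r ^ (p - 1)) :=
        ENNReal.ofReal_rpow_of_nonneg hr0.le (by linarith)
      rw [e8] at h3
      rw [e9] at h4
      exact h2.trans (h3.trans (mul_le_mul' le_rfl (add_le_add h4 le_rfl)))
    have h2 := setLIntegral_mono' (μ := volume) measurableSet_Icc h1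
    refine h2.trans ?_
    have hm1 : Measurable fun t : ℝ => ψ (t + r) := hψm.comp (measurable_id.add_const r)
    have hm2 : Measurable fun t : ℝ => ψ (t + r) + ψ t := hm1.add hψm
    rw [lintegral_const_mul' _ _ ENNReal.ofReal_ne_top, lintegral_add_right _ hm2,
      lintegral_const_mul' _ _ ENNReal.ofReal_ne_top, lintegral_add_right _ hψm]
    have h3 := window_up hφm (T := T) (r := r) (a := 5 / 4 * T - r) (b := 7 / 4 * T) (by linarith) (by linarith)
    have h4 := shifted_le ψ (T := T) (r := r) (a := 5 / 4 * T - r) (b := 7 / 4 * T) (by linarith) (by linarith)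
    have h5 : ∫⁻ t in Icc (5 / 4 * T - r) (7 / 4 * T), ψ t ≤ ∫⁻ t in Icc T (2 * T), ψ t :=
      lintegral_mono_set fun t ht => ⟨by linarith [ht.1], by linarith [ht.2]⟩
    have h6 : ENNReal.ofReal ((4 : ℝ) ^ p) * (ENNReal.ofReal (r ^ (p - 1)) * (ENNReal.ofReal r * J) +
        (ENNReal.ofReal (C1 * (X * Y)) + ENNReal.ofReal (C1 * (X * Y)))) =
        ENNReal.ofReal ((4 : ℝ) ^ p * r ^ p) * J + ENNReal.ofReal (2 * ((4 : ℝ) ^ p * C1) * (X * Y)) := by
      rw [mul_add, ← mul_assoc, ← mul_assoc, ← ENNReal.ofReal_mul (by positivity), ← ENNReal.ofReal_mul (by positivity),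
        ← ENNReal.ofReal_add (by positivity) (by positivity), ← ENNReal.ofReal_mul (by positivity)]
      have e10 : (4 : ℝ) ^ p * r ^ (p - 1) * r = (4 : ℝ) ^ p * r ^ p := by
        rw [mul_assoc]
        congr 1
        have := Real.rpow_add hr0 (p - 1) 1
        rw [Real.rpow_one, sub_add_cancel] at this
        exact this.symm
      rw [e10]
      congr 2
      ring
    rw [← h6]
    exact mul_le_mul' le_rfl (add_le_add (mul_le_mul' le_rfl h3) (add_le_add (h4.trans hψi) (h5.trans hψi)))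
  -- conclusion
  have s4 : ENNReal.ofReal (N * q1 * (X * Y)) ≤
      ENNReal.ofReal ((4 : ℝ) ^ p * r ^ p) * J + ENNReal.ofReal (N * q1 / 2 * (X * Y)) := by
    have e11 : ENNReal.ofReal (N * q1 * (X * Y)) = (N : ENNReal) * ENNReal.ofReal (q1 * (X * Y)) := by
      rw [mul_assoc, ENNReal.ofReal_mul hN0.le, ENNReal.ofReal_natCast]
    rw [e11]
    refine (mul_le_mul' le_rfl s1).trans (s2.trans (s3.trans (add_le_add le_rfl ?_)))
    refine ENNReal.ofReal_le_ofReal (mul_le_mul_of_nonneg_right ?_ (by positivity))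
    linarith
  have e12 : ENNReal.ofReal (N * q1 * (X * Y)) = ENNReal.ofReal (N * q1 / 2 * (X * Y)) +
      ENNReal.ofReal (N * q1 / 2 * (X * Y)) := by
    rw [← ENNReal.ofReal_add (by positivity) (by positivity)]
    congr 1
    ring
  rw [e12] at s4
  have s5 := (ENNReal.add_le_add_iff_right ENNReal.ofReal_ne_top).1 s4
  have hrp : 0 < (4 : ℝ) ^ p * r ^ p := by positivity
  have e13 : N * q1 / 2 / ((4 : ℝ) ^ p * (N : ℝ) ^ p) * (T * L ^ (k ^ 2 + p * (n + 1))) =
      N * q1 / 2 * (X * Y) / ((4 : ℝ) ^ p * r ^ p) := by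
    have e14 : r ^ p = (N : ℝ) ^ p / L ^ p := by
      rw [hr, hh, mul_one_div, Real.div_rpow hN0.le hL0.le]
    have e15 : L ^ (k ^ 2 + p * (n + 1)) = L ^ (k ^ 2) * Y * L ^ p := by
      rw [hY, ← Real.rpow_add hL0, ← Real.rpow_add hL0]
      congr 1
      ring
    have hNp : (N : ℝ) ^ p ≠ 0 := by positivity
    have hLp : L ^ p ≠ 0 := by positivity
    rw [e14, e15, hX]
    field_simp
  rw [e13, ENNReal.ofReal_div_of_pos hrp]
  exact ENNReal.div_le_of_le_mul' s5

end Pool.Agent.X117.MS
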