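import Pool.Agent.X117.HZ4
import Pool.Agent.Y655.SW.Har

/-!
# Hardy's function as an analytic function; bounds for its derivatives
-/

namespace Pool.Agent.X117.DZ

open Complex Filter Topology Metric Set
open Pool.Agent.X117.HZ

lemma gammaR_diff {s : ℂ} (hs : 0 < s.re) : DifferentiableAt ℂ Gammaℝ s := by
  have h1 : DifferentiableAt ℂ (fun s => ((Gammaℝ s)⁻¹)⁻¹) s :=
    (differentiable_Gammaℝ_inv s).inv (inv_ne_zero (Gammaℝ_ne_zero_of_re_pos hs))
  simpa using h1

/-- Hardy's function continues analytically to a disc around each point -/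
theorem continuation {t0 : ℝ} (ht : 1 ≤ t0) : ∃ W : ℂ → ℂ,
    DifferentiableOn ℂ W (ball (t0 : ℂ) (1 / 4)) ∧
    (∀ t : ℝ, |t - t0| < 1 / 4 → W t = ((Z t : ℝ) : ℂ)) ∧
    ∀ z ∈ ball (t0 : ℂ) (1 / 4), ‖W z‖ ^ 2 = ‖riemannZeta (1 / 2 + I * z)‖ * ‖riemannZeta (1 / 2 - I * z)‖ := by
  have hball : ∀ z ∈ ball (t0 : ℂ) (1 / 4), |z.im| < 1 / 4 ∧ |z.re - t0| < 1 / 4 := by
    intro z hz
    rw [mem_ball, dist_eq_norm] at hz
    have h1 := (Complex.abs_im_le_norm (z - t0)).trans_lt hz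
    have h2 := (Complex.abs_re_le_norm (z - t0)).trans_lt hz
    simp only [sub_im, ofReal_im, sub_zero, sub_re, ofReal_re] at h1 h2
    exact ⟨h1, h2⟩
  have hre1 : ∀ z : ℂ, |z.im| < 1 / 4 → 0 < (1 / 2 + I * z).re := by
    intro z hz
    rw [abs_lt] at hz
    simp
    linarith [hz.2]
  have hre2 : ∀ z : ℂ, |z.im| < 1 / 4 → 0 < (1 / 2 - I * z).re := by
    intro z hz
    rw [abs_lt] at hz
    simp
    linarith [hz.1]
  have hA : ∀ z : ℂ, |z.im| < 1 / 4 → Gammaℝ (1 / 2 + I * z) ≠ 0 := fun z hz =>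
    Gammaℝ_ne_zero_of_re_pos (hre1 z hz)
  have hB : ∀ z : ℂ, |z.im| < 1 / 4 → Gammaℝ (1 / 2 - I * z) ≠ 0 := fun z hz =>
    Gammaℝ_ne_zero_of_re_pos (hre2 z hz)
  have hAd : ∀ z : ℂ, |z.im| < 1 / 4 → DifferentiableAt ℂ (fun z => Gammaℝ (1 / 2 + I * z)) z := by
    intro z hz
    exact (gammaR_diff (hre1 z hz)).comp z
      ((differentiableAt_const _).add ((differentiableAt_const _).mul differentiableAt_id))
  have hBd : ∀ z : ℂ, |z.im| < 1 / 4 → DifferentiableAt ℂ (fun z => Gammaℝ (1 / 2 - I * z)) z := by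
    intro z hz
    exact (gammaR_diff (hre2 z hz)).comp z
      ((differentiableAt_const _).sub ((differentiableAt_const _).mul differentiableAt_id))
  set G : ℂ → ℂ := fun z => Gammaℝ (1 / 2 + I * z) * Gammaℝ (1 / 2 - I * z) with hG
  have hmem0 : ∀ z ∈ ball (0 : ℂ) (1 / 4), |(z + t0).im| < 1 / 4 := by
    intro z hz
    rw [mem_ball_zero_iff] at hz
    have h1 := (Complex.abs_im_le_norm z).trans_lt hz
    simpa using h1
  obtain ⟨H, hH0, hHd, hH⟩ := Pool.Agent.Y655.SW.exists_logB (r := 1 / 4) (by norm_num)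
    (g := fun z => G (z + t0)) (by
      intro z hz
      have h1 := hmem0 z hz
      have h2 : DifferentiableAt ℂ G (z + t0) := (hAd _ h1).mul (hBd _ h1)
      exact (h2.comp z (differentiableAt_id.add_const _)).differentiableWithinAt)
    (fun z hz => mul_ne_zero (hA _ (hmem0 z hz)) (hB _ (hmem0 z hz)))
  -- the size on the real axis
  set b : ℝ → ℝ := fun t => ‖Gammaℝ (1 / 2 + I * (t : ℂ))‖ with hb
  have hb0 : ∀ t, 0 < b t := fun t => norm_pos_iff.mpr (GammaR_line_ne t)
  have hGb : ∀ t : ℝ, G t = ((b t : ℝ) : ℂ) ^ 2 := by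
    intro t
    have h1 : (1 / 2 - I * (t : ℂ)) = (starRingEnd ℂ) (1 / 2 + I * (t : ℂ)) := by
      rw [line_conj]; ring
    rw [hG]
    simp only
    rw [h1, GammaR_conj, Complex.mul_conj, Complex.normSq_eq_norm_sq]
    push_cast
    rfl
  set a : ℝ := b t0 with ha
  have ha0 : 0 < a := hb0 t0
  let S : ℂ → ℂ := fun z => (a : ℂ) * cexp (H (z - t0) / 2)
  have hSne : ∀ z, S z ≠ 0 := fun z => mul_ne_zero (ofReal_ne_zero.mpr ha0.ne') (Complex.exp_ne_zero _)
  have hSsq : ∀ z ∈ ball (t0 : ℂ) (1 / 4), S z ^ 2 = G z := by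
    intro z hz
    have h1 : z - t0 ∈ ball (0 : ℂ) (1 / 4) := by
      rw [mem_ball_zero_iff]
      rwa [mem_ball, dist_eq_norm] at hz
    have h2 := hH (z - t0) h1
    simp only [sub_add_cancel, zero_add] at h2
    rw [h2, hGb t0]
    simp only [S]
    rw [mul_pow, ← Complex.exp_nat_mul]
    congr 2
    push_cast
    ring
  have hSd : DifferentiableOn ℂ S (ball (t0 : ℂ) (1 / 4)) := by
    have h1 : DifferentiableOn ℂ (fun z : ℂ => H (z - t0)) (ball (t0 : ℂ) (1 / 4)) := by
      refine hHd.comp ((differentiable_id.sub_const _).differentiableOn) fun z hz => ?_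
      rw [mem_ball_zero_iff]
      rwa [mem_ball, dist_eq_norm] at hz
    exact ((h1.div_const 2).cexp).const_mul _
  have hSreal : ∀ t : ℝ, |t - t0| < 1 / 4 → S t = ((b t : ℝ) : ℂ) := by
    have hcb : Continuous fun t : ℝ => ((b t : ℝ) : ℂ) := by
      refine Complex.continuous_ofReal.comp (Continuous.norm ?_)
      rw [continuous_iff_continuousAt]
      intro t
      have h1 := (hAd (t : ℂ) (by simp)).continuousAt
      exact ContinuousAt.comp (f := fun t : ℝ => (t : ℂ)) (g := fun z => Gammaℝ (1 / 2 + I * z)) h1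
        Complex.continuous_ofReal.continuousAt
    have hmaps : MapsTo (fun t : ℝ => (t : ℂ)) (Ioo (t0 - 1 / 4) (t0 + 1 / 4)) (ball (t0 : ℂ) (1 / 4)) := by
      intro t ht'
      rw [mem_ball, dist_eq_norm, ← ofReal_sub, Complex.norm_real, Real.norm_eq_abs, abs_lt]
      constructor <;> linarith [ht'.1, ht'.2]
    have h1 : EqOn (fun t : ℝ => S t) (fun t : ℝ => ((b t : ℝ) : ℂ)) (Ioo (t0 - 1 / 4) (t0 + 1 / 4)) := by
      refine isPreconnected_Ioo.eq_of_sq_eq (y := t0) ?_ hcb.continuousOn ?_ ?_ ?_ ?_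
      · exact hSd.continuousOn.comp Complex.continuous_ofReal.continuousOn hmaps
      · intro t ht'
        simp only [Pi.pow_apply]
        rw [hSsq _ (hmaps ht'), hGb]
      · intro t _
        exact ofReal_ne_zero.mpr (hb0 t).ne'
      · constructor <;> linarith
      · simp only [S, sub_self, hH0, zero_div, Complex.exp_zero, mul_one]
        rfl
    intro t ht'
    rw [abs_lt] at ht'
    exact h1 ⟨by linarith [ht'.1], by linarith [ht'.2]⟩
  refine ⟨fun z => Gammaℝ (1 / 2 + I * z) * riemannZeta (1 / 2 + I * z) / S z, ?_, ?_, ?_⟩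
  · intro z hz
    obtain ⟨h1, h2⟩ := hball z hz
    have hne1 : (1 / 2 + I * z) ≠ 1 := by
      intro h
      have := congrArg Complex.im h
      simp at this
      rw [abs_lt, this] at h2
      linarith [h2.1]
    have hz' : DifferentiableAt ℂ (fun z => riemannZeta (1 / 2 + I * z)) z :=
      (differentiableAt_riemannZeta hne1).comp z
        ((differentiableAt_const _).add ((differentiableAt_const _).mul differentiableAt_id))
    have hSz : DifferentiableAt ℂ S z := (hSd z hz).differentiableAt (isOpen_ball.mem_nhds hz)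
    exact (((hAd z h1).mul hz').div hSz (hSne z)).differentiableWithinAt
  · intro t ht'
    simp only
    rw [hSreal t ht', Z_eq]
    unfold Zc
    rw [phase_eq]
    rw [hb]
    simp only
    ring
  · intro z hz
    obtain ⟨h1, h2⟩ := hball z hz
    have hA' := hA z h1
    have hB' := hB z h1
    have hs0 : (1 / 2 + I * z) ≠ 0 := fun h => by
      have := hre1 z h1
      rw [h] at this
      simp at this
    have hs0' : (1 / 2 - I * z) ≠ 0 := fun h => by
      have := hre2 z h1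
      rw [h] at this
      simp at this
    have e1 : Gammaℝ (1 / 2 + I * z) * riemannZeta (1 / 2 + I * z) = completedRiemannZeta (1 / 2 + I * z) := by
      rw [riemannZeta_def_of_ne_zero hs0, mul_div_cancel₀ _ hA']
    have e2 : Gammaℝ (1 / 2 - I * z) * riemannZeta (1 / 2 - I * z) = completedRiemannZeta (1 / 2 + I * z) := by
      rw [riemannZeta_def_of_ne_zero hs0', mul_div_cancel₀ _ hB',
        ← completedRiemannZeta_one_sub (1 / 2 + I * z)]
      congr 1
      ring
    have e3 : ‖S z‖ ^ 2 = ‖Gammaℝ (1 / 2 + I * z)‖ * ‖Gammaℝ (1 / 2 - I * z)‖ := by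
      rw [← norm_pow, hSsq z hz, hG, norm_mul]
    have e4 : ‖Gammaℝ (1 / 2 + I * z)‖ * ‖riemannZeta (1 / 2 + I * z)‖ =
        ‖Gammaℝ (1 / 2 - I * z)‖ * ‖riemannZeta (1 / 2 - I * z)‖ := by
      rw [← norm_mul, ← norm_mul, e1, e2]
    have p1 : 0 < ‖Gammaℝ (1 / 2 + I * z)‖ := norm_pos_iff.mpr hA'
    have p2 : 0 < ‖Gammaℝ (1 / 2 - I * z)‖ := norm_pos_iff.mpr hB'
    simp only
    rw [norm_div, norm_mul, div_pow, e3, div_eq_iff (mul_pos p1 p2).ne', sq]
    nth_rewrite 2 [e4]
    ring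

/-- the derivatives of Hardy's function and of its continuation -/
lemma iter_eq {t0 : ℝ} {W : ℂ → ℂ} (hW : DifferentiableOn ℂ W (ball (t0 : ℂ) (1 / 4)))
    (hWZ : ∀ t : ℝ, |t - t0| < 1 / 4 → W t = ((Z t : ℝ) : ℂ)) (j : ℕ) : ∀ t : ℝ, |t - t0| < 1 / 4 →
      iteratedDeriv j Z t = (iteratedDeriv j W t).re ∧ DifferentiableAt ℝ (iteratedDeriv j Z) t := by
  have hmem : ∀ t : ℝ, |t - t0| < 1 / 4 → (t : ℂ) ∈ ball (t0 : ℂ) (1 / 4) := by
    intro t ht
    rwa [mem_ball, dist_eq_norm, ← ofReal_sub, Complex.norm_real, Real.norm_eq_abs]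
  have hopen : ∀ t : ℝ, |t - t0| < 1 / 4 → ∀ᶠ u : ℝ in 𝓝 t, |u - t0| < 1 / 4 := by
    intro t ht
    exact (isOpen_lt (continuous_abs.comp (continuous_id.sub continuous_const))
      continuous_const).mem_nhds ht
  have hWa : AnalyticOnNhd ℂ W (ball (t0 : ℂ) (1 / 4)) := hW.analyticOnNhd isOpen_ball
  have key : ∀ j : ℕ, (∀ t : ℝ, |t - t0| < 1 / 4 → iteratedDeriv j Z t = (iteratedDeriv j W t).re) →
      ∀ t : ℝ, |t - t0| < 1 / 4 → HasDerivAt (iteratedDeriv j Z) (iteratedDeriv (j + 1) W t).re t := by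
    intro j hj t ht
    have h1 : DifferentiableAt ℂ (iteratedDeriv j W) (t : ℂ) := by
      have := hWa.iterated_deriv j (t : ℂ) (hmem t ht)
      rw [← iteratedDeriv_eq_iterate] at this
      exact this.differentiableAt
    have h2 := h1.hasDerivAt.real_of_complex
    rw [← iteratedDeriv_succ] at h2
    refine h2.congr_of_eventuallyEq ?_
    filter_upwards [hopen t ht] with u hu
    exact hj u hu
  have hall : ∀ j : ℕ, ∀ t : ℝ, |t - t0| < 1 / 4 → iteratedDeriv j Z t = (iteratedDeriv j W t).re := by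
    intro j
    induction j with
    | zero =>
      intro t ht
      rw [iteratedDeriv_zero, iteratedDeriv_zero, hWZ t ht, ofReal_re]
    | succ j ih =>
      intro t ht
      rw [iteratedDeriv_succ]
      exact (key j ih t ht).deriv
  intro t ht
  exact ⟨hall j t ht, (key j (hall j) t ht).differentiableAt⟩

/-- all derivatives of Hardy's function are differentiable -/
lemma iter_diff (j : ℕ) {t : ℝ} (ht : 1 ≤ t) : DifferentiableAt ℝ (iteratedDeriv j Z) t := by
  obtain ⟨W, h1, h2, -⟩ := continuation ht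
  exact (iter_eq h1 h2 j t (by simp)).2

/-- Cauchy's estimate -/
theorem cauchy {t0 : ℝ} (ht : 1 ≤ t0) {R M : ℝ} (hR : 0 < R) (hR1 : R < 1 / 4)
    (hM : ∀ s : ℂ, ‖s - (1 / 2 + I * t0)‖ ≤ R → ‖riemannZeta s‖ ≤ M) (m : ℕ) :
    |iteratedDeriv m Z t0| ≤ m.factorial * M / R ^ m := by
  obtain ⟨W, h1, h2, h3⟩ := continuation ht
  have hM0 : 0 ≤ M := (norm_nonneg _).trans (hM (1 / 2 + I * t0) (by simp [hR.le]))
  have h4 := (iter_eq h1 h2 m t0 (by simp)).1
  rw [h4]
  refine (Complex.abs_re_le_norm _).trans ?_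
  refine Complex.norm_iteratedDeriv_le_of_forall_mem_sphere_norm_le m hR ?_ ?_
  · refine DifferentiableOn.diffContOnCl (h1.mono ?_)
    rw [closure_ball _ hR.ne']
    exact closedBall_subset_ball hR1
  · intro z hz
    rw [mem_sphere, dist_eq_norm] at hz
    have hzb : z ∈ ball (t0 : ℂ) (1 / 4) := by
      rw [mem_ball, dist_eq_norm, hz]
      exact hR1
    have h5 : ‖riemannZeta (1 / 2 + I * z)‖ ≤ M := by
      apply hM
      have e1 : (1 / 2 + I * z) - (1 / 2 + I * (t0 : ℂ)) = I * (z - t0) := by ring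
      rw [e1, norm_mul, Complex.norm_I, one_mul, hz]
    have h6 : ‖riemannZeta (1 / 2 - I * z)‖ ≤ M := by
      have e1 : (1 / 2 - I * z) = (starRingEnd ℂ) (1 / 2 + I * (starRingEnd ℂ) z) := by
        rw [map_add, map_mul, Complex.conj_I, Complex.conj_conj, map_div₀, map_one,
          Complex.conj_ofNat]
        ring
      rw [e1, riemannZeta_conj, Complex.norm_conj]
      apply hM
      have e2 : (1 / 2 + I * (starRingEnd ℂ) z) - (1 / 2 + I * (t0 : ℂ)) =
          I * (starRingEnd ℂ) (z - t0) := by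
        rw [map_sub, Complex.conj_ofReal]; ring
      rw [e2, norm_mul, Complex.norm_I, one_mul, Complex.norm_conj, hz]
    have h7 := h3 z hzb
    have h8 : ‖W z‖ ^ 2 ≤ M ^ 2 := by
      rw [h7, sq]
      exact mul_le_mul h5 h6 (norm_nonneg _) hM0
    exact (pow_le_pow_iff_left₀ (norm_nonneg _) hM0 two_ne_zero).mp h8

end Pool.Agent.X117.DZ
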