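import Mathlib

/-!
# Alternating values and the positive part of a higher derivative
-/

namespace Pool.Agent.X117.DZ

open Set Filter Topology MeasureTheory

/-- alternating values of the derivatives -/
lemma alternate {f : ℝ → ℝ} {a b Λ σ : ℝ} (hab : a < b) (hΛ : 0 ≤ Λ) {m : ℕ}
    (hd : ∀ j, j < m → ∀ t ∈ Icc a b, DifferentiableAt ℝ (iteratedDeriv j f) t)
    {x : ℕ → ℝ} (hx : ∀ i, i ≤ m → x i ∈ Icc a b) (hx1 : ∀ i, i < m → x i < x (i + 1))
    (hx2 : ∀ i, i ≤ m → Λ ≤ σ * (-1) ^ i * f (x i)) (j : ℕ) : j ≤ m →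
      ∃ y : ℕ → ℝ, (∀ i, i + j ≤ m → y i ∈ Icc a b) ∧ (∀ i, i + j < m → y i < y (i + 1)) ∧
        ∀ i, i + j ≤ m → Λ * (2 / (b - a)) ^ j ≤ σ * (-1) ^ (i + j) * iteratedDeriv j f (y i) := by
  induction j with
  | zero =>
    intro _
    refine ⟨x, fun i hi => hx i hi, fun i hi => hx1 i hi, fun i hi => ?_⟩
    simpa using hx2 i hi
  | succ j ih =>
    intro hj
    obtain ⟨y, h1, h2, h3⟩ := ih (by omega)
    have hex : ∀ i, ∃ z, i + (j + 1) ≤ m → y i < z ∧ z < y (i + 1) ∧
        Λ * (2 / (b - a)) ^ (j + 1) ≤ σ * (-1) ^ (i + (j + 1)) * iteratedDeriv (j + 1) f z := by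
      intro i
      by_cases hi : i + (j + 1) ≤ m
      · have hlt := h2 i (by omega)
        have m1 := h1 i (by omega)
        have m2 := h1 (i + 1) (by omega)
        have hsub : Icc (y i) (y (i + 1)) ⊆ Icc a b := Icc_subset_Icc m1.1 m2.2
        obtain ⟨z, hz, hz2⟩ := exists_deriv_eq_slope (iteratedDeriv j f) hlt
          (fun t ht => (hd j (by omega) t (hsub ht)).continuousAt.continuousWithinAt)
          (fun t ht => (hd j (by omega) t (hsub (Ioo_subset_Icc_self ht))).differentiableWithinAt)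
        refine ⟨z, fun _ => ⟨hz.1, hz.2, ?_⟩⟩
        rw [iteratedDeriv_succ, hz2]
        have c1 := h3 i (by omega)
        have c2 := h3 (i + 1) (by omega)
        have hlen : 0 < y (i + 1) - y i := by linarith
        have hlen2 : y (i + 1) - y i ≤ b - a := by linarith [m1.1, m2.2]
        have e1 : σ * (-1) ^ (i + (j + 1)) *
            ((iteratedDeriv j f (y (i + 1)) - iteratedDeriv j f (y i)) / (y (i + 1) - y i)) =
            (σ * (-1) ^ (i + 1 + j) * iteratedDeriv j f (y (i + 1)) +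
              σ * (-1) ^ (i + j) * iteratedDeriv j f (y i)) / (y (i + 1) - y i) := by
          have e2 : (-1 : ℝ) ^ (i + (j + 1)) = -(-1) ^ (i + j) := by
            rw [← add_assoc, pow_succ]; ring
          have e3 : (-1 : ℝ) ^ (i + 1 + j) = -(-1) ^ (i + j) := by
            rw [add_right_comm, pow_succ]; ring
          rw [e2, e3]
          ring
        rw [e1, le_div_iff₀ hlen]
        have hP : 0 ≤ Λ * (2 / (b - a)) ^ j := by
          have : 0 < b - a := by linarith
          positivity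
        calc Λ * (2 / (b - a)) ^ (j + 1) * (y (i + 1) - y i) ≤
              Λ * (2 / (b - a)) ^ (j + 1) * (b - a) := by
                refine mul_le_mul_of_nonneg_left hlen2 ?_
                have : 0 < b - a := by linarith
                positivity
          _ = 2 * (Λ * (2 / (b - a)) ^ j) := by
                have : b - a ≠ 0 := by linarith
                rw [pow_succ]
                field_simp
          _ ≤ _ := by linarith
      · exact ⟨0, fun h => absurd h hi⟩
    choose z hz using hex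
    refine ⟨z, fun i hi => ?_, fun i hi => ?_, fun i hi => (hz i hi).2.2⟩
    · have m1 := h1 i (by omega)
      have m2 := h1 (i + 1) (by omega)
      exact ⟨by linarith [m1.1, (hz i hi).1], by linarith [m2.2, (hz i hi).2.1]⟩
    · have c1 := (hz i (by omega)).2.1
      have c2 := (hz (i + 1) (by omega)).1
      linarith

/-- the integral of the positive part of the `m`-th derivative -/
theorem integral_pos_part {f : ℝ → ℝ} {a b Λ σ : ℝ} (hab : a < b) (hΛ : 0 ≤ Λ) {m : ℕ}
    (hd : ∀ j, j ≤ m + 1 → ∀ t ∈ Icc a b, DifferentiableAt ℝ (iteratedDeriv j f) t)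
    {x : ℕ → ℝ} (hx : ∀ i, i ≤ m + 1 → x i ∈ Icc a b) (hx1 : ∀ i, i < m + 1 → x i < x (i + 1))
    (hx2 : ∀ i, i ≤ m + 1 → Λ ≤ σ * (-1) ^ (m + 1) * (-1) ^ i * f (x i)) :
    2 * (Λ * (2 / (b - a)) ^ m) ≤ ∫ t in a..b, max (σ * iteratedDeriv (m + 1) f t) 0 := by
  obtain ⟨y, h1, h2, h3⟩ := alternate (σ := σ * (-1) ^ (m + 1)) hab hΛ
    (fun j hj t ht => hd j (by omega) t ht) hx hx1 hx2 m (by omega)
  have m0 := h1 0 (by omega)
  have m1 := h1 1 (by omega)
  have hlt : y 0 < y 1 := h2 0 (by omega)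
  have c0 := h3 0 (by omega)
  have c1 := h3 1 (by omega)
  set g := iteratedDeriv m f with hg
  have hsub : Icc (y 0) (y 1) ⊆ Icc a b := Icc_subset_Icc m0.1 m1.2
  have hderiv : ∀ t ∈ Icc a b, HasDerivAt g (iteratedDeriv (m + 1) f t) t := by
    intro t ht
    rw [iteratedDeriv_succ]
    exact (hd m (by omega) t ht).hasDerivAt
  have hcont : ContinuousOn (iteratedDeriv (m + 1) f) (Icc a b) := fun t ht =>
    (hd (m + 1) le_rfl t ht).continuousAt.continuousWithinAt
  have hcont' : ContinuousOn (fun t => max (σ * iteratedDeriv (m + 1) f t) 0) (Icc a b) :=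
    (continuousOn_const.mul hcont).sup continuousOn_const
  have hftc : ∫ t in (y 0)..(y 1), iteratedDeriv (m + 1) f t = g (y 1) - g (y 0) := by
    refine intervalIntegral.integral_eq_sub_of_hasDerivAt (fun t ht => ?_) ?_
    · rw [uIcc_of_le hlt.le] at ht
      exact hderiv t (hsub ht)
    · exact (hcont.mono (by rw [uIcc_of_le hlt.le]; exact hsub)).intervalIntegrable
  have e1 : σ * (g (y 1) - g (y 0)) = ∫ t in (y 0)..(y 1), σ * iteratedDeriv (m + 1) f t := by
    rw [intervalIntegral.integral_const_mul, hftc]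
  have e2 : ∫ t in (y 0)..(y 1), σ * iteratedDeriv (m + 1) f t ≤
      ∫ t in (y 0)..(y 1), max (σ * iteratedDeriv (m + 1) f t) 0 := by
    refine intervalIntegral.integral_mono_on hlt.le ?_ ?_ fun t _ => le_max_left _ _
    · exact ((continuousOn_const.mul hcont).mono (by rw [uIcc_of_le hlt.le]; exact hsub)).intervalIntegrable
    · exact (hcont'.mono (by rw [uIcc_of_le hlt.le]; exact hsub)).intervalIntegrable
  have e3 : ∫ t in (y 0)..(y 1), max (σ * iteratedDeriv (m + 1) f t) 0 ≤
      ∫ t in a..b, max (σ * iteratedDeriv (m + 1) f t) 0 := by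
    refine intervalIntegral.integral_mono_interval m0.1 hlt.le m1.2 ?_ ?_
    · exact Filter.Eventually.of_forall fun t => le_max_right _ _
    · exact (hcont'.mono (by rw [uIcc_of_le hab.le])).intervalIntegrable
  have s0 : σ * (-1) ^ (m + 1) * (-1) ^ (0 + m) * g (y 0) = -(σ * g (y 0)) := by
    have : (-1 : ℝ) ^ (m + 1) * (-1) ^ (0 + m) = -1 := by
      rw [← pow_add]
      exact Odd.neg_one_pow ⟨m, by ring⟩
    rw [mul_assoc σ, this]
    ring
  have s1 : σ * (-1) ^ (m + 1) * (-1) ^ (1 + m) * g (y 1) = σ * g (y 1) := by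
    have : (-1 : ℝ) ^ (m + 1) * (-1) ^ (1 + m) = 1 := by
      rw [← pow_add]
      exact Even.neg_one_pow ⟨m + 1, by ring⟩
    rw [mul_assoc σ, this]
    ring
  rw [s0] at c0
  rw [s1] at c1
  linarith

end Pool.Agent.X117.DZ
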