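import Pool.Agent.X117.Deriv1
import Pool.Agent.Y745.UP.All

/-!
# Local integrals of powers of zeta and the size of zeta and of the derivatives of Hardy's function
-/

namespace Pool.Agent.X117.DZ

open Filter Topology MeasureTheory Complex H370 Set
open Pool.Agent.Y745.UP Pool.Agent.Y419.UP Pool.Agent.X117.HZ

/-- the local integral -/
noncomputable def Phi (k ρ R t : ℝ) : ℝ :=
  ∫ u in (-(2 * R))..(2 * R), ∫ v in (-ρ)..ρ, gz (2 * k) u (t + v)

lemma inner_cont {k : ℝ} (hk : 0 < k) (ρ : ℝ) :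
    Continuous fun p : ℝ × ℝ => ∫ v in (-ρ)..ρ, gz (2 * k) p.2 (p.1 + v) := by
  refine intervalIntegral.continuous_parametric_intervalIntegral_of_continuous' ?_ _ _
  exact (cont_gz (show 0 < 2 * k by linarith)).comp
    ((continuous_snd.comp continuous_fst).prodMk ((continuous_fst.comp continuous_fst).add continuous_snd))

lemma Phi_cont {k : ℝ} (hk : 0 < k) (ρ R : ℝ) : Continuous (Phi k ρ R) := by
  unfold Phi
  refine intervalIntegral.continuous_parametric_intervalIntegral_of_continuous' ?_ _ _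
  exact inner_cont hk ρ

lemma Phi_nonneg {k ρ R : ℝ} (hρ : 0 ≤ ρ) (hR : 0 ≤ R) (t : ℝ) : 0 ≤ Phi k ρ R t :=
  intervalIntegral.integral_nonneg (by linarith) fun _ _ =>
    intervalIntegral.integral_nonneg (by linarith) fun _ _ => gz_nonneg _ _ _

/-- the mean value of the local integrals -/
theorem Phi_int {k : ℝ} (hk : 0 < k) (hk2 : k ≤ 2) : ∃ C : ℝ, 1 ≤ C ∧ ∀ᶠ T : ℝ in atTop,
    ∀ ρ : ℝ, 0 ≤ ρ → ρ ≤ 1 → ∫ t in T..(2 * T), Phi k ρ (1 / Real.log T) t ≤
      C * ρ * (T * Real.log T ^ (k ^ 2 - 1)) := by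
  obtain ⟨C1, hC1, hs⟩ := Pool.Agent.Y568.UP.t_STRIP Pool.Agent.Y732.UP.t_SUBA
    Pool.Agent.Y745.UP.a_OUT k 2 hk hk2 two_pos
  refine ⟨8 * C1, by linarith, ?_⟩
  filter_upwards [hs, eventually_ge_atTop (10 : ℝ), Real.tendsto_log_atTop.eventually_ge_atTop 1]
    with T hT hT10 hL1
  intro ρ hρ0 hρ1
  have hL0 : 0 < Real.log T := by linarith
  set L := Real.log T with hL
  set R : ℝ := 1 / L with hR
  have hR0 : 0 < R := by positivity
  have hsw1 : ∫ t in T..(2 * T), Phi k ρ R t = ∫ u in (-(2 * R))..(2 * R), ∫ t in T..(2 * T),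
      ∫ v in (-ρ)..ρ, gz (2 * k) u (t + v) := by
    unfold Phi
    refine intervalIntegral_intervalIntegral_swap ?_
    refine ((inner_cont hk ρ).continuousOn.integrableOn_compact
      ((isCompact_uIcc (a := T) (b := 2 * T)).prod (isCompact_uIcc (a := -(2 * R)) (b := 2 * R)))).mono_set ?_
    exact prod_mono uIoc_subset_uIcc uIoc_subset_uIcc
  have hsw2 : ∀ u : ℝ, ∫ t in T..(2 * T), ∫ v in (-ρ)..ρ, gz (2 * k) u (t + v) =
      ∫ v in (-ρ)..ρ, ∫ t in T..(2 * T), gz (2 * k) u (t + v) := by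
    intro u
    refine intervalIntegral_intervalIntegral_swap ?_
    have hc : Continuous (Function.uncurry fun t v : ℝ => gz (2 * k) u (t + v)) :=
      (cont_gz1 (show 0 < 2 * k by linarith) u).comp (continuous_fst.add continuous_snd)
    refine (hc.continuousOn.integrableOn_compact
      ((isCompact_uIcc (a := T) (b := 2 * T)).prod (isCompact_uIcc (a := -ρ) (b := ρ)))).mono_set ?_
    exact prod_mono uIoc_subset_uIcc uIoc_subset_uIcc
  have hin : ∀ u ∈ Icc (-(2 * R)) (2 * R), ∀ v ∈ Icc (-ρ) ρ,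
      ∫ t in T..(2 * T), gz (2 * k) u (t + v) ≤ C1 * (T * L ^ (k ^ 2)) := by
    intro u hu v hv
    rw [intervalIntegral.integral_comp_add_right (fun t => gz (2 * k) u t) v]
    have hu' : |u| ≤ 2 / L := by
      rw [abs_le]
      have : 2 * R = 2 / L := by rw [hR]; ring
      rw [← this]
      exact ⟨hu.1, hu.2⟩
    have h1 := hT u hu'
    rw [← int_gz (by linarith)] at h1
    refine (mono_int (cont_gz1 (by linarith) u) (fun t => gz_nonneg _ _ _) ?_ ?_ ?_).trans h1
    · linarith [hv.1]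
    · linarith
    · linarith [hv.2]
  rw [hsw1]
  have hbd : ∀ u ∈ Icc (-(2 * R)) (2 * R), ∫ t in T..(2 * T), ∫ v in (-ρ)..ρ, gz (2 * k) u (t + v) ≤
      2 * ρ * (C1 * (T * L ^ (k ^ 2))) := by
    intro u hu
    rw [hsw2]
    have h2 : ∫ v in (-ρ)..ρ, ∫ t in T..(2 * T), gz (2 * k) u (t + v) ≤
        ∫ _ in (-ρ)..ρ, C1 * (T * L ^ (k ^ 2)) := by
      refine intervalIntegral.integral_mono_on (by linarith) ?_ (by simp) fun v hv => hin u hu v hv
      refine Continuous.intervalIntegrable ?_ _ _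
      refine intervalIntegral.continuous_parametric_intervalIntegral_of_continuous' ?_ _ _
      exact (cont_gz1 (show 0 < 2 * k by linarith) u).comp (continuous_snd.add continuous_fst)
    refine h2.trans (le_of_eq ?_)
    rw [intervalIntegral.integral_const, smul_eq_mul]
    ring
  have h3 : ∫ u in (-(2 * R))..(2 * R), ∫ t in T..(2 * T), ∫ v in (-ρ)..ρ, gz (2 * k) u (t + v) ≤
      ∫ _ in (-(2 * R))..(2 * R), 2 * ρ * (C1 * (T * L ^ (k ^ 2))) := by
    refine intervalIntegral.integral_mono_on (by linarith) ?_ (by simp) hbd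
    refine Continuous.intervalIntegrable ?_ _ _
    refine intervalIntegral.continuous_parametric_intervalIntegral_of_continuous' ?_ _ _
    exact (inner_cont hk ρ).comp (continuous_snd.prodMk continuous_fst)
  refine h3.trans (le_of_eq ?_)
  rw [intervalIntegral.integral_const, smul_eq_mul, Real.rpow_sub hL0, Real.rpow_one, hR]
  field_simp
  ring

/-- zeta is bounded by the local integral -/
theorem zeta_le_Phi {k ρ R t : ℝ} (hk : 0 < k) (hR : 0 < R) (hR1 : R ≤ 1) (hρ : 2 * R ≤ ρ) (hρ1 : ρ ≤ 2)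
    (ht : 10 ≤ t) {z : ℂ} (h1 : |z.re - 1 / 2| ≤ R) (h2 : |z.im - t| ≤ ρ - 2 * R) :
    ‖riemannZeta z‖ ^ (2 * k) ≤ 1 / (Real.pi * R ^ 2) * Phi k ρ R t := by
  rw [abs_le] at h2
  have h3 := sphere_le Pool.Agent.Y732.UP.t_SUBA (β := 2 * k) (R := R) (γ := z.im) (by linarith) hR
    (by linarith [h2.1]) (z := z) (by
      have e1 : z - (((1 / 2 : ℝ) : ℂ) + (z.im : ℂ) * I) = ((z.re - 1 / 2 : ℝ) : ℂ) := by
        apply Complex.ext <;> simp
      rw [e1, Complex.norm_real, Real.norm_eq_abs]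
      exact h1)
  refine h3.trans (mul_le_mul_of_nonneg_left ?_ (by positivity))
  unfold Phi
  refine intervalIntegral.integral_mono_on (by linarith) ?_ ?_ fun u _ => ?_
  · exact (cont_Hn (by linarith) R z.im).intervalIntegrable _ _
  · exact ((inner_cont hk ρ).comp (continuous_const.prodMk continuous_id)).intervalIntegrable _ _
  · unfold Hn
    have e2 : ∀ v : ℝ, gz (2 * k) u (z.im + v) = (fun w => gz (2 * k) u (t + w)) ((z.im - t) + v) := by
      intro v
      simp only
      congr 1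
      ring
    simp_rw [e2]
    rw [intervalIntegral.integral_comp_add_left (fun w => gz (2 * k) u (t + w)) (z.im - t)]
    refine mono_int ((cont_gz1 (by linarith) u).comp (continuous_const.add continuous_id))
      (fun t => gz_nonneg _ _ _) ?_ ?_ ?_
    · linarith [h2.1]
    · linarith
    · linarith [h2.2]

/-- the derivatives of Hardy's function are bounded by the local integral -/
theorem deriv_le_Phi {k R t : ℝ} (hk : 0 < k) (hR : 0 < R) (hR1 : R < 1 / 4) (ht : 10 ≤ t) (m : ℕ) :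
    |iteratedDeriv m Z t| ^ (2 * k) ≤
      (m.factorial / R ^ m) ^ (2 * k) * (1 / (Real.pi * R ^ 2) * Phi k (3 * R) R t) := by
  set P := 1 / (Real.pi * R ^ 2) * Phi k (3 * R) R t with hP
  have hP0 : 0 ≤ P := mul_nonneg (by positivity) (Phi_nonneg (by linarith) hR.le t)
  have hM : ∀ s : ℂ, ‖s - (1 / 2 + I * t)‖ ≤ R → ‖riemannZeta s‖ ≤ P ^ (1 / (2 * k)) := by
    intro s hs
    have h1 := (Complex.abs_re_le_norm (s - (1 / 2 + I * t))).trans hs
    have h2 := (Complex.abs_im_le_norm (s - (1 / 2 + I * t))).trans hs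
    have e1 : (s - (1 / 2 + I * (t : ℂ))).re = s.re - 1 / 2 := by simp
    have e2 : (s - (1 / 2 + I * (t : ℂ))).im = s.im - t := by simp
    rw [e1] at h1
    rw [e2] at h2
    have h3 := zeta_le_Phi (ρ := 3 * R) hk hR (by linarith) (by linarith) (by linarith) ht h1
      (by linarith)
    have h4 := Real.rpow_le_rpow (Real.rpow_nonneg (norm_nonneg _) _) h3
      (show 0 ≤ 1 / (2 * k) by positivity)
    rwa [← Real.rpow_mul (norm_nonneg _), mul_one_div_cancel (by positivity), Real.rpow_one] at h4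
  have h5 := cauchy (by linarith) hR hR1 hM m
  have h6 := Real.rpow_le_rpow (abs_nonneg _) h5 (show 0 ≤ 2 * k by linarith)
  refine h6.trans (le_of_eq ?_)
  have e3 : (m.factorial : ℝ) * P ^ (1 / (2 * k)) / R ^ m = (m.factorial / R ^ m) * P ^ (1 / (2 * k)) := by
    ring
  rw [e3, Real.mul_rpow (by positivity) (Real.rpow_nonneg hP0 _), ← Real.rpow_mul hP0,
    one_div_mul_cancel (by positivity), Real.rpow_one]

/-- the moments of the derivatives from above -/
theorem moment_up {k : ℝ} (hk : 0 < k) (hk2 : k ≤ 2) (m : ℕ) : ∃ C : ℝ, 1 ≤ C ∧ ∀ᶠ T : ℝ in atTop,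
    ∫ t in T..(2 * T), |iteratedDeriv m Z t| ^ (2 * k) ≤ C * (T * Real.log T ^ (k ^ 2 + 2 * k * m)) := by
  obtain ⟨C, hC, h⟩ := Phi_int hk hk2
  refine ⟨(m.factorial : ℝ) ^ (2 * k) * C * 3, ?_, ?_⟩
  · have h1 : (1 : ℝ) ≤ (m.factorial : ℝ) ^ (2 * k) := by
      apply Real.one_le_rpow _ (by linarith)
      exact_mod_cast Nat.succ_le_of_lt m.factorial_pos
    nlinarith
  filter_upwards [h, eventually_ge_atTop (10 : ℝ), Real.tendsto_log_atTop.eventually_ge_atTop 5]
    with T hT hT10 hL5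
  have hL0 : 0 < Real.log T := by linarith
  set L := Real.log T with hL
  set R : ℝ := 1 / L with hR
  have hR0 : 0 < R := by positivity
  have hR1 : R < 1 / 4 := by
    rw [hR]
    exact one_div_lt_one_div_of_lt (by norm_num) (by linarith)
  have h1 := hT (3 * R) (by positivity) (by linarith)
  have hcd : ContinuousOn (fun t => |iteratedDeriv m Z t| ^ (2 * k)) (Icc T (2 * T)) := by
    intro t ht
    have := (iter_diff m (t := t) (by linarith [ht.1])).continuousAt
    exact ((continuous_abs.continuousAt.comp this).rpow_const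
      (Or.inr (by linarith))).continuousWithinAt
  have h2 : ∫ t in T..(2 * T), |iteratedDeriv m Z t| ^ (2 * k) ≤
      ∫ t in T..(2 * T), (m.factorial / R ^ m) ^ (2 * k) * (1 / (Real.pi * R ^ 2) * Phi k (3 * R) R t) := by
    refine intervalIntegral.integral_mono_on (by linarith) ?_ ?_ fun t ht => ?_
    · exact (hcd.mono (by rw [uIcc_of_le (by linarith)])).intervalIntegrable
    · exact ((continuous_const.mul (continuous_const.mul (Phi_cont hk _ _)))).intervalIntegrable _ _
    · exact deriv_le_Phi hk hR0 hR1 (by linarith [ht.1]) m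
  rw [intervalIntegral.integral_const_mul, intervalIntegral.integral_const_mul] at h2
  refine h2.trans ?_
  have hpi : 1 ≤ Real.pi := by linarith [Real.pi_gt_three]
  have e1 : (m.factorial / R ^ m) ^ (2 * k) = (m.factorial : ℝ) ^ (2 * k) * L ^ (2 * k * m) := by
    rw [hR, one_div, inv_pow, div_inv_eq_mul, Real.mul_rpow (by positivity) (by positivity),
      ← Real.rpow_natCast, ← Real.rpow_mul hL0.le]
    congr 2
    ring
  have e2 : 1 / (Real.pi * R ^ 2) = L ^ 2 / Real.pi := by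
    rw [hR]
    field_simp
  rw [e1, e2]
  have h3 : L ^ 2 / Real.pi * ∫ t in T..(2 * T), Phi k (3 * R) R t ≤ C * 3 * (T * L ^ (k ^ 2)) := by
    have h4 : L ^ 2 / Real.pi ≤ L ^ 2 := div_le_self (by positivity) hpi
    have h5 : 0 ≤ ∫ t in T..(2 * T), Phi k (3 * R) R t :=
      intervalIntegral.integral_nonneg (by linarith) fun t _ => Phi_nonneg (by positivity) hR0.le t
    calc L ^ 2 / Real.pi * ∫ t in T..(2 * T), Phi k (3 * R) R t
        ≤ L ^ 2 * (C * (3 * R) * (T * L ^ (k ^ 2 - 1))) := by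
          exact mul_le_mul h4 h1 h5 (by positivity)
      _ = C * 3 * (T * L ^ (k ^ 2)) := by
          rw [Real.rpow_sub hL0, Real.rpow_one, hR]
          field_simp
  calc (m.factorial : ℝ) ^ (2 * k) * L ^ (2 * k * m) * (L ^ 2 / Real.pi * ∫ t in T..(2 * T), Phi k (3 * R) R t)
      ≤ (m.factorial : ℝ) ^ (2 * k) * L ^ (2 * k * m) * (C * 3 * (T * L ^ (k ^ 2))) :=
        mul_le_mul_of_nonneg_left h3 (by positivity)
    _ = (m.factorial : ℝ) ^ (2 * k) * C * 3 * (T * (L ^ (k ^ 2) * L ^ (2 * k * m))) := by ring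
    _ = _ := by rw [← Real.rpow_add hL0]

/-- the points near which zeta is large -/
theorem large_windows {κ η e : ℝ} (hκ : 0 < κ) (hκ2 : κ ≤ 2) (he : 0 < e) :
    ∃ C : ℝ, 1 ≤ C ∧ ∀ᶠ T : ℝ in atTop, ∀ ρ : ℝ, 2 / Real.log T ≤ ρ → ρ ≤ Real.log T ^ (e - 1) → ρ ≤ 1 →
      ∃ B : Set ℝ, MeasurableSet B ∧ B ⊆ Icc T (2 * T) ∧
        volume.real B ≤ C * (T * Real.log T ^ (-κ ^ 2 - 2 * κ * η + e)) ∧
        ∀ t ∈ Icc T (2 * T), t ∉ B → ∀ z : ℂ, |z.re - 1 / 2| ≤ 1 / Real.log T →
          |z.im - t| ≤ ρ - 2 / Real.log T → ‖riemannZeta z‖ ≤ Real.log T ^ (κ + η) := by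
  obtain ⟨C, hC, h⟩ := Phi_int hκ hκ2
  refine ⟨C, hC, ?_⟩
  filter_upwards [h, eventually_ge_atTop (10 : ℝ), Real.tendsto_log_atTop.eventually_ge_atTop 5]
    with T hT hT10 hL5
  intro ρ hρ1 hρ2 hρ3
  have hL0 : 0 < Real.log T := by linarith
  set L := Real.log T with hL
  have hR0 : 0 < 1 / L := by positivity
  have hρ0 : 0 < ρ := lt_of_lt_of_le (by positivity) hρ1
  set P : ℝ → ℝ := fun t => 1 / (Real.pi * (1 / L) ^ 2) * Phi κ ρ (1 / L) t with hP
  have hPc : Continuous P := continuous_const.mul (Phi_cont hκ _ _)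
  have hP0 : ∀ t, 0 ≤ P t := fun t => mul_nonneg (by positivity) (Phi_nonneg hρ0.le hR0.le t)
  set c : ℝ := L ^ (2 * κ * (κ + η)) with hc
  have hc0 : 0 < c := Real.rpow_pos_of_pos hL0 _
  refine ⟨Icc T (2 * T) ∩ {t | c < P t}, ?_, inter_subset_left, ?_, ?_⟩
  · exact measurableSet_Icc.inter (isOpen_lt continuous_const hPc).measurableSet
  · -- Markov
    have hm : MeasurableSet (Icc T (2 * T) ∩ {t | c < P t}) :=
      measurableSet_Icc.inter (isOpen_lt continuous_const hPc).measurableSet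
    have hPi : IntegrableOn P (Icc T (2 * T)) := hPc.continuousOn.integrableOn_compact isCompact_Icc
    have hfin : volume (Icc T (2 * T) ∩ {t | c < P t}) ≠ ⊤ :=
      (measure_lt_top_of_subset inter_subset_left
        (by rw [Real.volume_Icc]; exact ENNReal.ofReal_ne_top)).ne
    have h1 : ∫ _ in Icc T (2 * T) ∩ {t | c < P t}, c ≤ ∫ t in Icc T (2 * T) ∩ {t | c < P t}, P t :=
      setIntegral_mono_on (integrableOn_const hfin) (hPi.mono_set inter_subset_left) hm
        fun t ht => le_of_lt ht.2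
    rw [setIntegral_const, smul_eq_mul] at h1
    have h2 : ∫ t in Icc T (2 * T) ∩ {t | c < P t}, P t ≤ ∫ t in Icc T (2 * T), P t :=
      setIntegral_mono_set hPi (Filter.Eventually.of_forall hP0)
        (Filter.Eventually.of_forall inter_subset_left)
    have h3 : ∫ t in Icc T (2 * T), P t = 1 / (Real.pi * (1 / L) ^ 2) * ∫ t in T..(2 * T), Phi κ ρ (1 / L) t := by
      rw [integral_Icc_eq_integral_Ioc, ← intervalIntegral.integral_of_le (by linarith), hP,
        intervalIntegral.integral_const_mul]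
    have hpi : 1 ≤ Real.pi := by linarith [Real.pi_gt_three]
    have h4 : 1 / (Real.pi * (1 / L) ^ 2) ≤ L ^ 2 := by
      have e1 : 1 / (Real.pi * (1 / L) ^ 2) = L ^ 2 / Real.pi := by field_simp
      rw [e1]
      exact div_le_self (by positivity) hpi
    have h5 := hT ρ hρ0.le hρ3
    have h6 : 0 ≤ ∫ t in T..(2 * T), Phi κ ρ (1 / L) t :=
      intervalIntegral.integral_nonneg (by linarith) fun t _ => Phi_nonneg hρ0.le hR0.le t
    have h7 : 1 / (Real.pi * (1 / L) ^ 2) * ∫ t in T..(2 * T), Phi κ ρ (1 / L) t ≤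
        L ^ 2 * (C * L ^ (e - 1) * (T * L ^ (κ ^ 2 - 1))) := by
      refine mul_le_mul h4 (h5.trans ?_) h6 (by positivity)
      have : 0 ≤ T * L ^ (κ ^ 2 - 1) := by positivity
      gcongr
    have h8 : volume.real (Icc T (2 * T) ∩ {t | c < P t}) * c ≤
        L ^ 2 * (C * L ^ (e - 1) * (T * L ^ (κ ^ 2 - 1))) := by
      rw [h3] at h2
      linarith
    have h9 : C * (T * L ^ (-κ ^ 2 - 2 * κ * η + e)) * c = L ^ 2 * (C * L ^ (e - 1) * (T * L ^ (κ ^ 2 - 1))) := by
      have e2 : L ^ (-κ ^ 2 - 2 * κ * η + e) * c = L ^ (2 : ℝ) * (L ^ (e - 1) * L ^ (κ ^ 2 - 1)) := by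
        rw [hc, ← Real.rpow_add hL0, ← Real.rpow_add hL0, ← Real.rpow_add hL0]
        congr 1
        ring
      have e3 : L ^ (2 : ℝ) = L ^ 2 := by
        rw [← Real.rpow_natCast]
        norm_num
      rw [e3] at e2
      calc C * (T * L ^ (-κ ^ 2 - 2 * κ * η + e)) * c = C * T * (L ^ (-κ ^ 2 - 2 * κ * η + e) * c) := by ring
        _ = C * T * (L ^ 2 * (L ^ (e - 1) * L ^ (κ ^ 2 - 1))) := by rw [e2]
        _ = _ := by ring
    rw [← h9] at h8
    exact le_of_mul_le_mul_right h8 hc0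
  · intro t ht htB z hz1 hz2
    have hR1 : 1 / L ≤ 1 := by
      rw [div_le_one hL0]; linarith
    have e4 : 2 * (1 / L) = 2 / L := by ring
    have h1 := zeta_le_Phi (k := κ) (ρ := ρ) (t := t) hκ hR0 hR1 (by rw [e4]; exact hρ1) (by linarith)
      (by linarith [ht.1]) hz1 (by rw [e4]; exact hz2)
    have h2 : P t ≤ c := by
      by_contra h3
      exact htB ⟨ht, not_le.mp h3⟩
    have h3 : ‖riemannZeta z‖ ^ (2 * κ) ≤ c := h1.trans h2
    have h4 := Real.rpow_le_rpow (Real.rpow_nonneg (norm_nonneg _) _) h3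
      (show 0 ≤ 1 / (2 * κ) by positivity)
    rw [← Real.rpow_mul (norm_nonneg _), mul_one_div_cancel (by positivity), Real.rpow_one, hc,
      ← Real.rpow_mul hL0.le] at h4
    refine h4.trans (le_of_eq ?_)
    congr 1
    field_simp

end Pool.Agent.X117.DZ
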