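import Pool.Agent.X117.Peak3

/-!
# Windows in which Hardy's function has many alternating values of exceptional size
-/

namespace Pool.Agent.X117.DZ

open Filter Topology MeasureTheory Complex H370 Set
open Pool.Agent.X117.HZ Pool.Agent.X117.Peak
open Pool.Agent.Y745.LD (LL)

/-- one of the two points next to a simple zero has the given sign -/
lemma choose_side {g w d σ : ℝ} (hσ : σ = 1 ∨ σ = -1) (h0 : Z g = 0) (h1 : deriv Z g ≠ 0)
    (hw : 0 < w) (hwd : w < d) (hno : ∀ t, |t - g| < d → Z t = 0 → t = g) {Λ : ℝ}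
    (hl : Λ ≤ |Z (g - w)|) (hr : Λ ≤ |Z (g + w)|) :
    ∃ x, (x = g - w ∨ x = g + w) ∧ Λ ≤ σ * Z x := by
  have hs := side_sign hσ h0 h1 hno
  have habs : ∀ y : ℝ, 0 < σ * y → σ * y = |y| := by
    intro y hy
    rcases hσ with rfl | rfl
    · rw [one_mul] at hy ⊢
      exact (abs_of_pos hy).symm
    · rw [neg_one_mul] at hy ⊢
      exact (abs_of_neg (by linarith)).symm
  by_cases h : 0 < σ * deriv Z g
  · refine ⟨g + w, Or.inr rfl, ?_⟩
    rw [habs _ (hs (g + w) (Or.inl ⟨h, by linarith, by linarith⟩))]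
    exact hr
  · refine ⟨g - w, Or.inl rfl, ?_⟩
    rw [habs _ (hs (g - w) (Or.inr ⟨not_lt.mp h, by linarith, by linarith⟩))]
    exact hl

/-- alternating values from many zeros -/
lemma choose_points {S : Finset ℝ} {m : ℕ} (hS : m + 1 ≤ S.card) {w d Λ t r σ : ℝ}
    (hσ : σ = 1 ∨ σ = -1) (hw : 0 < w) (hwd : 2 * w < d)
    (h : ∀ g ∈ S, |g - t| ≤ r ∧ Z g = 0 ∧ deriv Z g ≠ 0 ∧ (∀ u, |u - g| < d → Z u = 0 → u = g) ∧
      Λ ≤ |Z (g - w)| ∧ Λ ≤ |Z (g + w)|) :
    ∃ x : ℕ → ℝ, (∀ i, i ≤ m → |x i - t| ≤ r + w) ∧ (∀ i, i < m → x i < x (i + 1)) ∧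
      ∀ i, i ≤ m → Λ ≤ σ * (-1) ^ i * Z (x i) := by
  obtain ⟨S', hS', hc⟩ := Finset.exists_subset_card_eq hS
  let e := S'.orderEmbOfFin hc
  have he : ∀ i, e i ∈ S := fun i => hS' (Finset.orderEmbOfFin_mem S' hc i)
  have hex : ∀ i : ℕ, ∃ x : ℝ, ∀ hi : i < m + 1, (x = e ⟨i, hi⟩ - w ∨ x = e ⟨i, hi⟩ + w) ∧
      Λ ≤ σ * (-1) ^ i * Z x := by
    intro i
    by_cases hi : i < m + 1
    · obtain ⟨-, h2, h3, h4, h5, h6⟩ := h (e ⟨i, hi⟩) (he _)
      have hσ' : σ * (-1) ^ i = 1 ∨ σ * (-1) ^ i = -1 := by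
        rcases hσ with rfl | rfl <;> rcases neg_one_pow_eq_or ℝ i with h7 | h7 <;> rw [h7] <;> norm_num
      obtain ⟨x, hx1, hx2⟩ := choose_side hσ' h2 h3 hw (by linarith) h4 h5 h6
      exact ⟨x, fun _ => ⟨hx1, hx2⟩⟩
    · exact ⟨0, fun h => absurd h hi⟩
  choose x hx using hex
  refine ⟨x, fun i hi => ?_, fun i hi => ?_, fun i hi => (hx i (by omega)).2⟩
  · obtain ⟨h1, -⟩ := h (e ⟨i, by omega⟩) (he _)
    rw [abs_le] at h1 ⊢
    rcases (hx i (by omega)).1 with h2 | h2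
    · rw [h2]
      constructor <;> linarith [h1.1, h1.2]
    · rw [h2]
      constructor <;> linarith [h1.1, h1.2]
  · have hlt : e ⟨i, by omega⟩ < e ⟨i + 1, by omega⟩ := e.strictMono (by
      rw [Fin.mk_lt_mk]; omega)
    obtain ⟨-, -, -, h4, -⟩ := h (e ⟨i, by omega⟩) (he _)
    obtain ⟨-, h2, -⟩ := h (e ⟨i + 1, by omega⟩) (he _)
    have hsep : d ≤ e ⟨i + 1, by omega⟩ - e ⟨i, by omega⟩ := by
      by_contra hcon
      have := h4 (e ⟨i + 1, by omega⟩) (by
        rw [abs_of_pos (by linarith)]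
        exact not_le.mp hcon) h2
      linarith
    have b1 : x i ≤ e ⟨i, by omega⟩ + w := by
      rcases (hx i (by omega)).1 with h2 | h2 <;> rw [h2] <;> linarith
    have b2 : e ⟨i + 1, by omega⟩ - w ≤ x (i + 1) := by
      rcases (hx (i + 1) (by omega)).1 with h2 | h2 <;> rw [h2] <;> linarith
    linarith

/-- windows with alternating values of exceptional size -/
theorem alt_windows (m : ℕ) (κ : ℝ) {ε : ℝ} (hε : 0 < ε) :
    ∀ᶠ T : ℝ in atTop, ∃ (r : ℝ) (E : Set ℝ), 0 < r ∧ r ≤ 1 ∧ r ≤ Real.log T ^ (ε - 1) ∧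
      MeasurableSet E ∧ E ⊆ Icc (T + 1) (2 * T - 1) ∧
      T * Real.log T ^ (-κ ^ 2 - ε) ≤ volume.real E ∧
      ∀ t ∈ E, ∀ σ : ℝ, (σ = 1 ∨ σ = -1) → ∃ x : ℕ → ℝ, (∀ i, i ≤ m → |x i - t| ≤ r) ∧
        (∀ i, i < m → x i < x (i + 1)) ∧
        ∀ i, i ≤ m → Real.log T ^ (κ - ε) ≤ σ * (-1) ^ i * Z (x i) := by
  classical
  obtain ⟨hmain, hc1, hc2⟩ := Pool.Agent.Results.MP_164d34_nt.ExceptionalValues.result
  set c₀ := Pool.Agent.Results.MP_164d34_nt.ExceptionalValues.c₀ with hc₀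
  set e : ℝ := min (ε / 4) (1 / 4) with he
  have he0 : 0 < e := by positivity
  have he1 : e ≤ ε / 4 := min_le_left _ _
  have he2 : e ≤ 1 / 4 := min_le_right _ _
  obtain ⟨δ0, hδ0, hmain⟩ := hmain e he0
  obtain ⟨η, hη, T₀, hmain⟩ := hmain κ
  set δ : ℝ := min δ0 1 with hδd
  have hδ : 0 < δ := lt_min hδ0 one_pos
  have hδ1 : δ ≤ 1 := min_le_right _ _
  have hδ2 : δ ≤ δ0 := min_le_left _ _
  obtain ⟨A1, hA1, hzup⟩ := Pool.Agent.Y914.LD.t_ZUP (κ ^ 2 + 1) (by positivity)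
  obtain ⟨θ, hθ0, hθ1, hnear⟩ := near_zero (κ := κ) he0 hδ hδ1 hA1
  have hLe : Tendsto (fun T : ℝ => Real.log T ^ e) atTop atTop :=
    (tendsto_rpow_atTop he0).comp Real.tendsto_log_atTop
  have hLη : Tendsto (fun T : ℝ => Real.log T ^ η) atTop atTop :=
    (tendsto_rpow_atTop hη).comp Real.tendsto_log_atTop
  have hLh : Tendsto (fun T : ℝ => Real.log T ^ (1 / 2 : ℝ)) atTop atTop :=
    (tendsto_rpow_atTop (by norm_num)).comp Real.tendsto_log_atTop
  have hsmall : ∀ᶠ T : ℝ in atTop, 2048 / δ * Real.log T ^ (κ ^ 2 + 1) ≤ T := by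
    have h1 := (isLittleO_log_rpow_rpow_atTop (κ ^ 2 + 1) (one_pos)).bound
      (show (0 : ℝ) < δ / 2048 by positivity)
    filter_upwards [h1, eventually_ge_atTop (1 : ℝ),
      Real.tendsto_log_atTop.eventually_ge_atTop 1] with T h2 h3 h4
    rw [Real.rpow_one, Real.norm_of_nonneg (by positivity), Real.norm_of_nonneg (by linarith)] at h2
    calc 2048 / δ * Real.log T ^ (κ ^ 2 + 1) ≤ 2048 / δ * (δ / 2048 * T) :=
          mul_le_mul_of_nonneg_left h2 (by positivity)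
      _ = T := by field_simp
  filter_upwards [eventually_ge_atTop T₀, hzup, hnear, hLe.eventually_ge_atTop 2,
    hLη.eventually_ge_atTop (8 * (m + 1)), hsmall, hLh.eventually_ge_atTop (64 / δ + 4),
    Real.tendsto_log_atTop.eventually_ge_atTop 4, eventually_ge_atTop (10 : ℝ)]
    with T hT hE hn hL2 hLm hsm hL64 hL4 hT10
  obtain ⟨r, E0, hr1, hr2, hE0m, hE0s, hE0v, hE0t⟩ := hmain T hT
  obtain ⟨E, hEm, hEs, hEv, hEn⟩ := hE
  have hT0 : 0 < T := by linarith
  have hL0 : 0 < Real.log T := by linarith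
  have hL1 : 1 ≤ Real.log T := by linarith
  set L := Real.log T with hL
  have hr0 : 0 < r := lt_of_lt_of_le (Real.rpow_pos_of_pos hL0 _) hr1
  have hLh0 : 0 < L ^ (1 / 2 : ℝ) := Real.rpow_pos_of_pos hL0 _
  have hLhh : L ^ (-(1 / 2) : ℝ) * L ^ (1 / 2 : ℝ) = 1 := by
    rw [← Real.rpow_add hL0]; norm_num
  have hrh : r ≤ L ^ (-(1 / 2) : ℝ) :=
    hr2.trans (Real.rpow_le_rpow_of_exponent_le hL1 (by linarith))
  have hrq : r ≤ 1 / 4 := by
    refine hrh.trans ?_
    have h1 : 4 ≤ L ^ (1 / 2 : ℝ) := by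
      have : 0 ≤ 64 / δ := by positivity
      linarith
    have h2 : 0 ≤ L ^ (-(1 / 2) : ℝ) := by positivity
    nlinarith
  have hfin : ({g : ℝ | T < g ∧ g ≤ 2 * T ∧ Gd κ e δ0 g}).Finite := by
    refine (ords_finite (zW_finite T (2 * T) hT0)).subset ?_
    rintro g ⟨h5, h6, h7⟩
    exact ⟨h5.le, h6, 1 / 2 + I * g, h7.1, by simp, by simp; norm_num, by simp⟩
  set d : ℝ := δ / (2 * L) with hd
  have hd0 : 0 < d := by positivity
  have hd1 : d ≤ 1 / 2 := by
    rw [hd, div_le_div_iff₀ (by positivity) (by norm_num)]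
    linarith
  set E' : Set ℝ := E ∪ (Ioo (T - 1) (T + 3) ∪ Ioo (2 * T - 3) (2 * T + 1)) with hE'
  set G : Finset ℝ := hfin.toFinset with hG
  have hGm : ∀ g, g ∈ G ↔ T < g ∧ g ≤ 2 * T ∧ Gd κ e δ0 g := by
    intro g
    rw [hG, Set.Finite.mem_toFinset]
    rfl
  have hre : ∀ t : ℝ, (1 / 2 + I * (t : ℂ)).re = 1 / 2 := fun t => by simp
  have hisoR : ∀ g ∈ G, ∀ t : ℝ, riemannZeta (1 / 2 + I * t) = 0 → t ≠ g → d ≤ |t - g| := by
    intro g hg t h1 h2
    obtain ⟨a1, a2, a3⟩ := (hGm g).mp hg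
    have h3 := a3.2.2.1 (1 / 2 + I * t) h1 (by rw [hre]; norm_num) (by rw [hre]; norm_num) (by
      intro h
      have := congrArg Complex.im h
      simp at this
      exact h2 this)
    have e1 : (1 / 2 + I * (t : ℂ)) - (1 / 2 + I * (g : ℂ)) = I * ((t - g : ℝ) : ℂ) := by
      push_cast; ring
    rw [e1, norm_mul, Complex.norm_I, one_mul, Complex.norm_real, Real.norm_eq_abs] at h3
    refine le_trans ?_ h3
    have hb := (log_bounds hT10 a1 a2)
    have hg0 : 0 < Real.log g := by linarith [hb.1]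
    rw [hd, div_le_div_iff₀ (by positivity) hg0]
    exact mul_le_mul hδ2 hb.2 hg0.le hδ0.le
  -- the bad zeros
  have hE'top : volume E' ≠ ⊤ := by
    apply ne_of_lt
    refine lt_of_le_of_lt (measure_union_le _ _) (ENNReal.add_lt_top.mpr ⟨?_, ?_⟩)
    · exact measure_lt_top_of_subset hEs (by rw [Real.volume_Icc]; exact ENNReal.ofReal_ne_top)
    · refine lt_of_le_of_lt (measure_union_le _ _) (ENNReal.add_lt_top.mpr ⟨?_, ?_⟩) <;>
      · rw [Real.volume_Ioo]; exact ENNReal.ofReal_lt_top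
  have hE'v : volume.real E' ≤ T / L ^ (κ ^ 2 + 1) + 8 := by
    have h1 : volume.real E' ≤ volume.real E +
        volume.real (Ioo (T - 1) (T + 3) ∪ Ioo (2 * T - 3) (2 * T + 1)) := measureReal_union_le _ _
    have h2 : volume.real (Ioo (T - 1) (T + 3) ∪ Ioo (2 * T - 3) (2 * T + 1)) ≤
        volume.real (Ioo (T - 1) (T + 3)) + volume.real (Ioo (2 * T - 3) (2 * T + 1)) :=
      measureReal_union_le _ _
    rw [Real.volume_real_Ioo_of_le (by linarith), Real.volume_real_Ioo_of_le (by linarith)] at h2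
    linarith
  set Bd := G.filter fun g => Ioo (g - d / 2) (g + d / 2) ⊆ E' with hBd
  have hbad := card_le_volume (S := Bd) hd0 hE'top
    (by
      intro g hg g' hg' hne
      rw [hBd, Finset.mem_filter] at hg hg'
      rw [abs_sub_comm]
      exact hisoR g hg.1 g' ((hGm g').mp hg'.1).2.2.1 (Ne.symm hne))
    (fun g hg => (Finset.mem_filter.mp hg).2)
  set U : Set ℝ := ⋃ g ∈ Bd, Icc (g - r) (g + r) with hU
  have hUm : MeasurableSet U := Finset.measurableSet_biUnion _ fun g _ => measurableSet_Icc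
  have hUv : volume.real U ≤ Bd.card * (2 * r) := by
    refine (measureReal_biUnion_finset_le _ _).trans (le_of_eq ?_)
    rw [Finset.sum_congr rfl fun g _ => ?_, Finset.sum_const, nsmul_eq_mul]
    rw [Real.volume_real_Icc_of_le (by linarith)]
    ring
  have hUtop : volume U ≠ ⊤ := by
    apply ne_of_lt
    refine lt_of_le_of_lt (measure_biUnion_finset_le _ _) (ENNReal.sum_lt_top.mpr fun g _ => ?_)
    rw [Real.volume_Icc]
    exact ENNReal.ofReal_lt_top
  set w : ℝ := θ * (δ / (4 * L)) with hw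
  have hw0 : 0 < w := by positivity
  have hq : δ / (4 * L) = d / 2 := by rw [hd]; ring
  have hwd : 2 * w < d := by
    rw [hw, hq]
    nlinarith
  set F : Set ℝ := (E0 ∩ Icc (T + 1) (2 * T - 1)) \ U with hF
  refine ⟨r + w, F, by linarith, by linarith, ?_, (hE0m.inter measurableSet_Icc).diff hUm,
    fun t ht => ht.1.2, ?_, ?_⟩
  · -- the length
    have h1 : w ≤ L ^ (e - 1) := by
      have h2 : L ^ (-1 : ℝ) ≤ L ^ (e - 1) := Real.rpow_le_rpow_of_exponent_le hL1 (by linarith)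
      rw [Real.rpow_neg_one] at h2
      refine le_trans ?_ h2
      rw [hw]
      have h3 : δ / (4 * L) ≤ 1 / L := by
        rw [div_le_div_iff₀ (by positivity) hL0]
        nlinarith
      calc θ * (δ / (4 * L)) ≤ 1 * (1 / L) := by
            apply mul_le_mul (by linarith) h3 (by positivity) (by norm_num)
        _ = L⁻¹ := by rw [one_mul, one_div]
    calc r + w ≤ 2 * L ^ (e - 1) := by linarith
      _ ≤ L ^ e * L ^ (e - 1) := mul_le_mul_of_nonneg_right hL2 (by positivity)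
      _ = L ^ (2 * e - 1) := by rw [← Real.rpow_add hL0]; congr 1; ring
      _ ≤ L ^ (ε - 1) := Real.rpow_le_rpow_of_exponent_le hL1 (by linarith)
  · -- the measure
    have hFtop : volume F ≠ ⊤ := by
      have : F ⊆ Icc T (2 * T) := fun t ht => hE0s ht.1.1
      exact (measure_lt_top_of_subset this (by rw [Real.volume_Icc]; exact ENNReal.ofReal_ne_top)).ne
    have h1 : volume.real E0 ≤ volume.real F + (volume.real U + 2) := by
      have h2 : E0 ⊆ F ∪ (U ∪ (Icc T (T + 1) ∪ Icc (2 * T - 1) (2 * T))) := by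
        intro t ht
        have h3 := hE0s ht
        by_cases h4 : t ∈ U
        · exact Or.inr (Or.inl h4)
        by_cases h5 : T + 1 ≤ t
        · by_cases h6 : t ≤ 2 * T - 1
          · exact Or.inl ⟨⟨ht, h5, h6⟩, h4⟩
          · exact Or.inr (Or.inr (Or.inr ⟨(not_le.mp h6).le, h3.2⟩))
        · exact Or.inr (Or.inr (Or.inl ⟨h3.1, (not_le.mp h5).le⟩))
      have t1 : volume (Icc T (T + 1) ∪ Icc (2 * T - 1) (2 * T)) < ⊤ := by
        refine lt_of_le_of_lt (measure_union_le _ _) (ENNReal.add_lt_top.mpr ⟨?_, ?_⟩) <;>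
        · rw [Real.volume_Icc]; exact ENNReal.ofReal_lt_top
      have t2 : volume (U ∪ (Icc T (T + 1) ∪ Icc (2 * T - 1) (2 * T))) < ⊤ :=
        lt_of_le_of_lt (measure_union_le _ _) (ENNReal.add_lt_top.mpr ⟨hUtop.lt_top, t1⟩)
      have t3 : volume (F ∪ (U ∪ (Icc T (T + 1) ∪ Icc (2 * T - 1) (2 * T)))) ≠ ⊤ :=
        (lt_of_le_of_lt (measure_union_le _ _) (ENNReal.add_lt_top.mpr ⟨hFtop.lt_top, t2⟩)).ne
      have h7 := measureReal_mono h2 t3
      have h8 := measureReal_union_le (μ := volume) F (U ∪ (Icc T (T + 1) ∪ Icc (2 * T - 1) (2 * T)))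
      have h9 := measureReal_union_le (μ := volume) U (Icc T (T + 1) ∪ Icc (2 * T - 1) (2 * T))
      have h10 := measureReal_union_le (μ := volume) (Icc T (T + 1)) (Icc (2 * T - 1) (2 * T))
      rw [Real.volume_real_Icc_of_le (by linarith), Real.volume_real_Icc_of_le (by linarith)] at h10
      linarith
    have p1 : 0 < L ^ (-κ ^ 2 - e) := Real.rpow_pos_of_pos hL0 _
    have h2 : volume.real U ≤ 4 / δ * L ^ e * (T / L ^ (κ ^ 2 + 1) + 8) := by
      refine hUv.trans ?_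
      have h3 : (Bd.card : ℝ) ≤ (T / L ^ (κ ^ 2 + 1) + 8) / d := by
        rw [le_div_iff₀ hd0]
        exact hbad.trans hE'v
      have h4 : 2 * r ≤ 2 * L ^ (e - 1) := by linarith
      have h5 : 0 ≤ (T / L ^ (κ ^ 2 + 1) + 8) / d := by positivity
      calc (Bd.card : ℝ) * (2 * r) ≤ (T / L ^ (κ ^ 2 + 1) + 8) / d * (2 * L ^ (e - 1)) :=
            mul_le_mul h3 h4 (by positivity) h5
        _ = 4 / δ * L ^ e * (T / L ^ (κ ^ 2 + 1) + 8) := by
            rw [hd, Real.rpow_sub hL0, Real.rpow_one]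
            field_simp
            ring
    have e1 : L ^ e * L ^ (-κ ^ 2 - e) = L ^ (-κ ^ 2) := by
      rw [← Real.rpow_add hL0]; congr 1; ring
    have e2 : T / L ^ (κ ^ 2 + 1) = T * L ^ (-κ ^ 2 - 1) := by
      rw [div_eq_mul_inv, ← Real.rpow_neg hL0.le]
      congr 2
      ring
    have h3 : 4 / δ * L ^ e * (T / L ^ (κ ^ 2 + 1)) ≤ 1 / 4 * (T * L ^ (-κ ^ 2 - e)) := by
      rw [e2]
      have h4 : 16 / δ ≤ L ^ (1 / 2 : ℝ) := by
        have : 16 / δ ≤ 64 / δ := div_le_div_of_nonneg_right (by norm_num) hδ.le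
        linarith
      have h5 : L ^ (-κ ^ 2 - e) = L ^ (1 / 2 : ℝ) * (L ^ e * L ^ (-κ ^ 2 - 2 * e - 1 / 2)) := by
        rw [← Real.rpow_add hL0, ← Real.rpow_add hL0]; congr 1; ring
      have h6 : L ^ (-κ ^ 2 - 1) ≤ L ^ (-κ ^ 2 - 2 * e - 1 / 2) :=
        Real.rpow_le_rpow_of_exponent_le hL1 (by linarith)
      have h7 : 0 < L ^ (-κ ^ 2 - 2 * e - 1 / 2) := Real.rpow_pos_of_pos hL0 _
      have h8 : 0 < L ^ e := Real.rpow_pos_of_pos hL0 _
      rw [h5]
      calc 4 / δ * L ^ e * (T * L ^ (-κ ^ 2 - 1))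
          ≤ 4 / δ * L ^ e * (T * L ^ (-κ ^ 2 - 2 * e - 1 / 2)) := by gcongr
        _ = 1 / 4 * (T * (16 / δ * (L ^ e * L ^ (-κ ^ 2 - 2 * e - 1 / 2)))) := by ring
        _ ≤ 1 / 4 * (T * (L ^ (1 / 2 : ℝ) * (L ^ e * L ^ (-κ ^ 2 - 2 * e - 1 / 2)))) := by gcongr
    have h4 : 4 / δ * L ^ e * 8 + 2 ≤ 1 / 4 * (T * L ^ (-κ ^ 2 - e)) := by
      -- `T` is much larger
      have h5 : L ^ e ≤ L ^ (1 / 2 : ℝ) := Real.rpow_le_rpow_of_exponent_le hL1 (by linarith)
      have h6 : 2048 / δ * (L ^ (κ ^ 2 + 1) * L ^ (-κ ^ 2 - e)) ≤ T * L ^ (-κ ^ 2 - e) := by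
        rw [← mul_assoc]
        exact mul_le_mul_of_nonneg_right hsm p1.le
      have e3 : L ^ (κ ^ 2 + 1) * L ^ (-κ ^ 2 - e) = L ^ (1 - e) := by
        rw [← Real.rpow_add hL0]; congr 1; ring
      rw [e3] at h6
      have h7 : L ^ (1 / 2 : ℝ) ≤ L ^ (1 - e) := Real.rpow_le_rpow_of_exponent_le hL1 (by linarith)
      have h8 : 4 / δ * L ^ e * 8 ≤ 32 / δ * L ^ (1 / 2 : ℝ) := by
        calc 4 / δ * L ^ e * 8 = 32 / δ * L ^ e := by ring
          _ ≤ _ := mul_le_mul_of_nonneg_left h5 (by positivity)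
      have h9 : 2 ≤ 32 / δ * L ^ (1 / 2 : ℝ) := by
        have h10 : 1 ≤ 1 / δ := by rw [le_div_iff₀ hδ]; linarith
        have h11 : 4 ≤ L ^ (1 / 2 : ℝ) := by
          have : 0 ≤ 64 / δ := by positivity
          linarith
        have h12 : 32 / δ = 32 * (1 / δ) := by ring
        rw [h12]
        nlinarith
      have h10 : 2048 / δ * L ^ (1 / 2 : ℝ) ≤ 2048 / δ * L ^ (1 - e) :=
        mul_le_mul_of_nonneg_left h7 (by positivity)
      have h11 : 2048 / δ * L ^ (1 / 2 : ℝ) = 64 * (32 / δ * L ^ (1 / 2 : ℝ)) := by ring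
      nlinarith
    have h5 : T * L ^ (-κ ^ 2 - ε) * 2 ≤ T * L ^ (-κ ^ 2 - e) := by
      have e4 : L ^ (-κ ^ 2 - e) = L ^ (-κ ^ 2 - 2 * e) * L ^ e := by
        rw [← Real.rpow_add hL0]; congr 1; ring
      have h6 : L ^ (-κ ^ 2 - ε) ≤ L ^ (-κ ^ 2 - 2 * e) :=
        Real.rpow_le_rpow_of_exponent_le hL1 (by linarith)
      have h7 : 0 < L ^ (-κ ^ 2 - 2 * e) := Real.rpow_pos_of_pos hL0 _
      rw [e4]
      calc T * L ^ (-κ ^ 2 - ε) * 2 ≤ T * L ^ (-κ ^ 2 - 2 * e) * L ^ e := by gcongr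
        _ = _ := by ring
    have h6 : 4 / δ * L ^ e * (T / L ^ (κ ^ 2 + 1) + 8) =
        4 / δ * L ^ e * (T / L ^ (κ ^ 2 + 1)) + 4 / δ * L ^ e * 8 := by ring
    linarith
  · -- the points
    intro t ht σ hσ
    obtain ⟨⟨htE0, htI⟩, htU⟩ := ht
    obtain ⟨-, -, hcnt, -, -⟩ := hE0t t htE0
    have hgf := Pool.Agent.Results.MP_164d34_nt.ExceptionalValues.good_finite κ e δ0 (t - r) (t + r)
      (by linarith [htI.1])
    have hcard : m + 1 ≤ hgf.toFinset.card := by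
      rw [← Set.ncard_eq_toFinset_card _ hgf]
      have h1 : 8 * ((m : ℝ) + 1) ≤ r * L := by
        calc 8 * ((m : ℝ) + 1) ≤ L ^ η := hLm
          _ = L ^ (η - 1) * L := by
              rw [← Real.rpow_add_one hL0.ne']; congr 1; ring
          _ ≤ r * L := mul_le_mul_of_nonneg_right hr1 hL0.le
      have h2 : (m : ℝ) + 1 ≤ (c₀ - e) * (r * L / Real.pi) := by
        have hpi : Real.pi ≤ 3.15 := by linarith [Real.pi_lt_d2]
        have h3 : (0.4 : ℝ) ≤ c₀ - e := by linarith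
        have h4 : 8 * ((m : ℝ) + 1) / Real.pi ≤ r * L / Real.pi :=
          div_le_div_of_nonneg_right h1 Real.pi_pos.le
        have h5 : 2.5 * ((m : ℝ) + 1) ≤ 8 * ((m : ℝ) + 1) / Real.pi := by
          rw [le_div_iff₀ Real.pi_pos]
          have : (0 : ℝ) ≤ m := Nat.cast_nonneg m
          nlinarith
        have h6 : 0 ≤ r * L / Real.pi := by positivity
        nlinarith
      have h3 := h2.trans hcnt
      exact_mod_cast h3
    obtain ⟨x, hx1, hx2, hx3⟩ := choose_points (S := hgf.toFinset) (m := m) hcard (w := w) (d := d)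
      (Λ := L ^ (κ - 3 * e)) (t := t) (r := r) hσ hw0 hwd (by
      intro g hg
      rw [Set.Finite.mem_toFinset] at hg
      obtain ⟨g1, g2, g3⟩ := hg
      have hgd0 : Gd κ e δ0 g := g3
      have hgG : g ∈ G := (hGm g).mpr ⟨by linarith [htI.1], by linarith [htI.2], hgd0⟩
      have hgB : ¬ Ioo (g - d / 2) (g + d / 2) ⊆ E' := by
        intro hcon
        apply htU
        rw [hU, mem_iUnion₂]
        exact ⟨g, Finset.mem_filter.mpr ⟨hgG, hcon⟩, by linarith, by linarith⟩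
      obtain ⟨a1, a2, a3⟩ := (hGm g).mp hgG
      -- a point outside `E` near `g`
      obtain ⟨u, hu, huE⟩ := Set.not_subset.mp hgB
      have huE1 : u ∉ E := fun h => huE (Or.inl h)
      have huE2 : ¬ (T - 1 < u ∧ u < T + 3) := fun h => huE (Or.inr (Or.inl h))
      have huE3 : ¬ (2 * T - 3 < u ∧ u < 2 * T + 1) := fun h => huE (Or.inr (Or.inr h))
      have hua : T + 3 ≤ u := by
        by_contra h
        exact huE2 ⟨by linarith [hu.1], not_le.mp h⟩
      have hub : u ≤ 2 * T - 3 := by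
        by_contra h
        exact huE3 ⟨not_le.mp h, by linarith [hu.2]⟩
      have hdisc := hEn u ⟨by linarith, by linarith⟩ huE1
      have hsup : ∀ z : ℂ, ‖z - (1 / 2 + I * g)‖ ≤ δ / (4 * L) → ‖riemannZeta z‖ ≤ L ^ A1 := by
        intro z hz
        apply hdisc
        have h1 : z - (1 / 2 + (u : ℂ) * I) = (z - (1 / 2 + I * g)) + I * ((g - u : ℝ) : ℂ) := by
          push_cast; ring
        rw [h1]
        refine (norm_add_le _ _).trans ?_
        rw [norm_mul, Complex.norm_I, one_mul, Complex.norm_real, Real.norm_eq_abs]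
        have h2 : |g - u| ≤ d / 2 := by
          rw [abs_le]
          constructor
          · linarith [hu.2]
          · linarith [hu.1]
        have h3 : d ≤ 1 / L := by
          rw [hd, div_le_div_iff₀ (by positivity) hL0]
          nlinarith
        linarith
      have hgd : Gd κ e δ g := by
        obtain ⟨z0, z1, z2, z3, z4⟩ := a3
        refine ⟨z0, z1, fun s h1 h2 h3 h4 => le_trans ?_ (z2 s h1 h2 h3 h4), z3, z4⟩
        have hg0 : 0 < Real.log g := by linarith [(log_bounds hT10 a1 a2).1]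
        exact div_le_div_of_nonneg_right hδ2 hg0.le
      have hv := hn g a1 a2 hgd hsup
      refine ⟨?_, (Z_zero_iff g).mpr a3.1, ?_, ?_, ?_, ?_⟩
      · rw [abs_le]
        constructor <;> linarith
      · intro h
        have h1 := abs_deriv_Z g a3.1
        rw [h, abs_zero] at h1
        exact a3.2.1 (norm_eq_zero.mp h1.symm)
      · intro v h1 h2
        by_contra hne
        have h3 := hisoR g hgG v ((Z_zero_iff v).mp h2) hne
        linarith
      · rw [abs_Z]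
        refine hv (g - w) ?_
        rw [sub_sub_cancel_left, abs_neg, abs_of_pos hw0]
      · rw [abs_Z]
        refine hv (g + w) ?_
        rw [add_sub_cancel_left, abs_of_pos hw0])
    refine ⟨x, hx1, hx2, fun i hi => le_trans ?_ (hx3 i hi)⟩
    exact Real.rpow_le_rpow_of_exponent_le hL1 (by linarith)

end Pool.Agent.X117.DZ
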