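import Pool.Agent.X117.Deriv2
import Pool.Agent.X117.Deriv3
import Pool.Agent.X117.Deriv4

/-!
# Values and moments of the positive and negative parts of the derivatives of Hardy's function
-/

namespace Pool.Agent.X117.DZ

open Filter Topology MeasureTheory Complex H370 Set
open Pool.Agent.X117.HZ Pool.Agent.X117.Peak

/-- from windows to the whole interval -/
lemma spread {G : ℝ → ENNReal} (hG : Measurable G) {E : Set ℝ} (hE : MeasurableSet E) {a b r : ℝ}
    (hr : 0 < r) (hsub : E ⊆ Icc (a + r) (b - r)) {c : ENNReal}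
    (h : ∀ t ∈ E, ENNReal.ofReal (2 * r) * c ≤ ∫⁻ v in Icc (-r) r, G (t + v)) :
    volume E * c ≤ ∫⁻ u in Icc a b, G u := by
  have h2r : ENNReal.ofReal (2 * r) ≠ 0 := by
    rw [Ne, ENNReal.ofReal_eq_zero]
    linarith
  have hmain : ENNReal.ofReal (2 * r) * (volume E * c) ≤ ENNReal.ofReal (2 * r) * ∫⁻ u in Icc a b, G u := by
    have h1 : ENNReal.ofReal (2 * r) * (volume E * c) = ∫⁻ _ in E, ENNReal.ofReal (2 * r) * c := by
      rw [setLIntegral_const]
      ring
    have h2 : ∫⁻ _ in E, ENNReal.ofReal (2 * r) * c ≤ ∫⁻ t in E, ∫⁻ v in Icc (-r) r, G (t + v) :=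
      setLIntegral_mono' hE h
    have h3 : ∫⁻ t in E, ∫⁻ v in Icc (-r) r, G (t + v) =
        ∫⁻ t in E, ∫⁻ v in Icc (-r) r, (Icc a b).indicator G (t + v) := by
      refine setLIntegral_congr_fun hE fun t ht => ?_
      refine setLIntegral_congr_fun measurableSet_Icc fun v hv => ?_
      have := hsub ht
      rw [indicator_of_mem]
      exact ⟨by linarith [this.1, hv.1], by linarith [this.2, hv.2]⟩
    have hGi : Measurable ((Icc a b).indicator G) := hG.indicator measurableSet_Icc
    have h4 : ∫⁻ t in E, ∫⁻ v in Icc (-r) r, (Icc a b).indicator G (t + v) =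
        ∫⁻ v in Icc (-r) r, ∫⁻ t in E, (Icc a b).indicator G (t + v) := by
      refine lintegral_lintegral_swap ?_
      exact (hGi.comp (measurable_fst.add measurable_snd)).aemeasurable
    have h5 : ∀ v : ℝ, ∫⁻ t in E, (Icc a b).indicator G (t + v) ≤ ∫⁻ u in Icc a b, G u := by
      intro v
      refine (setLIntegral_le_lintegral E _).trans (le_of_eq ?_)
      rw [lintegral_add_right_eq_self (fun u => (Icc a b).indicator G u) v,
        lintegral_indicator measurableSet_Icc]
    have h6 : ∫⁻ v in Icc (-r) r, ∫⁻ t in E, (Icc a b).indicator G (t + v) ≤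
        ∫⁻ _ in Icc (-r) r, ∫⁻ u in Icc a b, G u := lintegral_mono fun v => h5 v
    have h7 : ∫⁻ _ in Icc (-r) r, ∫⁻ u in Icc a b, G u = ENNReal.ofReal (2 * r) * ∫⁻ u in Icc a b, G u := by
      rw [setLIntegral_const, Real.volume_Icc, mul_comm]
      congr 2
      ring
    rw [h1]
    exact h2.trans (by rw [h3, h4]; exact h6.trans h7.le)
  exact (ENNReal.mul_le_mul_iff_right h2r ENNReal.ofReal_ne_top).mp hmain

/-- the positive part of `σ Z^(m)` -/
noncomputable def pd (σ : ℝ) (m : ℕ) (t : ℝ) : ℝ := max (σ * iteratedDeriv m Z t) 0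

lemma pd_nonneg (σ : ℝ) (m : ℕ) (t : ℝ) : 0 ≤ pd σ m t := le_max_right _ _

lemma pd_meas (σ : ℝ) (n : ℕ) : Measurable (pd σ (n + 1)) := by
  unfold pd
  rw [iteratedDeriv_succ]
  exact ((measurable_deriv _).const_mul σ).max measurable_const

lemma dZ_meas (n : ℕ) : Measurable (iteratedDeriv (n + 1) Z) := by
  rw [iteratedDeriv_succ]
  exact measurable_deriv _

lemma pd_contOn (σ : ℝ) (m : ℕ) {a b : ℝ} (ha : 1 ≤ a) : ContinuousOn (pd σ m) (Icc a b) := by
  intro t ht
  have h1 := (iter_diff m (t := t) (by linarith [ht.1])).continuousAt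
  have h2 : ContinuousAt (pd σ m) t := ContinuousAt.sup (continuousAt_const.mul h1) continuousAt_const
  exact h2.continuousWithinAt

/-- the integral over a window -/
lemma window_integral {n : ℕ} {σ r t Λ : ℝ} (hr : 0 < r) (ht : 1 ≤ t - r) (hΛ : 0 ≤ Λ) (hσ : σ = 1 ∨ σ = -1)
    (h : ∀ σ : ℝ, (σ = 1 ∨ σ = -1) → ∃ x : ℕ → ℝ, (∀ i, i ≤ n + 1 → |x i - t| ≤ r) ∧
        (∀ i, i < n + 1 → x i < x (i + 1)) ∧ ∀ i, i ≤ n + 1 → Λ ≤ σ * (-1) ^ i * Z (x i)) :
    2 * (Λ * (1 / r) ^ n) ≤ ∫ v in (-r)..r, pd σ (n + 1) (t + v) := by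
  obtain ⟨x, h1, h2, h3⟩ := h (σ * (-1) ^ (n + 1)) (by
    rcases hσ with rfl | rfl <;> rcases neg_one_pow_eq_or ℝ (n + 1) with h7 | h7 <;> rw [h7] <;> norm_num)
  have h4 := integral_pos_part (f := Z) (a := t - r) (b := t + r) (σ := σ) (Λ := Λ) (m := n) (by linarith) hΛ
    (fun j _ u hu => iter_diff j (by linarith [hu.1])) (x := x)
    (fun i hi => by
      have := abs_le.mp (h1 i hi)
      exact ⟨by linarith [this.1], by linarith [this.2]⟩) h2 h3
  have e1 : 2 / (t + r - (t - r)) = 1 / r := by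
    rw [show t + r - (t - r) = 2 * r by ring, div_eq_div_iff (by positivity) (by positivity)]
    ring
  rw [e1] at h4
  refine h4.trans (le_of_eq ?_)
  rw [intervalIntegral.integral_comp_add_left (fun u => pd σ (n + 1) u) t]
  unfold pd
  congr 1

/-- the moment in a window -/
lemma window_moment {n : ℕ} {σ r t s p : ℝ} (hr : 0 < r) (ht : 1 ≤ t - r) (hs : 0 < s) (hp : 1 ≤ p)
    (h : 4 * r * s ≤ ∫ v in (-r)..r, pd σ (n + 1) (t + v)) :
    ENNReal.ofReal (2 * r) * ENNReal.ofReal (s ^ p) ≤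
      ∫⁻ v in Icc (-r) r, ENNReal.ofReal (pd σ (n + 1) (t + v) ^ p) := by
  have hc : ContinuousOn (fun v => pd σ (n + 1) (t + v)) (Icc (-r) r) := by
    have h1 := pd_contOn σ (n + 1) (a := t - r) (b := t + r) ht
    refine h1.comp (continuous_const.add continuous_id).continuousOn ?_
    intro v hv
    exact ⟨by show t - r ≤ t + v; linarith [hv.1], by show t + v ≤ t + r; linarith [hv.2]⟩
  have hcp : ContinuousOn (fun v => pd σ (n + 1) (t + v) ^ p) (Icc (-r) r) :=
    hc.rpow_const fun _ _ => Or.inr (by linarith)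
  have hpt : ∀ y : ℝ, 0 ≤ y → s ^ (p - 1) * (y - s) ≤ y ^ p := by
    intro y hy
    have hsp : 0 < s ^ (p - 1) := Real.rpow_pos_of_pos hs _
    rcases le_or_gt y s with h1 | h1
    · have : s ^ (p - 1) * (y - s) ≤ 0 := mul_nonpos_of_nonneg_of_nonpos hsp.le (by linarith)
      exact this.trans (Real.rpow_nonneg hy _)
    · have hy0 : 0 < y := by linarith
      have h2 : s ^ (p - 1) ≤ y ^ (p - 1) := Real.rpow_le_rpow hs.le h1.le (by linarith)
      have h3 : y ^ p = y ^ (p - 1) * y := by
        rw [← Real.rpow_add_one hy0.ne']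
        congr 1
        ring
      rw [h3]
      calc s ^ (p - 1) * (y - s) ≤ s ^ (p - 1) * y := by gcongr; linarith
        _ ≤ y ^ (p - 1) * y := by gcongr
  have h1 : ∫ v in (-r)..r, s ^ (p - 1) * (pd σ (n + 1) (t + v) - s) ≤
      ∫ v in (-r)..r, pd σ (n + 1) (t + v) ^ p := by
    refine intervalIntegral.integral_mono_on (by linarith) ?_ ?_ fun v _ => hpt _ (pd_nonneg _ _ _)
    · refine ContinuousOn.intervalIntegrable ?_
      rw [uIcc_of_le (by linarith)]
      exact continuousOn_const.mul (hc.sub continuousOn_const)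
    · refine ContinuousOn.intervalIntegrable ?_
      rw [uIcc_of_le (by linarith)]
      exact hcp
  rw [intervalIntegral.integral_const_mul, intervalIntegral.integral_sub (by
      refine ContinuousOn.intervalIntegrable ?_
      rw [uIcc_of_le (by linarith)]
      exact hc) (by simp), intervalIntegral.integral_const, smul_eq_mul] at h1
  have h2 : 2 * r * s ^ p ≤ ∫ v in (-r)..r, pd σ (n + 1) (t + v) ^ p := by
    refine le_trans ?_ h1
    have hsp : 0 < s ^ (p - 1) := Real.rpow_pos_of_pos hs _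
    have e1 : s ^ p = s ^ (p - 1) * s := by
      rw [← Real.rpow_add_one hs.ne']
      congr 1
      ring
    rw [e1]
    have : 2 * r * s ≤ (∫ v in (-r)..r, pd σ (n + 1) (t + v)) - (r - -r) * s := by linarith
    calc 2 * r * (s ^ (p - 1) * s) = s ^ (p - 1) * (2 * r * s) := by ring
      _ ≤ _ := mul_le_mul_of_nonneg_left this hsp.le
  rw [← ENNReal.ofReal_mul (by positivity)]
  refine (ENNReal.ofReal_le_ofReal h2).trans (le_of_eq ?_)
  rw [intervalIntegral.integral_of_le (by linarith), ← integral_Icc_eq_integral_Ioc]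
  exact ofReal_integral_eq_lintegral_ofReal (hcp.integrableOn_compact isCompact_Icc)
    (Filter.Eventually.of_forall fun v => Real.rpow_nonneg (pd_nonneg _ _ _) _)

/-- the measure in a window -/
lemma window_measure {n : ℕ} {σ r t s M : ℝ} (hr : 0 < r) (ht : 1 ≤ t - r) (hs : 0 < s) (hM : 0 < M)
    (hup : ∀ v ∈ Icc (-r) r, pd σ (n + 1) (t + v) ≤ M)
    (h : 4 * r * s ≤ ∫ v in (-r)..r, pd σ (n + 1) (t + v)) :
    ENNReal.ofReal (2 * r) * ENNReal.ofReal (s / M) ≤
      ∫⁻ v in Icc (-r) r, {u | s ≤ σ * iteratedDeriv (n + 1) Z u}.indicator 1 (t + v) := by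
  have hc : ContinuousOn (fun v => pd σ (n + 1) (t + v)) (Icc (-r) r) := by
    have h1 := pd_contOn σ (n + 1) (a := t - r) (b := t + r) ht
    refine h1.comp (continuous_const.add continuous_id).continuousOn ?_
    intro v hv
    exact ⟨by show t - r ≤ t + v; linarith [hv.1], by show t + v ≤ t + r; linarith [hv.2]⟩
  set S : Set ℝ := {u | s ≤ σ * iteratedDeriv (n + 1) Z u} with hS
  have hSm : MeasurableSet S := measurableSet_le measurable_const ((dZ_meas n).const_mul σ)
  have hind : Measurable fun v : ℝ => S.indicator (1 : ℝ → ENNReal) (t + v) :=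
    (measurable_one.indicator hSm).comp (measurable_const.add measurable_id)
  have h1 : ∫⁻ v in Icc (-r) r, ENNReal.ofReal (pd σ (n + 1) (t + v)) ≤
      ∫⁻ v in Icc (-r) r, (ENNReal.ofReal s + ENNReal.ofReal M * S.indicator 1 (t + v)) := by
    refine setLIntegral_mono' measurableSet_Icc fun v hv => ?_
    by_cases hv2 : t + v ∈ S
    · rw [indicator_of_mem hv2, Pi.one_apply, mul_one]
      exact (ENNReal.ofReal_le_ofReal (hup v hv)).trans le_add_self
    · rw [indicator_of_notMem hv2, mul_zero, add_zero]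
      refine ENNReal.ofReal_le_ofReal ?_
      unfold pd
      exact max_le (not_le.mp hv2).le hs.le
  rw [lintegral_add_left measurable_const, setLIntegral_const, lintegral_const_mul _ hind,
    Real.volume_Icc] at h1
  have h2 : ENNReal.ofReal (4 * r * s) ≤ ∫⁻ v in Icc (-r) r, ENNReal.ofReal (pd σ (n + 1) (t + v)) := by
    refine (ENNReal.ofReal_le_ofReal h).trans (le_of_eq ?_)
    rw [intervalIntegral.integral_of_le (by linarith), ← integral_Icc_eq_integral_Ioc]
    exact ofReal_integral_eq_lintegral_ofReal (hc.integrableOn_compact isCompact_Icc)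
      (Filter.Eventually.of_forall fun v => pd_nonneg _ _ _)
  have h3 := h2.trans h1
  have e1 : ENNReal.ofReal (4 * r * s) = ENNReal.ofReal s * ENNReal.ofReal (r - -r) +
      ENNReal.ofReal M * (ENNReal.ofReal (2 * r) * ENNReal.ofReal (s / M)) := by
    rw [← ENNReal.ofReal_mul hs.le, ← ENNReal.ofReal_mul (by positivity), ← ENNReal.ofReal_mul hM.le,
      ← ENNReal.ofReal_add (by nlinarith) (by positivity)]
    congr 1
    field_simp
    ring
  rw [e1, ENNReal.add_le_add_iff_left (ENNReal.mul_ne_top ENNReal.ofReal_ne_top ENNReal.ofReal_ne_top)] at h3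
  exact (ENNReal.mul_le_mul_iff_right (by rw [Ne, ENNReal.ofReal_eq_zero]; linarith)
    ENNReal.ofReal_ne_top).mp h3

end Pool.Agent.X117.DZ
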