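import Pool.Agent.X117.Deriv5

/-!
# Values and moments of the derivatives of Hardy's function from below and above
-/

namespace Pool.Agent.X117.DZ

open Filter Topology MeasureTheory Complex H370 Set
open Pool.Agent.X117.HZ Pool.Agent.X117.Peak

/-- the size of the windows and of the values -/
lemma size_aux {L r κ ε : ℝ} {n : ℕ} (hL : 1 ≤ L) (hLε : 2 ≤ L ^ ε) (hr : 0 < r) (hr2 : r ≤ L ^ (ε - 1)) :
    4 * r * L ^ (κ + (n + 1) - (n + 3) * ε) ≤ 2 * (L ^ (κ - ε) * (1 / r) ^ n) := by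
  have hL0 : 0 < L := by linarith
  have h1 : r ^ (n + 1) ≤ L ^ ((ε - 1) * (n + 1)) := by
    have h2 := pow_le_pow_left₀ hr.le hr2 (n + 1)
    rw [← Real.rpow_natCast (L ^ (ε - 1)), ← Real.rpow_mul hL0.le] at h2
    push_cast at h2
    exact h2
  have hrn : 0 < r ^ n := pow_pos hr n
  have e1 : 2 * (L ^ (κ - ε) * (1 / r) ^ n) = 2 * L ^ (κ - ε) / r ^ n := by
    rw [one_div, inv_pow]
    ring
  rw [e1, le_div_iff₀ hrn]
  have e2 : 4 * r * L ^ (κ + (n + 1) - (n + 3) * ε) * r ^ n =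
      4 * L ^ (κ + (n + 1) - (n + 3) * ε) * r ^ (n + 1) := by ring
  rw [e2]
  have h3 : L ^ (κ + (n + 1) - (n + 3) * ε) * L ^ ((ε - 1) * (n + 1)) = L ^ (κ - 2 * ε) := by
    rw [← Real.rpow_add hL0]
    congr 1
    ring
  have h4 : L ^ (κ - ε) = L ^ (κ - 2 * ε) * L ^ ε := by
    rw [← Real.rpow_add hL0]
    congr 1
    ring
  have h5 : 0 < L ^ (κ - 2 * ε) := Real.rpow_pos_of_pos hL0 _
  have h6 : 0 < L ^ (κ + (n + 1) - (n + 3) * ε) := Real.rpow_pos_of_pos hL0 _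
  calc 4 * L ^ (κ + (n + 1) - (n + 3) * ε) * r ^ (n + 1)
      ≤ 4 * L ^ (κ + (n + 1) - (n + 3) * ε) * L ^ ((ε - 1) * (n + 1)) := by gcongr
    _ = 2 * (L ^ (κ - 2 * ε) * 2) := by rw [mul_assoc, h3]; ring
    _ ≤ 2 * (L ^ (κ - 2 * ε) * L ^ ε) := by gcongr
    _ = _ := by rw [h4]

/-- the points at which `σ Z^(m)` is large -/
def big (σ : ℝ) (m : ℕ) (κ T : ℝ) : Set ℝ :=
  {t : ℝ | T ≤ t ∧ t ≤ 2 * T ∧ Real.log T ^ (m + κ) ≤ σ * iteratedDeriv m Z t}

lemma big_meas (σ : ℝ) (n : ℕ) (κ T : ℝ) : MeasurableSet (big σ (n + 1) κ T) := by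
  have h : big σ (n + 1) κ T = Icc T (2 * T) ∩
      {t | Real.log T ^ (((n + 1 : ℕ) : ℝ) + κ) ≤ σ * iteratedDeriv (n + 1) Z t} := by
    ext t
    simp [big, and_assoc]
  rw [h]
  exact measurableSet_Icc.inter (measurableSet_le measurable_const ((dZ_meas n).const_mul σ))

lemma big_sub (σ : ℝ) (m : ℕ) (κ T : ℝ) : big σ m κ T ⊆ Icc T (2 * T) := fun _ h => ⟨h.1, h.2.1⟩

lemma big_fin (σ : ℝ) (m : ℕ) (κ T : ℝ) : volume (big σ m κ T) ≠ ⊤ :=
  (measure_lt_top_of_subset (big_sub σ m κ T)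
    (by rw [Real.volume_Icc]; exact ENNReal.ofReal_ne_top)).ne

/-- the measure of large values, before the choice of the parameters -/
lemma big_aux {κ ε η κ' : ℝ} (hκ' : 0 < κ') (hκ'2 : κ' ≤ 2) (hε : 0 < ε) (hε4 : ε ≤ 1 / 4)
    (hη : -κ' ^ 2 - 2 * κ' * (κ + η - κ') + 2 * ε ≤ -κ ^ 2 - 2 * ε) (n : ℕ) {σ : ℝ} (hσ : σ = 1 ∨ σ = -1) :
    ∀ᶠ T : ℝ in atTop, T * Real.log T ^ (-κ ^ 2 - (n + 6) * ε - η) ≤
      volume.real (big σ (n + 1) (κ - (n + 3) * ε) T) := by
  obtain ⟨C, hC, hB⟩ := large_windows (κ := κ') (η := κ + η - κ') (e := 2 * ε) hκ' hκ'2 (by positivity)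
  have hLε : Tendsto (fun T : ℝ => Real.log T ^ ε) atTop atTop :=
    (tendsto_rpow_atTop hε).comp Real.tendsto_log_atTop
  filter_upwards [alt_windows (n + 1) κ hε, hB, hLε.eventually_ge_atTop 5,
    hLε.eventually_ge_atTop (2 * C), hLε.eventually_ge_atTop ((n + 1).factorial : ℝ),
    Real.tendsto_log_atTop.eventually_ge_atTop 5, eventually_ge_atTop (10 : ℝ)]
    with T hT hTB hL5 hLC hLf hLL hT10
  obtain ⟨r, E, hr0, hr1, hr2, hEm, hEs, hEv, hEx⟩ := hT
  have hT0 : 0 < T := by linarith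
  have hL0 : 0 < Real.log T := by linarith
  have hL1 : 1 ≤ Real.log T := by linarith
  set L := Real.log T with hL
  have hLe : L ^ (-1 : ℝ) = 1 / L := by rw [Real.rpow_neg_one, one_div]
  have hρ : r + 3 / L ≤ L ^ (2 * ε - 1) := by
    have h1 : 3 / L = 3 * L ^ (-1 : ℝ) := by rw [hLe]; ring
    have h2 : L ^ (-1 : ℝ) ≤ L ^ (ε - 1) := Real.rpow_le_rpow_of_exponent_le hL1 (by linarith)
    have h3 : L ^ (2 * ε - 1) = L ^ ε * L ^ (ε - 1) := by
      rw [← Real.rpow_add hL0]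
      congr 1
      ring
    have h4 : 0 < L ^ (ε - 1) := Real.rpow_pos_of_pos hL0 _
    rw [h1, h3]
    nlinarith
  have hρ1 : r + 3 / L ≤ 1 := hρ.trans (Real.rpow_le_one_of_one_le_of_nonpos hL1 (by linarith))
  obtain ⟨B, hBm, hBs, hBv, hBz⟩ := hTB (r + 3 / L) (by
    have : 2 / L ≤ 3 / L := div_le_div_of_nonneg_right (by norm_num) hL0.le
    linarith) hρ hρ1
  -- the remaining windows
  have hBv' : volume.real B ≤ 1 / 2 * (T * L ^ (-κ ^ 2 - ε)) := by
    refine hBv.trans ?_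
    have h1 : L ^ (-κ' ^ 2 - 2 * κ' * (κ + η - κ') + 2 * ε) ≤ L ^ (-κ ^ 2 - 2 * ε) :=
      Real.rpow_le_rpow_of_exponent_le hL1 hη
    have h2 : L ^ (-κ ^ 2 - ε) = L ^ (-κ ^ 2 - 2 * ε) * L ^ ε := by
      rw [← Real.rpow_add hL0]
      congr 1
      ring
    have h3 : 0 < L ^ (-κ ^ 2 - 2 * ε) := Real.rpow_pos_of_pos hL0 _
    rw [h2]
    calc C * (T * L ^ (-κ' ^ 2 - 2 * κ' * (κ + η - κ') + 2 * ε)) ≤ C * (T * L ^ (-κ ^ 2 - 2 * ε)) := by gcongr
      _ = 1 / 2 * (T * (L ^ (-κ ^ 2 - 2 * ε) * (2 * C))) := by ring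
      _ ≤ _ := by gcongr
  have hIcc : volume (Icc T (2 * T)) ≠ ⊤ := by rw [Real.volume_Icc]; exact ENNReal.ofReal_ne_top
  have hBfin : volume B ≠ ⊤ := (measure_lt_top_of_subset hBs hIcc).ne
  have hEfin : volume E ≠ ⊤ := (measure_lt_top_of_subset hEs
    (by rw [Real.volume_Icc]; exact ENNReal.ofReal_ne_top)).ne
  set E' : Set ℝ := E \ B with hE'
  have hE'fin : volume E' ≠ ⊤ := ne_top_of_le_ne_top hEfin (measure_mono sdiff_subset)
  have hE'v : 1 / 2 * (T * L ^ (-κ ^ 2 - ε)) ≤ volume.real E' := by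
    have h1 : volume.real E ≤ volume.real E' + volume.real (E ∩ B) := by
      rw [hE', measureReal_sdiff_add_inter hBm hEfin]
    have h2 : volume.real (E ∩ B) ≤ volume.real B := measureReal_mono inter_subset_right hBfin
    linarith
  -- the bound for the derivative
  set s : ℝ := L ^ (κ + (n + 1) - (n + 3) * ε) with hs
  have hs0 : 0 < s := Real.rpow_pos_of_pos hL0 _
  set M : ℝ := (n + 1).factorial * L ^ (κ + η) / (1 / L) ^ (n + 1) with hM
  have hM0 : 0 < M := by positivity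
  have hup : ∀ t ∈ E', ∀ v ∈ Icc (-r) r, pd σ (n + 1) (t + v) ≤ M := by
    intro t ht v hv
    have htI := hEs ht.1
    have h1 := cauchy (t0 := t + v) (R := 1 / L) (M := L ^ (κ + η)) (by linarith [htI.1, hv.1])
      (by positivity) (one_div_lt_one_div_of_lt (by norm_num) (by linarith)) (by
        intro z hz
        have h2 := (Complex.abs_re_le_norm _).trans hz
        have h3 := (Complex.abs_im_le_norm _).trans hz
        have e1 : (z - (1 / 2 + I * ((t + v : ℝ) : ℂ))).re = z.re - 1 / 2 := by simp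
        have e2 : (z - (1 / 2 + I * ((t + v : ℝ) : ℂ))).im = z.im - (t + v) := by simp
        rw [e1] at h2
        rw [e2] at h3
        have h4 := hBz t ⟨by linarith [htI.1], by linarith [htI.2]⟩ ht.2 z h2 (by
          have h5 : |z.im - t| ≤ |z.im - (t + v)| + |v| := by
            have : z.im - t = (z.im - (t + v)) + v := by ring
            rw [this]
            exact abs_add_le _ _
          have h6 : |v| ≤ r := abs_le.mpr hv
          have h7 : r + 3 / L - 2 / L = r + 1 / L := by ring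
          rw [h7]
          linarith)
        have e3 : κ' + (κ + η - κ') = κ + η := by ring
        rwa [e3] at h4) (n + 1)
    unfold pd
    refine max_le (le_trans ?_ h1) hM0.le
    rcases hσ with rfl | rfl
    · rw [one_mul]
      exact le_abs_self _
    · rw [neg_one_mul]
      exact neg_le_abs _
  -- spread
  have hG : Measurable ({u | s ≤ σ * iteratedDeriv (n + 1) Z u}.indicator (1 : ℝ → ENNReal)) :=
    measurable_one.indicator (measurableSet_le measurable_const ((dZ_meas n).const_mul σ))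
  have hsp := spread hG (hEm.diff hBm) (a := T) (b := 2 * T) (r := r) hr0 (by
      intro t ht
      have := hEs ht.1
      exact ⟨by linarith [this.1], by linarith [this.2]⟩) (c := ENNReal.ofReal (s / M)) (by
    intro t ht
    have htI := hEs ht.1
    refine window_measure hr0 (by linarith [htI.1]) hs0 hM0 (hup t ht) ?_
    have h1 := window_integral (n := n) (σ := σ) (r := r) (t := t) (Λ := L ^ (κ - ε)) hr0
      (by linarith [htI.1]) (by positivity) hσ (hEx t ht.1)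
    exact (size_aux hL1 (by linarith) hr0 hr2).trans h1)
  have hbig : ∫⁻ u in Icc T (2 * T), {u | s ≤ σ * iteratedDeriv (n + 1) Z u}.indicator (1 : ℝ → ENNReal) u =
      volume (big σ (n + 1) (κ - (n + 3) * ε) T) := by
    rw [setLIntegral_indicator (measurableSet_le measurable_const ((dZ_meas n).const_mul σ))]
    simp only [Pi.one_apply]
    rw [setLIntegral_one]
    congr 1
    ext u
    have e1 : ((n + 1 : ℕ) : ℝ) + (κ - (n + 3) * ε) = κ + (n + 1) - (n + 3) * ε := by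
      push_cast
      ring
    simp only [big, mem_inter_iff, mem_setOf_eq, mem_Icc, e1, ← hL, ← hs]
    tauto
  rw [hbig] at hsp
  have h1 : volume.real E' * (s / M) ≤ volume.real (big σ (n + 1) (κ - (n + 3) * ε) T) := by
    have h2 := ENNReal.toReal_mono (big_fin σ (n + 1) (κ - (n + 3) * ε) T) hsp
    rwa [ENNReal.toReal_mul, ENNReal.toReal_ofReal (by positivity)] at h2
  refine le_trans ?_ h1
  have h2 : L ^ (-(n + 4) * ε - η) ≤ s / M := by
    rw [le_div_iff₀ hM0, hM, hs]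
    have e1 : (n + 1).factorial * L ^ (κ + η) / (1 / L) ^ (n + 1) =
        (n + 1).factorial * (L ^ (κ + η) * L ^ ((n : ℝ) + 1)) := by
      rw [one_div, inv_pow, div_inv_eq_mul, ← Real.rpow_natCast L (n + 1)]
      push_cast
      ring
    rw [e1]
    have e2 : L ^ (κ + (n + 1) - (n + 3) * ε) = L ^ (-(n + 4) * ε - η) * (L ^ ε * (L ^ (κ + η) * L ^ ((n : ℝ) + 1))) := by
      rw [← Real.rpow_add hL0, ← Real.rpow_add hL0, ← Real.rpow_add hL0]
      congr 1
      ring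
    rw [e2]
    have p1 : 0 < L ^ (κ + η) * L ^ ((n : ℝ) + 1) := by positivity
    have p2 : 0 < L ^ (-(n + 4) * ε - η) := Real.rpow_pos_of_pos hL0 _
    gcongr
  have h3 : L ^ (-κ ^ 2 - (n + 6) * ε - η) ≤ 1 / 2 * L ^ (-κ ^ 2 - ε) * L ^ (-(n + 4) * ε - η) := by
    have e1 : L ^ (-κ ^ 2 - ε) * L ^ (-(n + 4) * ε - η) = L ^ (-κ ^ 2 - (n + 6) * ε - η) * L ^ ε := by
      rw [← Real.rpow_add hL0, ← Real.rpow_add hL0]
      congr 1
      ring
    have p1 : 0 < L ^ (-κ ^ 2 - (n + 6) * ε - η) := Real.rpow_pos_of_pos hL0 _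
    nlinarith
  have p1 : 0 < L ^ (-(n + 4) * ε - η) := Real.rpow_pos_of_pos hL0 _
  have p2 : 0 ≤ volume.real E' := measureReal_nonneg
  calc T * L ^ (-κ ^ 2 - (n + 6) * ε - η) ≤ T * (1 / 2 * L ^ (-κ ^ 2 - ε) * L ^ (-(n + 4) * ε - η)) := by gcongr
    _ = 1 / 2 * (T * L ^ (-κ ^ 2 - ε)) * L ^ (-(n + 4) * ε - η) := by ring
    _ ≤ volume.real E' * (s / M) := mul_le_mul hE'v h2 p1.le p2

/-- large values of `σ Z^(m)` from below -/
theorem big_ge {κ : ℝ} (hκ : 0 < κ) (hκ2 : κ ≤ 2) {ε : ℝ} (hε : 0 < ε) (n : ℕ) {σ : ℝ} (hσ : σ = 1 ∨ σ = -1) :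
    ∀ᶠ T : ℝ in atTop, T * Real.log T ^ (-κ ^ 2 - ε) ≤ volume.real (big σ (n + 1) κ T) := by
  -- the choice of the parameter
  have hcont : ContinuousAt (fun e : ℝ => -(κ + (n + 3) * e) ^ 2 - (n + 6) * e -
      (((n + 3) * e) ^ 2 + 4 * e) / (2 * κ)) 0 := by
    refine Continuous.continuousAt ?_
    fun_prop
  have hev : ∀ᶠ e : ℝ in 𝓝[>] 0, -κ ^ 2 - ε < -(κ + (n + 3) * e) ^ 2 - (n + 6) * e -
      (((n + 3) * e) ^ 2 + 4 * e) / (2 * κ) := by
    refine (hcont.tendsto.mono_left nhdsWithin_le_nhds).eventually (lt_mem_nhds ?_)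
    simp only [mul_zero, add_zero, sub_zero, ne_eq, OfNat.ofNat_ne_zero, not_false_eq_true, zero_pow, zero_div]
    linarith
  have hev2 : ∀ᶠ e : ℝ in 𝓝[>] 0, e < 1 / 4 :=
    nhdsWithin_le_nhds (gt_mem_nhds (by norm_num))
  obtain ⟨e, he1, he2, he3⟩ := (hev.and (hev2.and self_mem_nhdsWithin)).exists
  have he0 : 0 < e := he3
  have h := big_aux (κ := κ + (n + 3) * e) (ε := e) (η := (((n + 3) * e) ^ 2 + 4 * e) / (2 * κ)) (κ' := κ)
    hκ hκ2 he0 he2.le (by
      have : 2 * κ * ((((n + 3) * e) ^ 2 + 4 * e) / (2 * κ)) = ((n + 3) * e) ^ 2 + 4 * e := by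
        field_simp
      nlinarith) n hσ
  filter_upwards [h, Real.tendsto_log_atTop.eventually_ge_atTop 1, eventually_ge_atTop 0] with T hT hL hT0
  rw [add_sub_cancel_right] at hT
  refine le_trans ?_ hT
  refine mul_le_mul_of_nonneg_left ?_ hT0
  exact Real.rpow_le_rpow_of_exponent_le hL he1.le

end Pool.Agent.X117.DZ
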