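import Pool.Agent.X117.Deriv6

/-!
# Moments of the positive and negative parts of the derivatives of Hardy's function
-/

namespace Pool.Agent.X117.DZ

open Filter Topology MeasureTheory Complex H370 Set
open Pool.Agent.X117.HZ Pool.Agent.X117.Peak

/-- the `2 k`-th moment of the positive part of `σ Z^(m)` -/
noncomputable def pmom (σ : ℝ) (m : ℕ) (k T : ℝ) : ℝ := ∫ t in T..(2 * T), pd σ m t ^ (2 * k)

lemma pdpow_contOn (σ : ℝ) (m : ℕ) {k a b : ℝ} (ha : 1 ≤ a) (hk : 0 < k) :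
    ContinuousOn (fun t => pd σ m t ^ (2 * k)) (Icc a b) :=
  (pd_contOn σ m ha).rpow_const fun _ _ => Or.inr (by linarith)

lemma ofReal_pmom {σ : ℝ} {m : ℕ} {k T : ℝ} (hk : 0 < k) (hT : 1 ≤ T) :
    ∫⁻ u in Icc T (2 * T), ENNReal.ofReal (pd σ m u ^ (2 * k)) = ENNReal.ofReal (pmom σ m k T) := by
  unfold pmom
  rw [intervalIntegral.integral_of_le (by linarith), ← integral_Icc_eq_integral_Ioc]
  exact (ofReal_integral_eq_lintegral_ofReal ((pdpow_contOn σ m hT hk).integrableOn_compact isCompact_Icc)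
    (Filter.Eventually.of_forall fun v => Real.rpow_nonneg (pd_nonneg _ _ _) _)).symm

lemma pmom_nonneg {σ : ℝ} {m : ℕ} {k T : ℝ} (hT : 0 ≤ T) : 0 ≤ pmom σ m k T :=
  intervalIntegral.integral_nonneg (by linarith) fun _ _ => Real.rpow_nonneg (pd_nonneg _ _ _) _

/-- the moments from below, for orders at least one -/
theorem pmom_ge_half {k : ℝ} (hk : 1 / 2 ≤ k) {ε : ℝ} (hε : 0 < ε) (n : ℕ) {σ : ℝ} (hσ : σ = 1 ∨ σ = -1) :
    ∀ᶠ T : ℝ in atTop, T * Real.log T ^ (k ^ 2 + 2 * k * (n + 1) - ε) ≤ pmom σ (n + 1) k T := by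
  set e : ℝ := ε / (1 + 2 * k * (n + 3)) with he
  have hk0 : 0 < k := by linarith
  have hd : 0 < 1 + 2 * k * ((n : ℝ) + 3) := by positivity
  have he0 : 0 < e := by positivity
  have he1 : e * (1 + 2 * k * (n + 3)) = ε := by
    rw [he]
    field_simp
  have hLε : Tendsto (fun T : ℝ => Real.log T ^ e) atTop atTop :=
    (tendsto_rpow_atTop he0).comp Real.tendsto_log_atTop
  filter_upwards [alt_windows (n + 1) k he0, hLε.eventually_ge_atTop 2,
    Real.tendsto_log_atTop.eventually_ge_atTop 1, eventually_ge_atTop (10 : ℝ)]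
    with T hT hL2 hL1 hT10
  obtain ⟨r, E, hr0, hr1, hr2, hEm, hEs, hEv, hEx⟩ := hT
  have hT0 : 0 < T := by linarith
  have hL0 : 0 < Real.log T := by linarith
  set L := Real.log T with hL
  set s : ℝ := L ^ (k + (n + 1) - (n + 3) * e) with hs
  have hs0 : 0 < s := Real.rpow_pos_of_pos hL0 _
  have hG : Measurable fun u => ENNReal.ofReal (pd σ (n + 1) u ^ (2 * k)) :=
    ((pd_meas σ n).pow_const _).ennreal_ofReal
  have hEfin : volume E ≠ ⊤ := (measure_lt_top_of_subset hEs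
    (by rw [Real.volume_Icc]; exact ENNReal.ofReal_ne_top)).ne
  have hsp := spread hG hEm (a := T) (b := 2 * T) (r := r) hr0 (by
      intro t ht
      have := hEs ht
      exact ⟨by linarith [this.1], by linarith [this.2]⟩) (c := ENNReal.ofReal (s ^ (2 * k))) (by
    intro t ht
    have htI := hEs ht
    refine window_moment hr0 (by linarith [htI.1]) hs0 (by linarith) ?_
    have h1 := window_integral (n := n) (σ := σ) (r := r) (t := t) (Λ := L ^ (k - e)) hr0
      (by linarith [htI.1]) (by positivity) hσ (hEx t ht)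
    exact (size_aux hL1 hL2 hr0 hr2).trans h1)
  rw [ofReal_pmom hk0 (by linarith), ← ENNReal.ofReal_toReal hEfin,
    ← ENNReal.ofReal_mul ENNReal.toReal_nonneg,
    ENNReal.ofReal_le_ofReal_iff (pmom_nonneg hT0.le)] at hsp
  refine le_trans ?_ hsp
  have e1 : L ^ (k ^ 2 + 2 * k * (n + 1) - ε) = L ^ (-k ^ 2 - e) * s ^ (2 * k) := by
    rw [hs, ← Real.rpow_mul hL0.le, ← Real.rpow_add hL0]
    congr 1
    rw [← he1]
    ring
  rw [e1, ← mul_assoc]
  exact mul_le_mul_of_nonneg_right hEv (Real.rpow_nonneg hs0.le _)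

/-- the moments from below by large values -/
lemma pmom_ge_big {k κ T : ℝ} (hk : 0 < k) (hT : 3 ≤ T) (n : ℕ) (σ : ℝ) :
    volume.real (big σ (n + 1) κ T) * Real.log T ^ (2 * k * (n + 1 + κ)) ≤ pmom σ (n + 1) k T := by
  have hL0 : 0 < Real.log T := Real.log_pos (by linarith)
  have h1 : ∫⁻ _ in big σ (n + 1) κ T, ENNReal.ofReal (Real.log T ^ (2 * k * (n + 1 + κ))) ≤
      ∫⁻ u in big σ (n + 1) κ T, ENNReal.ofReal (pd σ (n + 1) u ^ (2 * k)) := by
    refine setLIntegral_mono' (big_meas σ n κ T) fun u hu => ?_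
    refine ENNReal.ofReal_le_ofReal ?_
    have h2 : Real.log T ^ (((n + 1 : ℕ) : ℝ) + κ) ≤ pd σ (n + 1) u := hu.2.2.trans (le_max_left _ _)
    have h3 := Real.rpow_le_rpow (by positivity) h2 (show 0 ≤ 2 * k by linarith)
    rw [← Real.rpow_mul hL0.le] at h3
    refine le_trans (le_of_eq ?_) h3
    congr 1
    push_cast
    ring
  rw [setLIntegral_const] at h1
  have h2 : ∫⁻ u in big σ (n + 1) κ T, ENNReal.ofReal (pd σ (n + 1) u ^ (2 * k)) ≤
      ∫⁻ u in Icc T (2 * T), ENNReal.ofReal (pd σ (n + 1) u ^ (2 * k)) :=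
    lintegral_mono_set (big_sub _ _ _ _)
  have h3 := h1.trans h2
  rw [ofReal_pmom hk (by linarith), ← ENNReal.ofReal_toReal (big_fin σ (n + 1) κ T),
    ← ENNReal.ofReal_mul (by positivity), ENNReal.ofReal_le_ofReal_iff (pmom_nonneg (by linarith))] at h3
  rw [mul_comm]
  exact h3

/-- **the moments from below** -/
theorem pmom_ge {k : ℝ} (hk : 0 < k) {ε : ℝ} (hε : 0 < ε) (n : ℕ) {σ : ℝ} (hσ : σ = 1 ∨ σ = -1) :
    ∀ᶠ T : ℝ in atTop, T * Real.log T ^ (k ^ 2 + 2 * k * (n + 1) - ε) ≤ pmom σ (n + 1) k T := by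
  rcases le_or_gt (1 / 2) k with h | h
  · exact pmom_ge_half h hε n hσ
  · filter_upwards [big_ge hk (by linarith) hε n hσ, eventually_ge_atTop 3,
      Real.tendsto_log_atTop.eventually_ge_atTop 1] with T h1 h2 h3
    have hL0 : 0 < Real.log T := by linarith
    refine le_trans ?_ (pmom_ge_big (κ := k) hk h2 n σ)
    have e1 : Real.log T ^ (k ^ 2 + 2 * k * (n + 1) - ε) =
        Real.log T ^ (-k ^ 2 - ε) * Real.log T ^ (2 * k * (n + 1 + k)) := by
      rw [← Real.rpow_add hL0]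
      congr 1
      ring
    rw [e1, ← mul_assoc]
    exact mul_le_mul_of_nonneg_right h1 (by positivity)

/-- **the moments from above** -/
theorem pmom_le {k : ℝ} (hk : 0 < k) (hk2 : k ≤ 2) (m : ℕ) {σ : ℝ} (hσ : σ = 1 ∨ σ = -1) :
    ∃ C : ℝ, 1 ≤ C ∧ ∀ᶠ T : ℝ in atTop, pmom σ m k T ≤ C * (T * Real.log T ^ (k ^ 2 + 2 * k * m)) := by
  obtain ⟨C, hC, h⟩ := moment_up hk hk2 m
  refine ⟨C, hC, ?_⟩
  filter_upwards [h, eventually_ge_atTop 3] with T hT hT3
  refine le_trans ?_ hT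
  have hcd : ContinuousOn (fun t => |iteratedDeriv m Z t| ^ (2 * k)) (Icc T (2 * T)) := by
    intro t ht
    have := (iter_diff m (t := t) (by linarith [ht.1])).continuousAt
    exact ((continuous_abs.continuousAt.comp this).rpow_const
      (Or.inr (by linarith))).continuousWithinAt
  refine intervalIntegral.integral_mono_on (by linarith) ?_ ?_ fun t ht => ?_
  · refine ContinuousOn.intervalIntegrable ?_
    rw [uIcc_of_le (by linarith)]
    exact pdpow_contOn σ m (by linarith) hk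
  · exact (hcd.mono (by rw [uIcc_of_le (by linarith)])).intervalIntegrable
  · refine Real.rpow_le_rpow (pd_nonneg _ _ _) ?_ (by linarith)
    unfold pd
    refine max_le ?_ (abs_nonneg _)
    rcases hσ with rfl | rfl
    · rw [one_mul]
      exact le_abs_self _
    · rw [neg_one_mul]
      exact neg_le_abs _

/-- large values from above -/
theorem big_le {κ : ℝ} (hκ : 0 < κ) (hκ2 : κ ≤ 2) (n : ℕ) {σ : ℝ} (hσ : σ = 1 ∨ σ = -1) :
    ∃ C : ℝ, 1 ≤ C ∧ ∀ᶠ T : ℝ in atTop,
      volume.real (big σ (n + 1) κ T) ≤ C * (T * Real.log T ^ (-κ ^ 2)) := by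
  obtain ⟨C, hC, h⟩ := pmom_le hκ hκ2 (n + 1) hσ
  refine ⟨C, hC, ?_⟩
  filter_upwards [h, eventually_ge_atTop 3, Real.tendsto_log_atTop.eventually_ge_atTop 1] with T hT hT3 hL1
  have hL0 : 0 < Real.log T := by linarith
  have h1 := (pmom_ge_big (κ := κ) hκ hT3 n σ).trans hT
  have h2 : 0 < Real.log T ^ (2 * κ * (n + 1 + κ)) := Real.rpow_pos_of_pos hL0 _
  refine le_of_mul_le_mul_right (h1.trans (le_of_eq ?_)) h2
  have e1 : Real.log T ^ (κ ^ 2 + 2 * κ * ((n + 1 : ℕ) : ℝ)) =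
      Real.log T ^ (-κ ^ 2) * Real.log T ^ (2 * κ * (n + 1 + κ)) := by
    rw [← Real.rpow_add hL0]
    congr 1
    push_cast
    ring
  rw [e1]
  ring

end Pool.Agent.X117.DZ
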