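import Pool.Agent.X117.Four1

/-!
# Many isolated zeros of exceptional size with a bound for zeta near them
-/

namespace Pool.Agent.X117.Four

open Filter Topology MeasureTheory Complex H370 Set
open Pool.Agent.X117.HZ Pool.Agent.X117.Peak Pool.Agent.X117.DZ
open Pool.Agent.Y745.LD (LL)

/-- many good zeros -/
theorem good_zeros (κ : ℝ) {ε : ℝ} (hε : 0 < ε) {σ : ℝ} (hσ : σ = 1 ∨ σ = -1) :
    ∃ δ θ : ℝ, 0 < δ ∧ δ ≤ 1 ∧ 0 < θ ∧ θ ≤ 1 / 4 ∧ ∀ᶠ T : ℝ in atTop, ∃ S : Finset ℝ,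
      T * Real.log T ^ (1 - κ ^ 2 - 2 * ε) ≤ (S.card : ℝ) ∧
      (∀ g ∈ S, (T + 2 ≤ g ∧ g ≤ 2 * T - 2) ∧ Gd κ ε δ g ∧ 0 < σ * deriv Z g ∧
        ∀ s : ℂ, ‖s - (1 / 2 + I * g)‖ ≤ θ * (δ / (4 * Real.log T)) →
          ‖riemannZeta s‖ ≤ Real.log T ^ (κ + 3 * ε)) ∧
      ∀ g ∈ S, ∀ g' ∈ S, g ≠ g' → δ / (2 * Real.log T) ≤ |g - g'| := by
  classical
  obtain ⟨δ0, hδ0, hcount⟩ := signed_count ε hε
  have hcount := hcount κ σ hσ
  set δ : ℝ := min δ0 1 with hδd
  have hδ : 0 < δ := lt_min hδ0 one_pos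
  have hδ1 : δ ≤ 1 := min_le_right _ _
  have hδ2 : δ ≤ δ0 := min_le_left _ _
  obtain ⟨A1, hA1, hzup⟩ := Pool.Agent.Y914.LD.t_ZUP (κ ^ 2 + ε + 1) (by positivity)
  obtain ⟨θ, hθ0, hθ1, hnear⟩ := near_zero_up (κ := κ) hε hδ hδ1 hA1
  refine ⟨δ, θ, hδ, hδ1, hθ0, hθ1, ?_⟩
  have hLε : Tendsto (fun T : ℝ => Real.log T ^ ε) atTop atTop :=
    (tendsto_rpow_atTop hε).comp Real.tendsto_log_atTop
  have hsmall : ∀ᶠ T : ℝ in atTop, 64 / δ * Real.log T ^ (κ ^ 2 + ε) ≤ T := by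
    have h1 := (isLittleO_log_rpow_rpow_atTop (κ ^ 2 + ε) (one_pos)).bound
      (show (0 : ℝ) < δ / 64 by positivity)
    filter_upwards [h1, eventually_ge_atTop (1 : ℝ),
      Real.tendsto_log_atTop.eventually_ge_atTop 1] with T h2 h3 h4
    rw [Real.rpow_one, Real.norm_of_nonneg (by positivity), Real.norm_of_nonneg (by linarith)] at h2
    calc 64 / δ * Real.log T ^ (κ ^ 2 + ε) ≤ 64 / δ * (δ / 64 * T) :=
          mul_le_mul_of_nonneg_left h2 (by positivity)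
      _ = T := by field_simp
  filter_upwards [hcount, hzup, hnear, hLε.eventually_ge_atTop 2, hsmall,
    Real.tendsto_log_atTop.eventually_ge_atTop (max 1 (8 / δ)), eventually_ge_atTop (10 : ℝ)]
    with T hT hE hn hL2 hsm hLm hT10
  have hL1 : 1 ≤ Real.log T := (le_max_left _ _).trans hLm
  have hL8 : 8 / δ ≤ Real.log T := (le_max_right _ _).trans hLm
  obtain ⟨E, hEm, hEs, hEv, hEn⟩ := hE
  have hT0 : 0 < T := by linarith
  have hL0 : 0 < Real.log T := by linarith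
  set L := Real.log T with hL
  have hfin : ({g : ℝ | T < g ∧ g ≤ 2 * T ∧ Gd κ ε δ0 g ∧ 0 < σ * deriv Z g}).Finite := by
    refine (ords_finite (zW_finite T (2 * T) hT0)).subset ?_
    rintro g ⟨h5, h6, h7, -⟩
    exact ⟨h5.le, h6, 1 / 2 + I * g, h7.1, by simp, by simp; norm_num, by simp⟩
  set d : ℝ := δ / (2 * L) with hd
  have hd0 : 0 < d := by positivity
  have hd1 : d ≤ 1 / 2 := by
    rw [hd, div_le_div_iff₀ (by positivity) (by norm_num)]
    linarith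
  set E' : Set ℝ := E ∪ (Ioo (T - 1) (T + 3) ∪ Ioo (2 * T - 3) (2 * T + 1)) with hE'
  set G : Finset ℝ := hfin.toFinset with hG
  have hGm : ∀ g ∈ G, T < g ∧ g ≤ 2 * T ∧ Gd κ ε δ0 g ∧ 0 < σ * deriv Z g := by
    intro g hg
    rw [hG, Set.Finite.mem_toFinset] at hg
    exact hg
  have hiso : ∀ g ∈ G, ∀ s : ℂ, riemannZeta s = 0 → 0 < s.re → s.re < 1 → s ≠ 1 / 2 + I * g →
      d ≤ ‖s - (1 / 2 + I * g)‖ := by
    intro g hg s h1 h2 h3 h4
    obtain ⟨a1, a2, a3, -⟩ := hGm g hg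
    refine le_trans ?_ (a3.2.2.1 s h1 h2 h3 h4)
    have hb := (log_bounds hT10 a1 a2)
    have hg0 : 0 < Real.log g := by linarith [hb.1]
    rw [hd, div_le_div_iff₀ (by positivity) hg0]
    have h5 : δ * Real.log g ≤ δ0 * (2 * L) := by
      refine mul_le_mul hδ2 hb.2 hg0.le hδ0.le
    exact h5
  have hre : ∀ t : ℝ, (1 / 2 + I * (t : ℂ)).re = 1 / 2 := fun t => by simp
  have hisoR : ∀ g ∈ G, ∀ t : ℝ, riemannZeta (1 / 2 + I * t) = 0 → t ≠ g → d ≤ |t - g| := by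
    intro g hg t h1 h2
    have h3 := hiso g hg (1 / 2 + I * t) h1 (by rw [hre]; norm_num) (by rw [hre]; norm_num) (by
      intro h
      have := congrArg Complex.im h
      simp at this
      exact h2 this)
    have e1 : (1 / 2 + I * (t : ℂ)) - (1 / 2 + I * (g : ℂ)) = I * ((t - g : ℝ) : ℂ) := by
      push_cast; ring
    rwa [e1, norm_mul, Complex.norm_I, one_mul, Complex.norm_real, Real.norm_eq_abs] at h3
  -- the bad points
  have hE'top : volume E' ≠ ⊤ := by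
    apply ne_of_lt
    refine lt_of_le_of_lt (measure_union_le _ _) (ENNReal.add_lt_top.mpr ⟨?_, ?_⟩)
    · exact measure_lt_top_of_subset hEs (by rw [Real.volume_Icc]; exact ENNReal.ofReal_ne_top)
    · refine lt_of_le_of_lt (measure_union_le _ _) (ENNReal.add_lt_top.mpr ⟨?_, ?_⟩) <;>
      · rw [Real.volume_Ioo]; exact ENNReal.ofReal_lt_top
  have hE'v : volume.real E' ≤ T / L ^ (κ ^ 2 + ε + 1) + 8 := by
    have h1 : volume.real E' ≤ volume.real E +
        volume.real (Ioo (T - 1) (T + 3) ∪ Ioo (2 * T - 3) (2 * T + 1)) := measureReal_union_le _ _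
    have h2 : volume.real (Ioo (T - 1) (T + 3) ∪ Ioo (2 * T - 3) (2 * T + 1)) ≤
        volume.real (Ioo (T - 1) (T + 3)) + volume.real (Ioo (2 * T - 3) (2 * T + 1)) :=
      measureReal_union_le _ _
    rw [Real.volume_real_Ioo_of_le (by linarith), Real.volume_real_Ioo_of_le (by linarith)] at h2
    linarith
  have hbad := card_le_volume (S := G.filter fun g => Ioo (g - d / 2) (g + d / 2) ⊆ E') hd0 hE'top
    (by
      intro g hg g' hg' hne
      rw [Finset.mem_filter] at hg hg'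
      rw [abs_sub_comm]
      exact hisoR g hg.1 g' (hGm g' hg'.1).2.2.1.1 (Ne.symm hne))
    (fun g hg => (Finset.mem_filter.mp hg).2)
  refine ⟨G.filter fun g => ¬ Ioo (g - d / 2) (g + d / 2) ⊆ E', ?_, ?_, ?_⟩
  · have h1 := Finset.card_filter_add_card_filter_not (s := G)
      (fun g => Ioo (g - d / 2) (g + d / 2) ⊆ E')
    have h2 : ((G.filter fun g => Ioo (g - d / 2) (g + d / 2) ⊆ E').card : ℝ) +
        ((G.filter fun g => ¬ Ioo (g - d / 2) (g + d / 2) ⊆ E').card : ℝ) = (G.card : ℝ) := by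
      exact_mod_cast h1
    rw [Set.ncard_eq_toFinset_card _ hfin, ← hG] at hT
    -- the arithmetic
    have p1 : 0 < L ^ (-κ ^ 2 - ε) := Real.rpow_pos_of_pos hL0 _
    have e1 : L ^ (1 - κ ^ 2 - ε) = L * L ^ (-κ ^ 2 - ε) := by
      nth_rewrite 2 [← Real.rpow_one L]
      rw [← Real.rpow_add hL0]
      congr 1
      ring
    have e2 : T / L ^ (κ ^ 2 + ε + 1) * L = T * L ^ (-κ ^ 2 - ε) := by
      have h3 : L ^ (κ ^ 2 + ε + 1) = L ^ (κ ^ 2 + ε) * L := by
        rw [Real.rpow_add hL0, Real.rpow_one]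
      have h4 : L ^ (-κ ^ 2 - ε) = (L ^ (κ ^ 2 + ε))⁻¹ := by
        rw [← Real.rpow_neg hL0.le]
        congr 1
        ring
      rw [h3, h4]
      have h5 : 0 < L ^ (κ ^ 2 + ε) := Real.rpow_pos_of_pos hL0 _
      field_simp
    have e3 : L ^ (κ ^ 2 + ε) * L ^ (-κ ^ 2 - ε) = 1 := by
      rw [← Real.rpow_add hL0]
      have : κ ^ 2 + ε + (-κ ^ 2 - ε) = 0 := by ring
      rw [this, Real.rpow_zero]
    have h3 : ((G.filter fun g => Ioo (g - d / 2) (g + d / 2) ⊆ E').card : ℝ) * δ ≤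
        2 * (T * L ^ (-κ ^ 2 - ε)) + 16 * L := by
      have h4 := hbad.trans hE'v
      have h5 : ((G.filter fun g => Ioo (g - d / 2) (g + d / 2) ⊆ E').card : ℝ) * δ =
          ((G.filter fun g => Ioo (g - d / 2) (g + d / 2) ⊆ E').card : ℝ) * d * (2 * L) := by
        have h6 : d * (2 * L) = δ := by
          rw [hd]; field_simp
        rw [mul_assoc _ d (2 * L), h6]
      rw [h5]
      calc _ ≤ (T / L ^ (κ ^ 2 + ε + 1) + 8) * (2 * L) :=
            mul_le_mul_of_nonneg_right h4 (by positivity)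
        _ = 2 * (T / L ^ (κ ^ 2 + ε + 1) * L) + 16 * L := by ring
        _ = _ := by rw [e2]
    have h4 : 2 * (T * L ^ (-κ ^ 2 - ε)) ≤ δ * (1 / 4 * (T * L ^ (1 - κ ^ 2 - ε))) := by
      rw [e1]
      rw [div_le_iff₀ hδ] at hL8
      have h5 : 0 ≤ T * L ^ (-κ ^ 2 - ε) := by positivity
      nlinarith
    have h5 : 16 * L ≤ δ * (1 / 4 * (T * L ^ (1 - κ ^ 2 - ε))) := by
      rw [e1]
      have h6 : 64 * L ^ (κ ^ 2 + ε) ≤ δ * T := by
        rw [div_mul_eq_mul_div, div_le_iff₀ hδ] at hsm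
        linarith
      have h7 : 64 * (L ^ (κ ^ 2 + ε) * L ^ (-κ ^ 2 - ε)) ≤ δ * T * L ^ (-κ ^ 2 - ε) := by
        rw [← mul_assoc]
        exact mul_le_mul_of_nonneg_right h6 p1.le
      rw [e3] at h7
      nlinarith
    have h6 : ((G.filter fun g => Ioo (g - d / 2) (g + d / 2) ⊆ E').card : ℝ) ≤
        1 / 2 * (T * L ^ (1 - κ ^ 2 - ε)) := by
      have h7 : ((G.filter fun g => Ioo (g - d / 2) (g + d / 2) ⊆ E').card : ℝ) * δ ≤
          1 / 2 * (T * L ^ (1 - κ ^ 2 - ε)) * δ := by linarith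
      exact le_of_mul_le_mul_right h7 hδ
    have h7 : T * L ^ (1 - κ ^ 2 - 2 * ε) * 2 ≤ T * L ^ (1 - κ ^ 2 - ε) := by
      have e4 : L ^ (1 - κ ^ 2 - ε) = L ^ (1 - κ ^ 2 - 2 * ε) * L ^ ε := by
        rw [← Real.rpow_add hL0]
        congr 1
        ring
      rw [e4, ← mul_assoc]
      exact mul_le_mul_of_nonneg_left hL2 (by positivity)
    linarith
  · intro g hg
    rw [Finset.mem_filter] at hg
    obtain ⟨hgG, hgE⟩ := hg
    obtain ⟨a1, a2, a3, a4⟩ := hGm g hgG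
    -- a point outside `E` near `g`
    obtain ⟨t, ht, htE⟩ := Set.not_subset.mp hgE
    have htE1 : t ∉ E := fun h => htE (Or.inl h)
    have htE2 : ¬ (T - 1 < t ∧ t < T + 3) := fun h => htE (Or.inr (Or.inl h))
    have htE3 : ¬ (2 * T - 3 < t ∧ t < 2 * T + 1) := fun h => htE (Or.inr (Or.inr h))
    have hta : T + 3 ≤ t := by
      by_contra h
      exact htE2 ⟨by linarith [ht.1], not_le.mp h⟩
    have htb : t ≤ 2 * T - 3 := by
      by_contra h
      exact htE3 ⟨not_le.mp h, by linarith [ht.2]⟩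
    have hdisc := hEn t ⟨by linarith, by linarith⟩ htE1
    have hq : δ / (4 * L) = d / 2 := by rw [hd]; ring
    have hsup : ∀ z : ℂ, ‖z - (1 / 2 + I * g)‖ ≤ δ / (4 * L) → ‖riemannZeta z‖ ≤ L ^ A1 := by
      intro z hz
      apply hdisc
      have h1 : z - (1 / 2 + (t : ℂ) * I) = (z - (1 / 2 + I * g)) + I * ((g - t : ℝ) : ℂ) := by
        push_cast; ring
      rw [h1]
      refine (norm_add_le _ _).trans ?_
      rw [norm_mul, Complex.norm_I, one_mul, Complex.norm_real, Real.norm_eq_abs]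
      have h2 : |g - t| ≤ d / 2 := by
        rw [abs_le]
        constructor
        · linarith [ht.2]
        · linarith [ht.1]
      have h3 : d ≤ 1 / L := by
        rw [hd, div_le_div_iff₀ (by positivity) hL0]
        nlinarith
      linarith
    have hgd : Gd κ ε δ g := by
      obtain ⟨z0, z1, z2, z3, z4⟩ := a3
      refine ⟨z0, z1, fun s h1 h2 h3 h4 => le_trans ?_ (z2 s h1 h2 h3 h4), z3, z4⟩
      have hg0 : 0 < Real.log g := by linarith [(log_bounds hT10 a1 a2).1]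
      exact div_le_div_of_nonneg_right hδ2 hg0.le
    refine ⟨⟨by linarith [ht.2], by linarith [ht.1]⟩, hgd, a4, hn g a1 a2 hgd hsup⟩
  · intro g hg g' hg' hne
    rw [Finset.mem_filter] at hg hg'
    rw [abs_sub_comm]
    exact hisoR g hg.1 g' (hGm g' hg'.1).2.2.1.1 (Ne.symm hne)

end Pool.Agent.X117.Four
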