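import Pool.Agent.X117.Four2

/-!
# The shape of Hardy's function near isolated zeros of exceptional size
-/

namespace Pool.Agent.X117.Four

open Filter Topology MeasureTheory Complex H370 Set
open Pool.Agent.X117.HZ Pool.Agent.X117.Peak Pool.Agent.X117.DZ
open Pool.Agent.Y745.LD (LL)

/-- the shape of Hardy's function next to a good zero -/
theorem shape (κ : ℝ) {ε δ θ : ℝ} (hε : 0 < ε) (hδ : 0 < δ) (hδ1 : δ ≤ 1) (hθ0 : 0 < θ) (hθ1 : θ ≤ 1 / 4) :
    ∀ᶠ T : ℝ in atTop, ∀ g : ℝ, T + 2 ≤ g → g ≤ 2 * T - 2 → Gd κ ε δ g →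
      (∀ s : ℂ, ‖s - (1 / 2 + I * g)‖ ≤ θ * (δ / (4 * Real.log T)) →
          ‖riemannZeta s‖ ≤ Real.log T ^ (κ + 3 * ε)) →
      (Real.log T ^ (1 + κ - 2 * ε) ≤ |deriv Z g| ∧ |deriv Z g| ≤ Real.log T ^ (1 + κ + 2 * ε)) ∧
      ∀ u : ℝ, |u - g| ≤ Real.log T ^ (-1 - 7 * ε) →
        |deriv Z u - deriv Z g| ≤ |deriv Z g| / 2 ∧
          |Z u - deriv Z g * (u - g)| ≤ |deriv Z g| / 2 * |u - g| := by
  have hLε : Tendsto (fun T : ℝ => Real.log T ^ ε) atTop atTop :=
    (tendsto_rpow_atTop hε).comp Real.tendsto_log_atTop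
  filter_upwards [hLε.eventually_ge_atTop (2 ^ |1 + κ - ε|), hLε.eventually_ge_atTop (2 ^ |1 + κ + ε|),
    hLε.eventually_ge_atTop 2, hLε.eventually_ge_atTop (256 / (θ * δ) ^ 2),
    Real.tendsto_log_atTop.eventually_ge_atTop 4, eventually_ge_atTop (10 : ℝ)]
    with T hc1 hc2 hL2 hc3 hL4 hT10
  intro g hg1 hg2 hgd hsup
  have hL0 : 0 < Real.log T := by linarith
  have hL1 : 1 ≤ Real.log T := by linarith
  obtain ⟨b1, b2⟩ := log_bounds hT10 (g := g) (by linarith) (by linarith)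
  set L := Real.log T with hL
  obtain ⟨z0, z1, z2, z3, z4⟩ := hgd
  have habs : |deriv Z g| = ‖deriv riemannZeta (1 / 2 + I * g)‖ := abs_deriv_Z g z0
  have hg0 : 0 < Real.log g := by linarith
  -- powers of `log g` and of `log T`
  have hpow : ∀ a : ℝ, L ^ a / 2 ^ |a| ≤ Real.log g ^ a ∧ Real.log g ^ a ≤ L ^ a * 2 ^ |a| := by
    intro a
    have hq : 1 ≤ Real.log g / L ∧ Real.log g / L ≤ 2 := by
      rw [le_div_iff₀ hL0, div_le_iff₀ hL0]
      exact ⟨by linarith, by linarith⟩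
    have e1 : Real.log g ^ a = L ^ a * (Real.log g / L) ^ a := by
      rw [← Real.mul_rpow hL0.le (by positivity), mul_div_cancel₀ _ hL0.ne']
    have h3 : (Real.log g / L) ^ a ≤ 2 ^ |a| := by
      calc (Real.log g / L) ^ a ≤ (Real.log g / L) ^ |a| :=
            Real.rpow_le_rpow_of_exponent_le hq.1 (le_abs_self a)
        _ ≤ 2 ^ |a| := Real.rpow_le_rpow (by linarith [hq.1]) hq.2 (abs_nonneg a)
    have h4 : (2 ^ |a|)⁻¹ ≤ (Real.log g / L) ^ a := by
      have h5 : (Real.log g / L) ^ (-|a|) ≤ (Real.log g / L) ^ a :=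
        Real.rpow_le_rpow_of_exponent_le hq.1 (neg_abs_le a)
      refine le_trans ?_ h5
      rw [Real.rpow_neg (by linarith [hq.1])]
      refine inv_anti₀ (Real.rpow_pos_of_pos (by linarith [hq.1]) _) ?_
      exact Real.rpow_le_rpow (by linarith [hq.1]) hq.2 (abs_nonneg a)
    rw [e1]
    constructor
    · rw [div_eq_mul_inv]
      exact mul_le_mul_of_nonneg_left h4 (by positivity)
    · exact mul_le_mul_of_nonneg_left h3 (by positivity)
  have hlow : L ^ (1 + κ - 2 * ε) ≤ |deriv Z g| := by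
    rw [habs]
    refine le_trans ?_ z3
    refine le_trans ?_ (hpow (1 + κ - ε)).1
    rw [le_div_iff₀ (by positivity)]
    have e1 : L ^ (1 + κ - ε) = L ^ (1 + κ - 2 * ε) * L ^ ε := by
      rw [← Real.rpow_add hL0]
      congr 1
      ring
    rw [e1]
    gcongr
  have hhigh : |deriv Z g| ≤ L ^ (1 + κ + 2 * ε) := by
    rw [habs]
    refine z4.trans ((hpow (1 + κ + ε)).2.trans ?_)
    have e1 : L ^ (1 + κ + 2 * ε) = L ^ (1 + κ + ε) * L ^ ε := by
      rw [← Real.rpow_add hL0]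
      congr 1
      ring
    rw [e1]
    gcongr
  refine ⟨⟨hlow, hhigh⟩, ?_⟩
  -- the second derivative
  set w : ℝ := θ * (δ / (4 * L)) with hw
  have hw0 : 0 < w := by positivity
  have hwθ : w = θ * δ / (4 * L) := by rw [hw]; ring
  have hw4 : w ≤ 1 / 16 := by
    rw [hwθ, div_le_div_iff₀ (by positivity) (by norm_num)]
    nlinarith
  set ℓ : ℝ := L ^ (-1 - 7 * ε) with hℓ
  have hℓ0 : 0 < ℓ := Real.rpow_pos_of_pos hL0 _
  have hℓw : ℓ ≤ w / 2 := by
    have h1 : L ^ (7 * ε) = (L ^ ε) ^ (7 : ℕ) := by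
      rw [← Real.rpow_natCast, ← Real.rpow_mul hL0.le]
      congr 1
      push_cast
      ring
    have h2 : 256 / (θ * δ) ^ 2 ≤ L ^ (7 * ε) := by
      rw [h1]
      refine hc3.trans ?_
      exact le_self_pow₀ (by linarith) (by norm_num)
    have h3 : 8 / (θ * δ) ≤ L ^ (7 * ε) := by
      refine le_trans ?_ h2
      have hx : 0 < θ * δ := by positivity
      rw [div_le_div_iff₀ hx (by positivity)]
      have hx1 : θ * δ ≤ 1 := by nlinarith
      nlinarith
    have h4 : ℓ = 1 / (L * L ^ (7 * ε)) := by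
      rw [hℓ, Real.rpow_sub hL0, Real.rpow_neg_one]
      field_simp
    rw [h4, hwθ, div_div, div_le_div_iff₀ (by positivity) (by positivity)]
    have hx : 0 < θ * δ := by positivity
    rw [div_le_iff₀ hx] at h3
    nlinarith
  have hZ2 : ∀ u : ℝ, |u - g| ≤ ℓ → |iteratedDeriv 2 Z u| ≤ L ^ (κ + 2 + 4 * ε) := by
    intro u hu
    have hu' := abs_le.mp hu
    have h1 := cauchy (t0 := u) (R := w / 2) (M := L ^ (κ + 3 * ε)) (by linarith)
      (by positivity) (by linarith) (by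
        intro s hs
        refine hsup s ?_
        have e1 : s - (1 / 2 + I * (g : ℂ)) = (s - (1 / 2 + I * (u : ℂ))) + I * ((u - g : ℝ) : ℂ) := by
          push_cast; ring
        rw [e1]
        refine (norm_add_le _ _).trans ?_
        rw [norm_mul, Complex.norm_I, one_mul, Complex.norm_real, Real.norm_eq_abs]
        linarith) 2
    refine h1.trans ?_
    have e1 : ((2 : ℕ).factorial : ℝ) = 2 := by norm_num [Nat.factorial]
    rw [e1]
    have e2 : 2 * L ^ (κ + 3 * ε) / (w / 2) ^ 2 = L ^ (κ + 3 * ε) * L ^ 2 * (128 / (θ * δ) ^ 2) := by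
      rw [hwθ]
      field_simp
      ring
    have e3 : L ^ (κ + 2 + 4 * ε) = L ^ (κ + 3 * ε) * L ^ 2 * L ^ ε := by
      rw [← Real.rpow_natCast, ← Real.rpow_add hL0, ← Real.rpow_add hL0]
      congr 1
      push_cast
      ring
    rw [e2, e3]
    have h5 : 128 / (θ * δ) ^ 2 ≤ L ^ ε := by
      refine le_trans ?_ hc3
      exact div_le_div_of_nonneg_right (by norm_num) (by positivity)
    gcongr
  have hdd : ∀ u : ℝ, 1 ≤ u → DifferentiableAt ℝ (deriv Z) u := by
    intro u hu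
    have := iter_diff 1 hu
    rwa [iteratedDeriv_one] at this
  have hZd : ∀ u : ℝ, 1 ≤ u → DifferentiableAt ℝ Z u := by
    intro u hu
    have := iter_diff 0 hu
    rwa [iteratedDeriv_zero] at this
  have hi2 : iteratedDeriv 2 Z = deriv (deriv Z) := by
    rw [iteratedDeriv_succ, iteratedDeriv_one]
  have hpt : ∀ u : ℝ, |u - g| ≤ ℓ → |deriv Z u - deriv Z g| ≤ |deriv Z g| / 2 := by
    intro u hu
    have h1 := Convex.norm_image_sub_le_of_norm_deriv_le (f := deriv Z) (C := L ^ (κ + 2 + 4 * ε))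
      (s := Icc (g - ℓ) (g + ℓ)) (x := g) (y := u)
      (fun x hx => hdd x (by linarith [hx.1]))
      (fun x hx => by
        rw [Real.norm_eq_abs, ← hi2]
        exact hZ2 x (abs_le.mpr ⟨by linarith [hx.1], by linarith [hx.2]⟩))
      (convex_Icc _ _) ⟨by linarith, by linarith⟩
      (by have := abs_le.mp hu; exact ⟨by linarith [this.1], by linarith [this.2]⟩)
    rw [Real.norm_eq_abs, Real.norm_eq_abs] at h1
    refine h1.trans ?_
    have h2 : L ^ (κ + 2 + 4 * ε) * |u - g| ≤ L ^ (κ + 2 + 4 * ε) * ℓ := by gcongr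
    refine h2.trans ?_
    have e1 : L ^ (κ + 2 + 4 * ε) * ℓ * L ^ ε = L ^ (1 + κ - 2 * ε) := by
      rw [hℓ, ← Real.rpow_add hL0, ← Real.rpow_add hL0]
      congr 1
      ring
    have h3 : 0 ≤ L ^ (κ + 2 + 4 * ε) * ℓ := by positivity
    have h4 : L ^ (κ + 2 + 4 * ε) * ℓ * 2 ≤ L ^ (κ + 2 + 4 * ε) * ℓ * L ^ ε :=
      mul_le_mul_of_nonneg_left hL2 h3
    rw [e1] at h4
    linarith
  intro u hu
  refine ⟨hpt u hu, ?_⟩
  have hfd : ∀ x : ℝ, 1 ≤ x → HasDerivAt (fun x => Z x - deriv Z g * x) (deriv Z x - deriv Z g) x := by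
    intro x hx
    have h1 := (hZd x hx).hasDerivAt
    have h2 : HasDerivAt (fun x => deriv Z g * x) (deriv Z g) x := by
      simpa using (hasDerivAt_id x).const_mul (deriv Z g)
    exact h1.sub h2
  have h1 := Convex.norm_image_sub_le_of_norm_deriv_le (f := fun x => Z x - deriv Z g * x)
    (C := |deriv Z g| / 2) (s := Icc (g - ℓ) (g + ℓ)) (x := g) (y := u)
    (fun x hx => (hfd x (by linarith [hx.1])).differentiableAt)
    (fun x hx => by
      rw [(hfd x (by linarith [hx.1])).deriv, Real.norm_eq_abs]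
      exact hpt x (abs_le.mpr ⟨by linarith [hx.1], by linarith [hx.2]⟩))
    (convex_Icc _ _) ⟨by linarith, by linarith⟩
    (by have := abs_le.mp hu; exact ⟨by linarith [this.1], by linarith [this.2]⟩)
  rw [Real.norm_eq_abs, Real.norm_eq_abs] at h1
  have hZg : Z g = 0 := (Z_zero_iff g).mpr z0
  have e1 : Z u - deriv Z g * u - (Z g - deriv Z g * g) = Z u - deriv Z g * (u - g) := by
    rw [hZg]; ring
  rwa [e1] at h1

end Pool.Agent.X117.Four
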