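import Pool.Agent.X117.Four3

/-!
# Joint values and moments of Hardy's function and its derivative, of all sizes
-/

namespace Pool.Agent.X117.Four

open Filter Topology MeasureTheory Complex H370 Set
open Pool.Agent.X117.HZ Pool.Agent.X117.Peak Pool.Agent.X117.DZ Pool.Agent.X117.JM

/-- values of `Z` and `Z'` of given sizes and signs -/
def near4 (σ₁ σ₂ κ c ε T : ℝ) : Set ℝ :=
  {t : ℝ | T ≤ t ∧ t ≤ 2 * T ∧
    (Real.log T ^ (κ - c - ε) ≤ σ₁ * Z t ∧ σ₁ * Z t ≤ Real.log T ^ (κ - c + ε)) ∧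
    Real.log T ^ (κ + 1 - ε) ≤ σ₂ * deriv Z t ∧ σ₂ * deriv Z t ≤ Real.log T ^ (κ + 1 + ε)}

lemma near4_sub (σ₁ σ₂ κ c ε T : ℝ) : near4 σ₁ σ₂ κ c ε T ⊆ Icc T (2 * T) := fun _ h => ⟨h.1, h.2.1⟩

lemma near4_fin (σ₁ σ₂ κ c ε T : ℝ) : volume (near4 σ₁ σ₂ κ c ε T) ≠ ⊤ :=
  (measure_lt_top_of_subset (near4_sub _ _ _ _ _ _)
    (by rw [Real.volume_Icc]; exact ENNReal.ofReal_ne_top)).ne

lemma near4_meas (σ₁ σ₂ κ c ε T : ℝ) : MeasurableSet (near4 σ₁ σ₂ κ c ε T) := by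
  have h1 : Measurable fun t => σ₁ * Z t := Z_cont.measurable.const_mul σ₁
  have h2 : Measurable fun t => σ₂ * deriv Z t := (measurable_deriv Z).const_mul σ₂
  have h3 : near4 σ₁ σ₂ κ c ε T = Icc T (2 * T) ∩
      (({t | Real.log T ^ (κ - c - ε) ≤ σ₁ * Z t} ∩ {t | σ₁ * Z t ≤ Real.log T ^ (κ - c + ε)}) ∩
        ({t | Real.log T ^ (κ + 1 - ε) ≤ σ₂ * deriv Z t} ∩
          {t | σ₂ * deriv Z t ≤ Real.log T ^ (κ + 1 + ε)})) := by
    ext t
    simp [near4, and_assoc]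
  rw [h3]
  exact measurableSet_Icc.inter (((measurableSet_le measurable_const h1).inter
    (measurableSet_le h1 measurable_const)).inter ((measurableSet_le measurable_const h2).inter
      (measurableSet_le h2 measurable_const)))

/-- the two sides of a zero -/
lemma sides {τ ℓ : ℝ} (hτ : τ = 1 ∨ τ = -1) : ∃ p q : ℝ, q - p = ℓ / 2 ∧
    ∀ x ∈ Icc p q, ℓ / 2 ≤ τ * x ∧ τ * x ≤ ℓ := by
  rcases hτ with rfl | rfl
  · refine ⟨ℓ / 2, ℓ, by ring, fun x hx => ?_⟩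
    rw [one_mul]
    exact ⟨hx.1, hx.2⟩
  · refine ⟨-ℓ, -(ℓ / 2), by ring, fun x hx => ?_⟩
    rw [neg_one_mul]
    exact ⟨by linarith [hx.2], by linarith [hx.1]⟩

/-- the values near a good zero -/
lemma at_zero {σ₁ σ₂ A x y z d ℓ : ℝ} (hσ₁ : σ₁ = 1 ∨ σ₁ = -1) (hσ₂ : σ₂ = 1 ∨ σ₂ = -1)
    (hd : σ₂ * d = A) (hA : 0 < A) (h1 : ℓ / 2 ≤ σ₁ * σ₂ * x) (h2 : σ₁ * σ₂ * x ≤ ℓ) (hℓ : 0 < ℓ)
    (hz : |z - d| ≤ A / 2) (hy : |y - d * x| ≤ A / 2 * |x|) :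
    (A * ℓ / 4 ≤ σ₁ * y ∧ σ₁ * y ≤ 3 / 2 * A * ℓ) ∧ A / 2 ≤ σ₂ * z ∧ σ₂ * z ≤ 3 / 2 * A := by
  have hx : |x| = σ₁ * σ₂ * x := by
    have h3 : 0 < σ₁ * σ₂ * x := by linarith
    have h4 : |σ₁ * σ₂ * x| = |x| := by
      rcases hσ₁ with rfl | rfl <;> rcases hσ₂ with rfl | rfl <;> simp
    rw [← h4, abs_of_pos h3]
  have hs1 : ∀ v : ℝ, |σ₁ * v| = |v| := by
    intro v
    rcases hσ₁ with rfl | rfl <;> simp
  have hs2 : ∀ v : ℝ, |σ₂ * v| = |v| := by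
    intro v
    rcases hσ₂ with rfl | rfl <;> simp
  have hq2 : σ₂ * σ₂ = 1 := by rcases hσ₂ with rfl | rfl <;> norm_num
  have hz' : |σ₂ * z - A| ≤ A / 2 := by
    have e1 : σ₂ * z - A = σ₂ * (z - d) := by rw [← hd]; ring
    rw [e1, hs2]
    exact hz
  have hy' : |(σ₁ * y - A * (|x|))| ≤ A / 2 * |x| := by
    have e1 : σ₁ * y - A * (|x|) = σ₁ * (y - d * x) := by
      rw [hx, ← hd]
      have : σ₂ * d * (σ₁ * σ₂ * x) = σ₂ * σ₂ * (σ₁ * d * x) := by ring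
      rw [this, hq2]
      ring
    rw [e1, hs1]
    exact hy
  have h3 := abs_le.mp hz'
  have h4 := abs_le.mp hy'
  have h5 : ℓ / 2 ≤ |x| := by rw [hx]; exact h1
  have h6 : |x| ≤ ℓ := by rw [hx]; exact h2
  refine ⟨⟨?_, ?_⟩, by linarith [h3.1], by linarith [h3.2]⟩
  · have : A / 2 * (ℓ / 2) ≤ A / 2 * |x| := mul_le_mul_of_nonneg_left h5 (by linarith)
    linarith [h4.1]
  · have : 3 / 2 * A * |x| ≤ 3 / 2 * A * ℓ := mul_le_mul_of_nonneg_left h6 (by linarith)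
    linarith [h4.2]

/-- values of all sizes -/
theorem near4_ge (κ : ℝ) {c ε : ℝ} (hc : 0 ≤ c) (hε : 0 < ε) {σ₁ σ₂ : ℝ}
    (hσ₁ : σ₁ = 1 ∨ σ₁ = -1) (hσ₂ : σ₂ = 1 ∨ σ₂ = -1) :
    ∀ᶠ T : ℝ in atTop, T * Real.log T ^ (-κ ^ 2 - c - ε) ≤ volume.real (near4 σ₁ σ₂ κ c ε T) := by
  set e : ℝ := ε / 12 with he
  have he0 : 0 < e := by positivity
  obtain ⟨δ, θ, hδ, hδ1, hθ0, hθ1, hS⟩ := good_zeros κ he0 hσ₂
  have hLε : Tendsto (fun T : ℝ => Real.log T ^ e) atTop atTop :=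
    (tendsto_rpow_atTop he0).comp Real.tendsto_log_atTop
  filter_upwards [hS, shape κ he0 hδ hδ1 hθ0 hθ1, hLε.eventually_ge_atTop 4,
    hLε.eventually_ge_atTop (8 / δ), Real.tendsto_log_atTop.eventually_ge_atTop 1,
    eventually_ge_atTop (10 : ℝ)] with T hST hsh hL4 hL8 hL1 hT10
  obtain ⟨S, hcard, hgood, hsep⟩ := hST
  have hT0 : 0 < T := by linarith
  have hL0 : 0 < Real.log T := by linarith
  set L := Real.log T with hL
  set ℓ : ℝ := L ^ (-1 - 7 * e) with hℓ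
  have hℓ0 : 0 < ℓ := Real.rpow_pos_of_pos hL0 _
  set ℓ' : ℝ := ℓ * L ^ (-c) with hℓ'
  have hℓ'0 : 0 < ℓ' := by positivity
  have hℓle : ℓ' ≤ ℓ := by
    rw [hℓ']
    have : L ^ (-c) ≤ 1 := Real.rpow_le_one_of_one_le_of_nonpos hL1 (by linarith)
    exact mul_le_of_le_one_right hℓ0.le this
  have hℓ1 : ℓ ≤ 1 := Real.rpow_le_one_of_one_le_of_nonpos hL1 (by linarith)
  have hℓδ : ℓ ≤ δ / (8 * L) := by
    have h1 : ℓ = 1 / (L * L ^ (7 * e)) := by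
      rw [hℓ, Real.rpow_sub hL0, Real.rpow_neg_one]
      field_simp
    have h2 : L ^ e ≤ L ^ (7 * e) := Real.rpow_le_rpow_of_exponent_le hL1 (by linarith)
    have h3 : 8 ≤ δ * L ^ (7 * e) := by
      rw [div_le_iff₀ hδ] at hL8
      have : δ * L ^ e ≤ δ * L ^ (7 * e) := mul_le_mul_of_nonneg_left h2 hδ.le
      linarith
    rw [h1, div_le_div_iff₀ (by positivity) (by positivity)]
    have : 8 * L ≤ δ * L ^ (7 * e) * L := mul_le_mul_of_nonneg_right h3 hL0.le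
    linarith
  obtain ⟨p, q, hpq, hx⟩ := sides (τ := σ₁ * σ₂) (ℓ := ℓ') (by
    rcases hσ₁ with rfl | rfl <;> rcases hσ₂ with rfl | rfl <;> norm_num)
  have hxabs : ∀ x ∈ Icc p q, |x| ≤ ℓ' := by
    intro x hx'
    obtain ⟨h1, h2⟩ := hx x hx'
    have h3 : |σ₁ * σ₂ * x| = |x| := by
      rcases hσ₁ with rfl | rfl <;> rcases hσ₂ with rfl | rfl <;> simp
    rw [← h3, abs_of_pos (by linarith)]
    exact h2
  have hsub : (⋃ g ∈ S, Icc (g + p) (g + q)) ⊆ near4 σ₁ σ₂ κ c ε T := by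
    refine Set.iUnion₂_subset fun g hg u hu => ?_
    obtain ⟨⟨g1, g2⟩, g3, g4, g5⟩ := hgood g hg
    obtain ⟨⟨s1, s2⟩, s3⟩ := hsh g g1 g2 g3 g5
    have hux : u - g ∈ Icc p q := ⟨by linarith [hu.1], by linarith [hu.2]⟩
    have hua := hxabs _ hux
    obtain ⟨s4, s5⟩ := s3 u (hua.trans hℓle)
    obtain ⟨x1, x2⟩ := hx _ hux
    have hA : σ₂ * deriv Z g = |deriv Z g| := sign_abs hσ₂ g4
    have hA0 : 0 < |deriv Z g| := by rw [← hA]; exact g4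
    obtain ⟨⟨r1, r2⟩, r3, r4⟩ := at_zero hσ₁ hσ₂ hA hA0 x1 x2 hℓ'0 s4 s5
    have hua' := abs_le.mp hua
    have pw : ∀ a b : ℝ, L ^ a * L ^ b = L ^ (a + b) := fun a b => (Real.rpow_add hL0 a b).symm
    have he4 : 1 ≤ L ^ e / 4 := by linarith
    refine ⟨by linarith [hua'.1], by linarith [hua'.2], ⟨?_, ?_⟩, ?_, ?_⟩
    · refine le_trans ?_ r1
      calc L ^ (κ - c - ε) ≤ L ^ (κ - c - 10 * e) := Real.rpow_le_rpow_of_exponent_le hL1 (by linarith)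
        _ ≤ L ^ (κ - c - 10 * e) * (L ^ e / 4) := le_mul_of_one_le_right (by positivity) he4
        _ = L ^ (1 + κ - 2 * e) * ℓ' / 4 := by
          rw [hℓ', hℓ, mul_div_assoc', pw, pw, pw]
          congr 2
          ring
        _ ≤ |deriv Z g| * ℓ' / 4 := by gcongr
    · refine r2.trans ?_
      calc 3 / 2 * |deriv Z g| * ℓ' ≤ 3 / 2 * L ^ (1 + κ + 2 * e) * ℓ' := by gcongr
        _ = 3 / 2 * L ^ (κ - c - 5 * e) := by
          rw [hℓ', hℓ, mul_assoc, pw, pw]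
          congr 2
          ring
        _ ≤ L ^ e * L ^ (κ - c - 5 * e) := by gcongr; linarith
        _ = L ^ (κ - c - 4 * e) := by rw [pw]; congr 1; ring
        _ ≤ L ^ (κ - c + ε) := Real.rpow_le_rpow_of_exponent_le hL1 (by linarith)
    · refine le_trans ?_ r3
      calc L ^ (κ + 1 - ε) ≤ L ^ (κ + 1 - 3 * e) := Real.rpow_le_rpow_of_exponent_le hL1 (by linarith)
        _ ≤ L ^ (κ + 1 - 3 * e) * (L ^ e / 4) := le_mul_of_one_le_right (by positivity) he4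
        _ = L ^ (1 + κ - 2 * e) / 4 := by
          rw [mul_div_assoc', pw]
          congr 2
          ring
        _ ≤ L ^ (1 + κ - 2 * e) / 2 := by
          have : 0 < L ^ (1 + κ - 2 * e) := by positivity
          linarith
        _ ≤ |deriv Z g| / 2 := by gcongr
    · refine r4.trans ?_
      calc 3 / 2 * |deriv Z g| ≤ 3 / 2 * L ^ (1 + κ + 2 * e) := by gcongr
        _ ≤ L ^ e * L ^ (1 + κ + 2 * e) := by gcongr; linarith
        _ = L ^ (κ + 1 + 3 * e) := by rw [pw]; congr 1; ring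
        _ ≤ L ^ (κ + 1 + ε) := Real.rpow_le_rpow_of_exponent_le hL1 (by linarith)
  have hvol : volume.real (⋃ g ∈ S, Icc (g + p) (g + q)) = (S.card : ℝ) * (ℓ' / 2) := by
    rw [measureReal_biUnion_finset ?_ (fun g _ => measurableSet_Icc) ?_]
    · rw [Finset.sum_congr rfl fun g _ => ?_, Finset.sum_const, nsmul_eq_mul]
      rw [Real.volume_real_Icc_of_le (by linarith)]
      linarith
    · intro g hg g' hg' hne
      rw [Function.onFun, Set.disjoint_left]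
      rintro t ht ht'
      have h1 := hxabs (t - g) ⟨by linarith [ht.1], by linarith [ht.2]⟩
      have h2 := hxabs (t - g') ⟨by linarith [ht'.1], by linarith [ht'.2]⟩
      have h3 := hsep g hg g' hg' hne
      have h4 : |g - g'| ≤ |t - g'| + |t - g| := by
        have : g - g' = (t - g') - (t - g) := by ring
        rw [this]
        exact abs_sub _ _
      have h5 : δ / (8 * L) * 4 = δ / (2 * L) := by
        field_simp
        ring
      have h6 : 0 < δ / (8 * L) := by positivity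
      linarith
    · intro g hg
      rw [Real.volume_Icc]
      exact ENNReal.ofReal_ne_top
  have h1 := measureReal_mono hsub (near4_fin σ₁ σ₂ κ c ε T)
  rw [hvol] at h1
  refine le_trans ?_ h1
  have pw : ∀ a b : ℝ, L ^ a * L ^ b = L ^ (a + b) := fun a b => (Real.rpow_add hL0 a b).symm
  have f1 : L ^ (-κ ^ 2 - c - ε) ≤ L ^ (-κ ^ 2 - c - 10 * e) :=
    Real.rpow_le_rpow_of_exponent_le hL1 (by linarith)
  have f0 : 0 < L ^ (-κ ^ 2 - c - 10 * e) := Real.rpow_pos_of_pos hL0 _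
  have f2 : L ^ (1 - κ ^ 2 - 2 * e) * ℓ' = L ^ (-κ ^ 2 - c - 10 * e) * L ^ e := by
    rw [hℓ', hℓ, pw, pw, pw]
    congr 1
    ring
  have f3 : L ^ (-κ ^ 2 - c - 10 * e) ≤ L ^ (1 - κ ^ 2 - 2 * e) * (ℓ' / 2) := by
    have f4 : L ^ (1 - κ ^ 2 - 2 * e) * (ℓ' / 2) = L ^ (1 - κ ^ 2 - 2 * e) * ℓ' / 2 := by ring
    rw [f4, f2]
    have f5 : L ^ (-κ ^ 2 - c - 10 * e) * 4 ≤ L ^ (-κ ^ 2 - c - 10 * e) * L ^ e :=
      mul_le_mul_of_nonneg_left hL4 f0.le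
    linarith
  calc T * L ^ (-κ ^ 2 - c - ε) ≤ T * (L ^ (1 - κ ^ 2 - 2 * e) * (ℓ' / 2)) :=
        mul_le_mul_of_nonneg_left (f1.trans f3) hT0.le
    _ = T * L ^ (1 - κ ^ 2 - 2 * e) * (ℓ' / 2) := by ring
    _ ≤ _ := mul_le_mul_of_nonneg_right hcard (by positivity)

/-- the set with given signs -/
def signs4 (σ₁ σ₂ T : ℝ) : Set ℝ :=
  {t : ℝ | T ≤ t ∧ t ≤ 2 * T ∧ 0 < σ₁ * Z t ∧ 0 < σ₂ * deriv Z t}

/-- the joint moment -/
noncomputable def joint4 (σ₁ σ₂ a b T : ℝ) : ENNReal :=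
  ∫⁻ t in signs4 σ₁ σ₂ T, ENNReal.ofReal (|Z t| ^ a * |deriv Z t| ^ b)

/-- joint moments from below, all real orders -/
theorem joint4_ge (a b : ℝ) {ε : ℝ} (hε : 0 < ε) {σ₁ σ₂ : ℝ}
    (hσ₁ : σ₁ = 1 ∨ σ₁ = -1) (hσ₂ : σ₂ = 1 ∨ σ₂ = -1) :
    ∀ᶠ T : ℝ in atTop, ENNReal.ofReal (T * Real.log T ^ ((a + b) ^ 2 / 4 + b - ε)) ≤
      joint4 σ₁ σ₂ a b T := by
  have ha := abs_nonneg a
  have hb := abs_nonneg b
  set e : ℝ := ε / (1 + |a| + |b|) with he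
  have he0 : 0 < e := by positivity
  have he1 : e * (1 + |a| + |b|) = ε := by
    rw [he]
    field_simp
  filter_upwards [near4_ge ((a + b) / 2) le_rfl he0 hσ₁ hσ₂,
    Real.tendsto_log_atTop.eventually_ge_atTop 1, eventually_ge_atTop 1] with T hT hL hT1
  have hT0 : 0 < T := by linarith
  have hL0 : 0 < Real.log T := by linarith
  set κ : ℝ := (a + b) / 2 with hκ
  set w : ℝ := (a * κ - |a| * e) + (b * (κ + 1) - |b| * e) with hw
  have hsub : near4 σ₁ σ₂ κ 0 e T ⊆ signs4 σ₁ σ₂ T := by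
    rintro t ⟨q1, q2, ⟨q3, q4⟩, q5, q6⟩
    exact ⟨q1, q2, lt_of_lt_of_le (Real.rpow_pos_of_pos hL0 _) q3,
      lt_of_lt_of_le (Real.rpow_pos_of_pos hL0 _) q5⟩
  have h1 : ∫⁻ _ in near4 σ₁ σ₂ κ 0 e T, ENNReal.ofReal (Real.log T ^ w) ≤
      ∫⁻ t in near4 σ₁ σ₂ κ 0 e T, ENNReal.ofReal (|Z t| ^ a * |deriv Z t| ^ b) := by
    refine setLIntegral_mono' (near4_meas _ _ _ _ _ _) fun t ht => ?_
    refine ENNReal.ofReal_le_ofReal ?_
    have hs := hsub ht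
    obtain ⟨q1, q2, ⟨q3, q4⟩, q5, q6⟩ := ht
    rw [sign_abs hσ₁ hs.2.2.1, sub_zero] at q3 q4
    rw [sign_abs hσ₂ hs.2.2.2] at q5 q6
    have r1 := rpow_ge2 (a := a) (u := κ) (e := e) hL q3 q4
    have r2 := rpow_ge2 (a := b) (u := κ + 1) (e := e) hL q5 q6
    rw [hw, Real.rpow_add hL0]
    exact mul_le_mul r1 r2 (by positivity) (by positivity)
  rw [setLIntegral_const] at h1
  refine le_trans ?_ (h1.trans (lintegral_mono_set hsub))
  rw [← ENNReal.ofReal_toReal (near4_fin σ₁ σ₂ κ 0 e T), ← ENNReal.ofReal_mul (by positivity)]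
  refine ENNReal.ofReal_le_ofReal ?_
  refine le_trans (le_of_eq ?_) (mul_le_mul_of_nonneg_left hT (by positivity))
  rw [mul_left_comm, ← Real.rpow_add hL0]
  congr 2
  rw [hw, ← he1, hκ]
  ring

end Pool.Agent.X117.Four
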