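import Mathlib

/-!
# Hardy's function is real; the sign of its derivative at the zeros

The proofs that Hardy's function is real and continuous follow `Pool.Agent.TH620.LS_ZR`.
-/

namespace Pool.Agent.X117.HZ

open Complex Filter Topology
open scoped ComplexConjugate

/-- the phase `exp (i ϑ(t))`, with `ϑ(t) = arg Γ(1/4 + i t / 2) - (t / 2) log π` -/
noncomputable def phase (t : ℝ) : ℂ :=
  Gamma (1 / 4 + I * t / 2) / ‖Gamma (1 / 4 + I * t / 2)‖ * cexp (-(I * (t / 2) * Real.log Real.pi))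

/-- `exp (i ϑ(t)) ζ(1/2 + i t)` -/
noncomputable def Zc (t : ℝ) : ℂ := phase t * riemannZeta (1 / 2 + I * t)

/-- Hardy's function `Z(t) = exp (i ϑ(t)) ζ(1/2 + i t)` as a real number -/
noncomputable def Z (t : ℝ) : ℝ := (Zc t).re

lemma GammaR_conj (s : ℂ) : Gammaℝ (conj s) = conj (Gammaℝ s) := by
  rw [Gammaℝ_def, Gammaℝ_def, map_mul, ← Complex.Gamma_conj]
  congr 1
  · have h := Complex.cpow_conj (Real.pi : ℂ) (-s / 2) (by
      rw [Complex.arg_ofReal_of_nonneg Real.pi_pos.le]; exact Real.pi_pos.ne)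
    rw [Complex.conj_ofReal] at h
    rw [← h]
    congr 1
    rw [map_div₀, map_neg, Complex.conj_ofNat]
  · congr 1
    rw [map_div₀, Complex.conj_ofNat]

lemma line_ne_zero (t : ℝ) : (1 / 2 + I * t : ℂ) ≠ 0 := by
  intro h
  have := congrArg Complex.re h
  norm_num at this

lemma line_ne_one (t : ℝ) : (1 / 2 + I * t : ℂ) ≠ 1 := by
  intro h
  have := congrArg Complex.re h
  norm_num at this

lemma GammaR_line_ne (t : ℝ) : Gammaℝ (1 / 2 + I * t) ≠ 0 := by
  apply Gammaℝ_ne_zero_of_re_pos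
  norm_num

lemma line_conj (t : ℝ) : conj (1 / 2 + I * t : ℂ) = 1 - (1 / 2 + I * t) := by
  apply Complex.ext
  · simp
    norm_num
  · simp

lemma prod_eq (t : ℝ) : Gammaℝ (1 / 2 + I * t) * riemannZeta (1 / 2 + I * t) =
    completedRiemannZeta (1 / 2 + I * t) := by
  rw [riemannZeta_def_of_ne_zero (line_ne_zero t), mul_div_cancel₀ _ (GammaR_line_ne t)]

lemma completed_conj (t : ℝ) : conj (completedRiemannZeta (1 / 2 + I * t)) =
    completedRiemannZeta (1 / 2 + I * t) := by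
  have h1 : completedRiemannZeta (conj (1 / 2 + I * t : ℂ)) =
      conj (completedRiemannZeta (1 / 2 + I * t)) := by
    rw [← prod_eq t, map_mul, ← GammaR_conj, ← riemannZeta_conj]
    have h0 : conj (1 / 2 + I * t : ℂ) ≠ 0 := by
      intro h
      have := congrArg Complex.re h
      norm_num at this
    rw [riemannZeta_def_of_ne_zero h0]
    have h2 : Gammaℝ (conj (1 / 2 + I * t : ℂ)) ≠ 0 := by
      apply Gammaℝ_ne_zero_of_re_pos
      norm_num
    rw [mul_div_cancel₀ _ h2]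
  rw [← h1, line_conj, completedRiemannZeta_one_sub]

lemma gamma_ne (t : ℝ) : Gamma (1 / 4 + I * t / 2) ≠ 0 := by
  apply Gamma_ne_zero_of_re_pos
  simp

lemma phase_eq (t : ℝ) : phase t = Gammaℝ (1 / 2 + I * t) / (‖Gammaℝ (1 / 2 + I * t)‖ : ℂ) := by
  have h1 : (1 / 2 + I * t : ℂ) / 2 = 1 / 4 + I * t / 2 := by ring
  have h2 : (Real.pi : ℂ) ^ (-(1 / 2 + I * t : ℂ) / 2) =
      ((Real.exp (-(1 / 4) * Real.log Real.pi) : ℝ) : ℂ) *
        cexp (-(I * (t / 2) * Real.log Real.pi)) := by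
    rw [Complex.cpow_def_of_ne_zero (by exact_mod_cast Real.pi_pos.ne'), ← Complex.ofReal_log
      Real.pi_pos.le, Complex.ofReal_exp, ← Complex.exp_add]
    congr 1
    push_cast
    ring
  have h3 : Gammaℝ (1 / 2 + I * t) = ((Real.exp (-(1 / 4) * Real.log Real.pi) : ℝ) : ℂ) *
        cexp (-(I * (t / 2) * Real.log Real.pi)) * Gamma (1 / 4 + I * t / 2) := by
    rw [Gammaℝ_def, h1, h2]
  have h4 : ‖cexp (-(I * (t / 2) * Real.log Real.pi))‖ = 1 := by
    have e : (-(I * ((t : ℂ) / 2) * (Real.log Real.pi : ℂ))) =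
        ((-(t / 2 * Real.log Real.pi) : ℝ) : ℂ) * I := by
      push_cast; ring
    rw [e, Complex.norm_exp_ofReal_mul_I]
  have h5 : ‖Gammaℝ (1 / 2 + I * t)‖ = Real.exp (-(1 / 4) * Real.log Real.pi) *
      ‖Gamma (1 / 4 + I * t / 2)‖ := by
    rw [h3, norm_mul, norm_mul, h4, mul_one, Complex.norm_real, Real.norm_of_nonneg
      (Real.exp_pos _).le]
  have h6 : ((Real.exp (-(1 / 4) * Real.log Real.pi) : ℝ) : ℂ) ≠ 0 := by
    exact_mod_cast (Real.exp_pos _).ne'
  have h7 : (‖Gamma (1 / 4 + I * t / 2)‖ : ℂ) ≠ 0 := by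
    rw [Complex.ofReal_ne_zero]
    exact norm_ne_zero_iff.mpr (gamma_ne t)
  rw [h5, h3, phase]
  push_cast at h6 h7 ⊢
  field_simp

/-- Hardy's function is real -/
theorem Z_eq (t : ℝ) : ((Z t : ℝ) : ℂ) = Zc t := by
  rw [Z, Zc, phase_eq]
  have h : Gammaℝ (1 / 2 + I * t) / (‖Gammaℝ (1 / 2 + I * t)‖ : ℂ) * riemannZeta (1 / 2 + I * t) =
      completedRiemannZeta (1 / 2 + I * t) / (‖Gammaℝ (1 / 2 + I * t)‖ : ℂ) := by
    rw [← prod_eq t]
    ring
  rw [← Complex.conj_eq_iff_re, h, map_div₀, completed_conj, Complex.conj_ofReal]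

lemma gamma_cont : Continuous fun t : ℝ => Gamma (1 / 4 + I * t / 2) := by
  rw [continuous_iff_continuousAt]
  intro t
  have h1 : ContinuousAt Gamma (1 / 4 + I * t / 2) := by
    refine (differentiableAt_Gamma _ fun m hm => ?_).continuousAt
    have := congrArg Complex.re hm
    simp at this
    have hm0 : (0 : ℝ) ≤ m := Nat.cast_nonneg m
    linarith
  exact ContinuousAt.comp (f := fun t : ℝ => (1 / 4 + I * t / 2 : ℂ)) h1 (by fun_prop)

lemma phase_cont : Continuous phase := by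
  unfold phase
  refine Continuous.mul (gamma_cont.div ?_ ?_) (by fun_prop)
  · exact Complex.continuous_ofReal.comp gamma_cont.norm
  · intro t
    rw [Complex.ofReal_ne_zero]
    exact norm_ne_zero_iff.mpr (gamma_ne t)

lemma phase_ne (t : ℝ) : phase t ≠ 0 := by
  unfold phase
  refine mul_ne_zero (div_ne_zero (gamma_ne t) ?_) (Complex.exp_ne_zero _)
  rw [Complex.ofReal_ne_zero]
  exact norm_ne_zero_iff.mpr (gamma_ne t)

lemma phase_norm (t : ℝ) : ‖phase t‖ = 1 := by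
  rw [phase_eq, norm_div, Complex.norm_real, norm_norm,
    div_self (norm_ne_zero_iff.2 (GammaR_line_ne t))]

lemma zeta_cont : Continuous fun t : ℝ => riemannZeta (1 / 2 + I * t) := by
  rw [continuous_iff_continuousAt]
  intro t
  have h := (differentiableAt_riemannZeta (line_ne_one t)).continuousAt
  exact ContinuousAt.comp (f := fun t : ℝ => (1 / 2 + I * t : ℂ)) h (by fun_prop)

lemma Zc_cont : Continuous Zc := phase_cont.mul zeta_cont

lemma Z_cont : Continuous Z := Complex.continuous_re.comp Zc_cont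

lemma Zc_zero_iff (t : ℝ) : Zc t = 0 ↔ riemannZeta (1 / 2 + I * t) = 0 := by
  unfold Zc
  rw [mul_eq_zero]
  exact ⟨fun h => h.resolve_left (phase_ne t), Or.inr⟩

lemma Z_zero_iff (t : ℝ) : Z t = 0 ↔ riemannZeta (1 / 2 + I * t) = 0 := by
  rw [← Zc_zero_iff, ← Z_eq, Complex.ofReal_eq_zero]

lemma Z_zero_iff' (t : ℝ) : Z t = 0 ↔ Zc t = 0 := by
  rw [← Z_eq, Complex.ofReal_eq_zero]

lemma zeta_diff (t : ℝ) : DifferentiableAt ℂ riemannZeta (1 / 2 + I * t) :=
  differentiableAt_riemannZeta (line_ne_one t)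

lemma Zc_hasDerivAt (t : ℝ) (h : riemannZeta (1 / 2 + I * t) = 0) :
    HasDerivAt Zc (phase t * (deriv riemannZeta (1 / 2 + I * t) * I)) t := by
  have hg : HasDerivAt (fun u : ℝ => riemannZeta (1 / 2 + I * u))
      (deriv riemannZeta (1 / 2 + I * t) * I) t := by
    have h1 : HasDerivAt (fun u : ℝ => (1 / 2 + I * u : ℂ)) I t := by
      have h2 : HasDerivAt (fun u : ℝ => (u : ℂ)) 1 t := Complex.ofRealCLM.hasDerivAt
      simpa using (h2.const_mul I).const_add (1 / 2 : ℂ)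
    exact HasDerivAt.comp (h₂ := riemannZeta) t (zeta_diff t).hasDerivAt h1
  rw [hasDerivAt_iff_tendsto_slope] at hg ⊢
  have h3 : Tendsto phase (𝓝[≠] t) (𝓝 (phase t)) :=
    phase_cont.continuousAt.tendsto.mono_left nhdsWithin_le_nhds
  refine (h3.mul hg).congr fun u => ?_
  have hZ : Zc t = 0 := (Zc_zero_iff t).mpr h
  rw [slope_def_module, slope_def_module, hZ, h, sub_zero, sub_zero]
  unfold Zc
  simp only [Complex.real_smul]
  ring

lemma Z_hasDerivAt (t : ℝ) (h : riemannZeta (1 / 2 + I * t) = 0) :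
    HasDerivAt Z (phase t * (deriv riemannZeta (1 / 2 + I * t) * I)).re t := by
  have h1 := Complex.reCLM.hasFDerivAt.comp_hasDerivAt t (Zc_hasDerivAt t h)
  exact h1

/-- the derivative of the real Hardy function at a zero -/
lemma deriv_Z (t : ℝ) (h : riemannZeta (1 / 2 + I * t) = 0) :
    ((deriv Z t : ℝ) : ℂ) = phase t * (deriv riemannZeta (1 / 2 + I * t) * I) := by
  have h1 := Z_hasDerivAt t h
  have h2 : HasDerivAt (fun u : ℝ => ((Z u : ℝ) : ℂ)) ((deriv Z t : ℝ) : ℂ) t := by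
    have := Complex.ofRealCLM.hasFDerivAt.comp_hasDerivAt t h1.differentiableAt.hasDerivAt
    exact this
  have h3 : (fun u : ℝ => ((Z u : ℝ) : ℂ)) = Zc := funext Z_eq
  rw [h3] at h2
  exact h2.unique (Zc_hasDerivAt t h)

lemma deriv_Zc (t : ℝ) (h : riemannZeta (1 / 2 + I * t) = 0) :
    deriv Zc t = ((deriv Z t : ℝ) : ℂ) := by
  rw [(Zc_hasDerivAt t h).deriv, deriv_Z t h]

lemma abs_deriv_Z (t : ℝ) (h : riemannZeta (1 / 2 + I * t) = 0) :
    |deriv Z t| = ‖deriv riemannZeta (1 / 2 + I * t)‖ := by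
  have h1 := congrArg norm (deriv_Z t h)
  rw [Complex.norm_real, norm_mul, norm_mul, phase_norm, Complex.norm_I, one_mul, mul_one,
    Real.norm_eq_abs] at h1
  exact h1

lemma zeta_analytic {s : ℂ} (hs : s ≠ 1) : AnalyticAt ℂ riemannZeta s := by
  have : DifferentiableOn ℂ riemannZeta ({1}ᶜ : Set ℂ) := fun z hz =>
    (differentiableAt_riemannZeta hz).differentiableWithinAt
  exact this.analyticAt (isOpen_compl_singleton.mem_nhds hs)

lemma order_ne_top {s : ℂ} (hs : s ≠ 1) : analyticOrderAt riemannZeta s ≠ ⊤ := by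
  intro h
  rw [analyticOrderAt_eq_top] at h
  have h1 : AnalyticOnNhd ℂ riemannZeta ({1}ᶜ : Set ℂ) := fun z hz => zeta_analytic hz
  have h2 : IsPreconnected ({1}ᶜ : Set ℂ) :=
    (isConnected_compl_singleton_of_one_lt_rank (by simp [Complex.rank_real_complex]) 1).isPreconnected
  have h3 := h1.eqOn_zero_of_preconnected_of_eventuallyEq_zero h2 hs h
  have h4 : riemannZeta 2 = 0 := h3 (by simp)
  exact riemannZeta_ne_zero_of_one_le_re (s := 2) (by norm_num) h4

/-- the multiplicity of `s` as a zero of zeta -/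
noncomputable def mult (s : ℂ) : ℕ := analyticOrderNatAt riemannZeta s

lemma mult_pos {s : ℂ} (hs : s ≠ 1) (h : riemannZeta s = 0) : 1 ≤ mult s := by
  have h1 : analyticOrderAt riemannZeta s ≠ 0 := by
    intro h2
    exact ((zeta_analytic hs).analyticOrderAt_eq_zero.mp h2) h
  have h2 : mult s ≠ 0 := by
    intro h3
    apply h1
    rw [← ENat.natCast_toNat (order_ne_top hs)]
    exact_mod_cast h3
  omega

lemma deriv_ne_of_mult {t : ℝ} (h : riemannZeta (1 / 2 + I * t) = 0)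
    (h1 : mult (1 / 2 + I * t) = 1) : deriv Z t ≠ 0 := by
  have ha := zeta_analytic (line_ne_one t)
  have h2 : analyticOrderAt riemannZeta (1 / 2 + I * t) = 1 := by
    rw [← ENat.natCast_toNat (order_ne_top (line_ne_one t))]
    exact_mod_cast h1
  have h3 := ha.analyticOrderAt_deriv_add_one
  simp only [h, sub_zero] at h3
  rw [h2] at h3
  have h4 : analyticOrderAt (deriv riemannZeta) (1 / 2 + I * t) = 0 := by
    revert h3
    generalize analyticOrderAt (deriv riemannZeta) (1 / 2 + I * t) = x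
    intro h3
    cases x with
    | top => simp at h3
    | coe n =>
      have h6 : n + 1 = 1 := by exact_mod_cast h3
      have h7 : n = 0 := by omega
      rw [h7]; rfl
  have h5 := ha.deriv.analyticOrderAt_eq_zero.mp h4
  intro h6
  have h7 := abs_deriv_Z t h
  rw [h6, abs_zero] at h7
  exact h5 (norm_eq_zero.mp h7.symm)

/-- at a double zero `Z(x) / (x - t)²` has a nonzero limit -/
lemma limit_of_two {t : ℝ} (h1 : mult (1 / 2 + I * t) = 2) :
    ∃ c : ℝ, c ≠ 0 ∧ Tendsto (fun x : ℝ => Z x / (x - t) ^ 2) (𝓝[≠] t) (𝓝 c) := by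
  have ha := zeta_analytic (line_ne_one t)
  have h2 : analyticOrderAt riemannZeta (1 / 2 + I * t) = (2 : ℕ) := by
    rw [← ENat.natCast_toNat (order_ne_top (line_ne_one t))]
    exact_mod_cast h1
  obtain ⟨g, hg, hg0, hev⟩ := (ha.analyticOrderAt_eq_natCast).mp h2
  have hl : Tendsto (fun x : ℝ => (1 / 2 + I * x : ℂ)) (𝓝[≠] t) (𝓝 (1 / 2 + I * t)) := by
    have : Continuous fun x : ℝ => (1 / 2 + I * x : ℂ) := by fun_prop
    exact this.continuousAt.tendsto.mono_left nhdsWithin_le_nhds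
  have h3 : Tendsto (fun x : ℝ => -(phase x * g (1 / 2 + I * x))) (𝓝[≠] t)
      (𝓝 (-(phase t * g (1 / 2 + I * t)))) := by
    apply Tendsto.neg
    exact (phase_cont.continuousAt.tendsto.mono_left nhdsWithin_le_nhds).mul
      (hg.continuousAt.tendsto.comp hl)
  have h4 : ∀ᶠ x : ℝ in 𝓝[≠] t, -(phase x * g (1 / 2 + I * x)) = ((Z x / (x - t) ^ 2 : ℝ) : ℂ) := by
    filter_upwards [hl.eventually hev, self_mem_nhdsWithin] with x hx hxt
    have hne : ((x : ℂ) - t) ≠ 0 := by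
      rw [sub_ne_zero]
      exact_mod_cast hxt
    rw [Complex.ofReal_div, Z_eq, Zc, hx, smul_eq_mul]
    push_cast
    rw [eq_div_iff (pow_ne_zero 2 hne)]
    have : (1 / 2 + I * (x : ℂ) - (1 / 2 + I * t)) ^ 2 = -((x : ℂ) - t) ^ 2 := by
      have : (1 / 2 + I * (x : ℂ) - (1 / 2 + I * t)) = I * ((x : ℂ) - t) := by ring
      rw [this, mul_pow, I_sq]
      ring
    rw [this]
    ring
  have h5 : Tendsto (fun x : ℝ => ((Z x / (x - t) ^ 2 : ℝ) : ℂ)) (𝓝[≠] t)
      (𝓝 (-(phase t * g (1 / 2 + I * t)))) := h3.congr' h4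
  refine ⟨(-(phase t * g (1 / 2 + I * t))).re, ?_, ?_⟩
  · intro h0
    have h6 : Tendsto (fun x : ℝ => (((Z x / (x - t) ^ 2 : ℝ) : ℂ)).im) (𝓝[≠] t)
        (𝓝 (-(phase t * g (1 / 2 + I * t))).im) :=
      (Complex.continuous_im.tendsto _).comp h5
    simp only [Complex.ofReal_im] at h6
    have h7 : (-(phase t * g (1 / 2 + I * t))).im = 0 :=
      (tendsto_nhds_unique h6 tendsto_const_nhds)
    have h8 : -(phase t * g (1 / 2 + I * t)) = 0 := Complex.ext h0 h7
    rw [neg_eq_zero, mul_eq_zero] at h8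
    exact h8.elim (phase_ne t) hg0
  · have h6 := (Complex.continuous_re.tendsto _).comp h5
    simp only [Function.comp_def, Complex.ofReal_re] at h6
    exact h6

/-! ### Sign changes -/

/-- between two upcrossings there is a downcrossing -/
lemma exists_down {f : ℝ → ℝ} (hf : Continuous f) {a b : ℝ} (hab : a < b) (ha : 0 < f a)
    (hb : f b < 0) : ∃ s ∈ Set.Ioo a b, f s = 0 ∧ (∀ x ∈ Set.Ioo a s, 0 ≤ f x) ∧
      ∃ᶠ x in 𝓝[>] s, f x < 0 := by
  let S := {x | x ∈ Set.Icc a b ∧ f x < 0}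
  have hne : S.Nonempty := ⟨b, ⟨hab.le, le_rfl⟩, hb⟩
  have hbdd : BddBelow S := ⟨a, fun x hx => hx.1.1⟩
  let s := sInf S
  have hs1 : a ≤ s := le_csInf hne fun x hx => hx.1.1
  have hs2 : s ≤ b := csInf_le hbdd ⟨⟨hab.le, le_rfl⟩, hb⟩
  have hlow : ∀ x, a ≤ x → x < s → 0 ≤ f x := by
    intro x h1 h2
    by_contra hcon
    exact absurd (csInf_le hbdd ⟨⟨h1, h2.le.trans hs2⟩, not_le.mp hcon⟩) (not_le.mpr h2)
  have hcl : s ∈ closure S := csInf_mem_closure hne hbdd
  have hfs : f s ≤ 0 := by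
    have : closure S ⊆ {x | f x ≤ 0} := by
      apply closure_minimal
      · intro x hx
        exact hx.2.le
      · exact isClosed_le hf continuous_const
    exact this hcl
  have has : a < s := by
    rcases hs1.lt_or_eq with h | h
    · exact h
    · rw [← h] at hfs
      exact absurd ha (not_lt.mpr hfs)
  have hfs' : 0 ≤ f s := by
    have h1 : Tendsto f (𝓝[<] s) (𝓝 (f s)) := hf.continuousAt.tendsto.mono_left nhdsWithin_le_nhds
    apply ge_of_tendsto h1
    filter_upwards [Ioo_mem_nhdsLT has] with x hx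
    exact hlow x hx.1.le hx.2
  have hfs0 : f s = 0 := le_antisymm hfs hfs'
  have hsb : s < b := by
    rcases hs2.lt_or_eq with h | h
    · exact h
    · rw [h] at hfs0
      exact absurd hfs0 hb.ne
  refine ⟨s, ⟨has, hsb⟩, hfs0, fun x hx => hlow x hx.1.le hx.2, ?_⟩
  rw [Filter.frequently_iff]
  intro U hU
  rw [mem_nhdsGT_iff_exists_Ioo_subset] at hU
  obtain ⟨u, hu, hU⟩ := hU
  obtain ⟨x, hx, hxs⟩ := exists_lt_of_csInf_lt hne (show sInf S < u from hu)
  have hsx : s ≤ x := csInf_le hbdd hx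
  refine ⟨x, hU ⟨?_, hxs⟩, hx.2⟩
  rcases hsx.lt_or_eq with h | h
  · exact h
  · rw [← h] at hx
    exact absurd hx.2 (not_lt.mpr hfs0.ge)

lemma pos_right {f : ℝ → ℝ} {u : ℝ} (h0 : f u = 0) (h1 : 0 < deriv f u) :
    ∀ᶠ x in 𝓝[>] u, 0 < f x := by
  have hd : HasDerivAt f (deriv f u) u :=
    (differentiableAt_of_deriv_ne_zero h1.ne').hasDerivAt
  rw [hasDerivAt_iff_tendsto_slope] at hd
  have h2 : ∀ᶠ x in 𝓝[≠] u, 0 < slope f u x := hd.eventually (lt_mem_nhds h1)
  have h3 : ∀ᶠ x in 𝓝[>] u, 0 < slope f u x :=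
    h2.filter_mono (nhdsWithin_mono _ fun x hx => ne_of_gt hx)
  filter_upwards [h3, self_mem_nhdsWithin] with x hx hxu
  rw [slope_def_field, h0, sub_zero] at hx
  have : 0 < x - u := sub_pos.mpr hxu
  exact (div_pos_iff_of_pos_right this).mp hx

lemma neg_left {f : ℝ → ℝ} {u : ℝ} (h0 : f u = 0) (h1 : 0 < deriv f u) :
    ∀ᶠ x in 𝓝[<] u, f x < 0 := by
  have hd : HasDerivAt f (deriv f u) u :=
    (differentiableAt_of_deriv_ne_zero h1.ne').hasDerivAt
  rw [hasDerivAt_iff_tendsto_slope] at hd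
  have h2 : ∀ᶠ x in 𝓝[≠] u, 0 < slope f u x := hd.eventually (lt_mem_nhds h1)
  have h3 : ∀ᶠ x in 𝓝[<] u, 0 < slope f u x :=
    h2.filter_mono (nhdsWithin_mono _ fun x hx => ne_of_lt hx)
  filter_upwards [h3, self_mem_nhdsWithin] with x hx hxu
  rw [slope_def_field, h0, sub_zero] at hx
  have h4 : x - u < 0 := sub_neg.mpr hxu
  by_contra hcon
  exact absurd hx (not_lt.mpr (div_nonpos_of_nonneg_of_nonpos (not_lt.mp hcon) h4.le))

/-- between two zeros with positive derivative there is a downcrossing -/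
lemma exists_down' {f : ℝ → ℝ} (hf : Continuous f) {u v : ℝ} (huv : u < v) (hu : f u = 0)
    (hv : f v = 0) (hu' : 0 < deriv f u) (hv' : 0 < deriv f v) :
    ∃ s ∈ Set.Ioo u v, f s = 0 ∧ (∀ᶠ x in 𝓝[<] s, 0 ≤ f x) ∧ ∃ᶠ x in 𝓝[>] s, f x < 0 := by
  have h1 : ∀ᶠ x in 𝓝[>] u, 0 < f x ∧ x < (u + v) / 2 := by
    filter_upwards [pos_right hu hu', Ioo_mem_nhdsGT (show u < (u + v) / 2 by linarith)] with x h h2
    exact ⟨h, h2.2⟩
  have h2 : ∀ᶠ x in 𝓝[<] v, f x < 0 ∧ (u + v) / 2 < x := by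
    filter_upwards [neg_left hv hv', Ioo_mem_nhdsLT (show (u + v) / 2 < v by linarith)] with x h h2
    exact ⟨h, h2.1⟩
  obtain ⟨a, ⟨ha1, ha2⟩, ha3⟩ := (h1.and self_mem_nhdsWithin).exists
  obtain ⟨b, ⟨hb1, hb2⟩, hb3⟩ := (h2.and self_mem_nhdsWithin).exists
  obtain ⟨s, hs, hs0, hs1, hs2⟩ := exists_down hf (show a < b by linarith) ha1 hb1
  refine ⟨s, ⟨lt_trans ha3 hs.1, lt_trans hs.2 hb3⟩, hs0, ?_, hs2⟩
  filter_upwards [Ioo_mem_nhdsLT hs.1] with x hx
  exact hs1 x hx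

/-- between two zeros of `Z` with positive derivative there is a zero with negative derivative, or
a zero of multiplicity at least three -/
lemma between_pos {u v : ℝ} (huv : u < v) (hu : Z u = 0) (hv : Z v = 0) (hu' : 0 < deriv Z u)
    (hv' : 0 < deriv Z v) : ∃ s ∈ Set.Ioo u v, Z s = 0 ∧
      (deriv Z s < 0 ∨ 3 ≤ mult (1 / 2 + I * s)) := by
  obtain ⟨s, hs, hs0, hs1, hs2⟩ := exists_down' Z_cont huv hu hv hu' hv'
  refine ⟨s, hs, hs0, ?_⟩
  have hz := (Z_zero_iff s).mp hs0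
  have hm := mult_pos (line_ne_one s) hz
  rcases lt_or_ge (mult (1 / 2 + I * s)) 3 with h | h
  · left
    have h3 : mult (1 / 2 + I * s) = 1 ∨ mult (1 / 2 + I * s) = 2 := by omega
    rcases h3 with h3 | h3
    · have hne := deriv_ne_of_mult hz h3
      rcases hne.lt_or_gt with h4 | h4
      · exact h4
      · exfalso
        obtain ⟨x, hx1, hx2⟩ := ((neg_left hs0 h4).and hs1).exists
        exact absurd hx1 (not_lt.mpr hx2)
    · exfalso
      obtain ⟨c, hc, hlim⟩ := limit_of_two h3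
      have hc1 : 0 ≤ c := by
        have h5 : Tendsto (fun x : ℝ => Z x / (x - s) ^ 2) (𝓝[<] s) (𝓝 c) :=
          hlim.mono_left (nhdsWithin_mono _ fun x hx => ne_of_lt hx)
        apply ge_of_tendsto h5
        filter_upwards [hs1] with x hx
        positivity
      have h6 : Tendsto (fun x : ℝ => Z x / (x - s) ^ 2) (𝓝[>] s) (𝓝 c) :=
        hlim.mono_left (nhdsWithin_mono _ fun x hx => ne_of_gt hx)
      have h7 : ∀ᶠ x in 𝓝[>] s, 0 < Z x / (x - s) ^ 2 :=
        h6.eventually (lt_mem_nhds (lt_of_le_of_ne hc1 hc.symm))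
      obtain ⟨x, hx1, hx2⟩ := (hs2.and_eventually h7).exists
      exact absurd hx2 (not_lt.mpr (div_nonpos_of_nonpos_of_nonneg hx1.le (sq_nonneg _)))
  · exact Or.inr h

/-- the function `-Z` -/
lemma between_neg {u v : ℝ} (huv : u < v) (hu : Z u = 0) (hv : Z v = 0) (hu' : deriv Z u < 0)
    (hv' : deriv Z v < 0) : ∃ s ∈ Set.Ioo u v, Z s = 0 ∧
      (0 < deriv Z s ∨ 3 ≤ mult (1 / 2 + I * s)) := by
  have hd : ∀ x, deriv (fun y => -Z y) x = -deriv Z x := fun x => deriv.fun_neg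
  obtain ⟨s, hs, hs0, hs1, hs2⟩ := exists_down' (f := fun y => -Z y) Z_cont.neg huv
    (by simp [hu]) (by simp [hv]) (by rw [hd]; linarith) (by rw [hd]; linarith)
  have hs0' : Z s = 0 := by simpa using hs0
  refine ⟨s, hs, hs0', ?_⟩
  have hz := (Z_zero_iff s).mp hs0'
  have hm := mult_pos (line_ne_one s) hz
  rcases lt_or_ge (mult (1 / 2 + I * s)) 3 with h | h
  · left
    have h3 : mult (1 / 2 + I * s) = 1 ∨ mult (1 / 2 + I * s) = 2 := by omega
    rcases h3 with h3 | h3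
    · have hne := deriv_ne_of_mult hz h3
      rcases hne.lt_or_gt with h4 | h4
      · exfalso
        have h5 := neg_left (f := fun y => -Z y) hs0 (by rw [hd]; linarith)
        obtain ⟨x, hx1, hx2⟩ := (h5.and hs1).exists
        exact absurd hx1 (not_lt.mpr hx2)
      · exact h4
    · exfalso
      obtain ⟨c, hc, hlim⟩ := limit_of_two h3
      have hc1 : c ≤ 0 := by
        have h5 : Tendsto (fun x : ℝ => Z x / (x - s) ^ 2) (𝓝[<] s) (𝓝 c) :=
          hlim.mono_left (nhdsWithin_mono _ fun x hx => ne_of_lt hx)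
        apply le_of_tendsto h5
        filter_upwards [hs1] with x hx
        exact div_nonpos_of_nonpos_of_nonneg (by linarith) (sq_nonneg _)
      have h6 : Tendsto (fun x : ℝ => Z x / (x - s) ^ 2) (𝓝[>] s) (𝓝 c) :=
        hlim.mono_left (nhdsWithin_mono _ fun x hx => ne_of_gt hx)
      have h7 : ∀ᶠ x in 𝓝[>] s, Z x / (x - s) ^ 2 < 0 :=
        h6.eventually (gt_mem_nhds (lt_of_le_of_ne hc1 hc))
      obtain ⟨x, hx1, hx2⟩ := (hs2.and_eventually h7).exists
      have : 0 ≤ Z x := by linarith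
      exact absurd hx2 (not_lt.mpr (by positivity))
  · exact Or.inr h

/-- the zeros with positive derivative are interlaced with the downcrossings -/
lemma card_pos_le {P M : Finset ℝ} (hP : ∀ u ∈ P, Z u = 0 ∧ 0 < deriv Z u)
    (hM : ∀ u ∈ P, ∀ v ∈ P, ∀ s ∈ Set.Ioo u v, Z s = 0 →
      (deriv Z s < 0 ∨ 3 ≤ mult (1 / 2 + I * s)) → s ∈ M) : P.card ≤ M.card + 1 := by
  apply Finset.card_le_of_interleaved
  intro u hu v hv huv _
  obtain ⟨s, hs, hs0, hs1⟩ := between_pos huv (hP u hu).1 (hP v hv).1 (hP u hu).2 (hP v hv).2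
  exact ⟨s, hM u hu v hv s hs hs0 hs1, hs.1, hs.2⟩

lemma card_neg_le {P M : Finset ℝ} (hP : ∀ u ∈ P, Z u = 0 ∧ deriv Z u < 0)
    (hM : ∀ u ∈ P, ∀ v ∈ P, ∀ s ∈ Set.Ioo u v, Z s = 0 →
      (0 < deriv Z s ∨ 3 ≤ mult (1 / 2 + I * s)) → s ∈ M) : P.card ≤ M.card + 1 := by
  apply Finset.card_le_of_interleaved
  intro u hu v hv huv _
  obtain ⟨s, hs, hs0, hs1⟩ := between_neg huv (hP u hu).1 (hP v hv).1 (hP u hu).2 (hP v hv).2
  exact ⟨s, hM u hu v hv s hs hs0 hs1, hs.1, hs.2⟩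

end Pool.Agent.X117.HZ
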