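import Pool.Agent.X117.HZ
import Pool.Agent.TH299.Runs

/-!
# Windows with many good zeros
-/

namespace Pool.Agent.X117.HZ

open Complex Filter Topology MeasureTheory

/-- the nontrivial zeros with ordinate in `[α, β]` -/
def zW (α β : ℝ) : Set ℂ :=
  {s : ℂ | riemannZeta s = 0 ∧ 0 < s.re ∧ s.re < 1 ∧ α ≤ s.im ∧ s.im ≤ β}

/-- the ordinates in `[α, β]` of the nontrivial zeros -/
def ords (α β : ℝ) : Set ℝ := {g : ℝ | α ≤ g ∧ g ≤ β ∧ ∃ s : ℂ, riemannZeta s = 0 ∧ 0 < s.re ∧
  s.re < 1 ∧ s.im = g}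

lemma ords_eq (α β : ℝ) : ords α β = Complex.im '' zW α β := by
  ext g
  constructor
  · rintro ⟨h1, h2, s, h3, h4, h5, rfl⟩
    exact ⟨s, ⟨h3, h4, h5, h1, h2⟩, rfl⟩
  · rintro ⟨s, ⟨h3, h4, h5, h1, h2⟩, rfl⟩
    exact ⟨h1, h2, s, h3, h4, h5, rfl⟩

lemma ords_finite {α β : ℝ} (hfin : (zW α β).Finite) : (ords α β).Finite := by
  rw [ords_eq]
  exact hfin.image _

lemma ords_le {α β : ℝ} (hα : 0 < α) (hfin : (zW α β).Finite) :
    (ords α β).ncard ≤ ∑ᶠ s ∈ zW α β, mult s := by
  classical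
  rw [ords_eq]
  refine (Set.ncard_image_le hfin).trans ?_
  rw [finsum_mem_eq_finite_toFinset_sum _ hfin, Set.ncard_eq_toFinset_card _ hfin,
    Finset.card_eq_sum_ones]
  apply Finset.sum_le_sum
  intro s hs
  rw [Set.Finite.mem_toFinset] at hs
  apply mult_pos _ hs.1
  rintro rfl
  have := hs.2.2.2.1
  simp at this
  linarith

lemma mult_one {s : ℂ} (hs : s ≠ 1) (h : riemannZeta s = 0) (h1 : deriv riemannZeta s ≠ 0) :
    mult s = 1 := by
  have ha := zeta_analytic hs
  have h3 := ha.analyticOrderAt_deriv_add_one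
  simp only [h, sub_zero] at h3
  have h4 : analyticOrderAt (deriv riemannZeta) s = 0 := ha.deriv.analyticOrderAt_eq_zero.mpr h1
  rw [h4, zero_add] at h3
  have h5 : mult s = (analyticOrderAt riemannZeta s).toNat := rfl
  rw [h5, ← h3]
  rfl

/-- if the good zeros outnumber the others, both signs occur among the good zeros -/
lemma exists_sign {α β : ℝ} (hα : 0 < α) (hfin : (zW α β).Finite) {G : Set ℝ}
    (hG : ∀ g ∈ G, α ≤ g ∧ g ≤ β ∧ riemannZeta (1 / 2 + I * g) = 0 ∧
      deriv riemannZeta (1 / 2 + I * g) ≠ 0)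
    (hc : ((∑ᶠ s ∈ zW α β, mult s : ℕ) : ℝ) - G.ncard + 1 < G.ncard) {σ : ℝ}
    (hσ : σ = 1 ∨ σ = -1) : ∃ g ∈ G, 0 < σ * deriv Z g := by
  classical
  by_contra hcon
  push Not at hcon
  have hsub : G ⊆ ords α β := by
    intro g hg
    obtain ⟨h1, h2, h3, -⟩ := hG g hg
    exact ⟨h1, h2, 1 / 2 + I * g, h3, by simp, by simp; norm_num, by simp⟩
  have hO := ords_finite hfin
  have hGf : G.Finite := hO.subset hsub
  have hne : ∀ g ∈ G, deriv Z g ≠ 0 := by
    intro g hg h0
    obtain ⟨h1, h2, h3, h4⟩ := hG g hg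
    have := abs_deriv_Z g h3
    rw [h0, abs_zero] at this
    exact h4 (norm_eq_zero.mp this.symm)
  have hZ : ∀ g ∈ G, Z g = 0 := fun g hg => (Z_zero_iff g).mpr (hG g hg).2.2.1
  have hm : ∀ g ∈ G, ¬ 3 ≤ mult (1 / 2 + I * g) := by
    intro g hg h3
    have := mult_one (line_ne_one g) (hG g hg).2.2.1 (hG g hg).2.2.2
    omega
  have hmem : ∀ u ∈ hGf.toFinset, ∀ v ∈ hGf.toFinset, ∀ s ∈ Set.Ioo u v, Z s = 0 → s ∉ G →
      s ∈ hO.toFinset \ hGf.toFinset := by
    intro u hu v hv s hs hs0 hsG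
    rw [Set.Finite.mem_toFinset] at hu hv
    rw [Finset.mem_sdiff, Set.Finite.mem_toFinset, Set.Finite.mem_toFinset]
    refine ⟨⟨(hG u hu).1.trans hs.1.le, hs.2.le.trans (hG v hv).2.1, 1 / 2 + I * s,
      (Z_zero_iff s).mp hs0, by simp, by simp; norm_num, by simp⟩, hsG⟩
  have key : hGf.toFinset.card ≤ (hO.toFinset \ hGf.toFinset).card + 1 := by
    rcases hσ with rfl | rfl
    · apply card_neg_le
      · intro u hu
        rw [Set.Finite.mem_toFinset] at hu
        refine ⟨hZ u hu, lt_of_le_of_ne ?_ (hne u hu)⟩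
        have := hcon u hu
        linarith
      · intro u hu v hv s hs hs0 hs1
        refine hmem u hu v hv s hs hs0 fun hsG => ?_
        rcases hs1 with h1 | h1
        · have := hcon s hsG
          linarith
        · exact hm s hsG h1
    · apply card_pos_le
      · intro u hu
        rw [Set.Finite.mem_toFinset] at hu
        refine ⟨hZ u hu, lt_of_le_of_ne ?_ (hne u hu).symm⟩
        have := hcon u hu
        linarith
      · intro u hu v hv s hs hs0 hs1
        refine hmem u hu v hv s hs hs0 fun hsG => ?_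
        rcases hs1 with h1 | h1
        · have := hcon s hsG
          linarith
        · exact hm s hsG h1
  have h1 := Finset.card_sdiff_add_card_eq_card
    (show hGf.toFinset ⊆ hO.toFinset from Set.Finite.toFinset_subset_toFinset.mpr hsub)
  have h2 := ords_le hα hfin
  rw [Set.ncard_eq_toFinset_card _ hO] at h2
  rw [Set.ncard_eq_toFinset_card _ hGf] at hc
  have h3 : (hO.toFinset.card : ℝ) ≤ ((∑ᶠ s ∈ zW α β, mult s : ℕ) : ℝ) := by exact_mod_cast h2
  have h4 : ((hO.toFinset \ hGf.toFinset).card : ℝ) + hGf.toFinset.card = hO.toFinset.card := by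
    exact_mod_cast h1
  have h5 : (hGf.toFinset.card : ℝ) ≤ (hO.toFinset \ hGf.toFinset).card + 1 := by exact_mod_cast key
  linarith

/-- the reflection of a zero in the critical line -/
lemma zero_reflect {s : ℂ} (h0 : riemannZeta s = 0) (h1 : 0 < s.re) (h2 : s.re < 1) :
    riemannZeta (1 - (starRingEnd ℂ) s) = 0 := by
  have hs : ∀ n : ℕ, s ≠ -n := by
    intro n h
    rw [h] at h1
    simp at h1
    have : (0 : ℝ) ≤ n := Nat.cast_nonneg n
    linarith
  have hs1 : s ≠ 1 := by
    rintro rfl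
    simp at h2
  have h3 : riemannZeta (1 - s) = 0 := by
    rw [riemannZeta_one_sub hs hs1, h0, mul_zero]
  have h4 : 1 - (starRingEnd ℂ) s = (starRingEnd ℂ) (1 - s) := by simp
  rw [h4, riemannZeta_conj, h3, map_zero]

/-- runs of three consecutive zeros, all of them good, of length at most `ℓ` -/
lemma exists_run {α β ℓ : ℝ} (hαβ : α < β) (hα : 0 < α) (hℓ : 0 < ℓ) (hfin : (zW α β).Finite)
    {G : Set ℝ} (hG : ∀ g ∈ G, α ≤ g ∧ g ≤ β ∧ riemannZeta (1 / 2 + I * g) = 0)
    (hc : 2 * (((∑ᶠ s ∈ zW α β, mult s : ℕ) : ℝ) - G.ncard) + 2 + 4 * (β - α) / ℓ < G.ncard) :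
    ∃ u : Fin 3 → ℝ, StrictMono u ∧ (∀ j, u j ∈ G) ∧
      (∀ s ∈ zW α β, u 0 ≤ s.im → s.im ≤ u 2 → ∃ j, s = 1 / 2 + I * u j) ∧ u 2 - u 0 ≤ ℓ := by
  classical
  have hsub : G ⊆ ords α β := by
    intro g hg
    obtain ⟨h1, h2, h3⟩ := hG g hg
    exact ⟨h1, h2, 1 / 2 + I * g, h3, by simp, by simp; norm_num, by simp⟩
  have hO := ords_finite hfin
  -- the good ordinates which are not the ordinates of other zeros
  let G0 : Set ℝ := {g | g ∈ G ∧ ∀ s ∈ zW α β, s.im = g → s = 1 / 2 + I * g}
  have hG0 : G0 ⊆ G := fun g hg => hg.1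
  have hGf : G.Finite := hO.subset hsub
  have hG0f : G0.Finite := hGf.subset hG0
  have hsubf : hGf.toFinset ⊆ hO.toFinset := Set.Finite.toFinset_subset_toFinset.mpr hsub
  have hsub0 : hG0f.toFinset ⊆ hGf.toFinset := Set.Finite.toFinset_subset_toFinset.mpr hG0
  have hsub0f : hG0f.toFinset ⊆ hO.toFinset := hsub0.trans hsubf
  have h0 := Pool.Agent.TH299.Runs.count hO.toFinset hG0f.toFinset hsub0f (α - (β - α)) β (by
    intro s hs
    rw [Set.Finite.mem_toFinset] at hs
    exact ⟨by linarith [hs.1], hs.2.1⟩) (by linarith) 2 ℓ hℓ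
  -- the number of zeros
  have hN : hO.toFinset.card + 2 * (hGf.toFinset \ hG0f.toFinset).card ≤
      ∑ᶠ s ∈ zW α β, mult s := by
    have h1 : hfin.toFinset.card ≤ ∑ᶠ s ∈ zW α β, mult s := by
      rw [finsum_mem_eq_finite_toFinset_sum _ hfin, Finset.card_eq_sum_ones]
      apply Finset.sum_le_sum
      intro s hs
      rw [Set.Finite.mem_toFinset] at hs
      apply mult_pos _ hs.1
      rintro rfl
      have := hs.2.2.2.1
      simp at this
      linarith
    refine le_trans ?_ h1
    have himg : ∀ s ∈ hfin.toFinset, s.im ∈ hO.toFinset := by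
      intro s hs
      rw [Set.Finite.mem_toFinset] at hs ⊢
      exact ⟨hs.2.2.2.1, hs.2.2.2.2, s, hs.1, hs.2.1, hs.2.2.1, rfl⟩
    rw [Finset.card_eq_sum_card_fiberwise himg]
    have h2 : ∀ g ∈ hO.toFinset, (1 + if g ∈ hGf.toFinset \ hG0f.toFinset then 2 else 0) ≤
        (hfin.toFinset.filter fun s => s.im = g).card := by
      intro g hg
      rw [Set.Finite.mem_toFinset] at hg
      split_ifs with h3
      · rw [Finset.mem_sdiff, Set.Finite.mem_toFinset, Set.Finite.mem_toFinset] at h3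
        obtain ⟨h3, h4⟩ := h3
        have h5 : ∃ s ∈ zW α β, s.im = g ∧ s ≠ 1 / 2 + I * g := by
          by_contra hcon
          push Not at hcon
          exact h4 ⟨h3, hcon⟩
        obtain ⟨s, hs, hsg, hsne⟩ := h5
        have hre : s.re ≠ 1 / 2 := by
          intro h
          apply hsne
          apply Complex.ext
          · simp [h]
          · simp [hsg]
        let s' : ℂ := 1 - (starRingEnd ℂ) s
        have hs're : s'.re = 1 - s.re := by simp [s']
        have hs'im : s'.im = s.im := by simp [s']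
        have hs' : s' ∈ zW α β := by
          refine ⟨zero_reflect hs.1 hs.2.1 hs.2.2.1, ?_, ?_, ?_, ?_⟩
          · rw [hs're]; linarith [hs.2.2.1]
          · rw [hs're]; linarith [hs.2.1]
          · rw [hs'im]; exact hs.2.2.2.1
          · rw [hs'im]; exact hs.2.2.2.2
        have hg' := hG g h3
        have hsub3 : ({1 / 2 + I * (g : ℂ), s, s'} : Finset ℂ) ⊆
            hfin.toFinset.filter fun s => s.im = g := by
          intro z hz
          rw [Finset.mem_insert, Finset.mem_insert, Finset.mem_singleton] at hz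
          rw [Finset.mem_filter, Set.Finite.mem_toFinset]
          rcases hz with rfl | rfl | rfl
          · refine ⟨⟨hg'.2.2, by simp, by simp; norm_num, by simpa using hg'.1, by
              simpa using hg'.2.1⟩, by simp⟩
          · exact ⟨hs, hsg⟩
          · exact ⟨hs', by rw [hs'im, hsg]⟩
        have hcard : ({1 / 2 + I * (g : ℂ), s, s'} : Finset ℂ).card = 3 := by
          rw [Finset.card_eq_three]
          refine ⟨_, _, _, hsne.symm, ?_, ?_, rfl⟩
          · intro h
            have := congrArg Complex.re h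
            rw [hs're] at this
            simp at this
            apply hre
            linarith
          · intro h
            have := congrArg Complex.re h
            rw [hs're] at this
            apply hre
            linarith
        have := Finset.card_le_card hsub3
        omega
      · obtain ⟨h5, h6, s, h7, h8, h9, h10⟩ := hg
        have : 0 < (hfin.toFinset.filter fun s => s.im = g).card := by
          rw [Finset.card_pos]
          refine ⟨s, ?_⟩
          rw [Finset.mem_filter, Set.Finite.mem_toFinset]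
          exact ⟨⟨h7, h8, h9, by rw [h10]; exact h5, by rw [h10]; exact h6⟩, h10⟩
        omega
    refine le_trans (le_of_eq ?_) (Finset.sum_le_sum h2)
    rw [Finset.sum_add_distrib, Finset.sum_const, smul_eq_mul, mul_one, ← Finset.sum_filter,
      Finset.sum_const, smul_eq_mul, mul_comm]
    congr 3
    ext g
    simp only [Finset.mem_filter]
    constructor
    · intro h
      exact ⟨hsubf (Finset.mem_sdiff.mp h).1, h⟩
    · intro h
      exact h.2
  have h1 := Finset.card_sdiff_add_card_eq_card hsub0f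
  have h1' := Finset.card_sdiff_add_card_eq_card hsub0
  rw [Set.ncard_eq_toFinset_card _ hGf] at hc
  have h3 : (hO.toFinset.card : ℝ) + 2 * (hGf.toFinset \ hG0f.toFinset).card ≤
      ((∑ᶠ s ∈ zW α β, mult s : ℕ) : ℝ) := by exact_mod_cast hN
  have h4 : ((hO.toFinset \ hG0f.toFinset).card : ℝ) + hG0f.toFinset.card = hO.toFinset.card := by
    exact_mod_cast h1
  have h4' : ((hGf.toFinset \ hG0f.toFinset).card : ℝ) + hG0f.toFinset.card =
      hGf.toFinset.card := by exact_mod_cast h1'
  have h5 : ((2 : ℕ) : ℝ) * (β - (α - (β - α))) / ℓ = 4 * (β - α) / ℓ := by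
    push_cast
    ring
  rw [h5] at h0
  push_cast at h0
  have hx0 : (0 : ℝ) ≤ (hGf.toFinset \ hG0f.toFinset).card := Nat.cast_nonneg _
  have h6 : (0 : ℝ) < ({t : ℝ | Pool.Agent.TH299.Runs.Starts (hO.toFinset : Set ℝ)
      (hG0f.toFinset : Set ℝ) 2 ℓ t}.ncard : ℝ) := by linarith
  have h7 : ({t : ℝ | Pool.Agent.TH299.Runs.Starts (hO.toFinset : Set ℝ)
      (hG0f.toFinset : Set ℝ) 2 ℓ t}.ncard) ≠ 0 := by
    intro h
    rw [h] at h6
    simp at h6
  obtain ⟨t, u, hu1, -, hu2, hu3, hu4⟩ := Set.nonempty_of_ncard_ne_zero h7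
  have hu2' : ∀ j, u j ∈ G0 := fun j => by
    have := hu2 j
    simpa using this
  refine ⟨u, hu1, fun j => (hu2' j).1, fun s hs h8 h9 => ?_, hu4⟩
  obtain ⟨j, hj⟩ := hu3 s.im (by
    rw [Set.Finite.coe_toFinset]
    exact ⟨hs.2.2.2.1, hs.2.2.2.2, s, hs.1, hs.2.1, hs.2.2.1, rfl⟩) h8 h9
  refine ⟨j, ?_⟩
  exact (hu2' j).2 s hs hj.symm

/-- a set covered by the intervals of radius `r` around finitely many points -/
lemma volume_cover {E A : Set ℝ} (hA : A.Finite) {r : ℝ} (hr : 0 ≤ r)
    (h : ∀ t ∈ E, ∃ g ∈ A, |g - t| ≤ r) : volume.real E ≤ 2 * r * A.ncard := by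
  classical
  have h1 : E ⊆ ⋃ g ∈ hA.toFinset, Set.Icc (g - r) (g + r) := by
    intro t ht
    obtain ⟨g, hg, h2⟩ := h t ht
    rw [Set.mem_iUnion₂]
    refine ⟨g, by simpa using hg, ?_⟩
    rw [abs_le] at h2
    constructor <;> linarith [h2.1, h2.2]
  have h2 : volume (⋃ g ∈ hA.toFinset, Set.Icc (g - r) (g + r)) ≤
      ∑ g ∈ hA.toFinset, volume (Set.Icc (g - r) (g + r)) := measure_biUnion_finset_le _ _
  have h3 : ∑ g ∈ hA.toFinset, volume (Set.Icc (g - r) (g + r)) =
      ENNReal.ofReal (2 * r * A.ncard) := by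
    have : ∀ g ∈ hA.toFinset, volume (Set.Icc (g - r) (g + r)) = ENNReal.ofReal (2 * r) := by
      intro g _
      rw [Real.volume_Icc]
      congr 1
      ring
    rw [Finset.sum_congr rfl this, Finset.sum_const, nsmul_eq_mul, Set.ncard_eq_toFinset_card _ hA,
      mul_comm (2 * r), ENNReal.ofReal_mul (Nat.cast_nonneg _), ENNReal.ofReal_natCast]
  have h4 : volume E ≤ ENNReal.ofReal (2 * r * A.ncard) := by
    rw [← h3]
    exact (measure_mono h1).trans h2
  unfold Measure.real
  exact ENNReal.toReal_le_of_le_ofReal (by positivity) h4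

end Pool.Agent.X117.HZ
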