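import Pool.Agent.X117.HZ4

/-!
# Large and small values of Hardy's function with a given sign: the measure
-/

namespace Pool.Agent.X117.HZ

open Filter Topology MeasureTheory Complex H370
open Pool.Agent.Y745.SW Pool.Agent.Y745.LD Pool.Agent.Y745.EW

/-- sum of the masses of disjoint sets -/
lemma sum_mass {V : ℝ → ℝ} (hV : Continuous V) (hV0 : ∀ t, 0 ≤ V t) {S : Finset ℂ} {J : ℂ → Set ℝ}
    {A : Set ℝ} {a b : ℝ} (hJm : ∀ s ∈ S, MeasurableSet (J s)) (hJA : ∀ s ∈ S, J s ⊆ A)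
    (hA : A ⊆ Set.Icc a b)
    (hdis : ∀ s ∈ S, ∀ s' ∈ S, s ≠ s' → Disjoint (J s) (J s')) :
    ∑ s ∈ S, ∫ t in J s, V t ≤ ∫ t in A, V t := by
  have hVA : IntegrableOn V A := (hV.continuousOn.integrableOn_compact isCompact_Icc).mono_set hA
  rw [← integral_biUnion_finset S hJm (fun s hs s' hs' h => hdis s hs s' hs' h)
    (fun s hs => hVA.mono_set (hJA s hs))]
  exact setIntegral_mono_set hVA (Filter.Eventually.of_forall fun t => hV0 t)
    (Filter.Eventually.of_forall (Set.iUnion₂_subset hJA))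

open Classical in
/-- the mass of the points with a given sign -/
lemma sign_mass {κ c A T A2 e2 δ r U1 U2 σ θ : ℝ} {G : Set ℝ} (hσ : σ = 1 ∨ σ = -1)
    (hPW : ∀ z : ℂ, ‖z‖ ≤ A2 * LL T →
      ‖tex (KA A T) ((κ : ℂ) * z) - cexp ((κ : ℂ) * z)‖ ≤ 1 / 2 * Real.exp (κ * z.re))
    (hL : 1 ≤ Real.log T) (hT : 10 ≤ T) (hG : MeasurableSet G) (hG2 : G ⊆ G2 A2 c e2 T)
    (hGI : G ⊆ Set.Icc (T + 6 * Real.log T) (2 * T - 6 * Real.log T))
    (hδ : 0 < δ) (hδ1 : δ ≤ 1 / 10) (hr1 : 1 / Real.log T ≤ r) (hr2 : r ≤ 1 / 2 * Real.log T ^ (e2 - 1))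
    (hr4 : r ≤ 1)
    (hU1 : T ≤ U1) (hU1' : U1 ≤ T + 1) (hU2 : 2 * T - 1 ≤ U2) (hU2' : U2 ≤ 2 * T)
    (hblk : θ ≤ ∑ s ∈ isoS U1 U2 (δ / Real.log T),
      ∫ t in G ∩ Set.Icc (s.im - r) (s.im + r), V κ c A T t) :
    δ / (2 * Real.log T) * θ ≤ 2 * r * (9 * Real.exp (2 * |κ|)) *
      ∫ t in Set.Icc T (2 * T) ∩ {t | 0 < σ * Z t}, V κ c A T t := by
  set L := Real.log T with hLd
  have hL0 : 0 < L := by linarith
  have hr0 : 0 < r := lt_of_lt_of_le (by positivity) hr1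
  have hV := V_cont κ c A T
  have hV0 := V_nonneg κ c A T
  set d : ℝ := δ / (2 * L) with hd
  have hd0 : 0 < d := by positivity
  have hdr : d ≤ r := by
    refine le_trans ?_ hr1
    rw [hd, div_le_div_iff₀ (by positivity) hL0]
    nlinarith
  have hdd : 2 * d = δ / L := by rw [hd]; field_simp
  set K : ℝ := 9 * Real.exp (2 * |κ|) with hK
  have hK0 : 0 ≤ K := by positivity
  set iso := isoS U1 U2 (δ / L) with hiso
  set S := iso.filter (fun s => (G ∩ Set.Icc (s.im - r) (s.im + r)).Nonempty) with hS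
  set A' : Set ℝ := Set.Icc T (2 * T) ∩ {t | 0 < σ * Z t} with hA'
  have hsum : ∑ s ∈ iso, ∫ t in G ∩ Set.Icc (s.im - r) (s.im + r), V κ c A T t =
      ∑ s ∈ S, ∫ t in G ∩ Set.Icc (s.im - r) (s.im + r), V κ c A T t := by
    rw [hS, Finset.sum_filter]
    refine Finset.sum_congr rfl fun s _ => ?_
    by_cases h : (G ∩ Set.Icc (s.im - r) (s.im + r)).Nonempty
    · rw [if_pos h]
    · rw [if_neg h]
      rw [Set.not_nonempty_iff_eq_empty] at h
      rw [h, setIntegral_empty]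
  -- facts about the zeros in `S`
  have hfac : ∀ s ∈ S, s.re = 1 / 2 ∧ T + 5 * L ≤ s.im ∧ s.im ≤ 2 * T - 5 * L ∧ Z s.im = 0 ∧
      deriv Z s.im ≠ 0 ∧ (∀ s' : ℂ, riemannZeta s' = 0 → 0 < s'.re → s'.re < 1 → |s'.im - s.im| ≤ 1 →
        s' ≠ s → 2 * d ≤ ‖s - s'‖) := by
    intro s hs
    rw [hS, Finset.mem_filter] at hs
    obtain ⟨hs1, t0, ht0, ht1⟩ := hs
    have ht2 := hGI ht0
    have hb1 : T + 5 * L ≤ s.im := by linarith [ht2.1, ht1.2]
    have hb2 : s.im ≤ 2 * T - 5 * L := by linarith [ht2.2, ht1.1]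
    rw [hiso] at hs1
    unfold isoS at hs1
    rw [Finset.mem_filter] at hs1
    obtain ⟨hsZ, hre, hmul, hi⟩ := hs1
    have hsz := (mem_Zf good_zeta (by linarith : 1 ≤ U1)).mp hsZ
    have hs0 : (1 / 2 + I * s.im : ℂ) = s := by
      apply Complex.ext
      · simp [hre]
      · simp
    have hz : riemannZeta (1 / 2 + I * (s.im : ℂ)) = 0 := by rw [hs0]; exact hsz.2.2.2.2
    refine ⟨hre, hb1, hb2, (Z_zero_iff _).mpr hz, ?_, ?_⟩
    · exact deriv_ne_of_mult hz (by rw [hs0]; exact hmul)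
    · intro s' b1 b2 b3 b4 b5
      rw [abs_le] at b4
      rw [hdd]
      refine hi s' ?_ b5
      exact (mem_Zf good_zeta (by linarith : 1 ≤ U1)).mpr
        ⟨b2, b3, by linarith [b4.1], by linarith [b4.2], b1⟩
  have hside : ∀ s ∈ S, ∀ t ∈ side σ d s.im, 0 < σ * Z t := by
    intro s hs
    obtain ⟨hre, hb1, hb2, hz, hz', hi⟩ := hfac s hs
    refine side_sign hσ hz hz' fun t ht ht0 => ?_
    by_contra hne
    have hzt := (Z_zero_iff t).mp ht0
    have h1 := hi (1 / 2 + I * t) hzt (by simp) (by simp; norm_num) (by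
      simp
      have : d ≤ 1 := hdr.trans hr4
      linarith) (by
      intro h
      apply hne
      rw [← h]; simp)
    have h2 : s - (1 / 2 + I * t) = I * ((s.im - t : ℝ) : ℂ) := by
      apply Complex.ext
      · simp [hre]
      · simp
    rw [h2, norm_mul, Complex.norm_I, one_mul, Complex.norm_real, Real.norm_eq_abs, abs_sub_comm] at h1
    linarith
  have hA1 : A' ⊆ Set.Icc T (2 * T) := Set.inter_subset_left
  have hJA : ∀ s ∈ S, side σ d s.im ⊆ A' := by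
    intro s hs t ht
    obtain ⟨hre, hb1, hb2, hz, hz', hi⟩ := hfac s hs
    have h1 := side_sub hd0 ht
    have h2 : d ≤ 1 := hdr.trans hr4
    refine ⟨⟨by linarith [h1.1], by linarith [h1.2]⟩, hside s hs t ht⟩
  have hdis : ∀ s ∈ S, ∀ s' ∈ S, s ≠ s' → Disjoint (side σ d s.im) (side σ d s'.im) := by
    intro s hs s' hs' hne
    rw [Set.disjoint_left]
    intro t ht ht'
    have h1 := side_sub hd0 ht
    have h2 := side_sub hd0 ht'
    have h3 : |s'.im - s.im| < 2 * d := by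
      rw [abs_lt]; constructor <;> linarith [h1.1, h1.2, h2.1, h2.2]
    obtain ⟨hre, hb1, hb2, hz, hz', hi⟩ := hfac s hs
    obtain ⟨hre', hb1', hb2', hzz, hzz', hi'⟩ := hfac s' hs'
    have hs0 : (1 / 2 + I * s'.im : ℂ) = s' := by
      apply Complex.ext
      · simp [hre']
      · simp
    have h2d : 2 * d ≤ 1 := by
      rw [hdd, div_le_one hL0]; linarith
    have h4 := hi s' (by rw [← hs0]; exact (Z_zero_iff _).mp hzz) (by rw [hre']; norm_num)
      (by rw [hre']; norm_num) (by linarith) (Ne.symm hne)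
    have h5 : s - s' = I * ((s.im - s'.im : ℝ) : ℂ) := by
      apply Complex.ext
      · simp [hre, hre']
      · simp
    rw [h5, norm_mul, Complex.norm_I, one_mul, Complex.norm_real, Real.norm_eq_abs, abs_sub_comm] at h4
    linarith
  have hone : ∀ s ∈ S, d * ∫ t in G ∩ Set.Icc (s.im - r) (s.im + r), V κ c A T t ≤
      2 * r * K * ∫ u in side σ d s.im, V κ c A T u := by
    intro s hs
    have h1 := side_mass (V := V κ c A T) (K := K) (r := r) (g := s.im) (G := G)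
      (J := side σ d s.im) hV hV0 hK0 hr0.le (by
        rintro t ⟨ht1, ht2⟩ u hu
        have h2 := side_sub hd0 hu
        refine V_cmp hPW hL0 (hG2 ht1) ?_
        have h3 : |u - t| ≤ 2 * r := by
          rw [abs_le]; constructor <;> linarith [h2.1, h2.2, ht2.1, ht2.2]
        rw [← hLd]
        linarith) hG (side_meas _ _ _) (a := T) (b := 2 * T) ((hJA s hs).trans hA1)
    rwa [side_vol hd0] at h1
  have htot := Finset.sum_le_sum hone
  rw [← Finset.mul_sum, ← Finset.mul_sum, ← hsum] at htot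
  have h1 := sum_mass hV hV0 (S := S) (J := fun s => side σ d s.im) (A := A')
    (fun s _ => side_meas _ _ _) hJA hA1 hdis
  calc d * θ ≤ d * ∑ s ∈ iso, ∫ t in G ∩ Set.Icc (s.im - r) (s.im + r), V κ c A T t :=
        mul_le_mul_of_nonneg_left hblk hd0.le
    _ ≤ 2 * r * K * ∑ s ∈ S, ∫ u in side σ d s.im, V κ c A T u := htot
    _ ≤ 2 * r * K * ∫ t in A', V κ c A T t := mul_le_mul_of_nonneg_left h1 (by positivity)

open Classical in
/-- **the measure of the points at which Hardy's function has a given sign and a given size** -/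
theorem signed_values (κ : ℝ) {ε σ : ℝ} (hε : 0 < ε) (hσ : σ = 1 ∨ σ = -1) :
    ∀ᶠ T : ℝ in atTop, T * Real.log T ^ (-κ ^ 2 - ε) ≤
      volume.real {t : ℝ | T ≤ t ∧ t ≤ 2 * T ∧
        |Real.log ‖riemannZeta (1 / 2 + t * I)‖ - κ * LL T| ≤ ε * LL T ∧ 0 < σ * Z t} := by
  have hpi := Real.pi_pos
  obtain ⟨δ, hδ, hδ1, hVB⟩ := a_VBLK (1 / 8) (by norm_num) (by norm_num)
  set K : ℝ := 9 * Real.exp (2 * |κ|) with hK
  have hK0 : 0 < K := by positivity
  set c1 : ℝ := δ / (16 * Real.pi * K) with hc1d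
  have hc10 : 0 < c1 := by positivity
  set η : ℝ := min (c1 / 12) (1 / 384) with hη
  have hη0 : 0 < η := by positivity
  have hη1 : η ≤ c1 / 12 := min_le_left _ _
  have hη2 : η ≤ 1 / 384 := min_le_right _ _
  set k1 : ℝ := |κ| + 1 with hk1
  have hk0 : 0 < k1 := by positivity
  set ε' : ℝ := min (ε / 8) (ε / (8 * k1)) with hε'
  have hε'0 : 0 < ε' := by positivity
  have hε'2 : ε' ≤ ε / 8 := min_le_left _ _
  have hε'3 : |κ| * ε' ≤ ε / 8 := by
    have h1 : ε' ≤ ε / (8 * k1) := min_le_right _ _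
    calc |κ| * ε' ≤ k1 * (ε / (8 * k1)) := by
          refine mul_le_mul (by rw [hk1]; linarith) h1 hε'0.le hk0.le
      _ = ε / 8 := by field_simp
  set δL : ℝ := min (ε / 8) η with hδL
  have hδL0 : 0 < δL := by positivity
  obtain ⟨c0', hc0', hc01', hLW⟩ := a_LOW κ δL hδL0
  set m : ℝ := min (1 / 2) (ε / (8 * k1)) with hm
  have hm0 : 0 < m := by positivity
  have hm1 : m ≤ 1 / 2 := min_le_left _ _
  obtain ⟨c, hcc0', hc1, hcpos, hcκ⟩ : ∃ c : ℝ, c0' ≤ c ∧ c < 1 ∧ 0 < c ∧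
      |κ| * (1 - c) ≤ ε / 8 := by
    refine ⟨max c0' (1 - m), le_max_left _ _, max_lt hc01' (by linarith),
      lt_of_lt_of_le hc0' (le_max_left _ _), ?_⟩
    have h1 : 1 - max c0' (1 - m) ≤ m := by
      have := le_max_right c0' (1 - m)
      linarith
    have h2 : m ≤ ε / (8 * k1) := min_le_right _ _
    have h3 : 0 ≤ 1 - max c0' (1 - m) := by
      have := max_lt hc01' (show 1 - m < 1 by linarith)
      linarith
    calc |κ| * (1 - max c0' (1 - m)) ≤ k1 * (ε / (8 * k1)) := by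
          refine mul_le_mul (by rw [hk1]; linarith) (h1.trans h2) h3 hk0.le
      _ = ε / 8 := by field_simp
  set e2 : ℝ := (1 - c) / 2 with he2
  have he20 : 0 < e2 := by rw [he2]; linarith
  have he21 : e2 < 1 - c := by rw [he2]; linarith
  obtain ⟨e, he0, he8, he4, heε⟩ : ∃ e : ℝ, 0 < e ∧ e ≤ 1 / 8 ∧ e ≤ (1 - c) / 4 ∧ e ≤ ε / 2 := by
    refine ⟨min (min (1 / 8) ((1 - c) / 4)) (ε / 2), ?_, (min_le_left _ _).trans (min_le_left _ _),
      (min_le_left _ _).trans (min_le_right _ _), min_le_right _ _⟩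
    exact lt_min (lt_min (by norm_num) (by linarith)) (by linarith)
  have hec : e < 1 - c := by linarith
  have hee : 0 < e2 - e := by rw [he2]; linarith
  set A' : ℝ := 3 * κ ^ 2 + 1 with hA'
  have hA'0 : 0 < A' := by positivity
  obtain ⟨A2, hA20, hG2⟩ := a_G2M c e2 A' hcpos hc1 he20 he21 hA'0
  have hG2 := hG2 A2 le_rfl
  obtain ⟨D, hD0, hG1⟩ := t_G1M 1 A' one_pos hA'0
  have hG1 := hG1 D le_rfl
  obtain ⟨Al, hLd⟩ := hLW c hcc0' hc1
  obtain ⟨Ap, hAp⟩ := Pool.Agent.Y363.LD.t_PW κ A2 hA20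
  obtain ⟨Ab, hAb⟩ := hVB κ c hcpos hc1
  obtain ⟨Av, hAv⟩ := a_VM1 κ c hcpos hc1
  obtain ⟨At, hAt⟩ := a_VMT κ c hcpos hc1
  obtain ⟨A, h2, h3, h4, h5, h6⟩ : ∃ A : ℝ, Ap ≤ A ∧ Ab ≤ A ∧ Av ≤ A ∧ At ≤ A ∧ Al ≤ A := by
    refine ⟨max (max (max Ap Ab) (max Av At)) Al, ?_, ?_, ?_, ?_, ?_⟩
    · exact ((le_max_left Ap Ab).trans (le_max_left _ _)).trans (le_max_left _ _)
    · exact ((le_max_right Ap Ab).trans (le_max_left _ _)).trans (le_max_left _ _)
    · exact ((le_max_left Av At).trans (le_max_right _ _)).trans (le_max_left _ _)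
    · exact ((le_max_right Av At).trans (le_max_right _ _)).trans (le_max_left _ _)
    · exact le_max_right _ _
  have hLd := hLd A h6
  have hAp := hAp A h2
  obtain ⟨τ, hτ, hτ1, hAb⟩ := hAb A h3 e D he0 he8 hec hD0
  obtain ⟨C1, hC1, hAv⟩ := hAv A h4
  obtain ⟨C2, hC2, hAt⟩ := hAt A h5
  obtain ⟨cc, hcc, C0, T0, hC0, hT0, hef⟩ := explicit_formula good_zeta
  have hAb := hAb cc C0 hcc
  have hC10 : 0 < C1 := by linarith
  have hv : ∀ᶠ T : ℝ in atTop, F1 κ c A C1 T := hAv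
  have hmass := good_massη (η := η) hη0 hc1 hC1 hC2 hε'0 (le_refl A') hv hAt hG1 hG2
  have v1 := ev_pow_ge (4 / τ) (e2 - e) hee
  have v2 := ev_pow_ge (C1 * (9 / 4 * Real.exp (κ ^ 2 * C1)) / (c1 / 2)) (3 / 4 * ε) (by positivity)
  filter_upwards [hmass, hG1, hG2, hLd, hAp, hAb, hAv, v1, v2,
    LL_tendsto.eventually_ge_atTop (2 * (1 + |κ| * C1) / ε), Real.tendsto_log_atTop.eventually_ge_atTop 1,
    eventually_ge_atTop T0, eventually_ge_atTop 10]
    with T tm tG1 tG2 tLW tP tB tV w1 w2 w3 tL tT0 tT1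
  obtain ⟨U1, U2, hU1, hU1', hU2, hU2', heft⟩ := hef T tT0
  obtain ⟨E0, hE0m, hE0s, hE0v, hE0z⟩ := tLW
  have hefd : EFD cc C0 T U1 U2 := ⟨hcc, hU1, hU1', hU2, hU2', heft⟩
  obtain ⟨g1, -⟩ := tG1
  obtain ⟨g2, -⟩ := tG2
  obtain ⟨y1, y2, -, -⟩ := tV
  have hT0' : 0 < T := by linarith
  have hI0 : 0 ≤ IV κ c A T := IV_nonneg κ c A hT0'.le
  have tm := tm E0 hE0m hE0s (hE0v.trans (mul_le_mul_of_nonneg_right (min_le_right _ _) hI0))
  set L := Real.log T with hL
  have hL0 : 0 < L := by linarith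
  have hLL0 : 0 ≤ LL T := le_trans (by positivity) w3
  rw [div_le_iff₀ hε] at w3
  have hV := V_cont κ c A T
  have hV0 := V_nonneg κ c A T
  set r := rad e τ T with hr
  have hLe : 1 ≤ L ^ e := Real.one_le_rpow tL he0.le
  have hLe2 : L ^ (e / 2) ≤ L ^ e := Real.rpow_le_rpow_of_exponent_le tL (by linarith)
  have hLe20 : 0 ≤ L ^ (e / 2) := Real.rpow_nonneg hL0.le _
  have hr1 : 1 / L ≤ r := by
    rw [hr]; unfold rad
    rw [div_le_div_iff₀ hL0 (by positivity)]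
    have h6 : τ * L ≤ 1 * L := mul_le_mul_of_nonneg_right hτ1 hL0.le
    have h7 : 1 * L ≤ (L ^ e + L ^ (e / 2)) * L := mul_le_mul_of_nonneg_right (by linarith) hL0.le
    linarith
  have hr0 : 0 < r := lt_of_lt_of_le (by positivity) hr1
  have hr2 : r ≤ 1 / 2 * L ^ (e2 - 1) := by
    rw [hr]; unfold rad
    rw [Real.rpow_sub hL0, Real.rpow_one]
    have h6 : 4 / τ * L ^ e ≤ L ^ e2 := by
      calc 4 / τ * L ^ e ≤ L ^ (e2 - e) * L ^ e := by gcongr
        _ = L ^ e2 := by rw [← Real.rpow_add hL0, sub_add_cancel]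
    rw [div_mul_eq_mul_div, div_le_iff₀ hτ] at h6
    rw [div_le_iff₀ (by positivity)]
    have e1 : 1 / 2 * (L ^ e2 / L) * (τ * L) = L ^ e2 * τ / 2 := by field_simp
    rw [e1]
    linarith
  have hr4 : r ≤ 1 := by
    have h6 : L ^ (e2 - 1) ≤ 1 := Real.rpow_le_one_of_one_le_of_nonpos tL (by linarith)
    linarith
  set G := (G1 1 D T ∩ G2 A2 c e2 T ∩ GT κ c ε' T ∩ Set.Icc (T + 6 * L) (2 * T - 6 * L)) \ E0 with hG
  have hGm : MeasurableSet G := (((g1.inter g2).inter (GT_meas κ c ε' T)).inter measurableSet_Icc).diff hE0m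
  have hGI : G ⊆ Set.Icc (T + 6 * L) (2 * T - 6 * L) := fun t ht => ht.1.2
  have hGI' : G ⊆ Set.Icc T (2 * T) := hGI.trans (Set.Icc_subset_Icc (by linarith) (by linarith))
  -- the weighted count
  have hblk := tB g1 U1 U2 hefd G hGm (by
    intro t ht
    exact ⟨ht.1.1.1.1, ⟨by linarith [ht.1.2.1], by linarith [ht.1.2.2]⟩⟩) (by
      refine le_trans ?_ tm
      refine mul_le_mul_of_nonneg_right ?_ hI0
      linarith)
  have hsm := sign_mass (σ := σ) hσ tP (by rw [← hL]; exact tL) tT1 hGm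
    (fun t ht => ht.1.1.1.2) hGI hδ hδ1 hr1 hr2 hr4 hU1 hU1' hU2 hU2' hblk
  rw [← hL, ← hK] at hsm
  set As : Set ℝ := Set.Icc T (2 * T) ∩ {t | 0 < σ * Z t} with hAs
  have hcM := cMTinv_lt
  have hmA : c1 * IV κ c A T ≤ ∫ t in As, V κ c A T t := by
    have h7 : 1 / 4 * (2 * r * (L / (2 * Real.pi)) * IV κ c A T) ≤
        (2 - cMTinv - 1 / 8) * (2 * r * (L / (2 * Real.pi)) * IV κ c A T) := by
      refine mul_le_mul_of_nonneg_right (by linarith) (by positivity)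
    have h8 : δ / (2 * L) * (1 / 4 * (2 * r * (L / (2 * Real.pi)) * IV κ c A T)) ≤
        2 * r * K * ∫ t in As, V κ c A T t :=
      (mul_le_mul_of_nonneg_left h7 (by positivity)).trans hsm
    have h9 : δ / (2 * L) * (1 / 4 * (2 * r * (L / (2 * Real.pi)) * IV κ c A T)) =
        2 * r * K * (c1 * IV κ c A T) := by
      rw [hc1d]; field_simp; ring
    rw [h9] at h8
    exact le_of_mul_le_mul_left h8 (by positivity)
  have hAsm : MeasurableSet As := measurableSet_Icc.inter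
    (isOpen_lt continuous_const (continuous_const.mul Z_cont)).measurableSet
  -- the set
  set E := G ∩ {t | 0 < σ * Z t} with hE
  have hEm : MeasurableSet E := hGm.inter
    (isOpen_lt continuous_const (continuous_const.mul Z_cont)).measurableSet
  have hIV : IV κ c A T = ∫ t in Set.Icc T (2 * T), V κ c A T t := by
    unfold IV
    rw [integral_Icc_eq_integral_Ioc, ← intervalIntegral.integral_of_le (by linarith)]
  have hVI : IntegrableOn (V κ c A T) (Set.Icc T (2 * T)) :=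
    hV.continuousOn.integrableOn_compact isCompact_Icc
  have hcomp : ∫ t in Set.Icc T (2 * T) \ G, V κ c A T t ≤ 6 * η * IV κ c A T := by
    have h7 := setIntegral_sdiff hGm hVI hGI'
    rw [h7, ← hIV]
    linarith
  have hmE : c1 / 2 * IV κ c A T ≤ ∫ t in E, V κ c A T t := by
    have h7 : As ⊆ E ∪ (Set.Icc T (2 * T) \ G) := by
      rintro t ⟨ht1, ht2⟩
      by_cases h : t ∈ G
      · exact Or.inl ⟨h, ht2⟩
      · exact Or.inr ⟨ht1, h⟩
    have h8 : E ∪ (Set.Icc T (2 * T) \ G) ⊆ Set.Icc T (2 * T) :=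
      Set.union_subset (Set.inter_subset_left.trans hGI') Set.sdiff_subset
    have h9 : ∫ t in As, V κ c A T t ≤ ∫ t in E ∪ (Set.Icc T (2 * T) \ G), V κ c A T t :=
      setIntegral_mono_set (hVI.mono_set h8) (Filter.Eventually.of_forall fun t => hV0 t)
        (Filter.Eventually.of_forall h7)
    have h10 := int_union_le hV hV0 hEm (measurableSet_Icc.diff hGm) h8
    have h11 : 6 * η * IV κ c A T ≤ c1 / 2 * IV κ c A T :=
      mul_le_mul_of_nonneg_right (by linarith) hI0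
    linarith
  have hEb : E ⊆ Set.Icc T (2 * T) := Set.inter_subset_left.trans hGI'
  have hEt : volume E ≠ ⊤ := (measure_lt_top_of_subset hEb
    (by rw [Real.volume_Icc]; exact ENNReal.ofReal_ne_top)).ne
  have hVE : ∫ t in E, V κ c A T t ≤
      9 / 4 * Real.exp (2 * κ ^ 2 * sc c T + 2 * (|κ| * ε') * LL T) * volume.real E := by
    have h7 : ∫ t in E, V κ c A T t ≤
        ∫ _ in E, 9 / 4 * Real.exp (2 * κ ^ 2 * sc c T + 2 * (|κ| * ε') * LL T) :=
      setIntegral_mono_on (hVI.mono_set hEb) (integrableOn_const hEt) hEm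
        fun t ht => V_size hL0 tP ht.1.1.1.1.2 ht.1.1.1.2
    rw [setIntegral_const, smul_eq_mul] at h7
    linarith
  have hvol := vol_calc (c := c) (A := A) (C1 := C1) (ε' := ε') (q := c1 / 2) (vol := volume.real E) hC10 hc1
    (by positivity) hε hε'3 tL hT0' hLL0 y1 y2 w2 (hmE.trans hVE) measureReal_nonneg
  refine hvol.trans ?_
  refine measureReal_mono ?_ ?_
  · rintro t ⟨ht1, ht2⟩
    have ht3 := hGI' ht1
    exact ⟨ht3.1, ht3.2, zeta_size hc1 hε hcκ hLL0 y1 hε'2 (min_le_left _ _) w3 ht1.1.1.2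
      (hE0z t ht3 ht1.2), ht2⟩
  · have hsub : {t : ℝ | T ≤ t ∧ t ≤ 2 * T ∧ |Real.log ‖riemannZeta (1 / 2 + (t : ℂ) * Complex.I)‖ - κ * LL T| ≤
        ε * LL T ∧ 0 < σ * Z t} ⊆ Set.Icc T (2 * T) := by
      rintro t ⟨h1, h2, -⟩
      exact ⟨h1, h2⟩
    exact (measure_lt_top_of_subset hsub
      (by rw [Real.volume_Icc]; exact ENNReal.ofReal_ne_top)).ne

end Pool.Agent.X117.HZ
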