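import Pool.Agent.X117.Refill

/-!
# The count of the pairs of a colouring and a permutation
-/

namespace Pool.Agent.X117.RSK

open Equiv Pool.Agent.X117.QS

variable {n N : ℕ}

/-- A function to `Fin N` as a function to `ℕ`. -/
def vl (h : Fin n → Fin N) (j : Fin n) : ℕ := h j

theorem vl_inj {h h' : Fin n → Fin N} (e : vl h = vl h') : h = h' := by
  funext j
  exact Fin.ext (congrFun e j)

open Classical in
theorem stab_card (h : Fin n → ℕ) (p : Perm (Fin n)) :
    (Finset.univ.filter fun π : Perm (Fin n) => ∀ t, h (π⁻¹ (p⁻¹ t)) = h t).card =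
      (Finset.univ.filter fun α : Perm (Fin n) => Monotone (h ∘ ⇑α)).card := by
  apply Finset.card_bij (fun (π : Perm (Fin n)) _ => π⁻¹ * p⁻¹ * Tuple.sort h)
  · intro π hπ
    simp only [Finset.mem_filter, Finset.mem_univ, true_and] at hπ ⊢
    have e : h ∘ ⇑(π⁻¹ * p⁻¹ * Tuple.sort h) = h ∘ Tuple.sort h := by
      funext i
      exact hπ _
    rw [e]
    exact Tuple.monotone_sort h
  · intro π _ π' _ hh
    exact inv_injective (mul_right_cancel (mul_right_cancel hh))
  · intro α hα
    simp only [Finset.mem_filter, Finset.mem_univ, true_and] at hα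
    refine ⟨(α * (Tuple.sort h)⁻¹ * p)⁻¹, ?_, by group⟩
    simp only [Finset.mem_filter, Finset.mem_univ, true_and, inv_inv]
    intro t
    have e1 : h ∘ α = h ∘ Tuple.sort h := Tuple.unique_monotone hα (Tuple.monotone_sort h)
    have := congrFun e1 ((Tuple.sort h)⁻¹ t)
    simpa using this

open Classical in
theorem refill_count {f : Fin n → ℕ} (h : Fin n → Fin N) :
    (Finset.univ.filter fun π : Perm (Fin n) => Resp f (refill (h ∘ ⇑(π⁻¹)) π)⁻¹).card =
      NN f (vl h) * (Finset.univ.filter fun α : Perm (Fin n) => Monotone (vl h ∘ ⇑α)).card := by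
  rw [NN, Finset.card_eq_sum_card_fiberwise (f := fun π : Perm (Fin n) => (refill (h ∘ ⇑(π⁻¹)) π)⁻¹)
    (t := Finset.univ.filter fun p : Perm (Fin n) => Resp f p ∧ Resp (vl h) p⁻¹)]
  · rw [Finset.card_eq_sum_ones, Finset.sum_mul]
    refine Finset.sum_congr rfl fun p hp => ?_
    rw [one_mul, ← stab_card (vl h) p]
    congr 1
    ext π
    simp only [Finset.mem_filter, Finset.mem_univ, true_and] at hp ⊢
    constructor
    · rintro ⟨-, h2⟩ t
      have h3 := (refill_spec (h ∘ ⇑(π⁻¹)) π).1 t
      have h4 : refill (h ∘ ⇑(π⁻¹)) π = p⁻¹ := by rw [← h2, inv_inv]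
      rw [h4] at h3
      simp only [Function.comp_apply] at h3
      simp only [vl]
      have h5 : π⁻¹ (π t) = t := by simp
      rw [h5] at h3
      rw [h3]
    · intro h2
      have h3 : refill (h ∘ ⇑(π⁻¹)) π = p⁻¹ := by
        apply refill_eq
        constructor
        · intro t
          have h5 : π⁻¹ (π t) = t := by simp
          simp only [Function.comp_apply, h5]
          exact Fin.ext (h2 t)
        · intro s t hst hh
          apply hp.2 s t hst
          have h5 : ∀ t, π⁻¹ (π t) = t := fun t => by simp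
          simp only [Function.comp_apply, h5] at hh
          simp only [vl, hh]
      rw [h3, inv_inv]
      exact ⟨hp.1, rfl⟩
  · intro π hπ
    simp only [Finset.coe_filter, Finset.mem_univ, true_and, Set.mem_ofPred_eq] at hπ ⊢
    refine ⟨hπ, ?_⟩
    rw [inv_inv]
    intro s t hst hh
    apply (refill_spec (h ∘ ⇑(π⁻¹)) π).2 s t hst
    have h5 : ∀ t, π⁻¹ (π t) = t := fun t => by simp
    simp only [Function.comp_apply, h5]
    exact Fin.ext hh

open Classical in
theorem total_count {f : Fin n → ℕ} (hf : Monotone f) (N : ℕ) :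
    ∑ c : Fin n → Fin N,
      (Finset.univ.filter fun π : Perm (Fin n) => Resp f (refill c π)⁻¹).card =
    n.factorial * (Finset.univ.filter fun y : Fin n → Fin N => Monotone (kap f (vl y))).card := by
  -- exchange the colouring of the elements for the colouring of the positions
  have h1 : ∑ c : Fin n → Fin N,
      (Finset.univ.filter fun π : Perm (Fin n) => Resp f (refill c π)⁻¹).card =
      ∑ h : Fin n → Fin N,
        (Finset.univ.filter fun π : Perm (Fin n) => Resp f (refill (h ∘ ⇑(π⁻¹)) π)⁻¹).card := by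
    simp_rw [Finset.card_filter]
    rw [Finset.sum_comm, Finset.sum_comm (s := (Finset.univ : Finset (Fin n → Fin N)))]
    refine Finset.sum_congr rfl fun π _ => ?_
    exact (Equiv.sum_comp (Equiv.arrowCongr π (Equiv.refl (Fin N)))
      (fun c => if Resp f (refill c π)⁻¹ then 1 else 0)).symm
  rw [h1]
  simp_rw [refill_count]
  -- exchange the order of summation
  have h2 : ∀ h : Fin n → Fin N,
      NN f (vl h) * (Finset.univ.filter fun α : Perm (Fin n) => Monotone (vl h ∘ ⇑α)).card =
      ∑ α : Perm (Fin n), if Monotone (vl h ∘ ⇑α) then NN f (vl h ∘ ⇑α) else 0 := by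
    intro h
    rw [Finset.card_filter, Finset.mul_sum]
    refine Finset.sum_congr rfl fun α _ => ?_
    split_ifs with hm
    · rw [NN_sort hf _ hm, mul_one]
    · rw [mul_zero]
  simp_rw [h2]
  rw [Finset.sum_comm]
  have h3 : ∀ α : Perm (Fin n), (∑ h : Fin n → Fin N,
      if Monotone (vl h ∘ ⇑α) then NN f (vl h ∘ ⇑α) else 0) =
      ∑ h : Fin n → Fin N, if Monotone (vl h) then NN f (vl h) else 0 := by
    intro α
    exact Equiv.sum_comp (Equiv.arrowCongr (α⁻¹ : Perm (Fin n)) (Equiv.refl (Fin N)))
      (fun h => if Monotone (vl h) then NN f (vl h) else 0)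
  simp_rw [h3]
  rw [Finset.sum_const, Finset.card_univ, Fintype.card_perm, Fintype.card_fin, smul_eq_mul]
  congr 1
  rw [← Finset.sum_filter]
  rw [Finset.card_eq_sum_card_fiberwise (f := fun y => y ∘ ⇑(Tuple.sort (vl y)))
    (t := Finset.univ.filter fun h : Fin n → Fin N => Monotone (vl h))]
  · refine Finset.sum_congr rfl fun h hh => ?_
    simp only [Finset.mem_filter, Finset.mem_univ, true_and] at hh
    rw [NN_mono hf hh]
    symm
    apply Finset.card_bij (fun y _ => vl y)
    · intro y hy
      simp only [Finset.mem_filter, Finset.mem_univ, true_and] at hy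
      rw [mem_W]
      refine ⟨⟨(Tuple.sort (vl y))⁻¹, ?_⟩, hy.1⟩
      rw [← hy.2]
      funext i
      simp [vl]
    · intro y _ y' _ hyy
      exact vl_inj hyy
    · intro v hv
      obtain ⟨⟨ρ, hρ⟩, hm⟩ := mem_W.mp hv
      refine ⟨h ∘ ⇑ρ, ?_, hρ⟩
      simp only [Finset.mem_filter, Finset.mem_univ, true_and]
      have e : vl (h ∘ ⇑ρ) = v := hρ
      refine ⟨by rw [e]; exact hm, ?_⟩
      apply vl_inj
      have h5 : Monotone (vl h ∘ ⇑(ρ * Tuple.sort (vl (h ∘ ⇑ρ)))) :=
        Tuple.monotone_sort (vl (h ∘ ⇑ρ))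
      exact Tuple.unique_monotone (f := vl h) (τ := 1) h5 hh
  · intro y hy
    simp only [Finset.coe_filter, Finset.mem_univ, true_and, Set.mem_ofPred_eq]
    exact Tuple.monotone_sort (vl y)

end Pool.Agent.X117.RSK
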