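import Pool.Agent.X117.JackCount

/-!
# Counting the functions that are increasing on the fibres
-/

namespace Pool.Agent.X117.RSK

open Equiv Pool.Agent.X117.QS

theorem exists_content {n : ℕ} {m : ℕ →₀ ℕ} (hm : (Finsupp.toMultiset m).card = n) :
    ∃ f : Fin n → ℕ, Monotone f ∧ ∑ j, Finsupp.single (f j) 1 = m := by
  let l := (Finsupp.toMultiset m).sort (· ≤ ·)
  have hl : l.length = n := by rw [Multiset.length_sort, hm]
  subst hl
  refine ⟨l.get, ?_, ?_⟩
  · have h1 : l.Pairwise (· ≤ ·) := Multiset.pairwise_sort _ _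
    have h2 : l.SortedLE := h1.sortedLE
    exact h2.monotone_get
  · have h := toMultiset_content l.get
    rw [List.ofFn_get, Multiset.sort_eq, Finsupp.toMultiset_eq_iff,
      Finsupp.toMultiset_toFinsupp] at h
    exact h

theorem card_mono_fin (m N : ℕ) :
    Nat.card {b : Fin m → Fin N // Monotone b} = Nat.multichoose N m := by
  have h1 : Nat.multichoose N m = Nat.card (Sym (Fin N) m) := by
    rw [Nat.card_eq_fintype_card, Sym.card_sym_eq_multichoose, Fintype.card_fin]
  rw [h1]
  apply Nat.card_eq_of_bijective (fun b : {b : Fin m → Fin N // Monotone b} =>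
    (⟨(List.ofFn b.1 : Multiset (Fin N)), by simp⟩ : Sym (Fin N) m))
  constructor
  · rintro ⟨b, hb⟩ ⟨b', hb'⟩ h
    have h2 : (List.ofFn b : Multiset (Fin N)) = (List.ofFn b' : Multiset (Fin N)) :=
      congrArg Subtype.val h
    have h3 : List.ofFn b = List.ofFn b' :=
      List.Perm.eq_of_sortedLE hb.sortedLE_ofFn hb'.sortedLE_ofFn (Multiset.coe_eq_coe.mp h2)
    exact Subtype.ext (List.ofFn_injective h3)
  · rintro ⟨s, hs⟩
    let l := s.sort (· ≤ ·)
    have hl : l.length = m := by rw [Multiset.length_sort, hs]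
    subst hl
    refine ⟨⟨l.get, ?_⟩, ?_⟩
    · have h1 : l.Pairwise (· ≤ ·) := Multiset.pairwise_sort _ _
      exact h1.sortedLE.monotone_get
    · apply Subtype.ext
      simp only
      rw [List.ofFn_get, Multiset.sort_eq]

theorem card_mono {α : Type*} [Fintype α] [LinearOrder α] (N : ℕ) :
    Nat.card {b : α → Fin N // Monotone b} = Nat.multichoose N (Fintype.card α) := by
  rw [← card_mono_fin]
  let e : Fin (Fintype.card α) ≃o α := Fintype.orderIsoFinOfCardEq α rfl
  apply Nat.card_congr
  refine ⟨fun b => ⟨b.1 ∘ e, b.2.comp e.monotone⟩, fun b => ⟨b.1 ∘ e.symm,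
    b.2.comp e.symm.monotone⟩, ?_, ?_⟩
  · rintro ⟨b, hb⟩
    apply Subtype.ext
    funext i
    simp
  · rintro ⟨b, hb⟩
    apply Subtype.ext
    funext i
    simp

open Classical in
theorem card_block_mono {n : ℕ} {f : Fin n → ℕ} (hf : Monotone f) (N : ℕ) :
    (Finset.univ.filter fun y : Fin n → Fin N => Monotone (kap f (vl y))).card =
      ∏ v ∈ Finset.univ.image f, Nat.multichoose N (Finset.univ.filter fun j => f j = v).card := by
  let e : (Fin n → Fin N) ≃ ((v : ↥(Finset.univ.image f)) → {j : Fin n // f j = v.1} → Fin N) :=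
    { toFun := fun y v j => y j.1
      invFun := fun z j => z ⟨f j, Finset.mem_image_of_mem f (Finset.mem_univ j)⟩ ⟨j, rfl⟩
      left_inv := fun y => rfl
      right_inv := by
        intro z
        funext v j
        obtain ⟨j, hj⟩ := j
        obtain ⟨v, hv⟩ := v
        simp only at hj
        subst hj
        rfl }
  have hcond : ∀ y : Fin n → Fin N, Monotone (kap f (vl y)) ↔ ∀ v, Monotone (e y v) := by
    intro y
    constructor
    · intro h v j k hjk
      rcases kap_le.mp (h hjk) with h1 | ⟨-, h1⟩
      · have h2 := j.2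
        have h3 := k.2
        omega
      · exact Fin.le_def.mpr h1
    · intro h j k hjk
      rw [kap_le]
      rcases (hf hjk).lt_or_eq with h1 | h1
      · exact Or.inl h1
      · refine Or.inr ⟨h1, ?_⟩
        have h2 : j ∈ Set.univ := trivial
        let v : ↥(Finset.univ.image f) := ⟨f j, Finset.mem_image_of_mem f (Finset.mem_univ j)⟩
        have h3 := h v (show (⟨j, rfl⟩ : {j : Fin n // f j = v.1}) ≤ ⟨k, h1.symm⟩ from hjk)
        exact Fin.le_def.mp h3
  have h1 : (Finset.univ.filter fun y : Fin n → Fin N => Monotone (kap f (vl y))).card =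
      Nat.card {y : Fin n → Fin N // Monotone (kap f (vl y))} := by
    rw [Nat.card_eq_fintype_card, Fintype.card_subtype]
  rw [h1]
  have h2 : Nat.card {y : Fin n → Fin N // Monotone (kap f (vl y))} =
      Nat.card {z : (v : ↥(Finset.univ.image f)) → {j : Fin n // f j = v.1} → Fin N //
        ∀ v, Monotone (z v)} :=
    Nat.card_congr (e.subtypeEquiv hcond)
  rw [h2, Nat.card_congr (Equiv.subtypePiEquivPi (p := fun v z => Monotone z)), Nat.card_pi]
  rw [← Finset.prod_coe_sort (Finset.univ.image f) (fun v => Nat.multichoose N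
    (Finset.univ.filter fun j => f j = v).card)]
  refine Finset.prod_congr rfl fun v _ => ?_
  rw [card_mono, Fintype.card_subtype]

end Pool.Agent.X117.RSK
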