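import Pool.Agent.X117.JackCount2

/-!
# The sum over the set partitions as a sum over the colourings
-/

namespace Pool.Agent.X117.RSK

open Equiv Pool.Agent.X117.QS

variable {n : ℕ}

theorem part_eq_iff {β : Finpartition (Finset.univ : Finset (Fin n))} {x y : Fin n} :
    β.part x = β.part y ↔ x ∈ β.part y :=
  (β.mem_part_iff_part_eq_part (Finset.mem_univ x) (Finset.mem_univ y)).symm

theorem card_colourings (β : Finpartition (Finset.univ : Finset (Fin n))) (N : ℕ) :
    Nat.card {c : Fin n → Fin N // ∀ x y, c x = c y ↔ β.part x = β.part y} =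
      N.descFactorial β.parts.card := by
  have h1 : N.descFactorial β.parts.card = Nat.card (β.parts ↪ Fin N) := by
    rw [Nat.card_eq_fintype_card, Fintype.card_embedding_eq, Fintype.card_coe, Fintype.card_fin]
  rw [h1]
  symm
  have hp : ∀ x, β.part x ∈ β.parts := fun x => β.part_mem.mpr (Finset.mem_univ x)
  apply Nat.card_eq_of_bijective (fun g : β.parts ↪ Fin N =>
    (⟨fun x => g ⟨β.part x, hp x⟩, fun x y => by
      rw [g.injective.eq_iff, Subtype.mk.injEq]⟩ :
      {c : Fin n → Fin N // ∀ x y, c x = c y ↔ β.part x = β.part y}))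
  constructor
  · intro g g' h
    ext ⟨p, hpp⟩ : 1
    obtain ⟨x, hx⟩ := β.nonempty_of_mem_parts hpp
    have h2 := congrFun (congrArg Subtype.val h) x
    simp only at h2
    have h3 : β.part x = p := β.part_eq_of_mem hpp hx
    simp only [h3] at h2
    exact h2
  · rintro ⟨c, hc⟩
    have hex : ∀ p : β.parts, ∃ x, β.part x = p.1 := by
      rintro ⟨p, hpp⟩
      obtain ⟨x, hx⟩ := β.nonempty_of_mem_parts hpp
      exact ⟨x, β.part_eq_of_mem hpp hx⟩
    choose r hr using hex
    refine ⟨⟨fun p => c (r p), ?_⟩, ?_⟩
    · intro p q hpq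
      have := (hc _ _).mp hpq
      rw [hr, hr] at this
      exact Subtype.ext this
    · apply Subtype.ext
      funext x
      exact (hc _ _).mpr (hr _)

open Classical in
theorem sum_partitions (N : ℕ) (f : Fin n → ℕ) :
    ∑ β : Finpartition (Finset.univ : Finset (Fin n)), N.descFactorial β.parts.card *
      (Finset.univ.filter fun π : Perm (Fin n) => Resp f (refill β.part π)⁻¹).card =
    ∑ c : Fin n → Fin N,
      (Finset.univ.filter fun π : Perm (Fin n) => Resp f (refill c π)⁻¹).card := by
  rw [← Finset.sum_fiberwise (s := (Finset.univ : Finset (Fin n → Fin N)))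
    (g := fun c => Finpartition.ofSetoid (Setoid.ker c))]
  refine Finset.sum_congr rfl fun β _ => ?_
  have key : ∀ c : Fin n → Fin N, Finpartition.ofSetoid (Setoid.ker c) = β ↔
      ∀ x y, c x = c y ↔ β.part x = β.part y := by
    intro c
    constructor
    · rintro rfl x y
      rw [part_eq_iff, Finpartition.mem_part_ofSetoid_iff_rel, Setoid.ker_def]
      exact eq_comm
    · intro h
      have h2 : ∀ x, (Finpartition.ofSetoid (Setoid.ker c)).part x = β.part x := by
        intro x
        ext y
        rw [Finpartition.mem_part_ofSetoid_iff_rel, Setoid.ker_def, h x y, ← part_eq_iff]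
        exact eq_comm
      ext p
      constructor
      · intro hp
        obtain ⟨x, hx⟩ := Finpartition.nonempty_of_mem_parts _ hp
        rw [← Finpartition.part_eq_of_mem _ hp hx, h2]
        exact β.part_mem.mpr (Finset.mem_univ x)
      · intro hp
        obtain ⟨x, hx⟩ := Finpartition.nonempty_of_mem_parts _ hp
        rw [← Finpartition.part_eq_of_mem _ hp hx, ← h2]
        exact Finpartition.part_mem _ |>.mpr (Finset.mem_univ x)
  have h3 : ∀ c ∈ Finset.univ.filter (fun c : Fin n → Fin N =>
      Finpartition.ofSetoid (Setoid.ker c) = β),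
      (Finset.univ.filter fun π : Perm (Fin n) => Resp f (refill c π)⁻¹).card =
      (Finset.univ.filter fun π : Perm (Fin n) => Resp f (refill β.part π)⁻¹).card := by
    intro c hc
    rw [Finset.mem_filter, key] at hc
    have : ∀ π, refill c π = refill β.part π := refill_congr hc.2
    simp_rw [this]
  rw [Finset.sum_congr rfl h3, Finset.sum_const, smul_eq_mul]
  congr 1
  rw [← card_colourings β N, Nat.card_eq_fintype_card, Fintype.card_subtype]
  congr 1
  ext c
  simp only [Finset.mem_filter, Finset.mem_univ, true_and]
  exact (key c).symm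

theorem prod_add_range (m N : ℕ) :
    ∏ a ∈ Finset.range m, (N + a) = m.factorial * Nat.multichoose N m := by
  rw [← Nat.ascFactorial_eq_prod_range]
  rw [Nat.multichoose_eq]
  rcases Nat.eq_zero_or_pos m with rfl | hm
  · simp
  · rw [Nat.ascFactorial_eq_factorial_mul_choose']

end Pool.Agent.X117.RSK
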