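import Pool.Agent.X117.Sup1
import Pool.Agent.H370R2.Local

/-!
# The logarithmic derivative near a large value
-/

namespace Pool.Agent.X117.JF

open Filter Topology MeasureTheory Complex Set Metric

/-- the logarithmic derivative of a polynomial -/
lemma pf_log {s : Multiset ℂ} {z : ℂ} (h : ∀ ρ ∈ s, z ≠ ρ) :
    ‖logDeriv (H370.Loc.Pf s) z‖ ≤ (s.map fun ρ => ‖z - ρ‖⁻¹).sum := by
  induction s using Multiset.induction_on with
  | empty =>
    have : H370.Loc.Pf 0 = fun _ => (1 : ℂ) := funext H370.Loc.Pf_zero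
    rw [this]
    simp [logDeriv]
  | cons ρ s ih =>
    have h0 : H370.Loc.Pf (ρ ::ₘ s) = fun z => (z - ρ) * H370.Loc.Pf s z := funext (H370.Loc.Pf_cons ρ s)
    have hz : z - ρ ≠ 0 := sub_ne_zero.2 (h ρ (Multiset.mem_cons_self ρ s))
    have hP : H370.Loc.Pf s z ≠ 0 := H370.Loc.Pf_ne_zero fun ρ' h' => h ρ' (Multiset.mem_cons_of_mem h')
    have e1 : logDeriv (fun z => (z - ρ) * H370.Loc.Pf s z) z =
        logDeriv (fun z => z - ρ) z + logDeriv (H370.Loc.Pf s) z :=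
      logDeriv_mul z hz hP (differentiableAt_id.sub_const ρ) (H370.Loc.Pf_diff s z)
    rw [h0, e1, Multiset.map_cons, Multiset.sum_cons]
    have e2 : logDeriv (fun z => z - ρ) z = 1 / (z - ρ) := by
      rw [logDeriv_apply]
      congr 1
      simp
    refine (norm_add_le _ _).trans (add_le_add ?_ (ih fun ρ' h' => h ρ' (Multiset.mem_cons_of_mem h')))
    rw [e2, norm_div, norm_one, one_div]

/-- the logarithmic derivative near a large value -/
theorem logder {f : ℂ → ℂ} {c : ℂ} {h M : ℝ} (hh : 0 < h) (hf : AnalyticOnNhd ℂ f (closedBall c (8 * h)))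
    (hc : f c ≠ 0) (hb : ∀ z ∈ closedBall c (8 * h), ‖f z‖ ≤ M) :
    ∃ s : Multiset ℂ, (Multiset.card s : ℝ) ≤ Real.log (M / ‖f c‖) / Real.log 2 ∧
      ∀ z ∈ closedBall c (5 / 2 * h), f z ≠ 0 →
        ‖deriv f z / f z‖ ≤ (s.map fun ρ => ‖z - ρ‖⁻¹).sum + 12 * (Real.log (M / ‖f c‖) + 1) / h := by
  have hfc : 0 < ‖f c‖ := norm_pos_iff.2 hc
  set F : ℂ → ℂ := fun z => f z / f c with hF
  set M' : ℝ := M / ‖f c‖ with hM'
  have hM1 : 1 ≤ M' := by
    rw [hM', le_div_iff₀ hfc, one_mul]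
    exact hb c (mem_closedBall_self (by positivity))
  have hFa : AnalyticOnNhd ℂ F (closedBall c (8 * h)) := fun z hz => (hf z hz).div analyticAt_const hc
  have hFc : F c = 1 := div_self hc
  have hFb : ∀ z ∈ closedBall c (8 * h), ‖F z‖ ≤ M' := by
    intro z hz
    rw [hF, hM']
    simp only
    rw [norm_div]
    exact div_le_div_of_nonneg_right (hb z hz) hfc.le
  obtain ⟨s, g, hs, hg, hfg, hg0, hcard⟩ := H370.Loc.extract (r := 4 * h) (R := 8 * h) (by positivity)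
    (by linarith) hM1 hFa (by rw [hFc]; exact one_ne_zero) hFb
  have e8 : 8 * h / (4 * h) = 2 := by field_simp; norm_num
  rw [hFc, norm_one, div_one, e8] at hcard
  refine ⟨s, hcard, fun z hz hfz => ?_⟩
  have hcr : c ∈ closedBall c (4 * h) := mem_closedBall_self (by positivity)
  have hcR : c ∈ closedBall c (8 * h) := mem_closedBall_self (by positivity)
  have hz4 : z ∈ closedBall c (4 * h) := closedBall_subset_closedBall (by linarith) hz
  have hz8 : z ∈ closedBall c (8 * h) := closedBall_subset_closedBall (by linarith) hz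
  set n := Multiset.card s with hn
  have hd : 0 < 4 * h := by positivity
  have hgsphere : ∀ w ∈ sphere c (8 * h), ‖g w‖ ≤ M' / (4 * h) ^ n := by
    intro w hw
    have hwR := sphere_subset_closedBall hw
    have h1 : (4 * h) ^ n ≤ ‖H370.Loc.Pf s w‖ := H370.Loc.Pf_norm_ge hd.le fun ρ hρ => by
      have h2 := (hs ρ hρ).1
      rw [mem_closedBall, dist_eq_norm] at h2
      rw [mem_sphere, dist_eq_norm] at hw
      have e : w - c = (w - ρ) + (ρ - c) := by ring
      have h3 := norm_add_le (w - ρ) (ρ - c)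
      rw [← e, hw] at h3
      linarith
    rw [le_div_iff₀ (by positivity)]
    calc ‖g w‖ * (4 * h) ^ n ≤ ‖g w‖ * ‖H370.Loc.Pf s w‖ := mul_le_mul_of_nonneg_left h1 (norm_nonneg _)
      _ = ‖F w‖ := by rw [hfg w, norm_mul, mul_comm]
      _ ≤ M' := hFb w hwR
  have hgball : ∀ w ∈ closedBall c (8 * h), ‖g w‖ ≤ M' / (4 * h) ^ n := by
    intro w hw
    have hR0 : (8 * h) ≠ 0 := by positivity
    refine Complex.norm_le_of_forall_mem_frontier_norm_le (U := ball c (8 * h)) isBounded_ball ?_ ?_ ?_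
    · apply DifferentiableOn.diffContOnCl
      rw [closure_ball c hR0]
      exact fun x hx => (hg x hx).differentiableAt.differentiableWithinAt
    · intro x hx
      rw [frontier_ball c hR0] at hx
      exact hgsphere x hx
    · rwa [closure_ball c hR0]
  have hgc : 1 / (4 * h) ^ n ≤ ‖g c‖ := by
    rw [div_le_iff₀ (by positivity)]
    have h1 : ‖H370.Loc.Pf s c‖ ≤ (4 * h) ^ n := H370.Loc.Pf_norm_le fun ρ hρ => by
      have h2 := (hs ρ hρ).1
      rw [mem_closedBall, dist_eq_norm, norm_sub_rev] at h2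
      exact h2
    calc (1 : ℝ) = ‖F c‖ := by rw [hFc, norm_one]
      _ = ‖g c‖ * ‖H370.Loc.Pf s c‖ := by rw [hfg c, norm_mul, mul_comm]
      _ ≤ ‖g c‖ * (4 * h) ^ n := mul_le_mul_of_nonneg_left h1 (norm_nonneg _)
  set B : ℝ := Real.log M' with hB
  have hB0 : 0 ≤ B := Real.log_nonneg hM1
  have hM'0 : 0 < M' := by linarith
  have hexpB : Real.exp B = M' := Real.exp_log hM'0
  have hgb : ∀ w ∈ closedBall c (4 * h), ‖g w‖ ≤ Real.exp B * ‖g c‖ := by
    intro w hw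
    refine (hgball w (closedBall_subset_closedBall (by linarith) hw)).trans ?_
    rw [hexpB]
    calc M' / (4 * h) ^ n = M' * (1 / (4 * h) ^ n) := by ring
      _ ≤ _ := mul_le_mul_of_nonneg_left hgc hM'0.le
  have hlg := H370.Loc.logDeriv_zero_free (r := 4 * h) (r1 := 3 * h) (r2 := 5 / 2 * h) (by positivity)
    (by linarith) (by linarith) hB0 (hg.mono (closedBall_subset_closedBall (by linarith))) hg0 hgb hz
  have hFz : F z ≠ 0 := div_ne_zero hfz hc
  have hsz : ∀ ρ ∈ s, z ≠ ρ := by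
    intro ρ hρ he
    exact hFz (by rw [he]; exact (hs ρ hρ).2)
  have hPz : H370.Loc.Pf s z ≠ 0 := H370.Loc.Pf_ne_zero hsz
  have heq : deriv f z / f z = logDeriv (H370.Loc.Pf s) z + logDeriv g z := by
    have h1 : deriv f z / f z = deriv F z / F z := by
      have h2 : deriv F z = deriv f z / f c := deriv_div_const _
      rw [h2, hF]
      simp only
      field_simp
    have h3 : F = fun w => H370.Loc.Pf s w * g w := funext hfg
    rw [h1, ← logDeriv_apply]
    conv_lhs => rw [h3]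
    exact logDeriv_mul z hPz (hg0 z hz4) (H370.Loc.Pf_diff s z) (hg z hz8).differentiableAt
  rw [heq]
  refine (norm_add_le _ _).trans (add_le_add (pf_log hsz) (hlg.trans (le_of_eq ?_)))
  have e1 : 4 * h - 3 * h = h := by ring
  have e2 : 3 * h - 5 / 2 * h = h / 2 := by ring
  rw [e1, e2]
  field_simp
  norm_num

/-- the singularity on a half line -/
lemma int_half {θ h : ℝ} (hθ : 0 < θ) (hθ1 : θ < 1) (hh : 0 < h) :
    ∫⁻ u in Ioo 0 h, ENNReal.ofReal (|u|⁻¹ ^ θ) ≤ ENNReal.ofReal (h ^ (1 - θ) / (1 - θ)) := by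
  have e1 : ∫⁻ u in Ioo 0 h, ENNReal.ofReal (|u|⁻¹ ^ θ) = ∫⁻ u in Ioo 0 h, ENNReal.ofReal (u ^ (-θ)) := by
    refine setLIntegral_congr_fun measurableSet_Ioo fun u hu => ?_
    rw [abs_of_pos hu.1, Real.inv_rpow hu.1.le, Real.rpow_neg hu.1.le]
  rw [e1]
  refine (lintegral_mono_set Ioo_subset_Ioc_self).trans ?_
  have hint : IntervalIntegrable (fun u : ℝ => u ^ (-θ)) volume 0 h :=
    intervalIntegral.intervalIntegrable_rpow' (by linarith)
  have hio : IntegrableOn (fun u : ℝ => u ^ (-θ)) (Ioc 0 h) := by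
    rwa [intervalIntegrable_iff_integrableOn_Ioc_of_le hh.le] at hint
  rw [← ofReal_integral_eq_lintegral_ofReal hio (by
    rw [EventuallyLE, ae_restrict_iff' measurableSet_Ioc]
    exact Eventually.of_forall fun u hu => Real.rpow_nonneg hu.1.le _), ← intervalIntegral.integral_of_le hh.le,
    integral_rpow (Or.inl (by linarith))]
  refine ENNReal.ofReal_le_ofReal (le_of_eq ?_)
  have e2 : -θ + 1 = 1 - θ := by ring
  rw [e2, Real.zero_rpow (by linarith), sub_zero]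

/-- the singularity on an interval around it -/
lemma int_full {θ h : ℝ} (hθ : 0 < θ) (hθ1 : θ < 1) (hh : 0 < h) :
    ∫⁻ u in Ioo (-h) h, ENNReal.ofReal (|u|⁻¹ ^ θ) ≤ ENNReal.ofReal (2 * (h ^ (1 - θ) / (1 - θ))) := by
  set g : ℝ → ENNReal := fun u => ENNReal.ofReal (|u|⁻¹ ^ θ) with hg
  have hA := int_half hθ hθ1 hh
  have hB : ∫⁻ u in Ioo (-h) 0, g u = ∫⁻ u in Ioo 0 h, g u := by
    rw [← lintegral_indicator measurableSet_Ioo, ← lintegral_indicator measurableSet_Ioo,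
      ← lintegral_neg_eq_self]
    refine lintegral_congr fun u => ?_
    simp only [indicator_apply, mem_Ioo]
    have e1 : g (-u) = g u := by rw [hg]; simp only [abs_neg]
    rw [e1]
    by_cases h1 : 0 < u ∧ u < h
    · rw [if_pos h1, if_pos ⟨by linarith, by linarith⟩]
    · rw [if_neg h1, if_neg]
      rintro ⟨h2, h3⟩
      exact h1 ⟨by linarith, by linarith⟩
  have hsub : Ioo (-h) h ⊆ (Ioo (-h) 0 ∪ Ioo 0 h) ∪ {0} := by
    intro u hu
    rcases lt_trichotomy u 0 with h1 | h1 | h1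
    · exact Or.inl (Or.inl ⟨hu.1, h1⟩)
    · exact Or.inr h1
    · exact Or.inl (Or.inr ⟨h1, hu.2⟩)
  calc ∫⁻ u in Ioo (-h) h, g u ≤ ∫⁻ u in (Ioo (-h) 0 ∪ Ioo 0 h) ∪ {0}, g u := lintegral_mono_set hsub
    _ ≤ (∫⁻ u in Ioo (-h) 0 ∪ Ioo 0 h, g u) + ∫⁻ u in ({0} : Set ℝ), g u := lintegral_union_le _ _ _
    _ ≤ ((∫⁻ u in Ioo (-h) 0, g u) + ∫⁻ u in Ioo 0 h, g u) + 0 := by
        refine add_le_add (lintegral_union_le _ _ _) (le_of_eq ?_)
        rw [Measure.restrict_singleton, Real.volume_singleton, zero_smul, lintegral_zero_measure]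
    _ ≤ _ := by
        rw [hB, add_zero, ← two_mul]
        refine (mul_le_mul_right hA 2).trans (le_of_eq ?_)
        rw [ENNReal.ofReal_mul (by norm_num)]
        norm_num

/-- one singularity, seen from an interval -/
lemma int_sing {θ h : ℝ} (hθ : 0 < θ) (hθ1 : θ < 1) (hh : 0 < h) (ρ : ℂ) (x : ℝ) :
    ∫⁻ t in Icc x (x + h), ENNReal.ofReal (‖(t : ℂ) - ρ‖⁻¹ ^ θ) ≤
      ENNReal.ofReal ((1 + 2 / (1 - θ)) * h ^ (1 - θ)) := by
  have h1θ : 0 < 1 - θ := by linarith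
  set g : ℝ → ENNReal := fun u => ENNReal.ofReal (|u|⁻¹ ^ θ) with hg
  have hpt : ∀ᵐ (t : ℝ) ∂(volume.restrict (Icc x (x + h))), ENNReal.ofReal (‖(t : ℂ) - ρ‖⁻¹ ^ θ) ≤
      ENNReal.ofReal (h⁻¹ ^ θ) + (Ioo (-h) h).indicator g (t - ρ.re) := by
    have h0 : ∀ᵐ t : ℝ ∂(volume.restrict (Icc x (x + h))), t ∈ ({ρ.re} : Set ℝ)ᶜ :=
      ae_restrict_of_ae (compl_mem_ae_iff.2 (Real.volume_singleton))
    filter_upwards [h0] with t ht
    have ht' : t ≠ ρ.re := ht
    have hpos : 0 < |t - ρ.re| := abs_pos.2 (sub_ne_zero.2 ht')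
    have hge : |t - ρ.re| ≤ ‖(t : ℂ) - ρ‖ := by
      have := Complex.abs_re_le_norm ((t : ℂ) - ρ)
      simpa using this
    by_cases hcase : t - ρ.re ∈ Ioo (-h) h
    · rw [indicator_of_mem hcase]
      refine le_trans ?_ le_add_self
      refine ENNReal.ofReal_le_ofReal (Real.rpow_le_rpow (by positivity) ?_ hθ.le)
      exact inv_anti₀ hpos hge
    · rw [indicator_of_notMem hcase, add_zero]
      refine ENNReal.ofReal_le_ofReal (Real.rpow_le_rpow (by positivity) ?_ hθ.le)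
      refine inv_anti₀ hh (le_trans ?_ hge)
      by_contra hcon
      push Not at hcon
      exact hcase (abs_lt.1 hcon)
  have hgm : Measurable g := by
    rw [hg]
    fun_prop
  calc ∫⁻ t in Icc x (x + h), ENNReal.ofReal (‖(t : ℂ) - ρ‖⁻¹ ^ θ)
      ≤ ∫⁻ t in Icc x (x + h), (ENNReal.ofReal (h⁻¹ ^ θ) + (Ioo (-h) h).indicator g (t - ρ.re)) :=
        lintegral_mono_ae hpt
    _ = ENNReal.ofReal (h⁻¹ ^ θ) * ENNReal.ofReal h +
        ∫⁻ t in Icc x (x + h), (Ioo (-h) h).indicator g (t - ρ.re) := by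
        rw [lintegral_add_left measurable_const, setLIntegral_const, Real.volume_Icc, add_sub_cancel_left]
    _ ≤ ENNReal.ofReal (h⁻¹ ^ θ) * ENNReal.ofReal h + ∫⁻ t : ℝ, (Ioo (-h) h).indicator g (t - ρ.re) :=
        add_le_add le_rfl (setLIntegral_le_lintegral _ _)
    _ = ENNReal.ofReal (h⁻¹ ^ θ) * ENNReal.ofReal h + ∫⁻ t in Ioo (-h) h, g t := by
        rw [lintegral_sub_right_eq_self (fun t => (Ioo (-h) h).indicator g t) ρ.re,
          lintegral_indicator measurableSet_Ioo]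
    _ ≤ ENNReal.ofReal (h⁻¹ ^ θ) * ENNReal.ofReal h + ENNReal.ofReal (2 * (h ^ (1 - θ) / (1 - θ))) :=
        add_le_add le_rfl (int_full hθ hθ1 hh)
    _ = _ := by
        rw [← ENNReal.ofReal_mul (by positivity), ← ENNReal.ofReal_add (by positivity) (by positivity)]
        congr 1
        rw [Real.inv_rpow hh.le, Real.rpow_sub hh, Real.rpow_one]
        field_simp

/-- many singularities -/
lemma int_sum {θ h : ℝ} (hθ : 0 < θ) (hθ1 : θ < 1) (hh : 0 < h) (x : ℝ) (s : Multiset ℂ) :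
    ∫⁻ t in Icc x (x + h), ENNReal.ofReal ((s.map fun ρ => ‖(t : ℂ) - ρ‖⁻¹).sum ^ θ) ≤
      ENNReal.ofReal (Multiset.card s * ((1 + 2 / (1 - θ)) * h ^ (1 - θ))) := by
  have h1θ : 0 < 1 - θ := by linarith
  induction s using Multiset.induction_on with
  | empty =>
    simp [Real.zero_rpow hθ.ne']
  | cons ρ s ih =>
    have hsum : ∀ t : ℝ, 0 ≤ (s.map fun ρ => ‖(t : ℂ) - ρ‖⁻¹).sum := by
      intro t
      refine Multiset.sum_nonneg fun y hy => ?_
      obtain ⟨ρ', -, rfl⟩ := Multiset.mem_map.1 hy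
      positivity
    have hpt : ∀ t : ℝ, ENNReal.ofReal (((ρ ::ₘ s).map fun ρ => ‖(t : ℂ) - ρ‖⁻¹).sum ^ θ) ≤
        ENNReal.ofReal (‖(t : ℂ) - ρ‖⁻¹ ^ θ) + ENNReal.ofReal ((s.map fun ρ => ‖(t : ℂ) - ρ‖⁻¹).sum ^ θ) := by
      intro t
      rw [Multiset.map_cons, Multiset.sum_cons, ← ENNReal.ofReal_add (by positivity)
        (Real.rpow_nonneg (hsum t) _)]
      exact ENNReal.ofReal_le_ofReal (Real.rpow_add_le_add_rpow (by positivity) (hsum t) hθ.le hθ1.le)
    refine (lintegral_mono hpt).trans ?_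
    rw [lintegral_add_left (by fun_prop)]
    refine (add_le_add (int_sing hθ hθ1 hh ρ x) ih).trans (le_of_eq ?_)
    rw [← ENNReal.ofReal_add (by positivity) (by positivity), Multiset.card_cons]
    congr 1
    push_cast
    ring

/-- the logarithmic derivative in the mean -/
theorem int_logder {θ : ℝ} (hθ : 0 < θ) (hθ1 : θ < 1) : ∃ K : ℝ, 0 < K ∧ ∀ (f : ℂ → ℂ) (w : ℂ) (x h M : ℝ), 0 < h →
    AnalyticOnNhd ℂ f (closedBall w (8 * h)) → f w ≠ 0 → (∀ z ∈ closedBall w (8 * h), ‖f z‖ ≤ M) →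
    (∀ t ∈ Icc x (x + h), (t : ℂ) ∈ closedBall w (5 / 2 * h)) →
    ∫⁻ t in Icc x (x + h), ENNReal.ofReal (‖deriv f (t : ℂ) / f (t : ℂ)‖ ^ θ) ≤
      ENNReal.ofReal (K * (Real.log (M / ‖f w‖) + 1) * h ^ (1 - θ)) := by
  have h1θ : 0 < 1 - θ := by linarith
  have hl2 : 0 < Real.log 2 := Real.log_pos (by norm_num)
  refine ⟨(1 + 2 / (1 - θ)) / Real.log 2 + 12, by positivity, ?_⟩
  intro f w x h M hh hf hw hb hmem
  obtain ⟨s, hs, hlog⟩ := logder hh hf hw hb
  set Λ : ℝ := Real.log (M / ‖f w‖) with hΛ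
  have hΛ0 : 0 ≤ Λ := by
    refine Real.log_nonneg ?_
    rw [le_div_iff₀ (norm_pos_iff.2 hw), one_mul]
    exact hb w (mem_closedBall_self (by positivity))
  have hsum : ∀ t : ℝ, 0 ≤ (s.map fun ρ => ‖(t : ℂ) - ρ‖⁻¹).sum := by
    intro t
    refine Multiset.sum_nonneg fun y hy => ?_
    obtain ⟨ρ', -, rfl⟩ := Multiset.mem_map.1 hy
    positivity
  have hpt : ∀ t ∈ Icc x (x + h), ENNReal.ofReal (‖deriv f (t : ℂ) / f (t : ℂ)‖ ^ θ) ≤
      ENNReal.ofReal (12 * (Λ + 1) * h⁻¹ ^ θ) + ENNReal.ofReal ((s.map fun ρ => ‖(t : ℂ) - ρ‖⁻¹).sum ^ θ) := by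
    intro t ht
    by_cases h0 : f (t : ℂ) = 0
    · rw [h0, div_zero, norm_zero, Real.zero_rpow hθ.ne', ENNReal.ofReal_zero]
      exact zero_le
    rw [← ENNReal.ofReal_add (by positivity) (Real.rpow_nonneg (hsum t) _)]
    refine ENNReal.ofReal_le_ofReal ?_
    have h1 := Real.rpow_le_rpow (norm_nonneg _) (hlog t (hmem t ht) h0) hθ.le
    refine h1.trans ((Real.rpow_add_le_add_rpow (hsum t) (by positivity) hθ.le hθ1.le).trans ?_)
    rw [add_comm]
    refine add_le_add ?_ le_rfl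
    rw [div_eq_mul_inv, Real.mul_rpow (by positivity) (by positivity)]
    refine mul_le_mul_of_nonneg_right ?_ (by positivity)
    have h2 : (12 * (Λ + 1)) ^ θ ≤ (12 * (Λ + 1)) ^ (1 : ℝ) :=
      Real.rpow_le_rpow_of_exponent_le (by linarith) hθ1.le
    rwa [Real.rpow_one] at h2
  calc ∫⁻ t in Icc x (x + h), ENNReal.ofReal (‖deriv f (t : ℂ) / f (t : ℂ)‖ ^ θ)
      ≤ ∫⁻ t in Icc x (x + h), (ENNReal.ofReal (12 * (Λ + 1) * h⁻¹ ^ θ) +
          ENNReal.ofReal ((s.map fun ρ => ‖(t : ℂ) - ρ‖⁻¹).sum ^ θ)) :=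
        setLIntegral_mono' measurableSet_Icc hpt
    _ = ENNReal.ofReal (12 * (Λ + 1) * h⁻¹ ^ θ) * ENNReal.ofReal h +
          ∫⁻ t in Icc x (x + h), ENNReal.ofReal ((s.map fun ρ => ‖(t : ℂ) - ρ‖⁻¹).sum ^ θ) := by
        rw [lintegral_add_left measurable_const, setLIntegral_const, Real.volume_Icc, add_sub_cancel_left]
    _ ≤ ENNReal.ofReal (12 * (Λ + 1) * h⁻¹ ^ θ) * ENNReal.ofReal h +
          ENNReal.ofReal (Multiset.card s * ((1 + 2 / (1 - θ)) * h ^ (1 - θ))) :=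
        add_le_add le_rfl (int_sum hθ hθ1 hh x s)
    _ ≤ _ := by
        rw [← ENNReal.ofReal_mul (by positivity), ← ENNReal.ofReal_add (by positivity) (by positivity)]
        refine ENNReal.ofReal_le_ofReal ?_
        have e1 : 12 * (Λ + 1) * h⁻¹ ^ θ * h = 12 * (Λ + 1) * h ^ (1 - θ) := by
          rw [Real.inv_rpow hh.le, Real.rpow_sub hh, Real.rpow_one]
          field_simp
        rw [e1]
        have h3 : (Multiset.card s : ℝ) * ((1 + 2 / (1 - θ)) * h ^ (1 - θ)) ≤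
            (Λ + 1) / Real.log 2 * ((1 + 2 / (1 - θ)) * h ^ (1 - θ)) := by
          refine mul_le_mul_of_nonneg_right (hs.trans ?_) (by positivity)
          exact div_le_div_of_nonneg_right (by linarith) hl2.le
        have e2 : ((1 + 2 / (1 - θ)) / Real.log 2 + 12) * (Λ + 1) * h ^ (1 - θ) =
            12 * (Λ + 1) * h ^ (1 - θ) + (Λ + 1) / Real.log 2 * ((1 + 2 / (1 - θ)) * h ^ (1 - θ)) := by
          ring
        rw [e2]
        linarith

end Pool.Agent.X117.JF
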