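import Pool.Agent.X117.Joi2

/-!
# Joint moments with a negative exponent: the mean value
-/

namespace Pool.Agent.X117.JF

open Filter Topology MeasureTheory Complex Set Metric
open Pool.Agent.X117.HZ Pool.Agent.X117.DZ Pool.Agent.X117.SZ

/-- the integrand -/
noncomputable def G (m : ℕ) (a b t : ℝ) : ENNReal :=
  ENNReal.ofReal (|iteratedDeriv m Z t| ^ a * |iteratedDeriv (m + 1) Z t| ^ b)

/-- one cell, for Hardy's function -/
theorem cell_Z {k p : ℝ} (hk : 0 < k) (hp0 : 0 ≤ p) (hp : p < 2 * k + 1) (m : ℕ) : ∃ C : ℝ, 0 < C ∧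
    ∀ x h M : ℝ, 10 ≤ x → 0 < h → h ≤ 1 / 100 →
      (∀ s : ℂ, ‖s - (1 / 2 + I * ((x + h / 2 : ℝ) : ℂ))‖ ≤ 11 * h → ‖riemannZeta s‖ ≤ M) →
      ∫⁻ t in Icc x (x + h), G m (2 * k - p) p t ≤
        ENNReal.ofReal (C * h ^ (1 - p - 2 * k * m) * M ^ (2 * k)) := by
  obtain ⟨C, hC, hcell⟩ := cell_joint hk hp0 hp
  refine ⟨C * (m.factorial : ℝ) ^ (2 * k), by positivity, ?_⟩
  intro x h M hx hh hh1 hM
  set t0 : ℝ := x + h / 2 with ht0
  obtain ⟨W, h1, h2, h3⟩ := continuation (t0 := t0) (by linarith)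
  have hM0 : 0 ≤ M := (norm_nonneg _).trans (hM (1 / 2 + I * t0) (by simp; positivity))
  have hsub : closedBall (t0 : ℂ) (11 * h) ⊆ ball (t0 : ℂ) (1 / 4) := closedBall_subset_ball (by linarith)
  have hWM : ∀ z ∈ closedBall (t0 : ℂ) (11 * h), ‖W z‖ ≤ M := by
    intro z hz
    have hzb := hsub hz
    rw [mem_closedBall, dist_eq_norm] at hz
    have h5 : ‖riemannZeta (1 / 2 + I * z)‖ ≤ M := by
      apply hM
      have e1 : (1 / 2 + I * z) - (1 / 2 + I * (t0 : ℂ)) = I * (z - t0) := by ring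
      rw [e1, norm_mul, Complex.norm_I, one_mul]
      exact hz
    have h6 : ‖riemannZeta (1 / 2 - I * z)‖ ≤ M := by
      have e1 : (1 / 2 - I * z) = (starRingEnd ℂ) (1 / 2 + I * (starRingEnd ℂ) z) := by
        rw [map_add, map_mul, Complex.conj_I, Complex.conj_conj, map_div₀, map_one,
          Complex.conj_ofNat]
        ring
      rw [e1, riemannZeta_conj, Complex.norm_conj]
      apply hM
      have e2 : (1 / 2 + I * (starRingEnd ℂ) z) - (1 / 2 + I * (t0 : ℂ)) =
          I * (starRingEnd ℂ) (z - t0) := by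
        rw [map_sub, Complex.conj_ofReal]; ring
      rw [e2, norm_mul, Complex.norm_I, one_mul, Complex.norm_conj]
      exact hz
    have h7 := h3 z hzb
    have h8 : ‖W z‖ ^ 2 ≤ M ^ 2 := by
      rw [h7, sq]
      exact mul_le_mul h5 h6 (norm_nonneg _) hM0
    exact (pow_le_pow_iff_left₀ (norm_nonneg _) hM0 two_ne_zero).mp h8
  have hWa : AnalyticOnNhd ℂ W (ball (t0 : ℂ) (1 / 4)) := h1.analyticOnNhd isOpen_ball
  have hsub10 : closedBall (t0 : ℂ) (10 * h) ⊆ ball (t0 : ℂ) (1 / 4) := closedBall_subset_ball (by linarith)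
  have hfa : AnalyticOnNhd ℂ (iteratedDeriv m W) (closedBall (t0 : ℂ) (10 * h)) := by
    have := hWa.iterated_deriv m
    rw [← iteratedDeriv_eq_iterate] at this
    exact this.mono hsub10
  have hfb : ∀ z ∈ closedBall (t0 : ℂ) (10 * h), ‖iteratedDeriv m W z‖ ≤ m.factorial * M / h ^ m := by
    intro z hz
    have hsub2 : closedBall z h ⊆ closedBall (t0 : ℂ) (11 * h) := by
      intro u hu
      rw [mem_closedBall, dist_eq_norm] at hu hz ⊢
      have e : u - t0 = (u - z) + (z - t0) := by ring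
      rw [e]
      linarith [norm_add_le (u - z) (z - (t0 : ℂ))]
    refine Complex.norm_iteratedDeriv_le_of_forall_mem_sphere_norm_le m hh ?_ fun u hu =>
      hWM u (hsub2 (sphere_subset_closedBall hu))
    refine DifferentiableOn.diffContOnCl ?_
    rw [closure_ball _ hh.ne']
    exact h1.mono (hsub2.trans hsub)
  have hmain := hcell (iteratedDeriv m W) x h (m.factorial * M / h ^ m) hh hfa hfb
  have hpt : ∀ t ∈ Icc x (x + h), G m (2 * k - p) p t =
      ENNReal.ofReal (‖deriv (iteratedDeriv m W) (t : ℂ)‖ ^ p * ‖iteratedDeriv m W (t : ℂ)‖ ^ (2 * k - p)) := by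
    intro t ht
    have htt : |t - t0| < 1 / 4 := by
      rw [abs_lt]
      constructor <;> linarith [ht.1, ht.2]
    rw [← iteratedDeriv_succ, iter_real h1 h2 m t htt, iter_real h1 h2 (m + 1) t htt, Complex.norm_real,
      Complex.norm_real, Real.norm_eq_abs, Real.norm_eq_abs]
    unfold G
    rw [mul_comm (|iteratedDeriv m Z t| ^ (2 * k - p))]
  rw [setLIntegral_congr_fun measurableSet_Icc hpt]
  refine hmain.trans (ENNReal.ofReal_le_ofReal (le_of_eq ?_))
  have e1 : (m.factorial * M / h ^ m : ℝ) ^ (2 * k) =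
      (m.factorial : ℝ) ^ (2 * k) * M ^ (2 * k) * h ^ (-(2 * k * m)) := by
    rw [Real.div_rpow (by positivity) (by positivity), Real.mul_rpow (by positivity) hM0,
      ← Real.rpow_natCast, ← Real.rpow_mul hh.le, Real.rpow_neg hh.le, div_eq_mul_inv, mul_comm (m : ℝ)]
  have e2 : h ^ (1 - p - 2 * k * m) = h ^ (1 - p) * h ^ (-(2 * k * m)) := by
    rw [← Real.rpow_add hh]
    congr 1
  rw [e1, e2]
  ring

/-- a union of adjacent intervals -/
lemma cover (g : ℝ → ENNReal) (T : ℝ) {h : ℝ} (hh : 0 < h) (m : ℕ) :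
    ∫⁻ t in Icc T (T + m * h), g t ≤ ∑ i ∈ Finset.range m, ∫⁻ t in Icc (T + i * h) (T + i * h + h), g t := by
  induction m with
  | zero =>
    simp only [Nat.cast_zero, zero_mul, add_zero, Finset.range_zero, Finset.sum_empty, Icc_self]
    rw [Measure.restrict_singleton, Real.volume_singleton, zero_smul, lintegral_zero_measure]
  | succ m ih =>
    rw [Finset.sum_range_succ]
    have hsub : Icc T (T + ((m + 1 : ℕ) : ℝ) * h) ⊆ Icc T (T + m * h) ∪ Icc (T + m * h) (T + m * h + h) := by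
      intro t ht
      rcases le_total t (T + m * h) with h1 | h1
      · exact Or.inl ⟨ht.1, h1⟩
      · refine Or.inr ⟨h1, ?_⟩
        have := ht.2
        push_cast at this
        linarith
    exact (lintegral_mono_set hsub).trans ((lintegral_union_le _ _ _).trans (add_le_add ih le_rfl))

/-- from the cells to the mean value -/
theorem mean_up {a b : ℝ} (h0 : 0 < a + b) (h4 : a + b ≤ 4) (m : ℕ) (g : ℝ → ENNReal)
    (hc : ∃ C : ℝ, 0 < C ∧ ∀ x h M : ℝ, 10 ≤ x → 0 < h → h ≤ 1 / 100 →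
      (∀ s : ℂ, ‖s - (1 / 2 + I * ((x + h / 2 : ℝ) : ℂ))‖ ≤ 11 * h → ‖riemannZeta s‖ ≤ M) →
      ∫⁻ t in Icc x (x + h), g t ≤
        ENNReal.ofReal (C * h ^ (1 - b - 2 * ((a + b) / 2) * m) * M ^ (2 * ((a + b) / 2)))) :
    ∃ C : ℝ, 0 < C ∧ ∀ᶠ T : ℝ in atTop, ∫⁻ t in Icc T (2 * T), g t ≤
      ENNReal.ofReal (C * (T * Real.log T ^ ((a + b) ^ 2 / 4 + m * a + (m + 1) * b))) := by
  set k : ℝ := (a + b) / 2 with hk
  have hk0 : 0 < k := by positivity
  have hk2 : k ≤ 2 := by rw [hk]; linarith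
  obtain ⟨C₁, hC₁, hcell⟩ := hc
  obtain ⟨C₂, hC₂, hup⟩ := Phi_int2 hk0 hk2 (show (0 : ℝ) < 12 by norm_num)
  refine ⟨C₁ * C₂, by positivity, ?_⟩
  filter_upwards [hup, eventually_ge_atTop (20 : ℝ), Real.tendsto_log_atTop.eventually_ge_atTop 200]
    with T h2 hT hL200
  have hL0 : 0 < Real.log T := by linarith
  set L := Real.log T with hL
  set h : ℝ := 1 / L with hh
  have hh0 : 0 < h := by positivity
  have hh1 : h ≤ 1 / 200 := by
    rw [hh]
    exact one_div_le_one_div_of_le (by norm_num) hL200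
  set n : ℕ := ⌈T / h⌉₊ with hn
  have hn1 : T ≤ n * h := by
    have := Nat.le_ceil (T / h)
    rwa [div_le_iff₀ hh0] at this
  have hn2 : n * h ≤ T + 1 := by
    have := Nat.ceil_lt_add_one (show 0 ≤ T / h by positivity)
    have h3 : (n : ℝ) * h < (T / h + 1) * h := mul_lt_mul_of_pos_right this hh0
    have h5 : (T / h + 1) * h = T + h := by field_simp
    rw [h5] at h3
    linarith
  set R : ℝ := 12 * h with hR
  have hR0 : 0 < R := by positivity
  set K : ℝ := 1 / (Real.pi * R ^ 2) with hK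
  have hK0 : 0 < K := by positivity
  set P : ℝ → ℝ := fun t => K * Phi k (3 * R) R t with hP
  have hPc : Continuous P := continuous_const.mul (Phi_cont hk0 _ _)
  have hP0 : ∀ t, 0 ≤ P t := fun t => mul_nonneg hK0.le (Phi_nonneg (by positivity) hR0.le t)
  set x : ℕ → ℝ := fun i => T + i * h with hx
  have hx0 : x 0 = T := by simp [hx]
  have hxs : ∀ i : ℕ, x (i + 1) = x i + h := by
    intro i
    rw [hx]
    push_cast
    ring
  have hxT : ∀ i : ℕ, T ≤ x i := by
    intro i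
    rw [hx]
    have : 0 ≤ (i : ℝ) * h := by positivity
    linarith
  -- one cell
  have hone : ∀ i : ℕ, ∫⁻ t in Icc (x i) (x i + h), g t ≤
      ENNReal.ofReal (C₁ * h ^ (-b - 2 * k * m) * ∫ t in (x i)..(x i + h), P t) := by
    intro i
    have hxi := hxT i
    set y := x i with hy
    have hyh : y ≤ y + h := by linarith
    set I₂ := ∫ t in y..(y + h), P t with hI₂
    have hI₂0 : 0 ≤ I₂ := intervalIntegral.integral_nonneg hyh fun t _ => hP0 t
    have hIh0 : 0 ≤ I₂ / h := by positivity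
    set M : ℝ := (I₂ / h) ^ (1 / (2 * k)) with hM
    have hMk : M ^ (2 * k) = I₂ / h := by
      rw [hM, ← Real.rpow_mul hIh0, one_div_mul_cancel (by positivity), Real.rpow_one]
    have hdisc : ∀ s : ℂ, ‖s - (1 / 2 + I * ((y + h / 2 : ℝ) : ℂ))‖ ≤ 11 * h → ‖riemannZeta s‖ ≤ M := by
      intro u hu
      have b1 := (Complex.abs_re_le_norm _).trans hu
      have b2 := (Complex.abs_im_le_norm _).trans hu
      have e1 : (u - (1 / 2 + I * ((y + h / 2 : ℝ) : ℂ))).re = u.re - 1 / 2 := by simp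
      have e2 : (u - (1 / 2 + I * ((y + h / 2 : ℝ) : ℂ))).im = u.im - (y + h / 2) := by simp
      rw [e1] at b1
      rw [e2, abs_le] at b2
      have b3 : ∀ t ∈ Icc y (y + h), ‖riemannZeta u‖ ^ (2 * k) ≤ P t := by
        intro t ht
        refine zeta_le_Phi (ρ := 3 * R) hk0 hR0 (by linarith) (by linarith) (by linarith)
          (by linarith [ht.1]) (by linarith) ?_
        rw [abs_le]
        constructor <;> linarith [b2.1, b2.2, ht.1, ht.2]
      have b4 : ∫ _ in y..(y + h), ‖riemannZeta u‖ ^ (2 * k) ≤ I₂ :=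
        intervalIntegral.integral_mono_on hyh (by simp) (hPc.intervalIntegrable _ _) b3
      rw [intervalIntegral.integral_const, smul_eq_mul, add_sub_cancel_left] at b4
      have b5 : ‖riemannZeta u‖ ^ (2 * k) ≤ I₂ / h := by
        rw [le_div_iff₀ hh0, mul_comm]
        exact b4
      have b6 := Real.rpow_le_rpow (Real.rpow_nonneg (norm_nonneg _) _) b5 (show 0 ≤ 1 / (2 * k) by positivity)
      rwa [← Real.rpow_mul (norm_nonneg _), mul_one_div_cancel (by positivity), Real.rpow_one] at b6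
    refine (hcell y h M (by linarith) hh0 (by linarith) hdisc).trans (ENNReal.ofReal_le_ofReal (le_of_eq ?_))
    rw [hMk]
    have e3 : h ^ (1 - b - 2 * k * m) = h * h ^ (-b - 2 * k * m) := by
      have : (1 - b - 2 * k * m : ℝ) = 1 + (-b - 2 * k * m) := by ring
      rw [this, Real.rpow_add hh0, Real.rpow_one]
    rw [e3]
    field_simp
  have hsumP : ∑ i ∈ Finset.range n, ∫ t in (x i)..(x i + h), P t = ∫ t in T..(T + n * h), P t := by
    have := intervalIntegral.sum_integral_adjacent_intervals (a := x) (n := n) (f := P) (μ := volume)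
      fun i _ => hPc.intervalIntegrable _ _
    rw [hx0] at this
    rw [← this]
    refine Finset.sum_congr rfl fun i _ => ?_
    rw [hxs]
  have hPtot : ∫ t in T..(T + n * h), P t ≤ K * (C₂ * (T * L ^ (k ^ 2 - 2))) := by
    have h5 : ∫ t in T..(T + n * h), P t ≤ ∫ t in (T - 1)..(2 * T + 1), P t :=
      intervalIntegral.integral_mono_interval (by linarith) (by linarith) (by linarith)
        (Eventually.of_forall fun t => hP0 t) (hPc.intervalIntegrable _ _)
    refine h5.trans ?_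
    rw [hP, intervalIntegral.integral_const_mul]
    have e1 : R = 12 / L := by rw [hR, hh]; ring
    rw [e1]
    exact mul_le_mul_of_nonneg_left h2 hK0.le
  have hpos : 0 ≤ C₁ * h ^ (-b - 2 * k * m) := by positivity
  calc ∫⁻ t in Icc T (2 * T), g t ≤ ∫⁻ t in Icc T (T + n * h), g t :=
        lintegral_mono_set (Icc_subset_Icc le_rfl (by linarith))
    _ ≤ ∑ i ∈ Finset.range n, ∫⁻ t in Icc (x i) (x i + h), g t := cover _ T hh0 n
    _ ≤ ∑ i ∈ Finset.range n, ENNReal.ofReal (C₁ * h ^ (-b - 2 * k * m) * ∫ t in (x i)..(x i + h), P t) :=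
        Finset.sum_le_sum fun i _ => hone i
    _ = ENNReal.ofReal (C₁ * h ^ (-b - 2 * k * m) * ∫ t in T..(T + n * h), P t) := by
        rw [← ENNReal.ofReal_sum_of_nonneg fun i _ => mul_nonneg hpos
          (intervalIntegral.integral_nonneg (by linarith) fun t _ => hP0 t), ← Finset.mul_sum, hsumP]
    _ ≤ _ := by
        refine ENNReal.ofReal_le_ofReal ((mul_le_mul_of_nonneg_left hPtot hpos).trans ?_)
        have e1 : h ^ (-b - 2 * k * m) = L ^ (b + 2 * k * m) := by
          rw [hh, one_div, Real.inv_rpow hL0.le, ← Real.rpow_neg hL0.le]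
          congr 1
          ring
        have e2 : K = L ^ (2 : ℝ) / (Real.pi * 144) := by
          have : L ^ (2 : ℝ) = L ^ 2 := by norm_cast
          rw [this, hK, hR, hh]
          field_simp
          norm_num
        have e3 : L ^ ((a + b) ^ 2 / 4 + m * a + (m + 1) * b) = L ^ (b + 2 * k * m) * (L ^ (2 : ℝ) * L ^ (k ^ 2 - 2)) := by
          rw [← Real.rpow_add hL0, ← Real.rpow_add hL0]
          congr 1
          rw [hk]
          ring
        rw [e1, e2, e3]
        have hpi : 3 < Real.pi := Real.pi_gt_three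
        have hX : 0 ≤ C₁ * C₂ * (T * (L ^ (b + 2 * k * m) * (L ^ (2 : ℝ) * L ^ (k ^ 2 - 2)))) := by positivity
        have e4 : C₁ * L ^ (b + 2 * k * m) * (L ^ (2 : ℝ) / (Real.pi * 144) * (C₂ * (T * L ^ (k ^ 2 - 2)))) =
            C₁ * C₂ * (T * (L ^ (b + 2 * k * m) * (L ^ (2 : ℝ) * L ^ (k ^ 2 - 2)))) / (Real.pi * 144) := by
          ring
        rw [e4]
        exact div_le_self hX (by linarith)

/-- **upper bounds of exact order for joint moments, the first exponent may be negative** -/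
theorem joint_up {a b : ℝ} (ha : -1 < a) (hb : 0 ≤ b) (h0 : 0 < a + b) (h4 : a + b ≤ 4) (m : ℕ) :
    ∃ C : ℝ, 0 < C ∧ ∀ᶠ T : ℝ in atTop, ∫⁻ t in Icc T (2 * T), G m a b t ≤
      ENNReal.ofReal (C * (T * Real.log T ^ ((a + b) ^ 2 / 4 + m * a + (m + 1) * b))) := by
  refine mean_up h0 h4 m (G m a b) ?_
  obtain ⟨C₁, hC₁, hcell⟩ := cell_Z (k := (a + b) / 2) (p := b) (by positivity) hb (by linarith) m
  have e0 : 2 * ((a + b) / 2) - b = a := by ring
  rw [e0] at hcell
  exact ⟨C₁, hC₁, hcell⟩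

/-- one cell, for the derivatives of zeta -/
theorem cell_zeta {k p : ℝ} (hk : 0 < k) (hp0 : 0 ≤ p) (hp : p < 2 * k + 1) (m : ℕ) : ∃ C : ℝ, 0 < C ∧
    ∀ x h M : ℝ, 10 ≤ x → 0 < h → h ≤ 1 / 100 →
      (∀ s : ℂ, ‖s - (1 / 2 + I * ((x + h / 2 : ℝ) : ℂ))‖ ≤ 11 * h → ‖riemannZeta s‖ ≤ M) →
      ∫⁻ t in Icc x (x + h), ENNReal.ofReal (‖iteratedDeriv m riemannZeta (1 / 2 + I * (t : ℂ))‖ ^ (2 * k - p) *
        ‖iteratedDeriv (m + 1) riemannZeta (1 / 2 + I * (t : ℂ))‖ ^ p) ≤
        ENNReal.ofReal (C * h ^ (1 - p - 2 * k * m) * M ^ (2 * k)) := by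
  obtain ⟨C, hC, hcell⟩ := cell_joint hk hp0 hp
  refine ⟨C * (m.factorial : ℝ) ^ (2 * k), by positivity, ?_⟩
  intro x h M hx hh hh1 hM
  set t0 : ℝ := x + h / 2 with ht0
  have hM0 : 0 ≤ M := (norm_nonneg _).trans (hM (1 / 2 + I * t0) (by simp; positivity))
  -- the domain
  set φ : ℂ → ℂ := fun z => 1 / 2 + I * z with hφ
  have hφd : ∀ z w : ℂ, ‖φ z - φ w‖ = ‖z - w‖ := by
    intro z w
    have : φ z - φ w = I * (z - w) := by rw [hφ]; ring
    rw [this, norm_mul, Complex.norm_I, one_mul]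
  have hzU : AnalyticOnNhd ℂ riemannZeta U := zeta_U.analyticOnNhd U_open
  have hmemU : ∀ z ∈ closedBall (t0 : ℂ) (11 * h), φ z ∈ U := by
    intro z hz
    refine ball_U (t := t0) (R := 11 * h) (by linarith) ?_
    rw [mem_closedBall, dist_eq_norm] at hz ⊢
    exact (hφd z t0).trans_le hz
  have hda : ∀ j : ℕ, AnalyticOnNhd ℂ (iteratedDeriv j riemannZeta) U := by
    intro j
    have := hzU.iterated_deriv j
    rwa [← iteratedDeriv_eq_iterate] at this
  set f : ℂ → ℂ := fun z => iteratedDeriv m riemannZeta (φ z) with hf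
  have hfa : AnalyticOnNhd ℂ f (closedBall (t0 : ℂ) (10 * h)) := by
    intro z hz
    have h1 : AnalyticAt ℂ (iteratedDeriv m riemannZeta) (φ z) :=
      hda m _ (hmemU z (closedBall_subset_closedBall (by linarith) hz))
    have h2 : AnalyticAt ℂ φ z := by
      have : Differentiable ℂ φ := by rw [hφ]; fun_prop
      exact this.analyticAt z
    exact h1.comp h2
  have hfb : ∀ z ∈ closedBall (t0 : ℂ) (10 * h), ‖f z‖ ≤ m.factorial * M / h ^ m := by
    intro z hz
    have hball : ∀ u ∈ closedBall (φ z) h, u ∈ U ∧ ‖u - (1 / 2 + I * (t0 : ℂ))‖ ≤ 11 * h := by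
      intro u hu
      have h1 : ‖u - (1 / 2 + I * (t0 : ℂ))‖ ≤ 11 * h := by
        rw [mem_closedBall, dist_eq_norm] at hu hz
        have e : u - (1 / 2 + I * (t0 : ℂ)) = (u - φ z) + (φ z - φ t0) := by rw [hφ]; ring
        rw [e]
        have h2 := hφd z t0
        linarith [norm_add_le (u - φ z) (φ z - φ t0)]
      refine ⟨ball_U (t := t0) (R := 11 * h) (by linarith) ?_, h1⟩
      rw [mem_closedBall, dist_eq_norm]
      exact h1
    refine Complex.norm_iteratedDeriv_le_of_forall_mem_sphere_norm_le m hh ?_ fun u hu =>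
      hM u (hball u (sphere_subset_closedBall hu)).2
    refine DifferentiableOn.diffContOnCl ?_
    rw [closure_ball _ hh.ne']
    exact zeta_U.mono fun u hu => (hball u hu).1
  have hmain := hcell f x h (m.factorial * M / h ^ m) hh hfa hfb
  have hpt : ∀ t ∈ Icc x (x + h), ENNReal.ofReal (‖iteratedDeriv m riemannZeta (1 / 2 + I * (t : ℂ))‖ ^ (2 * k - p) *
        ‖iteratedDeriv (m + 1) riemannZeta (1 / 2 + I * (t : ℂ))‖ ^ p) =
      ENNReal.ofReal (‖deriv f (t : ℂ)‖ ^ p * ‖f (t : ℂ)‖ ^ (2 * k - p)) := by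
    intro t ht
    have htb : (t : ℂ) ∈ closedBall (t0 : ℂ) (11 * h) := by
      rw [mem_closedBall, dist_eq_norm, ← Complex.ofReal_sub, Complex.norm_real, Real.norm_eq_abs, abs_le]
      constructor <;> linarith [ht.1, ht.2]
    have h1 : HasDerivAt (iteratedDeriv m riemannZeta) (iteratedDeriv (m + 1) riemannZeta (φ t)) (φ t) := by
      rw [iteratedDeriv_succ]
      exact (hda m _ (hmemU _ htb)).differentiableAt.hasDerivAt
    have h2 : HasDerivAt φ I (t : ℂ) := by
      have := ((hasDerivAt_id (t : ℂ)).const_mul I).const_add (1 / 2 : ℂ)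
      rwa [mul_one] at this
    have h3 : deriv f (t : ℂ) = iteratedDeriv (m + 1) riemannZeta (φ t) * I := (h1.comp (t : ℂ) h2).deriv
    rw [h3, norm_mul, Complex.norm_I, mul_one, mul_comm (‖iteratedDeriv m riemannZeta (1 / 2 + I * (t : ℂ))‖ ^ (2 * k - p))]
  rw [setLIntegral_congr_fun measurableSet_Icc hpt]
  refine hmain.trans (ENNReal.ofReal_le_ofReal (le_of_eq ?_))
  have e1 : (m.factorial * M / h ^ m : ℝ) ^ (2 * k) =
      (m.factorial : ℝ) ^ (2 * k) * M ^ (2 * k) * h ^ (-(2 * k * m)) := by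
    rw [Real.div_rpow (by positivity) (by positivity), Real.mul_rpow (by positivity) hM0,
      ← Real.rpow_natCast, ← Real.rpow_mul hh.le, Real.rpow_neg hh.le, div_eq_mul_inv, mul_comm (m : ℝ)]
  have e2 : h ^ (1 - p - 2 * k * m) = h ^ (1 - p) * h ^ (-(2 * k * m)) := by
    rw [← Real.rpow_add hh]
    congr 1
  rw [e1, e2]
  ring

/-- the joint moments of the derivatives of zeta -/
theorem joint_up_zeta {a b : ℝ} (ha : -1 < a) (hb : 0 ≤ b) (h0 : 0 < a + b) (h4 : a + b ≤ 4) (m : ℕ) :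
    ∃ C : ℝ, 0 < C ∧ ∀ᶠ T : ℝ in atTop, ∫⁻ t in Icc T (2 * T),
      ENNReal.ofReal (‖iteratedDeriv m riemannZeta (1 / 2 + I * (t : ℂ))‖ ^ a *
        ‖iteratedDeriv (m + 1) riemannZeta (1 / 2 + I * (t : ℂ))‖ ^ b) ≤
      ENNReal.ofReal (C * (T * Real.log T ^ ((a + b) ^ 2 / 4 + m * a + (m + 1) * b))) := by
  refine mean_up h0 h4 m _ ?_
  obtain ⟨C₁, hC₁, hcell⟩ := cell_zeta (k := (a + b) / 2) (p := b) (by positivity) hb (by linarith) m
  have e0 : 2 * ((a + b) / 2) - b = a := by ring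
  rw [e0] at hcell
  exact ⟨C₁, hC₁, hcell⟩

end Pool.Agent.X117.JF
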