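import Pool.Agent.X117.Joi3
import Pool.Agent.X117.HZ3

/-!
# Joint moments: no convergence beyond the range
-/

namespace Pool.Agent.X117.JF

open Filter Topology MeasureTheory Complex Set Metric
open Pool.Agent.X117.HZ Pool.Agent.X117.DZ Pool.Agent.X117.SZ

/-- the integral of the inverse distance diverges -/
lemma int_inv (g : ℝ) {η c : ℝ} (hη : 0 < η) (hc : 0 < c) :
    ∫⁻ t in Ioo (g - η) g, ENNReal.ofReal (c * |t - g|⁻¹) = ⊤ := by
  by_contra hne
  have hint : IntegrableOn (fun t : ℝ => c * (t - g)⁻¹) (Ioo (g - η) g) := by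
    refine ⟨by fun_prop, ?_⟩
    rw [hasFiniteIntegral_iff_norm]
    have e : ∀ t : ℝ, ENNReal.ofReal ‖c * (t - g)⁻¹‖ = ENNReal.ofReal (c * |t - g|⁻¹) := by
      intro t
      rw [norm_mul, norm_inv, Real.norm_eq_abs, Real.norm_eq_abs, abs_of_pos hc]
    simp only [e]
    exact lt_top_iff_ne_top.2 hne
  have h2 : IntegrableOn (fun t : ℝ => (t - g)⁻¹) (Ioo (g - η) g) := by
    have h4 : Integrable (fun t : ℝ => c⁻¹ * (c * (t - g)⁻¹)) (volume.restrict (Ioo (g - η) g)) :=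
      Integrable.const_mul hint c⁻¹
    have e : (fun t : ℝ => c⁻¹ * (c * (t - g)⁻¹)) = fun t : ℝ => (t - g)⁻¹ := by
      funext t
      rw [← mul_assoc, inv_mul_cancel₀ hc.ne', one_mul]
    rw [e] at h4
    exact h4
  have h3 : IntervalIntegrable (fun t : ℝ => (t - g)⁻¹) volume (g - η) g := by
    rw [intervalIntegrable_iff_integrableOn_Ioo_of_le (by linarith)]
    exact h2
  rw [intervalIntegrable_sub_inv_iff] at h3
  rcases h3 with h3 | h3
  · linarith
  · exact h3 (right_mem_uIcc)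

/-- the mean value is infinite for `a ≤ -1` -/
theorem joint_inf {a b : ℝ} (ha : a ≤ -1) (hb : 0 ≤ b) : ∀ᶠ T : ℝ in atTop,
    ∫⁻ t in Icc T (2 * T), G 0 a b t = ⊤ := by
  obtain ⟨δ, hδ, hs⟩ := signed_count (1 / 2) (by norm_num)
  filter_upwards [hs 0 1 (Or.inl rfl), Real.tendsto_log_atTop.eventually_ge_atTop 1, eventually_ge_atTop (10 : ℝ)]
    with T hT hL hT10
  have hpos : (0 : ℝ) < (({g : ℝ | T < g ∧ g ≤ 2 * T ∧ Gd 0 (1 / 2) δ g ∧ 0 < 1 * deriv Z g}.ncard : ℕ) : ℝ) :=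
    lt_of_lt_of_le (by positivity) hT
  have hne : {g : ℝ | T < g ∧ g ≤ 2 * T ∧ Gd 0 (1 / 2) δ g ∧ 0 < 1 * deriv Z g}.Nonempty := by
    rw [Set.nonempty_iff_ne_empty]
    intro h
    rw [h, Set.ncard_empty] at hpos
    simp at hpos
  obtain ⟨g, hg1, hg2, hG, hg3⟩ := hne
  rw [one_mul] at hg3
  have hz : Z g = 0 := (Z_zero_iff g).2 hG.1
  set D : ℝ := deriv Z g with hD
  have hd0 : DifferentiableAt ℝ Z g := by
    have := iter_diff 0 (t := g) (by linarith)
    rwa [iteratedDeriv_zero] at this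
  have hcont : ContinuousAt (deriv Z) g := by
    have := (iter_diff 1 (t := g) (by linarith)).continuousAt
    rwa [iteratedDeriv_one] at this
  have he1 : ∀ᶠ t in 𝓝 g, D / 2 < deriv Z t := hcont.eventually (lt_mem_nhds (by linarith))
  have he2 : ∀ᶠ t in 𝓝 g, ‖Z t - Z g - (t - g) • D‖ ≤ D / 2 * ‖t - g‖ :=
    (hasDerivAt_iff_isLittleO.1 hd0.hasDerivAt).def (by linarith)
  obtain ⟨η, hη, hball⟩ := Metric.eventually_nhds_iff.1 (he1.and he2)
  set η' : ℝ := min (η / 2) (min (g - T) 1) with hη'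
  have hη'0 : 0 < η' := lt_min (by linarith) (lt_min (by linarith) one_pos)
  have hle1 : η' ≤ η / 2 := min_le_left _ _
  have hle2 : η' ≤ g - T := (min_le_right _ _).trans (min_le_left _ _)
  have hle3 : η' ≤ 1 := (min_le_right _ _).trans (min_le_right _ _)
  have hc0 : 0 < (2 * D) ^ a * (D / 2) ^ b := by positivity
  have hlow : ∀ t ∈ Ioo (g - η') g, ENNReal.ofReal ((2 * D) ^ a * (D / 2) ^ b * |t - g|⁻¹) ≤ G 0 a b t := by
    intro t ht
    have hd : dist t g < η := by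
      rw [Real.dist_eq, abs_lt]
      constructor <;> linarith [ht.1, ht.2]
    obtain ⟨h1, h2⟩ := hball hd
    have hx0 : 0 < |t - g| := abs_pos.2 (by linarith [ht.2])
    have hx1 : |t - g| ≤ 1 := by
      rw [abs_le]
      constructor <;> linarith [ht.1, ht.2]
    rw [hz, sub_zero, smul_eq_mul, Real.norm_eq_abs, Real.norm_eq_abs] at h2
    have h3 : |(t - g) * D| = |t - g| * D := by rw [abs_mul, abs_of_pos hg3]
    have h4 : |t - g| * D - |Z t| ≤ D / 2 * |t - g| := by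
      rw [← h3]
      refine (abs_sub_abs_le_abs_sub _ _).trans ?_
      rw [abs_sub_comm]
      exact h2
    have h5 : |Z t| - |t - g| * D ≤ D / 2 * |t - g| := by
      rw [← h3]
      exact (abs_sub_abs_le_abs_sub _ _).trans h2
    have h6 : 0 < |Z t| := by nlinarith [mul_pos hx0 hg3]
    have h7 : |Z t| ≤ 2 * D * |t - g| := by nlinarith [mul_pos hx0 hg3]
    have h8 : (2 * D * |t - g|) ^ a ≤ |Z t| ^ a := Real.rpow_le_rpow_of_nonpos h6 h7 (by linarith)
    have h9 : |t - g|⁻¹ ≤ |t - g| ^ a := by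
      rw [← Real.rpow_neg_one]
      exact Real.rpow_le_rpow_of_exponent_ge hx0 hx1 ha
    have h10 : (D / 2) ^ b ≤ |deriv Z t| ^ b :=
      Real.rpow_le_rpow (by linarith) (h1.le.trans (le_abs_self _)) hb
    unfold G
    rw [iteratedDeriv_zero, zero_add, iteratedDeriv_one]
    refine ENNReal.ofReal_le_ofReal ?_
    rw [Real.mul_rpow (by linarith) hx0.le] at h8
    calc (2 * D) ^ a * (D / 2) ^ b * |t - g|⁻¹ = ((2 * D) ^ a * |t - g|⁻¹) * (D / 2) ^ b := by ring
      _ ≤ ((2 * D) ^ a * |t - g| ^ a) * |deriv Z t| ^ b := by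
          refine mul_le_mul (mul_le_mul_of_nonneg_left h9 (by positivity)) h10 (by positivity) (by positivity)
      _ ≤ |Z t| ^ a * |deriv Z t| ^ b := mul_le_mul_of_nonneg_right h8 (by positivity)
  rw [eq_top_iff, ← int_inv g hη'0 hc0]
  refine (setLIntegral_mono' measurableSet_Ioo hlow).trans (lintegral_mono_set fun t ht => ?_)
  exact ⟨by linarith [ht.1], by linarith [ht.2]⟩

end Pool.Agent.X117.JF
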