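import Pool.Agent.X117.Deriv7

/-!
# Pieces on which a derivative of Hardy's function is large and monotone
-/

namespace Pool.Agent.X117.JM

open Filter Topology MeasureTheory Complex H370 Set
open Pool.Agent.X117.HZ Pool.Agent.X117.Peak Pool.Agent.X117.DZ

/-- a rising piece -/
lemma rise {G : ℝ → ℝ} {a b θ : ℝ} (hab : a ≤ b) (hG : ContinuousOn G (Icc a b)) (h1 : G a ≤ θ)
    (h2 : θ ≤ G b) : ∃ c ∈ Icc a b, G c = θ ∧ ∀ u ∈ Icc c b, θ ≤ G u := by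
  have hcl : IsClosed (Icc a b ∩ G ⁻¹' Iic θ) := hG.preimage_isClosed_of_isClosed isClosed_Icc isClosed_Iic
  have hcp : IsCompact (Icc a b ∩ G ⁻¹' Iic θ) := isCompact_Icc.of_isClosed_subset hcl inter_subset_left
  obtain ⟨c, hc, hmax⟩ := hcp.exists_isGreatest ⟨a, ⟨le_rfl, hab⟩, h1⟩
  have hcθ : G c = θ := by
    by_contra hne
    have hlt : G c < θ := lt_of_le_of_ne hc.2 hne
    obtain ⟨u, hu, hu2⟩ := intermediate_value_Icc hc.1.2 (hG.mono (Icc_subset_Icc hc.1.1 le_rfl))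
      (show θ ∈ Icc (G c) (G b) from ⟨hlt.le, h2⟩)
    have h3 : u ≤ c := hmax ⟨⟨hc.1.1.trans hu.1, hu.2⟩, hu2.le⟩
    have h4 : u = c := le_antisymm h3 hu.1
    rw [h4] at hu2
    exact hne hu2
  refine ⟨c, hc.1, hcθ, fun u hu => ?_⟩
  by_contra hlt
  have h3 : u ≤ c := hmax ⟨⟨hc.1.1.trans hu.1, hu.2⟩, (not_le.mp hlt).le⟩
  have h4 : u = c := le_antisymm h3 hu.1
  rw [h4, hcθ] at hlt
  exact hlt le_rfl

/-- a falling piece -/
lemma fall {G : ℝ → ℝ} {a b θ : ℝ} (hab : a ≤ b) (hG : ContinuousOn G (Icc a b)) (h1 : θ ≤ G a)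
    (h2 : G b ≤ θ) : ∃ c ∈ Icc a b, G c = θ ∧ ∀ u ∈ Icc a c, θ ≤ G u := by
  have hcl : IsClosed (Icc a b ∩ G ⁻¹' Iic θ) := hG.preimage_isClosed_of_isClosed isClosed_Icc isClosed_Iic
  have hcp : IsCompact (Icc a b ∩ G ⁻¹' Iic θ) := isCompact_Icc.of_isClosed_subset hcl inter_subset_left
  obtain ⟨c, hc, hmin⟩ := hcp.exists_isLeast ⟨b, ⟨hab, le_rfl⟩, h2⟩
  have hcθ : G c = θ := by
    by_contra hne
    have hlt : G c < θ := lt_of_le_of_ne hc.2 hne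
    obtain ⟨u, hu, hu2⟩ := intermediate_value_Icc' hc.1.1 (hG.mono (Icc_subset_Icc le_rfl hc.1.2))
      (show θ ∈ Icc (G c) (G a) from ⟨hlt.le, h1⟩)
    have h3 : c ≤ u := hmin ⟨⟨hu.1, hu.2.trans hc.1.2⟩, hu2.le⟩
    have h4 : u = c := le_antisymm hu.2 h3
    rw [h4] at hu2
    exact hne hu2
  refine ⟨c, hc.1, hcθ, fun u hu => ?_⟩
  by_contra hlt
  have h3 : c ≤ u := hmin ⟨⟨hu.1, hu.2.trans hc.1.2⟩, (not_le.mp hlt).le⟩
  have h4 : u = c := le_antisymm hu.2 h3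
  rw [h4, hcθ] at hlt
  exact hlt le_rfl

/-- a piece of a window -/
lemma piece {m : ℕ} {σ₁ σ₂ r t Λ : ℝ} (hr : 0 < r) (ht : 1 ≤ t - r) (hΛ : 0 ≤ Λ)
    (hσ₁ : σ₁ = 1 ∨ σ₁ = -1) (hσ₂ : σ₂ = 1 ∨ σ₂ = -1)
    (h : ∀ σ : ℝ, (σ = 1 ∨ σ = -1) → ∃ x : ℕ → ℝ, (∀ i, i ≤ m + 1 → |x i - t| ≤ r) ∧
        (∀ i, i < m + 1 → x i < x (i + 1)) ∧ ∀ i, i ≤ m + 1 → Λ ≤ σ * (-1) ^ i * Z (x i)) :
    ∃ c d, t - r ≤ c ∧ c ≤ d ∧ d ≤ t + r ∧
      (∀ u ∈ Icc c d, Λ * (1 / r) ^ m / 2 ≤ σ₁ * iteratedDeriv m Z u) ∧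
      Λ * (1 / r) ^ m / 2 ≤ σ₂ * (iteratedDeriv m Z d - iteratedDeriv m Z c) := by
  obtain ⟨x, h1, h2, h3⟩ := h (-σ₂ * (-1) ^ m) (by
    rcases hσ₂ with rfl | rfl <;> rcases neg_one_pow_eq_or ℝ m with h7 | h7 <;> rw [h7] <;> norm_num)
  have hm2 : (-1 : ℝ) ^ m * (-1) ^ m = 1 := by
    rw [← mul_pow]
    norm_num
  obtain ⟨y, y1, y2, y3⟩ := alternate (f := Z) (a := t - r) (b := t + r) (σ := -σ₂ * (-1) ^ m) (Λ := Λ)
    (m := m + 1) (by linarith) hΛ (fun j _ u hu => iter_diff j (by linarith [hu.1])) (x := x)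
    (fun i hi => by
      have := abs_le.mp (h1 i hi)
      exact ⟨by linarith [this.1], by linarith [this.2]⟩) h2 h3 m (by omega)
  have e1 : 2 / (t + r - (t - r)) = 1 / r := by
    rw [show t + r - (t - r) = 2 * r by ring, div_eq_div_iff (by positivity) (by positivity)]
    ring
  have m0 := y1 0 (by omega)
  have m1 := y1 1 (by omega)
  have hlt : y 0 < y 1 := y2 0 (by omega)
  have c0 := y3 0 (by omega)
  have c1 := y3 1 (by omega)
  rw [e1] at c0 c1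
  set g := iteratedDeriv m Z with hg
  set Λ' := Λ * (1 / r) ^ m with hΛ'
  have hΛ0 : 0 ≤ Λ' := by positivity
  have s0 : -σ₂ * (-1) ^ m * (-1) ^ (0 + m) * g (y 0) = -(σ₂ * g (y 0)) := by
    rw [zero_add, mul_assoc (-σ₂), hm2]
    ring
  have s1 : -σ₂ * (-1) ^ m * (-1) ^ (1 + m) * g (y 1) = σ₂ * g (y 1) := by
    rw [add_comm 1 m, pow_succ, mul_assoc (-σ₂), ← mul_assoc ((-1 : ℝ) ^ m), hm2]
    ring
  rw [s0] at c0
  rw [s1] at c1
  have hcont : ContinuousOn (fun u => σ₁ * g u) (Icc (y 0) (y 1)) := by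
    refine continuousOn_const.mul fun u hu => ?_
    exact (iter_diff m (by linarith [hu.1, m0.1])).continuousAt.continuousWithinAt
  have hcase : σ₁ = σ₂ ∨ σ₁ = -σ₂ := by
    rcases hσ₁ with rfl | rfl <;> rcases hσ₂ with rfl | rfl <;> norm_num
  rcases hcase with hs | hs
  · obtain ⟨c, hc, hc2, hc3⟩ := rise (G := fun u => σ₁ * g u) (θ := Λ' / 2) hlt.le hcont
      (by simp only [hs]; linarith) (by simp only [hs]; linarith)
    refine ⟨c, y 1, by linarith [hc.1, m0.1], hc.2, by linarith [m1.2], hc3, ?_⟩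
    simp only [hs] at hc2
    rw [mul_sub, hc2]
    linarith
  · obtain ⟨c, hc, hc2, hc3⟩ := fall (G := fun u => σ₁ * g u) (θ := Λ' / 2) hlt.le hcont
      (by simp only [hs]; linarith) (by simp only [hs]; linarith)
    refine ⟨y 0, c, by linarith [m0.1], hc.1, by linarith [hc.2, m1.2], hc3, ?_⟩
    simp only [hs] at hc2
    rw [mul_sub]
    linarith

/-- the positive part of `σ₂ Z^(m+1)` where `σ₁ Z^(m) ≥ θ` -/
noncomputable def pj (θ σ₁ σ₂ : ℝ) (m : ℕ) (u : ℝ) : ℝ :=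
  open Classical in if θ ≤ σ₁ * iteratedDeriv m Z u then pd σ₂ (m + 1) u else 0

lemma iter_meas (m : ℕ) : Measurable (iteratedDeriv m Z) := by
  cases m with
  | zero =>
    rw [iteratedDeriv_zero]
    exact Z_cont.measurable
  | succ n => exact dZ_meas n

lemma pj_nonneg (θ σ₁ σ₂ : ℝ) (m : ℕ) (u : ℝ) : 0 ≤ pj θ σ₁ σ₂ m u := by
  unfold pj
  split_ifs
  · exact pd_nonneg _ _ _
  · exact le_rfl

lemma pj_meas (θ σ₁ σ₂ : ℝ) (m : ℕ) : Measurable (pj θ σ₁ σ₂ m) := by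
  unfold pj
  exact Measurable.ite (measurableSet_le measurable_const ((iter_meas m).const_mul σ₁)) (pd_meas σ₂ m)
    measurable_const

/-- translation of a window -/
lemma shift_window {F : ℝ → ENNReal} (t r : ℝ) :
    ∫⁻ v in Icc (-r) r, F (t + v) = ∫⁻ u in Icc (t - r) (t + r), F u := by
  rw [← lintegral_indicator measurableSet_Icc, ← lintegral_indicator measurableSet_Icc,
    ← lintegral_add_left_eq_self ((Icc (t - r) (t + r)).indicator F) t]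
  refine lintegral_congr fun v => ?_
  by_cases hv : v ∈ Icc (-r) r
  · rw [indicator_of_mem hv, indicator_of_mem]
    exact ⟨by linarith [hv.1], by linarith [hv.2]⟩
  · rw [indicator_of_notMem hv, indicator_of_notMem]
    intro h
    exact hv ⟨by linarith [h.1], by linarith [h.2]⟩

/-- the integral over a window -/
lemma window_pj {m : ℕ} {σ₁ σ₂ r t Λ : ℝ} (hr : 0 < r) (ht : 1 ≤ t - r) (hΛ : 0 ≤ Λ)
    (hσ₁ : σ₁ = 1 ∨ σ₁ = -1) (hσ₂ : σ₂ = 1 ∨ σ₂ = -1)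
    (h : ∀ σ : ℝ, (σ = 1 ∨ σ = -1) → ∃ x : ℕ → ℝ, (∀ i, i ≤ m + 1 → |x i - t| ≤ r) ∧
        (∀ i, i < m + 1 → x i < x (i + 1)) ∧ ∀ i, i ≤ m + 1 → Λ ≤ σ * (-1) ^ i * Z (x i)) :
    ENNReal.ofReal (Λ * (1 / r) ^ m / 2) ≤
      ∫⁻ v in Icc (-r) r, ENNReal.ofReal (pj (Λ * (1 / r) ^ m / 2) σ₁ σ₂ m (t + v)) := by
  obtain ⟨c, d, h1, h2, h3, h4, h5⟩ := piece hr ht hΛ hσ₁ hσ₂ h
  rw [shift_window (F := fun u => ENNReal.ofReal (pj (Λ * (1 / r) ^ m / 2) σ₁ σ₂ m u))]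
  have hd : ∀ u ∈ Icc c d, HasDerivAt (iteratedDeriv m Z) (iteratedDeriv (m + 1) Z u) u := by
    intro u hu
    rw [iteratedDeriv_succ]
    exact (iter_diff m (by linarith [hu.1])).hasDerivAt
  have hcont : ContinuousOn (iteratedDeriv (m + 1) Z) (Icc c d) := fun u hu =>
    (iter_diff (m + 1) (by linarith [hu.1])).continuousAt.continuousWithinAt
  have hftc : ∫ u in c..d, iteratedDeriv (m + 1) Z u = iteratedDeriv m Z d - iteratedDeriv m Z c := by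
    refine intervalIntegral.integral_eq_sub_of_hasDerivAt (fun u hu => ?_) ?_
    · rw [uIcc_of_le h2] at hu
      exact hd u hu
    · exact (hcont.mono (by rw [uIcc_of_le h2])).intervalIntegrable
  have hpd : ContinuousOn (pd σ₂ (m + 1)) (Icc c d) := pd_contOn σ₂ (m + 1) (by linarith)
  have h6 : Λ * (1 / r) ^ m / 2 ≤ ∫ u in c..d, pd σ₂ (m + 1) u := by
    have e1 : σ₂ * (iteratedDeriv m Z d - iteratedDeriv m Z c) = ∫ u in c..d, σ₂ * iteratedDeriv (m + 1) Z u := by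
      rw [intervalIntegral.integral_const_mul, hftc]
    rw [e1] at h5
    refine h5.trans ?_
    refine intervalIntegral.integral_mono_on h2 ?_ ?_ fun u _ => le_max_left _ _
    · exact ((continuousOn_const.mul hcont).mono (by rw [uIcc_of_le h2])).intervalIntegrable
    · exact (hpd.mono (by rw [uIcc_of_le h2])).intervalIntegrable
  have h7 : ENNReal.ofReal (∫ u in c..d, pd σ₂ (m + 1) u) =
      ∫⁻ u in Icc c d, ENNReal.ofReal (pd σ₂ (m + 1) u) := by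
    rw [intervalIntegral.integral_of_le h2, ← integral_Icc_eq_integral_Ioc]
    exact ofReal_integral_eq_lintegral_ofReal (hpd.integrableOn_compact isCompact_Icc)
      (Filter.Eventually.of_forall fun v => pd_nonneg _ _ _)
  refine (ENNReal.ofReal_le_ofReal h6).trans ?_
  rw [h7]
  have h8 : ∫⁻ u in Icc c d, ENNReal.ofReal (pd σ₂ (m + 1) u) =
      ∫⁻ u in Icc c d, ENNReal.ofReal (pj (Λ * (1 / r) ^ m / 2) σ₁ σ₂ m u) := by
    refine setLIntegral_congr_fun measurableSet_Icc fun u hu => ?_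
    simp only [pj, if_pos (h4 u hu)]
  rw [h8]
  exact lintegral_mono_set (Icc_subset_Icc h1 h3)

end Pool.Agent.X117.JM
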