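import Pool.Agent.X117.Joint1

/-!
# Values of two consecutive derivatives of Hardy's function
-/

namespace Pool.Agent.X117.JM

open Filter Topology MeasureTheory Complex H370 Set
open Pool.Agent.X117.HZ Pool.Agent.X117.Peak Pool.Agent.X117.DZ

/-- the measure in a window -/
lemma window_measure2 {m : ℕ} {θ σ₁ σ₂ r t s M : ℝ} (hr : 0 < r) (hs : 0 < s) (hM : 0 < M)
    {Q : Set ℝ} (hQ : MeasurableSet Q)
    (hQ2 : ∀ v ∈ Icc (-r) r, θ ≤ σ₁ * iteratedDeriv m Z (t + v) →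
      s ≤ σ₂ * iteratedDeriv (m + 1) Z (t + v) → t + v ∈ Q)
    (hup : ∀ v ∈ Icc (-r) r, pd σ₂ (m + 1) (t + v) ≤ M)
    (h : ENNReal.ofReal (4 * r * s) ≤ ∫⁻ v in Icc (-r) r, ENNReal.ofReal (pj θ σ₁ σ₂ m (t + v))) :
    ENNReal.ofReal (2 * r) * ENNReal.ofReal (s / M) ≤ ∫⁻ v in Icc (-r) r, Q.indicator 1 (t + v) := by
  have hind : Measurable fun v : ℝ => Q.indicator (1 : ℝ → ENNReal) (t + v) :=
    (measurable_one.indicator hQ).comp (measurable_const.add measurable_id)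
  have h1 : ∫⁻ v in Icc (-r) r, ENNReal.ofReal (pj θ σ₁ σ₂ m (t + v)) ≤
      ∫⁻ v in Icc (-r) r, (ENNReal.ofReal s + ENNReal.ofReal M * Q.indicator 1 (t + v)) := by
    refine setLIntegral_mono' measurableSet_Icc fun v hv => ?_
    by_cases hv2 : t + v ∈ Q
    · rw [indicator_of_mem hv2, Pi.one_apply, mul_one]
      have h2 : pj θ σ₁ σ₂ m (t + v) ≤ M := by
        unfold pj
        split_ifs
        · exact hup v hv
        · exact hM.le
      exact (ENNReal.ofReal_le_ofReal h2).trans le_add_self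
    · rw [indicator_of_notMem hv2, mul_zero, add_zero]
      refine ENNReal.ofReal_le_ofReal ?_
      unfold pj
      split_ifs with h3
      · unfold pd
        refine max_le ?_ hs.le
        by_contra h4
        exact hv2 (hQ2 v hv h3 (not_le.mp h4).le)
      · exact hs.le
  rw [lintegral_add_left measurable_const, setLIntegral_const, lintegral_const_mul _ hind,
    Real.volume_Icc] at h1
  have h3 := h.trans h1
  have e1 : ENNReal.ofReal (4 * r * s) = ENNReal.ofReal s * ENNReal.ofReal (r - -r) +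
      ENNReal.ofReal M * (ENNReal.ofReal (2 * r) * ENNReal.ofReal (s / M)) := by
    rw [← ENNReal.ofReal_mul hs.le, ← ENNReal.ofReal_mul (by positivity), ← ENNReal.ofReal_mul hM.le,
      ← ENNReal.ofReal_add (by nlinarith) (by positivity)]
    congr 1
    field_simp
    ring
  rw [e1, ENNReal.add_le_add_iff_left (ENNReal.mul_ne_top ENNReal.ofReal_ne_top ENNReal.ofReal_ne_top)] at h3
  exact (ENNReal.mul_le_mul_iff_right (by rw [Ne, ENNReal.ofReal_eq_zero]; linarith)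
    ENNReal.ofReal_ne_top).mp h3

/-- the moment in a window -/
lemma window_moment2 {m : ℕ} {θ σ₁ σ₂ r t s p : ℝ} (hr : 0 < r) (hs : 0 < s) (hp : 1 ≤ p)
    (h : ENNReal.ofReal (4 * r * s) ≤ ∫⁻ v in Icc (-r) r, ENNReal.ofReal (pj θ σ₁ σ₂ m (t + v))) :
    ENNReal.ofReal (2 * r) * ENNReal.ofReal (s ^ p) ≤
      ∫⁻ v in Icc (-r) r, ENNReal.ofReal (pj θ σ₁ σ₂ m (t + v) ^ p) := by
  have hsp : 0 < s ^ (p - 1) := Real.rpow_pos_of_pos hs _
  have hpt : ∀ y : ℝ, 0 ≤ y → s ^ (p - 1) * y ≤ s ^ p + y ^ p := by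
    intro y hy
    have e1 : s ^ p = s ^ (p - 1) * s := by
      rw [← Real.rpow_add_one hs.ne']
      congr 1
      ring
    rcases le_or_gt y s with h1 | h1
    · have h2 : s ^ (p - 1) * y ≤ s ^ (p - 1) * s := mul_le_mul_of_nonneg_left h1 hsp.le
      have h3 : 0 ≤ y ^ p := Real.rpow_nonneg hy _
      rw [e1]
      linarith
    · have hy0 : 0 < y := by linarith
      have h2 : s ^ (p - 1) ≤ y ^ (p - 1) := Real.rpow_le_rpow hs.le h1.le (by linarith)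
      have h3 : y ^ p = y ^ (p - 1) * y := by
        rw [← Real.rpow_add_one hy0.ne']
        congr 1
        ring
      rw [h3]
      have h4 : s ^ (p - 1) * y ≤ y ^ (p - 1) * y := by gcongr
      have h5 : 0 ≤ s ^ p := by positivity
      linarith
  have h1 : ∫⁻ v in Icc (-r) r, ENNReal.ofReal (s ^ (p - 1)) * ENNReal.ofReal (pj θ σ₁ σ₂ m (t + v)) ≤
      ∫⁻ v in Icc (-r) r, (ENNReal.ofReal (s ^ p) + ENNReal.ofReal (pj θ σ₁ σ₂ m (t + v) ^ p)) := by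
    refine setLIntegral_mono' measurableSet_Icc fun v _ => ?_
    rw [← ENNReal.ofReal_mul hsp.le, ← ENNReal.ofReal_add (by positivity)
      (Real.rpow_nonneg (pj_nonneg _ _ _ _ _) _)]
    exact ENNReal.ofReal_le_ofReal (hpt _ (pj_nonneg _ _ _ _ _))
  have hm : Measurable fun v : ℝ => ENNReal.ofReal (pj θ σ₁ σ₂ m (t + v)) :=
    ((pj_meas θ σ₁ σ₂ m).comp (measurable_const.add measurable_id)).ennreal_ofReal
  rw [lintegral_add_left measurable_const, setLIntegral_const, lintegral_const_mul _ hm,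
    Real.volume_Icc] at h1
  have h2 : ENNReal.ofReal (s ^ (p - 1)) * ENNReal.ofReal (4 * r * s) ≤
      ENNReal.ofReal (s ^ p) * ENNReal.ofReal (r - -r) +
        ∫⁻ v in Icc (-r) r, ENNReal.ofReal (pj θ σ₁ σ₂ m (t + v) ^ p) :=
    (mul_le_mul_right h _).trans h1
  have e1 : ENNReal.ofReal (s ^ (p - 1)) * ENNReal.ofReal (4 * r * s) =
      ENNReal.ofReal (s ^ p) * ENNReal.ofReal (r - -r) + ENNReal.ofReal (2 * r) * ENNReal.ofReal (s ^ p) := by
    have e2 : s ^ p = s ^ (p - 1) * s := by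
      rw [← Real.rpow_add_one hs.ne']
      congr 1
      ring
    rw [← ENNReal.ofReal_mul hsp.le, ← ENNReal.ofReal_mul (by positivity),
      ← ENNReal.ofReal_mul (by positivity), ← ENNReal.ofReal_add (by
        have : 0 ≤ r - -r := by linarith
        positivity) (by positivity), e2]
    congr 1
    ring
  rw [e1] at h2
  exact (ENNReal.add_le_add_iff_left
    (ENNReal.mul_ne_top ENNReal.ofReal_ne_top ENNReal.ofReal_ne_top)).mp h2

/-- the size of the windows and of the values -/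
lemma size_aux2 {L r κ ε : ℝ} {n : ℕ} (hL : 1 ≤ L) (hLε : 8 ≤ L ^ ε) (hr : 0 < r) (hr2 : r ≤ L ^ (ε - 1)) :
    4 * r * L ^ (κ + (n + 1) - (n + 3) * ε) ≤ L ^ (κ - ε) * (1 / r) ^ n / 2 ∧
      L ^ (κ + n - (n + 2) * ε) ≤ L ^ (κ - ε) * (1 / r) ^ n / 2 := by
  have hL0 : 0 < L := by linarith
  have hrn : 0 < r ^ n := pow_pos hr n
  have e1 : L ^ (κ - ε) * (1 / r) ^ n / 2 = L ^ (κ - ε) / 2 / r ^ n := by
    rw [one_div, inv_pow]
    ring
  have h4 : L ^ (κ - ε) = L ^ (κ - 2 * ε) * L ^ ε := by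
    rw [← Real.rpow_add hL0]
    congr 1
    ring
  have h5 : 0 < L ^ (κ - 2 * ε) := Real.rpow_pos_of_pos hL0 _
  have hpw : ∀ j : ℕ, r ^ j ≤ L ^ ((ε - 1) * j) := by
    intro j
    have h2 := pow_le_pow_left₀ hr.le hr2 j
    rwa [← Real.rpow_natCast (L ^ (ε - 1)), ← Real.rpow_mul hL0.le] at h2
  constructor
  · have h1 := hpw (n + 1)
    rw [e1, le_div_iff₀ hrn]
    have e2 : 4 * r * L ^ (κ + (n + 1) - (n + 3) * ε) * r ^ n =
        4 * L ^ (κ + (n + 1) - (n + 3) * ε) * r ^ (n + 1) := by ring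
    rw [e2]
    have h3 : L ^ (κ + (n + 1) - (n + 3) * ε) * L ^ ((ε - 1) * ((n + 1 : ℕ) : ℝ)) = L ^ (κ - 2 * ε) := by
      rw [← Real.rpow_add hL0]
      congr 1
      push_cast
      ring
    have h6 : 0 < L ^ (κ + (n + 1) - (n + 3) * ε) := Real.rpow_pos_of_pos hL0 _
    calc 4 * L ^ (κ + (n + 1) - (n + 3) * ε) * r ^ (n + 1)
        ≤ 4 * L ^ (κ + (n + 1) - (n + 3) * ε) * L ^ ((ε - 1) * ((n + 1 : ℕ) : ℝ)) := by gcongr
      _ = L ^ (κ - 2 * ε) * 8 / 2 := by rw [mul_assoc, h3]; ring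
      _ ≤ L ^ (κ - 2 * ε) * L ^ ε / 2 := by gcongr
      _ = _ := by rw [h4]
  · have h1 := hpw n
    rw [e1, le_div_iff₀ hrn]
    have h3 : L ^ (κ + n - (n + 2) * ε) * L ^ ((ε - 1) * n) = L ^ (κ - 2 * ε) := by
      rw [← Real.rpow_add hL0]
      congr 1
      ring
    have h6 : 0 < L ^ (κ + n - (n + 2) * ε) := Real.rpow_pos_of_pos hL0 _
    calc L ^ (κ + n - (n + 2) * ε) * r ^ n ≤ L ^ (κ + n - (n + 2) * ε) * L ^ ((ε - 1) * n) := by gcongr
      _ = L ^ (κ - 2 * ε) * 2 / 2 := by rw [h3]; ring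
      _ ≤ L ^ (κ - 2 * ε) * L ^ ε / 2 := by
        gcongr
        linarith
      _ = _ := by rw [h4]

/-- a box of values of two consecutive derivatives -/
def box (σ₁ σ₂ : ℝ) (m : ℕ) (κ₁ κ₂ T : ℝ) : Set ℝ :=
  {t : ℝ | T ≤ t ∧ t ≤ 2 * T ∧
    (Real.log T ^ (m + κ₁) ≤ σ₁ * iteratedDeriv m Z t ∧ σ₁ * iteratedDeriv m Z t ≤ Real.log T ^ (m + κ₂)) ∧
    Real.log T ^ (m + 1 + κ₁) ≤ σ₂ * iteratedDeriv (m + 1) Z t ∧
      σ₂ * iteratedDeriv (m + 1) Z t ≤ Real.log T ^ (m + 1 + κ₂)}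

/-- the values without the restriction to `[T, 2 T]` -/
def boxR (σ₁ σ₂ : ℝ) (m : ℕ) (κ₁ κ₂ T : ℝ) : Set ℝ :=
  {t : ℝ | (Real.log T ^ (m + κ₁) ≤ σ₁ * iteratedDeriv m Z t ∧ σ₁ * iteratedDeriv m Z t ≤ Real.log T ^ (m + κ₂)) ∧
    Real.log T ^ (m + 1 + κ₁) ≤ σ₂ * iteratedDeriv (m + 1) Z t ∧
      σ₂ * iteratedDeriv (m + 1) Z t ≤ Real.log T ^ (m + 1 + κ₂)}

lemma boxR_meas (σ₁ σ₂ : ℝ) (m : ℕ) (κ₁ κ₂ T : ℝ) : MeasurableSet (boxR σ₁ σ₂ m κ₁ κ₂ T) := by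
  have h1 := (iter_meas m).const_mul σ₁
  have h2 := (iter_meas (m + 1)).const_mul σ₂
  exact ((measurableSet_le measurable_const h1).inter (measurableSet_le h1 measurable_const)).inter
    ((measurableSet_le measurable_const h2).inter (measurableSet_le h2 measurable_const))

lemma box_eq (σ₁ σ₂ : ℝ) (m : ℕ) (κ₁ κ₂ T : ℝ) :
    box σ₁ σ₂ m κ₁ κ₂ T = boxR σ₁ σ₂ m κ₁ κ₂ T ∩ Icc T (2 * T) := by
  ext t
  simp only [box, boxR, mem_inter_iff, mem_Icc]
  constructor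
  · rintro ⟨a, b, c⟩
    exact ⟨c, a, b⟩
  · rintro ⟨c, a, b⟩
    exact ⟨a, b, c⟩

lemma box_meas (σ₁ σ₂ : ℝ) (m : ℕ) (κ₁ κ₂ T : ℝ) : MeasurableSet (box σ₁ σ₂ m κ₁ κ₂ T) := by
  rw [box_eq]
  exact (boxR_meas _ _ _ _ _ _).inter measurableSet_Icc

lemma box_sub (σ₁ σ₂ : ℝ) (m : ℕ) (κ₁ κ₂ T : ℝ) : box σ₁ σ₂ m κ₁ κ₂ T ⊆ Icc T (2 * T) :=
  fun _ h => ⟨h.1, h.2.1⟩

lemma box_fin (σ₁ σ₂ : ℝ) (m : ℕ) (κ₁ κ₂ T : ℝ) : volume (box σ₁ σ₂ m κ₁ κ₂ T) ≠ ⊤ :=
  (measure_lt_top_of_subset (box_sub _ _ _ _ _ _)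
    (by rw [Real.volume_Icc]; exact ENNReal.ofReal_ne_top)).ne

/-- the measure of a box, before the choice of the parameters -/
lemma box_aux {κ ε η κ' : ℝ} (hκ' : 0 < κ') (hκ'2 : κ' ≤ 2) (hε : 0 < ε) (hε4 : ε ≤ 1 / 4)
    (hη : -κ' ^ 2 - 2 * κ' * (κ + η - κ') + 2 * ε ≤ -κ ^ 2 - 2 * ε) (n : ℕ) {σ₁ σ₂ : ℝ}
    (hσ₁ : σ₁ = 1 ∨ σ₁ = -1) (hσ₂ : σ₂ = 1 ∨ σ₂ = -1) :
    ∀ᶠ T : ℝ in atTop, T * Real.log T ^ (-κ ^ 2 - (n + 6) * ε - η) ≤
      volume.real (box σ₁ σ₂ n (κ - (n + 3) * ε) (κ + η + ε) T) := by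
  obtain ⟨C, hC, hB⟩ := large_windows (κ := κ') (η := κ + η - κ') (e := 2 * ε) hκ' hκ'2 (by positivity)
  have hLε : Tendsto (fun T : ℝ => Real.log T ^ ε) atTop atTop :=
    (tendsto_rpow_atTop hε).comp Real.tendsto_log_atTop
  filter_upwards [alt_windows (n + 1) κ hε, hB, hLε.eventually_ge_atTop 8,
    hLε.eventually_ge_atTop (2 * C), hLε.eventually_ge_atTop ((n + 1).factorial : ℝ),
    Real.tendsto_log_atTop.eventually_ge_atTop 5, eventually_ge_atTop (10 : ℝ)]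
    with T hT hTB hL5 hLC hLf hLL hT10
  obtain ⟨r, E, hr0, hr1, hr2, hEm, hEs, hEv, hEx⟩ := hT
  have hT0 : 0 < T := by linarith
  have hL0 : 0 < Real.log T := by linarith
  have hL1 : 1 ≤ Real.log T := by linarith
  set L := Real.log T with hL
  have hLe : L ^ (-1 : ℝ) = 1 / L := by rw [Real.rpow_neg_one, one_div]
  have hρ : r + 3 / L ≤ L ^ (2 * ε - 1) := by
    have h1 : 3 / L = 3 * L ^ (-1 : ℝ) := by rw [hLe]; ring
    have h2 : L ^ (-1 : ℝ) ≤ L ^ (ε - 1) := Real.rpow_le_rpow_of_exponent_le hL1 (by linarith)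
    have h3 : L ^ (2 * ε - 1) = L ^ ε * L ^ (ε - 1) := by
      rw [← Real.rpow_add hL0]
      congr 1
      ring
    have h4 : 0 < L ^ (ε - 1) := Real.rpow_pos_of_pos hL0 _
    rw [h1, h3]
    nlinarith
  have hρ1 : r + 3 / L ≤ 1 := hρ.trans (Real.rpow_le_one_of_one_le_of_nonpos hL1 (by linarith))
  obtain ⟨B, hBm, hBs, hBv, hBz⟩ := hTB (r + 3 / L) (by
    have : 2 / L ≤ 3 / L := div_le_div_of_nonneg_right (by norm_num) hL0.le
    linarith) hρ hρ1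
  -- the remaining windows
  have hBv' : volume.real B ≤ 1 / 2 * (T * L ^ (-κ ^ 2 - ε)) := by
    refine hBv.trans ?_
    have h1 : L ^ (-κ' ^ 2 - 2 * κ' * (κ + η - κ') + 2 * ε) ≤ L ^ (-κ ^ 2 - 2 * ε) :=
      Real.rpow_le_rpow_of_exponent_le hL1 hη
    have h2 : L ^ (-κ ^ 2 - ε) = L ^ (-κ ^ 2 - 2 * ε) * L ^ ε := by
      rw [← Real.rpow_add hL0]
      congr 1
      ring
    have h3 : 0 < L ^ (-κ ^ 2 - 2 * ε) := Real.rpow_pos_of_pos hL0 _
    rw [h2]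
    calc C * (T * L ^ (-κ' ^ 2 - 2 * κ' * (κ + η - κ') + 2 * ε)) ≤ C * (T * L ^ (-κ ^ 2 - 2 * ε)) := by gcongr
      _ = 1 / 2 * (T * (L ^ (-κ ^ 2 - 2 * ε) * (2 * C))) := by ring
      _ ≤ _ := by gcongr
  have hIcc : volume (Icc T (2 * T)) ≠ ⊤ := by rw [Real.volume_Icc]; exact ENNReal.ofReal_ne_top
  have hBfin : volume B ≠ ⊤ := (measure_lt_top_of_subset hBs hIcc).ne
  have hEfin : volume E ≠ ⊤ := (measure_lt_top_of_subset hEs
    (by rw [Real.volume_Icc]; exact ENNReal.ofReal_ne_top)).ne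
  set E' : Set ℝ := E \ B with hE'
  have hE'v : 1 / 2 * (T * L ^ (-κ ^ 2 - ε)) ≤ volume.real E' := by
    have h1 : volume.real E ≤ volume.real E' + volume.real (E ∩ B) := by
      rw [hE', measureReal_sdiff_add_inter hBm hEfin]
    have h2 : volume.real (E ∩ B) ≤ volume.real B := measureReal_mono inter_subset_right hBfin
    linarith
  -- the bounds for the derivatives
  obtain ⟨hsz1, hsz2⟩ := size_aux2 (κ := κ) (n := n) hL1 hL5 hr0 hr2
  set s : ℝ := L ^ (κ + (n + 1) - (n + 3) * ε) with hs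
  have hs0 : 0 < s := Real.rpow_pos_of_pos hL0 _
  have hM : ∀ j : ℕ, j ≤ n + 1 → (j.factorial : ℝ) * L ^ (κ + η) / (1 / L) ^ j ≤ L ^ (j + (κ + η + ε)) := by
    intro j hj
    have e1 : (j.factorial : ℝ) * L ^ (κ + η) / (1 / L) ^ j = j.factorial * (L ^ (κ + η) * L ^ (j : ℝ)) := by
      rw [one_div, inv_pow, div_inv_eq_mul, ← Real.rpow_natCast L j]
      ring
    have e2 : L ^ (j + (κ + η + ε)) = L ^ ε * (L ^ (κ + η) * L ^ (j : ℝ)) := by
      rw [← Real.rpow_add hL0, ← Real.rpow_add hL0]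
      congr 1
      ring
    rw [e1, e2]
    have h1 : (j.factorial : ℝ) ≤ (n + 1).factorial := by exact_mod_cast Nat.factorial_le hj
    have h2 : 0 ≤ L ^ (κ + η) * L ^ (j : ℝ) := by positivity
    exact mul_le_mul_of_nonneg_right (h1.trans hLf) h2
  have hder : ∀ t ∈ E', ∀ v ∈ Icc (-r) r, ∀ j : ℕ, j ≤ n + 1 →
      |iteratedDeriv j Z (t + v)| ≤ L ^ (j + (κ + η + ε)) := by
    intro t ht v hv j hj
    have htI := hEs ht.1
    refine le_trans ?_ (hM j hj)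
    refine cauchy (t0 := t + v) (R := 1 / L) (M := L ^ (κ + η)) (by linarith [htI.1, hv.1])
      (by positivity) (one_div_lt_one_div_of_lt (by norm_num) (by linarith)) ?_ j
    intro z hz
    have h2 := (Complex.abs_re_le_norm _).trans hz
    have h3 := (Complex.abs_im_le_norm _).trans hz
    have e1 : (z - (1 / 2 + I * ((t + v : ℝ) : ℂ))).re = z.re - 1 / 2 := by simp
    have e2 : (z - (1 / 2 + I * ((t + v : ℝ) : ℂ))).im = z.im - (t + v) := by simp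
    rw [e1] at h2
    rw [e2] at h3
    have h4 := hBz t ⟨by linarith [htI.1], by linarith [htI.2]⟩ ht.2 z h2 (by
      have h5 : |z.im - t| ≤ |z.im - (t + v)| + |v| := by
        have : z.im - t = (z.im - (t + v)) + v := by ring
        rw [this]
        exact abs_add_le _ _
      have h6 : |v| ≤ r := abs_le.mpr hv
      have h7 : r + 3 / L - 2 / L = r + 1 / L := by ring
      rw [h7]
      linarith)
    have e3 : κ' + (κ + η - κ') = κ + η := by ring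
    rwa [e3] at h4
  have hsgn : ∀ σ : ℝ, (σ = 1 ∨ σ = -1) → ∀ x : ℝ, σ * x ≤ |x| := by
    rintro σ (rfl | rfl) x
    · rw [one_mul]
      exact le_abs_self _
    · rw [neg_one_mul]
      exact neg_le_abs _
  set M : ℝ := L ^ (((n + 1 : ℕ) : ℝ) + (κ + η + ε)) with hMd
  have hM0 : 0 < M := Real.rpow_pos_of_pos hL0 _
  have ec1 : (n : ℝ) + (κ - (n + 3) * ε) ≤ κ + n - (n + 2) * ε := by nlinarith
  have hsp := spread (G := (boxR σ₁ σ₂ n (κ - (n + 3) * ε) (κ + η + ε) T).indicator (1 : ℝ → ENNReal))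
      (measurable_one.indicator (boxR_meas _ _ _ _ _ _)) (hEm.diff hBm) (a := T) (b := 2 * T) (r := r) hr0 (by
      intro t ht
      have := hEs ht.1
      exact ⟨by linarith [this.1], by linarith [this.2]⟩) (c := ENNReal.ofReal (s / M)) (by
    intro t ht
    have htI := hEs ht.1
    refine window_measure2 (m := n) (σ₁ := σ₁) (σ₂ := σ₂) (θ := L ^ (κ - ε) * (1 / r) ^ n / 2) hr0 hs0 hM0
      (boxR_meas _ _ _ _ _ _) ?_ ?_ ?_
    · intro v hv h1 h2
      refine ⟨⟨?_, ?_⟩, ?_, ?_⟩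
      · exact ((Real.rpow_le_rpow_of_exponent_le hL1 ec1).trans hsz2).trans h1
      · exact (hsgn σ₁ hσ₁ _).trans (hder t ht v hv n (by omega))
      · refine le_trans (le_of_eq ?_) h2
        rw [hs, ← hL]
        congr 1
        ring
      · refine ((hsgn σ₂ hσ₂ _).trans (hder t ht v hv (n + 1) le_rfl)).trans (le_of_eq ?_)
        rw [← hL]
        congr 1
        push_cast
        ring
    · intro v hv
      unfold pd
      exact max_le ((hsgn σ₂ hσ₂ _).trans (hder t ht v hv (n + 1) le_rfl)) hM0.le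
    · exact (ENNReal.ofReal_le_ofReal hsz1).trans
        (window_pj hr0 (by linarith [htI.1]) (by positivity) hσ₁ hσ₂ (hEx t ht.1)))
  rw [setLIntegral_indicator (boxR_meas _ _ _ _ _ _)] at hsp
  simp only [Pi.one_apply] at hsp
  rw [setLIntegral_one, ← box_eq] at hsp
  have h1 : volume.real E' * (s / M) ≤ volume.real (box σ₁ σ₂ n (κ - (n + 3) * ε) (κ + η + ε) T) := by
    have h2 := ENNReal.toReal_mono (box_fin _ _ _ _ _ _) hsp
    rwa [ENNReal.toReal_mul, ENNReal.toReal_ofReal (by positivity)] at h2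
  refine le_trans ?_ h1
  have h2 : s / M = L ^ (-(n + 4) * ε - η) := by
    rw [hMd, hs, ← Real.rpow_sub hL0]
    congr 1
    push_cast
    ring
  have h3 : L ^ (-κ ^ 2 - (n + 6) * ε - η) ≤ 1 / 2 * L ^ (-κ ^ 2 - ε) * L ^ (-(n + 4) * ε - η) := by
    have e1 : L ^ (-κ ^ 2 - ε) * L ^ (-(n + 4) * ε - η) = L ^ (-κ ^ 2 - (n + 6) * ε - η) * L ^ ε := by
      rw [← Real.rpow_add hL0, ← Real.rpow_add hL0]
      congr 1
      ring
    have p1 : 0 < L ^ (-κ ^ 2 - (n + 6) * ε - η) := Real.rpow_pos_of_pos hL0 _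
    nlinarith
  rw [h2]
  have p1 : 0 < L ^ (-(n + 4) * ε - η) := Real.rpow_pos_of_pos hL0 _
  calc T * L ^ (-κ ^ 2 - (n + 6) * ε - η) ≤ T * (1 / 2 * L ^ (-κ ^ 2 - ε) * L ^ (-(n + 4) * ε - η)) := by gcongr
    _ = 1 / 2 * (T * L ^ (-κ ^ 2 - ε)) * L ^ (-(n + 4) * ε - η) := by ring
    _ ≤ volume.real E' * L ^ (-(n + 4) * ε - η) := mul_le_mul_of_nonneg_right hE'v p1.le

end Pool.Agent.X117.JM
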