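import Pool.Agent.X117.Joint2

/-!
# Joint moments of consecutive derivatives of Hardy's function with prescribed signs
-/

namespace Pool.Agent.X117.JM

open Filter Topology MeasureTheory Complex H370 Set
open Pool.Agent.X117.HZ Pool.Agent.X117.Peak Pool.Agent.X117.DZ

lemma box_mono {σ₁ σ₂ : ℝ} {m : ℕ} {a b c d T : ℝ} (hL : 1 ≤ Real.log T) (h1 : c ≤ a) (h2 : b ≤ d) :
    box σ₁ σ₂ m a b T ⊆ box σ₁ σ₂ m c d T := by
  rintro t ⟨q1, q2, ⟨q3, q4⟩, q5, q6⟩
  refine ⟨q1, q2, ⟨?_, ?_⟩, ?_, ?_⟩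
  · exact (Real.rpow_le_rpow_of_exponent_le hL (by linarith)).trans q3
  · exact q4.trans (Real.rpow_le_rpow_of_exponent_le hL (by linarith))
  · exact (Real.rpow_le_rpow_of_exponent_le hL (by linarith)).trans q5
  · exact q6.trans (Real.rpow_le_rpow_of_exponent_le hL (by linarith))

/-- values of a given size -/
theorem box_ge {κ : ℝ} (hκ : 0 < κ) (hκ2 : κ ≤ 2) {ε : ℝ} (hε : 0 < ε) (n : ℕ) {σ₁ σ₂ : ℝ}
    (hσ₁ : σ₁ = 1 ∨ σ₁ = -1) (hσ₂ : σ₂ = 1 ∨ σ₂ = -1) :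
    ∀ᶠ T : ℝ in atTop, T * Real.log T ^ (-κ ^ 2 - ε) ≤ volume.real (box σ₁ σ₂ n (κ - ε) (κ + ε) T) := by
  have hd : 0 < (n : ℝ) + 6 + 2 / κ := by positivity
  set e : ℝ := min (1 / 4) (ε / (n + 6 + 2 / κ)) with he
  have he0 : 0 < e := lt_min (by norm_num) (by positivity)
  have he4 : e ≤ 1 / 4 := min_le_left _ _
  have he1 : e * (n + 6 + 2 / κ) ≤ ε := by
    have := min_le_right (1 / 4 : ℝ) (ε / (n + 6 + 2 / κ))
    rw [← he, le_div_iff₀ hd] at this
    exact this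
  have hn : (0 : ℝ) ≤ n := Nat.cast_nonneg n
  have hη : 2 * κ * (2 * e / κ) = 4 * e := by
    field_simp
    ring
  have hη0 : 0 < 2 * e / κ := by positivity
  have e1 : e * (n + 6 + 2 / κ) = (n + 6) * e + 2 * e / κ := by ring
  have h := box_aux (κ := κ) (ε := e) (η := 2 * e / κ) (κ' := κ) hκ hκ2 he0 he4 (by nlinarith) n hσ₁ hσ₂
  filter_upwards [h, Real.tendsto_log_atTop.eventually_ge_atTop 1, eventually_ge_atTop 0] with T hT hL hT0
  refine le_trans ?_ (hT.trans (measureReal_mono (box_mono hL ?_ ?_) (box_fin _ _ _ _ _ _)))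
  · refine mul_le_mul_of_nonneg_left ?_ hT0
    exact Real.rpow_le_rpow_of_exponent_le hL (by linarith)
  · nlinarith
  · nlinarith

/-- both derivatives are large -/
def both (σ₁ σ₂ : ℝ) (m : ℕ) (κ T : ℝ) : Set ℝ :=
  {t : ℝ | T ≤ t ∧ t ≤ 2 * T ∧ Real.log T ^ (m + κ) ≤ σ₁ * iteratedDeriv m Z t ∧
    Real.log T ^ (m + 1 + κ) ≤ σ₂ * iteratedDeriv (m + 1) Z t}

lemma both_sub (σ₁ σ₂ : ℝ) (m : ℕ) (κ T : ℝ) : both σ₁ σ₂ m κ T ⊆ Icc T (2 * T) :=
  fun _ h => ⟨h.1, h.2.1⟩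

lemma both_fin (σ₁ σ₂ : ℝ) (m : ℕ) (κ T : ℝ) : volume (both σ₁ σ₂ m κ T) ≠ ⊤ :=
  (measure_lt_top_of_subset (both_sub σ₁ σ₂ m κ T)
    (by rw [Real.volume_Icc]; exact ENNReal.ofReal_ne_top)).ne

theorem both_ge {κ : ℝ} (hκ : 0 < κ) (hκ2 : κ ≤ 2) {ε : ℝ} (hε : 0 < ε) (n : ℕ) {σ₁ σ₂ : ℝ}
    (hσ₁ : σ₁ = 1 ∨ σ₁ = -1) (hσ₂ : σ₂ = 1 ∨ σ₂ = -1) :
    ∀ᶠ T : ℝ in atTop, T * Real.log T ^ (-κ ^ 2 - ε) ≤ volume.real (both σ₁ σ₂ n κ T) := by
  have hcont : ContinuousAt (fun e : ℝ => -(κ + (n + 3) * e) ^ 2 - (n + 6) * e -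
      (((n + 3) * e) ^ 2 + 4 * e) / (2 * κ)) 0 := by
    refine Continuous.continuousAt ?_
    fun_prop
  have hev : ∀ᶠ e : ℝ in 𝓝[>] 0, -κ ^ 2 - ε < -(κ + (n + 3) * e) ^ 2 - (n + 6) * e -
      (((n + 3) * e) ^ 2 + 4 * e) / (2 * κ) := by
    refine (hcont.tendsto.mono_left nhdsWithin_le_nhds).eventually (lt_mem_nhds ?_)
    simp only [mul_zero, add_zero, sub_zero, ne_eq, OfNat.ofNat_ne_zero, not_false_eq_true, zero_pow, zero_div]
    linarith
  have hev2 : ∀ᶠ e : ℝ in 𝓝[>] 0, e < 1 / 4 :=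
    nhdsWithin_le_nhds (gt_mem_nhds (by norm_num))
  obtain ⟨e, he1, he2, he3⟩ := (hev.and (hev2.and self_mem_nhdsWithin)).exists
  have he0 : 0 < e := he3
  have h := box_aux (κ := κ + (n + 3) * e) (ε := e) (η := (((n + 3) * e) ^ 2 + 4 * e) / (2 * κ)) (κ' := κ)
    hκ hκ2 he0 he2.le (by
      have : 2 * κ * ((((n + 3) * e) ^ 2 + 4 * e) / (2 * κ)) = ((n + 3) * e) ^ 2 + 4 * e := by
        field_simp
      nlinarith) n hσ₁ hσ₂
  filter_upwards [h, Real.tendsto_log_atTop.eventually_ge_atTop 1, eventually_ge_atTop 0] with T hT hL hT0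
  rw [add_sub_cancel_right] at hT
  refine le_trans ?_ (hT.trans (measureReal_mono ?_ (both_fin _ _ _ _ _)))
  · refine mul_le_mul_of_nonneg_left ?_ hT0
    exact Real.rpow_le_rpow_of_exponent_le hL he1.le
  · rintro t ⟨q1, q2, ⟨q3, q4⟩, q5, q6⟩
    exact ⟨q1, q2, q3, q5⟩

theorem both_le {κ : ℝ} (hκ : 0 < κ) (hκ2 : κ ≤ 2) (n : ℕ) (σ₁ : ℝ) {σ₂ : ℝ} (hσ₂ : σ₂ = 1 ∨ σ₂ = -1) :
    ∃ C : ℝ, 1 ≤ C ∧ ∀ᶠ T : ℝ in atTop,
      volume.real (both σ₁ σ₂ n κ T) ≤ C * (T * Real.log T ^ (-κ ^ 2)) := by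
  obtain ⟨C, hC, h⟩ := big_le hκ hκ2 n hσ₂
  refine ⟨C, hC, ?_⟩
  filter_upwards [h] with T hT
  refine (measureReal_mono ?_ (big_fin _ _ _ _)).trans hT
  rintro t ⟨q1, q2, q3, q4⟩
  refine ⟨q1, q2, le_trans (le_of_eq ?_) q4⟩
  congr 1
  push_cast
  ring

/-- the set with given signs -/
def signs (σ₁ σ₂ : ℝ) (m : ℕ) (T : ℝ) : Set ℝ :=
  {t : ℝ | T ≤ t ∧ t ≤ 2 * T ∧ 0 < σ₁ * iteratedDeriv m Z t ∧ 0 < σ₂ * iteratedDeriv (m + 1) Z t}

/-- the joint moment -/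
noncomputable def joint (σ₁ σ₂ : ℝ) (m : ℕ) (a b T : ℝ) : ENNReal :=
  ∫⁻ t in signs σ₁ σ₂ m T, ENNReal.ofReal (|iteratedDeriv m Z t| ^ a * |iteratedDeriv (m + 1) Z t| ^ b)

lemma sign_abs {σ x : ℝ} (hσ : σ = 1 ∨ σ = -1) (h : 0 < σ * x) : σ * x = |x| := by
  rcases hσ with rfl | rfl
  · rw [one_mul] at h ⊢
    exact (abs_of_pos h).symm
  · rw [neg_one_mul] at h ⊢
    exact (abs_of_neg (by linarith)).symm

/-- powers of a number of given size -/
lemma rpow_ge2 {L x u e a : ℝ} (hL : 1 ≤ L) (h1 : L ^ (u - e) ≤ x) (h2 : x ≤ L ^ (u + e)) :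
    L ^ (a * u - |a| * e) ≤ x ^ a := by
  have hL0 : 0 < L := by linarith
  have hx0 : 0 < x := lt_of_lt_of_le (Real.rpow_pos_of_pos hL0 _) h1
  rcases le_or_gt 0 a with ha | ha
  · have h3 := Real.rpow_le_rpow (by positivity) h1 ha
    rw [← Real.rpow_mul hL0.le] at h3
    refine le_trans (le_of_eq ?_) h3
    congr 1
    rw [abs_of_nonneg ha]
    ring
  · have h3 := Real.rpow_le_rpow_of_nonpos hx0 h2 ha.le
    rw [← Real.rpow_mul hL0.le] at h3
    refine le_trans (le_of_eq ?_) h3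
    congr 1
    rw [abs_of_neg ha]
    ring

/-- joint moments from below, order at most four -/
theorem joint_ge_small {a b : ℝ} (h0 : 0 < a + b) (h4 : a + b ≤ 4) {ε : ℝ} (hε : 0 < ε) (n : ℕ) {σ₁ σ₂ : ℝ}
    (hσ₁ : σ₁ = 1 ∨ σ₁ = -1) (hσ₂ : σ₂ = 1 ∨ σ₂ = -1) :
    ∀ᶠ T : ℝ in atTop, ENNReal.ofReal (T * Real.log T ^ ((a + b) ^ 2 / 4 + n * a + (n + 1) * b - ε)) ≤
      joint σ₁ σ₂ n a b T := by
  have ha := abs_nonneg a
  have hb := abs_nonneg b
  set e : ℝ := ε / (1 + |a| + |b|) with he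
  have he0 : 0 < e := by positivity
  have he1 : e * (1 + |a| + |b|) = ε := by
    rw [he]
    field_simp
  filter_upwards [box_ge (κ := (a + b) / 2) (by linarith) (by linarith) he0 n hσ₁ hσ₂,
    Real.tendsto_log_atTop.eventually_ge_atTop 1, eventually_ge_atTop 1] with T hT hL hT1
  have hT0 : 0 < T := by linarith
  have hL0 : 0 < Real.log T := by linarith
  set κ : ℝ := (a + b) / 2 with hκ
  set w : ℝ := (a * (n + κ) - |a| * e) + (b * (n + 1 + κ) - |b| * e) with hw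
  have hsub : box σ₁ σ₂ n (κ - e) (κ + e) T ⊆ signs σ₁ σ₂ n T := by
    rintro t ⟨q1, q2, ⟨q3, q4⟩, q5, q6⟩
    exact ⟨q1, q2, lt_of_lt_of_le (Real.rpow_pos_of_pos hL0 _) q3,
      lt_of_lt_of_le (Real.rpow_pos_of_pos hL0 _) q5⟩
  have h1 : ∫⁻ _ in box σ₁ σ₂ n (κ - e) (κ + e) T, ENNReal.ofReal (Real.log T ^ w) ≤
      ∫⁻ t in box σ₁ σ₂ n (κ - e) (κ + e) T,
        ENNReal.ofReal (|iteratedDeriv n Z t| ^ a * |iteratedDeriv (n + 1) Z t| ^ b) := by
    refine setLIntegral_mono' (box_meas _ _ _ _ _ _) fun t ht => ?_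
    refine ENNReal.ofReal_le_ofReal ?_
    have hs := hsub ht
    obtain ⟨q1, q2, ⟨q3, q4⟩, q5, q6⟩ := ht
    rw [sign_abs hσ₁ hs.2.2.1] at q3 q4
    rw [sign_abs hσ₂ hs.2.2.2] at q5 q6
    rw [← add_sub_assoc] at q3 q5
    rw [← add_assoc] at q4 q6
    have r1 := rpow_ge2 (a := a) (u := n + κ) (e := e) hL q3 q4
    have r2 := rpow_ge2 (a := b) (u := n + 1 + κ) (e := e) hL q5 q6
    rw [hw, Real.rpow_add hL0]
    exact mul_le_mul r1 r2 (by positivity) (by positivity)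
  rw [setLIntegral_const] at h1
  refine le_trans ?_ (h1.trans (lintegral_mono_set hsub))
  rw [← ENNReal.ofReal_toReal (box_fin σ₁ σ₂ n (κ - e) (κ + e) T), ← ENNReal.ofReal_mul (by positivity)]
  refine ENNReal.ofReal_le_ofReal ?_
  refine le_trans (le_of_eq ?_) (mul_le_mul_of_nonneg_left hT (by positivity))
  rw [mul_left_comm, ← Real.rpow_add hL0]
  congr 2
  rw [hw, ← he1, hκ]
  ring

/-- joint moments from below, arbitrary order -/
theorem joint_ge_large {a b : ℝ} (ha : 0 ≤ a) (hb : 1 ≤ b) {ε : ℝ} (hε : 0 < ε) (n : ℕ) {σ₁ σ₂ : ℝ}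
    (hσ₁ : σ₁ = 1 ∨ σ₁ = -1) (hσ₂ : σ₂ = 1 ∨ σ₂ = -1) :
    ∀ᶠ T : ℝ in atTop, ENNReal.ofReal (T * Real.log T ^ ((a + b) ^ 2 / 4 + n * a + (n + 1) * b - ε)) ≤
      joint σ₁ σ₂ n a b T := by
  have hd : 0 < 1 + a * ((n : ℝ) + 2) + b * (n + 3) := by positivity
  set e : ℝ := ε / (1 + a * (n + 2) + b * (n + 3)) with he
  have he0 : 0 < e := by positivity
  have he1 : e * (1 + a * (n + 2) + b * (n + 3)) = ε := by
    rw [he]
    field_simp
  have hLε : Tendsto (fun T : ℝ => Real.log T ^ e) atTop atTop :=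
    (tendsto_rpow_atTop he0).comp Real.tendsto_log_atTop
  set κ : ℝ := (a + b) / 2 with hκ
  filter_upwards [alt_windows (n + 1) κ he0, hLε.eventually_ge_atTop 8,
    Real.tendsto_log_atTop.eventually_ge_atTop 1, eventually_ge_atTop (10 : ℝ)]
    with T hT hL2 hL1 hT10
  obtain ⟨r, E, hr0, hr1, hr2, hEm, hEs, hEv, hEx⟩ := hT
  have hT0 : 0 < T := by linarith
  have hL0 : 0 < Real.log T := by linarith
  set L := Real.log T with hL
  obtain ⟨hsz1, hsz2⟩ := size_aux2 (κ := κ) (n := n) hL1 hL2 hr0 hr2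
  set s : ℝ := L ^ (κ + (n + 1) - (n + 3) * e) with hs
  have hs0 : 0 < s := Real.rpow_pos_of_pos hL0 _
  set θ : ℝ := L ^ (κ - e) * (1 / r) ^ n / 2 with hθ
  have hθ0 : 0 < θ := by positivity
  set G : ℝ → ENNReal := fun u => ENNReal.ofReal (θ ^ a) * ENNReal.ofReal (pj θ σ₁ σ₂ n u ^ b) with hG
  have hGm : Measurable G := (((pj_meas θ σ₁ σ₂ n).pow_const _).ennreal_ofReal).const_mul _
  have hEfin : volume E ≠ ⊤ := (measure_lt_top_of_subset hEs
    (by rw [Real.volume_Icc]; exact ENNReal.ofReal_ne_top)).ne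
  have hsp := spread hGm hEm (a := T) (b := 2 * T) (r := r) hr0 (by
      intro t ht
      have := hEs ht
      exact ⟨by linarith [this.1], by linarith [this.2]⟩)
      (c := ENNReal.ofReal (θ ^ a) * ENNReal.ofReal (s ^ b)) (by
    intro t ht
    have htI := hEs ht
    have h1 := window_moment2 (m := n) (θ := θ) (σ₁ := σ₁) (σ₂ := σ₂) (t := t) (p := b) hr0 hs0 hb
      ((ENNReal.ofReal_le_ofReal hsz1).trans
        (window_pj hr0 (by linarith [htI.1]) (by positivity) hσ₁ hσ₂ (hEx t ht)))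
    have hm : Measurable fun v : ℝ => ENNReal.ofReal (pj θ σ₁ σ₂ n (t + v) ^ b) :=
      (((pj_meas θ σ₁ σ₂ n).comp (measurable_const.add measurable_id)).pow_const _).ennreal_ofReal
    simp only [hG]
    rw [lintegral_const_mul _ hm, mul_left_comm]
    exact mul_le_mul_right h1 _)
  have hGle : ∫⁻ u in Icc T (2 * T), G u ≤ joint σ₁ σ₂ n a b T := by
    have hsm : MeasurableSet (signs σ₁ σ₂ n T) := by
      have : signs σ₁ σ₂ n T = Icc T (2 * T) ∩ ({t | 0 < σ₁ * iteratedDeriv n Z t} ∩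
          {t | 0 < σ₂ * iteratedDeriv (n + 1) Z t}) := by
        ext t
        simp [signs, and_assoc]
      rw [this]
      exact measurableSet_Icc.inter ((measurableSet_lt measurable_const ((iter_meas n).const_mul _)).inter
        (measurableSet_lt measurable_const ((iter_meas (n + 1)).const_mul _)))
    unfold joint
    rw [← lintegral_indicator hsm, ← lintegral_indicator measurableSet_Icc]
    refine lintegral_mono fun u => ?_
    by_cases hu : u ∈ Icc T (2 * T)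
    · rw [indicator_of_mem hu]
      by_cases hp : θ ≤ σ₁ * iteratedDeriv n Z u ∧ 0 < σ₂ * iteratedDeriv (n + 1) Z u
      · have hmem : u ∈ signs σ₁ σ₂ n T := ⟨hu.1, hu.2, lt_of_lt_of_le hθ0 hp.1, hp.2⟩
        rw [indicator_of_mem hmem]
        simp only [hG]
        have e1 : pj θ σ₁ σ₂ n u = |iteratedDeriv (n + 1) Z u| := by
          unfold pj pd
          rw [if_pos hp.1, max_eq_left hp.2.le, sign_abs hσ₂ hp.2]
        rw [e1, ← ENNReal.ofReal_mul (by positivity)]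
        refine ENNReal.ofReal_le_ofReal ?_
        refine mul_le_mul_of_nonneg_right ?_ (by positivity)
        refine Real.rpow_le_rpow hθ0.le ?_ ha
        rw [← sign_abs hσ₁ hmem.2.2.1]
        exact hp.1
      · have e1 : pj θ σ₁ σ₂ n u = 0 := by
          unfold pj pd
          split_ifs with h3
          · exact max_eq_right (not_lt.mp fun h => hp ⟨h3, h⟩)
          · rfl
        simp only [hG]
        rw [e1, Real.zero_rpow (by linarith), ENNReal.ofReal_zero, mul_zero]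
        exact zero_le
    · rw [indicator_of_notMem hu]
      exact zero_le
  refine le_trans ?_ (hsp.trans hGle)
  rw [← ENNReal.ofReal_toReal hEfin, ← ENNReal.ofReal_mul (by positivity),
    ← ENNReal.ofReal_mul ENNReal.toReal_nonneg]
  refine ENNReal.ofReal_le_ofReal ?_
  have hθa : L ^ ((κ + n - (n + 2) * e) * a) ≤ θ ^ a := by
    rw [Real.rpow_mul hL0.le]
    exact Real.rpow_le_rpow (by positivity) hsz2 ha
  have hsb : s ^ b = L ^ ((κ + (n + 1) - (n + 3) * e) * b) := by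
    rw [hs, ← Real.rpow_mul hL0.le]
  have e1 : L ^ ((a + b) ^ 2 / 4 + n * a + (n + 1) * b - ε) =
      L ^ (-κ ^ 2 - e) * (L ^ ((κ + n - (n + 2) * e) * a) * L ^ ((κ + (n + 1) - (n + 3) * e) * b)) := by
    rw [← Real.rpow_add hL0, ← Real.rpow_add hL0]
    congr 1
    rw [← he1, hκ]
    ring
  rw [e1, ← mul_assoc, hsb]
  have p1 : 0 < L ^ ((κ + (n + 1) - (n + 3) * e) * b) := Real.rpow_pos_of_pos hL0 _
  have p2 : 0 < L ^ ((κ + n - (n + 2) * e) * a) := Real.rpow_pos_of_pos hL0 _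
  exact mul_le_mul hEv (mul_le_mul_of_nonneg_right hθa p1.le) (by positivity) ENNReal.toReal_nonneg

/-- joint moments from above, order at most four -/
theorem joint_le {a b : ℝ} (ha : 0 ≤ a) (hb : 0 ≤ b) (h0 : 0 < a + b) (h4 : a + b ≤ 4) (n : ℕ) (σ₁ σ₂ : ℝ) :
    ∃ C : ℝ, 1 ≤ C ∧ ∀ᶠ T : ℝ in atTop, joint σ₁ σ₂ n a b T ≤
      ENNReal.ofReal (C * (T * Real.log T ^ ((a + b) ^ 2 / 4 + n * a + (n + 1) * b))) := by
  obtain ⟨C1, hC1, h1⟩ := moment_up (k := (a + b) / 2) (by linarith) (by linarith) n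
  obtain ⟨C2, hC2, h2⟩ := moment_up (k := (a + b) / 2) (by linarith) (by linarith) (n + 1)
  refine ⟨C1 + C2, by linarith, ?_⟩
  filter_upwards [h1, h2, eventually_ge_atTop 3, Real.tendsto_log_atTop.eventually_ge_atTop 1]
    with T q1 q2 hT3 hL1
  have hL0 : 0 < Real.log T := by linarith
  have hT0 : 0 < T := by linarith
  set L := Real.log T with hL
  set p : ℝ := 2 * ((a + b) / 2) with hp
  have hp2 : p = a + b := by rw [hp]; ring
  have hp0 : 0 < p := by linarith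
  have hpt : ∀ x y : ℝ, 0 ≤ x → 0 ≤ y → x ^ a * y ^ b ≤ L ^ b * (x ^ p + L ^ (-p) * y ^ p) := by
    intro x y hx hy
    have e1 : L ^ b * (L ^ (-p) * y ^ p) = L ^ b * (y / L) ^ p := by
      rw [Real.div_rpow hy hL0.le, Real.rpow_neg hL0.le]
      ring
    have e2 : x ^ a * y ^ b = L ^ b * (x ^ a * (y / L) ^ b) := by
      rw [Real.div_rpow hy hL0.le]
      field_simp
    rw [mul_add, e1, e2, ← mul_add]
    refine mul_le_mul_of_nonneg_left ?_ (by positivity)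
    have hyL : 0 ≤ y / L := by positivity
    have h5 : 0 ≤ x ^ p := by positivity
    have h6 : 0 ≤ (y / L) ^ p := by positivity
    rcases le_total x (y / L) with h3 | h3
    · have h7 : x ^ a * (y / L) ^ b ≤ (y / L) ^ a * (y / L) ^ b :=
        mul_le_mul_of_nonneg_right (Real.rpow_le_rpow hx h3 ha) (by positivity)
      have h8 : (y / L) ^ a * (y / L) ^ b = (y / L) ^ p := by
        rw [hp2, ← Real.rpow_add_of_nonneg hyL ha hb]
      linarith
    · have h7 : x ^ a * (y / L) ^ b ≤ x ^ a * x ^ b :=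
        mul_le_mul_of_nonneg_left (Real.rpow_le_rpow hyL h3 hb) (by positivity)
      have h8 : x ^ a * x ^ b = x ^ p := by
        rw [hp2, ← Real.rpow_add_of_nonneg hx ha hb]
      linarith
  have hcd : ∀ j : ℕ, ContinuousOn (fun t => |iteratedDeriv j Z t| ^ p) (Icc T (2 * T)) := by
    intro j t ht
    have := (iter_diff j (t := t) (by linarith [ht.1])).continuousAt
    exact ((continuous_abs.continuousAt.comp this).rpow_const
      (Or.inr (by linarith))).continuousWithinAt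
  have hint : IntegrableOn (fun t => L ^ b * (|iteratedDeriv n Z t| ^ p +
      L ^ (-p) * |iteratedDeriv (n + 1) Z t| ^ p)) (Icc T (2 * T)) :=
    (continuousOn_const.mul ((hcd n).add (continuousOn_const.mul (hcd (n + 1))))).integrableOn_compact
      isCompact_Icc
  have h5 : joint σ₁ σ₂ n a b T ≤ ∫⁻ t in Icc T (2 * T), ENNReal.ofReal (L ^ b * (|iteratedDeriv n Z t| ^ p +
      L ^ (-p) * |iteratedDeriv (n + 1) Z t| ^ p)) := by
    unfold joint
    refine (lintegral_mono_set (show signs σ₁ σ₂ n T ⊆ Icc T (2 * T) from fun t h => ⟨h.1, h.2.1⟩)).trans ?_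
    exact lintegral_mono fun t => ENNReal.ofReal_le_ofReal (hpt _ _ (abs_nonneg _) (abs_nonneg _))
  refine h5.trans ?_
  rw [← ofReal_integral_eq_lintegral_ofReal hint (Filter.Eventually.of_forall fun t => by positivity)]
  refine ENNReal.ofReal_le_ofReal ?_
  rw [integral_Icc_eq_integral_Ioc, ← intervalIntegral.integral_of_le (by linarith),
    intervalIntegral.integral_const_mul, intervalIntegral.integral_add
      (ContinuousOn.intervalIntegrable (by rw [uIcc_of_le (by linarith)]; exact hcd n))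
      (ContinuousOn.intervalIntegrable (by rw [uIcc_of_le (by linarith)]; exact continuousOn_const.mul (hcd (n + 1)))),
    intervalIntegral.integral_const_mul]
  have h6 : L ^ b * ((∫ t in T..(2 * T), |iteratedDeriv n Z t| ^ p) +
      L ^ (-p) * ∫ t in T..(2 * T), |iteratedDeriv (n + 1) Z t| ^ p) ≤
      L ^ b * (C1 * (T * L ^ (((a + b) / 2) ^ 2 + 2 * ((a + b) / 2) * n)) +
        L ^ (-p) * (C2 * (T * L ^ (((a + b) / 2) ^ 2 + 2 * ((a + b) / 2) * ((n + 1 : ℕ) : ℝ))))) := by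
    gcongr
  refine h6.trans (le_of_eq ?_)
  have e1 : L ^ (-p) * L ^ (((a + b) / 2) ^ 2 + 2 * ((a + b) / 2) * ((n + 1 : ℕ) : ℝ)) =
      L ^ (((a + b) / 2) ^ 2 + 2 * ((a + b) / 2) * n) := by
    rw [← Real.rpow_add hL0]
    congr 1
    rw [hp]
    push_cast
    ring
  have e2 : L ^ b * L ^ (((a + b) / 2) ^ 2 + 2 * ((a + b) / 2) * n) =
      L ^ ((a + b) ^ 2 / 4 + n * a + (n + 1) * b) := by
    rw [← Real.rpow_add hL0]
    congr 1
    ring
  calc _ = C1 * (T * (L ^ b * L ^ (((a + b) / 2) ^ 2 + 2 * ((a + b) / 2) * n))) +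
      C2 * (T * (L ^ b * (L ^ (-p) * L ^ (((a + b) / 2) ^ 2 + 2 * ((a + b) / 2) * ((n + 1 : ℕ) : ℝ))))) := by ring
    _ = _ := by
      rw [e1, e2]
      ring

end Pool.Agent.X117.JM
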