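import Mathlib

/-!
# The number of solutions of `f t = y`, integrated over `y`
-/

namespace Pool.Agent.X117.LV

open Filter Topology MeasureTheory Set

/-- the `i`-th of the `n + 1` pieces of `[a, b]` -/
noncomputable def pc (a b : ℝ) (n i : ℕ) : Set ℝ :=
  Icc (a + i * ((b - a) / (n + 1))) (a + (i + 1) * ((b - a) / (n + 1)))

lemma exists_pc {a b : ℝ} (hab : a < b) (n : ℕ) {p : ℝ} (hp : p ∈ Icc a b) :
    ∃ i, i < n + 1 ∧ p ∈ pc a b n i := by
  have hn : (0 : ℝ) < n + 1 := by positivity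
  have hh : 0 < (b - a) / (n + 1) := div_pos (by linarith) hn
  set h := (b - a) / (n + 1) with hhd
  have hb : b = a + (n + 1) * h := by
    rw [hhd]
    field_simp
    ring
  rcases eq_or_lt_of_le hp.2 with h1 | h1
  · refine ⟨n, by omega, ?_, ?_⟩
    · rw [h1]
      show a + n * h ≤ b
      rw [hb]
      nlinarith
    · rw [h1, ← hb]
  · have h0 : 0 ≤ (p - a) / h := div_nonneg (by linarith [hp.1]) hh.le
    refine ⟨⌊(p - a) / h⌋₊, ?_, ?_, ?_⟩
    · rw [Nat.floor_lt h0, div_lt_iff₀ hh]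
      push_cast
      linarith
    · show a + (⌊(p - a) / h⌋₊ : ℝ) * h ≤ p
      have h2 := Nat.floor_le h0
      rw [le_div_iff₀ hh] at h2
      linarith
    · show p ≤ a + ((⌊(p - a) / h⌋₊ : ℝ) + 1) * h
      have h2 := Nat.lt_floor_add_one ((p - a) / h)
      rw [div_lt_iff₀ hh] at h2
      linarith

lemma pc_close {a b : ℝ} {n i : ℕ} {p q : ℝ} (hp : p ∈ pc a b n i) (hq : q ∈ pc a b n i) :
    |p - q| ≤ (b - a) / (n + 1) := by
  obtain ⟨h1, h2⟩ := hp
  obtain ⟨h3, h4⟩ := hq
  rw [abs_le]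
  constructor <;> nlinarith

/-- the number of pieces that contain a solution -/
noncomputable def cnt (f : ℝ → ℝ) (a b : ℝ) (n : ℕ) (y : ℝ) : ENNReal :=
  ∑ i ∈ Finset.range (n + 1), (f '' pc a b n i).indicator 1 y

lemma card_le_cnt {f : ℝ → ℝ} {a b : ℝ} (hab : a < b) {y : ℝ} (F : Finset ℝ)
    (hF : ∀ p ∈ F, p ∈ Icc a b ∧ f p = y) : ∀ᶠ n : ℕ in atTop, (F.card : ENNReal) ≤ cnt f a b n y := by
  classical
  obtain ⟨d, hd, hsep⟩ : ∃ d : ℝ, 0 < d ∧ ∀ p ∈ F, ∀ q ∈ F, p ≠ q → d ≤ |p - q| := by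
    set D : Finset ℝ := insert 1 ((F.offDiag).image fun pq => |pq.1 - pq.2|) with hD
    have hDn : D.Nonempty := Finset.insert_nonempty _ _
    refine ⟨D.min' hDn, ?_, ?_⟩
    · rw [Finset.lt_min'_iff]
      intro x hx
      rw [hD, Finset.mem_insert, Finset.mem_image] at hx
      rcases hx with rfl | ⟨pq, hpq, rfl⟩
      · norm_num
      · rw [Finset.mem_offDiag] at hpq
        exact abs_pos.mpr (sub_ne_zero.mpr hpq.2.2)
    · intro p hp q hq hpq
      refine Finset.min'_le _ _ ?_
      rw [hD, Finset.mem_insert, Finset.mem_image]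
      exact Or.inr ⟨(p, q), Finset.mem_offDiag.mpr ⟨hp, hq, hpq⟩, rfl⟩
  have hlim : Tendsto (fun n : ℕ => (b - a) / ((n : ℝ) + 1)) atTop (𝓝 0) :=
    tendsto_const_div_atTop_nhds_zero_nat (b - a) |>.comp (tendsto_add_atTop_nat 1) |>.congr fun n => by
      simp
  filter_upwards [hlim.eventually (gt_mem_nhds hd)] with n hn
  have hch : ∀ p : ℝ, ∃ i, p ∈ F → i < n + 1 ∧ p ∈ pc a b n i := by
    intro p
    by_cases hp : p ∈ F
    · obtain ⟨i, h1, h2⟩ := exists_pc hab n (hF p hp).1
      exact ⟨i, fun _ => ⟨h1, h2⟩⟩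
    · exact ⟨0, fun h => absurd h hp⟩
  choose g hg using hch
  have hinj : Set.InjOn g F := by
    intro p hp q hq hpq
    by_contra hne
    have h1 := (hg p hp).2
    have h2 := (hg q hq).2
    rw [← hpq] at h2
    have h3 := pc_close h1 h2
    have h4 := hsep p hp q hq hne
    linarith
  have h1 : (F.card : ENNReal) = ∑ i ∈ F.image g, (1 : ENNReal) := by
    rw [Finset.sum_const, Finset.card_image_of_injOn hinj]
    simp
  rw [h1]
  unfold cnt
  have hsub : F.image g ⊆ Finset.range (n + 1) := by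
    intro i hi
    obtain ⟨p, hp, rfl⟩ := Finset.mem_image.mp hi
    exact Finset.mem_range.mpr (hg p hp).1
  calc ∑ i ∈ F.image g, (1 : ENNReal) = ∑ i ∈ F.image g, (f '' pc a b n i).indicator 1 y := by
        refine Finset.sum_congr rfl fun i hi => ?_
        obtain ⟨p, hp, rfl⟩ := Finset.mem_image.mp hi
        have hmem : y ∈ f '' pc a b n (g p) := ⟨p, (hg p hp).2, (hF p hp).2⟩
        rw [indicator_of_mem hmem, Pi.one_apply]
    _ ≤ _ := Finset.sum_le_sum_of_subset hsub

lemma encard_le_liminf {f : ℝ → ℝ} {a b : ℝ} (hab : a < b) (y : ℝ) :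
    (({t : ℝ | t ∈ Icc a b ∧ f t = y}.encard : ℕ∞) : ENNReal) ≤ liminf (fun n => cnt f a b n y) atTop := by
  set A : Set ℝ := {t : ℝ | t ∈ Icc a b ∧ f t = y} with hA
  have key : ∀ F : Finset ℝ, (F : Set ℝ) ⊆ A → (F.card : ENNReal) ≤ liminf (fun n => cnt f a b n y) atTop := by
    intro F hF
    exact le_liminf_of_le (by isBoundedDefault) (card_le_cnt hab F fun p hp => hF hp)
  by_cases hfin : A.Finite
  · have h1 := key hfin.toFinset (by simp)
    rw [hfin.encard_eq_coe_toFinset_card]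
    simpa using h1
  · rw [Set.Infinite.encard_eq hfin]
    simp only [ENat.toENNReal_top]
    refine le_of_forall_lt fun c hc => ?_
    obtain ⟨k, hk⟩ := ENNReal.exists_nat_gt hc.ne
    obtain ⟨F, hF, hFc⟩ := Set.Infinite.exists_subset_card_eq hfin k
    have h1 := key F hF
    rw [hFc] at h1
    exact hk.trans_le h1

/-- the sum of the integrals over the pieces -/
lemma sum_pc {a b : ℝ} (hab : a < b) (n : ℕ) (g : ℝ → ENNReal) {S : Set ℝ} (hS : MeasurableSet S) :
    ∑ i ∈ Finset.range (n + 1), ∫⁻ t in pc a b n i ∩ S, g t = ∫⁻ t in Icc a b ∩ S, g t := by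
  have hn : (0 : ℝ) < n + 1 := by positivity
  have hh : 0 < (b - a) / (n + 1) := div_pos (by linarith) hn
  set h := (b - a) / (n + 1) with hhd
  have hb : b = a + ((n + 1 : ℕ) : ℝ) * h := by
    rw [hhd]
    push_cast
    field_simp
    ring
  have key : ∀ N : ℕ, ∑ i ∈ Finset.range N, ∫⁻ t in pc a b n i ∩ S, g t =
      ∫⁻ t in Ioc a (a + N * h) ∩ S, g t := by
    intro N
    induction N with
    | zero => simp
    | succ N ih =>
      rw [Finset.sum_range_succ, ih]
      have e1 : ∫⁻ t in pc a b n N ∩ S, g t = ∫⁻ t in Ioc (a + N * h) (a + (N + 1) * h) ∩ S, g t := by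
        refine setLIntegral_congr ?_
        unfold pc
        exact (Ioc_ae_eq_Icc.symm).inter (ae_eq_refl S)
      rw [e1, ← lintegral_union (measurableSet_Ioc.inter hS)]
      · congr 2
        rw [← union_inter_distrib_right]
        congr 1
        push_cast
        rw [Ioc_union_Ioc_eq_Ioc]
        · have : (0 : ℝ) ≤ N := Nat.cast_nonneg N
          nlinarith
        · nlinarith
      · refine Disjoint.mono inter_subset_left inter_subset_left ?_
        exact Set.disjoint_left.mpr fun x hx hx2 => absurd hx.2 (not_le.mpr hx2.1)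
  rw [key (n + 1), ← hb]
  exact setLIntegral_congr (Ioc_ae_eq_Icc.inter (ae_eq_refl S))

/-- **Banach's indicatrix**: the number of solutions, integrated over a set of levels -/
theorem indicatrix {f f' : ℝ → ℝ} {a b : ℝ} (hab : a < b) (hf : ∀ u ∈ Icc a b, HasDerivAt f (f' u) u)
    (hfm : Measurable f) {S : Set ℝ} (hS : MeasurableSet S) :
    ∫⁻ y in S, (({t : ℝ | t ∈ Icc a b ∧ f t = y}.encard : ℕ∞) : ENNReal) ≤
      ∫⁻ t in Icc a b ∩ f ⁻¹' S, ENNReal.ofReal |f' t| := by
  have hcont : ContinuousOn f (Icc a b) := fun u hu => (hf u hu).continuousAt.continuousWithinAt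
  have hpsub : ∀ n i : ℕ, i < n + 1 → pc a b n i ⊆ Icc a b := by
    intro n i hi
    have hn : (0 : ℝ) < n + 1 := by positivity
    have hh : 0 < (b - a) / (n + 1) := div_pos (by linarith) hn
    refine Icc_subset_Icc ?_ ?_
    · have : (0 : ℝ) ≤ i := Nat.cast_nonneg i
      nlinarith
    · have hi' : (i : ℝ) + 1 ≤ n + 1 := by exact_mod_cast hi
      have h1 : ((i : ℝ) + 1) * ((b - a) / (n + 1)) ≤ (n + 1) * ((b - a) / (n + 1)) :=
        mul_le_mul_of_nonneg_right hi' hh.le
      have h2 : ((n : ℝ) + 1) * ((b - a) / (n + 1)) = b - a := by field_simp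
      linarith
  have himg : ∀ n i : ℕ, i < n + 1 → MeasurableSet (f '' pc a b n i) := fun n i hi =>
    (isCompact_Icc.image_of_continuousOn (hcont.mono (hpsub n i hi))).measurableSet
  have hcm : ∀ n, Measurable (cnt f a b n) := by
    intro n
    unfold cnt
    exact Finset.measurable_fun_sum _ fun i hi => measurable_one.indicator (himg n i (Finset.mem_range.mp hi))
  calc ∫⁻ y in S, (({t : ℝ | t ∈ Icc a b ∧ f t = y}.encard : ℕ∞) : ENNReal)
      ≤ ∫⁻ y in S, liminf (fun n => cnt f a b n y) atTop := lintegral_mono fun y => encard_le_liminf hab y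
    _ ≤ liminf (fun n => ∫⁻ y in S, cnt f a b n y) atTop := lintegral_liminf_le hcm
    _ ≤ _ := by
      refine liminf_le_of_frequently_le' (Filter.Eventually.frequently (Filter.Eventually.of_forall fun n => ?_))
      unfold cnt
      rw [lintegral_finsetSum _ fun i hi => measurable_one.indicator (himg n i (Finset.mem_range.mp hi)),
        ← sum_pc hab n _ (hfm hS)]
      refine Finset.sum_le_sum fun i hi => ?_
      have hi' := Finset.mem_range.mp hi
      rw [setLIntegral_indicator (himg n i hi')]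
      simp only [Pi.one_apply]
      rw [setLIntegral_one]
      have h1 : f '' pc a b n i ∩ S = f '' (pc a b n i ∩ f ⁻¹' S) := (image_inter_preimage _ _ _).symm
      rw [h1]
      have h2 := addHaar_image_le_lintegral_abs_det_fderiv (μ := volume) (f := f)
        (f' := fun x => (1 : ℝ →L[ℝ] ℝ).smulRight (f' x)) (s := pc a b n i ∩ f ⁻¹' S)
        (measurableSet_Icc.inter (hfm hS))
        (fun x hx => (hf x (hpsub n i hi' hx.1)).hasFDerivAt.hasFDerivWithinAt)
      simpa using h2

end Pool.Agent.X117.LV
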