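import Pool.Agent.X117.Joint3
import Pool.Agent.X117.Lev1

/-!
# Level crossings of the derivatives of Hardy's function
-/

namespace Pool.Agent.X117.LV

open Filter Topology MeasureTheory Complex H370 Set
open Pool.Agent.X117.HZ Pool.Agent.X117.Peak Pool.Agent.X117.DZ Pool.Agent.X117.JM

/-- the points in `[T, 2 T]` at which `σ Z^(m)` takes the value `y` -/
def lev (σ : ℝ) (m : ℕ) (y T : ℝ) : Set ℝ :=
  {t : ℝ | t ∈ Icc T (2 * T) ∧ σ * iteratedDeriv m Z t = y}

/-- two neighbouring large values of opposite sign -/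
lemma alt_pair {m : ℕ} {σ r t Λ : ℝ} (hr : 0 < r) (ht : 1 ≤ t - r) (hΛ : 0 ≤ Λ) (hσ : σ = 1 ∨ σ = -1)
    (h : ∀ σ : ℝ, (σ = 1 ∨ σ = -1) → ∃ x : ℕ → ℝ, (∀ i, i ≤ m + 1 → |x i - t| ≤ r) ∧
        (∀ i, i < m + 1 → x i < x (i + 1)) ∧ ∀ i, i ≤ m + 1 → Λ ≤ σ * (-1) ^ i * Z (x i)) :
    ∃ y₀ y₁, t - r ≤ y₀ ∧ y₀ ≤ y₁ ∧ y₁ ≤ t + r ∧ σ * iteratedDeriv m Z y₀ ≤ -(Λ * (1 / r) ^ m) ∧
      Λ * (1 / r) ^ m ≤ σ * iteratedDeriv m Z y₁ := by
  obtain ⟨x, h1, h2, h3⟩ := h (-σ * (-1) ^ m) (by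
    rcases hσ with rfl | rfl <;> rcases neg_one_pow_eq_or ℝ m with h7 | h7 <;> rw [h7] <;> norm_num)
  have hm2 : (-1 : ℝ) ^ m * (-1) ^ m = 1 := by
    rw [← mul_pow]
    norm_num
  obtain ⟨y, y1, y2, y3⟩ := alternate (f := Z) (a := t - r) (b := t + r) (σ := -σ * (-1) ^ m) (Λ := Λ)
    (m := m + 1) (by linarith) hΛ (fun j _ u hu => iter_diff j (by linarith [hu.1])) (x := x)
    (fun i hi => by
      have := abs_le.mp (h1 i hi)
      exact ⟨by linarith [this.1], by linarith [this.2]⟩) h2 h3 m (by omega)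
  have e1 : 2 / (t + r - (t - r)) = 1 / r := by
    rw [show t + r - (t - r) = 2 * r by ring, div_eq_div_iff (by positivity) (by positivity)]
    ring
  have m0 := y1 0 (by omega)
  have m1 := y1 1 (by omega)
  have hlt : y 0 < y 1 := y2 0 (by omega)
  have c0 := y3 0 (by omega)
  have c1 := y3 1 (by omega)
  rw [e1] at c0 c1
  set g := iteratedDeriv m Z with hg
  have s0 : -σ * (-1) ^ m * (-1) ^ (0 + m) * g (y 0) = -(σ * g (y 0)) := by
    rw [zero_add, mul_assoc (-σ), hm2]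
    ring
  have s1 : -σ * (-1) ^ m * (-1) ^ (1 + m) * g (y 1) = σ * g (y 1) := by
    rw [add_comm 1 m, pow_succ, mul_assoc (-σ), ← mul_assoc ((-1 : ℝ) ^ m), hm2]
    ring
  rw [s0] at c0
  rw [s1] at c1
  exact ⟨y 0, y 1, m0.1, hlt.le, m1.2, by linarith, c1⟩

/-- the number of solutions from below, for all levels -/
theorem lev_ge (m : ℕ) (κ : ℝ) {ε : ℝ} (hε : 0 < ε) {σ : ℝ} (hσ : σ = 1 ∨ σ = -1) :
    ∀ᶠ T : ℝ in atTop, ∀ y : ℝ, |y| ≤ Real.log T ^ (m + κ) →
      ENNReal.ofReal (T * Real.log T ^ (1 - κ ^ 2 - ε)) ≤ ((lev σ m y T).encard : ENNReal) := by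
  have hcont : ContinuousAt (fun e : ℝ => -(κ + (m + 1) * e) ^ 2 - 3 * e) 0 := by
    refine Continuous.continuousAt ?_
    fun_prop
  have hev : ∀ᶠ e : ℝ in 𝓝[>] 0, -κ ^ 2 - ε < -(κ + (m + 1) * e) ^ 2 - 3 * e := by
    refine (hcont.tendsto.mono_left nhdsWithin_le_nhds).eventually (lt_mem_nhds ?_)
    simp only [mul_zero, add_zero, sub_zero]
    linarith
  obtain ⟨e, he1, he3⟩ := (hev.and self_mem_nhdsWithin).exists
  have he0 : 0 < e := he3
  have hLe : Tendsto (fun T : ℝ => Real.log T ^ e) atTop atTop :=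
    (tendsto_rpow_atTop he0).comp Real.tendsto_log_atTop
  filter_upwards [alt_windows (m + 1) (κ + (m + 1) * e) he0, hLe.eventually_ge_atTop 2,
    Real.tendsto_log_atTop.eventually_ge_atTop 5, eventually_ge_atTop (10 : ℝ)]
    with T hT hL2 hLL hT10
  obtain ⟨r, E, hr0, hr1, hr2, hEm, hEs, hEv, hEx⟩ := hT
  intro y hy
  have hT0 : 0 < T := by linarith
  have hL0 : 0 < Real.log T := by linarith
  have hL1 : 1 ≤ Real.log T := by linarith
  set L := Real.log T with hL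
  have hEfin : volume E ≠ ⊤ := (measure_lt_top_of_subset hEs
    (by rw [Real.volume_Icc]; exact ENNReal.ofReal_ne_top)).ne
  -- the size of the values
  have hΛ : L ^ (m + κ) ≤ L ^ (κ + (m + 1) * e - e) * (1 / r) ^ m := by
    have h1 : L ^ (1 - e) ≤ 1 / r := by
      rw [le_div_iff₀ hr0]
      calc L ^ (1 - e) * r ≤ L ^ (1 - e) * L ^ (e - 1) := by gcongr
        _ = 1 := by rw [← Real.rpow_add hL0]; simp
    have h2 : L ^ ((1 - e) * m) ≤ (1 / r) ^ m := by
      rw [Real.rpow_mul hL0.le, Real.rpow_natCast]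
      exact pow_le_pow_left₀ (by positivity) h1 m
    calc L ^ (m + κ) = L ^ (κ + (m + 1) * e - e) * L ^ ((1 - e) * m) := by
          rw [← Real.rpow_add hL0]
          congr 1
          ring
      _ ≤ _ := by gcongr
  -- a solution in every window
  have hsol : ∀ t ∈ E, ∃ p ∈ lev σ m y T, |t - p| ≤ r := by
    intro t ht
    have htI := hEs ht
    obtain ⟨y₀, y₁, q1, q2, q3, q4, q5⟩ := alt_pair (m := m) (σ := σ) (t := t) hr0 (by linarith [htI.1])
      (by positivity) hσ (hEx t ht)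
    have hc : ContinuousOn (fun u => σ * iteratedDeriv m Z u) (Icc y₀ y₁) :=
      continuousOn_const.mul fun u hu =>
        (iter_diff m (by linarith [hu.1, htI.1])).continuousAt.continuousWithinAt
    obtain ⟨p, hp, hp2⟩ := intermediate_value_Icc q2 hc (show y ∈ Icc _ _ from
      ⟨q4.trans (by linarith [neg_abs_le y]), (le_abs_self y).trans (by linarith)⟩)
    refine ⟨p, ⟨⟨by linarith [hp.1, htI.1], by linarith [hp.2, htI.2]⟩, hp2⟩, ?_⟩
    rw [abs_le]
    constructor <;> linarith [hp.1, hp.2]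
  by_cases hfin : (lev σ m y T).Finite
  · have hcov : E ⊆ ⋃ p ∈ hfin.toFinset, Icc (p - r) (p + r) := by
      intro t ht
      obtain ⟨p, hp, hp2⟩ := hsol t ht
      rw [mem_iUnion₂]
      rw [abs_le] at hp2
      exact ⟨p, hfin.mem_toFinset.mpr hp, by linarith [hp2.1], by linarith [hp2.2]⟩
    have h1 : volume E ≤ (hfin.toFinset.card : ENNReal) * ENNReal.ofReal (2 * r) := by
      refine (measure_mono hcov).trans ((measure_biUnion_finset_le _ _).trans (le_of_eq ?_))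
      rw [Finset.sum_congr rfl fun p _ => show volume (Icc (p - r) (p + r)) = ENNReal.ofReal (2 * r) by
        rw [Real.volume_Icc]; congr 1; ring]
      rw [Finset.sum_const, nsmul_eq_mul]
    rw [hfin.encard_eq_coe_toFinset_card]
    have h2 : volume.real E ≤ (hfin.toFinset.card : ℝ) * (2 * r) := by
      have h3 := ENNReal.toReal_mono (ENNReal.mul_ne_top (ENNReal.natCast_ne_top _) ENNReal.ofReal_ne_top) h1
      rwa [ENNReal.toReal_mul, ENNReal.toReal_natCast, ENNReal.toReal_ofReal (by positivity)] at h3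
    have h3 : T * L ^ (1 - κ ^ 2 - ε) ≤ (hfin.toFinset.card : ℝ) := by
      have h4 := hEv.trans h2
      have h5 : (hfin.toFinset.card : ℝ) * (2 * r) ≤ (hfin.toFinset.card : ℝ) * (L ^ e * L ^ (e - 1)) := by
        gcongr
      have h6 := h4.trans h5
      have e1 : T * L ^ (-(κ + (m + 1) * e) ^ 2 - e) =
          T * L ^ (1 - (κ + (m + 1) * e) ^ 2 - 3 * e) * (L ^ e * L ^ (e - 1)) := by
        rw [mul_assoc, ← Real.rpow_add hL0, ← Real.rpow_add hL0]
        congr 2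
        ring
      rw [e1] at h6
      have h7 : T * L ^ (1 - (κ + (m + 1) * e) ^ 2 - 3 * e) ≤ (hfin.toFinset.card : ℝ) :=
        le_of_mul_le_mul_right h6 (by positivity)
      refine le_trans ?_ h7
      refine mul_le_mul_of_nonneg_left ?_ hT0.le
      exact Real.rpow_le_rpow_of_exponent_le hL1 (by linarith)
    refine (ENNReal.ofReal_le_ofReal h3).trans (le_of_eq ?_)
    rw [ENNReal.ofReal_natCast]
    simp
  · rw [Set.Infinite.encard_eq hfin]
    simp

end Pool.Agent.X117.LV
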