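import Pool.Agent.X117.Lev2

/-!
# The mean number of level crossings
-/

namespace Pool.Agent.X117.LV

open Filter Topology MeasureTheory Complex H370 Set
open Pool.Agent.X117.HZ Pool.Agent.X117.Peak Pool.Agent.X117.DZ Pool.Agent.X117.JM

lemma signs_meas (σ₁ σ₂ : ℝ) (m : ℕ) (T : ℝ) : MeasurableSet (signs σ₁ σ₂ m T) := by
  have : signs σ₁ σ₂ m T = Icc T (2 * T) ∩ ({t | 0 < σ₁ * iteratedDeriv m Z t} ∩
      {t | 0 < σ₂ * iteratedDeriv (m + 1) Z t}) := by
    ext t
    simp [signs, and_assoc]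
  rw [this]
  exact measurableSet_Icc.inter ((measurableSet_lt measurable_const ((iter_meas m).const_mul _)).inter
    (measurableSet_lt measurable_const ((iter_meas (m + 1)).const_mul _)))

/-- the mean number of level crossings from above -/
theorem lev_le (m : ℕ) {κ : ℝ} (hκ : 1 / 2 ≤ κ) (hκ2 : κ ≤ 2) {σ : ℝ} (hσ : σ = 1 ∨ σ = -1) :
    ∃ C : ℝ, 1 ≤ C ∧ ∀ᶠ T : ℝ in atTop,
      ∫⁻ y in Icc (Real.log T ^ (m + κ)) (2 * Real.log T ^ (m + κ)), ((lev σ m y T).encard : ENNReal) ≤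
        ENNReal.ofReal (C * (Real.log T ^ (m + κ) * (T * Real.log T ^ (1 - κ ^ 2)))) := by
  set a : ℝ := 2 * κ - 1 with ha
  have ha0 : 0 ≤ a := by linarith
  obtain ⟨C₁, hC₁, h₁⟩ := joint_le (a := a) (b := 1) ha0 zero_le_one (by linarith) (by linarith) m σ 1
  obtain ⟨C₂, hC₂, h₂⟩ := joint_le (a := a) (b := 1) ha0 zero_le_one (by linarith) (by linarith) m σ (-1)
  refine ⟨C₁ + C₂, by linarith, ?_⟩
  filter_upwards [h₁, h₂, eventually_ge_atTop (10 : ℝ), Real.tendsto_log_atTop.eventually_ge_atTop 1]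
    with T q₁ q₂ hT10 hL1
  have hT0 : 0 < T := by linarith
  have hL0 : 0 < Real.log T := by linarith
  set L := Real.log T with hL
  set Y : ℝ := L ^ (m + κ) with hY
  have hY0 : 0 < Y := Real.rpow_pos_of_pos hL0 _
  have hder : ∀ u ∈ Icc T (2 * T), HasDerivAt (fun u => σ * iteratedDeriv m Z u)
      (σ * iteratedDeriv (m + 1) Z u) u := by
    intro u hu
    rw [iteratedDeriv_succ]
    exact ((iter_diff m (by linarith [hu.1])).hasDerivAt).const_mul σ
  have h3 := indicatrix (a := T) (b := 2 * T) (by linarith) hder ((iter_meas m).const_mul σ)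
    (measurableSet_Icc (a := Y) (b := 2 * Y))
  have h4 : ∫⁻ y in Icc Y (2 * Y), ((lev σ m y T).encard : ENNReal) =
      ∫⁻ y in Icc Y (2 * Y), (({t : ℝ | t ∈ Icc T (2 * T) ∧ σ * iteratedDeriv m Z t = y}.encard : ℕ∞) : ENNReal) :=
    rfl
  rw [h4]
  refine h3.trans ?_
  set S : Set ℝ := Icc T (2 * T) ∩ (fun u => σ * iteratedDeriv m Z u) ⁻¹' Icc Y (2 * Y) with hS
  have hSm : MeasurableSet S := measurableSet_Icc.inter (((iter_meas m).const_mul σ) measurableSet_Icc)
  set g : ℝ → ENNReal := fun t =>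
    ENNReal.ofReal (|iteratedDeriv m Z t| ^ a * |iteratedDeriv (m + 1) Z t| ^ (1 : ℝ)) with hg
  have hgm : Measurable g :=
    (((iter_meas m).abs.pow_const a).mul ((iter_meas (m + 1)).abs.pow_const 1)).ennreal_ofReal
  have hYa : 0 < Y ^ (-a) := Real.rpow_pos_of_pos hY0 _
  have habs : ∀ x : ℝ, |σ * x| = |x| := by
    intro x
    rcases hσ with rfl | rfl <;> simp
  have h5 : ∫⁻ t in S, ENNReal.ofReal |σ * iteratedDeriv (m + 1) Z t| ≤
      ENNReal.ofReal (Y ^ (-a)) * (joint σ 1 m a 1 T + joint σ (-1) m a 1 T) := by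
    have hsum : joint σ 1 m a 1 T + joint σ (-1) m a 1 T =
        ∫⁻ t, ((signs σ 1 m T).indicator g t + (signs σ (-1) m T).indicator g t) := by
      rw [lintegral_add_left (hgm.indicator (signs_meas σ 1 m T)), lintegral_indicator (signs_meas σ 1 m T),
        lintegral_indicator (signs_meas σ (-1) m T)]
      rfl
    have hmul : ENNReal.ofReal (Y ^ (-a)) *
        ∫⁻ t, ((signs σ 1 m T).indicator g t + (signs σ (-1) m T).indicator g t) =
        ∫⁻ t, ENNReal.ofReal (Y ^ (-a)) * ((signs σ 1 m T).indicator g t + (signs σ (-1) m T).indicator g t) :=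
      (lintegral_const_mul _
        ((hgm.indicator (signs_meas σ 1 m T)).add (hgm.indicator (signs_meas σ (-1) m T)))).symm
    rw [hsum, hmul, ← lintegral_indicator hSm]
    refine lintegral_mono fun t => ?_
    by_cases ht : t ∈ S
    · rw [indicator_of_mem ht]
      have hv : Y ≤ σ * iteratedDeriv m Z t := ht.2.1
      have hv0 : 0 < σ * iteratedDeriv m Z t := lt_of_lt_of_le hY0 hv
      have hv1 : Y ≤ |iteratedDeriv m Z t| := by
        rw [← sign_abs hσ hv0]
        exact hv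
      have hpt : ENNReal.ofReal |iteratedDeriv (m + 1) Z t| ≤ ENNReal.ofReal (Y ^ (-a)) * g t := by
        rw [hg, ← ENNReal.ofReal_mul hYa.le]
        refine ENNReal.ofReal_le_ofReal ?_
        rw [Real.rpow_one, ← mul_assoc]
        have h6 : 1 ≤ Y ^ (-a) * |iteratedDeriv m Z t| ^ a := by
          rw [Real.rpow_neg hY0.le, ← div_eq_inv_mul, le_div_iff₀ (Real.rpow_pos_of_pos hY0 _), one_mul]
          exact Real.rpow_le_rpow hY0.le hv1 ha0
        nlinarith [abs_nonneg (iteratedDeriv (m + 1) Z t)]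
      rw [habs]
      rcases lt_trichotomy (iteratedDeriv (m + 1) Z t) 0 with h7 | h7 | h7
      · have hmem : t ∈ signs σ (-1) m T := ⟨ht.1.1, ht.1.2, hv0, by linarith⟩
        refine hpt.trans (mul_le_mul_right ?_ _)
        show g t ≤ _ + (signs σ (-1) m T).indicator g t
        rw [indicator_of_mem hmem]
        exact le_add_self
      · rw [h7, abs_zero, ENNReal.ofReal_zero]
        exact zero_le
      · have hmem : t ∈ signs σ 1 m T := ⟨ht.1.1, ht.1.2, hv0, by linarith⟩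
        refine hpt.trans (mul_le_mul_right ?_ _)
        show g t ≤ (signs σ 1 m T).indicator g t + _
        rw [indicator_of_mem hmem]
        exact le_self_add
    · rw [indicator_of_notMem ht]
      exact zero_le
  refine h5.trans ?_
  refine (mul_le_mul_right (add_le_add q₁ q₂) _).trans ?_
  rw [← ENNReal.ofReal_add (by positivity) (by positivity), ← ENNReal.ofReal_mul hYa.le]
  refine ENNReal.ofReal_le_ofReal (le_of_eq ?_)
  have e1 : Y ^ (-a) * L ^ ((a + 1) ^ 2 / 4 + m * a + (m + 1) * 1) = Y * L ^ (1 - κ ^ 2) := by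
    rw [hY, ← Real.rpow_mul hL0.le, ← Real.rpow_add hL0, ← Real.rpow_add hL0]
    congr 1
    rw [ha]
    ring
  calc Y ^ (-a) * (C₁ * (T * L ^ ((a + 1) ^ 2 / 4 + m * a + (m + 1) * 1)) +
        C₂ * (T * L ^ ((a + 1) ^ 2 / 4 + m * a + (m + 1) * 1))) =
        (C₁ + C₂) * T * (Y ^ (-a) * L ^ ((a + 1) ^ 2 / 4 + m * a + (m + 1) * 1)) := by ring
    _ = _ := by
      rw [e1]
      ring

/-- the mean number of level crossings from below -/
theorem mean_ge (m : ℕ) (κ : ℝ) {ε : ℝ} (hε : 0 < ε) {σ : ℝ} (hσ : σ = 1 ∨ σ = -1) :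
    ∀ᶠ T : ℝ in atTop, ENNReal.ofReal (Real.log T ^ (m + κ) * (T * Real.log T ^ (1 - κ ^ 2 - ε))) ≤
      ∫⁻ y in Icc (Real.log T ^ (m + κ)) (2 * Real.log T ^ (m + κ)), ((lev σ m y T).encard : ENNReal) := by
  have hcont : ContinuousAt (fun e : ℝ => -(κ + e) ^ 2 - e) 0 := by
    refine Continuous.continuousAt ?_
    fun_prop
  have hev : ∀ᶠ e : ℝ in 𝓝[>] 0, -κ ^ 2 - ε < -(κ + e) ^ 2 - e := by
    refine (hcont.tendsto.mono_left nhdsWithin_le_nhds).eventually (lt_mem_nhds ?_)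
    simp only [add_zero, sub_zero]
    linarith
  obtain ⟨e, he1, he3⟩ := (hev.and self_mem_nhdsWithin).exists
  have he0 : 0 < e := he3
  have hLe : Tendsto (fun T : ℝ => Real.log T ^ e) atTop atTop :=
    (tendsto_rpow_atTop he0).comp Real.tendsto_log_atTop
  filter_upwards [lev_ge m (κ + e) he0 hσ, hLe.eventually_ge_atTop 2,
    Real.tendsto_log_atTop.eventually_ge_atTop 1, eventually_ge_atTop (1 : ℝ)] with T hT hL2 hL1 hT1
  have hT0 : 0 < T := by linarith
  have hL0 : 0 < Real.log T := by linarith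
  set L := Real.log T with hL
  set Y : ℝ := L ^ (m + κ) with hY
  have hY0 : 0 < Y := Real.rpow_pos_of_pos hL0 _
  have h1 : 2 * Y ≤ L ^ (m + (κ + e)) := by
    have e1 : L ^ (m + (κ + e)) = L ^ e * Y := by
      rw [hY, ← Real.rpow_add hL0]
      congr 1
      ring
    rw [e1]
    gcongr
  have h2 : ∀ y ∈ Icc Y (2 * Y), ENNReal.ofReal (T * L ^ (1 - κ ^ 2 - ε)) ≤ ((lev σ m y T).encard : ENNReal) := by
    intro y hy
    refine le_trans (ENNReal.ofReal_le_ofReal ?_) (hT y ?_)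
    · refine mul_le_mul_of_nonneg_left ?_ hT0.le
      exact Real.rpow_le_rpow_of_exponent_le hL1 (by linarith)
    · rw [abs_of_nonneg (hY0.le.trans hy.1)]
      exact hy.2.trans h1
  calc ENNReal.ofReal (Y * (T * L ^ (1 - κ ^ 2 - ε)))
      = ∫⁻ _ in Icc Y (2 * Y), ENNReal.ofReal (T * L ^ (1 - κ ^ 2 - ε)) := by
        rw [setLIntegral_const, Real.volume_Icc, mul_comm, ENNReal.ofReal_mul (by positivity)]
        congr 2
        ring
    _ ≤ _ := setLIntegral_mono' measurableSet_Icc h2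

end Pool.Agent.X117.LV
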