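import Pool.Agent.X117.Sup4

/-!
# Zeros near the points at which zeta is large: moments of the local number of zeros
-/

namespace Pool.Agent.X117.SZ

open Filter Topology MeasureTheory Complex H370 Set Metric
open Pool.Agent.Y745.UP Pool.Agent.Y419.UP Pool.Agent.X117.DZ

/-- the zeros at distance at most `x` from `1/2 + i t` -/
def nb (x t : ℝ) : Set ℂ := {z : ℂ | riemannZeta z = 0 ∧ ‖1 / 2 + I * t - z‖ ≤ x}

lemma nb_fin {x t : ℝ} (hx : x ≤ 1 / 4) (ht : 1 ≤ t) : (nb x t).Finite := by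
  refine (H370.zeta_zeros_finite (t + 1)).subset ?_
  rintro z ⟨h1, h2⟩
  have h3 := (Complex.abs_re_le_norm (1 / 2 + I * t - z)).trans h2
  have h4 := (Complex.abs_im_le_norm (1 / 2 + I * t - z)).trans h2
  have e1 : (1 / 2 + I * (t : ℂ) - z).re = 1 / 2 - z.re := by simp
  have e2 : (1 / 2 + I * (t : ℂ) - z).im = t - z.im := by simp
  rw [e1, abs_le] at h3
  rw [e2, abs_le] at h4
  refine ⟨?_, ?_, ?_, ?_, h1⟩ <;> linarith [h3.1, h3.2, h4.1, h4.2]

/-- the mean value of the majorant -/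
lemma major {k A : ℝ} (hk : 0 < k) (hk2 : k ≤ 2) (hA : 0 < A) : ∃ C : ℝ, 0 < C ∧ ∀ᶠ T : ℝ in atTop,
    ∃ P : ℝ → ℝ, (∀ t, 0 ≤ P t) ∧ (∀ t ∈ Icc T (2 * T), ∀ s : ℂ, ‖s - (1 / 2 + I * t)‖ ≤ A / Real.log T →
      ‖riemannZeta s‖ ≤ P t ^ (1 / (2 * k))) ∧
      ∫⁻ t in Icc T (2 * T), ENNReal.ofReal (P t) ≤ ENNReal.ofReal (C * (T * Real.log T ^ (k ^ 2))) := by
  obtain ⟨C, hC, h⟩ := Phi_int2 hk hk2 hA
  refine ⟨1 / (Real.pi * A ^ 2) * C, by positivity, ?_⟩
  filter_upwards [h, eventually_ge_atTop (20 : ℝ), Real.tendsto_log_atTop.eventually_ge_atTop (8 * A),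
    Real.tendsto_log_atTop.eventually_ge_atTop 1] with T hT hT20 hL8 hL1
  have hL0 : 0 < Real.log T := by linarith
  set L := Real.log T with hL
  set R : ℝ := A / L with hR
  have hR0 : 0 < R := by positivity
  have hR8 : R ≤ 1 / 8 := by
    rw [hR, div_le_div_iff₀ hL0 (by norm_num)]
    linarith
  set K : ℝ := 1 / (Real.pi * R ^ 2) with hK
  have hK0 : 0 < K := by positivity
  have hPhi : ∀ t, 0 ≤ K * Phi k (3 * R) R t := fun t =>
    mul_nonneg hK0.le (Phi_nonneg (by linarith) hR0.le t)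
  refine ⟨fun t => K * Phi k (3 * R) R t, hPhi, ?_, ?_⟩
  · intro t ht s hs
    have h1 := (Complex.abs_re_le_norm (s - (1 / 2 + I * t))).trans hs
    have h2 := (Complex.abs_im_le_norm (s - (1 / 2 + I * t))).trans hs
    have e1 : (s - (1 / 2 + I * (t : ℂ))).re = s.re - 1 / 2 := by simp
    have e2 : (s - (1 / 2 + I * (t : ℂ))).im = s.im - t := by simp
    rw [e1] at h1
    rw [e2] at h2
    have h3 := zeta_le_Phi (ρ := 3 * R) hk hR0 (by linarith) (by linarith) (by linarith) (by linarith [ht.1]) h1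
      (by linarith)
    have h4 := Real.rpow_le_rpow (Real.rpow_nonneg (norm_nonneg _) _) h3
      (show 0 ≤ 1 / (2 * k) by positivity)
    rwa [← Real.rpow_mul (norm_nonneg _), mul_one_div_cancel (by positivity), Real.rpow_one] at h4
  · have hcont : Continuous fun t => K * Phi k (3 * R) R t := continuous_const.mul (Phi_cont hk _ _)
    have h5 : ∫⁻ t in Icc T (2 * T), ENNReal.ofReal (K * Phi k (3 * R) R t) ≤
        ∫⁻ t in Ioc (T - 1) (2 * T + 1), ENNReal.ofReal (K * Phi k (3 * R) R t) :=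
      lintegral_mono_set fun t ht => ⟨by linarith [ht.1], by linarith [ht.2]⟩
    refine h5.trans ?_
    rw [← ofReal_integral_eq_lintegral_ofReal ((hcont.integrableOn_Icc).mono_set Ioc_subset_Icc_self)
      (Filter.Eventually.of_forall hPhi), ← intervalIntegral.integral_of_le (by linarith)]
    refine ENNReal.ofReal_le_ofReal ?_
    rw [intervalIntegral.integral_const_mul]
    refine (mul_le_mul_of_nonneg_left hT hK0.le).trans (le_of_eq ?_)
    have hL2 : L ^ (k ^ 2 - 2) = L ^ (k ^ 2) / L ^ 2 := by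
      rw [Real.rpow_sub hL0]
      congr 1
      norm_cast
    rw [hL2, hK, hR]
    field_simp

/-- the moments of zeta with the nearby zeros divided out -/
theorem divided {k x D : ℝ} (hk : 0 < k) (hk2 : k ≤ 2) (hx : 0 < x) (hD : 0 < D) : ∃ C : ℝ, 0 < C ∧
    ∀ᶠ T : ℝ in atTop, ∫⁻ t in Icc T (2 * T), ENNReal.ofReal ((‖riemannZeta (1 / 2 + I * t)‖ *
      ∏ᶠ z ∈ nb (x / Real.log T) t, (D * (x / Real.log T) / ‖1 / 2 + I * t - z‖) ^
        analyticOrderNatAt riemannZeta z) ^ (2 * k)) ≤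
      ENNReal.ofReal (C * (T * Real.log T ^ (k ^ 2))) := by
  obtain ⟨C, hC, h⟩ := major hk hk2 (show 0 < (1 + D) * x by positivity)
  refine ⟨C, hC, ?_⟩
  filter_upwards [h, eventually_ge_atTop (20 : ℝ),
    Real.tendsto_log_atTop.eventually_ge_atTop (4 * ((1 + D) * x) + 1)] with T hT hT20 hL8
  have hDx : 0 < (1 + D) * x := by positivity
  have hL0 : 0 < Real.log T := by linarith
  set L := Real.log T with hL
  obtain ⟨P, hP0, hPb, hPi⟩ := hT
  refine (setLIntegral_mono' measurableSet_Icc fun t ht => ENNReal.ofReal_le_ofReal ?_).trans hPi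
  set δ : ℝ := x / L with hδ
  have hδ0 : 0 < δ := by positivity
  have hRL : (1 + D) * x / L ≤ 1 / 4 := by
    rw [div_le_div_iff₀ hL0 (by norm_num)]
    linarith
  have hRδ : (1 + D) * x / L = δ + D * δ := by rw [hδ]; ring
  have hDδ : 0 < D * δ := by positivity
  have hδ4 : δ ≤ 1 / 4 := by linarith
  have hfin := nb_fin hδ4 (show 1 ≤ t by linarith [ht.1])
  rw [finprod_mem_eq_finite_toFinset_prod _ hfin]
  set Z := hfin.toFinset with hZ
  have hZm : ∀ z ∈ Z, riemannZeta z = 0 ∧ ‖1 / 2 + I * t - z‖ ≤ δ := fun z hz => by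
    rwa [hZ, Set.Finite.mem_toFinset] at hz
  have hPt := hPb t ht
  rw [hRδ] at hPt hRL
  have h1 := schwarz (f := riemannZeta) (U := U) (c := 1 / 2 + I * t) (r := δ) (R := δ + D * δ)
    (M := P t ^ (1 / (2 * k))) U_open zeta_U hδ0.le (by linarith) (ball_U (by linarith [ht.1])) Z
    (analyticOrderNatAt riemannZeta) (fun z hz => by
      rw [norm_sub_rev]
      exact (hZm z hz).2) (fun z _ => ord_le _ z) hPt (1 / 2 + I * t) (by simpa using (by positivity))
  rw [add_sub_cancel_left] at h1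
  have hM0 : 0 ≤ P t ^ (1 / (2 * k)) := Real.rpow_nonneg (hP0 t) _
  have h2 : ‖riemannZeta (1 / 2 + I * t)‖ *
      ∏ z ∈ Z, (D * δ / ‖1 / 2 + I * t - z‖) ^ analyticOrderNatAt riemannZeta z ≤ P t ^ (1 / (2 * k)) := by
    have h3 : 0 ≤ ∏ z ∈ Z, (D * δ / ‖1 / 2 + I * t - z‖) ^ analyticOrderNatAt riemannZeta z :=
      Finset.prod_nonneg fun z _ => by positivity
    refine (mul_le_mul_of_nonneg_right h1 h3).trans ?_
    rw [mul_assoc, ← Finset.prod_mul_distrib]
    refine mul_le_of_le_one_right hM0 (Finset.prod_le_one (fun z _ => by positivity) fun z _ => ?_)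
    rw [← mul_pow]
    refine pow_le_one₀ (by positivity) ?_
    rcases eq_or_ne (‖1 / 2 + I * (t : ℂ) - z‖) 0 with h0 | h0
    · rw [h0]
      simp
    · rw [div_mul_div_cancel₀ hDδ.ne', div_self h0]
  have h4 := Real.rpow_le_rpow (mul_nonneg (norm_nonneg _) (Finset.prod_nonneg fun z _ => by positivity)) h2
    (show 0 ≤ 2 * k by linarith)
  rwa [← Real.rpow_mul (hP0 t), one_div_mul_cancel (by positivity), Real.rpow_one] at h4

/-- the number of zeros at distance at most `x` from `1/2 + i t`, with multiplicity -/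
noncomputable def cnt (x t : ℝ) : ℕ := ∑ᶠ z ∈ nb x t, analyticOrderNatAt riemannZeta z

/-- exponential moments of the number of nearby zeros, derivatives -/
theorem exp_cnt_deriv {k x : ℝ} (hk : 0 < k) (hk2 : k ≤ 2) (hx : 0 < x) (B : ℝ) (j : ℕ) : ∃ C : ℝ, 0 < C ∧
    ∀ᶠ T : ℝ in atTop, ∫⁻ t in Icc T (2 * T), ENNReal.ofReal (‖iteratedDeriv j riemannZeta (1 / 2 + I * t)‖ ^ (2 * k) *
      Real.exp (B * cnt (x / Real.log T) t)) ≤
      ENNReal.ofReal (C * (T * Real.log T ^ (k ^ 2 + 2 * k * j))) := by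
  set q : ℝ := Real.exp (-(B / (2 * k))) with hq
  have hq0 : 0 < q := Real.exp_pos _
  set D : ℝ := 2 / q with hD
  have hD0 : 0 < D := by positivity
  obtain ⟨C, hC, h⟩ := major hk hk2 (show 0 < (1 + D) * x by positivity)
  have hjf : (0 : ℝ) < j.factorial := by exact_mod_cast j.factorial_pos
  refine ⟨(j.factorial / x ^ j) ^ (2 * k) * C, by positivity, ?_⟩
  filter_upwards [h, eventually_ge_atTop (20 : ℝ),
    Real.tendsto_log_atTop.eventually_ge_atTop (4 * ((1 + D) * x) + 1)] with T hT hT20 hL8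
  have hDx : 0 < (1 + D) * x := by positivity
  have hL0 : 0 < Real.log T := by linarith
  set L := Real.log T with hL
  obtain ⟨P, hP0, hPb, hPi⟩ := hT
  set δ : ℝ := x / L with hδ
  have hδ0 : 0 < δ := by positivity
  have hRL : (1 + D) * x / L ≤ 1 / 4 := by
    rw [div_le_div_iff₀ hL0 (by norm_num)]
    linarith
  have hRδ : (1 + D) * x / L = δ + D * δ := by rw [hδ]; ring
  have hDδ : 0 < D * δ := by positivity
  rw [hRδ] at hPb hRL
  have hδ4 : δ ≤ 1 / 4 := by linarith
  set E : ℝ := (j.factorial / δ ^ j) ^ (2 * k) with hE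
  have hE0 : 0 < E := by positivity
  have hpt : ∀ t ∈ Icc T (2 * T), ENNReal.ofReal (‖iteratedDeriv j riemannZeta (1 / 2 + I * t)‖ ^ (2 * k) *
      Real.exp (B * cnt δ t)) ≤ ENNReal.ofReal (E * P t) := by
    intro t ht
    refine ENNReal.ofReal_le_ofReal ?_
    have hfin := nb_fin hδ4 (show 1 ≤ t by linarith [ht.1])
    unfold cnt
    rw [finsum_mem_eq_finite_toFinset_sum _ hfin]
    set Z := hfin.toFinset with hZ
    have hZm : ∀ z ∈ Z, riemannZeta z = 0 ∧ ‖1 / 2 + I * t - z‖ ≤ δ := fun z hz => by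
      rwa [hZ, Set.Finite.mem_toFinset] at hz
    set N := ∑ z ∈ Z, analyticOrderNatAt riemannZeta z with hN
    have hM0 : 0 ≤ P t ^ (1 / (2 * k)) := Real.rpow_nonneg (hP0 t) _
    have h1 := schwarz (f := riemannZeta) (U := U) (c := 1 / 2 + I * t) (r := δ) (R := δ + D * δ)
      (M := P t ^ (1 / (2 * k))) U_open zeta_U hδ0.le (by linarith) (ball_U (by linarith [ht.1])) Z
      (analyticOrderNatAt riemannZeta) (fun z hz => by
        rw [norm_sub_rev]
        exact (hZm z hz).2) (fun z _ => ord_le _ z) (hPb t ht)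
    rw [add_sub_cancel_left] at h1
    have htop : top riemannZeta (1 / 2 + I * t) δ ≤ P t ^ (1 / (2 * k)) * q ^ N := by
      refine top_le hδ0.le fun u hu => (h1 u (by linarith)).trans ?_
      refine mul_le_mul_of_nonneg_left ?_ hM0
      rw [hN, ← Finset.prod_pow_eq_pow_sum]
      refine Finset.prod_le_prod (fun z _ => by positivity) fun z hz => ?_
      refine pow_le_pow_left₀ (by positivity) ?_ _
      rw [div_le_iff₀ hDδ]
      have e3 : u - z = (u - (1 / 2 + I * t)) + (1 / 2 + I * t - z) := by ring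
      have e4 : q * (D * δ) = 2 * δ := by rw [hD]; field_simp
      rw [e3, e4]
      linarith [norm_add_le (u - (1 / 2 + I * (t : ℂ))) (1 / 2 + I * t - z), (hZm z hz).2]
    have h6 := deriv_le_top (z := 1 / 2 + I * (t : ℂ)) (by simp; linarith [ht.1]) hδ0 (by linarith) j
    have h8 : ‖iteratedDeriv j riemannZeta (1 / 2 + I * t)‖ ≤
        j.factorial / δ ^ j * (P t ^ (1 / (2 * k)) * q ^ N) := by
      refine h6.trans ?_
      rw [mul_div_right_comm]
      exact mul_le_mul_of_nonneg_left htop (by positivity)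
    have h9 := Real.rpow_le_rpow (norm_nonneg _) h8 (show 0 ≤ 2 * k by linarith)
    rw [Real.mul_rpow (by positivity) (by positivity), Real.mul_rpow hM0 (by positivity),
      ← Real.rpow_mul (hP0 t), one_div_mul_cancel (by positivity), Real.rpow_one] at h9
    have e7 : (q ^ N) ^ (2 * k) * Real.exp (B * (N : ℝ)) = 1 := by
      rw [← Real.rpow_natCast, ← Real.rpow_mul hq0.le, hq, ← Real.exp_mul, ← Real.exp_add]
      have : -(B / (2 * k)) * ((N : ℝ) * (2 * k)) + B * N = 0 := by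
        field_simp
        ring
      rw [this, Real.exp_zero]
    calc ‖iteratedDeriv j riemannZeta (1 / 2 + I * t)‖ ^ (2 * k) * Real.exp (B * (N : ℝ))
        ≤ ((j.factorial / δ ^ j) ^ (2 * k) * (P t * (q ^ N) ^ (2 * k))) * Real.exp (B * (N : ℝ)) :=
          mul_le_mul_of_nonneg_right h9 (Real.exp_nonneg _)
      _ = E * P t * ((q ^ N) ^ (2 * k) * Real.exp (B * (N : ℝ))) := by
          rw [hE]
          ring
      _ = E * P t := by rw [e7, mul_one]
  refine (setLIntegral_mono' measurableSet_Icc hpt).trans ?_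
  simp_rw [ENNReal.ofReal_mul hE0.le]
  rw [lintegral_const_mul' _ _ ENNReal.ofReal_ne_top]
  refine (mul_le_mul' le_rfl hPi).trans ?_
  rw [← ENNReal.ofReal_mul hE0.le]
  refine ENNReal.ofReal_le_ofReal (le_of_eq ?_)
  have eE : E = (j.factorial / x ^ j) ^ (2 * k) * L ^ (2 * k * j) := by
    rw [hE, hδ]
    have e1 : (j.factorial : ℝ) / (x / L) ^ j = j.factorial / x ^ j * L ^ j := by
      rw [div_pow]
      field_simp
    rw [e1, Real.mul_rpow (by positivity) (by positivity), ← Real.rpow_natCast L, ← Real.rpow_mul hL0.le,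
      mul_comm (j : ℝ) (2 * k)]
  rw [eE, Real.rpow_add hL0]
  ring

/-- a finite cover -/
lemma lint_cover (g : ℝ → ENNReal) (J : ℂ → Set ℝ) (Z : Finset ℂ) :
    ∫⁻ t in ⋃ z ∈ Z, J z, g t ≤ ∑ z ∈ Z, ∫⁻ t in J z, g t := by
  classical
  induction Z using Finset.induction_on with
  | empty => simp
  | insert a s ha ih =>
    rw [Finset.sum_insert ha, Finset.set_biUnion_insert]
    exact (lintegral_union_le _ _ _).trans (add_le_add le_rfl ih)

/-- the `t` with at least `n` zeros nearby -/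
def near (n : ℕ) (x T : ℝ) : Set ℝ := {t : ℝ | T ≤ t ∧ t ≤ 2 * T ∧ n ≤ cnt (x / Real.log T) t}

/-- the contribution of the `t` with `n` nearby zeros -/
theorem mass_near {k A : ℝ} (hk : 0 < k) (hk2 : k ≤ 2) (hA : 1 ≤ A) (j : ℕ) : ∃ C : ℝ, 0 < C ∧ ∀ᶠ T : ℝ in atTop,
    ∀ (n : ℕ) (x : ℝ), 1 ≤ n → 0 < x → 2 * x ≤ A →
    ∫⁻ t in near n x T, ENNReal.ofReal (‖iteratedDeriv j riemannZeta (1 / 2 + I * t)‖ ^ (2 * k)) ≤
      ENNReal.ofReal (C * (2 * x / A) ^ (2 * k * (n - j) + 1) * (T * Real.log T ^ (k ^ 2 + 2 * k * j))) := by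
  classical
  obtain ⟨C, hC, h⟩ := crowd_sum2 hk hk2 hA
  have hjf : (0 : ℝ) < j.factorial := by exact_mod_cast j.factorial_pos
  refine ⟨A * C * (j.factorial : ℝ) ^ (2 * k) * (2 / A) ^ (2 * k * j), by positivity, ?_⟩
  filter_upwards [h, eventually_ge_atTop (20 : ℝ), Real.tendsto_log_atTop.eventually_ge_atTop (8 * A + 1)]
    with T hT hT20 hL8
  intro n x hn hx hxA
  have hA0 : 0 < A := by linarith
  have hL0 : 0 < Real.log T := by linarith
  set L := Real.log T with hL
  set δ : ℝ := x / L with hδ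
  have hδ0 : 0 < δ := by positivity
  have h2δ : 2 * x / L = 2 * δ := by rw [hδ]; ring
  have hAL : A / L ≤ 1 / 8 := by
    rw [div_le_div_iff₀ hL0 (by norm_num)]
    linarith
  have hδA : 2 * δ ≤ A / L := by
    rw [← h2δ]
    exact div_le_div_of_nonneg_right hxA hL0.le
  have hδ4 : δ ≤ 1 / 8 := by linarith
  set F : Set ℂ := {z : ℂ | riemannZeta z = 0 ∧ |z.re - 1 / 2| ≤ A / L ∧ T - 1 / 2 ≤ z.im ∧ z.im ≤ 2 * T + 1 / 2 ∧
    Crowd riemannZeta n (2 * x / L) z} with hF
  have hFfin : F.Finite := by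
    refine (H370.zeta_zeros_finite (2 * T + 1)).subset ?_
    rintro z ⟨h1, h2, h3, h4, -⟩
    rw [abs_le] at h2
    refine ⟨?_, ?_, ?_, ?_, h1⟩ <;> linarith [h2.1, h2.2]
  set Z := hFfin.toFinset with hZ
  have hZm : ∀ z, z ∈ Z ↔ z ∈ F := fun z => by rw [hZ, Set.Finite.mem_toFinset]
  have hsum := hT n (2 * x) (by linarith) hxA Z fun z hz => (hZm z).1 hz
  rw [h2δ] at hsum
  set J : ℂ → Set ℝ := fun z => {t : ℝ | ‖1 / 2 + I * t - z‖ ≤ δ} with hJ
  have hJm : ∀ z, MeasurableSet (J z) := by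
    intro z
    refine IsClosed.measurableSet ?_
    exact isClosed_le (by fun_prop) continuous_const
  -- the cover
  have hcov : near n x T ⊆ ⋃ z ∈ Z, J z := by
    rintro t ⟨ht1, ht2, ht3⟩
    have hfin := nb_fin (x := δ) (t := t) (by linarith) (by linarith)
    unfold cnt at ht3
    rw [finsum_mem_eq_finite_toFinset_sum _ hfin] at ht3
    set S := hfin.toFinset with hS
    have hSm : ∀ z ∈ S, riemannZeta z = 0 ∧ ‖1 / 2 + I * t - z‖ ≤ δ := fun z hz => by
      rwa [hS, Set.Finite.mem_toFinset] at hz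
    have hSne : S.Nonempty := by
      rw [Finset.nonempty_iff_ne_empty]
      intro h0
      rw [h0, Finset.sum_empty] at ht3
      omega
    obtain ⟨z, hz⟩ := hSne
    obtain ⟨hz0, hz1⟩ := hSm z hz
    have h3 := (Complex.abs_re_le_norm (1 / 2 + I * t - z)).trans hz1
    have h4 := (Complex.abs_im_le_norm (1 / 2 + I * t - z)).trans hz1
    have e1 : (1 / 2 + I * (t : ℂ) - z).re = 1 / 2 - z.re := by simp
    have e2 : (1 / 2 + I * (t : ℂ) - z).im = t - z.im := by simp
    rw [e1, abs_le] at h3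
    rw [e2, abs_le] at h4
    rw [mem_iUnion₂]
    refine ⟨z, (hZm z).2 ⟨hz0, ?_, by linarith [h4.1, h4.2], by linarith [h4.1, h4.2], S, ?_, ht3⟩, hz1⟩
    · rw [abs_le]
      constructor <;> linarith [h3.1, h3.2]
    · intro w hw
      refine ⟨(hSm w hw).1, ?_⟩
      have e3 : w - z = (1 / 2 + I * t - z) - (1 / 2 + I * t - w) := by ring
      rw [e3, h2δ]
      linarith [norm_sub_le (1 / 2 + I * (t : ℂ) - z) (1 / 2 + I * t - w), (hSm w hw).2]
  refine (lintegral_mono_set hcov).trans ((lint_cover _ J Z).trans ?_)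
  set E : ℝ := (j.factorial / δ ^ j) ^ (2 * k) with hE
  have hE0 : 0 < E := by positivity
  -- one interval
  have hone : ∀ z ∈ Z, ∫⁻ t in J z, ENNReal.ofReal (‖iteratedDeriv j riemannZeta (1 / 2 + I * t)‖ ^ (2 * k)) ≤
      ENNReal.ofReal (2 * δ * E * ((analyticOrderNatAt riemannZeta z : ℝ) * top riemannZeta z (2 * δ) ^ (2 * k))) := by
    intro z hz
    obtain ⟨a1, a2, a3, a4, a5⟩ := (hZm z).1 hz
    have hb : closedBall z (2 * δ) ⊆ U := by
      intro s hs
      rw [mem_closedBall, dist_eq_norm] at hs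
      have h1 := (Complex.abs_im_le_norm (s - z)).trans hs
      rw [Complex.sub_im, abs_le] at h1
      show 1 < s.im
      linarith [h1.1]
    obtain ⟨M, hM⟩ := (isCompact_closedBall z (2 * δ)).exists_bound_of_continuousOn (zeta_U.continuousOn.mono hb)
    have hpt : ∀ t ∈ J z, ENNReal.ofReal (‖iteratedDeriv j riemannZeta (1 / 2 + I * t)‖ ^ (2 * k)) ≤
        ENNReal.ofReal (E * top riemannZeta z (2 * δ) ^ (2 * k)) := by
      intro t ht
      have ht' : ‖1 / 2 + I * t - z‖ ≤ δ := ht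
      have h4 := (Complex.abs_im_le_norm (1 / 2 + I * t - z)).trans ht'
      have e2 : (1 / 2 + I * (t : ℂ) - z).im = t - z.im := by simp
      rw [e2, abs_le] at h4
      have h6 := deriv_le_top (z := 1 / 2 + I * (t : ℂ)) (by simp; linarith [h4.1, h4.2]) hδ0 (by linarith) j
      have h7 : top riemannZeta (1 / 2 + I * t) δ ≤ top riemannZeta z (2 * δ) := by
        refine top_le hδ0.le fun s hs => ?_
        refine le_top (M := M) (fun u hu => hM u (by rwa [mem_closedBall, dist_eq_norm])) ?_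
        have e3 : s - z = (s - (1 / 2 + I * t)) + (1 / 2 + I * t - z) := by ring
        rw [e3]
        linarith [norm_add_le (s - (1 / 2 + I * (t : ℂ))) (1 / 2 + I * t - z)]
      have h8 : ‖iteratedDeriv j riemannZeta (1 / 2 + I * t)‖ ≤
          j.factorial / δ ^ j * top riemannZeta z (2 * δ) := by
        refine h6.trans ?_
        rw [mul_div_right_comm]
        exact mul_le_mul_of_nonneg_left h7 (by positivity)
      have h9 := Real.rpow_le_rpow (norm_nonneg _) h8 (show 0 ≤ 2 * k by linarith)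
      rw [Real.mul_rpow (by positivity) (top_nonneg _ _ _)] at h9
      exact ENNReal.ofReal_le_ofReal h9
    have hsubJ : J z ⊆ Icc (z.im - δ) (z.im + δ) := by
      intro t ht
      have ht' : ‖1 / 2 + I * t - z‖ ≤ δ := ht
      have h4 := (Complex.abs_im_le_norm (1 / 2 + I * t - z)).trans ht'
      have e2 : (1 / 2 + I * (t : ℂ) - z).im = t - z.im := by simp
      rw [e2, abs_le] at h4
      constructor <;> linarith [h4.1, h4.2]
    have hord : (1 : ℝ) ≤ (analyticOrderNatAt riemannZeta z : ℝ) := by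
      exact_mod_cast one_le_ord (show 0 < z.im by linarith) a1
    have htop0 : 0 ≤ E * top riemannZeta z (2 * δ) ^ (2 * k) :=
      mul_nonneg hE0.le (Real.rpow_nonneg (top_nonneg _ _ _) _)
    calc ∫⁻ t in J z, ENNReal.ofReal (‖iteratedDeriv j riemannZeta (1 / 2 + I * t)‖ ^ (2 * k))
        ≤ ∫⁻ _ in J z, ENNReal.ofReal (E * top riemannZeta z (2 * δ) ^ (2 * k)) :=
          setLIntegral_mono' (hJm z) hpt
      _ = ENNReal.ofReal (E * top riemannZeta z (2 * δ) ^ (2 * k)) * volume (J z) := by rw [setLIntegral_const]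
      _ ≤ ENNReal.ofReal (E * top riemannZeta z (2 * δ) ^ (2 * k)) * ENNReal.ofReal (2 * δ) := by
          gcongr
          refine (measure_mono hsubJ).trans (le_of_eq ?_)
          rw [Real.volume_Icc]
          congr 1
          ring
      _ = ENNReal.ofReal (E * top riemannZeta z (2 * δ) ^ (2 * k) * (2 * δ)) := by
          rw [ENNReal.ofReal_mul htop0]
      _ ≤ _ := by
          refine ENNReal.ofReal_le_ofReal ?_
          have h5 : 0 ≤ 2 * δ := by linarith
          nlinarith [mul_nonneg h5 htop0]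
  refine (Finset.sum_le_sum hone).trans ?_
  rw [← ENNReal.ofReal_sum_of_nonneg fun z _ => by
    have := top_nonneg riemannZeta z (2 * δ)
    positivity]
  refine ENNReal.ofReal_le_ofReal ?_
  rw [← Finset.mul_sum]
  refine (mul_le_mul_of_nonneg_left hsum (by positivity)).trans (le_of_eq ?_)
  have hr0 : 0 < 2 * x / A := by positivity
  have eE : E = (j.factorial : ℝ) ^ (2 * k) * (L ^ (2 * k * j) * x ^ (-(2 * k * j))) := by
    rw [hE, Real.div_rpow (by positivity) (by positivity), ← Real.rpow_natCast δ, ← Real.rpow_mul hδ0.le,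
      hδ, Real.div_rpow hx.le hL0.le, Real.rpow_neg hx.le, mul_comm (j : ℝ) (2 * k)]
    field_simp
  have e5 : (2 * x / A) ^ (2 * k * ((n : ℝ) - j) + 1) =
      (2 * x / A) ^ (2 * k * n) * (x ^ (-(2 * k * j)) * (2 / A) ^ (-(2 * k * j))) * (2 * x / A) := by
    have e6 : 2 * k * ((n : ℝ) - j) + 1 = 2 * k * n + -(2 * k * j) + 1 := by ring
    rw [e6, Real.rpow_add hr0, Real.rpow_one, Real.rpow_add hr0]
    congr 2
    have e7 : 2 * x / A = x * (2 / A) := by ring
    rw [e7, Real.mul_rpow hx.le (by positivity)]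
  have e8 : (2 / A : ℝ) ^ (2 * k * j) * (2 / A) ^ (-(2 * k * j)) = 1 := by
    rw [← Real.rpow_add (by positivity), add_neg_cancel, Real.rpow_zero]
  rw [e5, eE, Real.rpow_add hL0, Real.rpow_one, Real.rpow_add hL0]
  have e9 : 2 * δ * L = A * (2 * x / A) := by
    rw [hδ]
    field_simp
  calc 2 * δ * ((j.factorial : ℝ) ^ (2 * k) * (L ^ (2 * k * j) * x ^ (-(2 * k * j)))) *
        (C * (2 * x / A) ^ (2 * k * n) * (T * (L ^ k ^ 2 * L)))
      = (2 * δ * L) * ((j.factorial : ℝ) ^ (2 * k) * (L ^ (2 * k * j) * x ^ (-(2 * k * j)))) *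
        (C * (2 * x / A) ^ (2 * k * n) * (T * L ^ k ^ 2)) * 1 := by ring
    _ = _ := by
      rw [e9, ← e8]
      ring

end Pool.Agent.X117.SZ
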