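import Pool.Agent.Y496.UP.OUT
import Pool.Agent.Y568.UP.STRIP
import Pool.Agent.Y732.UP.SUBA
import Pool.Agent.X117.Sup5

/-!
# Moments near the critical line with explicit dependence on the distance
-/

namespace Pool.Agent.X117.MS

open Filter Topology MeasureTheory Complex H370
open Pool.Agent.Y745.UP
open Pool.Agent.Y755
open Pool.Agent.W184 (zn zn_nonneg zn_cont)
open Pool.Agent.H306R2 (dv aF)
open Pool.Agent.Y496.UP Pool.Agent.Y568.UP

/-- the bound on the outer lines -/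
theorem out_exp {α : ℝ} (hα : 0 < α) (hα2 : α ≤ 2) : ∃ lam K0 A : ℝ, 1 ≤ lam ∧ 0 < K0 ∧ 1 ≤ A ∧ ∀ K : ℝ, lam ≤ K →
    1 ≤ Real.exp ((K0 + 2 * K) * (2 * α)) * A ∧
    ∀ᶠ T : ℝ in atTop, ∀ x : ℝ, lam / Real.log T ≤ |x| → |x| ≤ K / Real.log T →
    ∫ t in (T / 4)..(4 * T), ‖riemannZeta (((1 / 2 + x : ℝ) : ℂ) + t * I)‖ ^ (2 * α) ≤
      Real.exp ((K0 + 2 * K) * (2 * α)) * A * (T * Real.log T ^ (α ^ 2)) := by
  obtain ⟨lam, A, hl, hA, hR⟩ := right_side hα hα2
  obtain ⟨K0, hK0, hfe⟩ := Pool.Agent.Y914.LD.left_bound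
  refine ⟨lam, K0, A, hl, hK0, hA, fun K hK => ⟨?_, ?_⟩⟩
  · have h1 : 1 ≤ Real.exp ((K0 + 2 * K) * (2 * α)) := Real.one_le_exp (by
      have : 0 ≤ K := by linarith
      positivity)
    calc (1 : ℝ) = 1 * 1 := (one_mul 1).symm
      _ ≤ _ := mul_le_mul h1 hA (by norm_num) (Real.exp_pos _).le
  · filter_upwards [hR, Real.tendsto_log_atTop.eventually_ge_atTop (16 * K), eventually_ge_atTop 4] with T g1 g2 g3 x hx1 hx2
    have hT : 0 < T := by linarith
    have hK1 : 1 ≤ K := by linarith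
    have hK00 : 0 ≤ K := by linarith
    have hL : 0 < Real.log T := by linarith
    have hx16 : |x| ≤ 1 / 16 := by
      refine hx2.trans ?_
      rw [div_le_div_iff₀ hL (by norm_num)]
      linarith
    have hE1 : 1 ≤ Real.exp ((K0 + 2 * K) * (2 * α)) := Real.one_le_exp (by positivity)
    have h2 := g1 |x| hx1 hx16
    have hint0 : 0 ≤ ∫ t in (T / 4)..(4 * T), zn (1 / 2 + |x|) t ^ (2 * α) :=
      intervalIntegral.integral_nonneg (by linarith) fun t _ => Real.rpow_nonneg (zn_nonneg _ _) _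
    have h3 : ∫ t in (T / 4)..(4 * T), ‖riemannZeta (((1 / 2 + x : ℝ) : ℂ) + t * I)‖ ^ (2 * α) ≤
        Real.exp ((K0 + 2 * K) * (2 * α)) * ∫ t in (T / 4)..(4 * T), zn (1 / 2 + |x|) t ^ (2 * α) := by
      rcases le_total 0 x with h0 | h0
      · rw [abs_of_nonneg h0] at hint0 ⊢
        exact le_mul_of_one_le_left hint0 hE1
      · rw [abs_of_nonpos h0] at hx1 hx2 hx16 ⊢
        have hab : T / 4 ≤ 4 * T := by linarith
        rw [← intervalIntegral.integral_const_mul]
        refine intervalIntegral.integral_mono_on hab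
          (zn_ii (σ := 1 / 2 + x) (p := 2 * α) (by linarith) (by linarith))
          ((zn_ii (σ := 1 / 2 + -x) (p := 2 * α) (by linarith) (by linarith)).const_mul _) ?_
        intro t ht
        have ht1 : 1 ≤ t := by linarith [ht.1]
        have ht0 : 0 < t := by linarith
        have h4 := hfe (-x) t (by linarith) (by linarith) ht1
        rw [sub_neg_eq_add] at h4
        have h5 : t ^ (-x) ≤ Real.exp (2 * K) := by
          rw [Real.rpow_def_of_pos ht0]
          apply Real.exp_le_exp.mpr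
          have h6 : Real.log t ≤ 2 * Real.log T := by
            have h7 : Real.log t ≤ Real.log (4 * T) := Real.log_le_log ht0 ht.2
            rw [Real.log_mul (by norm_num) hT.ne'] at h7
            have h8 : Real.log 4 ≤ Real.log T := Real.log_le_log (by norm_num) (by linarith)
            linarith
          calc Real.log t * -x ≤ (2 * Real.log T) * (K / Real.log T) :=
                mul_le_mul h6 hx2 (by linarith) (by positivity)
            _ = 2 * K := by field_simp
        have h9 : ‖riemannZeta (((1 / 2 + x : ℝ) : ℂ) + t * I)‖ ≤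
            Real.exp (K0 + 2 * K) * zn (1 / 2 + -x) t := by
          refine h4.trans ?_
          rw [Real.exp_add]
          unfold zn
          gcongr
        calc ‖riemannZeta (((1 / 2 + x : ℝ) : ℂ) + t * I)‖ ^ (2 * α) ≤
            (Real.exp (K0 + 2 * K) * zn (1 / 2 + -x) t) ^ (2 * α) :=
              Real.rpow_le_rpow (norm_nonneg _) h9 (by positivity)
          _ = _ := by
              rw [Real.mul_rpow (Real.exp_pos _).le (zn_nonneg _ _), ← Real.exp_mul]
    refine h3.trans ?_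
    calc Real.exp ((K0 + 2 * K) * (2 * α)) * ∫ t in (T / 4)..(4 * T), zn (1 / 2 + |x|) t ^ (2 * α) ≤
        Real.exp ((K0 + 2 * K) * (2 * α)) * (A * (T * Real.log T ^ (α ^ 2))) :=
          mul_le_mul_of_nonneg_left h2 (Real.exp_pos _).le
      _ = _ := by ring

/-- the bound near the line -/
theorem strip_exp {α : ℝ} (hα : 0 < α) (hα2 : α ≤ 2) : ∃ C2 C3 : ℝ, 1 ≤ C2 ∧ 0 < C3 ∧ ∀ K0 : ℝ, 0 < K0 →
    ∀ᶠ T : ℝ in atTop, ∀ x : ℝ, |x| ≤ K0 / Real.log T →
    ∫ t in (T / 2)..(3 * T), ‖riemannZeta (((1 / 2 + x : ℝ) : ℂ) + t * I)‖ ^ (2 * α) ≤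
      C2 * Real.exp (C3 * K0) * (T * Real.log T ^ (α ^ 2)) := by
  have hSUBA := Pool.Agent.Y732.UP.t_SUBA
  obtain ⟨lam, κ0, A0, hlam, hκ0, hA0, hO⟩ := out_exp hα hα2
  refine ⟨4 * (Real.exp ((κ0 + 10 * lam) * (2 * α)) * A0), 10 * (2 * α), ?_, by positivity, fun K0 hK0 => ?_⟩
  · have h1 : 1 ≤ Real.exp ((κ0 + 10 * lam) * (2 * α)) := Real.one_le_exp (by positivity)
    nlinarith
  set K := max K0 lam with hK
  have hKl : lam ≤ K := le_max_right _ _
  have hK1 : 1 ≤ K := hlam.trans hKl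
  obtain ⟨hC1, hev⟩ := hO (5 * K) (by linarith)
  set C1 : ℝ := Real.exp ((κ0 + 2 * (5 * K)) * (2 * α)) * A0 with hC1d
  have hfinC : 4 * C1 ≤ 4 * (Real.exp ((κ0 + 10 * lam) * (2 * α)) * A0) * Real.exp (10 * (2 * α) * K0) := by
    have h1 : C1 ≤ Real.exp ((κ0 + 10 * lam) * (2 * α)) * Real.exp (10 * (2 * α) * K0) * A0 := by
      rw [hC1d, ← Real.exp_add]
      refine mul_le_mul_of_nonneg_right (Real.exp_le_exp.2 ?_) (by linarith)
      have h2 : K ≤ K0 + lam := max_le (by linarith) (by linarith)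
      nlinarith [mul_le_mul_of_nonneg_left h2 (show 0 ≤ 20 * α by positivity)]
    calc 4 * C1 ≤ 4 * (Real.exp ((κ0 + 10 * lam) * (2 * α)) * Real.exp (10 * (2 * α) * K0) * A0) := by linarith
      _ = _ := by ring
  obtain ⟨Cz, Az, hCz, hAz, hgr⟩ := H370.DL.zeta_growth
  set β := 2 * α with hβ
  have hβ0 : 0 < β := by positivity
  -- exponent of the crude bound
  set D : ℝ := Az * β + 2 with hD
  have hD0 : 0 < D := by positivity
  -- eventual conditions
  have hlog : Tendsto Real.log atTop atTop := Real.tendsto_log_atTop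
  have ev1 : ∀ᶠ T : ℝ in atTop, 16 * K ≤ Real.log T := hlog.eventually_ge_atTop _
  have ev2 : ∀ᶠ T : ℝ in atTop, 16 * (1 + 2 * 4 * K * (D + 1)) ≤ T := eventually_ge_atTop _
  have ev3 : ∀ᶠ T : ℝ in atTop, 4 * (Cz * 4 ^ Az) ^ β ≤ T := eventually_ge_atTop _
  filter_upwards [hev, ev1, ev2, ev3, eventually_ge_atTop (4 : ℝ)] with T hT h1 h2 h3 h4
  set L := Real.log T with hL
  have hL0 : 0 < L := by linarith
  have hL1 : 1 ≤ L := by linarith
  have hT0 : 0 < T := by linarith
  set w := K / L with hw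
  have hw0 : 0 < w := by positivity
  have hw16 : w ≤ 1 / 16 := by
    rw [hw, div_le_div_iff₀ hL0 (by norm_num)]; linarith
  set J : ℕ := ⌈D * L⌉₊ with hJ
  have hJ1 : D * L ≤ J := Nat.le_ceil _
  have hJ2 : (J : ℝ) ≤ D * L + 1 := (Nat.ceil_lt_add_one (by positivity)).le
  have hJw : (J : ℝ) * (4 * w) ≤ 4 * K * (D + 1) := by
    have : (J : ℝ) ≤ (D + 1) * L := by nlinarith
    calc (J : ℝ) * (4 * w) ≤ ((D + 1) * L) * (4 * w) :=
          mul_le_mul_of_nonneg_right this (by positivity)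
      _ = 4 * K * (D + 1) := by rw [hw]; field_simp
  have hP : 0 ≤ 4 * K * (D + 1) := by positivity
  have hTL : 0 ≤ T * L ^ (α ^ 2) := by positivity
  have hOn : 0 ≤ C1 * (T * L ^ (α ^ 2)) := by positivity
  -- bound on the outer lines
  have hout : ∀ y, w ≤ |y| → |y| ≤ 5 * w → MI (GG β) y (T / 4) (4 * T) ≤ C1 * (T * L ^ (α ^ 2)) := by
    intro y hy1 hy2
    rw [MI_GG β y (by linarith) (by linarith)]
    apply hT y
    · refine le_trans ?_ hy1
      rw [hw]
      exact div_le_div_of_nonneg_right hKl hL0.le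
    · refine hy2.trans (le_of_eq ?_)
      rw [hw]; ring
  -- crude bound on the inner lines
  have hin : ∀ y, |y| ≤ w → MI (GG β) y (T / 4) (4 * T) ≤ T ^ D := by
    intro y hy
    obtain ⟨hy1, hy2⟩ := abs_le.1 hy
    have hb : ∀ t ∈ Set.Icc (T / 4) (4 * T), GG β y t ≤ (Cz * 4 ^ Az) ^ β * T ^ (Az * β) := by
      intro t ht
      rw [GG_eq β y (by linarith [ht.1])]
      have hz := hgr (((1 / 2 + y : ℝ) : ℂ) + t * I) (by simp; linarith) (by simp; linarith)
        (by simp; linarith [ht.1])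
      have him : (((1 / 2 + y : ℝ) : ℂ) + t * I).im = t := by simp
      rw [him] at hz
      have ht0 : 0 ≤ t := by linarith [ht.1]
      have hz2 : ‖riemannZeta (((1 / 2 + y : ℝ) : ℂ) + t * I)‖ ≤ (Cz * 4 ^ Az) * T ^ Az := by
        refine hz.trans ?_
        rw [mul_assoc]
        apply mul_le_mul_of_nonneg_left _ hCz.le
        rw [← Real.mul_rpow (by norm_num) hT0.le]
        exact Real.rpow_le_rpow ht0 ht.2 hAz.le
      calc _ ≤ ((Cz * 4 ^ Az) * T ^ Az) ^ β := Real.rpow_le_rpow (norm_nonneg _) hz2 hβ0.le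
        _ = (Cz * 4 ^ Az) ^ β * T ^ (Az * β) := by
          rw [Real.mul_rpow (by positivity) (by positivity), ← Real.rpow_mul hT0.le]
    have hGy : Continuous (GG β y) :=
      (GG_cont hβ0).comp (by fun_prop : Continuous fun t : ℝ => (y, t))
    calc MI (GG β) y (T / 4) (4 * T) ≤ ∫ t in (T / 4)..(4 * T), (Cz * 4 ^ Az) ^ β * T ^ (Az * β) := by
          unfold MI
          apply intervalIntegral.integral_mono_on (by linarith) (hGy.intervalIntegrable _ _)
            (continuous_const.intervalIntegrable _ _)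
          exact hb
      _ = (4 * T - T / 4) * ((Cz * 4 ^ Az) ^ β * T ^ (Az * β)) := by
          rw [intervalIntegral.integral_const, smul_eq_mul]
      _ ≤ (4 * T) * ((Cz * 4 ^ Az) ^ β * T ^ (Az * β)) :=
          mul_le_mul_of_nonneg_right (by linarith) (by positivity)
      _ = (4 * (Cz * 4 ^ Az) ^ β) * (T * T ^ (Az * β)) := by ring
      _ ≤ T * (T * T ^ (Az * β)) := mul_le_mul_of_nonneg_right h3 (by positivity)
      _ = T ^ D := by
          rw [hD, Real.rpow_add hT0, Real.rpow_two]; ring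
  have hS : (1 / 3 : ℝ) ^ J * T ^ D ≤ 1 := by
    have e1 : T ^ D = Real.exp (D * L) := by
      rw [Real.rpow_def_of_pos hT0, mul_comm]
    have e2 : Real.exp (D * L) ≤ 3 ^ J := by
      calc Real.exp (D * L) ≤ Real.exp J := Real.exp_le_exp.2 hJ1
        _ = Real.exp 1 ^ J := by rw [← Real.exp_nat_mul, mul_one]
        _ ≤ 3 ^ J := by
          apply pow_le_pow_left₀ (Real.exp_pos 1).le
          linarith [Real.exp_one_lt_d9]
    rw [e1, one_div, inv_pow, inv_mul_le_iff₀ (by positivity), mul_one]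
    exact e2
  intro x hx
  have hxw : |x| ≤ w := by
    refine hx.trans ?_
    rw [hw]
    exact div_le_div_of_nonneg_right (le_max_left _ _) hL0.le
  have hit := iter (GG_cont hβ0) (GG_nonneg β) (w := w) (a := T / 4) (b := 4 * T)
    (O := C1 * (T * L ^ (α ^ 2))) (S := T ^ D) hw0 hOn (by positivity)
    (fun x t _ h6 _ => GG_sub hSUBA hβ0 (by positivity) (by linarith)) hout hin J (by linarith) x hxw
  have hTL1 : 1 ≤ C1 * (T * L ^ (α ^ 2)) := by
    have : 1 ≤ L ^ (α ^ 2) := Real.one_le_rpow hL1 (by positivity)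
    have h7 : 1 ≤ T * L ^ (α ^ 2) := by nlinarith
    nlinarith
  rw [← MI_GG β x (by linarith) (by linarith)]
  calc MI (GG β) x (T / 2) (3 * T) ≤ MI (GG β) x (T / 4 + J * (4 * w)) (4 * T - J * (4 * w)) :=
        MI_mono (GG_cont hβ0) (GG_nonneg β) (by linarith) (by linarith) (by linarith)
    _ ≤ (1 / 3) ^ J * T ^ D + 3 * (C1 * (T * L ^ (α ^ 2))) := hit
    _ ≤ 4 * C1 * (T * L ^ (α ^ 2)) := by linarith
    _ ≤ _ := mul_le_mul_of_nonneg_right hfinC hTL


end Pool.Agent.X117.MS
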