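import Pool.Agent.X117.Mas1

/-!
# Majorants with explicit dependence on the radius, and the lower bound right of the line
-/

namespace Pool.Agent.X117.MS

open Filter Topology MeasureTheory Complex H370 Set Metric
open Pool.Agent.Y745.UP Pool.Agent.Y419.UP Pool.Agent.X117.DZ Pool.Agent.X117.SZ

/-- the mean value of the local integrals, radius `A / log T`, with the dependence on `A` -/
theorem Phi_int3 {k : ℝ} (hk : 0 < k) (hk2 : k ≤ 2) : ∃ C2 C3 : ℝ, 1 ≤ C2 ∧ 0 < C3 ∧ ∀ A : ℝ, 1 ≤ A →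
    ∀ᶠ T : ℝ in atTop,
    ∫ t in (T - 1)..(2 * T + 1), Phi k (3 * (A / Real.log T)) (A / Real.log T) t ≤
      A ^ 2 * (C2 * Real.exp (C3 * A)) * (T * Real.log T ^ (k ^ 2 - 2)) := by
  obtain ⟨C2, C3, hC2, hC3, hst⟩ := strip_exp hk hk2
  refine ⟨24 * C2, C3 * 2, by linarith, by positivity, fun A hA => ?_⟩
  have hA0 : 0 < A := by linarith
  have hs := hst (2 * A) (by positivity)
  set C1 : ℝ := C2 * Real.exp (C3 * (2 * A)) with hC1d
  have hC1 : 0 < C1 := by positivity
  filter_upwards [hs, eventually_ge_atTop (10 : ℝ), Real.tendsto_log_atTop.eventually_ge_atTop 1,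
    Real.tendsto_log_atTop.eventually_ge_atTop (3 * A)] with T hT hT10 hL1 hL3
  have hL0 : 0 < Real.log T := by linarith
  set L := Real.log T with hL
  set R : ℝ := A / L with hR
  have hR0 : 0 < R := by positivity
  set ρ : ℝ := 3 * R with hρ
  have hρ0 : 0 ≤ ρ := by positivity
  have hρ1 : ρ ≤ 1 := by
    rw [hρ, hR, ← mul_div_assoc, div_le_one hL0]
    exact hL3
  have hsw1 : ∫ t in (T - 1)..(2 * T + 1), Phi k ρ R t = ∫ u in (-(2 * R))..(2 * R), ∫ t in (T - 1)..(2 * T + 1),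
      ∫ v in (-ρ)..ρ, gz (2 * k) u (t + v) := by
    unfold Phi
    refine intervalIntegral_intervalIntegral_swap ?_
    refine ((inner_cont hk ρ).continuousOn.integrableOn_compact
      ((isCompact_uIcc (a := T - 1) (b := 2 * T + 1)).prod (isCompact_uIcc (a := -(2 * R)) (b := 2 * R)))).mono_set ?_
    exact prod_mono uIoc_subset_uIcc uIoc_subset_uIcc
  have hsw2 : ∀ u : ℝ, ∫ t in (T - 1)..(2 * T + 1), ∫ v in (-ρ)..ρ, gz (2 * k) u (t + v) =
      ∫ v in (-ρ)..ρ, ∫ t in (T - 1)..(2 * T + 1), gz (2 * k) u (t + v) := by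
    intro u
    refine intervalIntegral_intervalIntegral_swap ?_
    have hc : Continuous (Function.uncurry fun t v : ℝ => gz (2 * k) u (t + v)) :=
      (cont_gz1 (show 0 < 2 * k by linarith) u).comp (continuous_fst.add continuous_snd)
    refine (hc.continuousOn.integrableOn_compact
      ((isCompact_uIcc (a := T - 1) (b := 2 * T + 1)).prod (isCompact_uIcc (a := -ρ) (b := ρ)))).mono_set ?_
    exact prod_mono uIoc_subset_uIcc uIoc_subset_uIcc
  have hin : ∀ u ∈ Icc (-(2 * R)) (2 * R), ∀ v ∈ Icc (-ρ) ρ,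
      ∫ t in (T - 1)..(2 * T + 1), gz (2 * k) u (t + v) ≤ C1 * (T * L ^ (k ^ 2)) := by
    intro u hu v hv
    rw [intervalIntegral.integral_comp_add_right (fun t => gz (2 * k) u t) v]
    have hu' : |u| ≤ 2 * A / L := by
      rw [abs_le]
      have : 2 * R = 2 * A / L := by rw [hR]; ring
      rw [← this]
      exact ⟨hu.1, hu.2⟩
    have h1 := hT u hu'
    rw [← int_gz (by linarith)] at h1
    refine (mono_int (cont_gz1 (by linarith) u) (fun t => gz_nonneg _ _ _) ?_ ?_ ?_).trans h1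
    · linarith [hv.1]
    · linarith
    · linarith [hv.2]
  rw [hsw1]
  have hbd : ∀ u ∈ Icc (-(2 * R)) (2 * R), ∫ t in (T - 1)..(2 * T + 1), ∫ v in (-ρ)..ρ, gz (2 * k) u (t + v) ≤
      2 * ρ * (C1 * (T * L ^ (k ^ 2))) := by
    intro u hu
    rw [hsw2]
    have h2 : ∫ v in (-ρ)..ρ, ∫ t in (T - 1)..(2 * T + 1), gz (2 * k) u (t + v) ≤
        ∫ _ in (-ρ)..ρ, C1 * (T * L ^ (k ^ 2)) := by
      refine intervalIntegral.integral_mono_on (by linarith) ?_ (by simp) fun v hv => hin u hu v hv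
      refine Continuous.intervalIntegrable ?_ _ _
      refine intervalIntegral.continuous_parametric_intervalIntegral_of_continuous' ?_ _ _
      exact (cont_gz1 (show 0 < 2 * k by linarith) u).comp (continuous_snd.add continuous_fst)
    refine h2.trans (le_of_eq ?_)
    rw [intervalIntegral.integral_const, smul_eq_mul]
    ring
  have h3 : ∫ u in (-(2 * R))..(2 * R), ∫ t in (T - 1)..(2 * T + 1), ∫ v in (-ρ)..ρ, gz (2 * k) u (t + v) ≤
      ∫ _ in (-(2 * R))..(2 * R), 2 * ρ * (C1 * (T * L ^ (k ^ 2))) := by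
    refine intervalIntegral.integral_mono_on (by linarith) ?_ (by simp) hbd
    refine Continuous.intervalIntegrable ?_ _ _
    refine intervalIntegral.continuous_parametric_intervalIntegral_of_continuous' ?_ _ _
    exact (inner_cont hk ρ).comp (continuous_snd.prodMk continuous_fst)
  refine h3.trans (le_of_eq ?_)
  have e9 : Real.exp (C3 * 2 * A) = Real.exp (C3 * (2 * A)) := by congr 1; ring
  rw [intervalIntegral.integral_const, smul_eq_mul, Real.rpow_sub hL0, hρ, hR, e9]
  have : L ^ (2 : ℝ) = L ^ 2 := by norm_cast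
  rw [this, hC1d]
  field_simp
  ring

/-- the majorant, with the dependence on the radius -/
theorem major3 {k : ℝ} (hk : 0 < k) (hk2 : k ≤ 2) : ∃ C2 C3 : ℝ, 1 ≤ C2 ∧ 0 < C3 ∧ ∀ A : ℝ, 1 ≤ A →
    ∀ᶠ T : ℝ in atTop, ∃ P : ℝ → ℝ, Continuous P ∧ (∀ t, 0 ≤ P t) ∧
      (∀ t ∈ Icc T (2 * T), ∀ s : ℂ, ‖s - (1 / 2 + I * t)‖ ≤ A / Real.log T → ‖riemannZeta s‖ ^ (2 * k) ≤ P t) ∧
      ∫⁻ t in Icc T (2 * T), ENNReal.ofReal (P t) ≤
        ENNReal.ofReal (C2 * Real.exp (C3 * A) * (T * Real.log T ^ (k ^ 2))) := by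
  obtain ⟨C2, C3, hC2, hC3, h⟩ := Phi_int3 hk hk2
  refine ⟨C2, C3, hC2, hC3, fun A hA => ?_⟩
  have hA0 : 0 < A := by linarith
  filter_upwards [h A hA, eventually_ge_atTop (20 : ℝ), Real.tendsto_log_atTop.eventually_ge_atTop (8 * A),
    Real.tendsto_log_atTop.eventually_ge_atTop 1] with T hT hT20 hL8 hL1
  have hL0 : 0 < Real.log T := by linarith
  set L := Real.log T with hL
  set R : ℝ := A / L with hR
  have hR0 : 0 < R := by positivity
  have hR8 : R ≤ 1 / 8 := by
    rw [hR, div_le_div_iff₀ hL0 (by norm_num)]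
    linarith
  set K : ℝ := 1 / (Real.pi * R ^ 2) with hK
  have hK0 : 0 < K := by positivity
  have hPhi : ∀ t, 0 ≤ K * Phi k (3 * R) R t := fun t =>
    mul_nonneg hK0.le (Phi_nonneg (by linarith) hR0.le t)
  have hcont : Continuous fun t => K * Phi k (3 * R) R t := continuous_const.mul (Phi_cont hk _ _)
  refine ⟨fun t => K * Phi k (3 * R) R t, hcont, hPhi, ?_, ?_⟩
  · intro t ht s hs
    have h1 := (Complex.abs_re_le_norm (s - (1 / 2 + I * t))).trans hs
    have h2 := (Complex.abs_im_le_norm (s - (1 / 2 + I * t))).trans hs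
    have e1 : (s - (1 / 2 + I * (t : ℂ))).re = s.re - 1 / 2 := by simp
    have e2 : (s - (1 / 2 + I * (t : ℂ))).im = s.im - t := by simp
    rw [e1] at h1
    rw [e2] at h2
    exact zeta_le_Phi (ρ := 3 * R) hk hR0 (by linarith) (by linarith) (by linarith) (by linarith [ht.1]) h1
      (by linarith)
  · have h5 : ∫⁻ t in Icc T (2 * T), ENNReal.ofReal (K * Phi k (3 * R) R t) ≤
        ∫⁻ t in Ioc (T - 1) (2 * T + 1), ENNReal.ofReal (K * Phi k (3 * R) R t) :=
      lintegral_mono_set fun t ht => ⟨by linarith [ht.1], by linarith [ht.2]⟩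
    refine h5.trans ?_
    rw [← ofReal_integral_eq_lintegral_ofReal ((hcont.integrableOn_Icc).mono_set Ioc_subset_Icc_self)
      (Filter.Eventually.of_forall hPhi), ← intervalIntegral.integral_of_le (by linarith)]
    refine ENNReal.ofReal_le_ofReal ?_
    rw [intervalIntegral.integral_const_mul]
    refine (mul_le_mul_of_nonneg_left hT hK0.le).trans ?_
    have hL2 : L ^ (k ^ 2 - 2) = L ^ (k ^ 2) / L ^ 2 := by
      rw [Real.rpow_sub hL0]
      congr 1
      norm_cast
    have e3 : K * (A ^ 2 * (C2 * Real.exp (C3 * A)) * (T * L ^ (k ^ 2 - 2))) =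
        1 / Real.pi * (C2 * Real.exp (C3 * A) * (T * L ^ (k ^ 2))) := by
      rw [hL2, hK, hR]
      field_simp
    rw [e3]
    have hpi : 1 / Real.pi ≤ 1 := by
      rw [div_le_one Real.pi_pos]
      linarith [Real.pi_gt_three]
    calc 1 / Real.pi * (C2 * Real.exp (C3 * A) * (T * L ^ (k ^ 2)))
        ≤ 1 * (C2 * Real.exp (C3 * A) * (T * L ^ (k ^ 2))) := mul_le_mul_of_nonneg_right hpi (by positivity)
      _ = _ := one_mul _

end Pool.Agent.X117.MS
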