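import Pool.Agent.X117.Mas2
import Pool.Agent.X117.Rem2

/-!
# Few zeros near a point: no growth away from the line
-/

namespace Pool.Agent.X117.MS

open Filter Topology MeasureTheory Complex Set Metric
open Pool.Agent.X117.SZ Pool.Agent.X117.RM

/-- the functional equation, as a lower bound -/
theorem left_low : ∃ K : ℝ, 0 < K ∧ ∀ σ t : ℝ, 0 ≤ σ → σ ≤ 1 / 2 → 1 ≤ t →
    Real.exp (-K) * t ^ σ * ‖riemannZeta (((1 / 2 + σ : ℝ) : ℂ) + t * I)‖ ≤
      ‖riemannZeta (((1 / 2 - σ : ℝ) : ℂ) + t * I)‖ := by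
  obtain ⟨K, hK, hX⟩ := H345.Chi.XX_size
  refine ⟨K, hK, fun σ t h0 h1 ht => ?_⟩
  set s : ℂ := ((1 / 2 + σ : ℝ) : ℂ) + t * I with hs
  have hre : s.re = 1 / 2 + σ := by simp [hs]
  have him : s.im = t := by simp [hs]
  have hcim : ((starRingEnd ℂ) s).im = -t := by rw [Complex.conj_im, him]
  have h2 := H345.zeta_fe ((starRingEnd ℂ) s) (by
    intro n hn
    have := congrArg Complex.im hn
    rw [hcim] at this
    simp at this
    linarith) (by
    intro hn
    have := congrArg Complex.im hn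
    rw [hcim] at this
    simp at this
    linarith)
  have e1 : 1 - (starRingEnd ℂ) s = ((1 / 2 - σ : ℝ) : ℂ) + t * I := by
    apply Complex.ext
    · simp [hre]; ring
    · simp [him]
  rw [e1, H345.Chi.XX_conj, riemannZeta_conj] at h2
  rw [h2, norm_mul, Complex.norm_conj, Complex.norm_conj]
  have h4 := (hX s (by rw [hre]; linarith) (by rw [hre]; linarith) (by rw [him]; exact ht)).1
  rw [hre, him] at h4
  rw [show 1 / 2 + σ - 1 / 2 = σ by ring] at h4
  exact mul_le_mul_of_nonneg_right h4 (norm_nonneg _)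

/-- the product of the values at opposite points, for a function without zeros -/
theorem second_diff {V : ℂ → ℂ} {c : ℂ} {r B : ℝ} (hr : 0 < r) (hB : 0 ≤ B)
    (hV : AnalyticOnNhd ℂ V (closedBall c r)) (hV0 : ∀ z ∈ closedBall c r, V z ≠ 0)
    (hb : ∀ z ∈ closedBall c r, ‖V z‖ ≤ Real.exp B * ‖V c‖) {y : ℝ} (hy0 : 0 ≤ y) (hy : y ≤ r / 4) :
    ‖V (c + y)‖ * ‖V (c - y)‖ ≤ ‖V c‖ ^ 2 * Real.exp (192 * (B + 1) * (y / r) ^ 2) := by
  have hL1 : ∀ z ∈ closedBall c (r / 2), ‖logDeriv V z‖ ≤ 24 * (B + 1) / r := by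
    intro z hz
    refine (H370.Loc.logDeriv_zero_free (r := r) (r1 := 3 / 4 * r) (r2 := 1 / 2 * r) (by positivity) (by linarith)
      (by linarith) hB hV hV0 hb (z := z) (by
        rw [mem_closedBall] at hz ⊢
        linarith)).trans (le_of_eq ?_)
    have e1 : r - 3 / 4 * r = r / 4 := by ring
    have e2 : 3 / 4 * r - 1 / 2 * r = r / 4 := by ring
    rw [e1, e2]
    field_simp
    norm_num
  have hdiff : ∀ z ∈ ball c r, DifferentiableAt ℂ (logDeriv V) z := by
    intro w hw
    have hw' := ball_subset_closedBall hw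
    have h1 : AnalyticAt ℂ (logDeriv V) w := (hV w hw').deriv.div (hV w hw') (hV0 w hw')
    exact h1.differentiableAt
  have hL2 : ∀ z ∈ closedBall c (r / 4), ‖deriv (logDeriv V) z‖ ≤ 96 * (B + 1) / r ^ 2 := by
    intro z hz
    have hsub : closedBall z (r / 4) ⊆ closedBall c (r / 2) := by
      intro w hw
      rw [mem_closedBall, dist_eq_norm] at hw hz ⊢
      have e : w - c = (w - z) + (z - c) := by ring
      rw [e]
      linarith [norm_add_le (w - z) (z - c)]
    have h1 := Complex.norm_deriv_le_of_forall_mem_sphere_norm_le (c := z) (R := r / 4)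
      (C := 24 * (B + 1) / r) (f := logDeriv V) (by positivity) (by
        refine DifferentiableOn.diffContOnCl ?_
        rw [closure_ball _ (by positivity)]
        intro w hw
        refine (hdiff w ?_).differentiableWithinAt
        have h2 := hsub hw
        rw [mem_closedBall] at h2
        rw [mem_ball]
        linarith) (fun w hw => hL1 w (hsub (sphere_subset_closedBall hw)))
    refine h1.trans (le_of_eq ?_)
    field_simp
    norm_num
  have hL3 : ∀ z ∈ closedBall c (r / 4), ∀ w ∈ closedBall c (r / 4),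
      ‖logDeriv V z - logDeriv V w‖ ≤ 96 * (B + 1) / r ^ 2 * ‖z - w‖ := by
    intro z hz w hw
    refine (convex_closedBall c (r / 4)).norm_image_sub_le_of_norm_deriv_le (fun x hx => ?_) hL2 hw hz
    refine hdiff x ?_
    rw [mem_closedBall] at hx
    rw [mem_ball]
    linarith
  -- the differential inequality
  set φ : ℝ → ℂ := fun s => V (c + (s * y : ℝ)) * V (c - (s * y : ℝ)) with hφ
  have hmem : ∀ s ∈ Icc (0 : ℝ) 1, (c + (s * y : ℝ)) ∈ closedBall c (r / 4) ∧ (c - (s * y : ℝ)) ∈ closedBall c (r / 4) := by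
    intro s hs
    have h1 : ‖((s * y : ℝ) : ℂ)‖ ≤ r / 4 := by
      rw [Complex.norm_real, Real.norm_eq_abs, abs_of_nonneg (mul_nonneg hs.1 hy0)]
      nlinarith [hs.2]
    constructor
    · rw [mem_closedBall, dist_eq_norm, add_sub_cancel_left]
      exact h1
    · rw [mem_closedBall, dist_eq_norm, sub_sub_cancel_left, norm_neg]
      exact h1
  have hsubr : closedBall c (r / 4) ⊆ closedBall c r := closedBall_subset_closedBall (by linarith)
  have hder : ∀ s ∈ Icc (0 : ℝ) 1, HasDerivAt φ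
      (φ s * (y * (logDeriv V (c + (s * y : ℝ)) - logDeriv V (c - (s * y : ℝ))))) s := by
    intro s hs
    obtain ⟨m1, m2⟩ := hmem s hs
    have n1 := hV0 _ (hsubr m1)
    have n2 := hV0 _ (hsubr m2)
    have d1 := (hV _ (hsubr m1)).differentiableAt.hasDerivAt
    have d2 := (hV _ (hsubr m2)).differentiableAt.hasDerivAt
    have i0 : HasDerivAt (fun s : ℝ => ((s * y : ℝ) : ℂ)) (y : ℂ) s := by
      have := ((hasDerivAt_id s).mul_const y).ofReal_comp
      simpa using this
    have i1 : HasDerivAt (fun s : ℝ => c + ((s * y : ℝ) : ℂ)) (y : ℂ) s := i0.const_add c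
    have i2 : HasDerivAt (fun s : ℝ => c - ((s * y : ℝ) : ℂ)) (-(y : ℂ)) s := i0.const_sub c
    have k1 := HasDerivAt.comp (h₂ := V) s d1 i1
    have k2 := HasDerivAt.comp (h₂ := V) s d2 i2
    have k3 := k1.mul k2
    refine k3.congr_deriv ?_
    rw [hφ]
    simp only [Function.comp, logDeriv_apply]
    field_simp
    ring
  set κ : ℝ := 192 * (B + 1) * (y / r) ^ 2 with hκ
  have hbd : ∀ s ∈ Ico (0 : ℝ) 1,
      ‖φ s * (y * (logDeriv V (c + (s * y : ℝ)) - logDeriv V (c - (s * y : ℝ))))‖ ≤ κ * ‖φ s‖ + 0 := by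
    intro s hs
    obtain ⟨m1, m2⟩ := hmem s ⟨hs.1, hs.2.le⟩
    have h1 := hL3 _ m1 _ m2
    have e1 : (c + ((s * y : ℝ) : ℂ)) - (c - ((s * y : ℝ) : ℂ)) = ((2 * (s * y) : ℝ) : ℂ) := by
      push_cast
      ring
    rw [e1, Complex.norm_real, Real.norm_eq_abs, abs_of_nonneg (by
      have := mul_nonneg hs.1 hy0
      linarith)] at h1
    have e5 : ∀ a D : ℂ, ‖a * (y * D)‖ = ‖a‖ * (y * ‖D‖) := by
      intro a D
      rw [norm_mul, norm_mul, Complex.norm_real, Real.norm_eq_abs, abs_of_nonneg hy0]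
    rw [e5, add_zero, mul_comm κ]
    refine mul_le_mul_of_nonneg_left ?_ (norm_nonneg _)
    have h2 : y * ‖logDeriv V (c + ((s * y : ℝ) : ℂ)) - logDeriv V (c - ((s * y : ℝ) : ℂ))‖ ≤
        y * (96 * (B + 1) / r ^ 2 * (2 * y)) := by
      refine mul_le_mul_of_nonneg_left (h1.trans (mul_le_mul_of_nonneg_left ?_ (by positivity))) hy0
      nlinarith [hs.2.le]
    refine h2.trans (le_of_eq ?_)
    rw [hκ]
    field_simp
    ring
  have hgr := norm_le_gronwallBound_of_norm_deriv_right_le (f := φ)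
    (f' := fun s => φ s * (y * (logDeriv V (c + (s * y : ℝ)) - logDeriv V (c - (s * y : ℝ)))))
    (δ := ‖φ 0‖) (K := κ) (ε := 0) (a := 0) (b := 1)
    (fun s hs => (hder s hs).continuousAt.continuousWithinAt)
    (fun s hs => (hder s ⟨hs.1, hs.2.le⟩).hasDerivWithinAt) le_rfl hbd 1 (by simp)
  rw [gronwallBound_ε0, sub_zero, mul_one] at hgr
  have e2 : ‖φ 1‖ = ‖V (c + y)‖ * ‖V (c - y)‖ := by
    rw [hφ]
    simp only [one_mul, norm_mul]
  have e3 : ‖φ 0‖ = ‖V c‖ ^ 2 := by
    rw [hφ]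
    simp only [zero_mul, ofReal_zero, add_zero, sub_zero, norm_mul]
    ring
  rwa [e2, e3] at hgr

end Pool.Agent.X117.MS
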