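import Pool.Agent.X117.Mas3

/-!
# Few zeros near a point: the product of the values at opposite points
-/

namespace Pool.Agent.X117.MS

open Filter Topology MeasureTheory Complex Set Metric
open Pool.Agent.X117.SZ Pool.Agent.X117.RM

/-- the product of the values at opposite points, for a function with few zeros nearby -/
theorem few_bound {f : ℂ → ℂ} {c : ℂ} {h ρ y M4 M2 : ℝ} {n : ℕ} (hh : 0 < h) (hρ : 2 * h ≤ ρ)
    (hf : AnalyticOnNhd ℂ f (closedBall c (2 * ρ))) (hc : f c ≠ 0)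
    (hM4 : ∀ z ∈ closedBall c (4 * h), ‖f z‖ ≤ M4) (hM2 : ∀ z ∈ closedBall c (2 * ρ), ‖f z‖ ≤ M2)
    (hcount : ∀ S : Finset ℂ, (∀ z ∈ S, z ∈ closedBall c ρ ∧ f z = 0) → ∑ z ∈ S, analyticOrderNatAt f z ≤ n)
    (hy0 : 0 ≤ y) (hy : y ≤ ρ / 10) :
    ‖f (c + y)‖ * ‖f (c - y)‖ ≤ (2 * ρ / h) ^ (2 * n) * Real.exp 2 *
      (M4 ^ (2 - 192 * (y / ρ) ^ 2) * M2 ^ (192 * (y / ρ) ^ 2)) := by
  classical
  have hρ0 : 0 < ρ := by linarith
  set τ : ℝ := 192 * (y / ρ) ^ 2 with hτ
  have hτ0 : 0 ≤ τ := by positivity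
  have hτ2 : τ ≤ 2 := by
    have h1 : y / ρ ≤ 1 / 10 := by
      rw [div_le_div_iff₀ hρ0 (by norm_num)]
      linarith
    have h2 : 0 ≤ y / ρ := by positivity
    rw [hτ]
    nlinarith
  obtain ⟨s, g, hs, hg, hfg, hg0, -⟩ := H370.Loc.extract (r := ρ) (R := 2 * ρ) hρ0 (by linarith)
    (M := max 1 M2) (le_max_left _ _) hf hc (fun z hz => (hM2 z hz).trans (le_max_right _ _))
  set N := Multiset.card s with hN
  have hcR : c ∈ closedBall c (2 * ρ) := mem_closedBall_self (by positivity)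
  have hcr : c ∈ closedBall c ρ := mem_closedBall_self hρ0.le
  have hc4 : c ∈ closedBall c (4 * h) := mem_closedBall_self (by positivity)
  have hM20 : 0 ≤ M2 := (norm_nonneg _).trans (hM2 c hcR)
  have hM40 : 0 ≤ M4 := (norm_nonneg _).trans (hM4 c hc4)
  have hNn : N ≤ n := by
    refine le_trans ?_ (hcount s.toFinset fun z hz => hs z (Multiset.mem_toFinset.1 hz))
    rw [hN, ← Multiset.toFinset_sum_count_eq s]
    refine Finset.sum_le_sum fun z hz => ?_
    have hz' : z ∈ closedBall c (2 * ρ) :=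
      closedBall_subset_closedBall (by linarith) (hs z (Multiset.mem_toFinset.1 hz)).1
    exact H370.Loc.count_le_mult (hf z hz') (H370.Loc.order_ne_top (convex_closedBall c (2 * ρ)).isPreconnected hf
      hcR hc hz') (hg z hz') hfg
  -- the bound of `g` on the disc
  have hgball : ∀ w ∈ closedBall c (2 * ρ), ‖g w‖ ≤ M2 / ρ ^ N := by
    intro w hw
    refine Complex.norm_le_of_forall_mem_frontier_norm_le (U := ball c (2 * ρ)) isBounded_ball ?_ ?_ ?_
    · apply DifferentiableOn.diffContOnCl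
      rw [closure_ball c (by positivity)]
      exact fun x hx => (hg x hx).differentiableAt.differentiableWithinAt
    · intro x hx
      rw [frontier_ball c (by positivity)] at hx
      have h1 : ρ ^ N ≤ ‖H370.Loc.Pf s x‖ := H370.Loc.Pf_norm_ge hρ0.le fun ζ hζ => by
        have h2 := (hs ζ hζ).1
        rw [mem_closedBall, dist_eq_norm] at h2
        rw [mem_sphere, dist_eq_norm] at hx
        have e : x - c = (x - ζ) + (ζ - c) := by ring
        have h3 := norm_add_le (x - ζ) (ζ - c)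
        rw [← e, hx] at h3
        linarith
      rw [le_div_iff₀ (by positivity)]
      calc ‖g x‖ * ρ ^ N ≤ ‖g x‖ * ‖H370.Loc.Pf s x‖ := mul_le_mul_of_nonneg_left h1 (norm_nonneg _)
        _ = ‖f x‖ := by rw [hfg x, norm_mul, mul_comm]
        _ ≤ M2 := hM2 x (sphere_subset_closedBall hx)
    · rwa [closure_ball c (by positivity)]
  -- the bound of `g` at the centre
  have hgc : ‖g c‖ ≤ M4 / h ^ N := by
    set s1 := s.filter (fun z => ‖z - c‖ ≤ 3 * h) with hs1
    set s2 := s.filter (fun z => ¬ ‖z - c‖ ≤ 3 * h) with hs2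
    have hss : s = s1 + s2 := (Multiset.filter_add_not _ s).symm
    have hPf : ∀ z, H370.Loc.Pf s z = H370.Loc.Pf s1 z * H370.Loc.Pf s2 z := by
      intro z
      conv_lhs => rw [hss]
      unfold H370.Loc.Pf
      rw [Multiset.map_add, Multiset.prod_add]
    have hcard : N = Multiset.card s1 + Multiset.card s2 := by rw [hN, ← Multiset.card_add, ← hss]
    set g2 : ℂ → ℂ := fun z => H370.Loc.Pf s2 z * g z with hg2
    have hg2c : ‖g2 c‖ ≤ M4 / h ^ (Multiset.card s1) := by
      refine Complex.norm_le_of_forall_mem_frontier_norm_le (U := ball c (4 * h)) isBounded_ball ?_ ?_ ?_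
      · apply DifferentiableOn.diffContOnCl
        rw [closure_ball c (by positivity)]
        intro x hx
        have hx' : x ∈ closedBall c (2 * ρ) := closedBall_subset_closedBall (by linarith) hx
        exact ((H370.Loc.Pf_diff s2 x).mul (hg x hx').differentiableAt).differentiableWithinAt
      · intro x hx
        rw [frontier_ball c (by positivity)] at hx
        have h1 : h ^ (Multiset.card s1) ≤ ‖H370.Loc.Pf s1 x‖ := H370.Loc.Pf_norm_ge hh.le fun ζ hζ => by
          have h2 := (Multiset.mem_filter.1 hζ).2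
          rw [mem_sphere, dist_eq_norm] at hx
          have e : x - c = (x - ζ) + (ζ - c) := by ring
          have h3 := norm_add_le (x - ζ) (ζ - c)
          rw [← e, hx] at h3
          linarith
        rw [le_div_iff₀ (by positivity)]
        calc ‖g2 x‖ * h ^ (Multiset.card s1) ≤ ‖g2 x‖ * ‖H370.Loc.Pf s1 x‖ :=
              mul_le_mul_of_nonneg_left h1 (norm_nonneg _)
          _ = ‖f x‖ := by
              rw [hfg x, hPf x, hg2, ← norm_mul]
              congr 1
              ring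
          _ ≤ M4 := hM4 x (sphere_subset_closedBall hx)
      · rw [closure_ball c (by positivity)]
        exact hc4
    have h5 : h ^ (Multiset.card s2) ≤ ‖H370.Loc.Pf s2 c‖ := H370.Loc.Pf_norm_ge hh.le fun ζ hζ => by
      have h2 := (Multiset.mem_filter.1 hζ).2
      rw [norm_sub_rev] at h2
      linarith
    rw [le_div_iff₀ (by positivity), hcard, pow_add]
    rw [le_div_iff₀ (by positivity)] at hg2c
    calc ‖g c‖ * (h ^ (Multiset.card s1) * h ^ (Multiset.card s2)) =
        (h ^ (Multiset.card s2) * ‖g c‖) * h ^ (Multiset.card s1) := by ring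
      _ ≤ (‖H370.Loc.Pf s2 c‖ * ‖g c‖) * h ^ (Multiset.card s1) := by gcongr
      _ = ‖g2 c‖ * h ^ (Multiset.card s1) := by rw [hg2, ← norm_mul]
      _ ≤ M4 := hg2c
  -- second difference
  set G := ‖g c‖ with hG
  have hG0 : 0 < G := norm_pos_iff.2 (hg0 c hcr)
  set Q : ℝ := M2 / h ^ N with hQ
  have hQρ : M2 / ρ ^ N ≤ Q := by
    rw [hQ]
    refine div_le_div_of_nonneg_left hM20 (by positivity) ?_
    exact pow_le_pow_left₀ hh.le (by linarith) N
  have hGQ : G ≤ Q := (hgball c hcR).trans hQρ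
  have hQ0 : 0 < Q := hG0.trans_le hGQ
  set B : ℝ := Real.log (Q / G) with hB
  have hB0 : 0 ≤ B := Real.log_nonneg (by rwa [le_div_iff₀ hG0, one_mul])
  have hexpB : Real.exp B = Q / G := Real.exp_log (by positivity)
  have hsd := second_diff (V := g) (c := c) (r := ρ) (B := B) (y := y) hρ0 hB0
    (hg.mono (closedBall_subset_closedBall (by linarith))) hg0 (fun z hz => by
      rw [hexpB, div_mul_cancel₀ _ hG0.ne']
      exact (hgball z (closedBall_subset_closedBall (by linarith) hz)).trans hQρ) hy0 (by linarith)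
  have hsd2 : ‖g (c + y)‖ * ‖g (c - y)‖ ≤ G ^ (2 - τ) * Q ^ τ * Real.exp 2 := by
    refine hsd.trans ?_
    have e1 : 192 * (B + 1) * (y / ρ) ^ 2 = B * τ + τ := by rw [hτ]; ring
    rw [e1, Real.exp_add, Real.exp_mul, hexpB, Real.div_rpow hQ0.le hG0.le]
    have e2 : G ^ (2 - τ) = G ^ 2 / G ^ τ := by
      rw [Real.rpow_sub hG0]
      congr 1
      norm_cast
    rw [e2]
    have h6 : Real.exp τ ≤ Real.exp 2 := Real.exp_le_exp.2 hτ2
    calc G ^ 2 * (Q ^ τ / G ^ τ * Real.exp τ) = G ^ 2 / G ^ τ * Q ^ τ * Real.exp τ := by ring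
      _ ≤ _ := mul_le_mul_of_nonneg_left h6 (by positivity)
  have hsd3 : G ^ (2 - τ) * Q ^ τ ≤ M4 ^ (2 - τ) * M2 ^ τ / (h ^ N) ^ 2 := by
    have h7 : G ^ (2 - τ) ≤ (M4 / h ^ N) ^ (2 - τ) := Real.rpow_le_rpow hG0.le hgc (by linarith)
    have hhN : 0 < h ^ N := by positivity
    refine (mul_le_mul_of_nonneg_right h7 (by positivity)).trans (le_of_eq ?_)
    rw [hQ, Real.div_rpow hM40 hhN.le, Real.div_rpow hM20 hhN.le]
    have e3 : (h ^ N) ^ 2 = (h ^ N) ^ (2 - τ) * (h ^ N) ^ τ := by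
      rw [← Real.rpow_add hhN, sub_add_cancel]
      norm_cast
    rw [e3]
    field_simp
  -- the polynomial
  have hPb : ∀ z : ℂ, ‖z - c‖ ≤ ρ → ‖H370.Loc.Pf s z‖ ≤ (2 * ρ) ^ N := fun z hz =>
    H370.Loc.Pf_norm_le fun ζ hζ => by
      have h2 := (hs ζ hζ).1
      rw [mem_closedBall, dist_eq_norm, norm_sub_rev] at h2
      have e : z - ζ = (z - c) + (c - ζ) := by ring
      rw [e]
      linarith [norm_add_le (z - c) (c - ζ)]
  have hyn : ‖(y : ℂ)‖ ≤ ρ := by
    rw [Complex.norm_real, Real.norm_eq_abs, abs_of_nonneg hy0]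
    linarith
  have hP1 := hPb (c + y) (by rwa [add_sub_cancel_left])
  have hP2 := hPb (c - y) (by rwa [sub_sub_cancel_left, norm_neg])
  have hM0 : 0 ≤ M4 ^ (2 - τ) * M2 ^ τ := by positivity
  calc ‖f (c + y)‖ * ‖f (c - y)‖ = (‖H370.Loc.Pf s (c + y)‖ * ‖H370.Loc.Pf s (c - y)‖) *
        (‖g (c + y)‖ * ‖g (c - y)‖) := by
          rw [hfg, hfg, norm_mul, norm_mul]
          ring
    _ ≤ ((2 * ρ) ^ N * (2 * ρ) ^ N) * (M4 ^ (2 - τ) * M2 ^ τ / (h ^ N) ^ 2 * Real.exp 2) := by
        refine mul_le_mul (mul_le_mul hP1 hP2 (norm_nonneg _) (by positivity))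
          (hsd2.trans (mul_le_mul_of_nonneg_right hsd3 (Real.exp_pos _).le)) (by positivity) (by positivity)
    _ = (2 * ρ / h) ^ (2 * N) * Real.exp 2 * (M4 ^ (2 - τ) * M2 ^ τ) := by
        rw [div_pow, pow_mul', pow_mul']
        field_simp
    _ ≤ _ := by
        refine mul_le_mul_of_nonneg_right (mul_le_mul_of_nonneg_right ?_ (Real.exp_pos _).le) hM0
        refine pow_le_pow_right₀ ?_ (by omega)
        rw [le_div_iff₀ hh]
        linarith

end Pool.Agent.X117.MS
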