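import Pool.Agent.X117.Mas4

/-!
# From a point away from the line to the line; the lower bound right of the line
-/

namespace Pool.Agent.X117.MS

open Filter Topology MeasureTheory Complex Set Metric
open Pool.Agent.X117.DZ Pool.Agent.X117.SZ Pool.Agent.X117.RM

/-- a function that is small on a part of positive proportion of a segment is small at a point nearby -/
theorem remez2 {A τ : ℝ} (hA : 1 ≤ A) (hτ : 0 < τ) : ∃ ε : ℝ, 0 < ε ∧
    ∀ (f : ℂ → ℂ) (U : Set ℂ) (x h M : ℝ), IsOpen U → DifferentiableOn ℂ f U → 0 < h →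
      closedBall (1 / 2 + I * ((x + h / 2 : ℝ) : ℂ)) ((2 * A + 3) * h) ⊆ U →
      (∀ u, ‖u - (1 / 2 + I * ((x + h / 2 : ℝ) : ℂ))‖ ≤ (2 * A + 3) * h → ‖f u‖ ≤ M) →
      ∀ E : Set ℝ, E ⊆ Icc x (x + h) → 1 / 2 * h ≤ volume.real E → (∀ t ∈ E, ‖f (1 / 2 + I * (t : ℂ))‖ ≤ ε * M) →
      ∀ u, ‖u - (1 / 2 + I * ((x + h / 2 : ℝ) : ℂ))‖ ≤ A * h → ‖f u‖ ≤ τ * M := by
  set θ : ℝ := 1 / 2 with hθd
  have hθ : 0 < θ := by rw [hθd]; norm_num
  set K : ℝ := 2 * A + 3 with hK
  have hK5 : 5 ≤ K := by rw [hK]; linarith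
  obtain ⟨N, hN⟩ := exists_pow_lt_of_lt_one (show (0 : ℝ) < τ / 4 by positivity) (show (1 / 2 : ℝ) < 1 by norm_num)
  set C : ℝ := (N + 1) * (2 * (K + 1) * (N + 1) / θ) ^ N with hC
  have hC0 : 0 < C := by positivity
  refine ⟨min 1 (τ / 4) / C, by positivity, ?_⟩
  intro f U x h M hU hf hh hsub hM E hE hEv hfE v hv
  set ε : ℝ := min 1 (τ / 4) / C with hε
  have hεC : ε * C = min 1 (τ / 4) := by rw [hε]; field_simp
  have hε0 : 0 < ε := by positivity
  set c : ℂ := 1 / 2 + I * ((x + h / 2 : ℝ) : ℂ) with hc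
  have hM0 : 0 ≤ M := (norm_nonneg _).trans (hM c (by rw [sub_self, norm_zero]; positivity))
  set r : ℝ := θ * h / (4 * (N + 1)) with hr
  have hr0 : 0 < r := by positivity
  obtain ⟨Q₀, hQ1, hQ2, hQ3⟩ := Pool.Agent.X117.AR.exists_sep hr0 hE
  have hcard : N + 1 ≤ Q₀.card := by
    have h1 : θ * h ≤ (Q₀.card : ℝ) * (4 * r) := hEv.trans hQ3
    have h2 : θ * h = ((N + 1 : ℕ) : ℝ) * (4 * r) := by
      rw [hr]
      push_cast
      field_simp
    rw [h2] at h1
    exact_mod_cast le_of_mul_le_mul_right h1 (by positivity)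
  obtain ⟨Q₁, hQ₁, hQ₁c⟩ := Finset.exists_subset_card_eq hcard
  set e : ℝ ↪ ℂ := ⟨fun t : ℝ => 1 / 2 + I * (t : ℂ), by
    intro a b hab
    have := congrArg Complex.im hab
    simpa using this⟩ with he
  have hedist : ∀ a b : ℝ, ‖e a - e b‖ = |a - b| := by
    intro a b
    have : e a - e b = I * ((a - b : ℝ) : ℂ) := by
      rw [he]
      simp only [Function.Embedding.coeFn_mk]
      push_cast
      ring
    rw [this, norm_mul, Complex.norm_I, one_mul, Complex.norm_real, Real.norm_eq_abs]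
  set Q : Finset ℂ := Q₁.map e with hQ
  have hQcard : Q.card = N + 1 := by rw [hQ, Finset.card_map, hQ₁c]
  have hmem : ∀ z ∈ Q, ∃ s ∈ E, s ∈ Icc x (x + h) ∧ z = e s ∧ s ∈ Q₁ := by
    intro z hz
    obtain ⟨s, hs, rfl⟩ := Finset.mem_map.1 hz
    exact ⟨s, hQ1 s (hQ₁ hs), hE (hQ1 s (hQ₁ hs)), rfl, hs⟩
  have hcen : ∀ s ∈ Icc x (x + h), ‖e s - c‖ ≤ h / 2 := by
    intro s hs
    have : c = e (x + h / 2) := by rw [hc, he]; rfl
    rw [this, hedist, abs_le]
    constructor <;> linarith [hs.1, hs.2]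
  -- the interpolating function
  set d : ℝ := 2 * r with hd
  have hP : ∀ u, ‖u - c‖ ≤ K * h → ‖lag f Q u‖ ≤ min 1 (τ / 4) * M := by
    intro u hu
    have h1 := lag_bound (f := f) (Q := Q) (u := u) (B := (K + 1) * h) (d := d) (A := ε * M) (by positivity)
      (by positivity) (by
        intro z hz w hw hzw
        obtain ⟨s, -, -, rfl, hs⟩ := hmem z hz
        obtain ⟨s', -, -, rfl, hs'⟩ := hmem w hw
        rw [hedist]
        have hne : s ≠ s' := fun h0 => hzw (by rw [h0])
        exact (hQ2 s (hQ₁ hs) s' (hQ₁ hs') hne).le) (by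
        intro z hz
        obtain ⟨s, hs, -, rfl, -⟩ := hmem z hz
        exact hfE s hs) (by
        intro w hw
        obtain ⟨s, -, hs, rfl, -⟩ := hmem w hw
        have e1 : u - e s = (u - c) - (e s - c) := by ring
        rw [e1]
        have := norm_sub_le (u - c) (e s - c)
        nlinarith [hcen s hs])
    refine h1.trans (le_of_eq ?_)
    rw [hQcard, Nat.add_sub_cancel, ← hεC, hC, hd, hr]
    have e2 : (K + 1) * h / (2 * (θ * h / (4 * (N + 1)))) = 2 * (K + 1) * (N + 1) / θ := by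
      field_simp
      norm_num
    rw [e2]
    push_cast
    ring
  set m : ℝ := min 1 (τ / 4) with hm
  have hm1 : m ≤ 1 := min_le_left _ _
  have hmτ : m ≤ τ / 4 := min_le_right _ _
  have hm0 : 0 < m := by positivity
  set g : ℂ → ℂ := fun u => f u - lag f Q u with hg
  have hgd : DifferentiableOn ℂ g U := hf.sub (lag_diff f Q).differentiableOn
  have hgM : ∀ u, ‖u - c‖ ≤ K * h → ‖g u‖ ≤ 2 * M := by
    intro u hu
    have h1 := norm_sub_le (f u) (lag f Q u)
    have h2 := hM u hu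
    have h3 := hP u hu
    have h4 : m * M ≤ M := by nlinarith
    rw [hg]
    simp only
    linarith
  have hzero : ∀ z ∈ Q, (1 : ℕ∞) ≤ analyticOrderAt g z := by
    intro z hz
    obtain ⟨s, -, hs, rfl, -⟩ := hmem z hz
    have hzU : e s ∈ U := hsub (by
      rw [mem_closedBall, dist_eq_norm]
      nlinarith [hcen s hs])
    have han : AnalyticAt ℂ g (e s) := hgd.analyticAt (hU.mem_nhds hzU)
    have h0 : g (e s) = 0 := by
      rw [hg]
      simp only
      rw [lag_eq hz, sub_self]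
    rw [ENat.one_le_iff_ne_zero]
    intro hcon
    exact (han.analyticOrderAt_eq_zero.1 hcon) h0
  have h5 := schwarz (c := c) (r := h / 2) (R := K * h) (M := 2 * M) hU hgd (by positivity) (by nlinarith) hsub Q
    (fun _ => 1) (fun z hz => by
      obtain ⟨s, -, hs, rfl, -⟩ := hmem z hz
      exact hcen s hs) (fun z hz => by exact_mod_cast hzero z hz) hgM v (by nlinarith)
  have h6 : ∏ z ∈ Q, (‖v - z‖ / (K * h - h / 2)) ^ 1 ≤ (1 / 2 : ℝ) ^ N := by
    calc ∏ z ∈ Q, (‖v - z‖ / (K * h - h / 2)) ^ 1 ≤ ∏ _z ∈ Q, (1 / 2 : ℝ) := by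
          refine Finset.prod_le_prod (fun z _ => by
            rw [pow_one]
            exact div_nonneg (norm_nonneg _) (by nlinarith)) fun z hz => ?_
          obtain ⟨s, -, hs, rfl, -⟩ := hmem z hz
          rw [pow_one, div_le_div_iff₀ (by nlinarith) (by norm_num)]
          have e1 : v - e s = (v - c) - (e s - c) := by ring
          have h12 : ‖v - e s‖ ≤ A * h + h / 2 := by
            rw [e1]
            have := norm_sub_le (v - c) (e s - c)
            linarith [hcen s hs]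
          rw [hK]
          nlinarith
      _ = (1 / 2 : ℝ) ^ (N + 1) := by rw [Finset.prod_const, hQcard]
      _ ≤ (1 / 2 : ℝ) ^ N := pow_le_pow_of_le_one (by norm_num) (by norm_num) (Nat.le_succ N)
  have h7 : ‖g v‖ ≤ 2 * M * (τ / 4) :=
    h5.trans (mul_le_mul_of_nonneg_left (h6.trans hN.le) (by positivity))
  have h8 := hP v (by nlinarith)
  have h9 : f v = g v + lag f Q v := by rw [hg]; simp
  rw [h9]
  refine (norm_add_le _ _).trans ?_
  have h11 : m * M ≤ τ / 4 * M := mul_le_mul_of_nonneg_right hmτ hM0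
  nlinarith

/-- the value at a point nearby against the mean over a short segment of the line -/
theorem transfer {k A η : ℝ} (hk : 0 < k) (hA : 1 ≤ A) (hη : 0 < η) : ∃ C : ℝ, 0 < C ∧
    ∀ (x h M : ℝ), 1 + (2 * A + 3) * h < x → 0 < h → 
      (∀ u, ‖u - (1 / 2 + I * ((x + h / 2 : ℝ) : ℂ))‖ ≤ (2 * A + 3) * h → ‖riemannZeta u‖ ≤ M) →
      ∀ u, ‖u - (1 / 2 + I * ((x + h / 2 : ℝ) : ℂ))‖ ≤ A * h →
        ‖riemannZeta u‖ ^ (2 * k) ≤ η * M ^ (2 * k) + C / h * ∫ t in x..(x + h), F k t := by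
  obtain ⟨ε, hε, hR⟩ := remez2 hA (show 0 < η ^ (1 / (2 * k)) by positivity)
  refine ⟨2 / ε ^ (2 * k), by positivity, ?_⟩
  intro x h M hx hh hM u hu
  set c : ℂ := 1 / 2 + I * ((x + h / 2 : ℝ) : ℂ) with hc
  have hKh : 0 < (2 * A + 3) * h := by positivity
  have hsub : closedBall c ((2 * A + 3) * h) ⊆ U := ball_U (by linarith)
  have hM0 : 0 ≤ M := (norm_nonneg _).trans (hM c (by rw [sub_self, norm_zero]; positivity))
  have hI0 : 0 ≤ ∫ t in x..(x + h), F k t :=
    intervalIntegral.integral_nonneg (by linarith) fun t _ => F_nonneg _ _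
  have hcontn : Continuous fun t : ℝ => ‖riemannZeta (1 / 2 + I * (t : ℂ))‖ := line_cont.norm
  set E : Set ℝ := Icc x (x + h) ∩ {t | ‖riemannZeta (1 / 2 + I * (t : ℂ))‖ ≤ ε * M} with hE
  set E' : Set ℝ := Icc x (x + h) ∩ {t | ε * M < ‖riemannZeta (1 / 2 + I * (t : ℂ))‖} with hE'
  have hEm : MeasurableSet E := measurableSet_Icc.inter (isClosed_le hcontn continuous_const).measurableSet
  have hE'm : MeasurableSet E' := measurableSet_Icc.inter (isOpen_lt continuous_const hcontn).measurableSet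
  have hMk : 0 ≤ M ^ (2 * k) := Real.rpow_nonneg hM0 _
  rcases le_or_gt (1 / 2 * h) (volume.real E) with hcase | hcase
  · have h1 := hR riemannZeta U x h M U_open zeta_U hh hsub hM E inter_subset_left hcase (fun t ht => ht.2) u hu
    have h2 := Real.rpow_le_rpow (norm_nonneg _) h1 (show 0 ≤ 2 * k by linarith)
    rw [Real.mul_rpow (by positivity) hM0, ← Real.rpow_mul hη.le, one_div_mul_cancel (by positivity),
      Real.rpow_one] at h2
    have h3 : 0 ≤ 2 / ε ^ (2 * k) / h * ∫ t in x..(x + h), F k t := by positivity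
    linarith
  · have hun : E ∪ E' = Icc x (x + h) := by
      ext t
      constructor
      · rintro (h1 | h1) <;> exact h1.1
      · intro h1
        rcases le_or_gt (‖riemannZeta (1 / 2 + I * (t : ℂ))‖) (ε * M) with h2 | h2
        · exact Or.inl ⟨h1, h2⟩
        · exact Or.inr ⟨h1, h2⟩
    have hvol : volume.real (Icc x (x + h)) = h := by
      rw [Measure.real, Real.volume_Icc, ENNReal.toReal_ofReal (by linarith)]
      ring
    have hfin : ∀ S : Set ℝ, S ⊆ Icc x (x + h) → volume S ≠ ⊤ := fun S hS =>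
      ne_top_of_le_ne_top (by rw [Real.volume_Icc]; exact ENNReal.ofReal_ne_top) (measure_mono hS)
    have h1 : h ≤ volume.real E + volume.real E' := by
      rw [← hvol, ← hun]
      exact measureReal_union_le _ _
    have h2 : 1 / 2 * h ≤ volume.real E' := by linarith
    have h3 : volume.real E' * (ε * M) ^ (2 * k) ≤ ∫ t in x..(x + h), F k t := by
      rw [intervalIntegral.integral_of_le (by linarith), ← integral_Icc_eq_integral_Ioc]
      have h4 : ∫ _ in E', (ε * M) ^ (2 * k) ≤ ∫ t in E', F k t := by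
        refine setIntegral_mono_on (integrableOn_const (hfin E' inter_subset_left))
          (((F_cont hk).integrableOn_Icc).mono_set inter_subset_left) hE'm fun t ht => ?_
        exact Real.rpow_le_rpow (by positivity) ht.2.le (by linarith)
      rw [setIntegral_const, smul_eq_mul] at h4
      refine h4.trans (setIntegral_mono_set ((F_cont hk).integrableOn_Icc)
        (Filter.Eventually.of_forall fun t => F_nonneg _ _) (HasSubset.Subset.eventuallyLE inter_subset_left))
    have h5 : ‖riemannZeta u‖ ^ (2 * k) ≤ M ^ (2 * k) :=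
      Real.rpow_le_rpow (norm_nonneg _) (hM u (hu.trans (by nlinarith))) (by linarith)
    have h6 : 1 / 2 * h * (ε * M) ^ (2 * k) ≤ ∫ t in x..(x + h), F k t :=
      (mul_le_mul_of_nonneg_right h2 (by positivity)).trans h3
    rw [Real.mul_rpow hε.le hM0] at h6
    have h7 : M ^ (2 * k) ≤ 2 / ε ^ (2 * k) / h * ∫ t in x..(x + h), F k t := by
      have hεk : 0 < ε ^ (2 * k) := by positivity
      have e1 : M ^ (2 * k) = 2 / ε ^ (2 * k) / h * (1 / 2 * h * (ε ^ (2 * k) * M ^ (2 * k))) := by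
        field_simp
      calc M ^ (2 * k) = 2 / ε ^ (2 * k) / h * (1 / 2 * h * (ε ^ (2 * k) * M ^ (2 * k))) := e1
        _ ≤ _ := mul_le_mul_of_nonneg_left h6 (by positivity)
    have h8 : 0 ≤ η * M ^ (2 * k) := by positivity
    linarith

end Pool.Agent.X117.MS
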