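import Pool.Agent.X117.Mas5

/-!
# The lower bound right of the line, and the pointwise bound with few zeros nearby
-/

namespace Pool.Agent.X117.MS

open Filter Topology MeasureTheory Complex Set Metric
open Pool.Agent.X117.DZ Pool.Agent.X117.SZ Pool.Agent.X117.RM
open Pool.Agent.Y755
open Pool.Agent.W184 (zn zn_nonneg zn_cont)
open Pool.Agent.H306R2 (aF aF_pos)

/-- the moments right of the line from below -/
theorem low_shift {k : ℝ} (hk : 0 < k) (hk2 : k ≤ 2) : ∃ c lam : ℝ, 0 < c ∧ 1 ≤ lam ∧ ∀ A : ℝ, lam ≤ A →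
    ∀ᶠ T : ℝ in atTop, c * A ^ (-(k ^ 2)) * (T * Real.log T ^ (k ^ 2)) ≤
      ∫ t in (5 / 4 * T)..(7 / 4 * T), zn (1 / 2 + A / Real.log T) t ^ (2 * k) := by
  have hup : ∃ lam : ℝ, 1 ≤ lam ∧ ∀ x : ℝ, ∀ᶠ T : ℝ in atTop, ∀ δ : ℝ, lam / Real.log T ≤ δ → δ ≤ 1 / 16 →
      mom (2 * k) (1 / 2 + δ) x T ≤ (1 + 1 / 12) * DD k δ := by
    rcases le_total k 1 with h | h
    · exact mom_up hk h (by norm_num)
    · exact mom_up4 h hk2 (by norm_num)
  obtain ⟨l1, hl1, hu⟩ := hup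
  obtain ⟨l2, hl2, hl⟩ := mom_low hk hk2 (ε := 1 / 12) (by norm_num)
  have haF : 0 < aF k := aF_pos hk
  refine ⟨aF k / 8 * 2 ^ (-(k ^ 2)), max l1 l2, by positivity, hl1.trans (le_max_left _ _), fun A hA => ?_⟩
  have hA1 : l1 ≤ A := (le_max_left _ _).trans hA
  have hA2 : l2 ≤ A := (le_max_right _ _).trans hA
  have hA0 : 0 < A := by linarith
  have t1 : Tendsto (fun T : ℝ => 7 / 4 * T) atTop atTop := tendsto_id.const_mul_atTop (by norm_num)
  have t2 : Tendsto (fun T : ℝ => 5 / 4 * T) atTop atTop := tendsto_id.const_mul_atTop (by norm_num)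
  have hδ : Tendsto (fun T : ℝ => A / Real.log T) atTop (𝓝 0) := Real.tendsto_log_atTop.const_div_atTop A
  have hδ0 : ∀ᶠ T : ℝ in atTop, 0 < A / Real.log T := by
    filter_upwards [eventually_gt_atTop 1] with T hT
    exact div_pos hA0 (Real.log_pos hT)
  have hD := DD_asym hk hδ0 hδ
  filter_upwards [t1.eventually (hl 0), t2.eventually (hu 0), hδ0,
    hD.eventually (lt_mem_nhds (show aF k / 2 < aF k by linarith)),
    eventually_gt_atTop 1, hδ.eventually (gt_mem_nhds (show (0 : ℝ) < 1 / 16 by norm_num))] with T g1 g2 g3 g4 g5 g6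
  have hL : 0 < Real.log T := Real.log_pos g5
  have hT0 : 0 < T := by linarith
  set δ : ℝ := A / Real.log T with hδd
  have h1 : l2 / Real.log (7 / 4 * T) ≤ δ := by
    refine (div_le_div_of_nonneg_left (by linarith) hL (Real.log_le_log hT0 (by linarith))).trans ?_
    exact div_le_div_of_nonneg_right hA2 hL.le
  have h2 : l1 / Real.log (5 / 4 * T) ≤ δ := by
    refine (div_le_div_of_nonneg_left (by linarith) hL (Real.log_le_log hT0 (by linarith))).trans ?_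
    exact div_le_div_of_nonneg_right hA1 hL.le
  have g1' := g1 δ h1 g6.le
  have g2' := g2 δ h2 g6.le
  rw [mom_eq _ _ _ (by positivity), add_zero] at g1' g2'
  rw [inv_mul_eq_div, le_div_iff₀ (by positivity)] at g1'
  rw [inv_mul_eq_div, div_le_iff₀ (by positivity)] at g2'
  have hi : ∀ a b : ℝ, IntervalIntegrable (fun t => zn (1 / 2 + δ) t ^ (2 * k)) volume a b := fun a b =>
    Pool.Agent.Y496.UP.zn_ii (by linarith) (by linarith)
  have h3 := intervalIntegral.integral_add_adjacent_intervals (hi 0 (5 / 4 * T)) (hi (5 / 4 * T) (7 / 4 * T))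
  set D := DD k δ with hDd
  have hL2 : (2 * δ) ^ (k ^ 2) = 2 ^ (k ^ 2) * A ^ (k ^ 2) / Real.log T ^ (k ^ 2) := by
    rw [Real.mul_rpow (by norm_num) g3.le, hδd, Real.div_rpow hA0.le hL.le]
    ring
  have hLk : 0 < Real.log T ^ (k ^ 2) := by positivity
  have hD2 : aF k / 2 * 2 ^ (-(k ^ 2)) * A ^ (-(k ^ 2)) * Real.log T ^ (k ^ 2) ≤ D := by
    rw [hL2] at g4
    rw [Real.rpow_neg (by norm_num), Real.rpow_neg hA0.le]
    have hp : 0 < (2 : ℝ) ^ (k ^ 2) * A ^ (k ^ 2) := by positivity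
    rw [div_mul_eq_mul_div, lt_div_iff₀ hLk] at g4
    have e1 : aF k / 2 * ((2 : ℝ) ^ (k ^ 2))⁻¹ * (A ^ (k ^ 2))⁻¹ * Real.log T ^ (k ^ 2) =
        aF k / 2 * Real.log T ^ (k ^ 2) / (2 ^ (k ^ 2) * A ^ (k ^ 2)) := by
      field_simp
    rw [e1, div_le_iff₀ hp]
    linarith
  have h4 : T * D / 4 ≤ ∫ t in (5 / 4 * T)..(7 / 4 * T), zn (1 / 2 + δ) t ^ (2 * k) := by
    have e2 : (1 - 1 / 12) * D * (7 / 4 * T) - (1 + 1 / 12) * D * (5 / 4 * T) = T * D / 4 := by ring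
    linarith
  refine le_trans ?_ h4
  calc aF k / 8 * 2 ^ (-(k ^ 2)) * A ^ (-(k ^ 2)) * (T * Real.log T ^ (k ^ 2)) =
      T * (aF k / 2 * 2 ^ (-(k ^ 2)) * A ^ (-(k ^ 2)) * Real.log T ^ (k ^ 2)) / 4 := by ring
    _ ≤ T * D / 4 := by
      have := mul_le_mul_of_nonneg_left hD2 hT0.le
      linarith

/-- the pointwise bound with few zeros nearby -/
theorem few_pt {k : ℝ} (hk : 0 < k) : ∃ K0 : ℝ, 0 < K0 ∧ ∀ (A κ T t P4 P2 E : ℝ) (n : ℕ), 1 ≤ A → 10 ≤ κ →
    20 ≤ T → 8 * (κ * A) ≤ Real.log T → T ≤ t → 0 ≤ P4 → 0 ≤ P2 → 0 < E →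
    riemannZeta (1 / 2 + I * t) ≠ 0 →
    (∀ s : ℂ, ‖s - (1 / 2 + I * t)‖ ≤ 4 / Real.log T → ‖riemannZeta s‖ ^ (2 * k) ≤ P4) →
    (∀ s : ℂ, ‖s - (1 / 2 + I * t)‖ ≤ 2 * κ * A / Real.log T → ‖riemannZeta s‖ ^ (2 * k) ≤ P2) →
    cnt (κ * A / Real.log T) t ≤ n →
    zn (1 / 2 + A / Real.log T) t ^ (2 * k) ≤
      Real.exp (k * (K0 + 2 - A)) * (2 * κ * A) ^ (2 * n * k) * E ^ (96 / κ ^ 2) * (P4 + P2 / E) := by
  obtain ⟨K0, hK0, hfe⟩ := left_low
  refine ⟨K0, hK0, fun A κ T t P4 P2 E n hA hκ hT hL8 hTt hP4 hP2 hE hc h4 h2 hcnt => ?_⟩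
  have hA0 : 0 < A := by linarith
  have hκ0 : 0 < κ := by linarith
  have hκA : 10 ≤ κ * A := by nlinarith
  have hL0 : 0 < Real.log T := by linarith
  set L := Real.log T with hL
  set c : ℂ := 1 / 2 + I * t with hcd
  have h2k : (0 : ℝ) < 2 * k := by positivity
  have hroot : ∀ {x P : ℝ}, 0 ≤ x → x ^ (2 * k) ≤ P → x ≤ P ^ (1 / (2 * k)) := by
    intro x P hx hxP
    have h5 := Real.rpow_le_rpow (Real.rpow_nonneg hx _) hxP (show 0 ≤ 1 / (2 * k) by positivity)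
    rwa [← Real.rpow_mul hx, mul_one_div_cancel h2k.ne', Real.rpow_one] at h5
  have hρ8 : κ * A / L ≤ 1 / 8 := by
    rw [div_le_div_iff₀ hL0 (by norm_num)]
    linarith
  have hfb := few_bound (f := riemannZeta) (c := c) (h := 1 / L) (ρ := κ * A / L) (y := A / L)
    (M4 := P4 ^ (1 / (2 * k))) (M2 := P2 ^ (1 / (2 * k))) (n := n) (by positivity) (by
      rw [mul_one_div]
      exact div_le_div_of_nonneg_right (by linarith) hL0.le) (by
      have hsub : closedBall c (2 * (κ * A / L)) ⊆ U := ball_U (by linarith)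
      exact (zeta_U.analyticOnNhd U_open).mono hsub) hc (fun z hz => by
      rw [mem_closedBall, dist_eq_norm, mul_one_div] at hz
      exact hroot (norm_nonneg _) (h4 z hz)) (fun z hz => by
      rw [mem_closedBall, dist_eq_norm] at hz
      refine hroot (norm_nonneg _) (h2 z (hz.trans (le_of_eq ?_)))
      ring) (fun S hS => by
      refine le_trans ?_ hcnt
      have hfin := nb_fin (x := κ * A / L) (t := t) (by linarith) (by linarith)
      unfold cnt
      rw [finsum_mem_eq_finite_toFinset_sum _ hfin]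
      refine Finset.sum_le_sum_of_subset fun z hz => ?_
      rw [Set.Finite.mem_toFinset]
      obtain ⟨h5, h6⟩ := hS z hz
      rw [mem_closedBall, dist_eq_norm, norm_sub_rev] at h5
      exact ⟨h6, h5⟩) (by positivity) (by
      rw [div_div, div_le_div_iff₀ hL0 (by positivity)]
      have h16 := mul_nonneg (sub_nonneg.2 hκ) (mul_nonneg hA0.le hL0.le)
      nlinarith)
  have e1 : 2 * (κ * A / L) / (1 / L) = 2 * κ * A := by field_simp
  have e2 : A / L / (κ * A / L) = 1 / κ := by field_simp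
  rw [e1, e2] at hfb
  set τ : ℝ := 96 / κ ^ 2 with hτ
  have e3 : 192 * (1 / κ) ^ 2 = 2 * τ := by rw [hτ]; ring
  rw [e3] at hfb
  have hτ0 : 0 < τ := by positivity
  have hτ1 : τ ≤ 1 := by
    rw [hτ, div_le_one (by positivity)]
    nlinarith
  -- the functional equation
  have e4 : c + ((A / L : ℝ) : ℂ) = ((1 / 2 + A / L : ℝ) : ℂ) + t * I := by
    rw [hcd]
    push_cast
    ring
  have e5 : c - ((A / L : ℝ) : ℂ) = ((1 / 2 - A / L : ℝ) : ℂ) + t * I := by
    rw [hcd]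
    push_cast
    ring
  have hAL : A / L ≤ 1 / 8 := by
    refine le_trans (div_le_div_of_nonneg_right ?_ hL0.le) hρ8
    nlinarith
  have h6 := hfe (A / L) t (by positivity) (by linarith) (by linarith)
  rw [e4, e5] at hfb
  set w : ℝ := ‖riemannZeta (((1 / 2 + A / L : ℝ) : ℂ) + t * I)‖ with hw
  have hw0 : 0 ≤ w := norm_nonneg _
  have h7 : Real.exp A ≤ t ^ (A / L) := by
    have h8 : T ^ (A / L) ≤ t ^ (A / L) := Real.rpow_le_rpow (by linarith) hTt (by positivity)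
    refine le_trans (le_of_eq ?_) h8
    rw [Real.rpow_def_of_pos (by linarith), ← hL]
    congr 1
    field_simp
  have h9 : Real.exp (A - K0) * w ≤ ‖riemannZeta (((1 / 2 - A / L : ℝ) : ℂ) + t * I)‖ := by
    refine le_trans (mul_le_mul_of_nonneg_right ?_ hw0) h6
    rw [sub_eq_neg_add, Real.exp_add]
    exact mul_le_mul_of_nonneg_left h7 (Real.exp_pos _).le
  set M4 : ℝ := P4 ^ (1 / (2 * k)) with hM4
  set M2 : ℝ := P2 ^ (1 / (2 * k)) with hM2
  have hM40 : 0 ≤ M4 := Real.rpow_nonneg hP4 _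
  have hM20 : 0 ≤ M2 := Real.rpow_nonneg hP2 _
  have h10 : w ^ 2 ≤ Real.exp (K0 + 2 - A) * (2 * κ * A) ^ (2 * n) * (M4 ^ (2 - 2 * τ) * M2 ^ (2 * τ)) := by
    have h11 : w * (Real.exp (A - K0) * w) ≤ (2 * κ * A) ^ (2 * n) * Real.exp 2 * (M4 ^ (2 - 2 * τ) * M2 ^ (2 * τ)) :=
      (mul_le_mul_of_nonneg_left h9 hw0).trans hfb
    have e6 : Real.exp (K0 + 2 - A) = Real.exp (K0 - A) * Real.exp 2 := by
      rw [← Real.exp_add]
      congr 1
      ring
    have e7 : Real.exp (K0 - A) * Real.exp (A - K0) = 1 := by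
      rw [← Real.exp_add]
      simp
    calc w ^ 2 = (Real.exp (K0 - A) * Real.exp (A - K0)) * w ^ 2 := by rw [e7, one_mul]
      _ = Real.exp (K0 - A) * (w * (Real.exp (A - K0) * w)) := by ring
      _ ≤ Real.exp (K0 - A) * ((2 * κ * A) ^ (2 * n) * Real.exp 2 * (M4 ^ (2 - 2 * τ) * M2 ^ (2 * τ))) :=
          mul_le_mul_of_nonneg_left h11 (Real.exp_pos _).le
      _ = _ := by rw [e6]; ring
  have h12 := Real.rpow_le_rpow (by positivity) h10 hk.le
  have hB0 : 0 < 2 * κ * A := by positivity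
  have e8 : (w ^ 2) ^ k = w ^ (2 * k) := by
    rw [← Real.rpow_natCast, ← Real.rpow_mul hw0]
    norm_num
  have e9 : ((2 * κ * A) ^ (2 * n)) ^ k = (2 * κ * A) ^ (2 * n * k) := by
    rw [← Real.rpow_natCast, ← Real.rpow_mul hB0.le]
    push_cast
    ring_nf
  have e10 : (M4 ^ (2 - 2 * τ)) ^ k = P4 ^ (1 - τ) := by
    rw [← Real.rpow_mul hM40, hM4, ← Real.rpow_mul hP4]
    congr 1
    field_simp
  have e11 : (M2 ^ (2 * τ)) ^ k = P2 ^ τ := by
    rw [← Real.rpow_mul hM20, hM2, ← Real.rpow_mul hP2]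
    congr 1
    field_simp
  rw [e8, Real.mul_rpow (by positivity) (by positivity), Real.mul_rpow (by positivity) (by positivity),
    Real.mul_rpow (by positivity) (by positivity), e9, e10, e11, ← Real.exp_mul] at h12
  -- the mean
  have h13 : P4 ^ (1 - τ) * P2 ^ τ ≤ E ^ τ * (P4 + P2 / E) := by
    have h14 := Real.geom_mean_le_arith_mean2_weighted (w₁ := 1 - τ) (w₂ := τ) (p₁ := P4) (p₂ := P2 / E)
      (by linarith) hτ0.le hP4 (by positivity) (by ring)
    have h15 : (1 - τ) * P4 + τ * (P2 / E) ≤ P4 + P2 / E := by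
      have : 0 ≤ P2 / E := by positivity
      nlinarith
    calc P4 ^ (1 - τ) * P2 ^ τ = E ^ τ * (P4 ^ (1 - τ) * (P2 / E) ^ τ) := by
          rw [Real.div_rpow hP2 hE.le]
          have : E ^ τ ≠ 0 := (Real.rpow_pos_of_pos hE _).ne'
          field_simp
      _ ≤ _ := mul_le_mul_of_nonneg_left (h14.trans h15) (Real.rpow_nonneg hE.le _)
  have e12 : zn (1 / 2 + A / L) t = w := by
    rw [hw]
    unfold zn
    rfl
  rw [e12]
  calc w ^ (2 * k) ≤ Real.exp ((K0 + 2 - A) * k) * (2 * κ * A) ^ (2 * n * k) * (P4 ^ (1 - τ) * P2 ^ τ) := h12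
    _ ≤ Real.exp ((K0 + 2 - A) * k) * (2 * κ * A) ^ (2 * n * k) * (E ^ τ * (P4 + P2 / E)) :=
        mul_le_mul_of_nonneg_left h13 (by positivity)
    _ = _ := by
        rw [mul_comm (K0 + 2 - A) k]
        ring

end Pool.Agent.X117.MS
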