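import Pool.Agent.X117.Mas6

/-!
# The contribution of the neighbourhoods of the zeros
-/

namespace Pool.Agent.X117.MS

open Filter Topology MeasureTheory Complex Set Metric
open Pool.Agent.X117.DZ Pool.Agent.X117.SZ Pool.Agent.X117.RM
open Pool.Agent.W184 (zn zn_nonneg zn_cont)

/-- the set of the `t` with many zeros nearby is measurable -/
lemma near_meas (n : ℕ) {x T : ℝ} (hT : 20 ≤ T) (hx : x / Real.log T ≤ 1 / 8) : MeasurableSet (near n x T) := by
  classical
  set δ : ℝ := x / Real.log T with hδ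
  have hfin := H370.zeta_zeros_finite (2 * T + 1)
  set Zs := hfin.toFinset with hZs
  have hcnt : ∀ t, T ≤ t → t ≤ 2 * T →
      cnt δ t = ∑ z ∈ Zs, if ‖1 / 2 + I * (t : ℂ) - z‖ ≤ δ then analyticOrderNatAt riemannZeta z else 0 := by
    intro t h1 h2
    have hf := nb_fin (x := δ) (t := t) (by linarith) (by linarith)
    unfold cnt
    rw [finsum_mem_eq_finite_toFinset_sum _ hf, ← Finset.sum_filter]
    refine Finset.sum_congr ?_ fun _ _ => rfl
    ext z
    rw [Set.Finite.mem_toFinset, Finset.mem_filter, hZs, Set.Finite.mem_toFinset]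
    constructor
    · rintro ⟨h3, h4⟩
      have h5 := (Complex.abs_re_le_norm (1 / 2 + I * t - z)).trans h4
      have h6 := (Complex.abs_im_le_norm (1 / 2 + I * t - z)).trans h4
      have e1 : (1 / 2 + I * (t : ℂ) - z).re = 1 / 2 - z.re := by simp
      have e2 : (1 / 2 + I * (t : ℂ) - z).im = t - z.im := by simp
      rw [e1, abs_le] at h5
      rw [e2, abs_le] at h6
      refine ⟨⟨?_, ?_, ?_, ?_, h3⟩, h4⟩ <;> linarith [h5.1, h5.2, h6.1, h6.2]
    · rintro ⟨⟨-, -, -, -, h3⟩, h4⟩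
      exact ⟨h3, h4⟩
  have e : near n x T = Icc T (2 * T) ∩ {t : ℝ | n ≤ ∑ z ∈ Zs,
      if ‖1 / 2 + I * (t : ℂ) - z‖ ≤ δ then analyticOrderNatAt riemannZeta z else 0} := by
    ext t
    constructor
    · rintro ⟨h1, h2, h3⟩
      refine ⟨⟨h1, h2⟩, ?_⟩
      rw [mem_ofPred_eq, ← hcnt t h1 h2]
      exact h3
    · rintro ⟨⟨h1, h2⟩, h3⟩
      refine ⟨h1, h2, ?_⟩
      rw [mem_ofPred_eq, ← hcnt t h1 h2] at h3
      exact h3
  rw [e]
  refine measurableSet_Icc.inter (measurableSet_le measurable_const ?_)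
  refine Finset.measurable_sum _ fun z _ => Measurable.ite ?_ measurable_const measurable_const
  exact (isClosed_le (by fun_prop) continuous_const).measurableSet

lemma cnt_mono {x y t u : ℝ} (hy : y ≤ 1 / 4) (hx : x ≤ 1 / 4) (ht : 1 ≤ t) (hu : 1 ≤ u) (h : |t - u| ≤ y - x) :
    cnt x t ≤ cnt y u := by
  have h1 := nb_fin hx ht
  have h2 := nb_fin hy hu
  unfold cnt
  rw [finsum_mem_eq_finite_toFinset_sum _ h1, finsum_mem_eq_finite_toFinset_sum _ h2]
  refine Finset.sum_le_sum_of_subset fun z hz => ?_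
  rw [Set.Finite.mem_toFinset] at hz ⊢
  obtain ⟨h3, h4⟩ := hz
  refine ⟨h3, ?_⟩
  have e : 1 / 2 + I * (u : ℂ) - z = (1 / 2 + I * (t : ℂ) - z) - I * ((t - u : ℝ) : ℂ) := by
    push_cast
    ring
  have e2 : ‖I * ((t - u : ℝ) : ℂ)‖ = |t - u| := by
    rw [norm_mul, Complex.norm_I, one_mul, Complex.norm_real, Real.norm_eq_abs]
  rw [e]
  have h5 := norm_sub_le (1 / 2 + I * (t : ℂ) - z) (I * ((t - u : ℝ) : ℂ))
  rw [e2] at h5
  linarith

/-- a double integral -/
lemma shift_int {g : ℝ → ENNReal} (hg : Measurable g) {h : ℝ} (S : Set ℝ) :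
    ∫⁻ t in S, ∫⁻ v in Ioc (-(h / 2)) (h / 2), g (t + v) ≤ ENNReal.ofReal h * ∫⁻ t, g t := by
  refine (setLIntegral_le_lintegral S _).trans ?_
  rw [lintegral_lintegral_swap]
  · have e : ∀ v : ℝ, ∫⁻ t, g (t + v) = ∫⁻ t, g t := fun v => lintegral_add_right_eq_self g v
    simp_rw [e]
    rw [setLIntegral_const, Real.volume_Ioc, mul_comm]
    refine le_of_eq ?_
    congr 2
    ring
  · exact (hg.comp (measurable_fst.add measurable_snd)).aemeasurable

/-- a positive proportion of the moment comes from the neighbourhoods of the zeros -/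
theorem mass_low {k : ℝ} (hk : 0 < k) (hk2 : k ≤ 2) (n : ℕ) : ∃ R c : ℝ, 0 < R ∧ 0 < c ∧ ∀ᶠ T : ℝ in atTop,
    ENNReal.ofReal (c * (T * Real.log T ^ (k ^ 2))) ≤
      ∫⁻ t in near n R T, ENNReal.ofReal (‖riemannZeta (1 / 2 + I * t)‖ ^ (2 * k)) := by
  obtain ⟨c, lam, hc, hlam, hlow⟩ := low_shift hk hk2
  obtain ⟨C2, C3, hC2, hC3, hmaj⟩ := major3 hk hk2
  obtain ⟨K0, hK0, hfew⟩ := few_pt hk
  set κ : ℝ := max 10 (384 * C3 / k) with hκ
  have hκ10 : 10 ≤ κ := le_max_left _ _
  have hκ0 : 0 < κ := by linarith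
  have hκC : 384 * C3 / k ≤ κ := le_max_right _ _
  set Q : ℝ := Real.exp (k * (K0 + 2)) * (2 * κ) ^ (2 * n * k) * (C2 * Real.exp (C3 * 4) + C2) with hQ
  have hQ0 : 0 < Q := by positivity
  have htend := tendsto_rpow_mul_exp_neg_mul_atTop_nhds_zero (2 * n * k + k ^ 2) (k / 2) (by positivity)
  obtain ⟨A, hA1, hA2, hA3⟩ := ((htend.eventually (gt_mem_nhds (show 0 < c / 2 / Q by positivity))).and
    ((eventually_ge_atTop lam).and (eventually_ge_atTop 1))).exists
  have hA0 : 0 < A := by linarith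
  have hκA : 10 ≤ κ * A := by nlinarith
  set E : ℝ := Real.exp (C3 * (2 * κ * A)) with hE
  have hE0 : 0 < E := Real.exp_pos _
  set Λ : ℝ := Real.exp (k * (K0 + 2 - A)) * (2 * κ * A) ^ (2 * n * k) * E ^ (96 / κ ^ 2) with hΛ
  have hΛ0 : 0 < Λ := by positivity
  -- the choice of `A`
  have hchoice : Λ * (C2 * Real.exp (C3 * 4) + C2) ≤ c / 2 * A ^ (-(k ^ 2)) := by
    have h1 : E ^ (96 / κ ^ 2) ≤ Real.exp (k / 2 * A) := by
      rw [hE, ← Real.exp_mul]
      refine Real.exp_le_exp.2 ?_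
      have h2 : 384 * C3 ≤ κ * k := by
        rwa [div_le_iff₀ hk] at hκC
      have e1 : C3 * (2 * κ * A) * (96 / κ ^ 2) = 192 * C3 / κ * A := by field_simp; ring
      rw [e1]
      refine mul_le_mul_of_nonneg_right ?_ hA0.le
      rw [div_le_iff₀ hκ0]
      linarith
    have e2 : Real.exp (k * (K0 + 2 - A)) = Real.exp (k * (K0 + 2)) * Real.exp (-(k * A)) := by
      rw [← Real.exp_add]
      congr 1
      ring
    have e3 : (2 * κ * A) ^ (2 * n * k) = (2 * κ) ^ (2 * n * k) * A ^ (2 * n * k) :=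
      Real.mul_rpow (by positivity) hA0.le
    have e4 : Real.exp (-(k * A)) * Real.exp (k / 2 * A) = Real.exp (-(k / 2) * A) := by
      rw [← Real.exp_add]
      congr 1
      ring
    have e5 : A ^ (2 * n * k + k ^ 2) = A ^ (2 * n * k) * A ^ (k ^ 2) := Real.rpow_add hA0 _ _
    have hAk : 0 < A ^ (k ^ 2) := by positivity
    rw [Real.rpow_neg hA0.le, ← div_eq_mul_inv, le_div_iff₀ hAk]
    rw [lt_div_iff₀ hQ0, e5] at hA1
    calc Λ * (C2 * Real.exp (C3 * 4) + C2) * A ^ (k ^ 2)
        ≤ (Real.exp (k * (K0 + 2)) * Real.exp (-(k * A)) * ((2 * κ) ^ (2 * n * k) * A ^ (2 * n * k)) *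
            Real.exp (k / 2 * A)) * (C2 * Real.exp (C3 * 4) + C2) * A ^ (k ^ 2) := by
          rw [hΛ, e2, e3]
          gcongr
      _ = A ^ (2 * n * k) * A ^ (k ^ 2) * (Real.exp (-(k * A)) * Real.exp (k / 2 * A)) * Q := by
          rw [hQ]
          ring
      _ = A ^ (2 * n * k) * A ^ (k ^ 2) * Real.exp (-(k / 2) * A) * Q := by rw [e4]
      _ ≤ c / 2 := hA1.le
  set cA : ℝ := c * A ^ (-(k ^ 2)) with hcA
  have hcA0 : 0 < cA := by positivity
  set η : ℝ := cA / 4 / (C2 * Real.exp (C3 * (2 * A + 3))) with hη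
  have hη0 : 0 < η := by positivity
  obtain ⟨C, hC, htr⟩ := transfer hk hA3 hη0
  refine ⟨κ * A + 1, cA / (4 * C), by positivity, by positivity, ?_⟩
  filter_upwards [hlow A hA2, hmaj 4 (by norm_num), hmaj (2 * κ * A) (by nlinarith), hmaj (2 * A + 3) (by linarith),
    eventually_ge_atTop (20 : ℝ), Real.tendsto_log_atTop.eventually_ge_atTop (8 * (κ * A + 1)),
    Real.tendsto_log_atTop.eventually_ge_atTop (16 * (2 * A + 3))]
    with T q1 q2 q3 q4 hT20 hL8 hL16
  have hL0 : 0 < Real.log T := by linarith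
  set L := Real.log T with hL
  have hT0 : 0 < T := by linarith
  set X : ℝ := T * L ^ (k ^ 2) with hX
  have hX0 : 0 < X := by positivity
  obtain ⟨P4, hP4c, hP40, hP4b, hP4i⟩ := q2
  obtain ⟨P2, hP2c, hP20, hP2b, hP2i⟩ := q3
  obtain ⟨P3, hP3c, hP30, hP3b, hP3i⟩ := q4
  have hκL : κ * A / L ≤ 1 / 8 := by
    rw [div_le_div_iff₀ hL0 (by norm_num)]
    linarith
  have hκL1 : (κ * A + 1) / L ≤ 1 / 8 := by
    rw [div_le_div_iff₀ hL0 (by norm_num)]
    linarith
  have hAL16 : (2 * A + 3) / L ≤ 1 / 16 := by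
    rw [div_le_div_iff₀ hL0 (by norm_num)]
    linarith
  have hAL : A / L ≤ 1 / 16 := (div_le_div_of_nonneg_right (by linarith) hL0.le).trans hAL16
  have hL1 : 1 / L ≤ 1 / 8 := (div_le_div_of_nonneg_right (by nlinarith) hL0.le).trans hκL1
  set w : ℝ → ENNReal := fun t => ENNReal.ofReal (zn (1 / 2 + A / L) t ^ (2 * k)) with hw
  set I₀ : Set ℝ := Ioc (5 / 4 * T) (7 / 4 * T) with hI₀
  set G : Set ℝ := near n (κ * A) T with hG
  set G' : Set ℝ := near n (κ * A + 1) T with hG'
  have hGm : MeasurableSet G := near_meas n hT20 hκL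
  have hG'm : MeasurableSet G' := near_meas n hT20 hκL1
  set J : ENNReal := ∫⁻ t in G', ENNReal.ofReal (‖riemannZeta (1 / 2 + I * t)‖ ^ (2 * k)) with hJ
  -- the lower bound
  have s1 : ENNReal.ofReal (cA * X) ≤ ∫⁻ t in I₀, w t := by
    rw [hw, hI₀, ← ofReal_integral_eq_lintegral_ofReal, ← intervalIntegral.integral_of_le (by linarith)]
    · exact ENNReal.ofReal_le_ofReal q1
    · have hii : IntervalIntegrable (fun t : ℝ => zn (1 / 2 + A / L) t ^ (2 * k)) volume (5 / 4 * T) (7 / 4 * T) :=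
        Pool.Agent.Y496.UP.zn_ii (by linarith) (by linarith)
      exact (intervalIntegrable_iff_integrableOn_Ioc_of_le (by linarith)).1 hii
    · exact Filter.Eventually.of_forall fun t => Real.rpow_nonneg (zn_nonneg _ _) _
  -- the exceptional points
  set N0 : Set ℝ := {t : ℝ | 0 < t ∧ t ≤ 2 * T ∧ riemannZeta (1 / 2 + I * t) = 0} with hN0
  have hN0f : N0.Finite := by
    have hinj : Set.InjOn (fun t : ℝ => (1 / 2 + I * (t : ℂ))) ((fun t : ℝ => (1 / 2 + I * (t : ℂ))) ⁻¹'
        (H370.zset riemannZeta 0 (2 * T))) := by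
      intro a _ b _ hab
      have := congrArg Complex.im hab
      simpa using this
    refine ((H370.zeta_zeros_finite (2 * T)).preimage hinj).subset ?_
    rintro t ⟨h1, h2, h3⟩
    refine ⟨?_, ?_, ?_, ?_, h3⟩
    · simp
    · simp; norm_num
    · simpa using h1
    · simpa using h2
  have hN0m : MeasurableSet N0 := hN0f.measurableSet
  -- few zeros
  have s2 : ∫⁻ t in (I₀ \ G) \ N0, w t ≤ ENNReal.ofReal (cA * X / 2) := by
    have h1 : ∫⁻ t in (I₀ \ G) \ N0, w t ≤ ∫⁻ t in (I₀ \ G) \ N0, ENNReal.ofReal (Λ * (P4 t + P2 t / E)) := by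
      refine setLIntegral_mono' ((measurableSet_Ioc.diff hGm).diff hN0m) fun t ht => ?_
      obtain ⟨⟨⟨h2, h3⟩, h4⟩, h5⟩ := ht
      have hIcc : t ∈ Icc T (2 * T) := ⟨by linarith, by linarith⟩
      have h6 : cnt (κ * A / L) t ≤ n := by
        by_contra hcon
        exact h4 ⟨hIcc.1, hIcc.2, (not_le.1 hcon).le⟩
      have h7 : riemannZeta (1 / 2 + I * t) ≠ 0 := fun h0 => h5 ⟨by linarith, by linarith, h0⟩
      refine ENNReal.ofReal_le_ofReal ?_
      exact hfew A κ T t (P4 t) (P2 t) E n hA3 hκ10 hT20 (by rw [← hL]; linarith) hIcc.1 (hP40 t) (hP20 t) hE0 h7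
        (fun s hs => hP4b t hIcc s hs) (fun s hs => hP2b t hIcc s hs) h6
    have h2 : ∫⁻ t in (I₀ \ G) \ N0, ENNReal.ofReal (Λ * (P4 t + P2 t / E)) ≤
        ∫⁻ t in Icc T (2 * T), ENNReal.ofReal (Λ * (P4 t + P2 t / E)) := by
      refine lintegral_mono_set fun t ht => ?_
      obtain ⟨⟨⟨h2, h3⟩, -⟩, -⟩ := ht
      exact ⟨by linarith, by linarith⟩
    refine h1.trans (h2.trans ?_)
    have e1 : ∀ t, ENNReal.ofReal (Λ * (P4 t + P2 t / E)) =
        ENNReal.ofReal Λ * (ENNReal.ofReal (P4 t) + ENNReal.ofReal (1 / E) * ENNReal.ofReal (P2 t)) := by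
      intro t
      rw [ENNReal.ofReal_mul hΛ0.le, ENNReal.ofReal_add (hP40 t) (div_nonneg (hP20 t) hE0.le),
        ← ENNReal.ofReal_mul (by positivity)]
      congr 3
      ring
    simp_rw [e1]
    rw [lintegral_const_mul' _ _ ENNReal.ofReal_ne_top, lintegral_add_left (hP4c.measurable.ennreal_ofReal),
      lintegral_const_mul' _ _ ENNReal.ofReal_ne_top]
    have h3 : (∫⁻ t in Icc T (2 * T), ENNReal.ofReal (P4 t)) + ENNReal.ofReal (1 / E) *
        (∫⁻ t in Icc T (2 * T), ENNReal.ofReal (P2 t)) ≤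
        ENNReal.ofReal (C2 * Real.exp (C3 * 4) * X) + ENNReal.ofReal (1 / E) * ENNReal.ofReal (C2 * E * X) :=
      add_le_add hP4i (mul_le_mul' le_rfl hP2i)
    have e4 : ENNReal.ofReal Λ * (ENNReal.ofReal (C2 * Real.exp (C3 * 4) * X) +
        ENNReal.ofReal (1 / E) * ENNReal.ofReal (C2 * E * X)) =
        ENNReal.ofReal (Λ * (C2 * Real.exp (C3 * 4) + C2) * X) := by
      rw [← ENNReal.ofReal_mul (by positivity), ← ENNReal.ofReal_add (by positivity) (by positivity),
        ← ENNReal.ofReal_mul hΛ0.le]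
      congr 1
      field_simp
    refine (mul_le_mul' le_rfl h3).trans ?_
    rw [e4]
    refine ENNReal.ofReal_le_ofReal ?_
    refine (mul_le_mul_of_nonneg_right hchoice hX0.le).trans (le_of_eq ?_)
    rw [hcA]
    ring
  -- many zeros
  set g : ℝ → ENNReal := G'.indicator fun t => ENNReal.ofReal (F k t) with hg
  have hgm : Measurable g := (F_cont hk).measurable.ennreal_ofReal.indicator hG'm
  have hgJ : ∫⁻ t, g t = J := by
    rw [hg, lintegral_indicator hG'm, hJ]
    rfl
  have s3 : ∫⁻ t in I₀ ∩ G, w t ≤ ENNReal.ofReal (cA * X / 4) + ENNReal.ofReal C * J := by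
    have h1 : ∀ t ∈ I₀ ∩ G, w t ≤ ENNReal.ofReal η * ENNReal.ofReal (P3 t) +
        ENNReal.ofReal (C * L) * ∫⁻ v in Ioc (-(1 / L / 2)) (1 / L / 2), g (t + v) := by
      rintro t ⟨⟨h2, h3⟩, h4⟩
      have hIcc : t ∈ Icc T (2 * T) := ⟨by linarith, by linarith⟩
      have e0 : t - 1 / L / 2 + 1 / L / 2 = t := by ring
      have h5 := htr (t - 1 / L / 2) (1 / L) (P3 t ^ (1 / (2 * k))) (by
        rw [mul_one_div]
        linarith) (by positivity) (by
        rw [e0, mul_one_div]
        intro u hu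
        have h6 := hP3b t hIcc u hu
        have h7 := Real.rpow_le_rpow (Real.rpow_nonneg (norm_nonneg _) _) h6
          (show 0 ≤ 1 / (2 * k) by positivity)
        rwa [← Real.rpow_mul (norm_nonneg _), mul_one_div_cancel (by positivity), Real.rpow_one] at h7)
        (((1 / 2 + A / L : ℝ) : ℂ) + t * I) (by
        rw [e0, mul_one_div]
        have e1 : (((1 / 2 + A / L : ℝ) : ℂ) + t * I) - (1 / 2 + I * (t : ℂ)) = ((A / L : ℝ) : ℂ) := by
          push_cast
          ring
        rw [e1, Complex.norm_real, Real.norm_eq_abs, abs_of_nonneg (by positivity)])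
      rw [← Real.rpow_mul (hP30 t), one_div_mul_cancel (by positivity), Real.rpow_one] at h5
      have e2 : ∫ s in (t - 1 / L / 2)..(t - 1 / L / 2 + 1 / L), F k s =
          ∫ v in (-(1 / L / 2))..(1 / L / 2), F k (t + v) := by
        rw [intervalIntegral.integral_comp_add_left (fun s => F k s) t]
        congr 1
        ring
      have hL2 : 0 < 1 / L := by positivity
      have e3 : ENNReal.ofReal (∫ v in (-(1 / L / 2))..(1 / L / 2), F k (t + v)) =
          ∫⁻ v in Ioc (-(1 / L / 2)) (1 / L / 2), g (t + v) := by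
        rw [intervalIntegral.integral_of_le (by linarith), ofReal_integral_eq_lintegral_ofReal]
        · refine setLIntegral_congr_fun measurableSet_Ioc fun v hv => ?_
          have hmem : t + v ∈ G' := by
            obtain ⟨b1, b2, b3⟩ := h4
            have hv1 := hv.1
            have hv2 := hv.2
            have hTv : T + v ≥ T - 1 := by linarith
            refine ⟨by linarith, by linarith, b3.trans ?_⟩
            refine cnt_mono (by linarith) (by linarith) (by linarith) (by linarith) ?_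
            have e9 : (κ * A + 1) / L - κ * A / L = 1 / L := by ring
            rw [e9, sub_add_cancel_left, abs_neg, abs_le]
            constructor <;> linarith
          rw [hg, indicator_of_mem hmem]
        · exact (((F_cont hk).comp (continuous_const.add continuous_id)).integrableOn_Icc).mono_set
            Ioc_subset_Icc_self
        · exact Filter.Eventually.of_forall fun v => F_nonneg _ _
      rw [e2] at h5
      have e5 : C / (1 / L) = C * L := by field_simp
      rw [e5] at h5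
      have h8 : w t ≤ ENNReal.ofReal (η * P3 t + C * L * ∫ v in (-(1 / L / 2))..(1 / L / 2), F k (t + v)) :=
        ENNReal.ofReal_le_ofReal h5
      refine h8.trans (le_of_eq ?_)
      have h9 : 0 ≤ ∫ v in (-(1 / L / 2))..(1 / L / 2), F k (t + v) :=
        intervalIntegral.integral_nonneg (by linarith) fun v _ => F_nonneg _ _
      rw [ENNReal.ofReal_add (mul_nonneg hη0.le (hP30 t)) (by positivity), ENNReal.ofReal_mul hη0.le,
        ENNReal.ofReal_mul (by positivity), e3]
    have h2 := setLIntegral_mono' (μ := volume) (measurableSet_Ioc.inter hGm) h1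
    refine h2.trans ?_
    rw [lintegral_add_left ((hP3c.measurable.ennreal_ofReal).const_mul _), lintegral_const_mul' _ _ ENNReal.ofReal_ne_top,
      lintegral_const_mul' _ _ ENNReal.ofReal_ne_top]
    refine add_le_add ?_ ?_
    · have h3 : ∫⁻ t in I₀ ∩ G, ENNReal.ofReal (P3 t) ≤ ENNReal.ofReal (C2 * Real.exp (C3 * (2 * A + 3)) * X) := by
        refine (lintegral_mono_set fun t ht => ?_).trans hP3i
        exact ⟨by linarith [ht.1.1], by linarith [ht.1.2]⟩
      refine (mul_le_mul' le_rfl h3).trans (le_of_eq ?_)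
      rw [← ENNReal.ofReal_mul hη0.le]
      congr 1
      rw [hη]
      field_simp
    · have h3 := shift_int hgm (h := 1 / L) (I₀ ∩ G)
      refine (mul_le_mul' le_rfl h3).trans (le_of_eq ?_)
      rw [hgJ, ← mul_assoc, ← ENNReal.ofReal_mul (by positivity)]
      congr 2
      field_simp
  -- conclusion
  have s4 : ∫⁻ t in I₀, w t ≤ ENNReal.ofReal (cA * X / 2) + (ENNReal.ofReal (cA * X / 4) + ENNReal.ofReal C * J) := by
    have hsub : I₀ ⊆ (((I₀ \ G) \ N0) ∪ N0) ∪ (I₀ ∩ G) := by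
      intro t ht
      by_cases h1 : t ∈ G
      · exact Or.inr ⟨ht, h1⟩
      · by_cases h2 : t ∈ N0
        · exact Or.inl (Or.inr h2)
        · exact Or.inl (Or.inl ⟨⟨ht, h1⟩, h2⟩)
    refine (lintegral_mono_set hsub).trans ((lintegral_union_le _ _ _).trans (add_le_add ?_ s3))
    refine (lintegral_union_le _ _ _).trans ?_
    rw [setLIntegral_measure_zero _ _ (hN0f.measure_zero _), add_zero]
    exact s2
  have s5 := s1.trans s4
  have e6 : ENNReal.ofReal (cA * X) = ENNReal.ofReal (cA * X / 2) + (ENNReal.ofReal (cA * X / 4) +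
      ENNReal.ofReal (cA * X / 4)) := by
    rw [← ENNReal.ofReal_add (by positivity) (by positivity), ← ENNReal.ofReal_add (by positivity) (by positivity)]
    congr 1
    ring
  rw [e6] at s5
  have s6 := (ENNReal.add_le_add_iff_left ENNReal.ofReal_ne_top).1 s5
  have s7 := (ENNReal.add_le_add_iff_left ENNReal.ofReal_ne_top).1 s6
  have hCne : ENNReal.ofReal C ≠ 0 := by
    rw [Ne, ENNReal.ofReal_eq_zero, not_le]
    exact hC
  have e7 : ENNReal.ofReal (cA / (4 * C) * X) = ENNReal.ofReal (cA * X / 4) / ENNReal.ofReal C := by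
    rw [← ENNReal.ofReal_div_of_pos hC]
    congr 1
    field_simp
  rw [e7]
  exact ENNReal.div_le_of_le_mul' s7

end Pool.Agent.X117.MS
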