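import Pool.Agent.X117.Mas7

/-!
# Few zeros near points right of the line; weighted numbers of tuples of zeros
-/

namespace Pool.Agent.X117.MS

open Filter Topology MeasureTheory Complex Set Metric
open Pool.Agent.X117.DZ Pool.Agent.X117.SZ Pool.Agent.X117.RM
open Pool.Agent.W184 (zn zn_nonneg zn_cont)

/-- the `t` with few zeros nearby carry little of the moments right of the line -/
theorem few_mass {k : ℝ} (hk : 0 < k) (hk2 : k ≤ 2) : ∃ κ C : ℝ, 1 ≤ κ ∧ 0 < C ∧ ∀ A : ℝ, 1 ≤ A →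
    ∀ᶠ T : ℝ in atTop, ∀ n : ℕ,
      ∫⁻ t in {t : ℝ | T ≤ t ∧ t ≤ 2 * T ∧ cnt (κ * A / Real.log T) t ≤ n},
        ENNReal.ofReal (‖riemannZeta (((1 / 2 + A / Real.log T : ℝ) : ℂ) + t * I)‖ ^ (2 * k)) ≤
      ENNReal.ofReal (C * (2 * κ * A) ^ (2 * n * k) * Real.exp (-(k / 2) * A) * (T * Real.log T ^ (k ^ 2))) := by
  obtain ⟨C2, C3, hC2, hC3, hmaj⟩ := major3 hk hk2
  obtain ⟨K0, hK0, hfew⟩ := few_pt hk
  set κ : ℝ := max 10 (384 * C3 / k) with hκ
  have hκ10 : 10 ≤ κ := le_max_left _ _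
  have hκ0 : 0 < κ := by linarith
  have hκC : 384 * C3 / k ≤ κ := le_max_right _ _
  refine ⟨κ, Real.exp (k * (K0 + 2)) * (C2 * Real.exp (C3 * 4) + C2), by linarith, by positivity, fun A hA3 => ?_⟩
  have hA0 : 0 < A := by linarith
  have hκA : 10 ≤ κ * A := by nlinarith
  set E : ℝ := Real.exp (C3 * (2 * κ * A)) with hE
  have hE0 : 0 < E := Real.exp_pos _
  filter_upwards [hmaj 4 (by norm_num), hmaj (2 * κ * A) (by nlinarith),
    eventually_ge_atTop (20 : ℝ), Real.tendsto_log_atTop.eventually_ge_atTop (8 * (κ * A + 1))]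
    with T q2 q3 hT20 hL8
  intro n
  have hL0 : 0 < Real.log T := by linarith
  set L := Real.log T with hL
  have hT0 : 0 < T := by linarith
  set X : ℝ := T * L ^ (k ^ 2) with hX
  have hX0 : 0 < X := by positivity
  set Λ : ℝ := Real.exp (k * (K0 + 2 - A)) * (2 * κ * A) ^ (2 * n * k) * E ^ (96 / κ ^ 2) with hΛ
  have hΛ0 : 0 < Λ := by positivity
  have hchoice : Λ ≤ Real.exp (k * (K0 + 2)) * (2 * κ * A) ^ (2 * n * k) * Real.exp (-(k / 2) * A) := by
    have h1 : E ^ (96 / κ ^ 2) ≤ Real.exp (k / 2 * A) := by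
      rw [hE, ← Real.exp_mul]
      refine Real.exp_le_exp.2 ?_
      have h2 : 384 * C3 ≤ κ * k := by
        rwa [div_le_iff₀ hk] at hκC
      have e1 : C3 * (2 * κ * A) * (96 / κ ^ 2) = 192 * C3 / κ * A := by field_simp; ring
      rw [e1]
      refine mul_le_mul_of_nonneg_right ?_ hA0.le
      rw [div_le_iff₀ hκ0]
      linarith
    have e2 : Real.exp (k * (K0 + 2 - A)) = Real.exp (k * (K0 + 2)) * Real.exp (-(k * A)) := by
      rw [← Real.exp_add]
      congr 1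
      ring
    have e4 : Real.exp (-(k * A)) * Real.exp (k / 2 * A) = Real.exp (-(k / 2) * A) := by
      rw [← Real.exp_add]
      congr 1
      ring
    calc Λ ≤ Real.exp (k * (K0 + 2)) * Real.exp (-(k * A)) * (2 * κ * A) ^ (2 * n * k) * Real.exp (k / 2 * A) := by
          rw [hΛ, e2]
          gcongr
      _ = Real.exp (k * (K0 + 2)) * (2 * κ * A) ^ (2 * n * k) * (Real.exp (-(k * A)) * Real.exp (k / 2 * A)) := by ring
      _ = _ := by rw [e4]
  obtain ⟨P4, hP4c, hP40, hP4b, hP4i⟩ := q2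
  obtain ⟨P2, hP2c, hP20, hP2b, hP2i⟩ := q3
  set S : Set ℝ := {t : ℝ | T ≤ t ∧ t ≤ 2 * T ∧ cnt (κ * A / L) t ≤ n} with hS
  have hκL : κ * A / L ≤ 1 / 8 := by
    rw [div_le_div_iff₀ hL0 (by norm_num)]
    linarith
  have hSm : MeasurableSet S := by
    have e : S = Icc T (2 * T) \ near (n + 1) (κ * A) T := by
      ext t
      constructor
      · rintro ⟨h1, h2, h3⟩
        refine ⟨⟨h1, h2⟩, fun h4 => ?_⟩
        have h5 : n + 1 ≤ cnt (κ * A / L) t := h4.2.2
        omega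
      · rintro ⟨⟨h1, h2⟩, h3⟩
        refine ⟨h1, h2, ?_⟩
        by_contra hcon
        exact h3 ⟨h1, h2, not_le.1 hcon⟩
    rw [e]
    exact measurableSet_Icc.diff (near_meas _ hT20 hκL)
  set N0 : Set ℝ := {t : ℝ | 0 < t ∧ t ≤ 2 * T ∧ riemannZeta (1 / 2 + I * t) = 0} with hN0
  have hN0f : N0.Finite := by
    have hinj : Set.InjOn (fun t : ℝ => (1 / 2 + I * (t : ℂ))) ((fun t : ℝ => (1 / 2 + I * (t : ℂ))) ⁻¹'
        (H370.zset riemannZeta 0 (2 * T))) := by
      intro a _ b _ hab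
      have := congrArg Complex.im hab
      simpa using this
    refine ((H370.zeta_zeros_finite (2 * T)).preimage hinj).subset ?_
    rintro t ⟨h1, h2, h3⟩
    refine ⟨?_, ?_, ?_, ?_, h3⟩
    · simp
    · simp; norm_num
    · simpa using h1
    · simpa using h2
  have hN0m : MeasurableSet N0 := hN0f.measurableSet
  have s2 : ∫⁻ t in S \ N0, ENNReal.ofReal (zn (1 / 2 + A / L) t ^ (2 * k)) ≤
      ENNReal.ofReal (Λ * (C2 * Real.exp (C3 * 4) + C2) * X) := by
    have h1 : ∫⁻ t in S \ N0, ENNReal.ofReal (zn (1 / 2 + A / L) t ^ (2 * k)) ≤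
        ∫⁻ t in S \ N0, ENNReal.ofReal (Λ * (P4 t + P2 t / E)) := by
      refine setLIntegral_mono' (hSm.diff hN0m) fun t ht => ?_
      obtain ⟨⟨h2, h3, h6⟩, h5⟩ := ht
      have hIcc : t ∈ Icc T (2 * T) := ⟨h2, h3⟩
      have h7 : riemannZeta (1 / 2 + I * t) ≠ 0 := fun h0 => h5 ⟨by linarith, by linarith, h0⟩
      refine ENNReal.ofReal_le_ofReal ?_
      exact hfew A κ T t (P4 t) (P2 t) E n hA3 hκ10 hT20 (by rw [← hL]; linarith) hIcc.1 (hP40 t) (hP20 t) hE0 h7
        (fun s hs => hP4b t hIcc s hs) (fun s hs => hP2b t hIcc s hs) h6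
    have h2 : ∫⁻ t in S \ N0, ENNReal.ofReal (Λ * (P4 t + P2 t / E)) ≤
        ∫⁻ t in Icc T (2 * T), ENNReal.ofReal (Λ * (P4 t + P2 t / E)) := by
      refine lintegral_mono_set fun t ht => ?_
      obtain ⟨⟨h2, h3, -⟩, -⟩ := ht
      exact ⟨h2, h3⟩
    refine h1.trans (h2.trans ?_)
    have e1 : ∀ t, ENNReal.ofReal (Λ * (P4 t + P2 t / E)) =
        ENNReal.ofReal Λ * (ENNReal.ofReal (P4 t) + ENNReal.ofReal (1 / E) * ENNReal.ofReal (P2 t)) := by
      intro t
      rw [ENNReal.ofReal_mul hΛ0.le, ENNReal.ofReal_add (hP40 t) (div_nonneg (hP20 t) hE0.le),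
        ← ENNReal.ofReal_mul (by positivity)]
      congr 3
      ring
    simp_rw [e1]
    rw [lintegral_const_mul' _ _ ENNReal.ofReal_ne_top, lintegral_add_left (hP4c.measurable.ennreal_ofReal),
      lintegral_const_mul' _ _ ENNReal.ofReal_ne_top]
    have h3 : (∫⁻ t in Icc T (2 * T), ENNReal.ofReal (P4 t)) + ENNReal.ofReal (1 / E) *
        (∫⁻ t in Icc T (2 * T), ENNReal.ofReal (P2 t)) ≤
        ENNReal.ofReal (C2 * Real.exp (C3 * 4) * X) + ENNReal.ofReal (1 / E) * ENNReal.ofReal (C2 * E * X) :=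
      add_le_add hP4i (mul_le_mul' le_rfl hP2i)
    have e4 : ENNReal.ofReal Λ * (ENNReal.ofReal (C2 * Real.exp (C3 * 4) * X) +
        ENNReal.ofReal (1 / E) * ENNReal.ofReal (C2 * E * X)) =
        ENNReal.ofReal (Λ * (C2 * Real.exp (C3 * 4) + C2) * X) := by
      rw [← ENNReal.ofReal_mul (by positivity), ← ENNReal.ofReal_add (by positivity) (by positivity),
        ← ENNReal.ofReal_mul hΛ0.le]
      congr 1
      field_simp
    refine (mul_le_mul' le_rfl h3).trans (le_of_eq e4)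
  have hsub : S ⊆ (S \ N0) ∪ N0 := by
    intro t ht
    by_cases h2 : t ∈ N0
    · exact Or.inr h2
    · exact Or.inl ⟨ht, h2⟩
  have s3 : ∫⁻ t in S, ENNReal.ofReal (zn (1 / 2 + A / L) t ^ (2 * k)) ≤
      ENNReal.ofReal (Λ * (C2 * Real.exp (C3 * 4) + C2) * X) := by
    refine (lintegral_mono_set hsub).trans ((lintegral_union_le _ _ _).trans ?_)
    rw [setLIntegral_measure_zero _ _ (hN0f.measure_zero _), add_zero]
    exact s2
  refine s3.trans (ENNReal.ofReal_le_ofReal ?_)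
  have hCC : 0 ≤ C2 * Real.exp (C3 * 4) + C2 := by positivity
  calc Λ * (C2 * Real.exp (C3 * 4) + C2) * X
      ≤ (Real.exp (k * (K0 + 2)) * (2 * κ * A) ^ (2 * n * k) * Real.exp (-(k / 2) * A)) *
          (C2 * Real.exp (C3 * 4) + C2) * X :=
        mul_le_mul_of_nonneg_right (mul_le_mul_of_nonneg_right hchoice hCC) hX0.le
    _ = _ := by ring

/-- the weighted number of `n`-tuples of zeros nearby is of the order of the moment -/
theorem tuples {k : ℝ} (hk : 0 < k) (hk2 : k ≤ 2) (n : ℕ) : ∃ R₀ : ℝ, 0 < R₀ ∧ ∀ R : ℝ, R₀ ≤ R →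
    ∃ c C : ℝ, 0 < c ∧ 0 < C ∧ ∀ᶠ T : ℝ in atTop,
      ENNReal.ofReal (c * (T * Real.log T ^ (k ^ 2))) ≤
        ∫⁻ t in Icc T (2 * T), ENNReal.ofReal (‖riemannZeta (1 / 2 + I * t)‖ ^ (2 * k) *
          ((cnt (R / Real.log T) t).choose n : ℕ)) ∧
      ∫⁻ t in Icc T (2 * T), ENNReal.ofReal (‖riemannZeta (1 / 2 + I * t)‖ ^ (2 * k) *
          ((cnt (R / Real.log T) t).choose n : ℕ)) ≤ ENNReal.ofReal (C * (T * Real.log T ^ (k ^ 2))) := by
  obtain ⟨R₀, c, hR₀, hc, hlow⟩ := mass_low hk hk2 n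
  refine ⟨R₀, hR₀, fun R hR => ?_⟩
  have hR0 : 0 < R := by linarith
  obtain ⟨C, hC, hup⟩ := exp_cnt_deriv hk hk2 hR0 1 0
  refine ⟨c, C, hc, hC, ?_⟩
  filter_upwards [hlow, hup, eventually_ge_atTop (20 : ℝ), Real.tendsto_log_atTop.eventually_ge_atTop (8 * R + 1)]
    with T h1 h2 hT20 hL8
  have hL0 : 0 < Real.log T := by linarith
  have hRL : R / Real.log T ≤ 1 / 8 := by
    rw [div_le_div_iff₀ hL0 (by norm_num)]
    linarith
  have hR₀L : R₀ / Real.log T ≤ R / Real.log T := div_le_div_of_nonneg_right hR hL0.le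
  constructor
  · have hm : MeasurableSet (near n R₀ T) := near_meas n hT20 (hR₀L.trans hRL)
    have h3 : ∫⁻ t in near n R₀ T, ENNReal.ofReal (‖riemannZeta (1 / 2 + I * t)‖ ^ (2 * k)) ≤
        ∫⁻ t in near n R₀ T, ENNReal.ofReal (‖riemannZeta (1 / 2 + I * t)‖ ^ (2 * k) *
          ((cnt (R / Real.log T) t).choose n : ℕ)) := by
      refine setLIntegral_mono' hm fun t ht => ENNReal.ofReal_le_ofReal ?_
      obtain ⟨g1, g2, g3⟩ := ht
      have g4 : cnt (R₀ / Real.log T) t ≤ cnt (R / Real.log T) t :=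
        cnt_mono (by linarith) (by linarith) (by linarith) (by linarith) (by
          rw [sub_self, abs_zero]
          linarith)
      have g5 : 1 ≤ (cnt (R / Real.log T) t).choose n := Nat.choose_pos (g3.trans g4)
      have g6 : (1 : ℝ) ≤ ((cnt (R / Real.log T) t).choose n : ℕ) := by exact_mod_cast g5
      exact le_mul_of_one_le_right (Real.rpow_nonneg (norm_nonneg _) _) g6
    exact h1.trans (h3.trans (lintegral_mono_set fun t ht => ⟨ht.1, ht.2.1⟩))
  · simp only [iteratedDeriv_zero, Nat.cast_zero, mul_zero, add_zero, one_mul] at h2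
    refine (lintegral_mono fun t => ENNReal.ofReal_le_ofReal ?_).trans h2
    refine mul_le_mul_of_nonneg_left ?_ (Real.rpow_nonneg (norm_nonneg _) _)
    set N := cnt (R / Real.log T) t
    have g1 : (((N.choose n : ℕ)) : ℝ) ≤ 2 ^ N := by exact_mod_cast Nat.choose_le_two_pow N n
    have g2 : (2 : ℝ) ^ N ≤ Real.exp N := by
      have g3 : (2 : ℝ) ≤ Real.exp 1 := by
        have := Real.add_one_le_exp (1 : ℝ)
        linarith
      have g4 := pow_le_pow_left₀ (by norm_num) g3 N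
      rwa [← Real.exp_nat_mul, mul_one] at g4
    exact g1.trans g2

end Pool.Agent.X117.MS
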