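import Pool.Agent.X117.HZ3
import Pool.Agent.Y745.UP.All

/-!
# Sums of powers of `|ζ|` over points of the critical line that are separated by zeros

The proof follows `Pool.Agent.Y419.UP.t_UPB` (where the sum is over the zeros and the summand is the
derivative).
-/

namespace Pool.Agent.X117.Peak

open Filter Topology MeasureTheory Complex H370 Set
open Pool.Agent.Y745.UP Pool.Agent.Y419.UP

/-- the sum over points which are separated by zeros -/
theorem points_le {k ε : ℝ} (hk : 0 < k) (hk2 : k < 2) (hε : 0 < ε) : ∀ᶠ T : ℝ in atTop,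
    ∀ S : Finset ℂ, (∀ s ∈ S, s.re = 1 / 2 ∧ T < s.im ∧ s.im ≤ 2 * T) →
      (∀ a b : ℝ, 1 ≤ a → a ≤ b → ((S.filter fun s => a ≤ s.im ∧ s.im ≤ b).card : ℝ) ≤
        1 + (NN riemannZeta a b : ℝ)) →
      ∑ s ∈ S, ‖riemannZeta s‖ ^ (2 * k) ≤ T * Real.log T ^ (k ^ 2 + 1 + ε) := by
  classical
  have hSUBA := Pool.Agent.Y732.UP.t_SUBA
  have hSTRIP := Pool.Agent.Y568.UP.t_STRIP hSUBA Pool.Agent.Y745.UP.a_OUT
  have hNZM := Pool.Agent.Y624.UP.t_NZM
  obtain ⟨C1, hC1, s1⟩ := hSTRIP k 2 hk (by linarith) two_pos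
  obtain ⟨C2, hC2, s2⟩ := hSTRIP 2 2 two_pos le_rfl two_pos
  obtain ⟨C0, hC0, hz⟩ := zcount good_zeta
  have h2k : 0 < 2 - k := by linarith
  obtain ⟨A', hA'⟩ : ∃ A', A' = 5 * k / (2 - k) + 1 := ⟨_, rfl⟩
  have hA0 : 0 < A' := by rw [hA']; positivity
  have nz := hNZM (ε / 2) A' (by positivity) hA0
  obtain ⟨D0, hD0⟩ : ∃ D0, D0 = 2 * C0 + 1 := ⟨_, rfl⟩
  have hD00 : 0 < D0 := by rw [hD0]; positivity
  obtain ⟨C3, hC3⟩ : ∃ C3, C3 = 2 * C1 + D0 * C2 + D0 := ⟨_, rfl⟩
  have hC30 : 0 < C3 := by rw [hC3]; positivity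
  have t1 := Real.tendsto_log_atTop
  have f1 := t1.eventually_ge_atTop (4 : ℝ)
  have f2 := t1.eventually ((tendsto_rpow_atTop (show 0 < ε / 2 by positivity)).eventually_ge_atTop
    (4 * C3 / Real.pi))
  filter_upwards [s1, s2, nz, f1, f2, eventually_ge_atTop (100 : ℝ)] with T h1 h2 h3 hL4 hbig hT
  obtain ⟨E, hE, hEs, hEv, hEn⟩ := h3
  intro S hSm hSc
  set L := Real.log T with hLd
  have hL0 : 0 < L := by linarith
  have hL1 : 1 ≤ L := by linarith
  obtain ⟨R, hR⟩ : ∃ R, R = 1 / L := ⟨_, rfl⟩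
  have hR0 : 0 < R := by rw [hR]; positivity
  have hR4 : R ≤ 1 / 4 := by
    rw [hR]
    exact one_div_le_one_div_of_le (by norm_num) hL4
  have h2R : 2 * R = 2 / L := by rw [hR]; ring
  have h3R : 3 / L ≤ 3 / 4 := div_le_div_of_nonneg_left (by norm_num) (by norm_num) hL4
  have hlog3 : Real.log (3 * T) ≤ 2 * L := by
    rw [Real.log_mul (by norm_num) (by linarith)]
    have : Real.log 3 ≤ 2 := by
      have := Real.log_le_sub_one_of_pos (show (0 : ℝ) < 3 by norm_num)
      linarith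
    linarith
  have hone' : 1 ≤ L ^ (ε / 2) := Real.one_le_rpow hL1 (by positivity)
  -- the local count
  have hcount : ∀ t δ : ℝ, 2 * R ≤ δ → 1 ≤ t - δ →
      ((S.filter fun s => s.im - 2 * R < t ∧ t ≤ s.im + 2 * R).card : ℝ) ≤
        1 + (NN riemannZeta (t - δ) (t + δ) : ℝ) := by
    intro t δ hδ ht
    have g1 := hSc (t - 2 * R) (t + 2 * R) (by linarith) (by linarith)
    have g2 : (S.filter fun s => s.im - 2 * R < t ∧ t ≤ s.im + 2 * R).card ≤
        (S.filter fun s => t - 2 * R ≤ s.im ∧ s.im ≤ t + 2 * R).card := by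
      refine Finset.card_le_card fun s hs => ?_
      rw [Finset.mem_filter] at hs ⊢
      exact ⟨hs.1, by linarith [hs.2.2], by linarith [hs.2.1]⟩
    have g3 := NN_mono good_zeta (a := t - 2 * R) (b := t + 2 * R) (a' := t - δ) (b' := t + δ)
      ht (by linarith) (by linarith)
    have g2' : ((S.filter fun s => s.im - 2 * R < t ∧ t ≤ s.im + 2 * R).card : ℝ) ≤
        ((S.filter fun s => t - 2 * R ≤ s.im ∧ s.im ≤ t + 2 * R).card : ℝ) := by exact_mod_cast g2
    have g3' : (NN riemannZeta (t - 2 * R) (t + 2 * R) : ℝ) ≤ (NN riemannZeta (t - δ) (t + δ) : ℝ) := by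
      exact_mod_cast g3
    linarith
  -- the sum for one abscissa
  have step : ∀ u ∈ Icc (-(2 * R)) (2 * R),
      ∑ s ∈ S, Hn (2 * k) R s.im u ≤ C3 * (T * L ^ (k ^ 2 + ε / 2)) := by
    intro u hu
    have hu' : |u| ≤ 2 / L := by
      rw [← h2R]
      exact abs_le.2 hu
    have g1 := h1 u hu'
    have g2 := h2 u hu'
    rw [← int_gz (by linarith)] at g1 g2
    have g3 := sum_int S (f := gz (2 * k) u) (h := fun t => L ^ (-5 : ℝ) * gz 4 u t)
      (cont_gz1 (by linarith) u) ((cont_gz1 (by norm_num) u).const_mul _)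
      (fun t => gz_nonneg _ _ _)
      (fun t => mul_nonneg (Real.rpow_nonneg hL0.le _) (gz_nonneg _ _ _))
      (a := T / 2) (b := 3 * T) (r := 2 * R) (by linarith) (by linarith)
      (fun s hs => ⟨by linarith [(hSm s hs).2.1], by linarith [(hSm s hs).2.2]⟩)
      hE hEs (n1 := 2 * L ^ (ε / 2)) (n2 := D0 * L) (c := L ^ (5 * k / (2 - k)))
      (by positivity) (by positivity) (Real.rpow_nonneg hL0.le _)
      (fun t ht htE => by
        refine (hcount t (3 / L) (by
          rw [h2R]; exact (div_lt_div_of_pos_right (by norm_num) hL0).le)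
          (by linarith [ht.1])).trans ?_
        have := hEn t ht htE
        linarith)
      (fun t ht => by
        refine (hcount t 1 (by linarith) (by linarith [ht.1])).trans ?_
        have q0 := hz t (by linarith [ht.1])
        have q1 : Real.log t ≤ Real.log (3 * T) :=
          Real.log_le_log (by linarith [ht.1]) ht.2
        have q2 : C0 * Real.log t ≤ C0 * (2 * L) :=
          mul_le_mul_of_nonneg_left (q1.trans hlog3) hC0.le
        rw [hD0]
        nlinarith)
      (fun t => pw_le hk hk2 hL1 (norm_nonneg _))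
    have e0 : ∀ s ∈ S, Hn (2 * k) R s.im u = ∫ v in (-(2 * R))..(2 * R), gz (2 * k) u (s.im + v) :=
      fun s _ => rfl
    rw [Finset.sum_congr rfl e0]
    refine g3.trans ?_
    rw [intervalIntegral.integral_const_mul]
    have p1 : 2 * L ^ (ε / 2) * ∫ t in (T / 2)..(3 * T), gz (2 * k) u t ≤
        2 * C1 * (T * L ^ (k ^ 2 + ε / 2)) := by
      refine (mul_le_mul_of_nonneg_left g1 (by positivity)).trans (le_of_eq ?_)
      rw [Real.rpow_add hL0]
      ring
    have hone : 1 ≤ L ^ (k ^ 2 + ε / 2) := Real.one_le_rpow hL1 (by positivity)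
    have p2 : D0 * L * (L ^ (-5 : ℝ) * ∫ t in (T / 2)..(3 * T), gz 4 u t) ≤
        D0 * C2 * (T * L ^ (k ^ 2 + ε / 2)) := by
      have g2' : ∫ t in (T / 2)..(3 * T), gz 4 u t ≤ C2 * (T * L ^ (4 : ℝ)) := by
        have e1 : (2 * 2 : ℝ) = 4 := by norm_num
        have e2 : ((2 : ℝ) ^ 2) = 4 := by norm_num
        rw [e1, e2] at g2
        exact g2
      have e3 : L * (L ^ (-5 : ℝ) * L ^ (4 : ℝ)) = 1 := by
        rw [← Real.rpow_add hL0]
        nth_rewrite 1 [← Real.rpow_one L]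
        rw [← Real.rpow_add hL0]
        norm_num
      calc D0 * L * (L ^ (-5 : ℝ) * ∫ t in (T / 2)..(3 * T), gz 4 u t)
          ≤ D0 * L * (L ^ (-5 : ℝ) * (C2 * (T * L ^ (4 : ℝ)))) := by
            have := Real.rpow_nonneg hL0.le (-5)
            gcongr
        _ = D0 * C2 * T * (L * (L ^ (-5 : ℝ) * L ^ (4 : ℝ))) := by ring
        _ = D0 * C2 * (T * 1) := by rw [e3]; ring
        _ ≤ D0 * C2 * (T * L ^ (k ^ 2 + ε / 2)) := by gcongr
    have p3 : D0 * L * L ^ (5 * k / (2 - k)) * volume.real E ≤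
        D0 * (T * L ^ (k ^ 2 + ε / 2)) := by
      have e4 : L * L ^ (5 * k / (2 - k)) = L ^ A' := by
        rw [hA', Real.rpow_add hL0, Real.rpow_one]
        ring
      have hLA : 0 < L ^ A' := Real.rpow_pos_of_pos hL0 _
      calc D0 * L * L ^ (5 * k / (2 - k)) * volume.real E
          = D0 * (L * L ^ (5 * k / (2 - k))) * volume.real E := by ring
        _ = D0 * L ^ A' * volume.real E := by rw [e4]
        _ ≤ D0 * L ^ A' * (T / L ^ A') := by gcongr
        _ = D0 * (T * 1) := by field_simp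
        _ ≤ D0 * (T * L ^ (k ^ 2 + ε / 2)) := by gcongr
    rw [hC3]
    linarith
  -- all points
  have hsum : ∑ s ∈ S, ‖riemannZeta s‖ ^ (2 * k) ≤
      1 / (Real.pi * R ^ 2) * (4 * R * (C3 * (T * L ^ (k ^ 2 + ε / 2)))) := by
    have q1 : ∑ s ∈ S, ‖riemannZeta s‖ ^ (2 * k) ≤ ∑ s ∈ S,
        (1 / (Real.pi * R ^ 2) * ∫ u in (-(2 * R))..(2 * R), Hn (2 * k) R s.im u) := by
      refine Finset.sum_le_sum fun s hs => ?_
      have q2 : s = ((1 / 2 : ℝ) : ℂ) + ((s.im : ℝ) : ℂ) * I := by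
        apply Complex.ext
        · simp [(hSm s hs).1]
        · simp
      exact sphere_le hSUBA (β := 2 * k) (R := R) (γ := s.im) (by linarith) hR0
        (by linarith [(hSm s hs).2.1]) (z := s) (by
          rw [← q2, sub_self, norm_zero]; exact hR0.le)
    refine q1.trans ?_
    rw [← Finset.mul_sum, ← intervalIntegral.integral_finsetSum]
    · refine mul_le_mul_of_nonneg_left ?_ (by positivity)
      have q4 : ∫ u in (-(2 * R))..(2 * R), ∑ s ∈ S, Hn (2 * k) R s.im u ≤
          ∫ u in (-(2 * R))..(2 * R), C3 * (T * L ^ (k ^ 2 + ε / 2)) := by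
        refine intervalIntegral.integral_mono_on (by linarith) ?_ (by simp) step
        exact (continuous_finsetSum _ fun s _ => cont_Hn (by linarith) R s.im).intervalIntegrable
          _ _
      refine q4.trans (le_of_eq ?_)
      rw [intervalIntegral.integral_const, smul_eq_mul]
      ring
    · intro s _
      exact (cont_Hn (by linarith) R s.im).intervalIntegrable _ _
  refine hsum.trans ?_
  have hpi := Real.pi_pos
  calc 1 / (Real.pi * R ^ 2) * (4 * R * (C3 * (T * L ^ (k ^ 2 + ε / 2))))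
      = (4 * C3 / Real.pi) * (T * (L * L ^ (k ^ 2 + ε / 2))) := by
        rw [hR]
        field_simp
    _ = (4 * C3 / Real.pi) * (T * L ^ (k ^ 2 + 1 + ε / 2)) := by
        congr 2
        nth_rewrite 1 [← Real.rpow_one L]
        rw [← Real.rpow_add hL0]
        congr 1
        ring
    _ ≤ L ^ (ε / 2) * (T * L ^ (k ^ 2 + 1 + ε / 2)) := by
        have := Real.rpow_nonneg hL0.le (k ^ 2 + 1 + ε / 2)
        gcongr
    _ = T * L ^ (k ^ 2 + 1 + ε) := by
        rw [show k ^ 2 + 1 + ε = ε / 2 + (k ^ 2 + 1 + ε / 2) by ring,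
          Real.rpow_add hL0 (ε / 2) (k ^ 2 + 1 + ε / 2)]
        ring

end Pool.Agent.X117.Peak
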