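import Pool.Agent.X117.HZ4
import Pool.Agent.X117.HZ3
import Pool.Agent.Y745.LD.Final

/-!
# Large values of Hardy's function next to exceptional zeros
-/

namespace Pool.Agent.X117.Peak

open Filter Topology MeasureTheory Complex H370 Set
open Pool.Agent.X117.HZ
open Pool.Agent.Y745.LD (LL)

lemma LLtop : Tendsto LL atTop atTop := Real.tendsto_log_atTop.comp Real.tendsto_log_atTop

lemma log_bounds {T g : ℝ} (hT : 10 ≤ T) (h1 : T < g) (h2 : g ≤ 2 * T) :
    Real.log T ≤ Real.log g ∧ Real.log g ≤ 2 * Real.log T := by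
  have hT0 : 0 < T := by linarith
  refine ⟨Real.log_le_log hT0 h1.le, ?_⟩
  have h3 := Real.log_le_log (by linarith) h2
  rw [Real.log_mul (by norm_num) hT0.ne'] at h3
  have h4 : Real.log 2 ≤ Real.log T := Real.log_le_log (by norm_num) (by linarith)
  linarith

/-- the size of zeta near an isolated zero with a large derivative -/
theorem near_zero {κ ε δ A1 : ℝ} (hε : 0 < ε) (hδ : 0 < δ) (hδ1 : δ ≤ 1) (hA : 0 < A1) :
    ∃ θ : ℝ, 0 < θ ∧ θ ≤ 1 / 4 ∧ ∀ᶠ T : ℝ in atTop, ∀ g : ℝ, T < g → g ≤ 2 * T → Gd κ ε δ g →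
      (∀ z : ℂ, ‖z - (1 / 2 + I * g)‖ ≤ δ / (4 * Real.log T) → ‖riemannZeta z‖ ≤ Real.log T ^ A1) →
      ∀ u : ℝ, |u - g| = θ * (δ / (4 * Real.log T)) →
        Real.log T ^ (κ - 3 * ε) ≤ ‖riemannZeta (1 / 2 + I * u)‖ := by
  obtain ⟨C, hC1, hH⟩ := Pool.Agent.Y655.SW.t_HAR
  have hC0 : 0 < C := by linarith
  have hden : 0 < A1 + |κ| + ε + 1 := by positivity
  set θ : ℝ := min (1 / 4) (min (1 / (2 * C)) (ε / (2 * C * (A1 + |κ| + ε + 1)))) with hθ
  have hθ0 : 0 < θ := by positivity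
  have hθ1 : θ ≤ 1 / 4 := min_le_left _ _
  have hθ2 : C * θ ≤ 1 / 2 := by
    have h1 : θ ≤ 1 / (2 * C) := (min_le_right _ _).trans (min_le_left _ _)
    calc C * θ ≤ C * (1 / (2 * C)) := mul_le_mul_of_nonneg_left h1 hC0.le
      _ = 1 / 2 := by field_simp
  have hθ3 : 2 * (C * θ) * (A1 + |κ| + ε + 1) ≤ ε := by
    have h1 : θ ≤ ε / (2 * C * (A1 + |κ| + ε + 1)) := (min_le_right _ _).trans (min_le_right _ _)
    calc 2 * (C * θ) * (A1 + |κ| + ε + 1) = θ * (2 * C * (A1 + |κ| + ε + 1)) := by ring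
      _ ≤ ε / (2 * C * (A1 + |κ| + ε + 1)) * (2 * C * (A1 + |κ| + ε + 1)) :=
          mul_le_mul_of_nonneg_right h1 (by positivity)
      _ = ε := by field_simp
  refine ⟨θ, hθ0, hθ1, ?_⟩
  set K : ℝ := |Real.log (4 / δ)| + |1 + κ - ε| * Real.log 2 + |Real.log θ| with hK
  filter_upwards [eventually_ge_atTop (10 : ℝ), Real.tendsto_log_atTop.eventually_ge_atTop 1,
    LLtop.eventually_ge_atTop K, LLtop.eventually_ge_atTop (K / ε),
    LLtop.eventually_ge_atTop 0] with T hT hL1 hK1 hK2 hLL0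
  intro g hg1 hg2 hgd hsup u hu
  obtain ⟨b1, b2⟩ := log_bounds hT hg1 hg2
  have hL0 : 0 < Real.log T := by linarith
  have hT0 : 0 < T := by linarith
  have hg0 : 0 < g := by linarith
  set L := Real.log T with hL
  set r : ℝ := δ / (4 * L) with hr
  have hr0 : 0 < r := by positivity
  have hr1 : r ≤ 1 / 4 := by
    rw [hr, div_le_div_iff₀ (by positivity) (by norm_num)]
    linarith
  have hLLd : LL T = Real.log L := rfl
  obtain ⟨z0, z1, z2, z3, z4⟩ := hgd
  set ρ : ℂ := 1 / 2 + I * g with hρ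
  have hρre : ρ.re = 1 / 2 := by simp [hρ]
  have hρim : ρ.im = g := by simp [hρ]
  have him : ∀ z : ℂ, ‖z - ρ‖ ≤ r → |z.re - 1 / 2| ≤ r ∧ |z.im - g| ≤ r := by
    intro z hz
    have h1 := (Complex.abs_re_le_norm (z - ρ)).trans hz
    have h2 := (Complex.abs_im_le_norm (z - ρ)).trans hz
    rw [Complex.sub_re, hρre] at h1
    rw [Complex.sub_im, hρim] at h2
    exact ⟨h1, h2⟩
  have hne : ∀ z ∈ Metric.closedBall ρ r, z ≠ ρ → riemannZeta z ≠ 0 := by
    intro z hz hzρ h0
    rw [Metric.mem_closedBall, dist_eq_norm] at hz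
    obtain ⟨h1, h2⟩ := him z hz
    rw [abs_le] at h1
    have h3 := z2 z h0 (by linarith [h1.1]) (by linarith [h1.2]) hzρ
    have h4 : δ / (2 * L) ≤ δ / Real.log g := by
      apply div_le_div_of_nonneg_left hδ.le (by linarith) b2
    have h5 : r < δ / (2 * L) := by
      rw [hr]
      apply div_lt_div_of_pos_left hδ (by positivity) (by linarith)
    linarith
  have hs1 : ‖(1 / 2 + I * (u : ℂ)) - ρ‖ = θ * r := by
    have e1 : (1 / 2 + I * (u : ℂ)) - ρ = I * ((u - g : ℝ) : ℂ) := by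
      rw [hρ]; push_cast; ring
    rw [e1, norm_mul, Complex.norm_I, one_mul, Complex.norm_real, Real.norm_eq_abs, hu]
  have hθr : 0 < θ * r := by positivity
  have hs1ne : (1 / 2 + I * (u : ℂ)) ≠ ρ := by
    intro h
    rw [h, sub_self, norm_zero] at hs1
    linarith
  have hLA : Real.exp (A1 * LL T) = L ^ A1 := by
    rw [hLLd, mul_comm, ← Real.rpow_def_of_pos hL0]
  have hmain := hH riemannZeta ρ (1 / 2 + I * (u : ℂ)) r (A1 * LL T) θ hr0 hθ0 hθ1
    (fun w hw => by
      refine good_zeta.an w ?_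
      rw [Metric.mem_closedBall, dist_eq_norm] at hw
      obtain ⟨-, h2⟩ := him w hw
      rw [abs_le] at h2
      linarith) z0 z1 hne
    (fun z hz => by
      rw [Metric.mem_closedBall, dist_eq_norm] at hz
      rw [hLA]
      exact hsup z hz) hs1ne hs1.le
  rw [hs1] at hmain
  set x : ℝ := Real.log ‖riemannZeta (1 / 2 + I * (u : ℂ))‖ - Real.log (θ * r) with hx
  set D : ℝ := Real.log ‖deriv riemannZeta ρ‖ with hD
  -- the lower bound for the derivative
  have hllg : LL T ≤ Real.log (Real.log g) ∧ Real.log (Real.log g) ≤ LL T + Real.log 2 := by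
    refine ⟨Real.log_le_log hL0 b1, ?_⟩
    have h1 := Real.log_le_log (by linarith) b2
    rw [Real.log_mul (by norm_num) hL0.ne'] at h1
    rw [hLLd]
    linarith
  have hD1 : (1 + κ - ε) * LL T - |1 + κ - ε| * Real.log 2 ≤ D := by
    have h1 := Real.log_le_log (Real.rpow_pos_of_pos (by linarith) _) z3
    rw [Real.log_rpow (by linarith)] at h1
    refine le_trans ?_ h1
    have h2 : |1 + κ - ε| * |LL T - Real.log (Real.log g)| ≤ |1 + κ - ε| * Real.log 2 := by
      refine mul_le_mul_of_nonneg_left ?_ (abs_nonneg _)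
      rw [abs_le]
      constructor
      · linarith [hllg.2]
      · have := Real.log_pos (show (1 : ℝ) < 2 by norm_num)
        linarith [hllg.1]
    rw [← abs_mul] at h2
    have h3 := le_abs_self ((1 + κ - ε) * (LL T - Real.log (Real.log g)))
    have h4 : (1 + κ - ε) * (LL T - Real.log (Real.log g)) =
        (1 + κ - ε) * LL T - (1 + κ - ε) * Real.log (Real.log g) := by ring
    linarith
  have hlogr : - Real.log r = LL T + Real.log (4 / δ) := by
    rw [hr, hLLd, Real.log_div hδ.ne' (by positivity), Real.log_mul (by norm_num) hL0.ne',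
      Real.log_div (by norm_num) hδ.ne']
    ring
  have hk1 : Real.log (4 / δ) ≤ |Real.log (4 / δ)| := le_abs_self _
  have hk2 : -Real.log θ ≤ |Real.log θ| := neg_le_abs _
  have hk3 : 0 ≤ |1 + κ - ε| * Real.log 2 := mul_nonneg (abs_nonneg _) (Real.log_nonneg (by norm_num))
  have hk4 : 0 ≤ |Real.log θ| := abs_nonneg _
  have hk5 : 0 ≤ |Real.log (4 / δ)| := abs_nonneg _
  have hκ : -κ ≤ |κ| := neg_le_abs κ
  have hup : A1 * LL T - Real.log r - D ≤ (A1 + |κ| + ε + 1) * LL T := by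
    have h1 : -κ * LL T ≤ |κ| * LL T := mul_le_mul_of_nonneg_right hκ hLL0
    have h2 : A1 * LL T - Real.log r - D ≤
        A1 * LL T + (LL T + Real.log (4 / δ)) - ((1 + κ - ε) * LL T - |1 + κ - ε| * Real.log 2) := by
      linarith
    nlinarith
  have hq0 : 0 ≤ C * θ := by positivity
  have hDx : |D - x| ≤ ε * LL T := by
    have h1 : C * θ * (A1 * LL T - Real.log r - x) =
        C * θ * (A1 * LL T - Real.log r - D) + C * θ * (D - x) := by ring
    rw [h1] at hmain
    have h2 : C * θ * (D - x) ≤ 1 / 2 * |D - x| := by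
      calc C * θ * (D - x) ≤ C * θ * |D - x| := mul_le_mul_of_nonneg_left (le_abs_self _) hq0
        _ ≤ 1 / 2 * |D - x| := mul_le_mul_of_nonneg_right hθ2 (abs_nonneg _)
    have h3 : C * θ * (A1 * LL T - Real.log r - D) ≤ C * θ * ((A1 + |κ| + ε + 1) * LL T) :=
      mul_le_mul_of_nonneg_left hup hq0
    have h4 : 2 * (C * θ) * (A1 + |κ| + ε + 1) * LL T ≤ ε * LL T :=
      mul_le_mul_of_nonneg_right hθ3 hLL0
    nlinarith
  have hDx' : D - x ≤ ε * LL T := (le_abs_self _).trans hDx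
  have hlogθr : Real.log (θ * r) = Real.log θ + Real.log r := Real.log_mul hθ0.ne' hr0.ne'
  have hKε : K ≤ ε * LL T := by
    rw [div_le_iff₀ hε] at hK2
    linarith
  have hfin : (κ - 3 * ε) * LL T ≤ Real.log ‖riemannZeta (1 / 2 + I * (u : ℂ))‖ := by
    have h1 : Real.log ‖riemannZeta (1 / 2 + I * (u : ℂ))‖ = x + (Real.log θ + Real.log r) := by
      rw [hx, hlogθr]; ring
    rw [h1]
    nlinarith
  have hpos : 0 < ‖riemannZeta (1 / 2 + I * (u : ℂ))‖ := by
    rw [norm_pos_iff]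
    refine hne _ ?_ hs1ne
    rw [Metric.mem_closedBall, dist_eq_norm, hs1]
    nlinarith
  rw [← Real.log_le_log_iff (Real.rpow_pos_of_pos hL0 _) hpos, Real.log_rpow hL0]
  exact hfin

/-- points whose neighbourhoods lie in a set of small measure -/
lemma card_le_volume {S : Finset ℝ} {d : ℝ} (hd : 0 < d) {E : Set ℝ} (hE : volume E ≠ ⊤)
    (hsep : ∀ g ∈ S, ∀ g' ∈ S, g ≠ g' → d ≤ |g - g'|)
    (hsub : ∀ g ∈ S, Ioo (g - d / 2) (g + d / 2) ⊆ E) : (S.card : ℝ) * d ≤ volume.real E := by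
  have h1 : (⋃ g ∈ S, Ioo (g - d / 2) (g + d / 2)) ⊆ E := Set.iUnion₂_subset hsub
  have h2 : volume.real (⋃ g ∈ S, Ioo (g - d / 2) (g + d / 2)) =
      ∑ g ∈ S, volume.real (Ioo (g - d / 2) (g + d / 2)) := by
    refine measureReal_biUnion_finset ?_ (fun g _ => measurableSet_Ioo) ?_
    · intro g hg g' hg' hne
      rw [Function.onFun, Set.disjoint_left]
      rintro t ⟨a1, a2⟩ ⟨b1, b2⟩
      have h3 := hsep g hg g' hg' hne
      have h4 : |g - g'| < d := by
        rw [abs_lt]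
        constructor <;> linarith
      linarith
    · intro g hg
      rw [Real.volume_Ioo]
      exact ENNReal.ofReal_ne_top
  have h3 : ∑ g ∈ S, volume.real (Ioo (g - d / 2) (g + d / 2)) = (S.card : ℝ) * d := by
    rw [Finset.sum_congr rfl fun g _ => ?_, Finset.sum_const, nsmul_eq_mul]
    rw [Real.volume_real_Ioo_of_le (by linarith)]
    ring
  rw [← h3, ← h2]
  exact measureReal_mono h1 hE

/-- all elements of a finite set but two have smaller and larger elements -/
lemma inner_card (S : Finset ℝ) : S.card ≤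
    (S.filter fun g => (∃ a ∈ S, a < g) ∧ (∃ b ∈ S, g < b)).card + 2 := by
  classical
  rcases S.eq_empty_or_nonempty with rfl | hne
  · simp
  have h1 : S ⊆ (S.filter fun g => (∃ a ∈ S, a < g) ∧ (∃ b ∈ S, g < b)) ∪
      {S.min' hne, S.max' hne} := by
    intro g hg
    by_cases h2 : g = S.min' hne
    · simp [h2]
    by_cases h3 : g = S.max' hne
    · simp [h3]
    refine Finset.mem_union_left _ (Finset.mem_filter.mpr ⟨hg, ?_, ?_⟩)
    · exact ⟨S.min' hne, S.min'_mem hne, lt_of_le_of_ne (S.min'_le g hg) (Ne.symm h2)⟩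
    · exact ⟨S.max' hne, S.max'_mem hne, lt_of_le_of_ne (S.le_max' g hg) h3⟩
  refine (Finset.card_le_card h1).trans ((Finset.card_union_le _ _).trans ?_)
  exact Nat.add_le_add_left Finset.card_le_two _

end Pool.Agent.X117.Peak
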