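import Mathlib

/-!
# Fundamental quasisymmetric functions of sets of permutations

Definitions and basic facts used for `MP_4faf9f_co` and `MP_f75e32_co`.
-/

namespace Pool.Agent.X117.QS

open Equiv

/-- The descent set `{i ∈ [n-1] : π(i) > π(i+1)}` (the elements `1, …, n` are represented by
`0, …, n - 1`, so `i ∈ Des π` if `π` of the `0`-based position `i` is less than `π` of the position
before it). -/
def Des {n : ℕ} (π : Perm (Fin n)) : Finset ℕ :=
  ((Finset.univ : Finset (Fin n × Fin n)).filter fun p =>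
    (p.1 : ℕ) + 1 = p.2 ∧ π p.2 < π p.1).image fun p => (p.2 : ℕ)

theorem mem_Des {n : ℕ} {π : Perm (Fin n)} {i : ℕ} :
    i ∈ Des π ↔ ∃ j k : Fin n, (j : ℕ) + 1 = k ∧ (k : ℕ) = i ∧ π k < π j := by
  simp only [Des, Finset.mem_image, Finset.mem_filter, Finset.mem_univ, true_and, Prod.exists]
  constructor
  · rintro ⟨j, k, ⟨h1, h2⟩, h3⟩
    exact ⟨j, k, h1, h3, h2⟩
  · rintro ⟨j, k, h1, h2, h3⟩
    exact ⟨j, k, ⟨h1, h3⟩, h2⟩

/-- Gessel's fundamental quasisymmetric function `F_{n,D}`, as a formal power series: the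
coefficient of a monomial is the number of the sequences `i_1 ≤ ⋯ ≤ i_n`, with `i_j < i_{j+1}`
for `j ∈ D`, whose product is the monomial. -/
noncomputable def F (n : ℕ) (D : Finset ℕ) : MvPowerSeries ℕ ℤ := fun m =>
  (({f : Fin n → ℕ | Monotone f ∧ (∀ j k : Fin n, (j : ℕ) + 1 = k → (k : ℕ) ∈ D → f j < f k) ∧
    ∑ j, Finsupp.single (f j) 1 = m}.ncard : ℕ) : ℤ)

/-- `𝒬(A)` for a multiset `A` of permutations. -/
noncomputable def Q {n : ℕ} (A : Multiset (Perm (Fin n))) : MvPowerSeries ℕ ℤ :=
  (A.map fun π => F n (Des π)).sum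

/-- The multiset of the products `ab`. -/
def mulM {n : ℕ} (A B : Finset (Perm (Fin n))) : Multiset (Perm (Fin n)) :=
  (A ×ˢ B).val.map fun p => p.1 * p.2

/-- The power series is invariant under the permutations of the variables. -/
def IsSymm (f : MvPowerSeries ℕ ℤ) : Prop :=
  ∀ (τ : Perm ℕ) (m : ℕ →₀ ℕ), MvPowerSeries.coeff (m.mapDomain τ) f = MvPowerSeries.coeff m f

/-! ### Permutations that are increasing on the fibres -/

/-- `π` is increasing on the fibres of `f`. -/
def Resp {n : ℕ} {T : Type*} (f : Fin n → T) (π : Perm (Fin n)) : Prop :=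
  ∀ j k, j < k → f j = f k → π j < π k

theorem resp_iff {n : ℕ} {f : Fin n → ℕ} (hf : Monotone f) (π : Perm (Fin n)) :
    (∀ j k : Fin n, (j : ℕ) + 1 = k → (k : ℕ) ∈ Des π → f j < f k) ↔ Resp f π := by
  constructor
  · intro h
    have key : ∀ d : ℕ, ∀ j k : Fin n, (j : ℕ) + d + 1 = k → f j = f k → π j < π k := by
      intro d
      induction d with
      | zero =>
        intro j k hjk hf'
        by_contra hcon
        have hne : π j ≠ π k := fun h => by
          have := π.injective h
          rw [this] at hjk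
          omega
        have hlt : π k < π j := lt_of_le_of_ne (not_lt.mp hcon) hne.symm
        have := h j k (by omega) (mem_Des.mpr ⟨j, k, by omega, rfl, hlt⟩)
        omega
      | succ d ih =>
        intro j k hjk hf'
        let l : Fin n := ⟨j + 1, by omega⟩
        have h1 : f j ≤ f l := hf (Fin.le_def.mpr (by simp [l]))
        have h2 : f l ≤ f k := hf (Fin.le_def.mpr (by simp [l]; omega))
        have h3 : f j = f l := by omega
        have h4 : f l = f k := by omega
        have h5 : π l < π k := ih l k (by simp [l]; omega) h4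
        by_contra hcon
        have h6 : π l < π j := lt_of_lt_of_le h5 (not_lt.mp hcon)
        have := h j l (by simp [l]) (mem_Des.mpr ⟨j, l, by simp [l], rfl, h6⟩)
        omega
    intro j k hjk hf'
    exact key (k - j - 1) j k (by have := Fin.lt_def.mp hjk; omega) hf'
  · intro h j k hjk hk
    by_contra hcon
    have h1 : f j ≤ f k := hf (Fin.le_def.mpr (by omega))
    have h2 : f j = f k := by omega
    have h3 := h j k (Fin.lt_def.mpr (by omega)) h2
    obtain ⟨j', k', h4, h5, h6⟩ := mem_Des.mp hk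
    have h7 : k' = k := Fin.ext h5
    have h8 : j' = j := Fin.ext (by omega)
    rw [h7, h8] at h6
    exact absurd h3 (not_lt.mpr h6.le)

theorem toMultiset_content {n : ℕ} (f : Fin n → ℕ) :
    Finsupp.toMultiset (∑ j, Finsupp.single (f j) 1) = (List.ofFn f : Multiset ℕ) := by
  rw [map_sum]
  simp_rw [Finsupp.toMultiset_single, one_nsmul]
  rw [← Fin.univ_val_map]
  have h := Multiset.sum_map_singleton (Multiset.map f (Finset.univ : Finset (Fin n)).val)
  rw [Multiset.map_map] at h
  exact h

theorem mono_unique {n : ℕ} {f g : Fin n → ℕ} (hf : Monotone f) (hg : Monotone g)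
    (h : ∑ j, Finsupp.single (f j) 1 = ∑ j, Finsupp.single (g j) 1) : f = g := by
  have h1 := congrArg Finsupp.toMultiset h
  rw [toMultiset_content, toMultiset_content] at h1
  have h3 : (List.ofFn f).Perm (List.ofFn g) := Multiset.coe_eq_coe.mp h1
  have h4 : List.ofFn f = List.ofFn g :=
    List.Perm.eq_of_sortedLE hf.sortedLE_ofFn hg.sortedLE_ofFn h3
  exact List.ofFn_injective h4

theorem coeff_F {n : ℕ} {f : Fin n → ℕ} (hf : Monotone f) (D : Finset ℕ)
    [Decidable (∀ j k : Fin n, (j : ℕ) + 1 = k → (k : ℕ) ∈ D → f j < f k)] :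
    MvPowerSeries.coeff (∑ j, Finsupp.single (f j) 1) (F n D) =
      if (∀ j k : Fin n, (j : ℕ) + 1 = k → (k : ℕ) ∈ D → f j < f k) then 1 else 0 := by
  change F n D (∑ j, Finsupp.single (f j) 1) = _
  rw [F]
  split_ifs with h
  · have : {g : Fin n → ℕ | Monotone g ∧ (∀ j k : Fin n, (j : ℕ) + 1 = k → (k : ℕ) ∈ D →
        g j < g k) ∧ ∑ j, Finsupp.single (g j) 1 = ∑ j, Finsupp.single (f j) 1} = {f} := by
      ext g
      constructor
      · rintro ⟨h1, -, h3⟩
        exact mono_unique h1 hf h3
      · rintro rfl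
        exact ⟨hf, h, rfl⟩
    rw [this, Set.ncard_singleton]
    rfl
  · have : {g : Fin n → ℕ | Monotone g ∧ (∀ j k : Fin n, (j : ℕ) + 1 = k → (k : ℕ) ∈ D →
        g j < g k) ∧ ∑ j, Finsupp.single (g j) 1 = ∑ j, Finsupp.single (f j) 1} = ∅ := by
      ext g
      simp only [Set.mem_ofPred_eq, Set.mem_empty_iff_false, iff_false]
      rintro ⟨h1, h2, h3⟩
      have := mono_unique h1 hf h3
      subst this
      exact h h2
    rw [this, Set.ncard_empty]
    rfl

theorem coeff_F_eq_zero {n : ℕ} {m : ℕ →₀ ℕ}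
    (hm : ¬ ∃ f : Fin n → ℕ, Monotone f ∧ ∑ j, Finsupp.single (f j) 1 = m) (D : Finset ℕ) :
    MvPowerSeries.coeff m (F n D) = 0 := by
  change F n D m = _
  rw [F]
  have : {g : Fin n → ℕ | Monotone g ∧ (∀ j k : Fin n, (j : ℕ) + 1 = k → (k : ℕ) ∈ D →
      g j < g k) ∧ ∑ j, Finsupp.single (g j) 1 = m} = ∅ := by
    ext g
    simp only [Set.mem_ofPred_eq, Set.mem_empty_iff_false, iff_false]
    rintro ⟨h1, -, h3⟩
    exact hm ⟨g, h1, h3⟩
  rw [this, Set.ncard_empty]
  rfl

open Classical in
theorem coeff_Q {n : ℕ} {f : Fin n → ℕ} (hf : Monotone f) (A : Multiset (Perm (Fin n))) :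
    MvPowerSeries.coeff (∑ j, Finsupp.single (f j) 1) (Q A) =
      ((A.countP fun π => Resp f π : ℕ) : ℤ) := by
  induction A using Multiset.induction_on with
  | empty => simp [Q]
  | cons π A ih =>
    rw [Q, Multiset.map_cons, Multiset.sum_cons, map_add]
    rw [Q] at ih
    rw [ih, coeff_F hf, Multiset.countP_cons]
    by_cases h : Resp f π
    · rw [if_pos ((resp_iff hf π).mpr h), if_pos h]
      push_cast
      ring
    · rw [if_neg (fun h' => h ((resp_iff hf π).mp h')), if_neg h]
      simp

open Classical in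
/-- Two multisets have the same `𝒬` if the numbers of their elements that are increasing on the
fibres of `f` agree for all monotone `f`. -/
theorem Q_eq {n : ℕ} {A B : Multiset (Perm (Fin n))}
    (h : ∀ f : Fin n → ℕ, Monotone f → A.countP (fun π => Resp f π) =
      B.countP (fun π => Resp f π)) : Q A = Q B := by
  ext m
  by_cases hm : ∃ f : Fin n → ℕ, Monotone f ∧ ∑ j, Finsupp.single (f j) 1 = m
  · obtain ⟨f, hf, rfl⟩ := hm
    rw [coeff_Q hf, coeff_Q hf, h f hf]
  · have key : ∀ A : Multiset (Perm (Fin n)), MvPowerSeries.coeff m (Q A) = 0 := by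
      intro A
      rw [Q, map_multiset_sum, Multiset.map_map]
      apply Multiset.sum_eq_zero
      intro x hx
      rw [Multiset.mem_map] at hx
      obtain ⟨π, -, rfl⟩ := hx
      exact coeff_F_eq_zero hm _
    rw [key, key]

/-! ### The block functions -/

/-- The number of the elements of `J` that are at most `j`. -/
def blk {n : ℕ} (J : Finset ℕ) (j : Fin n) : ℕ := (J.filter fun i => i ≤ (j : ℕ)).card

theorem blk_mono {n : ℕ} (J : Finset ℕ) : Monotone (blk J : Fin n → ℕ) := by
  intro j k hjk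
  apply Finset.card_le_card
  intro i hi
  rw [Finset.mem_filter] at hi ⊢
  exact ⟨hi.1, hi.2.trans (Fin.le_def.mp hjk)⟩

theorem blk_lt {n : ℕ} (J : Finset ℕ) {j k : Fin n} (hjk : (j : ℕ) + 1 = k) :
    blk J j < blk J k ↔ (k : ℕ) ∈ J := by
  constructor
  · intro h
    by_contra hk
    have : J.filter (fun i => i ≤ (k : ℕ)) ⊆ J.filter fun i => i ≤ (j : ℕ) := by
      intro i hi
      rw [Finset.mem_filter] at hi ⊢
      refine ⟨hi.1, ?_⟩
      have : i ≠ k := fun h => hk (h ▸ hi.1)
      omega
    have := Finset.card_le_card this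
    unfold blk at h
    omega
  · intro h
    apply Finset.card_lt_card
    rw [Finset.ssubset_iff_of_subset]
    · exact ⟨k, by simp [h], by simp; omega⟩
    · intro i hi
      rw [Finset.mem_filter] at hi ⊢
      exact ⟨hi.1, by omega⟩

theorem resp_blk {n : ℕ} (J : Finset ℕ) (π : Perm (Fin n)) : Resp (blk J) π ↔ Des π ⊆ J := by
  rw [← resp_iff (blk_mono J)]
  constructor
  · intro h i hi
    obtain ⟨j, k, h1, h2, h3⟩ := mem_Des.mp hi
    rw [← h2, ← blk_lt J h1]
    exact h j k h1 (by rw [h2]; exact hi)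
  · intro h j k hjk hk
    exact (blk_lt J hjk).mpr (h hk)

end Pool.Agent.X117.QS
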