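import Pool.Agent.X117.QS

/-!
# Bijections between permutations and words
-/

namespace Pool.Agent.X117.QS

open Equiv

variable {n : ℕ}

/-- The lexicographic pairs `(g j, v j)`. -/
def kap (g v : Fin n → ℕ) (j : Fin n) : ℕ ×ₗ ℕ := toLex (g j, v j)

theorem kap_lt {g v : Fin n → ℕ} {j k : Fin n} :
    kap g v j < kap g v k ↔ g j < g k ∨ g j = g k ∧ v j < v k := by
  rw [kap, kap, Prod.Lex.toLex_lt_toLex]

theorem kap_le {g v : Fin n → ℕ} {j k : Fin n} :
    kap g v j ≤ kap g v k ↔ g j < g k ∨ g j = g k ∧ v j ≤ v k := by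
  rw [kap, kap, Prod.Lex.toLex_le_toLex]

theorem kap_eq {g v : Fin n → ℕ} {j k : Fin n} :
    kap g v j = kap g v k ↔ g j = g k ∧ v j = v k := by
  rw [kap, kap, toLex_inj, Prod.mk.injEq]

theorem kap_comp (g v : Fin n → ℕ) (σ : Perm (Fin n)) :
    kap g v ∘ σ = kap (g ∘ σ) (v ∘ σ) := rfl

theorem kap_inj {g v g' v' : Fin n → ℕ} (h : kap g v = kap g' v') : g = g' ∧ v = v' := by
  constructor
  · funext j
    have := congrFun h j
    rw [kap, kap, toLex_inj, Prod.mk.injEq] at this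
    exact this.1
  · funext j
    have := congrFun h j
    rw [kap, kap, toLex_inj, Prod.mk.injEq] at this
    exact this.2

theorem mono_fst {g v : Fin n → ℕ} (h : Monotone (kap g v)) : Monotone g := by
  intro j k hjk
  rcases kap_le.mp (h hjk) with h | h
  · exact h.le
  · exact h.1.le

open Classical in
/-- The rearrangements `v` of `f` such that `j ↦ (g j, v j)` is increasing. -/
noncomputable def W (f g : Fin n → ℕ) : Finset (Fin n → ℕ) :=
  ((Finset.univ : Finset (Perm (Fin n))).image fun ρ : Perm (Fin n) => f ∘ ⇑ρ).filter fun v => Monotone (kap g v)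

theorem mem_W {f g v : Fin n → ℕ} :
    v ∈ W f g ↔ (∃ ρ : Perm (Fin n), f ∘ ρ = v) ∧ Monotone (kap g v) := by
  simp [W]

/-! ### Permutations and words -/

theorem lt_iff_of_resp {f : Fin n → ℕ} (hf : Monotone f) {b σ : Perm (Fin n)}
    (h : Resp f (b * σ)) (j k : Fin n) : σ⁻¹ j < σ⁻¹ k ↔
      (f (σ⁻¹ j) < f (σ⁻¹ k) ∨ f (σ⁻¹ j) = f (σ⁻¹ k) ∧ b j < b k) := by
  have hb : ∀ i, (b * σ) (σ⁻¹ i) = b i := fun i => by simp
  constructor
  · intro hlt
    rcases (hf hlt.le).lt_or_eq with h1 | h1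
    · exact Or.inl h1
    · have := h _ _ hlt h1
      rw [hb, hb] at this
      exact Or.inr ⟨h1, this⟩
  · rintro (h1 | ⟨h1, h2⟩)
    · by_contra hcon
      exact absurd (hf (not_lt.mp hcon)) (not_le.mpr h1)
    · by_contra hcon
      rcases (not_lt.mp hcon).lt_or_eq with h3 | h3
      · have := h _ _ h3 h1.symm
        rw [hb, hb] at this
        exact absurd h2 (not_lt.mpr this.le)
      · have := σ⁻¹.injective h3
        rw [this] at h2
        exact lt_irrefl _ h2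

theorem first_mem {f g : Fin n → ℕ} (hf : Monotone f) (hg : Monotone g) {b σ : Perm (Fin n)}
    (h1 : Resp f (b * σ)) (h2 : Resp g σ⁻¹) :
    f ∘ ⇑(σ⁻¹) ∈ W f g ∧ Resp (kap g (f ∘ ⇑(σ⁻¹))) b := by
  constructor
  · rw [mem_W]
    refine ⟨⟨σ⁻¹, rfl⟩, ?_⟩
    intro j k hjk
    rcases hjk.lt_or_eq with hjk | rfl
    · rw [kap_le]
      rcases (hg hjk.le).lt_or_eq with h3 | h3
      · exact Or.inl h3
      · exact Or.inr ⟨h3, hf (h2 j k hjk h3).le⟩
    · exact le_rfl
  · intro j k hjk h3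
    rw [kap_eq] at h3
    have h4 := h2 j k hjk h3.1
    rcases (lt_iff_of_resp hf h1 j k).mp h4 with h5 | h5
    · have h6 := h3.2
      simp only [Function.comp_apply] at h6
      omega
    · exact h5.2

theorem eq_sort_of_resp {f : Fin n → ℕ} (hf : Monotone f) {π : Perm (Fin n)} (h : Resp f π) :
    π = Tuple.sort (f ∘ ⇑(π⁻¹)) := by
  rw [Tuple.eq_sort_iff]
  constructor
  · intro j k hjk
    simpa using hf hjk
  · intro j k hjk h1
    simp at h1
    exact h j k hjk h1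

theorem first_inj {f : Fin n → ℕ} (hf : Monotone f) {b σ σ' : Perm (Fin n)}
    (h1 : Resp f (b * σ)) (h2 : Resp f (b * σ')) (h : f ∘ ⇑(σ⁻¹) = f ∘ ⇑(σ'⁻¹)) : σ = σ' := by
  have e1 := eq_sort_of_resp hf h1
  have e2 := eq_sort_of_resp hf h2
  have e3 : f ∘ ⇑((b * σ)⁻¹) = f ∘ ⇑((b * σ')⁻¹) := by
    rw [mul_inv_rev, mul_inv_rev, Perm.coe_mul, Perm.coe_mul, ← Function.comp_assoc, h,
      Function.comp_assoc]
  rw [e3, ← e2] at e1
  exact mul_left_cancel e1

theorem first_surj {f g : Fin n → ℕ} (hf : Monotone f) {b : Perm (Fin n)}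
    {v : Fin n → ℕ} (hv : v ∈ W f g) (hb : Resp (kap g v) b) :
    ∃ σ : Perm (Fin n), Resp f (b * σ) ∧ Resp g σ⁻¹ ∧ f ∘ ⇑(σ⁻¹) = v := by
  obtain ⟨⟨ρ, hρ⟩, hmono⟩ := mem_W.mp hv
  let u : Fin n → ℕ := v ∘ ⇑(b⁻¹)
  let π : Perm (Fin n) := Tuple.sort u
  obtain ⟨hs1, hs2⟩ := Tuple.eq_sort_iff.mp (show π = Tuple.sort u from rfl)
  have hu : u ∘ π = f := by
    have e : u ∘ π = f ∘ ⇑(ρ * b⁻¹ * π) := by
      rw [Perm.coe_mul, Perm.coe_mul, ← Function.comp_assoc, ← Function.comp_assoc, hρ]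
    rw [e]
    rw [e] at hs1
    exact Tuple.unique_monotone (σ := ρ * b⁻¹ * π) (τ := 1) hs1 hf
  have hπ : ∀ i, u i = f (π⁻¹ i) := fun i => by
    rw [← hu]
    simp
  refine ⟨b⁻¹ * π, ?_, ?_, ?_⟩
  · intro j k hjk h1
    rw [mul_inv_cancel_left]
    apply hs2 j k hjk
    rw [hπ, hπ]
    simpa using h1
  · intro j k hjk h1
    have hgle := hmono hjk.le
    have hinv : ∀ i, (b⁻¹ * π)⁻¹ i = π⁻¹ (b i) := fun i => by simp
    rw [hinv, hinv]
    have hv' : ∀ i, v i = f (π⁻¹ (b i)) := fun i => by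
      rw [← hπ]
      simp [u]
    rcases kap_le.mp hgle with h2 | ⟨-, h2⟩
    · omega
    · rcases h2.lt_or_eq with h3 | h3
      · rw [hv', hv'] at h3
        by_contra hcon
        exact absurd (hf (not_lt.mp hcon)) (not_le.mpr h3)
      · have h4 := hb j k hjk (kap_eq.mpr ⟨h1, h3⟩)
        by_contra hcon
        rcases (not_lt.mp hcon).lt_or_eq with h5 | h5
        · have h6 := hs2 _ _ h5 (by
            have e1 : u (π (π⁻¹ (b k))) = v k := by simp [u]
            have e2 : u (π (π⁻¹ (b j))) = v j := by simp [u]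
            exact e1.trans (h3.symm.trans e2.symm))
          simp at h6
          exact absurd h4 (not_lt.mpr h6.le)
        · have := b.injective (π⁻¹.injective h5)
          rw [this] at hjk
          exact lt_irrefl _ hjk
  · funext i
    have : (b⁻¹ * π)⁻¹ i = π⁻¹ (b i) := by simp
    rw [Function.comp_apply, this, ← hπ]
    simp [u]

/-! ### Transposition of words -/

/-- The transposed word. -/
noncomputable def tr (g v : Fin n → ℕ) : Fin n → ℕ := g ∘ Tuple.sort (kap v g)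

theorem comp_sort_eq {f v : Fin n → ℕ} (hf : Monotone f) {ρ : Perm (Fin n)} (hρ : f ∘ ρ = v)
    (g : Fin n → ℕ) : v ∘ Tuple.sort (kap v g) = f := by
  have h1 : Monotone (kap (v ∘ Tuple.sort (kap v g)) (g ∘ Tuple.sort (kap v g))) := by
    rw [← kap_comp]
    exact Tuple.monotone_sort _
  have h2 := mono_fst h1
  rw [← hρ, Function.comp_assoc, ← Perm.coe_mul] at h2
  have := Tuple.unique_monotone (f := f) (τ := 1) h2 hf
  rw [Perm.coe_mul, ← Function.comp_assoc, hρ] at this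
  exact this

theorem tr_mem {f g v : Fin n → ℕ} (hf : Monotone f) (hv : v ∈ W f g) : tr g v ∈ W g f := by
  obtain ⟨⟨ρ, hρ⟩, -⟩ := mem_W.mp hv
  rw [mem_W]
  refine ⟨⟨_, rfl⟩, ?_⟩
  have h1 : Monotone (kap v g ∘ Tuple.sort (kap v g)) := Tuple.monotone_sort _
  rw [kap_comp, comp_sort_eq hf hρ] at h1
  exact h1

theorem tr_tr {f g v : Fin n → ℕ} (hf : Monotone f) (hv : v ∈ W f g) :
    tr f (tr g v) = v := by
  obtain ⟨⟨ρ, hρ⟩, hmono⟩ := mem_W.mp hv
  let σ := Tuple.sort (kap v g)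
  let τ := Tuple.sort (kap (tr g v) f)
  have e1 : v ∘ σ = f := comp_sort_eq hf hρ g
  have h1 : Monotone (kap (tr g v) f ∘ τ) := Tuple.monotone_sort _
  have h2 : kap (tr g v) f ∘ τ = kap g v ∘ ⇑(σ * τ) := by
    rw [Perm.coe_mul, ← Function.comp_assoc, kap_comp g v σ, e1]
    rfl
  rw [h2] at h1
  have h3 := Tuple.unique_monotone (f := kap g v) (σ := σ * τ) (τ := 1) h1 hmono
  rw [kap_comp, Perm.coe_one, Function.comp_id] at h3
  have h4 := (kap_inj h3).2
  rw [Perm.coe_mul, ← Function.comp_assoc, e1] at h4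
  exact h4

end Pool.Agent.X117.QS
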