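import Pool.Agent.X117.QSB

/-!
# Symmetric `𝒬`: the counts depend only on the sizes of the fibres
-/

namespace Pool.Agent.X117.QS

open Equiv

variable {n : ℕ}

/-- The rank function. -/
noncomputable def rk {T : Type*} [LinearOrder T] (κ : Fin n → T) (j : Fin n) : Fin n :=
  ⟨(Finset.univ.filter fun k => κ k < κ j).card, by
    have : (Finset.univ.filter fun k => κ k < κ j).card < (Finset.univ : Finset (Fin n)).card := by
      apply Finset.card_lt_card
      rw [Finset.ssubset_iff_of_subset (Finset.filter_subset _ _)]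
      exact ⟨j, Finset.mem_univ j, by simp⟩
    simpa using this⟩

theorem rk_le {T : Type*} [LinearOrder T] {κ : Fin n → T} {j k : Fin n} (h : κ j ≤ κ k) :
    rk κ j ≤ rk κ k := by
  rw [Fin.le_def]
  simp only [rk]
  apply Finset.card_le_card
  intro i hi
  simp only [Finset.mem_filter, Finset.mem_univ, true_and] at hi ⊢
  exact lt_of_lt_of_le hi h

theorem rk_lt {T : Type*} [LinearOrder T] {κ : Fin n → T} {j k : Fin n} (h : κ j < κ k) :
    rk κ j < rk κ k := by
  rw [Fin.lt_def]
  simp only [rk]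
  apply Finset.card_lt_card
  rw [Finset.ssubset_iff_of_subset]
  · exact ⟨j, by simpa using h, by simp⟩
  · intro i hi
    simp only [Finset.mem_filter, Finset.mem_univ, true_and] at hi ⊢
    exact hi.trans h

theorem rk_eq {T : Type*} [LinearOrder T] {κ : Fin n → T} {j k : Fin n} :
    rk κ j = rk κ k ↔ κ j = κ k := by
  constructor
  · intro h
    rcases lt_trichotomy (κ j) (κ k) with h1 | h1 | h1
    · exact absurd h (rk_lt h1).ne
    · exact h1
    · exact absurd h (rk_lt h1).ne'
  · intro h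
    exact le_antisymm (rk_le h.le) (rk_le h.ge)

theorem exists_ext (a b : Fin n → Fin n) (h : ∀ j k, a j = a k ↔ b j = b k) :
    ∃ τ : Perm (Fin n), ∀ j, τ (a j) = b j := by
  classical
  let F : Fin n → Fin n := fun x => if hx : ∃ j, a j = x then b hx.choose else x
  have hF : ∀ j, F (a j) = b j := by
    intro j
    have hx : ∃ k, a k = a j := ⟨j, rfl⟩
    have : F (a j) = b hx.choose := dif_pos hx
    rw [this]
    exact (h _ _).mp hx.choose_spec
  obtain ⟨g, hg⟩ := Set.MapsTo.exists_equiv_extend_of_card_eq (α := Fin n)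
    (t := (Finset.univ : Finset (Fin n))) (by simp) (s := Set.range a) (f := F)
    (by intro x _; simp)
    (by
      rintro _ ⟨j, rfl⟩ _ ⟨k, rfl⟩ hjk
      rw [hF, hF] at hjk
      exact (h j k).mpr hjk)
  refine ⟨g.trans (Equiv.subtypeUnivEquiv fun x => Finset.mem_univ x), fun j => ?_⟩
  have := hg (a j) ⟨j, rfl⟩
  rw [hF] at this
  exact this

open Classical in
theorem count_symm {A : Multiset (Perm (Fin n))} (hA : IsSymm (Q A)) {T T' : Type*}
    [LinearOrder T] [LinearOrder T'] {κ : Fin n → T} {κ' : Fin n → T'} (hκ : Monotone κ)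
    (hκ' : Monotone κ') (σ : Perm (Fin n)) (h : ∀ j k, κ (σ j) = κ (σ k) ↔ κ' j = κ' k) :
    A.countP (fun π => Resp κ π) = A.countP (fun π => Resp κ' π) := by
  let f : Fin n → ℕ := fun j => rk κ j
  let g : Fin n → ℕ := fun j => rk κ' j
  have hf : Monotone f := fun j k hjk => Fin.le_def.mp (rk_le (hκ hjk))
  have hg : Monotone g := fun j k hjk => Fin.le_def.mp (rk_le (hκ' hjk))
  obtain ⟨τ, hτ⟩ := exists_ext (fun j => rk κ (σ j)) (fun j => rk κ' j) fun j k => by
    rw [rk_eq, rk_eq]
    exact h j k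
  have e1 : ∀ π, Resp κ π ↔ Resp f π := by
    intro π
    have : ∀ j k, κ j = κ k ↔ f j = f k := fun j k => by
      simp only [f, Fin.val_inj, rk_eq]
    simp only [Resp, this]
  have e2 : ∀ π, Resp κ' π ↔ Resp g π := by
    intro π
    have : ∀ j k, κ' j = κ' k ↔ g j = g k := fun j k => by
      simp only [g, Fin.val_inj, rk_eq]
    simp only [Resp, this]
  simp only [e1, e2]
  have h1 := coeff_Q hf A
  have h2 := coeff_Q hg A
  have h3 : (∑ j, Finsupp.single (g j) 1 : ℕ →₀ ℕ) =
      (∑ j, Finsupp.single (f j) 1 : ℕ →₀ ℕ).mapDomain (τ.viaEmbedding Fin.valEmbedding) := by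
    rw [← Equiv.sum_comp σ (fun j => (Finsupp.single (f j) 1 : ℕ →₀ ℕ)),
      Finsupp.mapDomain_finsetSum]
    refine Finset.sum_congr rfl fun j _ => ?_
    rw [Finsupp.mapDomain_single]
    congr 1
    have := Perm.viaEmbedding_apply τ Fin.valEmbedding (rk κ (σ j))
    have h4 := hτ j
    simp only [g]
    rw [← h4]
    exact this.symm
  rw [h3, hA, h1] at h2
  exact_mod_cast h2

/-! ### Counting products -/

open Classical in
/-- The number of the permutations `σ` such that `b σ` is increasing on the fibres of `f` and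
`σ⁻¹` is increasing on the fibres of `g`. -/
noncomputable def cnt (b : Perm (Fin n)) (f g : Fin n → ℕ) : ℕ :=
  (Finset.univ.filter fun σ : Perm (Fin n) => Resp f (b * σ) ∧ Resp g σ⁻¹).card

open Classical in
theorem cnt_eq {f g : Fin n → ℕ} (hf : Monotone f) (hg : Monotone g) (b : Perm (Fin n)) :
    cnt b f g = ((W f g).filter fun v => Resp (kap g v) b).card := by
  apply Finset.card_bij (fun (σ : Perm (Fin n)) _ => f ∘ ⇑(σ⁻¹))
  · intro σ hσ
    rw [Finset.mem_filter] at hσ ⊢
    exact first_mem hf hg hσ.2.1 hσ.2.2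
  · intro σ hσ σ' hσ' h
    rw [Finset.mem_filter] at hσ hσ'
    exact first_inj hf hσ.2.1 hσ'.2.1 h
  · intro v hv
    rw [Finset.mem_filter] at hv
    obtain ⟨σ, h1, h2, h3⟩ := first_surj hf hv.1 hv.2
    exact ⟨σ, by simp [h1, h2], h3⟩

open Classical in
theorem sum_cnt {f g : Fin n → ℕ} (hf : Monotone f) (hg : Monotone g)
    (B : Finset (Perm (Fin n))) :
    ∑ b ∈ B, cnt b f g = ∑ v ∈ W f g, B.val.countP (fun b => Resp (kap g v) b) := by
  have h1 : ∀ v, B.val.countP (fun b => Resp (kap g v) b) =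
      ∑ b ∈ B, if Resp (kap g v) b then 1 else 0 := by
    intro v
    rw [Multiset.countP_eq_card_filter, ← Finset.filter_val, Finset.card_val, Finset.card_filter]
  simp_rw [h1, cnt_eq hf hg, Finset.card_filter]
  exact Finset.sum_comm

theorem sum_cnt_symm {f g : Fin n → ℕ} (hf : Monotone f) (hg : Monotone g)
    {B : Finset (Perm (Fin n))} (hB : IsSymm (Q B.val)) :
    ∑ b ∈ B, cnt b f g = ∑ b ∈ B, cnt b g f := by
  rw [sum_cnt hf hg, sum_cnt hg hf]
  refine Finset.sum_bij' (fun v _ => tr g v) (fun v _ => tr f v) ?_ ?_ ?_ ?_ ?_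
  · intro v hv
    exact tr_mem hf hv
  · intro v hv
    exact tr_mem hg hv
  · intro v hv
    exact tr_tr hf hv
  · intro v hv
    exact tr_tr hg hv
  · intro v hv
    obtain ⟨⟨ρ, hρ⟩, hmono⟩ := mem_W.mp hv
    have h2 := comp_sort_eq hf hρ g
    refine count_symm hB hmono (mem_W.mp (tr_mem hf hv)).2 (Tuple.sort (kap v g)) ?_
    intro j k
    rw [kap_eq, kap_eq]
    have h3 : ∀ i, f i = v (Tuple.sort (kap v g) i) := fun i => by
      conv_lhs => rw [← h2]
      rfl
    simp only [tr, Function.comp_apply, h3]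
    exact and_comm

/-- Inversion over the subsets. -/
theorem eq_of_sum_powerset {N N' : Finset ℕ → ℕ}
    (h : ∀ J : Finset ℕ, ∑ K ∈ J.powerset, N K = ∑ K ∈ J.powerset, N' K) (J : Finset ℕ) : N J = N' J := by
  induction J using Finset.strongInduction with
  | H J ih =>
    have h1 := h J
    rw [← Finset.sum_erase_add _ _ (Finset.mem_powerset_self J),
      ← Finset.sum_erase_add _ _ (Finset.mem_powerset_self J)] at h1
    have h2 : ∑ K ∈ J.powerset.erase J, N K = ∑ K ∈ J.powerset.erase J, N' K := by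
      refine Finset.sum_congr rfl fun K hK => ?_
      rw [Finset.mem_erase, Finset.mem_powerset] at hK
      exact ih K (Finset.ssubset_iff_subset_ne.mpr ⟨hK.2, hK.1⟩)
    omega

open Classical in
theorem countP_mulM (A B : Finset (Perm (Fin n))) (P : Perm (Fin n) → Prop) :
    (mulM A B).countP P = ((A ×ˢ B).filter fun p => P (p.1 * p.2)).card := by
  rw [mulM, Multiset.countP_map]
  rfl

end Pool.Agent.X117.QS
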