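import Pool.Agent.X117.QSC

/-!
# A bijection between pointed words
-/

namespace Pool.Agent.X117.QS

open Equiv

section Enc

variable {n : ℕ}

/-- The encoding of a pointed word. -/
def enc (v : Fin n → ℕ) (p : Fin n) (j : Fin n) : ℕ := 2 * v j + if j = p then 1 else 0

theorem enc_comp (v : Fin n → ℕ) (p : Fin n) (ρ : Perm (Fin n)) :
    enc v p ∘ ρ = enc (v ∘ ρ) (ρ⁻¹ p) := by
  funext j
  simp only [enc, Function.comp_apply]
  congr 1
  by_cases h : ρ j = p
  · rw [if_pos h, if_pos (by rw [← h]; simp)]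
  · rw [if_neg h, if_neg (fun h' => h (by rw [h']; simp))]

theorem enc_inj {v v' : Fin n → ℕ} {p p' : Fin n} (h : enc v p = enc v' p') :
    v = v' ∧ p = p' := by
  constructor
  · funext j
    have h1 := congrFun h j
    simp only [enc] at h1
    split_ifs at h1 <;> omega
  · have h1 := congrFun h p
    simp only [enc, if_true] at h1
    by_contra hne
    rw [if_neg hne] at h1
    omega

theorem enc_mono {g v : Fin n → ℕ} {p : Fin n} : Monotone (kap g (enc v p)) ↔
    Monotone (kap g v) ∧ ∀ j, p < j → kap g v p < kap g v j := by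
  constructor
  · intro h
    constructor
    · intro j k hjk
      have h1 := kap_le.mp (h hjk)
      rw [kap_le]
      rcases h1 with h1 | ⟨h1, h2⟩
      · exact Or.inl h1
      · refine Or.inr ⟨h1, ?_⟩
        simp only [enc] at h2
        split_ifs at h2 <;> omega
    · intro j hj
      have h1 := kap_le.mp (h hj.le)
      rw [kap_lt]
      rcases h1 with h1 | ⟨h1, h2⟩
      · exact Or.inl h1
      · refine Or.inr ⟨h1, ?_⟩
        simp only [enc, if_true, if_neg hj.ne'] at h2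
        omega
  · rintro ⟨h1, h2⟩ j k hjk
    rw [kap_le]
    by_cases hj : j = p
    · subst hj
      rcases hjk.lt_or_eq with h3 | h3
      · rcases kap_lt.mp (h2 k h3) with h4 | ⟨h4, h5⟩
        · exact Or.inl h4
        · refine Or.inr ⟨h4, ?_⟩
          simp only [enc, if_true, if_neg h3.ne']
          omega
      · subst h3
        exact Or.inr ⟨rfl, le_rfl⟩
    · rcases kap_le.mp (h1 hjk) with h4 | ⟨h4, h5⟩
      · exact Or.inl h4
      · refine Or.inr ⟨h4, ?_⟩
        simp only [enc, if_neg hj]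
        split_ifs <;> omega

theorem sort_kap {g : Fin n → ℕ} (hg : Monotone g) (x : Fin n → ℕ) :
    g ∘ Tuple.sort (kap g x) = g := by
  have h1 : Monotone (kap g x ∘ Tuple.sort (kap g x)) := Tuple.monotone_sort _
  rw [kap_comp] at h1
  exact Tuple.unique_monotone (f := g) (τ := 1) (mono_fst h1) hg

end Enc

variable {m : ℕ}

/-- The map on pointed words: exchange the marked letter with the last letter and sort. -/
noncomputable def Phi (g : Fin (m + 1) → ℕ) (x : (Fin (m + 1) → ℕ) × Fin (m + 1)) :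
    (Fin (m + 1) → ℕ) × Fin (m + 1) :=
  ((x.1 ∘ swap x.2 (Fin.last m)) ∘
      Tuple.sort (kap g (enc (x.1 ∘ swap x.2 (Fin.last m)) x.2)),
    (Tuple.sort (kap g (enc (x.1 ∘ swap x.2 (Fin.last m)) x.2)))⁻¹ x.2)

theorem Phi_spec {g : Fin (m + 1) → ℕ} (hg : Monotone g)
    (hlast : ∀ j, j ≠ Fin.last m → g j < g (Fin.last m))
    (x : (Fin (m + 1) → ℕ) × Fin (m + 1)) :
    ∃ ρ : Perm (Fin (m + 1)), g ∘ ρ = g ∧ ρ (Fin.last m) = Fin.last m ∧
      (Phi g x).1 = (x.1 ∘ swap x.2 (Fin.last m)) ∘ ρ ∧ (Phi g x).2 = ρ⁻¹ x.2 ∧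
      Monotone (kap g (enc (Phi g x).1 (Phi g x).2)) := by
  let ρ : Perm (Fin (m + 1)) := Tuple.sort (kap g (enc (x.1 ∘ swap x.2 (Fin.last m)) x.2))
  have h1 : g ∘ ρ = g := sort_kap hg _
  refine ⟨ρ, h1, ?_, rfl, rfl, ?_⟩
  · by_contra hcon
    have := hlast _ hcon
    have h2 := congrFun h1 (Fin.last m)
    simp only [Function.comp_apply] at h2
    omega
  · have h2 : Monotone (kap g (enc (x.1 ∘ swap x.2 (Fin.last m)) x.2) ∘ ρ) :=
      Tuple.monotone_sort _
    rw [kap_comp, h1, enc_comp] at h2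
    exact h2

theorem Phi_Phi {g : Fin (m + 1) → ℕ} (hg : Monotone g)
    (hlast : ∀ j, j ≠ Fin.last m → g j < g (Fin.last m))
    {x : (Fin (m + 1) → ℕ) × Fin (m + 1)} (hx : Monotone (kap g (enc x.1 x.2))) :
    Phi g (Phi g x) = x := by
  obtain ⟨ρ, h1, h2, h3, h4, -⟩ := Phi_spec hg hlast x
  obtain ⟨ρ', h1', h2', h3', h4', h5'⟩ := Phi_spec hg hlast (Phi g x)
  have h6 : (Phi g x).1 ∘ swap (Phi g x).2 (Fin.last m) = x.1 ∘ ρ := by
    rw [h3, h4]
    funext j
    simp only [Function.comp_apply]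
    have h7 : ρ (swap (ρ⁻¹ x.2) (Fin.last m) j) = swap x.2 (Fin.last m) (ρ j) := by
      rw [← ρ.injective.swap_apply, h2]
      simp
    rw [h7, swap_apply_self]
  rw [h6] at h3'
  rw [h4] at h4'
  have h8 : enc (Phi g (Phi g x)).1 (Phi g (Phi g x)).2 = enc x.1 x.2 ∘ ⇑(ρ * ρ') := by
    rw [h3', h4', enc_comp, mul_inv_rev]
    rfl
  have h9 : g ∘ ⇑(ρ * ρ') = g := by
    rw [Perm.coe_mul, ← Function.comp_assoc, h1, h1']
  have h10 : kap g (enc x.1 x.2) ∘ ⇑(ρ * ρ') = kap g (enc x.1 x.2) := by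
    rw [h8] at h5'
    have h11 : Monotone (kap g (enc x.1 x.2) ∘ ⇑(ρ * ρ')) := by
      rw [kap_comp, h9]
      exact h5'
    exact Tuple.unique_monotone (f := kap g (enc x.1 x.2)) (τ := 1) h11 hx
  rw [kap_comp] at h10
  have h12 := (kap_inj h10).2
  rw [← h8] at h12
  have h13 := enc_inj h12
  exact Prod.ext h13.1 h13.2

end Pool.Agent.X117.QS
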