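import Pool.Agent.X117.QSD

/-!
# Counting products with the cyclic group
-/

namespace Pool.Agent.X117.QS

open Equiv

variable {m : ℕ}

/-! ### The normalised pointed words -/

open Classical in
/-- The normalised pointed words whose last letter is maximal. -/
noncomputable def NL (f g : Fin (m + 1) → ℕ) : Finset ((Fin (m + 1) → ℕ) × Fin (m + 1)) :=
  (W f g ×ˢ Finset.univ).filter fun x => x.2 ≠ Fin.last m ∧ x.1 (Fin.last m) = f (Fin.last m) ∧
    x.1 x.2 ≠ f (Fin.last m) ∧ (∀ j, g j < g x.2 → x.1 j ≠ f (Fin.last m)) ∧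
    Monotone (kap g (enc x.1 x.2))

open Classical in
/-- The normalised pointed words whose marked letter is maximal. -/
noncomputable def NR (f g : Fin (m + 1) → ℕ) : Finset ((Fin (m + 1) → ℕ) × Fin (m + 1)) :=
  (W f g ×ˢ Finset.univ).filter fun x => x.2 ≠ Fin.last m ∧ x.1 (Fin.last m) ≠ f (Fin.last m) ∧
    x.1 x.2 = f (Fin.last m) ∧ (∀ j, g j < g x.2 → x.1 j ≠ f (Fin.last m)) ∧
    Monotone (kap g (enc x.1 x.2))

theorem Phi_facts {f g : Fin (m + 1) → ℕ} (hg : Monotone g)
    (hlast : ∀ j, j ≠ Fin.last m → g j < g (Fin.last m))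
    {x : (Fin (m + 1) → ℕ) × Fin (m + 1)} (h1 : ∃ ρ : Perm (Fin (m + 1)), f ∘ ρ = x.1)
    (h2 : x.2 ≠ Fin.last m) (h3 : ∀ j, g j < g x.2 → x.1 j ≠ f (Fin.last m)) :
    (Phi g x).1 ∈ W f g ∧ (Phi g x).2 ≠ Fin.last m ∧ (Phi g x).1 (Fin.last m) = x.1 x.2 ∧
      (Phi g x).1 (Phi g x).2 = x.1 (Fin.last m) ∧
      (∀ j, g j < g (Phi g x).2 → (Phi g x).1 j ≠ f (Fin.last m)) ∧
      Monotone (kap g (enc (Phi g x).1 (Phi g x).2)) := by
  obtain ⟨ρ, e1, e2, e3, e4, e5⟩ := Phi_spec hg hlast x
  obtain ⟨ρ0, hρ0⟩ := h1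
  have hgp : g (ρ⁻¹ x.2) = g x.2 := by
    have := congrFun e1 (ρ⁻¹ x.2)
    simp only [Function.comp_apply] at this
    rw [← this]
    simp
  refine ⟨?_, ?_, ?_, ?_, ?_, e5⟩
  · rw [mem_W]
    refine ⟨⟨ρ0 * swap x.2 (Fin.last m) * ρ, ?_⟩, (enc_mono.mp e5).1⟩
    rw [e3, ← hρ0]
    rfl
  · rw [e4]
    intro h
    have : x.2 = ρ (Fin.last m) := by rw [← h]; simp
    exact h2 (this.trans e2)
  · rw [e3]
    simp only [Function.comp_apply]
    rw [e2, swap_apply_right]
  · rw [e3, e4]
    simp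
  · intro j hj
    rw [e4, hgp] at hj
    rw [e3]
    simp only [Function.comp_apply]
    have hgj : g (ρ j) = g j := congrFun e1 j
    have n1 : ρ j ≠ x.2 := by
      intro h
      rw [h] at hgj
      omega
    have n2 : ρ j ≠ Fin.last m := by
      intro h
      rw [h] at hgj
      have := hlast _ h2
      omega
    rw [swap_apply_of_ne_of_ne n1 n2]
    exact h3 _ (by rw [hgj]; exact hj)

theorem card_NL {f g : Fin (m + 1) → ℕ} (hg : Monotone g)
    (hlast : ∀ j, j ≠ Fin.last m → g j < g (Fin.last m)) : (NL f g).card = (NR f g).card := by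
  apply Finset.card_bij' (fun x _ => Phi g x) (fun x _ => Phi g x)
  · intro x hx
    simp only [NL, NR, Finset.mem_filter, Finset.mem_product, Finset.mem_univ, and_true] at hx ⊢
    obtain ⟨h1, h2, h3, h4, h5, h6⟩ := hx
    obtain ⟨g1, g2, g3, g4, g5, g6⟩ := Phi_facts hg hlast (mem_W.mp h1).1 h2 h5
    exact ⟨g1, g2, by rw [g3]; exact h4, by rw [g4]; exact h3, g5, g6⟩
  · intro x hx
    simp only [NL, NR, Finset.mem_filter, Finset.mem_product, Finset.mem_univ, and_true] at hx ⊢
    obtain ⟨h1, h2, h3, h4, h5, h6⟩ := hx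
    obtain ⟨g1, g2, g3, g4, g5, g6⟩ := Phi_facts hg hlast (mem_W.mp h1).1 h2 h5
    exact ⟨g1, g2, by rw [g3]; exact h4, by rw [g4]; exact h3, g5, g6⟩
  · intro x hx
    simp only [NL, Finset.mem_filter] at hx
    exact Phi_Phi hg hlast hx.2.2.2.2.2
  · intro x hx
    simp only [NR, Finset.mem_filter] at hx
    exact Phi_Phi hg hlast hx.2.2.2.2.2

open Classical in
theorem card_NR {f g : Fin (m + 1) → ℕ} :
    (NR f g).card = ((W f g).filter fun v => v (Fin.last m) ≠ f (Fin.last m)).card := by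
  apply Finset.card_bij (fun x _ => x.1)
  · intro x hx
    simp only [NR, Finset.mem_filter, Finset.mem_product, Finset.mem_univ, and_true] at hx ⊢
    exact ⟨hx.1, hx.2.2.1⟩
  · have key : ∀ x ∈ NR f g, ∀ y ∈ NR f g, x.1 = y.1 → ¬ x.2 < y.2 := by
      intro x hx y hy hxy hlt
      simp only [NR, Finset.mem_filter, Finset.mem_product, Finset.mem_univ, and_true] at hx hy
      obtain ⟨-, -, -, h4, -, h6⟩ := hx
      obtain ⟨-, -, -, g4, g5, -⟩ := hy
      rcases kap_lt.mp ((enc_mono.mp h6).2 y.2 hlt) with h | ⟨-, h⟩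
      · exact g5 _ h (by rw [← hxy]; exact h4)
      · rw [hxy, g4, ← hxy, h4] at h
        omega
    intro x hx y hy hxy
    refine Prod.ext hxy (le_antisymm ?_ ?_)
    · exact not_lt.mp (key y hy x hx hxy.symm)
    · exact not_lt.mp (key x hx y hy hxy)
  · intro v hv
    rw [Finset.mem_filter] at hv
    obtain ⟨hW, hne⟩ := hv
    obtain ⟨⟨ρ, hρ⟩, hmono⟩ := mem_W.mp hW
    let S : Finset (Fin (m + 1)) := Finset.univ.filter fun j => v j = f (Fin.last m)
    have hS : S.Nonempty := ⟨ρ⁻¹ (Fin.last m), by simp [S, ← hρ]⟩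
    obtain ⟨p0, hp0, hmin⟩ := Finset.exists_min_image S g hS
    let S' := S.filter fun j => g j = g p0
    have hS' : S'.Nonempty := ⟨p0, by simp [S', hp0]⟩
    obtain ⟨p, hp, hmax⟩ := Finset.exists_max_image S' id hS'
    simp only [S', S, Finset.mem_filter, Finset.mem_univ, true_and, id] at hp hmax hmin
    refine ⟨(v, p), ?_, rfl⟩
    simp only [NR, Finset.mem_filter, Finset.mem_product, Finset.mem_univ, and_true]
    refine ⟨hW, ?_, hne, hp.1, ?_, ?_⟩
    · intro h
      rw [h] at hp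
      exact hne hp.1
    · intro j hj hjr
      have := hmin j hjr
      omega
    · rw [enc_mono]
      refine ⟨hmono, fun j hj => ?_⟩
      refine lt_of_le_of_ne (hmono hj.le) fun h => ?_
      obtain ⟨h1, h2⟩ := kap_eq.mp h
      exact absurd (hmax j ⟨by rw [← h2]; exact hp.1, by rw [← h1]; exact hp.2⟩) (not_le.mpr hj)

/-! ### The rotations -/

/-- The rotation which maps `p` to the last element. -/
def rotp (p : Fin (m + 1)) : Perm (Fin (m + 1)) := Equiv.addRight (Fin.last m - p)

theorem rotp_val (p j : Fin (m + 1)) :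
    (rotp p j : ℕ) = if j ≤ p then (j : ℕ) + (m - p) else (j : ℕ) - p - 1 := by
  have hj := j.2
  have hp := p.2
  have h1 : ((Fin.last m - p : Fin (m + 1)) : ℕ) = m - p := by
    rw [Fin.sub_val_of_le (Fin.le_last p)]
    rfl
  have h2 : (rotp p j : ℕ) = ((j : ℕ) + (m - p)) % (m + 1) := by
    change ((j + (Fin.last m - p) : Fin (m + 1)) : ℕ) = _
    rw [Fin.val_add, h1]
  rw [h2]
  split_ifs with h
  · rw [Fin.le_def] at h
    exact Nat.mod_eq_of_lt (by omega)
  · rw [not_le, Fin.lt_def] at h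
    rw [Nat.mod_eq_sub_mod (by omega), Nat.mod_eq_of_lt (by omega)]
    omega

theorem rotp_self (p : Fin (m + 1)) : rotp p p = Fin.last m := by
  apply Fin.ext
  rw [rotp_val, if_pos le_rfl]
  have := p.2
  simp
  omega

theorem rotp_inj : Function.Injective (rotp : Fin (m + 1) → Perm (Fin (m + 1))) := by
  intro p q h
  have h1 := rotp_self p
  rw [h] at h1
  exact (rotp q).injective (h1.trans (rotp_self q).symm)

theorem rotp_lt {p j k : Fin (m + 1)} (hjk : j < k) :
    rotp p j < rotp p k ↔ ¬ (j ≤ p ∧ p < k) := by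
  have hj := j.2
  have hp := p.2
  have hk := k.2
  rw [Fin.lt_def] at hjk
  rw [Fin.lt_def, rotp_val, rotp_val]
  simp only [Fin.le_def, Fin.lt_def]
  split_ifs <;> omega

/-! ### The two counts -/

open Classical in
theorem count_right {f g : Fin (m + 1) → ℕ} (hf : Monotone f) (hg : Monotone g)
    (hlast : ∀ j, j ≠ Fin.last m → g j < g (Fin.last m)) (p : Fin (m + 1)) :
    (Finset.univ.filter fun σ : Perm (Fin (m + 1)) => σ (Fin.last m) = Fin.last m ∧
      Resp g σ⁻¹ ∧ Resp f (σ * rotp p)).card =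
      ((W g f).filter fun y => y p = g (Fin.last m)).card := by
  have hguniq : ∀ j, g j = g (Fin.last m) → j = Fin.last m := by
    intro j hj
    by_contra hcon
    have := hlast j hcon
    omega
  apply Finset.card_bij (fun (σ : Perm (Fin (m + 1))) _ => g ∘ ⇑(((σ * rotp p)⁻¹)⁻¹))
  · intro σ hσ
    simp only [Finset.mem_filter, Finset.mem_univ, true_and] at hσ ⊢
    obtain ⟨h1, h2, h3⟩ := hσ
    refine ⟨(first_mem hg hf (b := rotp p) (σ := (σ * rotp p)⁻¹) ?_ ?_).1, ?_⟩
    · have : rotp p * (σ * rotp p)⁻¹ = σ⁻¹ := by group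
      rw [this]
      exact h2
    · rw [inv_inv]
      exact h3
    · rw [inv_inv]
      simp [rotp_self, h1]
  · intro σ hσ σ' hσ' h
    simp only [Finset.mem_filter, Finset.mem_univ, true_and] at hσ hσ'
    have h4 : ∀ σ : Perm (Fin (m + 1)), rotp p * (σ * rotp p)⁻¹ = σ⁻¹ := fun σ => by group
    have := first_inj hg (b := rotp p) (σ := (σ * rotp p)⁻¹) (σ' := (σ' * rotp p)⁻¹)
      (by rw [h4]; exact hσ.2.1) (by rw [h4]; exact hσ'.2.1) h
    exact mul_right_cancel (inv_injective this)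
  · intro y hy
    rw [Finset.mem_filter] at hy
    obtain ⟨hW, hyp⟩ := hy
    obtain ⟨⟨ρ0, hρ0⟩, hmono⟩ := mem_W.mp hW
    have huniq : ∀ j, y j = g (Fin.last m) → j = p := by
      intro j hj
      apply ρ0.injective
      have e1 : g (ρ0 j) = g (Fin.last m) := by rw [← hj, ← hρ0]; rfl
      have e2 : g (ρ0 p) = g (Fin.last m) := by rw [← hyp, ← hρ0]; rfl
      rw [hguniq _ e1, hguniq _ e2]
    have hresp : Resp (kap f y) (rotp p) := by
      intro j k hjk hkap
      rw [rotp_lt hjk]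
      rintro ⟨h1, h2⟩
      obtain ⟨e1, e2⟩ := kap_eq.mp hkap
      have h3 : kap f y p = kap f y j :=
        le_antisymm ((hmono h2.le).trans hkap.ge) (hmono h1)
      have h4 : y j = g (Fin.last m) := by rw [← (kap_eq.mp h3).2, hyp]
      have h5 : k = p := huniq k (by rw [← e2, h4])
      exact absurd h2 (by rw [h5]; exact lt_irrefl _)
    obtain ⟨ρ, h1, h2, h3⟩ := first_surj hg hW hresp
    refine ⟨(rotp p * ρ)⁻¹, ?_, ?_⟩
    · simp only [Finset.mem_filter, Finset.mem_univ, true_and]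
      refine ⟨?_, by rw [inv_inv]; exact h1, ?_⟩
      · apply hguniq
        have e1 : (rotp p)⁻¹ (Fin.last m) = p := by
          rw [← rotp_self p]
          simp
        rw [mul_inv_rev, Perm.mul_apply, e1]
        have := congrFun h3 p
        simp only [Function.comp_apply] at this
        rw [this, hyp]
      · have : (rotp p * ρ)⁻¹ * rotp p = ρ⁻¹ := by group
        rw [this]
        exact h2
    · have : (((rotp p * ρ)⁻¹ * rotp p)⁻¹)⁻¹ = ρ⁻¹ := by group
      simp only [this]
      exact h3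

open Classical in
/-- The condition on the last letter. -/
def PL (v : Fin (m + 1) → ℕ) (c : Perm (Fin (m + 1))) : Prop :=
  ∀ j, j ≠ Fin.last m → v j < v (Fin.last m) ∨ v j = v (Fin.last m) ∧ c j < c (Fin.last m)

open Classical in
theorem count_left {f g : Fin (m + 1) → ℕ} (hf : Monotone f) (hg : Monotone g)
    (c : Perm (Fin (m + 1))) :
    (Finset.univ.filter fun σ : Perm (Fin (m + 1)) => σ (Fin.last m) = Fin.last m ∧
      Resp g σ⁻¹ ∧ Resp f (c * σ)).card =
      ((W f g).filter fun v => Resp (kap g v) c ∧ PL v c).card := by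
  apply Finset.card_bij (fun (σ : Perm (Fin (m + 1))) _ => f ∘ ⇑(σ⁻¹))
  · intro σ hσ
    simp only [Finset.mem_filter, Finset.mem_univ, true_and] at hσ ⊢
    obtain ⟨h1, h2, h3⟩ := hσ
    obtain ⟨h4, h5⟩ := first_mem hf hg h3 h2
    refine ⟨h4, h5, ?_⟩
    intro j hj
    have e1 : σ⁻¹ (Fin.last m) = Fin.last m := by
      conv_lhs => rw [← h1]
      simp
    have e2 : σ⁻¹ j < σ⁻¹ (Fin.last m) := by
      rw [e1]
      refine lt_of_le_of_ne (Fin.le_last _) fun h => hj ?_
      have : j = σ (Fin.last m) := by rw [← h]; simp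
      rw [this, h1]
    exact (lt_iff_of_resp hf h3 j _).mp e2
  · intro σ hσ σ' hσ' h
    simp only [Finset.mem_filter, Finset.mem_univ, true_and] at hσ hσ'
    exact first_inj hf hσ.2.2 hσ'.2.2 h
  · intro v hv
    rw [Finset.mem_filter] at hv
    obtain ⟨hW, hr, hP⟩ := hv
    obtain ⟨σ, h1, h2, h3⟩ := first_surj hf hW hr
    refine ⟨σ, ?_, h3⟩
    simp only [Finset.mem_filter, Finset.mem_univ, true_and]
    refine ⟨?_, h2, h1⟩
    by_contra hcon
    have h4 := hP _ hcon
    rw [← h3] at h4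
    have h5 := (lt_iff_of_resp hf h1 _ _).mpr h4
    have e : σ⁻¹ (σ (Fin.last m)) = Fin.last m := by simp
    rw [e] at h5
    exact absurd h5 (not_lt.mpr (Fin.le_last _))

theorem le_last_of {f v : Fin (m + 1) → ℕ} (hf : Monotone f) (h : ∃ ρ : Perm (Fin (m + 1)),
    f ∘ ρ = v) (j : Fin (m + 1)) : v j ≤ f (Fin.last m) := by
  obtain ⟨ρ, rfl⟩ := h
  exact hf (Fin.le_last _)

theorem last_eq_of {f v : Fin (m + 1) → ℕ} (hf : Monotone f) (h : ∃ ρ : Perm (Fin (m + 1)),
    f ∘ ρ = v) (h2 : ∀ j, j ≠ Fin.last m → v j ≤ v (Fin.last m)) :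
    v (Fin.last m) = f (Fin.last m) := by
  apply le_antisymm (le_last_of hf h _)
  obtain ⟨ρ, rfl⟩ := h
  have h3 : f (Fin.last m) = (f ∘ ρ) (ρ⁻¹ (Fin.last m)) := by simp
  rw [h3]
  by_cases hj : ρ⁻¹ (Fin.last m) = Fin.last m
  · rw [hj]
  · exact h2 _ hj

theorem cond_last {f g v : Fin (m + 1) → ℕ} (hf : Monotone f) (hv : v ∈ W f g) :
    (Resp (kap g v) (rotp (Fin.last m)) ∧ PL v (rotp (Fin.last m))) ↔
      v (Fin.last m) = f (Fin.last m) := by
  obtain ⟨hρ, hmono⟩ := mem_W.mp hv
  have hlt : ∀ {j k : Fin (m + 1)}, j < k → rotp (Fin.last m) j < rotp (Fin.last m) k := by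
    intro j k hjk
    rw [rotp_lt hjk]
    rintro ⟨-, h⟩
    exact absurd h (not_lt.mpr (Fin.le_last _))
  constructor
  · rintro ⟨-, h⟩
    apply last_eq_of hf hρ
    intro j hj
    rcases h j hj with h1 | ⟨h1, -⟩ <;> omega
  · intro h
    refine ⟨fun j k hjk _ => hlt hjk, fun j hj => ?_⟩
    have h1 := le_last_of hf hρ j
    rw [← h] at h1
    rcases h1.lt_or_eq with h2 | h2
    · exact Or.inl h2
    · exact Or.inr ⟨h2, hlt (lt_of_le_of_ne (Fin.le_last _) hj)⟩

theorem cond_not_last {f g v : Fin (m + 1) → ℕ} (hf : Monotone f) (hv : v ∈ W f g)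
    {p : Fin (m + 1)}
    (hp : p ≠ Fin.last m) :
    (Resp (kap g v) (rotp p) ∧ PL v (rotp p)) ↔ (v (Fin.last m) = f (Fin.last m) ∧
    v p ≠ f (Fin.last m) ∧ (∀ j, g j < g p → v j ≠ f (Fin.last m)) ∧
    Monotone (kap g (enc v p))) := by
  obtain ⟨hρ, hmono⟩ := mem_W.mp hv
  have hplt : p < Fin.last m := lt_of_le_of_ne (Fin.le_last _) hp
  constructor
  · rintro ⟨h1, h2⟩
    have h3 : v (Fin.last m) = f (Fin.last m) := by
      apply last_eq_of hf hρ
      intro j hj
      rcases h2 j hj with h1 | ⟨h1, -⟩ <;> omega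
    have h4 : ∀ j, j ≤ p → v j ≠ f (Fin.last m) := by
      intro j hj hjr
      have hjl : j < Fin.last m := lt_of_le_of_lt hj hplt
      rcases h2 j hjl.ne with h5 | ⟨-, h5⟩
      · omega
      · rw [rotp_lt hjl] at h5
        exact h5 ⟨hj, hplt⟩
    refine ⟨h3, h4 p le_rfl, ?_, ?_⟩
    · intro j hj
      apply h4
      by_contra hcon
      have := mono_fst hmono (not_le.mp hcon).le
      omega
    · rw [enc_mono]
      refine ⟨hmono, fun j hj => ?_⟩
      refine lt_of_le_of_ne (hmono hj.le) fun h => ?_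
      have := h1 p j hj h
      rw [rotp_lt hj] at this
      exact this ⟨le_rfl, hj⟩
  · rintro ⟨h1, h2, h3, h4⟩
    have h5 := (enc_mono.mp h4).2
    have h6 : ∀ j, j ≤ p → v j ≠ f (Fin.last m) := by
      intro j hj
      rcases kap_le.mp (hmono hj) with h7 | ⟨-, h7⟩
      · exact h3 j h7
      · have := le_last_of hf hρ p
        omega
    constructor
    · intro j k hjk hkap
      rw [rotp_lt hjk]
      rintro ⟨h7, h8⟩
      have h9 : kap g v j < kap g v k := lt_of_le_of_lt (hmono h7) (h5 k h8)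
      exact absurd hkap h9.ne
    · intro j hj
      have h7 := le_last_of hf hρ j
      rw [h1]
      rcases h7.lt_or_eq with h8 | h8
      · exact Or.inl h8
      · refine Or.inr ⟨h8, ?_⟩
        have hjl : j < Fin.last m := lt_of_le_of_ne (Fin.le_last _) hj
        rw [rotp_lt hjl]
        rintro ⟨h9, -⟩
        exact h6 j h9 h8

open Classical in
/-- **The main count.** -/
theorem main_count {f g : Fin (m + 1) → ℕ} (hf : Monotone f) (hg : Monotone g)
    (hlast : ∀ j, j ≠ Fin.last m → g j < g (Fin.last m)) :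
    ∑ p : Fin (m + 1), (Finset.univ.filter fun σ : Perm (Fin (m + 1)) =>
      σ (Fin.last m) = Fin.last m ∧ Resp g σ⁻¹ ∧ Resp f (rotp p * σ)).card =
    ∑ p : Fin (m + 1), (Finset.univ.filter fun σ : Perm (Fin (m + 1)) =>
      σ (Fin.last m) = Fin.last m ∧ Resp g σ⁻¹ ∧ Resp f (σ * rotp p)).card := by
  have hguniq : ∀ j, g j = g (Fin.last m) → j = Fin.last m := by
    intro j hj
    by_contra hcon
    have := hlast j hcon
    omega
  -- the right hand side
  have hR : ∑ p : Fin (m + 1), ((W g f).filter fun y => y p = g (Fin.last m)).card =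
      (W g f).card := by
    simp_rw [Finset.card_filter]
    rw [Finset.sum_comm, Finset.card_eq_sum_ones]
    refine Finset.sum_congr rfl fun y hy => ?_
    obtain ⟨⟨ρ, hρ⟩, -⟩ := mem_W.mp hy
    rw [Finset.sum_eq_single (ρ⁻¹ (Fin.last m))]
    · rw [if_pos (by rw [← hρ]; simp)]
    · intro j _ hj
      rw [if_neg]
      intro h
      apply hj
      have e1 : g (ρ j) = g (Fin.last m) := by rw [← h, ← hρ]; rfl
      rw [← hguniq _ e1]
      simp
    · intro h
      exact absurd (Finset.mem_univ _) h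
  have hWW : (W g f).card = (W f g).card := by
    apply Finset.card_bij' (fun v _ => tr f v) (fun v _ => tr g v)
    · intro v hv
      exact tr_mem hg hv
    · intro v hv
      exact tr_mem hf hv
    · intro v hv
      exact tr_tr hg hv
    · intro v hv
      exact tr_tr hf hv
  simp_rw [count_right hf hg hlast, count_left hf hg]
  rw [hR, hWW]
  -- the left hand side
  rw [← Finset.add_sum_erase _ _ (Finset.mem_univ (Fin.last m))]
  have e1 : ((W f g).filter fun v => Resp (kap g v) (rotp (Fin.last m)) ∧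
      PL v (rotp (Fin.last m))) = (W f g).filter fun v => v (Fin.last m) = f (Fin.last m) :=
    Finset.filter_congr fun v hv => cond_last hf hv
  have e2 : ∑ p ∈ Finset.univ.erase (Fin.last m), ((W f g).filter fun v =>
      Resp (kap g v) (rotp p) ∧ PL v (rotp p)).card = (NL f g).card := by
    have e3 : (NL f g).card = ∑ p ∈ Finset.univ.erase (Fin.last m),
        ((NL f g).filter fun x => x.2 = p).card :=
      Finset.card_eq_sum_card_fiberwise fun x hx => by
        simp only [NL, Finset.coe_filter, Set.mem_ofPred_eq] at hx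
        simp [hx.2.1]
    rw [e3]
    refine Finset.sum_congr rfl fun p hp => ?_
    have hp' : p ≠ Fin.last m := Finset.ne_of_mem_erase hp
    apply Finset.card_bij (fun v _ => (v, p))
    · intro v hv
      rw [Finset.mem_filter] at hv
      have := (cond_not_last hf hv.1 hp').mp hv.2
      simp only [NL, Finset.mem_filter, Finset.mem_product, Finset.mem_univ, and_true]
      exact ⟨hv.1, hp', this⟩
    · intro v _ v' _ h
      exact congrArg Prod.fst h
    · intro x hx
      simp only [NL, Finset.mem_filter, Finset.mem_product, Finset.mem_univ, and_true] at hx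
      obtain ⟨⟨h1, h2, h3⟩, rfl⟩ := hx
      refine ⟨x.1, ?_, rfl⟩
      rw [Finset.mem_filter]
      exact ⟨h1, (cond_not_last hf h1 h2).mpr h3⟩
  rw [e1, e2, card_NL hg hlast, card_NR]
  exact Finset.card_filter_add_card_filter_not _

end Pool.Agent.X117.QS
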