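import Pool.Agent.X117.QS

/-!
# Descents of the insertion tableau
-/

namespace Pool.Agent.X117.RSK

open Equiv Pool.Agent.X117.QS

/-- Row insertion of `x`: the leftmost entry greater than `x` is replaced by `x` and bumped; if
there is none, `x` is put at the end. The second component is the bumped entry. -/
def insRow (x : ℕ) : List ℕ → List ℕ × Option ℕ
  | [] => ([x], none)
  | y :: R => if x < y then (x :: R, some y) else (y :: (insRow x R).1, (insRow x R).2)

/-- Insertion of `x` into a tableau (the list of its rows, from top to bottom): the entry bumped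
from a row is inserted into the next row. -/
def insTab : ℕ → List (List ℕ) → List (List ℕ)
  | x, [] => [[x]]
  | x, R :: T =>
    match (insRow x R).2 with
    | none => (insRow x R).1 :: T
    | some y => (insRow x R).1 :: insTab y T

/-- The insertion tableau of a word. -/
def tab (L : List ℕ) : List (List ℕ) := L.foldl (fun T x => insTab x T) []

/-- `i + 1` lies in a row strictly below the row of `i`. -/
def Below (T : List (List ℕ)) (i : ℕ) : Prop :=
  ∃ a b : ℕ, ∃ R R' : List ℕ, a < b ∧ T[a]? = some R ∧ T[b]? = some R' ∧ i ∈ R ∧ i + 1 ∈ R'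

/-- The words obtained from each other by exchanging adjacent letters that are not consecutive
integers. -/
inductive Sw : List ℕ → List ℕ → Prop
  | refl (L) : Sw L L
  | swap (A B : List ℕ) (a b : ℕ) : a + 1 < b ∨ b + 1 < a → Sw (A ++ a :: b :: B) (A ++ b :: a :: B)
  | trans {L M N} : Sw L M → Sw M N → Sw L N

theorem Sw.append_left {L M : List ℕ} (h : Sw L M) (A : List ℕ) : Sw (A ++ L) (A ++ M) := by
  induction h with
  | refl => exact Sw.refl _
  | swap A' B a b h =>
    rw [← List.append_assoc, ← List.append_assoc]
    exact Sw.swap _ _ _ _ h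
  | trans _ _ ih1 ih2 => exact ih1.trans ih2

theorem Sw.append_right {L M : List ℕ} (h : Sw L M) (B : List ℕ) : Sw (L ++ B) (M ++ B) := by
  induction h with
  | refl => exact Sw.refl _
  | swap A' B' a b h =>
    simp only [List.append_assoc, List.cons_append]
    exact Sw.swap _ _ _ _ h
  | trans _ _ ih1 ih2 => exact ih1.trans ih2

theorem Sw.cons {L M : List ℕ} (h : Sw L M) (a : ℕ) : Sw (a :: L) (a :: M) := h.append_left [a]

theorem Sw.perm {L M : List ℕ} (h : Sw L M) : L.Perm M := by
  induction h with
  | refl => exact List.Perm.refl _
  | swap A B a b _ => exact List.Perm.append_left _ (List.Perm.swap _ _ _)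
  | trans _ _ ih1 ih2 => exact ih1.trans ih2

theorem Sw.filter {L M : List ℕ} (h : Sw L M) (i : ℕ) :
    L.filter (fun t => decide (t = i ∨ t = i + 1)) =
      M.filter (fun t => decide (t = i ∨ t = i + 1)) := by
  induction h with
  | refl => rfl
  | swap A B a b h =>
    rw [List.filter_append, List.filter_append]
    congr 1
    rw [List.filter_cons, List.filter_cons, List.filter_cons, List.filter_cons]
    by_cases h1 : a = i ∨ a = i + 1
    · by_cases h2 : b = i ∨ b = i + 1
      · omega
      · simp [h1, h2]
    · by_cases h2 : b = i ∨ b = i + 1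
      · simp [h1, h2]
      · simp [h1, h2]
  | trans _ _ ih1 ih2 => exact ih1.trans ih2

/-- Moving a letter to the left past larger letters. -/
theorem sw_move_left (x : ℕ) : ∀ B : List ℕ, (∀ b ∈ B, x + 1 < b) → Sw (B ++ [x]) (x :: B)
  | [], _ => Sw.refl _
  | b :: B, h => by
    have h1 := (sw_move_left x B fun c hc => h c (List.mem_cons_of_mem _ hc)).cons b
    have h2 : Sw (b :: x :: B) (x :: b :: B) :=
      Sw.swap [] B b x (Or.inr (h b (List.mem_cons_self)))
    exact h1.trans h2

/-- Moving a letter to the left past smaller letters. -/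
theorem sw_move_left' (y : ℕ) : ∀ B : List ℕ, (∀ b ∈ B, b + 1 < y) → Sw (B ++ [y]) (y :: B)
  | [], _ => Sw.refl _
  | b :: B, h => by
    have h1 := (sw_move_left' y B fun c hc => h c (List.mem_cons_of_mem _ hc)).cons b
    have h2 : Sw (b :: y :: B) (y :: b :: B) :=
      Sw.swap [] B b y (Or.inl (h b (List.mem_cons_self)))
    exact h1.trans h2

theorem insRow_none {x : ℕ} : ∀ {R : List ℕ}, (insRow x R).2 = none →
    (insRow x R).1 = R ++ [x] ∧ ∀ y ∈ R, y ≤ x
  | [], _ => by simp [insRow]
  | y :: R, h => by
    by_cases hxy : x < y
    · simp [insRow, hxy] at h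
    · simp only [insRow, if_neg hxy] at h ⊢
      obtain ⟨h1, h2⟩ := insRow_none h
      rw [h1]
      refine ⟨rfl, ?_⟩
      intro z hz
      rcases List.mem_cons.mp hz with rfl | hz
      · omega
      · exact h2 z hz

theorem insRow_some {x y : ℕ} : ∀ {R : List ℕ}, (insRow x R).2 = some y →
    ∃ A B, R = A ++ y :: B ∧ (insRow x R).1 = A ++ x :: B ∧ x < y ∧ ∀ a ∈ A, a ≤ x
  | [], h => by simp [insRow] at h
  | z :: R, h => by
    by_cases hxz : x < z
    · simp only [insRow, if_pos hxz, Option.some.injEq] at h ⊢
      subst h
      exact ⟨[], R, rfl, rfl, hxz, by simp⟩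
    · simp only [insRow, if_neg hxz] at h ⊢
      obtain ⟨A, B, h1, h2, h3, h4⟩ := insRow_some h
      refine ⟨z :: A, B, by rw [h1]; rfl, by rw [h2]; rfl, h3, ?_⟩
      intro a ha
      rcases List.mem_cons.mp ha with rfl | ha
      · omega
      · exact h4 a ha

/-- The reading word: the rows from bottom to top. -/
def word (T : List (List ℕ)) : List ℕ := T.reverse.flatten

theorem word_cons (R : List ℕ) (T : List (List ℕ)) : word (R :: T) = word T ++ R := by
  simp [word]

theorem insTab_spec : ∀ (T : List (List ℕ)) (x : ℕ), (∀ R ∈ T, R.Pairwise (· < ·)) →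
    (∀ R ∈ T, x ∉ R) → (word T).Nodup →
    (∀ R ∈ insTab x T, R.Pairwise (· < ·)) ∧ Sw (word T ++ [x]) (word (insTab x T))
  | [], x, _, _, _ => by
    simp only [insTab, word]
    simp
    exact Sw.refl _
  | R :: T, x, hT, hx, hnd => by
    have hR : R.Pairwise (· < ·) := hT R List.mem_cons_self
    have hxR : x ∉ R := hx R List.mem_cons_self
    cases hc : (insRow x R).2 with
    | none =>
      obtain ⟨h1, h2⟩ := insRow_none hc
      have e : insTab x (R :: T) = (R ++ [x]) :: T := by
        rw [insTab, hc, h1]
      rw [e]
      constructor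
      · intro S hS
        rcases List.mem_cons.mp hS with rfl | hS
        · rw [List.pairwise_append]
          refine ⟨hR, List.pairwise_singleton _ _, ?_⟩
          intro a ha b hb
          rw [List.mem_singleton] at hb
          subst hb
          exact lt_of_le_of_ne (h2 a ha) fun h => hxR (h ▸ ha)
        · exact hT S (List.mem_cons_of_mem _ hS)
      · rw [word_cons, word_cons, List.append_assoc]
        exact Sw.refl _
    | some y =>
      obtain ⟨A, B, h1, h2, h3, h4⟩ := insRow_some hc
      have e : insTab x (R :: T) = (A ++ x :: B) :: insTab y T := by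
        rw [insTab, hc]
        simp only [h2]
      rw [e]
      have hA : ∀ a ∈ A, a < x := fun a ha =>
        lt_of_le_of_ne (h4 a ha) fun h => hxR (by rw [h1, ← h]; simp [ha])
      rw [h1, List.pairwise_append, List.pairwise_cons] at hR
      obtain ⟨p1, ⟨p2, p3⟩, p4⟩ := hR
      have hyT : ∀ S ∈ T, y ∉ S := by
        intro S hS hyS
        rw [word_cons, List.nodup_append] at hnd
        have hyw : y ∈ word T := by
          rw [word, List.mem_flatten]
          exact ⟨S, by simpa using hS, hyS⟩
        exact hnd.2.2 y hyw y (by rw [h1]; simp) rfl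
      have hnd' : (word T).Nodup := by
        rw [word_cons, List.nodup_append] at hnd
        exact hnd.1
      obtain ⟨q1, q2⟩ := insTab_spec T y (fun S hS => hT S (List.mem_cons_of_mem _ hS)) hyT hnd'
      constructor
      · intro S hS
        rcases List.mem_cons.mp hS with rfl | hS
        · rw [List.pairwise_append, List.pairwise_cons]
          refine ⟨p1, ⟨fun b hb => h3.trans (p2 b hb), p3⟩, ?_⟩
          intro a ha b hb
          rcases List.mem_cons.mp hb with rfl | hb
          · exact hA a ha
          · exact (hA a ha).trans (h3.trans (p2 b hb))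
        · exact q1 S hS
      · rw [word_cons, word_cons, h1]
        -- A y B x ~ A y x B ~ y A x B
        have s1 : Sw (B ++ [x]) (x :: B) := sw_move_left x B fun b hb => by
          have := p2 b hb
          omega
        have s2 : Sw (A ++ [y]) (y :: A) := sw_move_left' y A fun a ha => by
          have := hA a ha
          omega
        have s3 : Sw ((A ++ y :: B) ++ [x]) (y :: (A ++ x :: B)) := by
          have t1 : Sw ((A ++ y :: B) ++ [x]) ((A ++ [y]) ++ (x :: B)) := by
            have := s1.append_left (A ++ [y])
            simpa using this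
          have t2 : Sw ((A ++ [y]) ++ (x :: B)) (y :: (A ++ x :: B)) := by
            have := s2.append_right (x :: B)
            simpa using this
          exact t1.trans t2
        have s4 := s3.append_left (word T)
        have s5 := q2.append_right (A ++ x :: B)
        have e1 : word T ++ (A ++ y :: B) ++ [x] = word T ++ ((A ++ y :: B) ++ [x]) := by
          rw [List.append_assoc]
        rw [e1]
        refine s4.trans ?_
        have e2 : word T ++ y :: (A ++ x :: B) = (word T ++ [y]) ++ (A ++ x :: B) := by simp
        rw [e2]
        exact s5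

theorem tab_spec : ∀ L : List ℕ, L.Nodup →
    (∀ R ∈ tab L, R.Pairwise (· < ·)) ∧ Sw L (word (tab L)) := by
  intro L
  induction L using List.reverseRecOn with
  | nil => 
    intro _
    simp [tab, word]
    exact Sw.refl _
  | append_singleton L x ih =>
    intro hnd
    rw [List.nodup_append] at hnd
    obtain ⟨h1, h2⟩ := ih hnd.1
    have e : tab (L ++ [x]) = insTab x (tab L) := by
      rw [tab, List.foldl_append]
      rfl
    have hx : ∀ R ∈ tab L, x ∉ R := by
      intro R hR hxR
      have h3 : x ∈ word (tab L) := by
        rw [word, List.mem_flatten]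
        exact ⟨R, by simpa using hR, hxR⟩
      have h4 : x ∈ L := h2.perm.mem_iff.mpr h3
      exact hnd.2.2 x h4 x (by simp) rfl
    obtain ⟨h3, h4⟩ := insTab_spec (tab L) x h1 hx (h2.perm.nodup_iff.mp hnd.1)
    rw [e]
    exact ⟨h3, (h2.append_right [x]).trans h4⟩

theorem pair_sublist_word {T : List (List ℕ)} {a b : ℕ} {R R' : List ℕ} {x y : ℕ} (hab : a < b)
    (ha : T[a]? = some R) (hb : T[b]? = some R') (hx : x ∈ R) (hy : y ∈ R') :
    [y, x].Sublist (word T) := by
  induction T generalizing a b with
  | nil => simp at ha
  | cons S T ih =>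
    rw [word_cons]
    cases b with
    | zero => omega
    | succ b =>
      rw [List.getElem?_cons_succ] at hb
      cases a with
      | zero =>
        simp only [List.getElem?_cons_zero, Option.some.injEq] at ha
        subst ha
        have h1 : [y].Sublist (word T) := by
          rw [List.singleton_sublist, word, List.mem_flatten]
          exact ⟨R', by simpa using List.mem_of_getElem? hb, hy⟩
        have h2 : [x].Sublist S := by
          rw [List.singleton_sublist]
          exact hx
        exact h1.append h2
      | succ a =>
        rw [List.getElem?_cons_succ] at ha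
        exact (ih (by omega) ha hb).trans (List.sublist_append_left _ _)

theorem sublist_word_of_mem {T : List (List ℕ)} {R : List ℕ} (h : R ∈ T) :
    R.Sublist (word T) := by
  induction T with
  | nil => simp at h
  | cons S T ih =>
    rw [word_cons]
    rcases List.mem_cons.mp h with rfl | h
    · exact List.sublist_append_right _ _
    · exact (ih h).trans (List.sublist_append_left _ _)

/-- `i + 1` is below `i` in the insertion tableau if and only if it is to the left of `i` in the
word. -/
theorem below_iff {L : List ℕ} (hL : L.Nodup) {i : ℕ} (h1 : i ∈ L) (h2 : i + 1 ∈ L) :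
    Below (tab L) i ↔ [i + 1, i].Sublist L := by
  obtain ⟨hrows, hsw⟩ := tab_spec L hL
  have hnd : (word (tab L)).Nodup := hsw.perm.nodup_iff.mp hL
  let p : ℕ → Bool := fun t => decide (t = i ∨ t = i + 1)
  have hf : L.filter p = (word (tab L)).filter p := hsw.filter i
  -- for a list without repetitions containing both, `[u, v]` is a sublist iff the filter is `[u, v]`
  have key : ∀ M : List ℕ, M.Nodup → ∀ u v : ℕ, (u = i ∧ v = i + 1) ∨ (u = i + 1 ∧ v = i) →
      [u, v].Sublist M → M.filter p = [u, v] := by
    intro M hM u v huv hs
    have hs2 : [u, v].Sublist (M.filter p) := by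
      have := hs.filter p
      rcases huv with ⟨rfl, rfl⟩ | ⟨rfl, rfl⟩ <;> simpa [p] using this
    have hlen : (M.filter p).length ≤ 2 := by
      have hsub : (M.filter p).toFinset ⊆ {i, i + 1} := by
        intro t ht
        simp [p] at ht ⊢
        exact ht.2
      have hc := Finset.card_le_card hsub
      rw [List.toFinset_card_of_nodup (hM.filter p)] at hc
      exact hc.trans (Finset.card_le_two)
    exact (hs2.eq_of_length_le (by simpa using hlen)).symm
  have hmem1 : i ∈ word (tab L) := hsw.perm.mem_iff.mp h1
  have hmem2 : i + 1 ∈ word (tab L) := hsw.perm.mem_iff.mp h2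
  constructor
  · rintro ⟨a, b, R, R', hab, ha, hb, hi, hi'⟩
    have h3 := pair_sublist_word hab ha hb hi hi'
    have h4 := key _ hnd _ _ (Or.inr ⟨rfl, rfl⟩) h3
    rw [← hf] at h4
    rw [← h4]
    exact List.filter_sublist
  · intro h
    have h4 := key _ hL _ _ (Or.inr ⟨rfl, rfl⟩) h
    rw [word, List.mem_flatten] at hmem1 hmem2
    obtain ⟨R, hR, hiR⟩ := hmem1
    obtain ⟨R', hR', hiR'⟩ := hmem2
    rw [List.mem_reverse] at hR hR'
    obtain ⟨a, ha⟩ := List.mem_iff_getElem?.mp hR
    obtain ⟨b, hb⟩ := List.mem_iff_getElem?.mp hR'
    refine ⟨a, b, R, R', ?_, ha, hb, hiR, hiR'⟩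
    by_contra hcon
    have h5 : [i, i + 1].Sublist (word (tab L)) := by
      rcases (not_lt.mp hcon).lt_or_eq with h6 | h6
      · exact pair_sublist_word h6 hb ha hiR' hiR
      · subst h6
        rw [ha, Option.some.injEq] at hb
        subst hb
        have hpw := hrows R hR
        have h7 : [i, i + 1].Sublist R := by
          obtain ⟨A, B, rfl⟩ := List.append_of_mem hiR
          rw [List.pairwise_append, List.pairwise_cons] at hpw
          have h8 : i + 1 ∈ B := by
            rcases List.mem_append.mp hiR' with h9 | h9
            · have := hpw.2.2 _ h9 i List.mem_cons_self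
              omega
            · rcases List.mem_cons.mp h9 with h9 | h9
              · omega
              · exact h9
          have h9 : [i + 1].Sublist B := List.singleton_sublist.mpr h8
          exact (h9.cons_cons i).trans (List.sublist_append_right _ _)
        exact h7.trans (sublist_word_of_mem hR)
    have h6 := key _ hnd _ _ (Or.inl ⟨rfl, rfl⟩) h5
    rw [← hf, h4] at h6
    simp at h6

end Pool.Agent.X117.RSK
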