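import Pool.Agent.X117.QSC
import Pool.Agent.X117.RSK

/-!
# Refilling the positions of the blocks in increasing order
-/

namespace Pool.Agent.X117.RSK

open Equiv Pool.Agent.X117.QS

variable {n : ℕ}

/-- The one-line word of a permutation, with the values `1, …, n`. -/
def oneLine (w : Perm (Fin n)) : List ℕ := List.ofFn fun t => (w t : ℕ) + 1

/-- The RSK insertion tableau `P(w)`. -/
def P (w : Perm (Fin n)) : List (List ℕ) := tab (oneLine w)

open Classical in
/-- The descent set of a tableau with `n` cells. -/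
noncomputable def DesT (n : ℕ) (T : List (List ℕ)) : Finset ℕ :=
  (Finset.Ico 1 n).filter fun i => Below T i

theorem pair_sublist_ofFn {f : Fin n → ℕ} {a b : ℕ} :
    [a, b].Sublist (List.ofFn f) ↔ ∃ s t : Fin n, s < t ∧ f s = a ∧ f t = b := by
  have h1 := @List.pairwise_iff_forall_sublist _ (List.ofFn f) (fun x y => ¬ (x = a ∧ y = b))
  have h2 := @List.pairwise_ofFn _ (fun x y => ¬ (x = a ∧ y = b)) n f
  rw [h1] at h2
  constructor
  · intro h
    by_contra hcon
    push Not at hcon
    exact h2.mpr (fun s t hst h => hcon s t hst h.1 h.2) h ⟨rfl, rfl⟩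
  · rintro ⟨s, t, hst, h3, h4⟩
    by_contra hcon
    exact h2.mp (fun {x y} hxy h => hcon (by rw [← h.1, ← h.2]; exact hxy)) hst ⟨h3, h4⟩

theorem DesT_P (w : Perm (Fin n)) : DesT n (P w) = Des w⁻¹ := by
  classical
  have hnd : (oneLine w).Nodup := by
    rw [oneLine, List.nodup_ofFn]
    intro s t h
    exact w.injective (Fin.ext (by simpa using h))
  ext i
  rw [DesT, Finset.mem_filter, Finset.mem_Ico, mem_Des]
  have hmem : ∀ j, 1 ≤ j → j ≤ n → j ∈ oneLine w := by
    intro j h1 h2
    rw [oneLine, List.mem_ofFn]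
    refine ⟨w⁻¹ ⟨j - 1, by omega⟩, ?_⟩
    simp
    omega
  constructor
  · rintro ⟨⟨h1, h2⟩, h3⟩
    rw [P, below_iff hnd (hmem i h1 h2.le) (hmem (i + 1) (by omega) h2), oneLine,
      pair_sublist_ofFn] at h3
    obtain ⟨s, t, hst, h4, h5⟩ := h3
    refine ⟨w t, w s, by omega, by omega, ?_⟩
    simpa using hst
  · rintro ⟨j, k, h1, h2, h3⟩
    have hk := k.2
    refine ⟨⟨by omega, by omega⟩, ?_⟩
    rw [P, below_iff hnd (hmem i (by omega) (by omega)) (hmem (i + 1) (by omega) (by omega)),
      oneLine, pair_sublist_ofFn]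
    exact ⟨w⁻¹ k, w⁻¹ j, h3, by simp; omega, by simp; omega⟩

/-! ### Refilling -/

/-- `w` is obtained from `π` by refilling, for each fibre `B` of `c`, the positions occupied by the
elements of `B` with the elements of `B` in increasing order. -/
def IsRefill {T : Type*} (c : Fin n → T) (π w : Perm (Fin n)) : Prop :=
  (∀ t, c (w t) = c (π t)) ∧ ∀ s t, s < t → c (π s) = c (π t) → w s < w t

theorem isRefill_iff {c : Fin n → ℕ} {π w : Perm (Fin n)} :
    IsRefill c π w ↔ w = Tuple.sort c * (Tuple.sort (c ∘ π))⁻¹ := by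
  obtain ⟨a1, a2⟩ := Tuple.eq_sort_iff.mp (show Tuple.sort c = Tuple.sort c from rfl)
  obtain ⟨b1, b2⟩ :=
    Tuple.eq_sort_iff.mp (show Tuple.sort (c ∘ π) = Tuple.sort (c ∘ π) from rfl)
  constructor
  · rintro ⟨h1, h2⟩
    rw [eq_mul_inv_iff_mul_eq]
    rw [Tuple.eq_sort_iff]
    constructor
    · intro i j hij
      simp only [Function.comp_apply, Perm.mul_apply, h1]
      exact b1 hij
    · intro i j hij h
      simp only [Perm.mul_apply, h1] at h ⊢
      exact h2 _ _ (b2 i j hij h) h
  · rintro rfl
    have h3 : c ∘ Tuple.sort c = (c ∘ π) ∘ Tuple.sort (c ∘ π) := by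
      have : (c ∘ π) ∘ Tuple.sort (c ∘ π) = c ∘ ⇑(π * Tuple.sort (c ∘ π)) := rfl
      rw [this]
      exact Tuple.unique_monotone a1 (by rw [← this]; exact b1)
    have h4 : ∀ t, c ((Tuple.sort c * (Tuple.sort (c ∘ π))⁻¹) t) = c (π t) := by
      intro t
      have := congrFun h3 ((Tuple.sort (c ∘ π))⁻¹ t)
      simpa using this
    refine ⟨h4, ?_⟩
    intro s t hst h
    have h5 : (Tuple.sort (c ∘ π))⁻¹ s < (Tuple.sort (c ∘ π))⁻¹ t := by
      by_contra hcon
      rcases (not_lt.mp hcon).lt_or_eq with h6 | h6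
      · have := b2 _ _ h6 (by simpa using h.symm)
        simp at this
        exact absurd hst (not_lt.mpr this.le)
      · have := (Tuple.sort (c ∘ π))⁻¹.injective h6
        rw [this] at hst
        exact lt_irrefl _ hst
    apply a2 _ _ h5
    have e1 := h4 s
    have e2 := h4 t
    simp only [Perm.mul_apply] at e1 e2
    rw [e1, e2, h]

theorem isRefill_congr {T T' : Type*} {c : Fin n → T} {c' : Fin n → T'}
    (h : ∀ x y, c x = c y ↔ c' x = c' y) {π w : Perm (Fin n)} :
    IsRefill c π w ↔ IsRefill c' π w := by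
  simp only [IsRefill, h]

theorem existsUnique_refill {T : Type*} (c : Fin n → T) (π : Perm (Fin n)) :
    ∃! w, IsRefill c π w := by
  classical
  let c' : Fin n → ℕ := fun x => (Finset.univ.filter fun y => c y = c x).inf' ⟨x, by simp⟩
    (fun y => (y : ℕ))
  have hc' : ∀ x y, c x = c y ↔ c' x = c' y := by
    intro x y
    constructor
    · intro h
      simp only [c', h]
    · intro h
      obtain ⟨z, hz, hz'⟩ := Finset.exists_mem_eq_inf' (s := Finset.univ.filter fun y => c y = c x)
        ⟨x, by simp⟩ (fun y => (y : ℕ))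
      obtain ⟨u, hu, hu'⟩ := Finset.exists_mem_eq_inf' (s := Finset.univ.filter fun z => c z = c y)
        ⟨y, by simp⟩ (fun y => (y : ℕ))
      simp only [Finset.mem_filter, Finset.mem_univ, true_and] at hz hu
      have : (z : ℕ) = u := by rw [← hz', ← hu']; exact h
      rw [← hz, ← hu, Fin.ext this]
  refine ⟨_, (isRefill_congr hc').mpr (isRefill_iff.mpr rfl), fun w hw => ?_⟩
  exact isRefill_iff.mp ((isRefill_congr hc').mp hw)

/-- The permutation `f_β(π)`: for each block `B` of `β` the positions occupied by the elements of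
`B` are refilled with the elements of `B` in increasing order. The blocks are given as the fibres
of `c`. -/
noncomputable def refill {T : Type*} (c : Fin n → T) (π : Perm (Fin n)) : Perm (Fin n) :=
  (existsUnique_refill c π).choose

theorem refill_spec {T : Type*} (c : Fin n → T) (π : Perm (Fin n)) :
    IsRefill c π (refill c π) := (existsUnique_refill c π).choose_spec.1

theorem refill_eq {T : Type*} {c : Fin n → T} {π w : Perm (Fin n)} (h : IsRefill c π w) :
    refill c π = w := ((existsUnique_refill c π).choose_spec.2 w h).symm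

theorem refill_congr {T T' : Type*} {c : Fin n → T} {c' : Fin n → T'}
    (h : ∀ x y, c x = c y ↔ c' x = c' y) (π : Perm (Fin n)) : refill c π = refill c' π :=
  refill_eq ((isRefill_congr h).mpr (refill_spec c' π))

/-! ### The count -/

open Classical in
/-- The number of `p` that are increasing on the fibres of `f` and whose inverses are increasing on
the fibres of `h`. -/
noncomputable def NN (f h : Fin n → ℕ) : ℕ :=
  (Finset.univ.filter fun p : Perm (Fin n) => Resp f p ∧ Resp h p⁻¹).card

open Classical in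
theorem NN_eq {f : Fin n → ℕ} (hf : Monotone f) (h : Fin n → ℕ) :
    NN f h = ((Finset.univ.image fun ρ : Perm (Fin n) => f ∘ ⇑ρ).filter fun b =>
      ∀ s t, s < t → h s = h t → b s ≤ b t).card := by
  apply Finset.card_bij (fun (p : Perm (Fin n)) _ => f ∘ ⇑(p⁻¹))
  · intro p hp
    simp only [Finset.mem_filter, Finset.mem_univ, true_and, Finset.mem_image] at hp ⊢
    exact ⟨⟨p⁻¹, rfl⟩, fun s t hst hh => hf (hp.2 s t hst hh).le⟩
  · intro p hp q hq hpq
    simp only [Finset.mem_filter, Finset.mem_univ, true_and] at hp hq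
    exact first_inj hf (b := 1) (by simpa using hp.1) (by simpa using hq.1) hpq
  · intro b hb
    simp only [Finset.mem_filter, Finset.mem_univ, true_and, Finset.mem_image] at hb
    obtain ⟨⟨ρ, hρ⟩, hb⟩ := hb
    let π : Perm (Fin n) := Tuple.sort b
    obtain ⟨hs1, hs2⟩ := Tuple.eq_sort_iff.mp (show π = Tuple.sort b from rfl)
    have hu : b ∘ π = f := by
      have e : b ∘ π = f ∘ ⇑(ρ * π) := by rw [Perm.coe_mul, ← Function.comp_assoc, hρ]
      rw [e]
      rw [e] at hs1
      exact Tuple.unique_monotone (σ := ρ * π) (τ := 1) hs1 hf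
    have hπ : ∀ i, b i = f (π⁻¹ i) := fun i => by
      rw [← hu]
      simp
    refine ⟨π, ?_, ?_⟩
    · simp only [Finset.mem_filter, Finset.mem_univ, true_and]
      constructor
      · intro j k hjk h1
        apply hs2 j k hjk
        rw [hπ, hπ]
        simpa using h1
      · intro s t hst hh
        have h2 := hb s t hst hh
        rcases h2.lt_or_eq with h3 | h3
        · rw [hπ, hπ] at h3
          by_contra hcon
          exact absurd (hf (not_lt.mp hcon)) (not_le.mpr h3)
        · by_contra hcon
          rcases (not_lt.mp hcon).lt_or_eq with h5 | h5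
          · have h6 := hs2 _ _ h5 (by simpa using h3.symm)
            simp at h6
            exact absurd hst (not_lt.mpr h6.le)
          · have := π⁻¹.injective h5
            rw [this] at hst
            exact lt_irrefl _ hst
    · funext i
      exact (hπ i).symm

open Classical in
theorem NN_sort {f : Fin n → ℕ} (hf : Monotone f) (h : Fin n → ℕ) {α : Perm (Fin n)}
    (hα : Monotone (h ∘ α)) : NN f (h ∘ α) = NN f h := by
  have e1 : h ∘ α = h ∘ Tuple.sort h := Tuple.unique_monotone hα (Tuple.monotone_sort h)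
  rw [e1, NN_eq hf, NN_eq hf]
  obtain ⟨hs1, hs2⟩ := Tuple.eq_sort_iff.mp (show Tuple.sort h = Tuple.sort h from rfl)
  symm
  apply Finset.card_bij (fun (b : Fin n → ℕ) _ => b ∘ ⇑(Tuple.sort h))
  · intro b hb
    simp only [Finset.mem_filter, Finset.mem_univ, true_and, Finset.mem_image] at hb ⊢
    obtain ⟨⟨ρ, hρ⟩, hb⟩ := hb
    refine ⟨⟨ρ * Tuple.sort h, by rw [Perm.coe_mul, ← Function.comp_assoc, hρ]⟩, ?_⟩
    intro s t hst hh
    exact hb _ _ (hs2 s t hst hh) hh
  · intro b _ b' _ hbb
    funext i
    have := congrFun hbb ((Tuple.sort h)⁻¹ i)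
    simpa using this
  · intro b' hb'
    simp only [Finset.mem_filter, Finset.mem_univ, true_and, Finset.mem_image] at hb'
    obtain ⟨⟨ρ, hρ⟩, hb'⟩ := hb'
    refine ⟨b' ∘ ⇑((Tuple.sort h)⁻¹), ?_, ?_⟩
    · simp only [Finset.mem_filter, Finset.mem_univ, true_and, Finset.mem_image]
      refine ⟨⟨ρ * (Tuple.sort h)⁻¹, by rw [Perm.coe_mul, ← Function.comp_assoc, hρ]⟩, ?_⟩
      intro s t hst hh
      apply hb'
      · by_contra hcon
        rcases (not_lt.mp hcon).lt_or_eq with h5 | h5
        · have h6 := hs2 _ _ h5 (by simpa using hh.symm)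
          simp at h6
          exact absurd hst (not_lt.mpr h6.le)
        · have := (Tuple.sort h)⁻¹.injective h5
          rw [this] at hst
          exact lt_irrefl _ hst
      · simpa using hh
    · funext i
      simp

open Classical in
theorem NN_mono {f g : Fin n → ℕ} (hf : Monotone f) (hg : Monotone g) :
    NN f g = (W g f).card := by
  have h1 : NN f g = cnt 1 f g := by
    rw [NN, cnt]
    simp
  rw [h1, cnt_eq hf hg]
  have h2 : (W f g).filter (fun v => Resp (kap g v) (1 : Perm (Fin n))) = W f g :=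
    Finset.filter_true_of_mem fun v _ j k hjk _ => hjk
  rw [h2]
  apply Finset.card_bij' (fun v _ => tr g v) (fun v _ => tr f v)
  · intro v hv
    exact tr_mem hf hv
  · intro v hv
    exact tr_mem hg hv
  · intro v hv
    exact tr_tr hf hv
  · intro v hv
    exact tr_tr hg hv

end Pool.Agent.X117.RSK
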