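import Pool.Agent.X117.Sup2
import Pool.Agent.X117.Arc1

/-!
# A Remez type inequality on the critical line
-/

namespace Pool.Agent.X117.RM

open Filter Topology MeasureTheory Complex Set Metric
open Pool.Agent.X117.DZ Pool.Agent.X117.SZ

/-- Lagrange interpolation -/
noncomputable def lag (f : ℂ → ℂ) (Q : Finset ℂ) (u : ℂ) : ℂ :=
  ∑ z ∈ Q, f z * ∏ w ∈ Q.erase z, ((u - w) / (z - w))

lemma lag_diff (f : ℂ → ℂ) (Q : Finset ℂ) : Differentiable ℂ (lag f Q) := by
  unfold lag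
  fun_prop

lemma lag_eq {f : ℂ → ℂ} {Q : Finset ℂ} {z : ℂ} (hz : z ∈ Q) : lag f Q z = f z := by
  unfold lag
  rw [Finset.sum_eq_single z]
  · have h1 : ∏ w ∈ Q.erase z, ((z - w) / (z - w)) = 1 := Finset.prod_eq_one fun w hw =>
      div_self (sub_ne_zero.2 (Finset.ne_of_mem_erase hw).symm)
    rw [h1, mul_one]
  · intro y hy hyz
    have h1 : ∏ w ∈ Q.erase y, ((z - w) / (y - w)) = 0 :=
      Finset.prod_eq_zero (Finset.mem_erase.2 ⟨hyz.symm, hz⟩) (by simp)
    rw [h1, mul_zero]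
  · intro h
    exact absurd hz h

lemma lag_bound {f : ℂ → ℂ} {Q : Finset ℂ} {u : ℂ} {B d A : ℝ} (hd : 0 < d) (hA : 0 ≤ A)
    (hQ : ∀ z ∈ Q, ∀ w ∈ Q, z ≠ w → d ≤ ‖z - w‖) (hf : ∀ z ∈ Q, ‖f z‖ ≤ A) (hB : ∀ w ∈ Q, ‖u - w‖ ≤ B) :
    ‖lag f Q u‖ ≤ Q.card * (A * (B / d) ^ (Q.card - 1)) := by
  unfold lag
  refine (norm_sum_le _ _).trans ?_
  rw [← nsmul_eq_mul]
  refine Finset.sum_le_card_nsmul _ _ _ fun z hz => ?_
  rw [norm_mul, norm_prod]
  refine mul_le_mul (hf z hz) ?_ (Finset.prod_nonneg fun _ _ => norm_nonneg _) hA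
  rw [← Finset.card_erase_of_mem hz, ← Finset.prod_const]
  refine Finset.prod_le_prod (fun _ _ => norm_nonneg _) fun w hw => ?_
  rw [norm_div]
  have h1 := hQ z hz w (Finset.mem_of_mem_erase hw) (Finset.ne_of_mem_erase hw).symm
  have h2 := hB w (Finset.mem_of_mem_erase hw)
  exact div_le_div₀ ((norm_nonneg _).trans h2) h2 hd h1

/-- a function that is small on a part of positive proportion of a segment is small on the segment -/
theorem remez {θ τ : ℝ} (hθ : 0 < θ) (hτ : 0 < τ) : ∃ ε : ℝ, 0 < ε ∧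
    ∀ (f : ℂ → ℂ) (U : Set ℂ) (x h M : ℝ), IsOpen U → DifferentiableOn ℂ f U → 0 < h →
      closedBall (1 / 2 + I * ((x + h / 2 : ℝ) : ℂ)) (3 * h) ⊆ U →
      (∀ u, ‖u - (1 / 2 + I * ((x + h / 2 : ℝ) : ℂ))‖ ≤ 3 * h → ‖f u‖ ≤ M) →
      ∀ E : Set ℝ, E ⊆ Icc x (x + h) → θ * h ≤ volume.real E → (∀ t ∈ E, ‖f (1 / 2 + I * (t : ℂ))‖ ≤ ε * M) →
      ∀ t ∈ Icc x (x + h), ‖f (1 / 2 + I * (t : ℂ))‖ ≤ τ * M := by
  obtain ⟨N, hN⟩ := exists_pow_lt_of_lt_one (show (0 : ℝ) < τ / 4 by positivity) (show (1 / 2 : ℝ) < 1 by norm_num)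
  set C : ℝ := (N + 1) * (8 * (N + 1) / θ) ^ N with hC
  have hC0 : 0 < C := by positivity
  refine ⟨min 1 (τ / 4) / C, by positivity, ?_⟩
  intro f U x h M hU hf hh hsub hM E hE hEv hfE t ht
  set ε : ℝ := min 1 (τ / 4) / C with hε
  have hεC : ε * C = min 1 (τ / 4) := by rw [hε]; field_simp
  have hε0 : 0 < ε := by positivity
  set c : ℂ := 1 / 2 + I * ((x + h / 2 : ℝ) : ℂ) with hc
  have hM0 : 0 ≤ M := (norm_nonneg _).trans (hM c (by rw [sub_self, norm_zero]; positivity))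
  set r : ℝ := θ * h / (4 * (N + 1)) with hr
  have hr0 : 0 < r := by positivity
  obtain ⟨Q₀, hQ1, hQ2, hQ3⟩ := Pool.Agent.X117.AR.exists_sep hr0 hE
  have hcard : N + 1 ≤ Q₀.card := by
    have h1 : θ * h ≤ (Q₀.card : ℝ) * (4 * r) := hEv.trans hQ3
    have h2 : θ * h = ((N + 1 : ℕ) : ℝ) * (4 * r) := by
      rw [hr]
      push_cast
      field_simp
    rw [h2] at h1
    exact_mod_cast le_of_mul_le_mul_right h1 (by positivity)
  obtain ⟨Q₁, hQ₁, hQ₁c⟩ := Finset.exists_subset_card_eq hcard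
  set e : ℝ ↪ ℂ := ⟨fun t : ℝ => 1 / 2 + I * (t : ℂ), by
    intro a b hab
    have := congrArg Complex.im hab
    simpa using this⟩ with he
  have hedist : ∀ a b : ℝ, ‖e a - e b‖ = |a - b| := by
    intro a b
    have : e a - e b = I * ((a - b : ℝ) : ℂ) := by
      rw [he]
      simp only [Function.Embedding.coeFn_mk]
      push_cast
      ring
    rw [this, norm_mul, Complex.norm_I, one_mul, Complex.norm_real, Real.norm_eq_abs]
  set Q : Finset ℂ := Q₁.map e with hQ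
  have hQcard : Q.card = N + 1 := by rw [hQ, Finset.card_map, hQ₁c]
  have hmem : ∀ z ∈ Q, ∃ s ∈ E, s ∈ Icc x (x + h) ∧ z = e s ∧ s ∈ Q₁ := by
    intro z hz
    obtain ⟨s, hs, rfl⟩ := Finset.mem_map.1 hz
    exact ⟨s, hQ1 s (hQ₁ hs), hE (hQ1 s (hQ₁ hs)), rfl, hs⟩
  have hcen : ∀ s ∈ Icc x (x + h), ‖e s - c‖ ≤ h / 2 := by
    intro s hs
    have : c = e (x + h / 2) := by rw [hc, he]; rfl
    rw [this, hedist, abs_le]
    constructor <;> linarith [hs.1, hs.2]
  -- the interpolating function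
  set d : ℝ := 2 * r with hd
  have hP : ∀ u, ‖u - c‖ ≤ 3 * h → ‖lag f Q u‖ ≤ min 1 (τ / 4) * M := by
    intro u hu
    have h1 := lag_bound (f := f) (Q := Q) (u := u) (B := 4 * h) (d := d) (A := ε * M) (by positivity)
      (by positivity) (by
        intro z hz w hw hzw
        obtain ⟨s, -, -, rfl, hs⟩ := hmem z hz
        obtain ⟨s', -, -, rfl, hs'⟩ := hmem w hw
        rw [hedist]
        have hne : s ≠ s' := fun h0 => hzw (by rw [h0])
        exact (hQ2 s (hQ₁ hs) s' (hQ₁ hs') hne).le) (by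
        intro z hz
        obtain ⟨s, hs, -, rfl, -⟩ := hmem z hz
        exact hfE s hs) (by
        intro w hw
        obtain ⟨s, -, hs, rfl, -⟩ := hmem w hw
        have e1 : u - e s = (u - c) - (e s - c) := by ring
        rw [e1]
        have := norm_sub_le (u - c) (e s - c)
        linarith [hcen s hs])
    refine h1.trans (le_of_eq ?_)
    rw [hQcard, Nat.add_sub_cancel, ← hεC, hC, hd, hr]
    have e2 : 4 * h / (2 * (θ * h / (4 * (N + 1)))) = 8 * (N + 1) / θ := by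
      field_simp
      norm_num
    rw [e2]
    push_cast
    ring
  set m : ℝ := min 1 (τ / 4) with hm
  have hm1 : m ≤ 1 := min_le_left _ _
  have hmτ : m ≤ τ / 4 := min_le_right _ _
  have hm0 : 0 < m := by positivity
  set g : ℂ → ℂ := fun u => f u - lag f Q u with hg
  have hgd : DifferentiableOn ℂ g U := hf.sub (lag_diff f Q).differentiableOn
  have hgM : ∀ u, ‖u - c‖ ≤ 3 * h → ‖g u‖ ≤ 2 * M := by
    intro u hu
    have h1 := norm_sub_le (f u) (lag f Q u)
    have h2 := hM u hu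
    have h3 := hP u hu
    have h4 : m * M ≤ M := by nlinarith
    rw [hg]
    simp only
    linarith
  have hzero : ∀ z ∈ Q, (1 : ℕ∞) ≤ analyticOrderAt g z := by
    intro z hz
    obtain ⟨s, -, hs, rfl, -⟩ := hmem z hz
    have hzU : e s ∈ U := hsub (by
      rw [mem_closedBall, dist_eq_norm]
      linarith [hcen s hs])
    have han : AnalyticAt ℂ g (e s) := hgd.analyticAt (hU.mem_nhds hzU)
    have h0 : g (e s) = 0 := by
      rw [hg]
      simp only
      rw [lag_eq hz, sub_self]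
    rw [ENat.one_le_iff_ne_zero]
    intro hcon
    exact (han.analyticOrderAt_eq_zero.1 hcon) h0
  have htc := hcen t ht
  have h5 := schwarz (c := c) (r := h / 2) (R := 3 * h) (M := 2 * M) hU hgd (by positivity) (by linarith) hsub Q
    (fun _ => 1) (fun z hz => by
      obtain ⟨s, -, hs, rfl, -⟩ := hmem z hz
      exact hcen s hs) (fun z hz => by exact_mod_cast hzero z hz) hgM (e t) (by linarith)
  have h6 : ∏ z ∈ Q, (‖e t - z‖ / (3 * h - h / 2)) ^ 1 ≤ (1 / 2 : ℝ) ^ N := by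
    calc ∏ z ∈ Q, (‖e t - z‖ / (3 * h - h / 2)) ^ 1 ≤ ∏ _z ∈ Q, (1 / 2 : ℝ) := by
          refine Finset.prod_le_prod (fun z _ => by
            rw [pow_one]
            exact div_nonneg (norm_nonneg _) (by linarith)) fun z hz => ?_
          obtain ⟨s, -, hs, rfl, -⟩ := hmem z hz
          rw [pow_one, hedist, div_le_div_iff₀ (by linarith) (by norm_num)]
          have : |t - s| ≤ h := by
            rw [abs_le]
            constructor <;> linarith [hs.1, hs.2, ht.1, ht.2]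
          linarith
      _ = (1 / 2 : ℝ) ^ (N + 1) := by rw [Finset.prod_const, hQcard]
      _ ≤ (1 / 2 : ℝ) ^ N := pow_le_pow_of_le_one (by norm_num) (by norm_num) (Nat.le_succ N)
  have h7 : ‖g (e t)‖ ≤ 2 * M * (τ / 4) :=
    h5.trans (mul_le_mul_of_nonneg_left (h6.trans hN.le) (by positivity))
  have h8 := hP (e t) (by linarith)
  have h9 : f (e t) = g (e t) + lag f Q (e t) := by rw [hg]; simp
  have h10 : (1 / 2 + I * (t : ℂ)) = e t := rfl
  rw [h10, h9]
  refine (norm_add_le _ _).trans ?_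
  have h11 : m * M ≤ τ / 4 * M := mul_le_mul_of_nonneg_right hmτ hM0
  nlinarith

end Pool.Agent.X117.RM
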