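import Pool.Agent.X117.Rem2

/-!
# Double sectors fill a part of positive proportion of every interval of length `8π / log T`
-/

namespace Pool.Agent.X117.DS

open Filter Topology MeasureTheory Complex
open Pool.Agent.Y745.LD Pool.Agent.X117.HZ

/-- the double sectors are relatively dense -/
theorem sector_dense2 {δ : ℝ} (hδ : 0 < δ) (hδ1 : δ ≤ 1) :
    ∀ᶠ T : ℝ in atTop, ∀ φ h : ℝ, 8 * Real.pi / Real.log T ≤ h → RelDense (δ / 64) h T (sector φ δ) := by
  have hp := Real.pi_pos
  have hp4 := Real.pi_lt_four
  have hLT := Real.tendsto_log_atTop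
  filter_upwards [hLT.eventually_ge_atTop (2 * Real.log (2 * Real.pi)), hLT.eventually_ge_atTop 1,
    eventually_ge_atTop 100, eventually_ge_atTop (18 / δ)] with T h1 hL hT h3 φ hs hh
  set L := Real.log T with hLd
  have hL0 : 0 < L := by linarith
  have hT0 : 0 < T := by linarith
  have hℓ : 0 < 8 * Real.pi / L := by positivity
  have hcell : ∀ x, T ≤ x → x + 8 * Real.pi / L ≤ 2 * T →
      δ / L ≤ volume.real (sector φ δ ∩ Set.Icc x (x + 8 * Real.pi / L)) := by
    intro x hx1 hx2
    have hx0 : 0 < x := by linarith
    have hlow : L / 4 ≤ Real.log (x / (2 * Real.pi)) / 2 := by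
      rw [Real.log_div hx0.ne' (by positivity)]
      have : L ≤ Real.log x := Real.log_le_log hT0 hx1
      linarith
    have hup : ∀ y, 0 < y → y ≤ 2 * T → Real.log (y / (2 * Real.pi)) / 2 ≤ L / 2 := by
      intro y hy0 hy
      have : Real.log (y / (2 * Real.pi)) ≤ L := by
        refine Real.log_le_log (by positivity) ?_
        rw [div_le_iff₀ (by positivity)]
        nlinarith [Real.pi_gt_three]
      linarith
    set z : ℝ := x + 4 * Real.pi / L with hz
    have hzx : x ≤ z := by
      have : 0 < 4 * Real.pi / L := by positivity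
      linarith
    have h8 : 8 * Real.pi / L = 4 * Real.pi / L + 4 * Real.pi / L := by ring
    have hs1 := (th_slope hx0 hzx).1
    have hs2 : Real.pi ≤ th z - th x := by
      have e1 : z - x = 4 * Real.pi / L := by rw [hz]; ring
      have e2 : L / 4 * (z - x) = Real.pi := by
        rw [e1]
        field_simp
      have e3 : L / 4 * (z - x) ≤ Real.log (x / (2 * Real.pi)) / 2 * (z - x) :=
        mul_le_mul_of_nonneg_right hlow (by linarith)
      linarith
    set n : ℤ := ⌈(th x + φ) / Real.pi⌉ with hn
    have hn1 : th x + φ ≤ n * Real.pi := by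
      have := Int.le_ceil ((th x + φ) / Real.pi)
      rwa [div_le_iff₀ hp] at this
    have hn2 : n * Real.pi ≤ th z + φ := by
      have h4 := Int.ceil_lt_add_one ((th x + φ) / Real.pi)
      rw [← hn] at h4
      have h5 : (n : ℝ) * Real.pi < ((th x + φ) / Real.pi + 1) * Real.pi := mul_lt_mul_of_pos_right h4 hp
      rw [add_mul, div_mul_cancel₀ _ hp.ne'] at h5
      linarith
    have hc : ContinuousOn (fun t => th t + φ) (Set.Icc x z) := fun t ht =>
      ((th_deriv (hx0.trans_le ht.1)).continuousAt.add continuousAt_const).continuousWithinAt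
    obtain ⟨y, hy, hy2⟩ := intermediate_value_Icc hzx hc (show (n : ℝ) * Real.pi ∈ Set.Icc _ _ from ⟨hn1, hn2⟩)
    have hy2 : th y + φ = n * Real.pi := hy2
    have hdL : δ / L ≤ 4 * Real.pi / L := by
      gcongr
      nlinarith [Real.pi_gt_three]
    have hsub : Set.Icc y (y + δ / L) ⊆ sector φ δ ∩ Set.Icc x (x + 8 * Real.pi / L) := by
      rintro t ⟨ht1, ht2⟩
      have hy0 : 0 < y := lt_of_lt_of_le hx0 hy.1
      have ht0 : 0 < t := by linarith
      have htx : x ≤ t := hy.1.trans ht1
      have htz : t ≤ x + 8 * Real.pi / L := by linarith [hy.2]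
      refine ⟨?_, htx, htz⟩
      have ht100 : 100 ≤ t := by linarith
      refine sector_of ht100 ?_ ?_
      · rw [div_le_iff₀ ht0]
        rw [div_le_iff₀ hδ] at h3
        nlinarith
      · have hsl := th_slope hy0 ht1
        have hl0 : 0 ≤ Real.log (y / (2 * Real.pi)) / 2 * (t - y) := by
          refine mul_nonneg ?_ (by linarith)
          have h9 : Real.log (x / (2 * Real.pi)) ≤ Real.log (y / (2 * Real.pi)) :=
            Real.log_le_log (by positivity) (by gcongr; exact hy.1)
          linarith
        have hu := hup t ht0 (by linarith)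
        have hdiff : th t - th y ≤ δ / 2 := by
          calc th t - th y ≤ Real.log (t / (2 * Real.pi)) / 2 * (t - y) := hsl.2
            _ ≤ L / 2 * (δ / L) := by
              refine mul_le_mul hu (by linarith) (by linarith) (by linarith)
            _ = δ / 2 := by field_simp
        have hsin : Real.sin (th t + φ) = (-1) ^ n * Real.sin (th t - th y) := by
          have e1 : th t + φ = (th t - th y) + n * Real.pi := by linarith
          rw [e1, Real.sin_add_int_mul_pi]
        have hpow : |((-1 : ℝ)) ^ n| = 1 := by
          rw [abs_zpow, abs_neg, abs_one, one_zpow]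
        rw [hsin, abs_mul, hpow, one_mul]
        refine (Real.abs_sin_le_abs (x := th t - th y)).trans ?_
        rw [abs_of_nonneg (by linarith [hsl.1])]
        exact hdiff
    calc δ / L = volume.real (Set.Icc y (y + δ / L)) := by
          rw [Real.volume_real_Icc]
          have : 0 < δ / L := by positivity
          rw [max_eq_left (by linarith)]
          ring
      _ ≤ _ := measureReal_mono hsub (measure_lt_top_of_subset Set.inter_subset_right
            (by rw [Real.volume_Icc]; exact ENNReal.ofReal_ne_top)).ne
  have hd := dense_of_cells (sector_meas φ δ) hℓ (show 0 ≤ δ / L by positivity) hh hcell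
  intro a ha1 ha2
  refine le_trans ?_ (hd a ha1 ha2)
  have hpos : 0 ≤ hs := hℓ.le.trans hh
  refine mul_le_mul_of_nonneg_right ?_ hpos
  have e1 : δ / L / (2 * (8 * Real.pi / L)) = δ / (16 * Real.pi) := by
    field_simp
    ring
  rw [e1]
  gcongr
  linarith

end Pool.Agent.X117.DS
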