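import Pool.Agent.X117.Dens1

/-!
# Products of two shifted values of Hardy's function: the mass of each sign
-/

namespace Pool.Agent.X117.SHF

open Filter Topology MeasureTheory Complex H370
open Pool.Agent.Y745.SW Pool.Agent.Y745.LD Pool.Agent.Y745.EW Pool.Agent.X117.HZ

/-- the product of two shifted values next to an isolated simple zero -/
lemma prod_sign {d g a : ℝ} (h0 : Z g = 0) (h1 : deriv Z g ≠ 0) (hno : ∀ t, |t - g| < d → Z t = 0 → t = g)
    (ha : 0 < a) (had : 4 * a ≤ d) :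
    (∀ t ∈ Set.Ioo g (g + a), 0 < (-1) * (Z (t - a) * Z (t + a))) ∧
      ∀ t ∈ Set.Ioo (g + a) (g + 2 * a), 0 < 1 * (Z (t - a) * Z (t + a)) := by
  have hp := side_sign (σ := 1) (Or.inl rfl) h0 h1 hno
  have hm := side_sign (σ := -1) (Or.inr rfl) h0 h1 hno
  have hd : 0 < d := by linarith
  -- the signs on both sides
  have key : (∀ x ∈ Set.Ioo g (g + d), ∀ y ∈ Set.Ioo g (g + d), 0 < Z x * Z y) ∧
      ∀ x ∈ Set.Ioo (g - d) g, ∀ y ∈ Set.Ioo g (g + d), Z x * Z y < 0 := by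
    rcases lt_or_gt_of_ne h1 with h | h
    · -- negative derivative
      have e1 : ∀ x ∈ Set.Ioo (g - d) g, 0 < Z x := by
        intro x hx
        have := hp x (Or.inr ⟨by linarith, hx⟩)
        linarith
      have e2 : ∀ x ∈ Set.Ioo g (g + d), Z x < 0 := by
        intro x hx
        have := hm x (Or.inl ⟨by linarith, hx⟩)
        linarith
      exact ⟨fun x hx y hy => mul_pos_of_neg_of_neg (e2 x hx) (e2 y hy),
        fun x hx y hy => mul_neg_of_pos_of_neg (e1 x hx) (e2 y hy)⟩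
    · have e1 : ∀ x ∈ Set.Ioo (g - d) g, Z x < 0 := by
        intro x hx
        have := hm x (Or.inr ⟨by linarith, hx⟩)
        linarith
      have e2 : ∀ x ∈ Set.Ioo g (g + d), 0 < Z x := by
        intro x hx
        have := hp x (Or.inl ⟨by linarith, hx⟩)
        linarith
      exact ⟨fun x hx y hy => mul_pos (e2 x hx) (e2 y hy),
        fun x hx y hy => mul_neg_of_neg_of_pos (e1 x hx) (e2 y hy)⟩
  constructor
  · rintro t ⟨ht1, ht2⟩
    have := key.2 (t - a) ⟨by linarith, by linarith⟩ (t + a) ⟨by linarith, by linarith⟩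
    linarith
  · rintro t ⟨ht1, ht2⟩
    have := key.1 (t - a) ⟨by linarith, by linarith⟩ (t + a) ⟨by linarith, by linarith⟩
    linarith

/-- the set with a given sign of the product -/
def PS (σ a : ℝ) : Set ℝ := {t : ℝ | 0 < σ * (Z (t - a) * Z (t + a))}

lemma PS_meas (σ a : ℝ) : MeasurableSet (PS σ a) := by
  have h1 : Continuous fun t => Z (t - a) := Z_cont.comp (continuous_id.sub continuous_const)
  have h2 : Continuous fun t => Z (t + a) := Z_cont.comp (continuous_id.add continuous_const)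
  exact (isOpen_lt continuous_const (continuous_const.mul (h1.mul h2))).measurableSet

open Classical in
/-- the mass of the points with a given sign of the product -/
lemma pair_mass {κ c A T A2 e2 δ r U1 U2 σ θ a : ℝ} {G : Set ℝ} (hσ : σ = 1 ∨ σ = -1)
    (hPW : ∀ z : ℂ, ‖z‖ ≤ A2 * LL T →
      ‖tex (KA A T) ((κ : ℂ) * z) - cexp ((κ : ℂ) * z)‖ ≤ 1 / 2 * Real.exp (κ * z.re))
    (hL : 1 ≤ Real.log T) (hT : 10 ≤ T) (hG : MeasurableSet G) (hG2 : G ⊆ G2 A2 c e2 T)
    (hGI : G ⊆ Set.Icc (T + 6 * Real.log T) (2 * T - 6 * Real.log T))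
    (hδ : 0 < δ) (hδ1 : δ ≤ 1 / 10) (ha : 0 < a) (ha1 : 4 * a ≤ δ / Real.log T)
    (hr1 : 1 / Real.log T ≤ r) (hr2 : r ≤ 1 / 2 * Real.log T ^ (e2 - 1))
    (hr4 : r ≤ 1)
    (hU1 : T ≤ U1) (hU1' : U1 ≤ T + 1) (hU2 : 2 * T - 1 ≤ U2) (hU2' : U2 ≤ 2 * T)
    (hblk : θ ≤ ∑ s ∈ isoS U1 U2 (δ / Real.log T),
      ∫ t in G ∩ Set.Icc (s.im - r) (s.im + r), V κ c A T t) :
    a * θ ≤ 2 * r * (9 * Real.exp (2 * |κ|)) *
      ∫ t in Set.Icc T (2 * T) ∩ PS σ a, V κ c A T t := by
  set L := Real.log T with hLd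
  have hL0 : 0 < L := by linarith
  have hr0 : 0 < r := lt_of_lt_of_le (by positivity) hr1
  have hV := V_cont κ c A T
  have hV0 := V_nonneg κ c A T
  have hdL : δ / L ≤ 1 := by rw [div_le_one hL0]; linarith
  have har : 2 * a ≤ r := by
    refine le_trans ?_ hr1
    have h1 : δ / L ≤ 1 / L := by gcongr; linarith
    linarith
  set K : ℝ := 9 * Real.exp (2 * |κ|) with hK
  have hK0 : 0 ≤ K := by positivity
  set iso := isoS U1 U2 (δ / L) with hiso
  set S := iso.filter (fun s => (G ∩ Set.Icc (s.im - r) (s.im + r)).Nonempty) with hS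
  set A' : Set ℝ := Set.Icc T (2 * T) ∩ PS σ a with hA'
  have hsum : ∑ s ∈ iso, ∫ t in G ∩ Set.Icc (s.im - r) (s.im + r), V κ c A T t =
      ∑ s ∈ S, ∫ t in G ∩ Set.Icc (s.im - r) (s.im + r), V κ c A T t := by
    rw [hS, Finset.sum_filter]
    refine Finset.sum_congr rfl fun s _ => ?_
    by_cases h : (G ∩ Set.Icc (s.im - r) (s.im + r)).Nonempty
    · rw [if_pos h]
    · rw [if_neg h]
      rw [Set.not_nonempty_iff_eq_empty] at h
      rw [h, setIntegral_empty]
  -- facts about the zeros in `S`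
  have hfac : ∀ s ∈ S, s.re = 1 / 2 ∧ T + 5 * L ≤ s.im ∧ s.im ≤ 2 * T - 5 * L ∧ Z s.im = 0 ∧
      deriv Z s.im ≠ 0 ∧ (∀ s' : ℂ, riemannZeta s' = 0 → 0 < s'.re → s'.re < 1 → |s'.im - s.im| ≤ 1 →
        s' ≠ s → δ / L ≤ ‖s - s'‖) := by
    intro s hs
    rw [hS, Finset.mem_filter] at hs
    obtain ⟨hs1, t0, ht0, ht1⟩ := hs
    have ht2 := hGI ht0
    have hb1 : T + 5 * L ≤ s.im := by linarith [ht2.1, ht1.2]
    have hb2 : s.im ≤ 2 * T - 5 * L := by linarith [ht2.2, ht1.1]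
    rw [hiso] at hs1
    unfold isoS at hs1
    rw [Finset.mem_filter] at hs1
    obtain ⟨hsZ, hre, hmul, hi⟩ := hs1
    have hsz := (mem_Zf good_zeta (by linarith : 1 ≤ U1)).mp hsZ
    have hs0 : (1 / 2 + I * s.im : ℂ) = s := by
      apply Complex.ext
      · simp [hre]
      · simp
    have hz : riemannZeta (1 / 2 + I * (s.im : ℂ)) = 0 := by rw [hs0]; exact hsz.2.2.2.2
    refine ⟨hre, hb1, hb2, (Z_zero_iff _).mpr hz, ?_, ?_⟩
    · exact deriv_ne_of_mult hz (by rw [hs0]; exact hmul)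
    · intro s' b1 b2 b3 b4 b5
      rw [abs_le] at b4
      refine hi s' ?_ b5
      exact (mem_Zf good_zeta (by linarith : 1 ≤ U1)).mpr
        ⟨b2, b3, by linarith [b4.1], by linarith [b4.2], b1⟩
  -- the intervals
  obtain ⟨p, hp0, hpa, hJsign⟩ : ∃ p : ℝ, 0 ≤ p ∧ p ≤ a ∧ ∀ g : ℝ, Z g = 0 → deriv Z g ≠ 0 →
      (∀ t, |t - g| < δ / L → Z t = 0 → t = g) → ∀ t ∈ Set.Ioo (g + p) (g + p + a), t ∈ PS σ a := by
    rcases hσ with rfl | rfl
    · refine ⟨a, ha.le, le_rfl, fun g h0 h1 h2 t ht => ?_⟩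
      exact (prod_sign h0 h1 h2 ha ha1).2 t ⟨ht.1, by linarith [ht.2]⟩
    · refine ⟨0, le_rfl, ha.le, fun g h0 h1 h2 t ht => ?_⟩
      exact (prod_sign h0 h1 h2 ha ha1).1 t ⟨by linarith [ht.1], by linarith [ht.2]⟩
  have hJs : ∀ g t : ℝ, t ∈ Set.Ioo (g + p) (g + p + a) → g < t ∧ t < g + 2 * a := by
    rintro g t ⟨h1, h2⟩
    constructor <;> linarith
  have hside : ∀ s ∈ S, ∀ t ∈ Set.Ioo (s.im + p) (s.im + p + a), t ∈ PS σ a := by
    intro s hs
    obtain ⟨hre, hb1, hb2, hz, hz', hi⟩ := hfac s hs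
    refine hJsign s.im hz hz' fun t ht ht0 => ?_
    by_contra hne
    have hzt := (Z_zero_iff t).mp ht0
    have h1 := hi (1 / 2 + I * t) hzt (by simp) (by simp; norm_num) (by
      simp
      linarith) (by
      intro h
      apply hne
      rw [← h]; simp)
    have h2 : s - (1 / 2 + I * t) = I * ((s.im - t : ℝ) : ℂ) := by
      apply Complex.ext
      · simp [hre]
      · simp
    rw [h2, norm_mul, Complex.norm_I, one_mul, Complex.norm_real, Real.norm_eq_abs, abs_sub_comm] at h1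
    linarith
  have hA1 : A' ⊆ Set.Icc T (2 * T) := Set.inter_subset_left
  have hJA : ∀ s ∈ S, Set.Ioo (s.im + p) (s.im + p + a) ⊆ A' := by
    intro s hs t ht
    obtain ⟨hre, hb1, hb2, hz, hz', hi⟩ := hfac s hs
    have h1 := hJs s.im t ht
    refine ⟨⟨by linarith [h1.1], by linarith [h1.2]⟩, hside s hs t ht⟩
  have hdis : ∀ s ∈ S, ∀ s' ∈ S, s ≠ s' →
      Disjoint (Set.Ioo (s.im + p) (s.im + p + a)) (Set.Ioo (s'.im + p) (s'.im + p + a)) := by
    intro s hs s' hs' hne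
    rw [Set.disjoint_left]
    intro t ht ht'
    have h3 : |s'.im - s.im| < δ / L := by
      rw [abs_lt]; constructor <;> linarith [ht.1, ht.2, ht'.1, ht'.2]
    obtain ⟨hre, hb1, hb2, hz, hz', hi⟩ := hfac s hs
    obtain ⟨hre', hb1', hb2', hzz, hzz', hi'⟩ := hfac s' hs'
    have hs0 : (1 / 2 + I * s'.im : ℂ) = s' := by
      apply Complex.ext
      · simp [hre']
      · simp
    have h4 := hi s' (by rw [← hs0]; exact (Z_zero_iff _).mp hzz) (by rw [hre']; norm_num)
      (by rw [hre']; norm_num) (by linarith) (Ne.symm hne)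
    have h5 : s - s' = I * ((s.im - s'.im : ℝ) : ℂ) := by
      apply Complex.ext
      · simp [hre, hre']
      · simp
    rw [h5, norm_mul, Complex.norm_I, one_mul, Complex.norm_real, Real.norm_eq_abs, abs_sub_comm] at h4
    linarith
  have hone : ∀ s ∈ S, a * ∫ t in G ∩ Set.Icc (s.im - r) (s.im + r), V κ c A T t ≤
      2 * r * K * ∫ u in Set.Ioo (s.im + p) (s.im + p + a), V κ c A T u := by
    intro s hs
    have h1 := side_mass (V := V κ c A T) (K := K) (r := r) (g := s.im) (G := G)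
      (J := Set.Ioo (s.im + p) (s.im + p + a)) hV hV0 hK0 hr0.le (by
        rintro t ⟨ht1, ht2⟩ u hu
        have h2 := hJs s.im u hu
        refine V_cmp hPW hL0 (hG2 ht1) ?_
        have h3 : |u - t| ≤ 2 * r := by
          rw [abs_le]; constructor <;> linarith [h2.1, h2.2, ht2.1, ht2.2]
        rw [← hLd]
        linarith) hG measurableSet_Ioo (a := T) (b := 2 * T) ((hJA s hs).trans hA1)
    rw [Real.volume_real_Ioo_of_le (by linarith)] at h1
    have e1 : s.im + p + a - (s.im + p) = a := by ring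
    rwa [e1] at h1
  have htot := Finset.sum_le_sum hone
  rw [← Finset.mul_sum, ← Finset.mul_sum, ← hsum] at htot
  have h1 := sum_mass hV hV0 (S := S) (J := fun s => Set.Ioo (s.im + p) (s.im + p + a)) (A := A')
    (fun s _ => measurableSet_Ioo) hJA hA1 hdis
  calc a * θ ≤ a * ∑ s ∈ iso, ∫ t in G ∩ Set.Icc (s.im - r) (s.im + r), V κ c A T t :=
        mul_le_mul_of_nonneg_left hblk ha.le
    _ ≤ 2 * r * K * ∑ s ∈ S, ∫ u in Set.Ioo (s.im + p) (s.im + p + a), V κ c A T u := htot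
    _ ≤ 2 * r * K * ∫ t in A', V κ c A T t := mul_le_mul_of_nonneg_left h1 (by positivity)

/-- the mass of the points of a good set whose translate is not in the set -/
lemma shift_bad {V : ℝ → ℝ} (hV : Continuous V) (hV0 : ∀ t, 0 ≤ V t) {K T x : ℝ} {G : Set ℝ} (hK : 0 ≤ K)
    (hG : MeasurableSet G) (hGI : G ⊆ Set.Icc (T + 1) (2 * T - 1)) (hx : |x| ≤ 1)
    (hcmp : ∀ t ∈ G, V t ≤ K * V (t + x)) :
    ∫ t in G ∩ {t | t + x ∉ G}, V t ≤ K * ∫ u in Set.Icc T (2 * T) \ G, V u := by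
  have hmp := measurePreserving_add_right (volume : Measure ℝ) x
  have hemb : MeasurableEmbedding (fun t : ℝ => t + x) := measurableEmbedding_addRight x
  have h1 := hmp.setIntegral_preimage_emb hemb V (Set.Icc T (2 * T) \ G)
  have hm : MeasurableSet ((fun t : ℝ => t + x) ⁻¹' (Set.Icc T (2 * T) \ G)) :=
    hemb.measurable (measurableSet_Icc.diff hG)
  have hsub : G ∩ {t | t + x ∉ G} ⊆ (fun t : ℝ => t + x) ⁻¹' (Set.Icc T (2 * T) \ G) := by
    rintro t ⟨ht1, ht2⟩
    have h2 := hGI ht1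
    have h3 := abs_le.mp hx
    exact ⟨⟨by linarith [h2.1, h3.1], by linarith [h2.2, h3.2]⟩, ht2⟩
  have hmG : MeasurableSet (G ∩ {t | t + x ∉ G}) := by
    refine hG.inter ?_
    have : {t : ℝ | t + x ∉ G} = (fun t : ℝ => t + x) ⁻¹' Gᶜ := rfl
    rw [this]
    exact hemb.measurable hG.compl
  have hVx : Continuous fun t => V (t + x) := hV.comp (continuous_id.add continuous_const)
  have hb : (fun t : ℝ => t + x) ⁻¹' (Set.Icc T (2 * T) \ G) ⊆ Set.Icc (T - x) (2 * T - x) := by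
    rintro t ⟨ht, -⟩
    exact ⟨by linarith [ht.1], by linarith [ht.2]⟩
  have hint2 : IntegrableOn (fun t => V (t + x)) ((fun t : ℝ => t + x) ⁻¹' (Set.Icc T (2 * T) \ G)) :=
    (hVx.continuousOn.integrableOn_compact isCompact_Icc).mono_set hb
  calc ∫ t in G ∩ {t | t + x ∉ G}, V t ≤ ∫ t in G ∩ {t | t + x ∉ G}, K * V (t + x) := by
        refine setIntegral_mono_on ?_ ?_ hmG fun t ht => hcmp t ht.1
        · exact (hV.continuousOn.integrableOn_compact (isCompact_Icc (a := T + 1) (b := 2 * T - 1))).mono_set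
            (Set.inter_subset_left.trans hGI)
        · exact (hint2.mono_set hsub).const_mul K
    _ = K * ∫ t in G ∩ {t | t + x ∉ G}, V (t + x) := integral_const_mul _ _
    _ ≤ K * ∫ t in (fun t : ℝ => t + x) ⁻¹' (Set.Icc T (2 * T) \ G), V (t + x) := by
        refine mul_le_mul_of_nonneg_left ?_ hK
        exact setIntegral_mono_set hint2 (Filter.Eventually.of_forall fun t => hV0 _)
          (Filter.Eventually.of_forall hsub)
    _ = K * ∫ u in Set.Icc T (2 * T) \ G, V u := by rw [h1]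

/-- subadditivity -/
lemma int_biUnion_le {V : ℝ → ℝ} (hV : Continuous V) (hV0 : ∀ t, 0 ≤ V t) {ι : Type} (s : Finset ι)
    {B : ι → Set ℝ} {a b : ℝ} (hB : ∀ i, MeasurableSet (B i)) (hBI : ∀ i, B i ⊆ Set.Icc a b) :
    ∫ t in ⋃ i ∈ s, B i, V t ≤ ∑ i ∈ s, ∫ t in B i, V t := by
  classical
  induction s using Finset.induction_on with
  | empty => simp
  | insert i s hi ih =>
    rw [Finset.sum_insert hi, Finset.set_biUnion_insert]
    have h1 : (⋃ j ∈ s, B j) ⊆ Set.Icc a b := Set.iUnion₂_subset fun j _ => hBI j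
    have h2 : MeasurableSet (⋃ j ∈ s, B j) := Finset.measurableSet_biUnion s fun j _ => hB j
    have h3 := int_union_le hV hV0 (hB i) h2 (Set.union_subset (hBI i) h1)
    linarith

end Pool.Agent.X117.SHF
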