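import Pool.Agent.X117.Shift1

/-!
# Values of a given size at several points, with the sign of a product of two shifted values
-/

namespace Pool.Agent.X117.SHF

open Filter Topology MeasureTheory Complex H370
open Pool.Agent.Y745.SW Pool.Agent.Y745.LD Pool.Agent.Y745.EW Pool.Agent.X117.HZ

/-- the `t ∈ [T, 2 T]` at all translates of which `|ζ|` has the size `(log T) ^ κ`, with the sign `σ` of the
product of `Z(t - a)` and `Z(t + a)` -/
def many (n : ℕ) (κ ε T : ℝ) (x : Fin n → ℝ) (σ a : ℝ) : Set ℝ :=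
  {t : ℝ | T ≤ t ∧ t ≤ 2 * T ∧
    (∀ j, |Real.log ‖riemannZeta (1 / 2 + ((t + x j : ℝ) : ℂ) * I)‖ - κ * LL T| ≤ ε * LL T) ∧ t ∈ PS σ a}

open Classical in
/-- **values of a given size at several points, with the sign of a product** -/
theorem shifted : ∃ ϑ : ℝ, 0 < ϑ ∧ ϑ ≤ 1 ∧ ∀ κ ε α₀ : ℝ, 0 < ε → 0 < α₀ → ∀ n : ℕ,
    ∃ e : ℝ, 0 < e ∧ e ≤ ε ∧ ∀ᶠ T : ℝ in atTop, ∀ x : Fin n → ℝ, (∀ j, |x j| ≤ Real.log T ^ (e - 1)) →
      ∀ σ a : ℝ, (σ = 1 ∨ σ = -1) → α₀ / Real.log T ≤ a → a ≤ ϑ / Real.log T →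
      T * Real.log T ^ (-κ ^ 2 - ε) ≤ volume.real (many n κ ε T x σ a) := by
  have hpi := Real.pi_pos
  obtain ⟨δ, hδ, hδ1, hVB⟩ := a_VBLK (1 / 8) (by norm_num) (by norm_num)
  refine ⟨δ / 4, by positivity, by linarith, fun κ ε α₀ hε hα₀ n => ?_⟩
  set K : ℝ := 9 * Real.exp (2 * |κ|) with hK
  have hK0 : 0 < K := by positivity
  set c1 : ℝ := α₀ / (8 * Real.pi * K) with hc1d
  have hc10 : 0 < c1 := by positivity
  have hnK : 0 < 1 + n * K := by positivity
  set η : ℝ := min (c1 / (12 * (1 + n * K))) (1 / 384) with hη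
  have hη0 : 0 < η := by positivity
  have hη1 : 6 * η * (1 + n * K) ≤ c1 / 2 := by
    have h1 : η ≤ c1 / (12 * (1 + n * K)) := min_le_left _ _
    rw [le_div_iff₀ (by positivity)] at h1
    linarith
  have hη2 : η ≤ 1 / 384 := min_le_right _ _
  set k1 : ℝ := |κ| + 1 with hk1
  have hk0 : 0 < k1 := by positivity
  set ε' : ℝ := min (ε / 8) (ε / (8 * k1)) with hε'
  have hε'0 : 0 < ε' := by positivity
  have hε'2 : ε' ≤ ε / 8 := min_le_left _ _
  have hε'3 : |κ| * ε' ≤ ε / 8 := by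
    have h1 : ε' ≤ ε / (8 * k1) := min_le_right _ _
    calc |κ| * ε' ≤ k1 * (ε / (8 * k1)) := by
          refine mul_le_mul (by rw [hk1]; linarith) h1 hε'0.le hk0.le
      _ = ε / 8 := by field_simp
  set δL : ℝ := min (ε / 8) η with hδL
  have hδL0 : 0 < δL := by positivity
  obtain ⟨c0', hc0', hc01', hLW⟩ := a_LOW κ δL hδL0
  set m : ℝ := min (1 / 2) (ε / (8 * k1)) with hm
  have hm0 : 0 < m := by positivity
  have hm1 : m ≤ 1 / 2 := min_le_left _ _
  obtain ⟨c, hcc0', hc1, hcpos, hcκ⟩ : ∃ c : ℝ, c0' ≤ c ∧ c < 1 ∧ 0 < c ∧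
      |κ| * (1 - c) ≤ ε / 8 := by
    refine ⟨max c0' (1 - m), le_max_left _ _, max_lt hc01' (by linarith),
      lt_of_lt_of_le hc0' (le_max_left _ _), ?_⟩
    have h1 : 1 - max c0' (1 - m) ≤ m := by
      have := le_max_right c0' (1 - m)
      linarith
    have h2 : m ≤ ε / (8 * k1) := min_le_right _ _
    have h3 : 0 ≤ 1 - max c0' (1 - m) := by
      have := max_lt hc01' (show 1 - m < 1 by linarith)
      linarith
    calc |κ| * (1 - max c0' (1 - m)) ≤ k1 * (ε / (8 * k1)) := by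
          refine mul_le_mul (by rw [hk1]; linarith) (h1.trans h2) h3 hk0.le
      _ = ε / 8 := by field_simp
  set e2 : ℝ := (1 - c) / 2 with he2
  have he20 : 0 < e2 := by rw [he2]; linarith
  have he21 : e2 < 1 - c := by rw [he2]; linarith
  obtain ⟨e, he0, he8, he4, heε⟩ : ∃ e : ℝ, 0 < e ∧ e ≤ 1 / 8 ∧ e ≤ (1 - c) / 4 ∧ e ≤ ε := by
    refine ⟨min (min (1 / 8) ((1 - c) / 4)) ε, ?_, (min_le_left _ _).trans (min_le_left _ _),
      (min_le_left _ _).trans (min_le_right _ _), min_le_right _ _⟩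
    exact lt_min (lt_min (by norm_num) (by linarith)) (by linarith)
  have hec : e < 1 - c := by linarith
  have hee : 0 < e2 - e := by rw [he2]; linarith
  set A' : ℝ := 3 * κ ^ 2 + 1 with hA'
  have hA'0 : 0 < A' := by positivity
  obtain ⟨A2, hA20, hG2⟩ := a_G2M c e2 A' hcpos hc1 he20 he21 hA'0
  have hG2 := hG2 A2 le_rfl
  obtain ⟨D, hD0, hG1⟩ := t_G1M 1 A' one_pos hA'0
  have hG1 := hG1 D le_rfl
  obtain ⟨Al, hLd⟩ := hLW c hcc0' hc1
  obtain ⟨Ap, hAp⟩ := Pool.Agent.Y363.LD.t_PW κ A2 hA20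
  obtain ⟨Ab, hAb⟩ := hVB κ c hcpos hc1
  obtain ⟨Av, hAv⟩ := a_VM1 κ c hcpos hc1
  obtain ⟨At, hAt⟩ := a_VMT κ c hcpos hc1
  obtain ⟨A, h2, h3, h4, h5, h6⟩ : ∃ A : ℝ, Ap ≤ A ∧ Ab ≤ A ∧ Av ≤ A ∧ At ≤ A ∧ Al ≤ A := by
    refine ⟨max (max (max Ap Ab) (max Av At)) Al, ?_, ?_, ?_, ?_, ?_⟩
    · exact ((le_max_left Ap Ab).trans (le_max_left _ _)).trans (le_max_left _ _)
    · exact ((le_max_right Ap Ab).trans (le_max_left _ _)).trans (le_max_left _ _)
    · exact ((le_max_left Av At).trans (le_max_right _ _)).trans (le_max_left _ _)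
    · exact ((le_max_right Av At).trans (le_max_right _ _)).trans (le_max_left _ _)
    · exact le_max_right _ _
  have hLd := hLd A h6
  have hAp := hAp A h2
  obtain ⟨τ, hτ, hτ1, hAb⟩ := hAb A h3 e D he0 he8 hec hD0
  obtain ⟨C1, hC1, hAv⟩ := hAv A h4
  obtain ⟨C2, hC2, hAt⟩ := hAt A h5
  obtain ⟨cc, hcc, C0, T0, hC0, hT0, hef⟩ := explicit_formula good_zeta
  have hAb := hAb cc C0 hcc
  have hC10 : 0 < C1 := by linarith
  have hv : ∀ᶠ T : ℝ in atTop, F1 κ c A C1 T := hAv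
  have hmass := good_massη (η := η) hη0 hc1 hC1 hC2 hε'0 (le_refl A') hv hAt hG1 hG2
  have v1 := ev_pow_ge (4 / τ) (e2 - e) hee
  have v2 := ev_pow_ge (C1 * (9 / 4 * Real.exp (κ ^ 2 * C1)) / (c1 / 2)) (3 / 4 * ε) (by positivity)
  refine ⟨e, he0, heε, ?_⟩
  filter_upwards [hmass, hG1, hG2, hLd, hAp, hAb, hAv, v1, v2,
    LL_tendsto.eventually_ge_atTop (2 * (1 + |κ| * C1) / ε), Real.tendsto_log_atTop.eventually_ge_atTop 1,
    eventually_ge_atTop T0, eventually_ge_atTop 10]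
    with T tm tG1 tG2 tLW tP tB tV w1 w2 w3 tL tT0 tT1
  intro x hx σ a hσ ha1 ha2
  obtain ⟨U1, U2, hU1, hU1', hU2, hU2', heft⟩ := hef T tT0
  obtain ⟨E0, hE0m, hE0s, hE0v, hE0z⟩ := tLW
  have hefd : EFD cc C0 T U1 U2 := ⟨hcc, hU1, hU1', hU2, hU2', heft⟩
  obtain ⟨g1, -⟩ := tG1
  obtain ⟨g2, -⟩ := tG2
  obtain ⟨y1, y2, -, -⟩ := tV
  have hT0' : 0 < T := by linarith
  have hI0 : 0 ≤ IV κ c A T := IV_nonneg κ c A hT0'.le
  have tm := tm E0 hE0m hE0s (hE0v.trans (mul_le_mul_of_nonneg_right (min_le_right _ _) hI0))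
  set L := Real.log T with hL
  have hL0 : 0 < L := by linarith
  have hLL0 : 0 ≤ LL T := le_trans (by positivity) w3
  rw [div_le_iff₀ hε] at w3
  have hV := V_cont κ c A T
  have hV0 := V_nonneg κ c A T
  set r := rad e τ T with hr
  have hLe : 1 ≤ L ^ e := Real.one_le_rpow tL he0.le
  have hLe2 : L ^ (e / 2) ≤ L ^ e := Real.rpow_le_rpow_of_exponent_le tL (by linarith)
  have hLe20 : 0 ≤ L ^ (e / 2) := Real.rpow_nonneg hL0.le _
  have hr1 : 1 / L ≤ r := by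
    rw [hr]; unfold rad
    rw [div_le_div_iff₀ hL0 (by positivity)]
    have h6 : τ * L ≤ 1 * L := mul_le_mul_of_nonneg_right hτ1 hL0.le
    have h7 : 1 * L ≤ (L ^ e + L ^ (e / 2)) * L := mul_le_mul_of_nonneg_right (by linarith) hL0.le
    linarith
  have hr0 : 0 < r := lt_of_lt_of_le (by positivity) hr1
  have hr2 : r ≤ 1 / 2 * L ^ (e2 - 1) := by
    rw [hr]; unfold rad
    rw [Real.rpow_sub hL0, Real.rpow_one]
    have h6 : 4 / τ * L ^ e ≤ L ^ e2 := by
      calc 4 / τ * L ^ e ≤ L ^ (e2 - e) * L ^ e := by gcongr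
        _ = L ^ e2 := by rw [← Real.rpow_add hL0, sub_add_cancel]
    rw [div_mul_eq_mul_div, div_le_iff₀ hτ] at h6
    rw [div_le_iff₀ (by positivity)]
    have e1 : 1 / 2 * (L ^ e2 / L) * (τ * L) = L ^ e2 * τ / 2 := by field_simp
    rw [e1]
    linarith
  have hLe21 : L ^ (e2 - 1) ≤ 1 := Real.rpow_le_one_of_one_le_of_nonpos tL (by linarith)
  have hr4 : r ≤ 1 := by linarith
  have hx1 : ∀ j, |x j| ≤ L ^ (e2 - 1) := fun j =>
    (hx j).trans (Real.rpow_le_rpow_of_exponent_le tL (by linarith))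
  have hx2 : ∀ j, |x j| ≤ 1 := fun j => (hx1 j).trans hLe21
  have ha0 : 0 < a := lt_of_lt_of_le (by positivity) ha1
  have ha4 : 4 * a ≤ δ / L := by
    have : 4 * (δ / 4 / L) = δ / L := by ring
    linarith
  set G := (G1 1 D T ∩ G2 A2 c e2 T ∩ GT κ c ε' T ∩ Set.Icc (T + 6 * L) (2 * T - 6 * L)) \ E0 with hG
  have hGm : MeasurableSet G := (((g1.inter g2).inter (GT_meas κ c ε' T)).inter measurableSet_Icc).diff hE0m
  have hGI : G ⊆ Set.Icc (T + 6 * L) (2 * T - 6 * L) := fun t ht => ht.1.2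
  have hGI' : G ⊆ Set.Icc T (2 * T) := hGI.trans (Set.Icc_subset_Icc (by linarith) (by linarith))
  have hGI1 : G ⊆ Set.Icc (T + 1) (2 * T - 1) := hGI.trans (Set.Icc_subset_Icc (by linarith) (by linarith))
  -- the weighted count
  have hblk := tB g1 U1 U2 hefd G hGm (by
    intro t ht
    exact ⟨ht.1.1.1.1, ⟨by linarith [ht.1.2.1], by linarith [ht.1.2.2]⟩⟩) (by
      refine le_trans ?_ tm
      refine mul_le_mul_of_nonneg_right ?_ hI0
      linarith)
  have hsm := pair_mass (σ := σ) (a := a) hσ tP (by rw [← hL]; exact tL) tT1 hGm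
    (fun t ht => ht.1.1.1.2) hGI hδ hδ1 ha0 ha4 hr1 hr2 hr4 hU1 hU1' hU2 hU2' hblk
  rw [← hK] at hsm
  set As : Set ℝ := Set.Icc T (2 * T) ∩ PS σ a with hAs
  have hcM := cMTinv_lt
  have hmA : c1 * IV κ c A T ≤ ∫ t in As, V κ c A T t := by
    have h7 : 1 / 4 * (2 * r * (L / (2 * Real.pi)) * IV κ c A T) ≤
        (2 - cMTinv - 1 / 8) * (2 * r * (L / (2 * Real.pi)) * IV κ c A T) := by
      refine mul_le_mul_of_nonneg_right (by linarith) (by positivity)
    have h8 : α₀ / L * (1 / 4 * (2 * r * (L / (2 * Real.pi)) * IV κ c A T)) ≤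
        2 * r * K * ∫ t in As, V κ c A T t := by
      calc α₀ / L * (1 / 4 * (2 * r * (L / (2 * Real.pi)) * IV κ c A T)) ≤
          a * (1 / 4 * (2 * r * (L / (2 * Real.pi)) * IV κ c A T)) :=
            mul_le_mul_of_nonneg_right ha1 (by positivity)
        _ ≤ _ := (mul_le_mul_of_nonneg_left h7 ha0.le).trans hsm
    have h9 : α₀ / L * (1 / 4 * (2 * r * (L / (2 * Real.pi)) * IV κ c A T)) =
        2 * r * K * (c1 * IV κ c A T) := by
      rw [hc1d]; field_simp; ring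
    rw [h9] at h8
    exact le_of_mul_le_mul_left h8 (by positivity)
  have hAsm : MeasurableSet As := measurableSet_Icc.inter (PS_meas σ a)
  -- the set
  set B : Fin n → Set ℝ := fun j => G ∩ {t | t + x j ∉ G} with hB
  have hBm : ∀ j, MeasurableSet (B j) := by
    intro j
    refine hGm.inter ?_
    have : {t : ℝ | t + x j ∉ G} = (fun t : ℝ => t + x j) ⁻¹' Gᶜ := rfl
    rw [this]
    exact (measurable_add_const (x j)) hGm.compl
  have hBI : ∀ j, B j ⊆ Set.Icc T (2 * T) := fun j => Set.inter_subset_left.trans hGI'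
  set Bu : Set ℝ := ⋃ j ∈ (Finset.univ : Finset (Fin n)), B j with hBu
  have hBum : MeasurableSet Bu := Finset.measurableSet_biUnion _ fun j _ => hBm j
  have hBuI : Bu ⊆ Set.Icc T (2 * T) := Set.iUnion₂_subset fun j _ => hBI j
  set E := (G \ Bu) ∩ PS σ a with hE
  have hEm : MeasurableSet E := (hGm.diff hBum).inter (PS_meas σ a)
  have hIV : IV κ c A T = ∫ t in Set.Icc T (2 * T), V κ c A T t := by
    unfold IV
    rw [integral_Icc_eq_integral_Ioc, ← intervalIntegral.integral_of_le (by linarith)]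
  have hVI : IntegrableOn (V κ c A T) (Set.Icc T (2 * T)) :=
    hV.continuousOn.integrableOn_compact isCompact_Icc
  have hcomp : ∫ t in Set.Icc T (2 * T) \ G, V κ c A T t ≤ 6 * η * IV κ c A T := by
    have h7 := setIntegral_sdiff hGm hVI hGI'
    rw [h7, ← hIV]
    linarith
  have hbad : ∫ t in Bu, V κ c A T t ≤ n * (K * (6 * η * IV κ c A T)) := by
    refine (int_biUnion_le hV hV0 Finset.univ hBm hBI).trans ?_
    have h7 : ∀ j ∈ (Finset.univ : Finset (Fin n)), ∫ t in B j, V κ c A T t ≤ K * (6 * η * IV κ c A T) := by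
      intro j _
      refine (shift_bad hV hV0 hK0.le hGm hGI1 (hx2 j) ?_).trans (mul_le_mul_of_nonneg_left hcomp hK0.le)
      intro t ht
      refine V_cmp tP hL0 ht.1.1.1.2 ?_
      rw [add_sub_cancel_left]
      exact hx1 j
    refine (Finset.sum_le_sum h7).trans (le_of_eq ?_)
    rw [Finset.sum_const, Finset.card_univ, Fintype.card_fin, nsmul_eq_mul]
  have hEb : E ⊆ Set.Icc T (2 * T) := fun t ht => hGI' ht.1.1
  have hmE : c1 / 2 * IV κ c A T ≤ ∫ t in E, V κ c A T t := by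
    have h7 : As ⊆ E ∪ (Bu ∪ (Set.Icc T (2 * T) \ G)) := by
      rintro t ⟨ht1, ht2⟩
      by_cases h : t ∈ G
      · by_cases h' : t ∈ Bu
        · exact Or.inr (Or.inl h')
        · exact Or.inl ⟨⟨h, h'⟩, ht2⟩
      · exact Or.inr (Or.inr ⟨ht1, h⟩)
    have h8' : Bu ∪ (Set.Icc T (2 * T) \ G) ⊆ Set.Icc T (2 * T) := Set.union_subset hBuI Set.sdiff_subset
    have h8 : E ∪ (Bu ∪ (Set.Icc T (2 * T) \ G)) ⊆ Set.Icc T (2 * T) := Set.union_subset hEb h8'
    have h9 : ∫ t in As, V κ c A T t ≤ ∫ t in E ∪ (Bu ∪ (Set.Icc T (2 * T) \ G)), V κ c A T t :=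
      setIntegral_mono_set (hVI.mono_set h8) (Filter.Eventually.of_forall fun t => hV0 t)
        (Filter.Eventually.of_forall h7)
    have h10 := int_union_le hV hV0 hEm (hBum.union (measurableSet_Icc.diff hGm)) h8
    have h12 := int_union_le hV hV0 hBum (measurableSet_Icc.diff hGm) h8'
    have h11 : 6 * η * (1 + n * K) * IV κ c A T ≤ c1 / 2 * IV κ c A T :=
      mul_le_mul_of_nonneg_right hη1 hI0
    have h13 : 6 * η * (1 + n * K) * IV κ c A T = 6 * η * IV κ c A T + n * (K * (6 * η * IV κ c A T)) := by ring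
    linarith
  have hEt : volume E ≠ ⊤ := (measure_lt_top_of_subset hEb
    (by rw [Real.volume_Icc]; exact ENNReal.ofReal_ne_top)).ne
  have hVE : ∫ t in E, V κ c A T t ≤
      9 / 4 * Real.exp (2 * κ ^ 2 * sc c T + 2 * (|κ| * ε') * LL T) * volume.real E := by
    have h7 : ∫ t in E, V κ c A T t ≤
        ∫ _ in E, 9 / 4 * Real.exp (2 * κ ^ 2 * sc c T + 2 * (|κ| * ε') * LL T) :=
      setIntegral_mono_on (hVI.mono_set hEb) (integrableOn_const hEt) hEm
        fun t ht => V_size hL0 tP ht.1.1.1.1.1.2 ht.1.1.1.1.2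
    rw [setIntegral_const, smul_eq_mul] at h7
    linarith
  have hvol := vol_calc (c := c) (A := A) (C1 := C1) (ε' := ε') (q := c1 / 2) (vol := volume.real E) hC10 hc1
    (by positivity) hε hε'3 tL hT0' hLL0 y1 y2 w2 (hmE.trans hVE) measureReal_nonneg
  refine hvol.trans ?_
  refine measureReal_mono ?_ ?_
  · rintro t ⟨⟨ht1, ht2⟩, ht4⟩
    have ht3 := hGI' ht1
    refine ⟨ht3.1, ht3.2, fun j => ?_, ht4⟩
    have h7 : t + x j ∈ G := by
      by_contra hcon
      exact ht2 (Set.mem_iUnion₂.mpr ⟨j, Finset.mem_univ j, ht1, hcon⟩)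
    exact zeta_size hc1 hε hcκ hLL0 y1 hε'2 (min_le_left _ _) w3 h7.1.1.2 (hE0z _ (hGI' h7) h7.2)
  · have hsub : many n κ ε T x σ a ⊆ Set.Icc T (2 * T) := by
      rintro t ⟨h1, h2, -⟩
      exact ⟨h1, h2⟩
    exact (measure_lt_top_of_subset hsub
      (by rw [Real.volume_Icc]; exact ENNReal.ofReal_ne_top)).ne

end Pool.Agent.X117.SHF
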