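import Pool.Agent.X117.Shift2
import Pool.Agent.X117.Dens2

/-!
# Shifted products: the zeros form a null set, and the phases
-/

namespace Pool.Agent.X117.SHF

open Filter Topology MeasureTheory Complex
open Pool.Agent.Y745.LD Pool.Agent.X117.HZ Pool.Agent.X117.DS

/-- the zeros form a null set -/
lemma ae_zeta_ne : ∀ᵐ t : ℝ, riemannZeta (1 / 2 + (t : ℂ) * I) ≠ 0 := by
  have han : AnalyticOnNhd ℝ (fun t : ℝ => riemannZeta (1 / 2 + (t : ℂ) * I)) Set.univ := by
    intro t _
    have h1 : AnalyticAt ℂ riemannZeta (1 / 2 + (t : ℂ) * I) := by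
      have hd : DifferentiableOn ℂ riemannZeta {1}ᶜ := fun s hs =>
        (differentiableAt_riemannZeta hs).differentiableWithinAt
      refine hd.analyticAt (isOpen_compl_singleton.mem_nhds ?_)
      intro h
      have := congrArg Complex.re h
      norm_num at this
    have h2 : AnalyticAt ℝ (fun t : ℝ => (1 / 2 + (t : ℂ) * I)) t := by
      have h3 : AnalyticAt ℝ (fun t : ℝ => (t : ℂ)) t := Complex.ofRealCLM.analyticAt t
      exact analyticAt_const.add (h3.mul analyticAt_const)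
    exact AnalyticAt.fun_comp (f := fun t : ℝ => (1 / 2 + (t : ℂ) * I)) (h1.restrictScalars (𝕜 := ℝ)) h2
  obtain ⟨T, hT, h1⟩ := ((signed_values 0 one_pos (Or.inl rfl)).and (eventually_ge_atTop 3)).exists
  have hL : 0 < Real.log T := Real.log_pos (by linarith)
  have hne : ∃ t : ℝ, riemannZeta (1 / 2 + (t : ℂ) * I) ≠ 0 := by
    by_contra hcon
    push Not at hcon
    have hempty : {t : ℝ | T ≤ t ∧ t ≤ 2 * T ∧
        |Real.log ‖riemannZeta (1 / 2 + t * I)‖ - 0 * LL T| ≤ 1 * LL T ∧ 0 < (1 : ℝ) * Z t} = ∅ := by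
      rw [Set.eq_empty_iff_forall_notMem]
      rintro t ⟨-, -, -, h2⟩
      have h3 := abs_Z t
      rw [show (1 / 2 + I * (t : ℂ)) = 1 / 2 + (t : ℂ) * I by ring, hcon t, norm_zero, abs_eq_zero] at h3
      rw [h3] at h2
      norm_num at h2
    rw [hempty, measureReal_empty] at hT
    have : 0 < T * Real.log T ^ (-(0 : ℝ) ^ 2 - 1) := by positivity
    linarith
  obtain ⟨t, ht⟩ := hne
  have h2 := han.preimage_zero_mem_codiscrete ht
  have h3 := _root_.ae_restrict_le_codiscreteWithin (μ := (volume : Measure ℝ)) MeasurableSet.univ h2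
  rw [Measure.restrict_univ] at h3
  filter_upwards [h3] with x hx
  exact hx

lemma ae_Z_ne : ∀ᵐ t : ℝ, Z t ≠ 0 := by
  filter_upwards [ae_zeta_ne] with t ht h0
  have h3 := abs_Z t
  rw [h0, abs_zero] at h3
  apply ht
  rw [show (1 / 2 + (t : ℂ) * I) = 1 / 2 + I * (t : ℂ) by ring]
  exact norm_eq_zero.mp h3.symm

lemma ae_Z_shift (x : ℝ) : ∀ᵐ t : ℝ, Z (t + x) ≠ 0 :=
  (measurePreserving_add_right (volume : Measure ℝ) x).quasiMeasurePreserving.ae ae_Z_ne

/-- the set of `shifted`, with bounds by powers -/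
lemma many_ae (n : ℕ) {κ ε T : ℝ} (hL0 : 0 < Real.log T) (x : Fin n → ℝ) (σ a : ℝ) :
    ∀ᵐ t : ℝ, t ∈ many n κ ε T x σ a → (T ≤ t ∧ t ≤ 2 * T ∧ 0 < σ * (Z (t - a) * Z (t + a))) ∧
      ∀ j, Real.log T ^ (κ - ε) ≤ |Z (t + x j)| ∧ |Z (t + x j)| ≤ Real.log T ^ (κ + ε) := by
  have h1 : ∀ᵐ t : ℝ, ∀ j, Z (t + x j) ≠ 0 := ae_all_iff.mpr fun j => ae_Z_shift (x j)
  filter_upwards [h1] with t ht hm
  obtain ⟨m1, m2, m3, m4⟩ := hm
  refine ⟨⟨m1, m2, m4⟩, fun j => ?_⟩
  have h2 := m3 j
  have h3 : ‖riemannZeta (1 / 2 + ((t + x j : ℝ) : ℂ) * I)‖ = |Z (t + x j)| := by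
    rw [abs_Z]
    congr 2
    ring
  rw [h3] at h2
  have h7 : 0 < |Z (t + x j)| := abs_pos.mpr (ht j)
  have h8 := abs_le.mp h2
  have hLL : LL T = Real.log (Real.log T) := rfl
  rw [hLL] at h8
  constructor
  · rw [← Real.log_le_log_iff (Real.rpow_pos_of_pos hL0 _) h7, Real.log_rpow hL0]
    linarith [h8.1]
  · rw [← Real.log_le_log_iff h7 (Real.rpow_pos_of_pos hL0 _), Real.log_rpow hL0]
    linarith [h8.2]

lemma pow_near_one {w : ℂ} (hw : ‖w‖ = 1) (k : ℕ) : ‖w ^ k - 1‖ ≤ k * ‖w - 1‖ := by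
  induction k with
  | zero => simp
  | succ k ih =>
    have h1 : w ^ (k + 1) - 1 = (w ^ k - 1) * w + (w - 1) := by ring
    rw [h1]
    refine (norm_add_le _ _).trans ?_
    rw [norm_mul, hw, mul_one]
    push_cast
    linarith

/-- the phases at two points at a distance of the order of the mean spacing -/
lemma phase_pair {α η : ℝ} (hα : 0 < α) (hα1 : α ≤ 1) (hη : 0 < η) : ∀ᶠ S : ℝ in atTop, ∀ t : ℝ, S ≤ t →
    t ≤ 2 * S → ‖cexp (I * α) * ((starRingEnd ℂ) (phase (t + α / Real.log (2 * S))) *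
      phase (t - α / Real.log (2 * S))) - 1‖ ≤ η := by
  have hLT := Real.tendsto_log_atTop
  filter_upwards [eventually_ge_atTop (200 : ℝ), eventually_ge_atTop (200 / η),
    hLT.eventually_ge_atTop (10 / η), hLT.eventually_ge_atTop 10] with S hS hSη hLη hL10 t ht1 ht2
  have hS0 : 0 < S := by linarith
  have hpi := Real.pi_pos
  have hpi3 := Real.pi_gt_three
  have hpi4 := Real.pi_lt_four
  set M := Real.log (2 * S) with hM
  have hlog2 : Real.log 2 ≤ 1 := by linarith [Real.log_two_lt_d9]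
  have hlog20 : 0 ≤ Real.log 2 := by linarith [Real.log_two_gt_d9]
  have hMS : M = Real.log 2 + Real.log S := by rw [hM, Real.log_mul (by norm_num) hS0.ne']
  have hM0 : 0 < M := by linarith
  set a : ℝ := α / M with ha
  have ha0 : 0 < a := by positivity
  have ha1 : a ≤ 1 := by rw [ha, div_le_one hM0]; linarith
  obtain ⟨w1, hw1, hp1⟩ := phase_near (t := t + a) (by linarith)
  obtain ⟨w2, hw2, hp2⟩ := phase_near (t := t - a) (by linarith)
  set β : ℝ := α - (th (t + a) - th (t - a)) with hβ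
  -- the size of `β`
  have hsl := th_slope (a := t - a) (b := t + a) (by linarith) (by linarith)
  have e0 : t + a - (t - a) = 2 * a := by ring
  rw [e0] at hsl
  have haM : a * M = α := by rw [ha]; field_simp
  have hlo : M - 4 ≤ Real.log ((t - a) / (2 * Real.pi)) := by
    rw [Real.log_div (by linarith) (by positivity), Real.log_mul (by norm_num) hpi.ne']
    have h1 : Real.log (S / 2) ≤ Real.log (t - a) := Real.log_le_log (by positivity) (by linarith)
    rw [Real.log_div hS0.ne' (by norm_num)] at h1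
    have h2 : Real.log Real.pi ≤ Real.log 4 := Real.log_le_log hpi hpi4.le
    have h3 : Real.log 4 = 2 * Real.log 2 := by
      rw [show (4 : ℝ) = 2 ^ 2 by norm_num, Real.log_pow]; norm_num
    have h4 : Real.log 2 ≤ 0.7 := by linarith [Real.log_two_lt_d9]
    linarith
  have hhi : Real.log ((t + a) / (2 * Real.pi)) ≤ M := by
    rw [hM]
    refine Real.log_le_log (div_pos (by linarith) (by positivity)) ?_
    rw [div_le_iff₀ (by positivity)]
    nlinarith
  have hβ1 : |β| ≤ 4 / M := by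
    rw [abs_le]
    have h4 : a * 4 ≤ 4 / M := by
      rw [ha, div_mul_eq_mul_div]
      gcongr
      linarith
    constructor
    · have h5 : Real.log ((t + a) / (2 * Real.pi)) / 2 * (2 * a) ≤ α := by
        rw [← haM]
        have := mul_le_mul_of_nonneg_left hhi ha0.le
        linarith
      have : 0 < 4 / M := by positivity
      linarith [hsl.2]
    · have h5 : α - a * 4 ≤ Real.log ((t - a) / (2 * Real.pi)) / 2 * (2 * a) := by
        have := mul_le_mul_of_nonneg_left hlo ha0.le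
        have h6 : a * (M - 4) = α - a * 4 := by rw [mul_sub, haM]
        linarith
      linarith [hsl.1]
  have hβ2 : |β| ≤ η / 2 := by
    refine hβ1.trans ?_
    rw [div_le_iff₀ hη] at hLη
    rw [div_le_div_iff₀ hM0 (by norm_num)]
    nlinarith
  have hwS : ∀ w : ℂ, ∀ u : ℝ, S / 2 ≤ u → ‖w - 1‖ ≤ 9 / u → ‖w - 1‖ ≤ η / 10 := by
    intro w u hu hw
    have hu0 : 0 < u := by linarith
    refine hw.trans ?_
    rw [div_le_iff₀ hη] at hSη
    rw [div_le_div_iff₀ hu0 (by norm_num)]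
    nlinarith
  have hw1' := hwS w1 (t + a) (by linarith) hw1
  have hw2' := hwS w2 (t - a) (by linarith) hw2
  have hn1 : ‖w1‖ = 1 := by
    have h := congrArg norm hp1
    rw [phase_norm, norm_mul, Complex.norm_exp_ofReal_mul_I, one_mul] at h
    exact h.symm
  have hn2 : ‖w2‖ = 1 := by
    have h := congrArg norm hp2
    rw [phase_norm, norm_mul, Complex.norm_exp_ofReal_mul_I, one_mul] at h
    exact h.symm
  have hprod : cexp (I * α) * ((starRingEnd ℂ) (phase (t + a)) * phase (t - a)) =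
      cexp (I * (β : ℝ)) * ((starRingEnd ℂ) w1 * w2) := by
    rw [hp1, hp2, map_mul, ← Complex.exp_conj, map_mul, Complex.conj_ofReal, Complex.conj_I]
    have h4 : cexp (I * (β : ℝ)) = cexp (I * α) * (cexp ((th (t + a) : ℂ) * -I) * cexp ((th (t - a) : ℂ) * I)) := by
      rw [← Complex.exp_add, ← Complex.exp_add, hβ]
      congr 1
      push_cast
      ring
    rw [h4]
    ring
  rw [hprod]
  have h5 : cexp (I * (β : ℝ)) * ((starRingEnd ℂ) w1 * w2) - 1 =
      (cexp (I * (β : ℝ)) - 1) * ((starRingEnd ℂ) w1 * w2) + (((starRingEnd ℂ) (w1 - 1)) * w2 + (w2 - 1)) := by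
    rw [map_sub, map_one]; ring
  rw [h5]
  have h6 : ‖cexp (I * (β : ℝ)) - 1‖ ≤ |β| := by
    have := Real.norm_exp_I_mul_ofReal_sub_one_le (x := β)
    rwa [Real.norm_eq_abs] at this
  calc _ ≤ ‖(cexp (I * (β : ℝ)) - 1) * ((starRingEnd ℂ) w1 * w2)‖ +
        (‖((starRingEnd ℂ) (w1 - 1)) * w2‖ + ‖w2 - 1‖) :=
        (norm_add_le _ _).trans (add_le_add_right (norm_add_le _ _) _)
    _ = ‖cexp (I * (β : ℝ)) - 1‖ + (‖w1 - 1‖ + ‖w2 - 1‖) := by
        rw [norm_mul, norm_mul, norm_mul, Complex.norm_conj, Complex.norm_conj, hn1, hn2]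
        ring
    _ ≤ η / 2 + (η / 10 + η / 10) := by gcongr; exact h6.trans hβ2
    _ ≤ η := by linarith

end Pool.Agent.X117.SHF
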