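import Pool.Agent.X117.Deriv3
import Pool.Agent.H353R2.An

/-!
# Large values of zeta near its zeros: the local estimate
-/

namespace Pool.Agent.X117.SZ

open Filter Topology MeasureTheory Complex H370 Set Metric
open Pool.Agent.Y745.UP Pool.Agent.Y419.UP Pool.Agent.X117.DZ

/-- the mean value of the local integrals, radius `A / log T` -/
theorem Phi_int2 {k A : ℝ} (hk : 0 < k) (hk2 : k ≤ 2) (hA : 0 < A) : ∃ C : ℝ, 1 ≤ C ∧ ∀ᶠ T : ℝ in atTop,
    ∫ t in (T - 1)..(2 * T + 1), Phi k (3 * (A / Real.log T)) (A / Real.log T) t ≤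
      C * (T * Real.log T ^ (k ^ 2 - 2)) := by
  obtain ⟨C1, hC1, hs⟩ := Pool.Agent.Y568.UP.t_STRIP Pool.Agent.Y732.UP.t_SUBA
    Pool.Agent.Y745.UP.a_OUT k (2 * A) hk hk2 (by positivity)
  refine ⟨24 * A ^ 2 * C1 + 1, by nlinarith [sq_nonneg A], ?_⟩
  filter_upwards [hs, eventually_ge_atTop (10 : ℝ), Real.tendsto_log_atTop.eventually_ge_atTop 1,
    Real.tendsto_log_atTop.eventually_ge_atTop (3 * A)] with T hT hT10 hL1 hL3
  have hL0 : 0 < Real.log T := by linarith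
  set L := Real.log T with hL
  set R : ℝ := A / L with hR
  have hR0 : 0 < R := by positivity
  set ρ : ℝ := 3 * R with hρ
  have hρ0 : 0 ≤ ρ := by positivity
  have hρ1 : ρ ≤ 1 := by
    rw [hρ, hR, ← mul_div_assoc, div_le_one hL0]
    exact hL3
  have hsw1 : ∫ t in (T - 1)..(2 * T + 1), Phi k ρ R t = ∫ u in (-(2 * R))..(2 * R), ∫ t in (T - 1)..(2 * T + 1),
      ∫ v in (-ρ)..ρ, gz (2 * k) u (t + v) := by
    unfold Phi
    refine intervalIntegral_intervalIntegral_swap ?_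
    refine ((inner_cont hk ρ).continuousOn.integrableOn_compact
      ((isCompact_uIcc (a := T - 1) (b := 2 * T + 1)).prod (isCompact_uIcc (a := -(2 * R)) (b := 2 * R)))).mono_set ?_
    exact prod_mono uIoc_subset_uIcc uIoc_subset_uIcc
  have hsw2 : ∀ u : ℝ, ∫ t in (T - 1)..(2 * T + 1), ∫ v in (-ρ)..ρ, gz (2 * k) u (t + v) =
      ∫ v in (-ρ)..ρ, ∫ t in (T - 1)..(2 * T + 1), gz (2 * k) u (t + v) := by
    intro u
    refine intervalIntegral_intervalIntegral_swap ?_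
    have hc : Continuous (Function.uncurry fun t v : ℝ => gz (2 * k) u (t + v)) :=
      (cont_gz1 (show 0 < 2 * k by linarith) u).comp (continuous_fst.add continuous_snd)
    refine (hc.continuousOn.integrableOn_compact
      ((isCompact_uIcc (a := T - 1) (b := 2 * T + 1)).prod (isCompact_uIcc (a := -ρ) (b := ρ)))).mono_set ?_
    exact prod_mono uIoc_subset_uIcc uIoc_subset_uIcc
  have hin : ∀ u ∈ Icc (-(2 * R)) (2 * R), ∀ v ∈ Icc (-ρ) ρ,
      ∫ t in (T - 1)..(2 * T + 1), gz (2 * k) u (t + v) ≤ C1 * (T * L ^ (k ^ 2)) := by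
    intro u hu v hv
    rw [intervalIntegral.integral_comp_add_right (fun t => gz (2 * k) u t) v]
    have hu' : |u| ≤ 2 * A / L := by
      rw [abs_le]
      have : 2 * R = 2 * A / L := by rw [hR]; ring
      rw [← this]
      exact ⟨hu.1, hu.2⟩
    have h1 := hT u hu'
    rw [← int_gz (by linarith)] at h1
    refine (mono_int (cont_gz1 (by linarith) u) (fun t => gz_nonneg _ _ _) ?_ ?_ ?_).trans h1
    · linarith [hv.1]
    · linarith
    · linarith [hv.2]
  rw [hsw1]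
  have hbd : ∀ u ∈ Icc (-(2 * R)) (2 * R), ∫ t in (T - 1)..(2 * T + 1), ∫ v in (-ρ)..ρ, gz (2 * k) u (t + v) ≤
      2 * ρ * (C1 * (T * L ^ (k ^ 2))) := by
    intro u hu
    rw [hsw2]
    have h2 : ∫ v in (-ρ)..ρ, ∫ t in (T - 1)..(2 * T + 1), gz (2 * k) u (t + v) ≤
        ∫ _ in (-ρ)..ρ, C1 * (T * L ^ (k ^ 2)) := by
      refine intervalIntegral.integral_mono_on (by linarith) ?_ (by simp) fun v hv => hin u hu v hv
      refine Continuous.intervalIntegrable ?_ _ _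
      refine intervalIntegral.continuous_parametric_intervalIntegral_of_continuous' ?_ _ _
      exact (cont_gz1 (show 0 < 2 * k by linarith) u).comp (continuous_snd.add continuous_fst)
    refine h2.trans (le_of_eq ?_)
    rw [intervalIntegral.integral_const, smul_eq_mul]
    ring
  have h3 : ∫ u in (-(2 * R))..(2 * R), ∫ t in (T - 1)..(2 * T + 1), ∫ v in (-ρ)..ρ, gz (2 * k) u (t + v) ≤
      ∫ _ in (-(2 * R))..(2 * R), 2 * ρ * (C1 * (T * L ^ (k ^ 2))) := by
    refine intervalIntegral.integral_mono_on (by linarith) ?_ (by simp) hbd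
    refine Continuous.intervalIntegrable ?_ _ _
    refine intervalIntegral.continuous_parametric_intervalIntegral_of_continuous' ?_ _ _
    exact (inner_cont hk ρ).comp (continuous_snd.prodMk continuous_fst)
  refine h3.trans ?_
  have h4 : (0 : ℝ) ≤ T * L ^ (k ^ 2 - 2) := by positivity
  calc ∫ _ in (-(2 * R))..(2 * R), 2 * ρ * (C1 * (T * L ^ (k ^ 2)))
      = 24 * A ^ 2 * C1 * (T * L ^ (k ^ 2 - 2)) := by
        rw [intervalIntegral.integral_const, smul_eq_mul, Real.rpow_sub hL0, hρ, hR]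
        have : L ^ (2 : ℝ) = L ^ 2 := by norm_cast
        rw [this]
        field_simp
        ring
    _ ≤ (24 * A ^ 2 * C1 + 1) * (T * L ^ (k ^ 2 - 2)) := by nlinarith

/-- Schwarz's lemma with several zeros and multiplicities -/
theorem schwarz {f : ℂ → ℂ} {U : Set ℂ} {c : ℂ} {r R M : ℝ} (hU : IsOpen U) (hf : DifferentiableOn ℂ f U)
    (hr : 0 ≤ r) (hrR : r < R) (hsub : closedBall c R ⊆ U) (Z : Finset ℂ) (n : ℂ → ℕ)
    (hZ : ∀ z ∈ Z, ‖z - c‖ ≤ r) (hn : ∀ z ∈ Z, (n z : ℕ∞) ≤ analyticOrderAt f z)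
    (hM : ∀ u, ‖u - c‖ ≤ R → ‖f u‖ ≤ M) :
    ∀ u, ‖u - c‖ ≤ R → ‖f u‖ ≤ M * ∏ z ∈ Z, (‖u - z‖ / (R - r)) ^ n z := by
  have hR0 : 0 < R := lt_of_le_of_lt hr hrR
  have hd : 0 < R - r := by linarith
  obtain ⟨g, hg, hfg⟩ := H353.div_pts U hU f hf Z n (fun z hz => hsub (by
    rw [mem_closedBall, dist_eq_norm]
    exact (hZ z hz).trans hrR.le)) hn
  set N := ∑ z ∈ Z, n z with hN
  have hM0 : 0 ≤ M := (norm_nonneg _).trans (hM c (by simpa using hR0.le))
  have hgb : ∀ u, ‖u - c‖ ≤ R → ‖g u‖ ≤ M / (R - r) ^ N := by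
    intro u hu
    refine Complex.norm_le_of_forall_mem_frontier_norm_le (U := ball c R) isBounded_ball ?_ ?_ ?_
    · refine DifferentiableOn.diffContOnCl ?_
      rw [closure_ball c hR0.ne']
      exact hg.mono hsub
    · intro v hv
      rw [frontier_ball c hR0.ne', mem_sphere, dist_eq_norm] at hv
      have h1 := hM v hv.le
      rw [hfg v, norm_mul] at h1
      have h2 : (R - r) ^ N ≤ ‖∏ z ∈ Z, (v - z) ^ n z‖ := by
        rw [norm_prod, hN, ← Finset.prod_pow_eq_pow_sum]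
        refine Finset.prod_le_prod (fun _ _ => by positivity) fun z hz => ?_
        rw [norm_pow]
        refine pow_le_pow_left₀ hd.le ?_ _
        have e : v - c = (v - z) + (z - c) := by ring
        have h3 := norm_add_le (v - z) (z - c)
        rw [← e, hv] at h3
        linarith [hZ z hz]
      rw [le_div_iff₀ (by positivity), mul_comm]
      exact (mul_le_mul_of_nonneg_right h2 (norm_nonneg _)).trans h1
    · rw [closure_ball c hR0.ne', mem_closedBall, dist_eq_norm]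
      exact hu
  intro u hu
  rw [hfg u, norm_mul, norm_prod]
  calc (∏ z ∈ Z, ‖(u - z) ^ n z‖) * ‖g u‖ ≤ (∏ z ∈ Z, ‖(u - z) ^ n z‖) * (M / (R - r) ^ N) :=
        mul_le_mul_of_nonneg_left (hgb u hu) (Finset.prod_nonneg fun _ _ => norm_nonneg _)
    _ = M * ∏ z ∈ Z, (‖u - z‖ / (R - r)) ^ n z := by
        rw [hN, ← Finset.prod_pow_eq_pow_sum]
        simp_rw [norm_pow, div_pow]
        rw [Finset.prod_div_distrib]
        ring

/-- a number of zeros beats the growth -/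
lemma mul_pow_le {q k : ℝ} (hq : 0 ≤ q) (hk : 0 < k) (h : q ^ (2 * k) ≤ Real.exp (-1)) (N : ℕ) :
    (N : ℝ) * (q ^ N) ^ (2 * k) ≤ 1 := by
  have e1 : (q ^ N) ^ (2 * k) = (q ^ (2 * k)) ^ N := by
    rw [← Real.rpow_natCast, ← Real.rpow_natCast, ← Real.rpow_mul hq, ← Real.rpow_mul hq, mul_comm]
  rw [e1]
  have h1 : (q ^ (2 * k)) ^ N ≤ Real.exp (-(N : ℝ)) := by
    have := pow_le_pow_left₀ (Real.rpow_nonneg hq _) h N
    rwa [← Real.exp_nat_mul, mul_neg_one] at this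
  have h2 : (N : ℝ) ≤ Real.exp N := by linarith [Real.add_one_le_exp (N : ℝ)]
  calc (N : ℝ) * (q ^ (2 * k)) ^ N ≤ Real.exp N * Real.exp (-(N : ℝ)) :=
        mul_le_mul h2 h1 (pow_nonneg (Real.rpow_nonneg hq _) _) (Real.exp_nonneg _)
    _ = 1 := by rw [← Real.exp_add]; simp

/-- the largest value of `|f|` on a closed disc -/
noncomputable def top (f : ℂ → ℂ) (c : ℂ) (δ : ℝ) : ℝ := sSup ((fun s => ‖f s‖) '' closedBall c δ)

lemma top_nonneg (f : ℂ → ℂ) (c : ℂ) (δ : ℝ) : 0 ≤ top f c δ :=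
  Real.sSup_nonneg (by rintro _ ⟨s, -, rfl⟩; exact norm_nonneg _)

lemma top_le {f : ℂ → ℂ} {c : ℂ} {δ M : ℝ} (hδ : 0 ≤ δ) (h : ∀ s, ‖s - c‖ ≤ δ → ‖f s‖ ≤ M) : top f c δ ≤ M := by
  refine csSup_le ((nonempty_closedBall.2 hδ).image _) ?_
  rintro _ ⟨s, hs, rfl⟩
  exact h s (by rwa [mem_closedBall, dist_eq_norm] at hs)

lemma le_top {f : ℂ → ℂ} {c : ℂ} {δ M : ℝ} (h : ∀ s, ‖s - c‖ ≤ δ → ‖f s‖ ≤ M) {s : ℂ} (hs : ‖s - c‖ ≤ δ) :
    ‖f s‖ ≤ top f c δ := by
  refine le_csSup ⟨M, ?_⟩ ⟨s, by rwa [mem_closedBall, dist_eq_norm], rfl⟩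
  rintro _ ⟨u, hu, rfl⟩
  exact h u (by rwa [mem_closedBall, dist_eq_norm] at hu)

/-- there are zeros with multiplicities adding up to at least `n` at distance at most `δ` -/
def Crowd (f : ℂ → ℂ) (n : ℕ) (δ : ℝ) (c : ℂ) : Prop :=
  ∃ S : Finset ℂ, (∀ z ∈ S, f z = 0 ∧ ‖z - c‖ ≤ δ) ∧ n ≤ ∑ z ∈ S, analyticOrderNatAt f z

lemma ord_le (f : ℂ → ℂ) (z : ℂ) : (analyticOrderNatAt f z : ℕ∞) ≤ analyticOrderAt f z :=
  ENat.coe_toNat_le_self _

/-- the local estimate -/
theorem localBound {f : ℂ → ℂ} {U : Set ℂ} {c : ℂ} {a R M k : ℝ} (hU : IsOpen U) (hf : DifferentiableOn ℂ f U)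
    (ha : 0 < a) (hR : 4 * a < R) (hk : 0 < k) (hsub : closedBall c R ⊆ U)
    (hq : (3 * a / (R - a)) ^ (2 * k) ≤ Real.exp (-1)) (hM : ∀ u, ‖u - c‖ ≤ R → ‖f u‖ ≤ M)
    (Z : Finset ℂ) {n : ℕ} {δ : ℝ} (hδ : 0 ≤ δ) (hδa : 3 * δ ≤ a) (hZ : ∀ z ∈ Z, f z = 0 ∧ ‖z - c‖ ≤ a)
    (hZn : ∀ z ∈ Z, Crowd f n δ z) :
    ∑ z ∈ Z, (analyticOrderNatAt f z : ℝ) * top f z δ ^ (2 * k) ≤ (3 * δ / a) ^ (2 * k * n) * M ^ (2 * k) := by
  have hM0 : 0 ≤ M := (norm_nonneg _).trans (hM c (by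
    rw [sub_self, norm_zero]; linarith))
  -- the largest value on the disc of radius `2a`
  set S := top f c (2 * a) with hS
  have hS0 : 0 ≤ S := top_nonneg _ _ _
  have hle : ∀ u, ‖u - c‖ ≤ 2 * a → ‖f u‖ ≤ S := fun u hu =>
    le_top (fun s hs => hM s (by linarith)) hu
  set N := ∑ z ∈ Z, analyticOrderNatAt f z with hN
  have hSM : S ≤ (3 * a / (R - a)) ^ N * M := by
    refine top_le (by linarith) fun u hu => ?_
    refine (schwarz hU hf ha.le (by linarith) hsub Z (analyticOrderNatAt f) (fun z hz => (hZ z hz).2)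
      (fun z _ => ord_le f z) hM u (by linarith)).trans ?_
    rw [mul_comm]
    refine mul_le_mul_of_nonneg_right ?_ hM0
    rw [hN, ← Finset.prod_pow_eq_pow_sum]
    refine Finset.prod_le_prod (fun z _ => by
      have : 0 < R - a := by linarith
      positivity) fun z hz => ?_
    refine pow_le_pow_left₀ (by
      have : 0 < R - a := by linarith
      positivity) ?_ _
    refine div_le_div_of_nonneg_right ?_ (by linarith)
    have e : u - z = (u - c) - (z - c) := by ring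
    rw [e]
    linarith [norm_sub_le (u - c) (z - c), (hZ z hz).2]
  -- the values near a crowded zero
  have htop : ∀ z ∈ Z, top f z δ ≤ (3 * δ / a) ^ n * S := by
    intro z hz
    obtain ⟨W, hW, hWn⟩ := hZn z hz
    refine top_le hδ fun u hu => ?_
    have h1 := schwarz (c := z) (r := δ) (R := a) (M := S) hU hf hδ (by linarith) (by
      intro v hv
      refine hsub ?_
      rw [mem_closedBall, dist_eq_norm] at hv ⊢
      have e : v - c = (v - z) + (z - c) := by ring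
      rw [e]
      linarith [norm_add_le (v - z) (z - c), (hZ z hz).2]) W (analyticOrderNatAt f) (fun w hw => (hW w hw).2)
      (fun w _ => ord_le f w) (fun v hv => hle v (by
        have e : v - c = (v - z) + (z - c) := by ring
        rw [e]
        linarith [norm_add_le (v - z) (z - c), (hZ z hz).2])) u (by linarith)
    refine h1.trans ?_
    rw [mul_comm]
    refine mul_le_mul_of_nonneg_right ?_ hS0
    have h2 : ∏ w ∈ W, (‖u - w‖ / (a - δ)) ^ analyticOrderNatAt f w ≤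
        (3 * δ / a) ^ (∑ w ∈ W, analyticOrderNatAt f w) := by
      rw [← Finset.prod_pow_eq_pow_sum]
      have had : 0 < a - δ := by linarith
      refine Finset.prod_le_prod (fun w _ => by positivity) fun w hw => ?_
      refine pow_le_pow_left₀ (by positivity) ?_ _
      rw [div_le_div_iff₀ had ha]
      have e : u - w = (u - z) - (w - z) := by ring
      have h3 : ‖u - w‖ ≤ 2 * δ := by
        rw [e]
        linarith [norm_sub_le (u - z) (w - z), (hW w hw).2]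
      nlinarith
    refine h2.trans (pow_le_pow_of_le_one (by positivity) ?_ hWn)
    rw [div_le_one ha]
    exact hδa
  have hq0 : 0 ≤ 3 * a / (R - a) := div_nonneg (by linarith) (by linarith)
  have hb0 : 0 ≤ 3 * δ / a := by positivity
  have h5 : ∀ z ∈ Z, top f z δ ^ (2 * k) ≤ (3 * δ / a) ^ (2 * k * n) * S ^ (2 * k) := by
    intro z hz
    have h6 := Real.rpow_le_rpow (top_nonneg _ _ _) (htop z hz) (show 0 ≤ 2 * k by linarith)
    rw [Real.mul_rpow (pow_nonneg hb0 _) hS0, ← Real.rpow_natCast, ← Real.rpow_mul hb0] at h6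
    rwa [mul_comm (2 * k) (n : ℝ)]
  have h7 : S ^ (2 * k) ≤ ((3 * a / (R - a)) ^ N) ^ (2 * k) * M ^ (2 * k) := by
    have := Real.rpow_le_rpow hS0 hSM (show 0 ≤ 2 * k by linarith)
    rwa [Real.mul_rpow (pow_nonneg hq0 _) hM0] at this
  have hb1 : 0 ≤ (3 * δ / a) ^ (2 * k * n) := Real.rpow_nonneg hb0 _
  calc ∑ z ∈ Z, (analyticOrderNatAt f z : ℝ) * top f z δ ^ (2 * k)
      ≤ ∑ z ∈ Z, (analyticOrderNatAt f z : ℝ) * ((3 * δ / a) ^ (2 * k * n) * S ^ (2 * k)) :=
        Finset.sum_le_sum fun z hz => mul_le_mul_of_nonneg_left (h5 z hz) (Nat.cast_nonneg _)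
    _ = (3 * δ / a) ^ (2 * k * n) * ((N : ℝ) * S ^ (2 * k)) := by
        rw [← Finset.sum_mul, hN]
        push_cast
        ring
    _ ≤ (3 * δ / a) ^ (2 * k * n) * M ^ (2 * k) := by
        refine mul_le_mul_of_nonneg_left ?_ hb1
        calc (N : ℝ) * S ^ (2 * k) ≤ N * (((3 * a / (R - a)) ^ N) ^ (2 * k) * M ^ (2 * k)) :=
              mul_le_mul_of_nonneg_left h7 (Nat.cast_nonneg _)
          _ = (N * ((3 * a / (R - a)) ^ N) ^ (2 * k)) * M ^ (2 * k) := by ring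
          _ ≤ 1 * M ^ (2 * k) := mul_le_mul_of_nonneg_right (mul_pow_le hq0 hk hq N) (Real.rpow_nonneg hM0 _)
          _ = _ := one_mul _

end Pool.Agent.X117.SZ
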