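import Pool.Agent.X117.Sup1

/-!
# Large values of zeta near its zeros: the sum over the zeros
-/

namespace Pool.Agent.X117.SZ

open Filter Topology MeasureTheory Complex H370 Set Metric
open Pool.Agent.Y745.UP Pool.Agent.Y419.UP Pool.Agent.X117.DZ

lemma int_ind {a b x y w : ℝ} (h1 : a < x) (h2 : x ≤ y) (h3 : y ≤ b) :
    ∫ t in Ioc a b, (Icc x y).indicator (fun _ => w) t = (y - x) * w := by
  have e : Ioc a b ∩ Icc x y = Icc x y := by
    refine inter_eq_right.2 fun t ht => ?_
    exact ⟨lt_of_lt_of_le h1 ht.1, ht.2.trans h3⟩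
  rw [setIntegral_indicator measurableSet_Icc, e, setIntegral_const, Measure.real, Real.volume_Icc,
    ENNReal.toReal_ofReal (by linarith), smul_eq_mul]

/-- the domain -/
def U : Set ℂ := {s | 1 < s.im}

lemma U_open : IsOpen U := isOpen_lt continuous_const Complex.continuous_im

lemma zeta_U : DifferentiableOn ℂ riemannZeta U := by
  intro s hs
  refine (differentiableAt_riemannZeta ?_).differentiableWithinAt
  rintro rfl
  have : (1 : ℝ) < (1 : ℂ).im := hs
  simp at this
  linarith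

lemma ball_U {t R : ℝ} (h : 1 + R < t) : closedBall (1 / 2 + I * (t : ℂ)) R ⊆ U := by
  intro s hs
  rw [mem_closedBall, dist_eq_norm] at hs
  have h1 := (Complex.abs_im_le_norm (s - (1 / 2 + I * (t : ℂ)))).trans hs
  have e2 : (s - (1 / 2 + I * (t : ℂ))).im = s.im - t := by simp
  rw [e2, abs_le] at h1
  show 1 < s.im
  linarith [h1.1]

/-- the sum over crowded zeros near the line -/
theorem crowd_sum {k A : ℝ} (hk : 0 < k) (hk2 : k ≤ 2) (hA : 1 ≤ A) : ∃ C : ℝ, 1 ≤ C ∧ ∀ᶠ T : ℝ in atTop,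
    ∀ (n : ℕ) (r : ℝ), 0 < r → r ≤ 1 → ∀ Z : Finset ℂ, (∀ z ∈ Z, riemannZeta z = 0 ∧
      |z.re - 1 / 2| ≤ A / Real.log T ∧ T ≤ z.im ∧ z.im ≤ 2 * T ∧ Crowd riemannZeta n (r / Real.log T) z) →
    ∑ z ∈ Z, (analyticOrderNatAt riemannZeta z : ℝ) * top riemannZeta z (r / Real.log T) ^ (2 * k) ≤
      C * r ^ (2 * k * n) * (T * Real.log T ^ (k ^ 2 + 1)) := by
  set A' : ℝ := 3 * A + 9 * A * Real.exp (1 / (2 * k)) with hA'
  have hA0 : 0 < A := by linarith
  have hexp : 1 < Real.exp (1 / (2 * k)) := Real.one_lt_exp_iff.2 (by positivity)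
  have hA'12 : 12 * A < A' := by rw [hA']; nlinarith
  have hA'0 : 0 < A' := by linarith
  obtain ⟨C, hC, h⟩ := Phi_int2 hk hk2 hA'0
  refine ⟨C, hC, ?_⟩
  filter_upwards [h, eventually_ge_atTop (20 : ℝ), Real.tendsto_log_atTop.eventually_ge_atTop (8 * A')]
    with T hT hT20 hL8
  intro n r hr0 hr1 Z hZ
  have hL0 : 0 < Real.log T := by linarith
  set L := Real.log T with hL
  set R : ℝ := A' / L with hR
  set a : ℝ := 3 * A / L with ha
  set δ : ℝ := r / L with hδ
  have hR0 : 0 < R := by positivity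
  have ha0 : 0 < a := by positivity
  have hδ0 : 0 < δ := by positivity
  have hR8 : R ≤ 1 / 8 := by
    rw [hR, div_le_div_iff₀ hL0 (by norm_num)]
    linarith
  have h4a : 4 * a < R := by
    rw [ha, hR, ← mul_div_assoc]
    exact div_lt_div_of_pos_right (by linarith) hL0
  have h3δ : 3 * δ ≤ a := by
    rw [ha, hδ, ← mul_div_assoc]
    exact div_le_div_of_nonneg_right (by nlinarith) hL0.le
  have hAL : A / L ≤ 1 / 8 := by
    have : A / L ≤ R := div_le_div_of_nonneg_right (by linarith) hL0.le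
    linarith
  have hAL0 : 0 < A / L := by positivity
  -- the ratio
  have hq : (3 * a / (R - a)) ^ (2 * k) ≤ Real.exp (-1) := by
    have e1 : 3 * a / (R - a) = Real.exp (-(1 / (2 * k))) := by
      rw [ha, hR, hA', Real.exp_neg, ← sub_div, ← mul_div_assoc, div_div_div_cancel_right₀ hL0.ne',
        add_sub_cancel_left]
      field_simp
      norm_num
    rw [e1, ← Real.exp_mul]
    refine le_of_eq ?_
    congr 1
    field_simp
  set w : ℂ → ℝ := fun z => (analyticOrderNatAt riemannZeta z : ℝ) * top riemannZeta z δ ^ (2 * k) with hw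
  have hw0 : ∀ z, 0 ≤ w z := fun z => mul_nonneg (Nat.cast_nonneg _) (Real.rpow_nonneg (top_nonneg _ _ _) _)
  set K : ℝ := 1 / (Real.pi * R ^ 2) with hK
  have hK0 : 0 < K := by positivity
  -- pointwise
  have hpt : ∀ t ∈ Ioc (T - 1) (2 * T + 1),
      ∑ z ∈ Z, (Icc (z.im - A / L) (z.im + A / L)).indicator (fun _ => w z) t ≤
        r ^ (2 * k * n) * (K * Phi k (3 * R) R t) := by
    intro t ht
    set Zt := Z.filter (fun z => t ∈ Icc (z.im - A / L) (z.im + A / L)) with hZt
    have e1 : ∑ z ∈ Z, (Icc (z.im - A / L) (z.im + A / L)).indicator (fun _ => w z) t = ∑ z ∈ Zt, w z := by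
      rw [hZt, Finset.sum_filter]
      refine Finset.sum_congr rfl fun z _ => ?_
      rw [indicator_apply]
    rw [e1]
    set P := K * Phi k (3 * R) R t with hP
    have hP0 : 0 ≤ P := mul_nonneg hK0.le (Phi_nonneg (by linarith) hR0.le t)
    have hM : ∀ s : ℂ, ‖s - (1 / 2 + I * t)‖ ≤ R → ‖riemannZeta s‖ ≤ P ^ (1 / (2 * k)) := by
      intro s hs
      have h1 := (Complex.abs_re_le_norm (s - (1 / 2 + I * t))).trans hs
      have h2 := (Complex.abs_im_le_norm (s - (1 / 2 + I * t))).trans hs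
      have e1 : (s - (1 / 2 + I * (t : ℂ))).re = s.re - 1 / 2 := by simp
      have e2 : (s - (1 / 2 + I * (t : ℂ))).im = s.im - t := by simp
      rw [e1] at h1
      rw [e2] at h2
      have h3 := zeta_le_Phi (ρ := 3 * R) hk hR0 (by linarith) (by linarith) (by linarith) (by linarith [ht.1]) h1
        (by linarith)
      have h4 := Real.rpow_le_rpow (Real.rpow_nonneg (norm_nonneg _) _) h3
        (show 0 ≤ 1 / (2 * k) by positivity)
      rwa [← Real.rpow_mul (norm_nonneg _), mul_one_div_cancel (by positivity), Real.rpow_one] at h4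
    have h5 := localBound (f := riemannZeta) (c := 1 / 2 + I * t) (n := n) U_open zeta_U ha0 h4a hk
      (ball_U (by linarith [ht.1])) hq hM Zt hδ0.le h3δ (fun z hz => by
        rw [hZt, Finset.mem_filter] at hz
        obtain ⟨h1, h2, h3, h4, -⟩ := hZ z hz.1
        refine ⟨h1, ?_⟩
        have e3 : z - (1 / 2 + I * (t : ℂ)) = ((z.re - 1 / 2 : ℝ) : ℂ) + ((z.im - t : ℝ) : ℂ) * I := by
          apply Complex.ext <;> simp
        rw [e3]
        refine (norm_add_le _ _).trans ?_
        rw [norm_mul, Complex.norm_I, mul_one, Complex.norm_real, Complex.norm_real, Real.norm_eq_abs,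
          Real.norm_eq_abs]
        have h6 : |z.im - t| ≤ A / L := by
          rw [abs_le]
          constructor <;> linarith [hz.2.1, hz.2.2]
        have e4 : a = 3 * (A / L) := by rw [ha]; ring
        rw [e4]
        linarith) (fun z hz => (hZ z (Finset.mem_filter.1 hz).1).2.2.2.2)
    refine h5.trans ?_
    rw [← Real.rpow_mul hP0, one_div_mul_cancel (by positivity), Real.rpow_one]
    refine mul_le_mul_of_nonneg_right ?_ hP0
    refine Real.rpow_le_rpow (by positivity) ?_ (by positivity)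
    rw [div_le_iff₀ ha0, ha, hδ, ← mul_div_assoc, ← mul_div_assoc]
    refine div_le_div_of_nonneg_right ?_ hL0.le
    nlinarith
  -- integrate
  have hint : IntegrableOn (fun t => ∑ z ∈ Z, (Icc (z.im - A / L) (z.im + A / L)).indicator (fun _ => w z) t)
      (Ioc (T - 1) (2 * T + 1)) := by
    refine integrable_finsetSum _ fun z _ => ?_
    refine Integrable.indicator ?_ measurableSet_Icc
    exact integrableOn_const (by simp)
  have hintP : IntegrableOn (fun t => r ^ (2 * k * n) * (K * Phi k (3 * R) R t)) (Ioc (T - 1) (2 * T + 1)) :=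
    ((continuous_const.mul (continuous_const.mul (Phi_cont hk _ _))).integrableOn_Icc).mono_set Ioc_subset_Icc_self
  have hI := setIntegral_mono_on hint hintP measurableSet_Ioc hpt
  have e5 : ∫ t in Ioc (T - 1) (2 * T + 1), ∑ z ∈ Z, (Icc (z.im - A / L) (z.im + A / L)).indicator (fun _ => w z) t =
      2 * (A / L) * ∑ z ∈ Z, w z := by
    rw [integral_finsetSum _ fun z _ => Integrable.indicator (integrableOn_const (by simp)) measurableSet_Icc,
      Finset.mul_sum]
    refine Finset.sum_congr rfl fun z hz => ?_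
    obtain ⟨h1, h2, h3, h4, -⟩ := hZ z hz
    rw [int_ind (by linarith) (by linarith) (by linarith)]
    ring
  rw [e5, integral_const_mul, integral_const_mul, ← intervalIntegral.integral_of_le (by linarith)] at hI
  have hr' : 0 ≤ r ^ (2 * k * n) := Real.rpow_nonneg hr0.le _
  have hI2 : 2 * (A / L) * ∑ z ∈ Z, w z ≤ r ^ (2 * k * n) * (K * (C * (T * L ^ (k ^ 2 - 2)))) :=
    hI.trans (mul_le_mul_of_nonneg_left (mul_le_mul_of_nonneg_left hT hK0.le) hr')
  have hL2 : L ^ (k ^ 2 - 2) = L ^ (k ^ 2 + 1) / L ^ 3 := by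
    have : L ^ (k ^ 2 - 2) = L ^ ((k ^ 2 + 1) - 3) := by congr 1; ring
    rw [this, Real.rpow_sub hL0]
    congr 1
    norm_cast
  rw [hL2] at hI2
  have hpi : 3 < Real.pi := Real.pi_gt_three
  have hfin : ∑ z ∈ Z, w z ≤ 1 / (2 * A * Real.pi * A' ^ 2) * (r ^ (2 * k * n) * (C * (T * L ^ (k ^ 2 + 1)))) := by
    have e6 : r ^ (2 * k * n) * (K * (C * (T * (L ^ (k ^ 2 + 1) / L ^ 3)))) =
        2 * (A / L) * (1 / (2 * A * Real.pi * A' ^ 2) * (r ^ (2 * k * n) * (C * (T * L ^ (k ^ 2 + 1))))) := by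
      rw [hK, hR]
      field_simp
    rw [e6] at hI2
    exact le_of_mul_le_mul_left hI2 (by positivity)
  refine hfin.trans ?_
  have h8 : 1 / (2 * A * Real.pi * A' ^ 2) ≤ 1 := by
    rw [div_le_one (by positivity)]
    have : 1 ≤ A' ^ 2 := by nlinarith
    have h9 : 1 ≤ 2 * A * Real.pi := by nlinarith
    nlinarith
  calc 1 / (2 * A * Real.pi * A' ^ 2) * (r ^ (2 * k * n) * (C * (T * L ^ (k ^ 2 + 1))))
      ≤ 1 * (r ^ (2 * k * n) * (C * (T * L ^ (k ^ 2 + 1)))) :=
        mul_le_mul_of_nonneg_right h8 (by positivity)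
    _ = _ := by ring

/-- the derivatives at the zeros -/
lemma deriv_le_top {z : ℂ} (hz : 3 ≤ z.im) {δ : ℝ} (hδ : 0 < δ) (hδ1 : δ ≤ 1) (j : ℕ) :
    ‖iteratedDeriv j riemannZeta z‖ ≤ j.factorial * top riemannZeta z δ / δ ^ j := by
  have hb : closedBall z δ ⊆ U := by
    intro s hs
    rw [mem_closedBall, dist_eq_norm] at hs
    have h1 := (Complex.abs_im_le_norm (s - z)).trans hs
    rw [Complex.sub_im, abs_le] at h1
    show 1 < s.im
    linarith [h1.1]
  obtain ⟨M, hM⟩ := (isCompact_closedBall z δ).exists_bound_of_continuousOn (zeta_U.continuousOn.mono hb)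
  refine Complex.norm_iteratedDeriv_le_of_forall_mem_sphere_norm_le j hδ ?_ ?_
  · refine DifferentiableOn.diffContOnCl ?_
    rw [closure_ball z hδ.ne']
    exact zeta_U.mono hb
  · intro s hs
    refine le_top (M := M) (fun u hu => hM u (by rwa [mem_closedBall, dist_eq_norm])) ?_
    rw [mem_sphere, dist_eq_norm] at hs
    exact hs.le

/-- the sum of the powers of the derivatives over crowded zeros near the line -/
theorem crowd_deriv {k A : ℝ} (hk : 0 < k) (hk2 : k ≤ 2) (hA : 1 ≤ A) (j : ℕ) : ∃ C : ℝ, 1 ≤ C ∧ ∀ᶠ T : ℝ in atTop,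
    ∀ (n : ℕ) (r : ℝ), 0 < r → r ≤ 1 → ∀ Z : Finset ℂ, (∀ z ∈ Z, riemannZeta z = 0 ∧
      |z.re - 1 / 2| ≤ A / Real.log T ∧ T ≤ z.im ∧ z.im ≤ 2 * T ∧ Crowd riemannZeta n (r / Real.log T) z) →
    ∑ z ∈ Z, (analyticOrderNatAt riemannZeta z : ℝ) * ‖iteratedDeriv j riemannZeta z‖ ^ (2 * k) ≤
      C * r ^ (2 * k * (n - j)) * (T * Real.log T ^ (k ^ 2 + 2 * k * j + 1)) := by
  obtain ⟨C, hC, h⟩ := crowd_sum hk hk2 hA
  have hj1 : (1 : ℝ) ≤ (j.factorial : ℝ) ^ (2 * k) := by
    apply Real.one_le_rpow _ (by linarith)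
    exact_mod_cast Nat.succ_le_of_lt j.factorial_pos
  refine ⟨(j.factorial : ℝ) ^ (2 * k) * C, by nlinarith, ?_⟩
  filter_upwards [h, eventually_ge_atTop (3 : ℝ), Real.tendsto_log_atTop.eventually_ge_atTop 1] with T hT hT3 hL1
  intro n r hr0 hr1 Z hZ
  have hL0 : 0 < Real.log T := by linarith
  have h1 := hT n r hr0 hr1 Z hZ
  set L := Real.log T with hL
  have hδ0 : 0 < r / L := by positivity
  have hδ1 : r / L ≤ 1 := by
    rw [div_le_one hL0]
    linarith
  set D : ℝ := (j.factorial : ℝ) ^ (2 * k) * (r ^ (-(2 * k * j)) * L ^ (2 * k * j)) with hD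
  have hD0 : 0 ≤ D := by positivity
  have h2 : ∀ z ∈ Z, (analyticOrderNatAt riemannZeta z : ℝ) * ‖iteratedDeriv j riemannZeta z‖ ^ (2 * k) ≤
      D * ((analyticOrderNatAt riemannZeta z : ℝ) * top riemannZeta z (r / L) ^ (2 * k)) := by
    intro z hz
    have h3 := deriv_le_top (z := z) (by linarith [(hZ z hz).2.2.1]) hδ0 hδ1 j
    have h4 := Real.rpow_le_rpow (norm_nonneg _) h3 (show 0 ≤ 2 * k by linarith)
    have ht0 := top_nonneg riemannZeta z (r / L)
    have e1 : ((j.factorial : ℝ) * top riemannZeta z (r / L) / (r / L) ^ j) ^ (2 * k) =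
        D * top riemannZeta z (r / L) ^ (2 * k) := by
      have e2 : (j.factorial : ℝ) * top riemannZeta z (r / L) / (r / L) ^ j =
          j.factorial * (L ^ j * (r ^ j)⁻¹) * top riemannZeta z (r / L) := by
        rw [div_pow]
        field_simp
      rw [e2, Real.mul_rpow (by positivity) ht0, Real.mul_rpow (by positivity) (by positivity),
        Real.mul_rpow (by positivity) (by positivity), hD, Real.inv_rpow (by positivity),
        ← Real.rpow_natCast, ← Real.rpow_natCast, ← Real.rpow_mul hL0.le, ← Real.rpow_mul hr0.le,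
        Real.rpow_neg hr0.le, mul_comm (j : ℝ) (2 * k)]
      ring
    rw [e1] at h4
    calc (analyticOrderNatAt riemannZeta z : ℝ) * ‖iteratedDeriv j riemannZeta z‖ ^ (2 * k)
        ≤ (analyticOrderNatAt riemannZeta z : ℝ) * (D * top riemannZeta z (r / L) ^ (2 * k)) :=
          mul_le_mul_of_nonneg_left h4 (Nat.cast_nonneg _)
      _ = _ := by ring
  calc ∑ z ∈ Z, (analyticOrderNatAt riemannZeta z : ℝ) * ‖iteratedDeriv j riemannZeta z‖ ^ (2 * k)
      ≤ ∑ z ∈ Z, D * ((analyticOrderNatAt riemannZeta z : ℝ) * top riemannZeta z (r / L) ^ (2 * k)) :=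
        Finset.sum_le_sum h2
    _ = D * ∑ z ∈ Z, (analyticOrderNatAt riemannZeta z : ℝ) * top riemannZeta z (r / L) ^ (2 * k) := by
        rw [Finset.mul_sum]
    _ ≤ D * (C * r ^ (2 * k * n) * (T * L ^ (k ^ 2 + 1))) := mul_le_mul_of_nonneg_left h1 hD0
    _ = (j.factorial : ℝ) ^ (2 * k) * C * (r ^ (2 * k * n) * r ^ (-(2 * k * j))) *
          (T * (L ^ (k ^ 2 + 1) * L ^ (2 * k * j))) := by
        rw [hD]; ring
    _ = _ := by
        rw [← Real.rpow_add hr0, ← Real.rpow_add hL0]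
        congr 3
        · ring
        · ring

end Pool.Agent.X117.SZ
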